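import Pool.Agent.Lib.DA.Defs3

/-!
# The semistable model
-/

namespace DA

open Polynomial MP1a953e

/-- the ring `O k [X 0, …, X r] / (X 0 ⋯ X r - ϖ)` -/
abbrev SSr {k : Type*} [NormedField k] [IsUltrametricDist k] (r : ℕ) (ϖ : O k) : Type _ :=
  MvPolynomial (Fin (r + 1)) (O k) ⧸
    Ideal.span {(∏ i, MvPolynomial.X i - MvPolynomial.C ϖ : MvPolynomial (Fin (r + 1)) (O k))}

/-- the coordinates in the semistable model -/
noncomputable def SSr.x {k : Type*} [NormedField k] [IsUltrametricDist k] {r : ℕ} {ϖ : O k}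
    (i : Fin (r + 1)) : SSr r ϖ := Ideal.Quotient.mk _ (MvPolynomial.X i)

/-- the homomorphism `φ` from the semistable model to `B` is smooth -/
def IsSm {k L : Type*} [NormedField k] [IsUltrametricDist k] [NormedField L]
    [IsUltrametricDist L] [NormedAlgebra k L] {r : ℕ} {ϖ : O k} (B : Subalgebra (O k) L)
    (φ : SSr r ϖ →ₐ[O k] B) : Prop := @RingHom.Smooth (SSr r ϖ) B _ _ φ.toRingHom

end DA
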