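import Pool.Agent.Lib.DA.Defs3

/-!
# Module S1: monomials in fine toric coordinates
-/

namespace DA

open Polynomial MP1a953e

section
variable {k L : Type*} [NormedField k] [IsUltrametricDist k] [NormedField L]
  [IsUltrametricDist L] [NormedAlgebra k L] {r : ℕ} {e : Fin r → L}

/-- the product of the toric coordinates is `π` -/
theorem prod_tor (hne : ∀ i, e i ≠ 0) {c : Fin r → k} (hc : ∀ i, c i ≠ 0) (π : k) :
    ∏ i, tor k e c π i = algebraMap k L π := by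
  rw [Fin.prod_univ_succ]
  simp only [tor, Fin.cons_zero, Fin.cons_succ]
  rw [mul_assoc, ← Finset.prod_mul_distrib, Finset.prod_eq_one, mul_one]
  intro i _
  have h1 : algebraMap k L (c i) ≠ 0 := (_root_.map_ne_zero _).2 (hc i)
  rw [div_mul_div_comm, mul_comm (e i), div_self (mul_ne_zero h1 (hne i))]

omit [IsUltrametricDist k] [IsUltrametricDist L] in
private theorem S1_succ (c : Fin r → k) (π : k) (i : Fin r) :
    tor k e c π i.succ = e i / algebraMap k L (c i) := by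
  simp only [tor, Fin.cons_succ]

/-- S1a (a monomial in toric coordinates).  Proof.  Let `t i = tor k e c π i`, `t (i+1) = e i / c i`. Then
`mon k e z a = a' * ∏ t (i+1) ^ z i` with `a' = a * ∏ c i ^ z i`. Let `N` be the maximum of `0` and the
`- z i`; multiplying with `1 = (∏ t i / π) ^ N` we get the exponents `n 0 = N`, `n (i+1) = z i + N ≥ 0` and the
constant `a'' = a' / π ^ N`. (`n` depends only on `z`.) -/
theorem exists_tor_exp (hne : ∀ i, e i ≠ 0) (z : Fin r → ℤ) :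
    ∃ n : Fin (r + 1) → ℕ, ∀ (c : Fin r → k) (π : k), (∀ i, c i ≠ 0) → π ≠ 0 → ∀ a : k,
      ∃ a'' : k, mon k e z a = algebraMap k L a'' * ∏ i, tor k e c π i ^ n i := by
  classical
  set N : ℕ := ∑ i, (z i).natAbs with hN
  have hzN : ∀ i, 0 ≤ z i + N := by
    intro i
    have h1 : (z i).natAbs ≤ N :=
      Finset.single_le_sum (f := fun i => (z i).natAbs) (fun _ _ => Nat.zero_le _)
        (Finset.mem_univ i)
    omega
  refine ⟨Fin.cons N fun i => (z i + N).toNat, fun c π hc hπ a =>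
    ⟨a * (∏ i, c i ^ z i) / π ^ N, ?_⟩⟩
  have hc' : ∀ i, algebraMap k L (c i) ≠ 0 := fun i => (_root_.map_ne_zero _).2 (hc i)
  have hπ' : algebraMap k L π ≠ 0 := (_root_.map_ne_zero _).2 hπ
  have ht : ∀ i : Fin r, tor k e c π i.succ ≠ 0 := fun i => by
    rw [S1_succ]
    exact div_ne_zero (hne i) (hc' i)
  rw [Fin.prod_univ_succ]
  simp only [Fin.cons_zero, Fin.cons_succ]
  have h1 : ∏ i : Fin r, tor k e c π i.succ ^ (z i + N).toNat =
      (∏ i : Fin r, tor k e c π i.succ ^ z i) * (∏ i : Fin r, tor k e c π i.succ) ^ N := by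
    rw [← Finset.prod_pow, ← Finset.prod_mul_distrib]
    refine Finset.prod_congr rfl fun i _ => ?_
    rw [← zpow_natCast, Int.toNat_of_nonneg (hzN i), zpow_add₀ (ht i), zpow_natCast]
  have h2 : tor k e c π 0 * ∏ i : Fin r, tor k e c π i.succ = algebraMap k L π := by
    rw [← prod_tor hne hc π, Fin.prod_univ_succ]
  have h3 : ∏ i : Fin r, tor k e c π i.succ ^ z i =
      (∏ i, e i ^ z i) / ∏ i, algebraMap k L (c i) ^ z i := by
    rw [← Finset.prod_div_distrib]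
    refine Finset.prod_congr rfl fun i _ => ?_
    rw [S1_succ, div_zpow]
  have h4 : ∏ i, algebraMap k L (c i) ^ z i ≠ 0 :=
    Finset.prod_ne_zero_iff.2 fun i _ => zpow_ne_zero _ (hc' i)
  rw [h1, mul_left_comm (tor k e c π 0 ^ N), ← mul_pow, h2, h3, map_div₀, map_mul, map_prod,
    map_pow]
  simp only [map_zpow₀]
  unfold mon
  field_simp

/-- S1b.  Proof.  If `z = 0` the monomial is the constant `a`, of norm `≤ 1`. If `z ≠ 0` then its norm is not `1`
(`hind`), so it is `< 1` (or `a = 0`). With `n` as in S1a choose `δ < 1`, `δ > 0` such that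
`δ ^ (∑ n i) ≥ ‖mon k e z a‖`; then
`‖a''‖ = ‖mon k e z a‖ / ∏ ‖t i‖ ^ n i ≤ ‖mon k e z a‖ / δ ^ (∑ n i) ≤ 1`. -/
theorem mon_mem_tor (hne : ∀ i, e i ≠ 0)
    (hind : ∀ (z : Fin r → ℤ) (c : k), ‖c‖ = ‖∏ i, e i ^ z i‖ → z = 0) (z : Fin r → ℤ) (a : k)
    (hz : ‖mon k e z a‖ ≤ 1) :
    ∃ δ : ℝ, 0 < δ ∧ δ < 1 ∧ ∀ (c : Fin r → k) (π : k), Fine k e c π δ →
      mon k e z a ∈ Tt k e c π := by
  by_cases hz0 : z = 0
  · refine ⟨1 / 2, by norm_num, by norm_num, fun c π _ => ?_⟩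
    have h1 : mon k e z a = algebraMap k L a := by
      unfold mon
      rw [hz0]
      simp
    rw [h1] at hz ⊢
    rw [norm_algebraMap'] at hz
    exact (Tt k e c π).algebraMap_mem ⟨a, mem_O.2 hz⟩
  have hlt : ‖mon k e z a‖ < 1 := by
    refine lt_of_le_of_ne hz fun h1 => hz0 ?_
    refine hind z a⁻¹ ?_
    unfold mon at h1
    rw [norm_mul, norm_algebraMap'] at h1
    rw [norm_inv]
    exact inv_eq_of_mul_eq_one_right h1
  obtain ⟨n, hn⟩ := exists_tor_exp (k := k) hne z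
  set T : ℕ := ∑ i, n i with hT
  set μ : ℝ := ‖mon k e z a‖ with hμ
  have hμ0 : 0 ≤ μ := norm_nonneg _
  set b : ℝ := (1 - μ) / (T + 2) with hb
  have hT0 : (0 : ℝ) ≤ T := Nat.cast_nonneg _
  have hb0 : 0 < b := div_pos (by linarith) (by linarith)
  have hb1 : b ≤ 1 / 2 := by
    rw [hb, div_le_div_iff₀ (by linarith) (by norm_num)]
    linarith
  have hTb : T * b ≤ 1 - μ := by
    rw [hb, mul_div_assoc', div_le_iff₀ (by linarith)]
    nlinarith
  have hpow : μ ≤ (1 - b) ^ T := by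
    have h1 := one_add_mul_le_pow (a := -b) (by linarith) T
    rw [← sub_eq_add_neg] at h1
    nlinarith
  refine ⟨1 - b, by linarith, by linarith, fun c π hf => ?_⟩
  obtain ⟨a'', ha''⟩ := hn c π hf.c_ne hf.π_ne a
  have hprod : (1 - b) ^ T ≤ ‖∏ i, tor k e c π i ^ n i‖ := by
    rw [norm_prod, hT, ← Finset.prod_pow_eq_pow_sum]
    refine Finset.prod_le_prod (fun i _ => pow_nonneg (by linarith) _) fun i _ => ?_
    rw [norm_pow]
    exact pow_le_pow_left₀ (by linarith) (hf.lo i).le _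
  have hpp : 0 < ‖∏ i, tor k e c π i ^ n i‖ := lt_of_lt_of_le (pow_pos (by linarith) _) hprod
  have ha1 : ‖a''‖ ≤ 1 := by
    have h1 : ‖a''‖ * ‖∏ i, tor k e c π i ^ n i‖ = μ := by
      rw [hμ, ha'', norm_mul, norm_algebraMap']
    by_contra hcon
    rw [not_le] at hcon
    have h2 : ‖∏ i, tor k e c π i ^ n i‖ < ‖a''‖ * ‖∏ i, tor k e c π i ^ n i‖ :=
      lt_mul_of_one_lt_left hpp hcon
    linarith
  rw [ha'']
  have ht : ∀ i, tor k e c π i ∈ Tt k e c π := fun i =>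
    Algebra.subset_adjoin (Set.mem_range_self i)
  exact mul_mem ((Tt k e c π).algebraMap_mem ⟨a'', mem_O.2 ha1⟩) (prod_mem fun i _ =>
    pow_mem (ht i) _)

/-- S1c.  Elements of `MBG k e G` are in `BG k e c π G` for fine coordinates: induction over
`Algebra.adjoin`, S1b, and the maximum of finitely many `δ`. -/
theorem mem_BG_of_mem_MBG (hne : ∀ i, e i ≠ 0)
    (hind : ∀ (z : Fin r → ℤ) (c : k), ‖c‖ = ‖∏ i, e i ^ z i‖ → z = 0) {G : Set L} {x : L}
    (hx : x ∈ MBG k e G) :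
    ∃ δ : ℝ, 0 < δ ∧ δ < 1 ∧ ∀ (c : Fin r → k) (π : k), Fine k e c π δ →
      x ∈ BG k e c π G := by
  have hTB : ∀ (c : Fin r → k) (π : k), Tt k e c π ≤ BG k e c π G := fun c π =>
    Algebra.adjoin_mono Set.subset_union_left
  have key : ∀ {x₁ x₂ : L},
      (∃ δ : ℝ, 0 < δ ∧ δ < 1 ∧ ∀ (c : Fin r → k) (π : k), Fine k e c π δ →
        x₁ ∈ BG k e c π G) →
      (∃ δ : ℝ, 0 < δ ∧ δ < 1 ∧ ∀ (c : Fin r → k) (π : k), Fine k e c π δ →
        x₂ ∈ BG k e c π G) →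
      ∃ δ : ℝ, 0 < δ ∧ δ < 1 ∧ ∀ (c : Fin r → k) (π : k), Fine k e c π δ →
        x₁ ∈ BG k e c π G ∧ x₂ ∈ BG k e c π G := by
    rintro x₁ x₂ ⟨δ₁, h10, h11, h12⟩ ⟨δ₂, h20, h21, h22⟩
    refine ⟨max δ₁ δ₂, lt_max_of_lt_left h10, max_lt h11 h21, fun c π hf => ⟨h12 c π ?_,
      h22 c π ?_⟩⟩
    · exact ⟨hf.c_ne, hf.π_ne, fun i => (le_max_left _ _).trans_lt (hf.lo i), hf.hi⟩
    · exact ⟨hf.c_ne, hf.π_ne, fun i => (le_max_right _ _).trans_lt (hf.lo i), hf.hi⟩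
  unfold MBG at hx
  induction hx using Algebra.adjoin_induction with
  | mem x hx =>
    rcases hx with ⟨z, a, rfl, hz⟩ | hx
    · obtain ⟨δ, h0, h1, h2⟩ := mon_mem_tor hne hind z a hz
      exact ⟨δ, h0, h1, fun c π hf => hTB c π (h2 c π hf)⟩
    · exact ⟨1 / 2, by norm_num, by norm_num, fun c π _ =>
        Algebra.subset_adjoin (Set.mem_union_right _ hx)⟩
  | algebraMap a =>
    exact ⟨1 / 2, by norm_num, by norm_num, fun c π _ => (BG k e c π G).algebraMap_mem a⟩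
  | add x y _ _ hx hy =>
    obtain ⟨δ, h0, h1, h2⟩ := key hx hy
    exact ⟨δ, h0, h1, fun c π hf => add_mem (h2 c π hf).1 (h2 c π hf).2⟩
  | mul x y _ _ hx hy =>
    obtain ⟨δ, h0, h1, h2⟩ := key hx hy
    exact ⟨δ, h0, h1, fun c π hf => mul_mem (h2 c π hf).1 (h2 c π hf).2⟩

/-- S1d.  `BG k e c π G ≤ MBG k e G`: the toric coordinates are monomials of norm `< 1`. -/
theorem BG_le_MBG {c : Fin r → k} {π : k} {δ : ℝ} (h : Fine k e c π δ) (G : Set L) :
    BG k e c π G ≤ MBG k e G := by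
  classical
  refine Algebra.adjoin_le ?_
  rintro x (⟨i, rfl⟩ | hx)
  · refine Algebra.subset_adjoin (Set.mem_union_left _ ?_)
    refine Fin.cases ?_ (fun j => ?_) i
    · refine ⟨fun _ => -1, π * ∏ i, c i, ?_, (h.hi 0).le⟩
      simp only [tor, Fin.cons_zero]
      unfold mon
      rw [Finset.prod_div_distrib, map_mul, map_prod]
      simp only [zpow_neg_one, Finset.prod_inv_distrib]
      rw [mul_assoc, div_eq_mul_inv]
    · refine ⟨Pi.single j 1, (c j)⁻¹, ?_, (h.hi j.succ).le⟩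
      rw [S1_succ]
      unfold mon
      rw [Finset.prod_eq_single j, Pi.single_eq_same, zpow_one, map_inv₀, div_eq_inv_mul]
      · intro i _ hij
        rw [Pi.single_eq_of_ne hij, zpow_zero]
      · intro hj
        exact absurd (Finset.mem_univ j) hj
  · exact Algebra.subset_adjoin (Set.mem_union_right _ hx)

end

private theorem S1_dense {k : Type*} [NontriviallyNormedField k] [IsAlgClosed k] {a b : ℝ}
    (ha : 0 < a) (hab : a < b) : ∃ c : k, a < ‖c‖ ∧ ‖c‖ < b := by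
  obtain ⟨x, hx⟩ := NormedField.exists_one_lt_norm k
  have hba : 1 < b / a := by rwa [one_lt_div ha]
  obtain ⟨n, hn⟩ := pow_unbounded_of_one_lt ‖x‖ hba
  have hn0 : 0 < n := by
    rcases Nat.eq_zero_or_pos n with rfl | h
    · rw [pow_zero] at hn
      linarith
    · exact h
  obtain ⟨y, hy⟩ := IsAlgClosed.exists_pow_nat_eq x hn0
  have hyn : ‖y‖ ^ n = ‖x‖ := by rw [← norm_pow, hy]
  have hy1 : 1 < ‖y‖ := by
    by_contra hcon
    rw [not_lt] at hcon
    have := pow_le_one₀ (n := n) (norm_nonneg y) hcon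
    linarith
  have hy2 : ‖y‖ < b / a := by
    refine lt_of_pow_lt_pow_left₀ n (by linarith) ?_
    rw [hyn]
    exact hn
  obtain ⟨m, hm1, hm2⟩ := exists_mem_Ico_zpow ha hy1
  have hy0 : ‖y‖ ≠ 0 := by linarith
  refine ⟨y ^ (m + 1), ?_, ?_⟩
  · rw [norm_zpow]
    exact hm2
  · rw [norm_zpow, zpow_add₀ hy0, zpow_one]
    rw [lt_div_iff₀ ha] at hy2
    calc ‖y‖ ^ m * ‖y‖ ≤ a * ‖y‖ := mul_le_mul_of_nonneg_right hm1 (norm_nonneg _)
      _ = ‖y‖ * a := mul_comm _ _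
      _ < b := hy2

/-- S1e (existence of fine coordinates).  Proof.  The norms of `k` are dense in `(0, ∞)`
(`denseVal_of_closed`, or roots of an element of norm `> 1`). WLOG `0 < δ < 1`. Choose `c i` with
`‖e i‖ < ‖c i‖ < ‖e i‖ / δ`, and `π` with `δ * P < ‖π‖ < P`, `P = ∏ ‖e i / c i‖`; then
`‖t 0‖ = ‖π‖ / P`. -/
theorem exists_fine {k L : Type*} [NontriviallyNormedField k] [IsUltrametricDist k]
    [IsAlgClosed k] [NormedField L] [IsUltrametricDist L] [NormedAlgebra k L] {r : ℕ}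
    {e : Fin r → L} (hne : ∀ i, e i ≠ 0) {δ : ℝ} (hδ : δ < 1) :
    ∃ (c : Fin r → k) (π : k), Fine k e c π δ := by
  obtain ⟨δ', hδ'0, hδ'1, hδδ'⟩ : ∃ δ' : ℝ, 0 < δ' ∧ δ' < 1 ∧ δ ≤ δ' :=
    ⟨max δ (1 / 2), lt_max_of_lt_right (by norm_num), max_lt hδ (by norm_num), le_max_left _ _⟩
  have hep : ∀ i, 0 < ‖e i‖ := fun i => norm_pos_iff.2 (hne i)
  have hc : ∀ i, ∃ c : k, ‖e i‖ < ‖c‖ ∧ ‖c‖ < ‖e i‖ / δ' := fun i =>
    S1_dense (hep i) ((lt_div_iff₀ hδ'0).2 (mul_lt_of_lt_one_right (hep i) hδ'1))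
  choose c hc1 hc2 using hc
  have hcp : ∀ i, 0 < ‖c i‖ := fun i => (hep i).trans (hc1 i)
  set P : ℝ := ∏ i, ‖e i‖ / ‖c i‖ with hP
  have hP0 : 0 < P := Finset.prod_pos fun i _ => div_pos (hep i) (hcp i)
  obtain ⟨π, hπ1, hπ2⟩ := S1_dense (k := k) (mul_pos hδ'0 hP0)
    (mul_lt_of_lt_one_left hP0 hδ'1)
  have hπ0 : 0 < ‖π‖ := (mul_pos hδ'0 hP0).trans hπ1
  have h0 : ‖tor k e c π 0‖ = ‖π‖ / P := by
    simp only [tor, Fin.cons_zero]
    rw [norm_mul, norm_algebraMap', norm_prod, div_eq_mul_inv, hP, ← Finset.prod_inv_distrib]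
    congr 1
    refine Finset.prod_congr rfl fun i _ => ?_
    rw [norm_div, norm_algebraMap', inv_div]
  have hs : ∀ i : Fin r, ‖tor k e c π i.succ‖ = ‖e i‖ / ‖c i‖ := by
    intro i
    simp only [tor, Fin.cons_succ]
    rw [norm_div, norm_algebraMap']
  refine ⟨c, π, fun i => norm_pos_iff.1 (hcp i), norm_pos_iff.1 hπ0, fun i => ?_, fun i => ?_⟩
  · refine hδδ'.trans_lt ?_
    refine Fin.cases ?_ (fun j => ?_) i
    · rw [h0, lt_div_iff₀ hP0]
      exact hπ1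
    · rw [hs, lt_div_iff₀ (hcp j), mul_comm, ← lt_div_iff₀ hδ'0]
      exact hc2 j
  · refine Fin.cases ?_ (fun j => ?_) i
    · rw [h0, div_lt_one hP0]
      exact hπ2
    · rw [hs, div_lt_one (hcp j)]
      exact hc1 j

end DA
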