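import Pool.Agent.Lib.DA.Xa
import Pool.Agent.Lib.MP_1a953e_ag.Em7
import Pool.Agent.Lib.MP_1a953e_ag.Tr6
import Pool.Agent.Lib.HR.GDefs
import Pool.Agent.Lib.HR.PCD

/-!
# Module Xc: `p`-coordinates of Abhyankar fields in characteristic `p`
-/

namespace DA

open Polynomial MP1a953e

private theorem xc_closed {k K' : Type*} [Field k] [Field K'] [IsAlgClosed k] (e : k ≃+* K') :
    IsAlgClosed K' := by
  refine IsAlgClosed.of_exists_root K' fun q hq hirr => ?_
  obtain ⟨x, hx⟩ := IsAlgClosed.exists_root (q.map (e.symm : K' →+* k))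
    (by rw [degree_map]; exact hirr.degree_pos.ne')
  refine ⟨e x, ?_⟩
  have h1 : (q.map (e.symm : K' →+* k)).map (e : k →+* K') = q := by
    rw [Polynomial.map_map]
    simp
  have h2 : eval ((e : k →+* K') x) ((q.map (e.symm : K' →+* k)).map (e : k →+* K')) =
      (e : k →+* K') (eval x (q.map (e.symm : K' →+* k))) := Polynomial.eval_map_apply _ _
  have h3 : eval x (q.map (e.symm : K' →+* k)) = 0 := hx
  rw [h1, h3, map_zero] at h2
  exact h2

section lower

variable {k L : Type*} [NormedField k] [IsUltrametricDist k] [NormedField L]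
  [IsUltrametricDist L] [NormedAlgebra k L] {r m : ℕ} {e : Fin r → L} {u : Fin m → L}

/-- exponents of `e` -/
private noncomputable def ze {r m : ℕ} (t : Fin (r + m) →₀ ℕ) : Fin r → ℤ :=
  fun i => ((t (Fin.castAdd m i) : ℕ) : ℤ)

/-- exponents of `u` -/
private noncomputable def tu {r m : ℕ} (t : Fin (r + m) →₀ ℕ) : Fin m →₀ ℕ :=
  Finsupp.equivFunOnFinite.symm fun i => t (Fin.natAdd r i)

private theorem tu_apply {r m : ℕ} (t : Fin (r + m) →₀ ℕ) (i : Fin m) :
    tu t i = t (Fin.natAdd r i) := rfl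

private theorem ze_tu_inj {r m : ℕ} {t t' : Fin (r + m) →₀ ℕ} (h : ze t = ze t')
    (h' : tu t = tu t') : t = t' := by
  ext i
  refine Fin.addCases (fun i => ?_) (fun i => ?_) i
  · have h1 : ((t (Fin.castAdd m i) : ℕ) : ℤ) = ((t' (Fin.castAdd m i) : ℕ) : ℤ) := congrFun h i
    exact_mod_cast h1
  · have := DFunLike.congr_fun h' i
    rwa [tu_apply, tu_apply] at this

/-- the monomials in `e, u` are orthogonal -/
private theorem xc_norm_ge (h : EU k e u) (T : MvPolynomial (Fin (r + m)) k)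
    (t : Fin (r + m) →₀ ℕ) : ‖T.coeff t‖ * ∏ i, ‖Fin.append e u i‖ ^ t i ≤
      ‖MvPolynomial.aeval (Fin.append e u) T‖ := by
  classical
  by_cases ht : t ∈ T.support
  swap
  · rw [MvPolynomial.notMem_support_iff.1 ht, norm_zero, zero_mul]
    exact norm_nonneg _
  set P : (Fin r → ℤ) → MvPolynomial (Fin m) k := fun z =>
    ∑ t ∈ T.support.filter (fun t => ze t = z), MvPolynomial.monomial (tu t) (T.coeff t) with hP
  have e1 : MvPolynomial.aeval (Fin.append e u) T =
      ∑ z ∈ T.support.image ze, MvPolynomial.aeval u (P z) * ∏ i, e i ^ z i := by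
    rw [MvPolynomial.aeval_def, MvPolynomial.eval₂_eq']
    rw [← Finset.sum_fiberwise_of_maps_to (g := ze) (t := T.support.image ze)
      (fun t ht => Finset.mem_image_of_mem _ ht)]
    refine Finset.sum_congr rfl fun z _ => ?_
    rw [hP]
    beta_reduce
    rw [map_sum, Finset.sum_mul]
    refine Finset.sum_congr rfl fun t ht => ?_
    have hz := (Finset.mem_filter.1 ht).2
    rw [MvPolynomial.aeval_monomial, Finsupp.prod_fintype _ _ (fun i => pow_zero _), mul_assoc]
    congr 1
    rw [Fin.prod_univ_add, mul_comm]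
    congr 1
    · refine Finset.prod_congr rfl fun i _ => ?_
      rw [Fin.append_right, tu_apply]
    · refine Finset.prod_congr rfl fun i _ => ?_
      rw [Fin.append_left, ← hz]
      show e i ^ t (Fin.castAdd m i) = e i ^ ((t (Fin.castAdd m i) : ℕ) : ℤ)
      rw [zpow_natCast]
  have e2 : (P (ze t)).coeff (tu t) = T.coeff t := by
    show (∑ t' ∈ T.support.filter (fun t' => ze t' = ze t),
      MvPolynomial.monomial (tu t') (T.coeff t')).coeff (tu t) = T.coeff t
    rw [MvPolynomial.coeff_sum, Finset.sum_eq_single t]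
    · rw [MvPolynomial.coeff_monomial, if_pos rfl]
    · intro t' ht' hne
      rw [MvPolynomial.coeff_monomial, if_neg]
      exact fun h2 => hne (ze_tu_inj (Finset.mem_filter.1 ht').2 h2)
    · intro ht'
      exact (ht' (Finset.mem_filter.2 ⟨ht, rfl⟩)).elim
  have e3 := h.sum_le (T.support.image ze) P (Finset.mem_image_of_mem ze ht)
  rw [← e1] at e3
  refine le_trans ?_ e3
  have e4 := h.gauss (P (ze t)) (tu t)
  rw [e2] at e4
  have e5 : ∏ i, ‖Fin.append e u i‖ ^ t i ≤ ‖∏ i, e i ^ (ze t) i‖ := by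
    rw [Fin.prod_univ_add, norm_prod]
    have f1 : ∏ i : Fin m, ‖Fin.append e u (Fin.natAdd r i)‖ ^ t (Fin.natAdd r i) ≤ 1 := by
      refine Finset.prod_le_one (fun i _ => pow_nonneg (norm_nonneg _) _) fun i _ => ?_
      rw [Fin.append_right]
      exact pow_le_one₀ (norm_nonneg _) (h.norm_u i)
    have f2 : ∏ i : Fin r, ‖Fin.append e u (Fin.castAdd m i)‖ ^ t (Fin.castAdd m i) =
        ∏ i, ‖e i ^ (ze t) i‖ := by
      refine Finset.prod_congr rfl fun i _ => ?_
      rw [Fin.append_left, norm_zpow]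
      show ‖e i‖ ^ t (Fin.castAdd m i) = ‖e i‖ ^ ((t (Fin.castAdd m i) : ℕ) : ℤ)
      rw [zpow_natCast]
    rw [f2]
    exact mul_le_of_le_one_right (Finset.prod_nonneg fun i _ => norm_nonneg _) f1
  exact mul_le_mul e4 e5 (Finset.prod_nonneg fun i _ => pow_nonneg (norm_nonneg _) _)
    (norm_nonneg _)

omit [IsUltrametricDist k] in
private theorem xc_norm_le (w : Fin (r + m) → L) (T : MvPolynomial (Fin (r + m)) k) :
    ∃ t, ‖MvPolynomial.aeval w T‖ ≤ ‖T.coeff t‖ * ∏ i, ‖w i‖ ^ t i := by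
  obtain ⟨t, -, ht⟩ := IsUltrametricDist.exists_norm_finsetSum_le T.support
    (fun t => algebraMap k L (T.coeff t) * ∏ i, w i ^ t i)
  refine ⟨t, ?_⟩
  rw [MvPolynomial.aeval_def, MvPolynomial.eval₂_eq']
  refine ht.trans (le_of_eq ?_)
  rw [norm_mul, norm_algebraMap', norm_prod]
  congr 1
  exact Finset.prod_congr rfl fun i _ => norm_pow _ _

private noncomputable def xcm {n p : ℕ} (s : Fin n → Fin p) : Fin n →₀ ℕ :=
  Finsupp.equivFunOnFinite.symm (fun i => (s i : ℕ))

private theorem xcm_apply {n p : ℕ} (s : Fin n → Fin p) (i : Fin n) :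
    xcm s i = (s i : ℕ) := rfl

private theorem xcm_inj {n p : ℕ} {s s' : Fin n → Fin p} {t t' : Fin n →₀ ℕ}
    (h : xcm s + p • t = xcm s' + p • t') : s = s' ∧ t = t' := by
  have h1 : ∀ i, (s i : ℕ) + p * t i = (s' i : ℕ) + p * t' i := by
    intro i
    have := DFunLike.congr_fun h i
    simpa [xcm_apply] using this
  have h2 : s = s' := by
    funext i
    ext
    have h3 := congrArg (· % p) (h1 i)
    simp only [Nat.add_mul_mod_self_left, Nat.mod_eq_of_lt (s i).2,
      Nat.mod_eq_of_lt (s' i).2] at h3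
    exact h3
  refine ⟨h2, ?_⟩
  ext i
  have h3 := h1 i
  rw [h2] at h3
  have hp : 0 < p := by
    have := (s i).2
    omega
  exact Nat.eq_of_mul_eq_mul_left hp (Nat.add_left_cancel h3)

private theorem xc_coeff {R : Type*} [CommRing R] {p : ℕ} [Fact p.Prime] [CharP R p] {n : ℕ}
    (P : (Fin n → Fin p) → MvPolynomial (Fin n) R) (s₀ : Fin n → Fin p) (t₀ : Fin n →₀ ℕ) :
    (∑ s, MvPolynomial.monomial (xcm s) (1 : R) * P s ^ p).coeff (xcm s₀ + p • t₀) =
      (P s₀).coeff t₀ ^ p := by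
  classical
  have hP : ∀ s, P s ^ p = ∑ t ∈ (P s).support,
      MvPolynomial.monomial (p • t) ((P s).coeff t ^ p) := by
    intro s
    conv_lhs => rw [MvPolynomial.as_sum (P s)]
    rw [sum_pow_char]
    exact Finset.sum_congr rfl fun t _ => by rw [MvPolynomial.monomial_pow]
  rw [MvPolynomial.coeff_sum, Finset.sum_eq_single s₀]
  · rw [hP, Finset.mul_sum, MvPolynomial.coeff_sum, Finset.sum_eq_single t₀]
    · rw [MvPolynomial.monomial_mul, one_mul, MvPolynomial.coeff_monomial, if_pos rfl]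
    · intro t _ ht
      rw [MvPolynomial.monomial_mul, MvPolynomial.coeff_monomial, if_neg]
      exact fun h2 => ht (xcm_inj h2).2
    · intro ht
      rw [MvPolynomial.notMem_support_iff] at ht
      rw [ht, zero_pow (Fact.out : p.Prime).ne_zero, map_zero, mul_zero,
        MvPolynomial.coeff_zero]
  · intro s _ hs
    rw [hP, Finset.mul_sum, MvPolynomial.coeff_sum]
    refine Finset.sum_eq_zero fun t _ => ?_
    rw [MvPolynomial.monomial_mul, MvPolynomial.coeff_monomial, if_neg]
    exact fun h2 => hs (xcm_inj h2).1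
  · intro hs
    exact absurd (Finset.mem_univ _) hs

private theorem xc_pindep_poly {p : ℕ} [Fact p.Prime] [CharP k p] (h : EU k e u)
    (R : (Fin (r + m) → Fin p) → MvPolynomial (Fin (r + m)) k) (s : Fin (r + m) → Fin p) :
    ‖MvPolynomial.aeval (Fin.append e u) (R s)‖ ^ p *
        ‖∏ i, Fin.append e u i ^ (s i : ℕ)‖ ≤
      ‖∑ s : Fin (r + m) → Fin p, MvPolynomial.aeval (Fin.append e u) (R s) ^ p *
        ∏ i, Fin.append e u i ^ (s i : ℕ)‖ := by
  classical
  obtain ⟨w, hw⟩ : ∃ w : Fin (r + m) → L, w = Fin.append e u := ⟨_, rfl⟩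
  rw [← hw]
  obtain ⟨t, ht⟩ := xc_norm_le w (R s)
  have h1 := xc_norm_ge h (∑ s, MvPolynomial.monomial (xcm s) (1 : k) * R s ^ p)
    (xcm s + p • t)
  rw [xc_coeff, ← hw] at h1
  have h2 : MvPolynomial.aeval w (∑ s : Fin (r + m) → Fin p,
      MvPolynomial.monomial (xcm s) (1 : k) * R s ^ p) =
      ∑ s : Fin (r + m) → Fin p, MvPolynomial.aeval w (R s) ^ p *
        ∏ i, w i ^ (s i : ℕ) := by
    rw [map_sum]
    refine Finset.sum_congr rfl fun s _ => ?_
    rw [map_mul, map_pow, MvPolynomial.aeval_monomial, map_one, one_mul,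
      Finsupp.prod_fintype _ _ (fun i => pow_zero _), mul_comm]
    rfl
  rw [h2] at h1
  refine le_trans ?_ h1
  have h3 : ‖∏ i, w i ^ (s i : ℕ)‖ = ∏ i, ‖w i‖ ^ (s i : ℕ) := by
    rw [norm_prod]
    exact Finset.prod_congr rfl fun i _ => norm_pow _ _
  have h4 : ∏ i, ‖w i‖ ^ (xcm s + p • t) i = (∏ i, ‖w i‖ ^ t i) ^ p *
      ∏ i, ‖w i‖ ^ (s i : ℕ) := by
    rw [← Finset.prod_pow, ← Finset.prod_mul_distrib]
    refine Finset.prod_congr rfl fun i _ => ?_
    rw [Finsupp.add_apply, Finsupp.smul_apply, xcm_apply, smul_eq_mul, pow_add, mul_comm,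
      mul_comm p, pow_mul]
  rw [h3, h4, norm_pow, ← mul_assoc, ← mul_pow]
  refine mul_le_mul_of_nonneg_right (pow_le_pow_left₀ (norm_nonneg _) ht p) ?_
  exact Finset.prod_nonneg fun i _ => pow_nonneg (norm_nonneg _) _

omit [IsUltrametricDist k] [IsUltrametricDist L] in
private theorem keu_frac {x : L} (hx : x ∈ keu k e u) :
    ∃ R Q : MvPolynomial (Fin (r + m)) k, MvPolynomial.aeval (Fin.append e u) Q ≠ 0 ∧
      x * MvPolynomial.aeval (Fin.append e u) Q = MvPolynomial.aeval (Fin.append e u) R := by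
  have hr : Set.range e ∪ Set.range u = Set.range (Fin.append e u) := by
    ext y
    constructor
    · rintro (⟨i, rfl⟩ | ⟨i, rfl⟩)
      · exact ⟨Fin.castAdd m i, Fin.append_left _ _ _⟩
      · exact ⟨Fin.natAdd r i, Fin.append_right _ _ _⟩
    · rintro ⟨i, rfl⟩
      refine Fin.addCases (fun i => ?_) (fun i => ?_) i
      · left; exact ⟨i, (Fin.append_left _ _ _).symm⟩
      · right; exact ⟨i, (Fin.append_right _ _ _).symm⟩
  unfold keu at hx
  rw [hr, IntermediateField.mem_adjoin_range_iff] at hx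
  obtain ⟨R, Q, hRQ⟩ := hx
  by_cases hQ : MvPolynomial.aeval (Fin.append e u) Q = 0
  · refine ⟨0, 1, by rw [map_one]; exact one_ne_zero, ?_⟩
    rw [hRQ, hQ, div_zero, zero_mul, map_zero]
  · exact ⟨R, Q, hQ, by rw [hRQ, div_mul_cancel₀ _ hQ]⟩

/-- the monomials `e ^ x * u ^ y`, `x, y < p`, are orthogonal over the `p`-th powers -/
private theorem xc_pindep {p : ℕ} [Fact p.Prime] [CharP k p] (h : EU k e u)
    (c : (Fin (r + m) → Fin p) → L) (hc : ∀ s, c s ∈ keu k e u) (s : Fin (r + m) → Fin p) :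
    ‖c s‖ ^ p * ‖∏ i, Fin.append e u i ^ (s i : ℕ)‖ ≤
      ‖∑ s : Fin (r + m) → Fin p, c s ^ p * ∏ i, Fin.append e u i ^ (s i : ℕ)‖ := by
  classical
  choose R Q hQ hRQ using fun s => keu_frac (hc s)
  have hw := xc_pindep_poly h (fun s => R s * ∏ s' ∈ Finset.univ.erase s, Q s') s
  set w := Fin.append e u with hwdef
  have hP : ∀ s, MvPolynomial.aeval w (R s * ∏ s' ∈ Finset.univ.erase s, Q s') =
      c s * MvPolynomial.aeval w (∏ s, Q s) := by
    intro s
    rw [← Finset.mul_prod_erase Finset.univ Q (Finset.mem_univ s), map_mul, map_mul, ← mul_assoc,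
      hRQ]
  have hQ0 : MvPolynomial.aeval w (∏ s, Q s) ≠ 0 := by
    rw [map_prod]
    exact Finset.prod_ne_zero_iff.2 fun s _ => hQ s
  simp only [hP] at hw
  set q := MvPolynomial.aeval w (∏ s, Q s) with hq
  have e1 : ∑ s : Fin (r + m) → Fin p, (c s * q) ^ p * ∏ i, w i ^ (s i : ℕ) =
      q ^ p * ∑ s : Fin (r + m) → Fin p, c s ^ p * ∏ i, w i ^ (s i : ℕ) := by
    rw [Finset.mul_sum]
    refine Finset.sum_congr rfl fun s _ => ?_
    rw [mul_pow]; ring
  rw [e1, norm_mul, norm_mul, mul_pow, norm_pow] at hw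
  have hqp : 0 < ‖q‖ ^ p := pow_pos (norm_pos_iff.2 hQ0) p
  have e2 : ‖c s‖ ^ p * ‖q‖ ^ p * ‖∏ i, w i ^ (s i : ℕ)‖ =
      ‖q‖ ^ p * (‖c s‖ ^ p * ‖∏ i, w i ^ (s i : ℕ)‖) := by ring
  rw [e2] at hw
  exact le_of_mul_le_mul_left hw hqp

end lower

/-- Xc1 (`p`-orthogonality of the monomials `e ^ x u ^ y`, `0 ≤ x, y < p`, over the `p`-th powers of elements of
`k(e, u)(a)`).  Proof.  Let `b (x, y) ∈ Λ = k(e, u)(a)`. The nonzero elements of `Λ` have norms in
`|k*| |e|^ℤ` (orthogonality `RD.orth`, and `EU.exists_frac`), so for different `x` the norms of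
`b (x,y) ^ p * e ^ x` and `b (x',y') ^ p * e ^ x'` are different (`ind`: the exponents of `e` are
congruent to `x`, `x'` modulo `p`; `k` is algebraically closed). So it is enough to consider a fixed
`x`, i.e. to show `‖b y‖ ^ p ≤ ‖∑_y b y ^ p * u ^ y‖`. Divide by `μ ^ p` where `μ = mon` has the maximal
norm `‖b y₀‖`: all `‖b y‖ ≤ 1`, `‖b y₀‖ = 1`. `b y` is, up to norm `< 1`, of the form `∑_{i<d} c (y,i) a ^ i`
with `c (y,i) ∈ k(u)`, `‖c‖ ≤ 1` (as in module Xa). By `f.derivative.eval a` of norm `1`: the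
residue `ã` is separable over `k~(ũ)`, so `1, ã ^ p, …, (ã ^ p) ^ (d-1)` are linearly independent over
`k~(ũ)` (degree `d`: `k~(ũ)(ã) = k~(ũ)(ã ^ p)`), and
`∑_{y,i} c (y,i) ^ p u ^ y (a ^ p) ^ i`: write `c (y,i) = P (y,i) / Q` with a common denominator
`‖Q‖ = 1`; for each `i` the norm of `∑_y P (y,i) ^ p u ^ y` is the maximum of the norms (Gauss norm, the
exponents in different summands are different modulo `p`). One may also argue in the residue field. Compare
`pindep_u` (Em5).

Xc (existence of `HCl`).  Proof.  `L' = adj (kM ι e u) a`, `K' = F` its closure in `K`. `pc`: index set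
`(Fin r → Fin p) × (Fin m → Fin p)`, `x = ∏ e i ^ x i * ∏ u i ^ y i`; the span: `em7_decomp` for the
family `Fin.append e u` gives it for elements of `k(e, u)`; for `Λ = k(e,u)(a)`, `a` separable over
`k(e,u)`: `Λ = k(e,u)(a ^ p)`, so every element is `∑ c i * (a ^ p) ^ i` with `c i ∈ k(e, u)`, decompose the
`c i`. `σ`: coordinates (unique by Xc1). `dense`, `complete`: closure in `K`. `nontriv`: from `k`. -/
theorem hcl_e {p : ℕ} [Fact p.Prime] {k L Ω : Type*} [NontriviallyNormedField k]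
    [IsUltrametricDist k] [IsAlgClosed k] [NormedField L] [IsUltrametricDist L]
    [NormedAlgebra k L] [NormedField Ω] [IsUltrametricDist Ω] [CharP Ω p] {ι : L →+* Ω}
    {K : Subfield Ω} (hE : Emb ι K) {r m : ℕ} {e : Fin r → L} {u : Fin m → L} (h : EU k e u)
    {d : ℕ} {a : Ω} {f : Polynomial Ω}
    (hRD : RD (kU (kO k ι) fun i => ι (e i)) (fun i => ι (u i)) d a f) (ha : a ∈ K) :
    ∃ F : Subfield Ω, F ≤ K ∧ HR.HCl p (kO k ι) (adj (kM (k := k) ι e u) a) F := by
  classical
  have hp : p.Prime := Fact.out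
  have hp0 : 0 < p := hp.pos
  have hι := hE.norm
  have : CharP k p := (ι.comp (algebraMap k L)).charP (ι.comp (algebraMap k L)).injective p
  have hkc : IsAlgClosed (kO k ι) := by
    have e : k ≃+* (ι.comp (algebraMap k L)).fieldRange :=
      RingEquiv.ofBijective (ι.comp (algebraMap k L)).rangeRestrictField
        ⟨(ι.comp (algebraMap k L)).rangeRestrictField.injective,
          (ι.comp (algebraMap k L)).rangeRestrictField_bijective.2⟩
    exact xc_closed e
  have : CharP (kO k ι) p := (algebraMap (kO k ι) Ω).charP (algebraMap (kO k ι) Ω).injective p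
  obtain ⟨M, hM⟩ : ∃ M : Subfield Ω, M = kM (k := k) ι e u := ⟨_, rfl⟩
  have hMeq : M = (keu k e u).toSubfield.map ι := by rw [hM]; exact kM_eq
  have hMU : M = kU (kU (kO k ι) fun i => ι (e i)) fun i => ι (u i) := hM
  obtain ⟨w, hw⟩ : ∃ w : Fin (r + m) → L, w = Fin.append e u := ⟨_, rfl⟩
  have hwk : ∀ i, w i ∈ keu k e u := by
    intro i
    rw [hw]
    refine Fin.addCases (fun i => ?_) (fun i => ?_) i
    · rw [Fin.append_left]
      exact IntermediateField.subset_adjoin _ _ (Or.inl ⟨i, rfl⟩)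
    · rw [Fin.append_right]
      exact IntermediateField.subset_adjoin _ _ (Or.inr ⟨i, rfl⟩)
  have hwM : ∀ i, ι (w i) ∈ M := by
    intro i
    rw [hMeq]
    exact Subfield.mem_map.2 ⟨w i, hwk i, rfl⟩
  have hw0 : ∀ i, w i ≠ 0 := by
    intro i
    rw [hw]
    refine Fin.addCases (fun i => ?_) (fun i => ?_) i
    · rw [Fin.append_left]; exact h.ne i
    · rw [Fin.append_right]
      intro h0
      have h1 := h.gauss (MvPolynomial.X i) (Finsupp.single i 1)
      rw [MvPolynomial.coeff_X, MvPolynomial.aeval_X, h0, norm_zero] at h1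
      simp only [if_true, norm_one] at h1
      exact absurd h1 (by norm_num)
  have hkM : kO k ι ≤ M := by
    rw [hMU]
    exact (le_sup_left : kO k ι ≤ kU (kO k ι) _).trans le_sup_left
  -- coordinates of `M`
  have hspan : ∀ y ∈ M, ∃ c : (Fin (r + m) → Fin p) → Ω, (∀ s, c s ∈ M) ∧
      ∑ s, c s ^ p * ∏ i, ι (w i) ^ (s i : ℕ) = y := by
    intro y hy
    have hle : M ≤ (IntermediateField.adjoin (kO k ι) (Set.range fun i => ι (w i))).toSubfield := by
      rw [hMU]
      refine sup_le (sup_le ?_ (Subfield.closure_le.2 ?_)) (Subfield.closure_le.2 ?_)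
      · intro x hx
        exact (IntermediateField.adjoin (kO k ι) (Set.range fun i => ι (w i))).algebraMap_mem
          ⟨x, hx⟩
      · rintro _ ⟨i, rfl⟩
        refine IntermediateField.subset_adjoin _ _ ⟨Fin.castAdd m i, ?_⟩
        show ι (w (Fin.castAdd m i)) = ι (e i)
        rw [hw, Fin.append_left]
      · rintro _ ⟨i, rfl⟩
        refine IntermediateField.subset_adjoin _ _ ⟨Fin.natAdd r i, ?_⟩
        show ι (w (Fin.natAdd r i)) = ι (u i)
        rw [hw, Fin.append_right]
    have hge : (IntermediateField.adjoin (kO k ι) (Set.range fun i => ι (w i))).toSubfield ≤ M := by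
      have h1 : (IntermediateField.adjoin (kO k ι) (Set.range fun i => ι (w i))).toSubfield =
        Subfield.closure (Set.range (algebraMap (kO k ι) Ω) ∪ Set.range fun i => ι (w i)) := rfl
      rw [h1, Subfield.closure_le]
      rintro x (⟨c, rfl⟩ | ⟨i, rfl⟩)
      · exact hkM c.2
      · exact hwM i
    obtain ⟨c, hc⟩ := em7_decomp (k := kO k ι) (p := p) (fun i => ι (w i)) y (hle hy)
    refine ⟨fun s => (c s : Ω), fun s => hge (c s).2, ?_⟩
    rw [hc]
    exact Finset.sum_congr rfl fun s _ => mul_comm _ _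
  have horth : ∀ c : (Fin (r + m) → Fin p) → Ω, (∀ s, c s ∈ M) → ∀ s,
      ‖c s‖ ^ p * ‖∏ i, ι (w i) ^ (s i : ℕ)‖ ≤
        ‖∑ s, c s ^ p * ∏ i, ι (w i) ^ (s i : ℕ)‖ := by
    intro c hc s
    have h1 : ∀ s, ∃ x ∈ keu k e u, ι x = c s := by
      intro s
      have := hc s
      rw [hMeq] at this
      obtain ⟨x, hx, hxs⟩ := Subfield.mem_map.1 this
      exact ⟨x, hx, hxs⟩
    choose x hx hxs using h1
    have h2 := xc_pindep (p := p) h x hx s
    rw [← hw] at h2
    have e1 : ∀ s : Fin (r + m) → Fin p, ∏ i, ι (w i) ^ (s i : ℕ) =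
        ι (∏ i, w i ^ (s i : ℕ)) := by
      intro s
      rw [map_prod]
      exact Finset.prod_congr rfl fun i _ => (map_pow _ _ _).symm
    have e2 : ∑ s, c s ^ p * ∏ i, ι (w i) ^ (s i : ℕ) =
        ι (∑ s : Fin (r + m) → Fin p, x s ^ p * ∏ i, w i ^ (s i : ℕ)) := by
      rw [map_sum]
      refine Finset.sum_congr rfl fun s _ => ?_
      rw [map_mul, map_pow, hxs, e1]
    rw [e2, hι, e1, hι, ← hxs, hι]
    exact h2
  have hpc : Nonempty (HR.PCoord p M) := by
    refine ⟨{ J := Fin (r + m) → Fin p, fin := inferInstance, dec := inferInstance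
              o := fun _ => ⟨0, hp0⟩
              x := fun s => ∏ i, ι (w i) ^ (s i : ℕ)
              σ := fun s y => if hy : y ∈ M then (hspan y hy).choose s else 0
              x_mem := fun s => M.prod_mem fun i _ => M.pow_mem (hwM i) _
              x_ne := fun s => Finset.prod_ne_zero_iff.2 fun i _ => pow_ne_zero _
                ((map_ne_zero ι).2 (hw0 i))
              x_o := by simp
              σ_mem := ?_, sum := ?_, orth := horth }⟩
    · intro j y hy
      rw [dif_pos hy]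
      exact (hspan y hy).choose_spec.1 j
    · intro y hy
      have h1 : ∀ j : Fin (r + m) → Fin p,
          (if hy : y ∈ M then (hspan y hy).choose j else 0) ^ p * ∏ i, ι (w i) ^ (j i : ℕ) =
          ((hspan y hy).choose j) ^ p * ∏ i, ι (w i) ^ (j i : ℕ) := by
        intro j
        rw [dif_pos hy]
      rw [Finset.sum_congr rfl fun j _ => h1 j]
      exact (hspan y hy).choose_spec.2
  -- the extension by `a`
  obtain ⟨d, rfl⟩ : ∃ d', d = d' + 1 := ⟨d - 1, by have := hRD.dpos; omega⟩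
  have hob : OrthBasis M (adj M a) (fun i : Fin (d + 1) => a ^ (i : ℕ)) := by
    refine ⟨le_adj M a, by simp, fun i => (adj M a).pow_mem (mem_adj_self M a) _, ?_, ?_, ?_⟩
    · intro i h0
      have h1 := hRD.orth (fun j => if j = i then 1 else 0) (fun j => by
        show (if j = i then (1 : Ω) else 0) ∈ kU _ _
        split_ifs
        · exact Subfield.one_mem _
        · exact Subfield.zero_mem _) i
      rw [if_pos rfl, norm_one] at h1
      have h2 : ∑ j : Fin (d + 1), (if j = i then (1 : Ω) else 0) * a ^ (j : ℕ) = 0 := by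
        rw [Finset.sum_eq_single i]
        · rw [if_pos rfl, one_mul]; exact h0
        · intro j _ hj; rw [if_neg hj, zero_mul]
        · intro hi; exact absurd (Finset.mem_univ _) hi
      rw [h2, norm_zero] at h1
      exact absurd h1 (by norm_num)
    · intro x hx
      rw [hMU] at hx
      obtain ⟨c, hc, hxc⟩ := hRD.exists_comb hx
      exact ⟨c, fun i => by rw [hMU]; exact hc i, hxc⟩
    · intro c hc i
      have h1 := hRD.orth c (fun i => by have := hc i; rw [hMU] at this; exact this) i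
      refine le_trans ?_ h1
      rw [norm_mul, norm_pow]
      exact mul_le_of_le_one_right (norm_nonneg _) (pow_le_one₀ (norm_nonneg _) hRD.norm_a)
  have hpcA := HR.pcoord_ext hob hpc
  -- the closure
  have hkK : kO k ι ≤ K := by
    rintro x ⟨c, rfl⟩
    exact hE.mem _
  have hMK : M ≤ K := by
    rw [hMeq]
    rintro x hx
    obtain ⟨y, _, rfl⟩ := Subfield.mem_map.1 hx
    exact hE.mem y
  rw [← hM]
  set A : Subfield Ω := adj M a with hA
  have hAK : A ≤ K := adj_le hMK ha
  set F : Subfield Ω := A.topologicalClosure with hF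
  have hK := hE.complete
  have hAF : A ≤ F := A.le_topologicalClosure
  have hFcl : IsClosed (F : Set Ω) := A.isClosed_topologicalClosure
  have hFK : F ≤ K := A.topologicalClosure_minimal hAK hK.isClosed
  have hFcomp : IsComplete (F : Set Ω) := by
    intro l hl hle
    obtain ⟨z, -, hz⟩ := hK l hl (hle.trans (Filter.principal_mono.2 hFK))
    refine ⟨z, ?_, hz⟩
    have := hl.1
    have h1 : ClusterPt z (Filter.principal (F : Set Ω)) :=
      (ClusterPt.of_le_nhds hz).mono hle
    rw [← mem_closure_iff_clusterPt, hFcl.closure_eq] at h1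
    exact h1
  have hdense : ∀ x ∈ F, ∀ ε : ℝ, 0 < ε → ∃ y ∈ A, ‖x - y‖ < ε := by
    intro x hx ε hε
    have hx' : x ∈ closure (A : Set Ω) := hx
    obtain ⟨y, hy, hxy⟩ := Metric.mem_closure_iff.1 hx' ε hε
    exact ⟨y, hy, by rwa [dist_eq_norm] at hxy⟩
  refine ⟨F, hFK, hkM.trans (le_adj M a), ?_, hpcA, ⟨hAF, hdense⟩, hFcomp, ?_⟩
  · refine ⟨(Finset.univ.image (fun i => ι (e i)) ∪ Finset.univ.image (fun i => ι (u i))) ∪ {a}, ?_⟩
    rw [hA, adj, hMU, kU, kU]
    push_cast
    rw [Subfield.closure_union, Subfield.closure_union, Set.image_univ, Set.image_univ, sup_assoc,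
      sup_assoc, sup_assoc]
  · obtain ⟨c, hc⟩ := NormedField.exists_one_lt_norm k
    refine ⟨ι (algebraMap k L c), le_adj M a (hkM ⟨c, rfl⟩), ?_⟩
    rw [hι, norm_algebraMap']
    exact hc

end DA
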