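import Pool.Agent.Lib.DA.Xb
import Pool.Agent.Lib.DA.Xc
import Pool.Agent.Lib.MP_1a953e_ag.Em9
import Pool.Agent.Lib.MP_1a953e_ag.HR2
import Pool.Agent.Lib.MP_1a953e_ag.Sta11
import Pool.Agent.Lib.MP_1a953e_ag.Tr7
import Pool.Agent.Lib.MP_1a953e_ag.Tr8
import Pool.Agent.Lib.HR.HRat
import Pool.Agent.Lib.HR.Am

/-!
# Module HFc: henselian rationality over `k(e, u, a)`
-/

namespace DA

open Polynomial MP1a953e

private theorem hfc_char {p : ℕ} [Fact p.Prime] {Ω : Type*} [NormedField Ω]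
    (hp : ‖(p : Ω)‖ < 1) : CharZero Ω ∨ CharP Ω p := by
  obtain ⟨q, hq⟩ := CharP.exists Ω
  rcases CharP.char_is_prime_or_zero Ω q with hq' | rfl
  · right
    have hqF : Fact q.Prime := ⟨hq'⟩
    by_cases hpq : p = q
    · rw [hpq]; exact hq
    · exfalso
      have h1 : (p : ZMod q) ≠ 0 := by
        intro h2
        rw [ZMod.natCast_eq_zero_iff] at h2
        exact hpq ((Nat.prime_dvd_prime_iff_eq hq' Fact.out).1 h2).symm
      have h3 := ZMod.pow_card_sub_one_eq_one h1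
      have h4 : ((p : Ω)) ^ (q - 1) = 1 := by
        have := congrArg (ZMod.castHom (dvd_refl q) Ω) h3
        rw [map_pow, map_one, map_natCast] at this
        exact this
      have h5 : ‖(p : Ω)‖ ^ (q - 1) = 1 := by rw [← norm_pow, h4, norm_one]
      have h6 : ‖(p : Ω)‖ ^ (q - 1) < 1 :=
        pow_lt_one₀ (norm_nonneg _) hp (by have := hq'.two_le; omega)
      exact absurd h5 h6.ne
  · left
    exact CharP.charP_to_charZero Ω

private theorem hfc_closed {k K' : Type*} [Field k] [Field K'] [IsAlgClosed k] (e : k ≃+* K') :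
    IsAlgClosed K' := by
  refine IsAlgClosed.of_exists_root K' fun q hq hirr => ?_
  obtain ⟨x, hx⟩ := IsAlgClosed.exists_root (q.map (e.symm : K' →+* k))
    (by rw [degree_map]; exact hirr.degree_pos.ne')
  refine ⟨e x, ?_⟩
  have h1 : (q.map (e.symm : K' →+* k)).map (e : k →+* K') = q := by
    rw [Polynomial.map_map]
    simp
  have h2 : eval ((e : k →+* K') x) ((q.map (e.symm : K' →+* k)).map (e : k →+* K')) =
      (e : k →+* K') (eval x (q.map (e.symm : K' →+* k))) := Polynomial.eval_map_apply _ _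
  have h3 : eval x (q.map (e.symm : K' →+* k)) = 0 := hx
  rw [h1, h3, map_zero] at h2
  exact h2

private theorem hfc_closed_of_dense {Ω : Type*} [NormedField Ω] {F K : Subfield Ω}
    (hF : IsComplete (F : Set Ω)) (hd : DenseIn F K) : K ≤ F := by
  intro x hx
  have h2 : x ∈ closure (F : Set Ω) := by
    rw [Metric.mem_closure_iff]
    intro ε hε
    obtain ⟨a, ha, h3⟩ := hd.2 x hx ε hε
    exact ⟨a, ha, by rw [dist_eq_norm]; exact h3⟩
  rw [hF.isClosed.closure_eq] at h2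
  exact h2

private theorem hfc_range {L : Type*} {r m : ℕ} (e : Fin r → L) (u : Fin m → L) :
    Set.range (Fin.append e u) = Set.range e ∪ Set.range u := by
  ext x
  constructor
  · rintro ⟨i, rfl⟩
    refine Fin.addCases (fun i => ?_) (fun i => ?_) i
    · rw [Fin.append_left]
      exact Or.inl ⟨i, rfl⟩
    · rw [Fin.append_right]
      exact Or.inr ⟨i, rfl⟩
  · rintro (⟨i, rfl⟩ | ⟨i, rfl⟩)
    · exact ⟨Fin.castAdd m i, Fin.append_left _ _ _⟩
    · exact ⟨Fin.natAdd r i, Fin.append_right _ _ _⟩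

/-- HFb (immediacy).  Proof.  Let `x ∈ K`, `x ≠ 0`; choose `x₀ ∈ L` with `‖x - ι x₀‖ < ‖x‖`, so `‖x‖ = ‖x₀‖`, and
`μ = ι (mon k e z c)` of norm `‖x‖` (`hval`); `μ ∈ kM ι e u ≤ F`. `‖x / μ‖ = 1`, so there is
`c ∈ adj (kU (kO k ι) ιu) a ≤ adj (kM ι e u) a ≤ F` with `‖x / μ - c‖ < 1`; `f = μ c`. -/
theorem imm_e {k L Ω : Type*} [NormedField k] [IsUltrametricDist k] [NormedField L]
    [IsUltrametricDist L] [NormedAlgebra k L] [NormedField Ω] [IsUltrametricDist Ω]
    {ι : L →+* Ω} {K : Subfield Ω} (hE : Emb ι K) {r m : ℕ} {e : Fin r → L} {u : Fin m → L}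
    (hval : ∀ x : L, x ≠ 0 → ∃ (z : Fin r → ℤ) (c : k), c ≠ 0 ∧ ‖x‖ = ‖mon k e z c‖) {a : Ω}
    (hres : ∀ x ∈ K, ‖x‖ ≤ 1 → ∃ c ∈ adj (kU (kO k ι) fun i => ι (u i)) a, ‖x - c‖ < 1)
    {F : Subfield Ω} (hFd : DenseIn (adj (kM (k := k) ι e u) a) F) (hFK : F ≤ K) :
    Imm F K := by
  have hMF : kM (k := k) ι e u ≤ F := (le_adj _ _).trans hFd.1
  refine ⟨hFK, fun x hx hx0 => ?_⟩
  have hxn : 0 < ‖x‖ := norm_pos_iff.2 hx0
  obtain ⟨l, hl⟩ := hE.dense x hx ‖x‖ hxn
  have h1 : ‖ι l‖ = ‖x‖ := by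
    have h3 : ‖x - ι l‖ ≠ ‖x‖ := ne_of_lt hl
    have h4 : ι l = x + -(x - ι l) := by ring
    rw [h4, IsUltrametricDist.norm_add_eq_max_of_norm_ne_norm (by rw [norm_neg]; exact h3.symm),
      norm_neg]
    exact max_eq_left hl.le
  have hl0 : l ≠ 0 := by
    rintro rfl
    rw [map_zero, norm_zero] at h1
    exact absurd h1 hxn.ne
  obtain ⟨z, c, hc, hzc⟩ := hval l hl0
  have hmonk : mon k e z c ∈ keu k e u := by
    unfold mon
    refine mul_mem ((keu k e u).algebraMap_mem c) (prod_mem fun i _ => zpow_mem ?_ _)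
    exact IntermediateField.subset_adjoin k _ (Or.inl ⟨i, rfl⟩)
  have hμM : ι (mon k e z c) ∈ kM (k := k) ι e u := by
    rw [kM_eq]
    exact ⟨mon k e z c, hmonk, rfl⟩
  have hμn : ‖ι (mon k e z c)‖ = ‖x‖ := by rw [hE.norm, ← hzc, ← hE.norm, h1]
  have hμ0 : ι (mon k e z c) ≠ 0 := norm_pos_iff.1 (by rw [hμn]; exact hxn)
  have hq : ‖x / ι (mon k e z c)‖ ≤ 1 := by rw [norm_div, hμn, div_self hxn.ne']
  obtain ⟨c', hc', hlt⟩ := hres _ (K.div_mem hx (hFK (hMF hμM))) hq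
  have hle : kU (kO k ι) (fun i => ι (u i)) ≤ kM (k := k) ι e u :=
    sup_le_sup_right le_sup_left _
  have hc'F : c' ∈ F := hFd.1 (adj_le (hle.trans (le_adj _ _)) (mem_adj_self _ _) hc')
  refine ⟨ι (mon k e z c) * c', F.mul_mem (hMF hμM) hc'F, ?_⟩
  have h5 : x - ι (mon k e z c) * c' = ι (mon k e z c) * (x / ι (mon k e z c) - c') := by
    field_simp
  rw [h5, norm_mul, hμn]
  exact mul_lt_of_lt_one_right hxn hlt

/-- HFc.  Proof.  The characteristic of `Ω` is `0` or `p` (as in module Xd). `exists_P₀` (module Em9, for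
`F` and the family `Fin.append e u`): `P₀`, `E`.
Characteristic `0`: `tf_e` gives `F`, `imm_e`, `DenseVal F` (`denseVal_of_closed`, `DenseVal.mono`). If
`ι T ∉ F`: `algebraic_dense` (Tr8, family `Fin.append e u`) and `hr_tf` (HR2) give `y ∈ K`, `y ∉ F`, `adj F y`
dense in `K`; `TT F y` by `tt_of_stable`. If `ι T ∈ F`: `P₀ ≤ F` (closed), `K` is algebraic over `F`, so
`K ≤ F`: an element `x ∈ K`, `x ∉ F` would satisfy `TT F x` (`tt_of_stable`) but is algebraic over `F`.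
(Compare Tr11.) Characteristic `p`: `hcl_e` gives `F` with `HCl p (kO k ι) (adj (kM ι e u) a) F` (so density),
`imm_e`. If `ι T ∉ F`: `HR.hr_dense` with `v = ι T`, `M = P₀`, `H = K`, `F = K` (`FSep P₀ K` from `E`, see
`HR.FSep.ofIF`). If `ι T ∈ F`: `P₀ ≤ F` and elements of `K` are algebraic over `F`, in `F` by `HR.am`. -/
theorem exists_Y {p : ℕ} [Fact p.Prime] {k L Ω : Type*} [NontriviallyNormedField k]
    [IsUltrametricDist k] [IsAlgClosed k] [NormedField L] [IsUltrametricDist L]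
    [NormedAlgebra k L] [NormedField Ω] [IsUltrametricDist Ω] [IsAlgClosed Ω]
    (hp : ‖(p : Ω)‖ < 1) {ι : L →+* Ω} {K : Subfield Ω} (hE : Emb ι K)
    (halg : ∀ x : Ω, IsAlgebraic K x) {r m : ℕ} {e : Fin r → L} {u : Fin m → L} (h : EU k e u)
    (hval : ∀ x : L, x ≠ 0 → ∃ (z : Fin r → ℤ) (c : k), c ≠ 0 ∧ ‖x‖ = ‖mon k e z c‖)
    {d : ℕ} {a : Ω} {f : Polynomial Ω}
    (hRD : RD (kU (kO k ι) fun i => ι (e i)) (fun i => ι (u i)) d a f) (ha : a ∈ K)
    (hres : ∀ x ∈ K, ‖x‖ ≤ 1 → ∃ c ∈ adj (kU (kO k ι) fun i => ι (u i)) a, ‖x - c‖ < 1)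
    {T : L} (hsep : Algebra.IsSeparable (keuT k e u T) L)
    (hfg : (⊤ : IntermediateField k L).FG) :
    ∃ F : Subfield Ω, F ≤ K ∧ DenseIn (adj (kM (k := k) ι e u) a) F ∧
      (K ≤ F ∨ ∃ Y ∈ K, TT F Y ∧ DenseIn (adj F Y) K) := by
  have hkc : IsAlgClosed (kO k ι) := by
    have e : k ≃+* (ι.comp (algebraMap k L)).fieldRange :=
      RingEquiv.ofBijective (ι.comp (algebraMap k L)).rangeRestrictField
        ⟨(ι.comp (algebraMap k L)).rangeRestrictField.injective,
          (ι.comp (algebraMap k L)).rangeRestrictField_bijective.2⟩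
    exact hfc_closed e
  have hknt : ∃ x ∈ kO k ι, 1 < ‖x‖ := by
    obtain ⟨c, hc⟩ := NormedField.exists_one_lt_norm k
    exact ⟨ι (algebraMap k L c), ⟨c, rfl⟩, by rw [hE.norm, norm_algebraMap']; exact hc⟩
  -- the family `Fin.append e u`
  obtain ⟨w, hw⟩ : ∃ w : Fin (r + m) → L, w = Fin.append e u := ⟨_, rfl⟩
  have hwr : Set.range w = Set.range e ∪ Set.range u := by rw [hw]; exact hfc_range e u
  have hsep' : Algebra.IsSeparable (IntermediateField.adjoin k (Set.range w ∪ {T})) L := by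
    rw [hwr]
    exact hsep
  have hkM : kO k ι ≤ kM (k := k) ι e u := (le_sup_left.trans le_sup_left :
    kO k ι ≤ kU (kU (kO k ι) fun i => ι (e i)) fun i => ι (u i))
  have hwM : ∀ i, ι (w i) ∈ kM (k := k) ι e u := by
    intro i
    have h1 : w i ∈ keu k e u := by
      refine IntermediateField.subset_adjoin k _ ?_
      rw [← hwr]
      exact ⟨i, rfl⟩
    rw [kM_eq]
    exact ⟨w i, h1, rfl⟩
  rcases hfc_char hp with hch | hch
  · obtain ⟨F, hFK, hFd, n, s, hTF⟩ := tf_e hE h hRD ha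
    have hMF : kM (k := k) ι e u ≤ F := (le_adj _ _).trans hFd.1
    have hI : Imm F K := imm_e hE hval hres hFd hFK
    have hv : DenseVal F := (denseVal_of_closed hkc hknt).mono hTF.le
    have hkF : kO k ι ≤ F := hTF.le
    have hwF : ∀ i, ι (w i) ∈ F := fun i => hMF (hwM i)
    obtain ⟨P₀, hPc, hPd, hPK, E, hfinE, hsepE, hEK⟩ := exists_P₀ hE hkF hFK w hwF T hsep' hfg
    have hL := algebraic_dense hE hkF w hwF T hsep'
    refine ⟨F, hFK, hFd, ?_⟩
    by_cases hT : ι T ∈ F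
    · left
      have hadj : adj F (ι T) = F := le_antisymm (adj_le le_rfl hT) (le_adj F _)
      rw [hadj] at hPd
      have hPF : P₀ = F := le_antisymm (hfc_closed_of_dense hTF.complete hPd) hPd.1
      subst hPF
      intro b hb
      by_contra hbP
      have hbE : b ∈ E := by
        have : b ∈ E.toSubfield := by rw [hEK]; exact hb
        exact this
      have h1 : IsAlgebraic P₀ (⟨b, hbE⟩ : E) := Algebra.IsAlgebraic.isAlgebraic _
      have h2 : IsAlgebraic P₀ b := h1.algebraMap (A := Ω)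
      have h3 : TT P₀ b := tt_of_stable hp hTF hv hI hb hbP
      have h4 := h3.nb b h2
      rw [sub_self, norm_zero] at h4
      exact absurd h3.pos (not_lt.2 h4.le)
    · right
      obtain ⟨Y, hYK, hYF, hYd⟩ := hr_tf hp hTF hv hI hE.complete halg (hE.mem T) hT hPc hPd E
        hEK hL
      exact ⟨Y, hYK, tt_of_stable hp hTF hv hI hYK hYF, hYd⟩
  · obtain ⟨F, hFK, hcl⟩ := hcl_e (p := p) hE h hRD ha
    have hFd := hcl.dense
    have hMF : kM (k := k) ι e u ≤ F := (le_adj _ _).trans hFd.1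
    have hI : Imm F K := imm_e hE hval hres hFd hFK
    have hkF : kO k ι ≤ F := hkM.trans hMF
    have hwF : ∀ i, ι (w i) ∈ F := fun i => hMF (hwM i)
    obtain ⟨P₀, hPc, hPd, hPK, E, hfinE, hsepE, hEK⟩ := exists_P₀ hE hkF hFK w hwF T hsep' hfg
    refine ⟨F, hFK, hFd, ?_⟩
    by_cases hT : ι T ∈ F
    · left
      have hadj : adj F (ι T) = F := le_antisymm (adj_le le_rfl hT) (le_adj F _)
      rw [hadj] at hPd
      have hPF : P₀ = F := le_antisymm (hfc_closed_of_dense hcl.complete hPd) hPd.1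
      subst hPF
      intro b hb
      have hbE : b ∈ E := by
        have : b ∈ E.toSubfield := by rw [hEK]; exact hb
        exact this
      have h1 : IsAlgebraic P₀ (⟨b, hbE⟩ : E) := Algebra.IsAlgebraic.isAlgebraic _
      have h2 : IsAlgebraic P₀ b := h1.algebraMap (A := Ω)
      exact HR.am hkc hcl h2 (hI.mono (le_adj _ _) (adj_le hFK hb))
    · right
      have hFS : HR.FSep P₀ K := by
        rw [← hEK]
        exact HR.FSep.ofIF E
      obtain ⟨Y, hYK, hYF, hTT, hYd, -⟩ := HR.hr_dense hkc hcl hI (hPd.1 (mem_adj_self _ _)) hT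
        hPc hPd hFS (F := (K : Set Ω)) subset_rfl
        (fun x hx ε hε => ⟨x, hx, by rw [sub_self, norm_zero]; exact hε⟩)
      exact ⟨Y, hYK, hTT, hYd⟩

end DA
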