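import Pool.Agent.Lib.DA.Defs3

/-!
# Module K5: a uniformizer in `O k [u, α]`
-/

namespace DA

open Polynomial MP1a953e

section
variable {k L : Type*} [NormedField k] [NormedField L] [IsUltrametricDist L]
  [NormedAlgebra k L] {M : IntermediateField k L} {R : Subring L} {w : AbsoluteValue L ℝ}

/-- K5a.  `f` is a uniformizer.  Proof.  Let `q ∈ R`, `w q ≤ 1`, `‖q‖ < 1`. `DIVd.div`:
`q = A / B + f * y`, `w (A / B) ≤ 1`, `w y ≤ 1`; `‖A / B‖ = w (A / B)` (`eqV`), and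
`‖A / B‖ = ‖q - f y‖ < 1` (`‖y‖ ≤ w y ≤ 1`, `‖f‖ < 1`). So `w (q - f y) < 1`. -/
theorem DIVd.unif {V : Submodule M L} {f : L} (h : DIVd M R w V f) : Unif R w f := by
  intro q hq hqw hqn
  obtain ⟨A, hA, B, hB, hB0, y, hy, hqe, hAB, hyw⟩ := h.div q hq
  refine ⟨y, hy, hyw.trans hqw, ?_⟩
  have h1 : w (A / B) = ‖A / B‖ := by rw [map_div₀, h.eqV A hA, h.eqV B hB, norm_div]
  have h2 : q - f * y = A / B := by rw [hqe]; ring
  rw [h2, h1, ← h2]
  have h3 : ‖f * y‖ < 1 := by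
    rw [norm_mul]
    calc ‖f‖ * ‖y‖ ≤ ‖f‖ * 1 :=
          mul_le_mul_of_nonneg_left ((h.le y hy).trans (hyw.trans hqw)) (norm_nonneg _)
      _ < 1 := by rw [mul_one]; exact h.f_lt
  rw [sub_eq_add_neg]
  refine (IsUltrametricDist.norm_add_le_max _ _).trans_lt (max_lt hqn ?_)
  rw [norm_neg]
  exact h3

end

section aux

variable {k L : Type*} [NormedField k] [IsUltrametricDist k]
    [NormedField L] [IsUltrametricDist L] [NormedAlgebra k L]

/-- the unit ball of `R` for `w` -/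
private def k5R (R : Subring L) (w : AbsoluteValue L ℝ) (hw : IsNonarchimedean w) : Subring L where
  carrier := {q | q ∈ R ∧ w q ≤ 1}
  mul_mem' := by
    rintro a b ⟨ha, ha'⟩ ⟨hb, hb'⟩
    exact ⟨R.mul_mem ha hb, by rw [map_mul]; exact mul_le_one₀ ha' (w.nonneg _) hb'⟩
  one_mem' := ⟨R.one_mem, by simp⟩
  add_mem' := by
    rintro a b ⟨ha, ha'⟩ ⟨hb, hb'⟩
    exact ⟨R.add_mem ha hb, (hw a b).trans (max_le ha' hb')⟩
  zero_mem' := ⟨R.zero_mem, by simp⟩
  neg_mem' := by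
    rintro a ⟨ha, ha'⟩
    exact ⟨R.neg_mem ha, by rw [AbsoluteValue.map_neg]; exact ha'⟩

omit [IsUltrametricDist L] in
private theorem k5_alg (c : O k) : algebraMap (O k) L c = algebraMap k L (c : k) := rfl

omit [IsUltrametricDist L] in
private theorem k5_aeval {m : ℕ} (u : Fin m → L) (A : Subalgebra (O k) L) (hu : ∀ i, u i ∈ A)
    (P : MvPolynomial (Fin m) k) (hP : ∀ s, ‖P.coeff s‖ ≤ 1) : MvPolynomial.aeval u P ∈ A := by
  rw [MvPolynomial.aeval_def, MvPolynomial.eval₂_eq']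
  refine Subalgebra.sum_mem _ fun s _ => Subalgebra.mul_mem _ ?_ ?_
  · have h1 : algebraMap k L (P.coeff s) = algebraMap (O k) L ⟨P.coeff s, mem_O.2 (hP s)⟩ := rfl
    rw [h1]
    exact Subalgebra.algebraMap_mem _ _
  · exact Subalgebra.prod_mem _ fun i _ => Subalgebra.pow_mem _ (hu i) _

omit [IsUltrametricDist L] in
private theorem k5_evH {m : ℕ} (u : Fin m → L) (α : L) (H : Polynomial (MvPolynomial (Fin m) k))
    (hH : IntH H) : evH u α H ∈ A1 k u α := by
  have hu : ∀ i, u i ∈ A1 k u α := fun i => Algebra.subset_adjoin (Or.inl ⟨i, rfl⟩)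
  have hα : α ∈ A1 k u α := Algebra.subset_adjoin (Or.inr rfl)
  rw [evH, Polynomial.eval_eq_sum_range]
  refine Subalgebra.sum_mem _ fun i _ => Subalgebra.mul_mem _ ?_ (Subalgebra.pow_mem _ hα _)
  rw [Polynomial.coeff_map]
  exact k5_aeval u _ hu _ (hH i)

/-- `A1 k u α` is in the unit ball -/
private theorem k5_A1 {M : IntermediateField k L} {R : Subring L} {w : AbsoluteValue L ℝ}
    (hw : IsNonarchimedean w) (hM : ∀ c ∈ M, c ∈ R) (hwM : ∀ c ∈ M, w c = ‖c‖) {m : ℕ}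
    {u : Fin m → L} {α : L} (hu : ∀ i, u i ∈ R ∧ w (u i) ≤ 1) (hα : α ∈ R ∧ w α ≤ 1) {x : L}
    (hx : x ∈ A1 k u α) : x ∈ k5R R w hw := by
  unfold A1 at hx
  induction hx using Algebra.adjoin_induction with
  | mem x hx =>
    rcases hx with ⟨i, rfl⟩ | hx
    · exact hu i
    · rw [Set.mem_singleton_iff] at hx
      rw [hx]
      exact hα
  | algebraMap c =>
    rw [k5_alg]
    refine ⟨hM _ (M.algebraMap_mem _), ?_⟩
    rw [hwM _ (M.algebraMap_mem _), norm_algebraMap']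
    exact mem_O.1 c.2
  | add x y _ _ hx hy => exact (k5R R w hw).add_mem hx hy
  | mul x y _ _ hx hy => exact (k5R R w hw).mul_mem hx hy

/-- replacing `α` by `α + f` -/
private theorem k5_repl {m : ℕ} {u : Fin m → L} {α f : L} (hu : ∀ i, ‖u i‖ ≤ 1) (hα : ‖α‖ ≤ 1)
    (hf : ‖f‖ < 1) {a : L} (ha : a ∈ A1 k u α) :
    ‖a‖ ≤ 1 ∧ ∃ a' ∈ A1 k u (α + f), ‖a - a'‖ < 1 := by
  have h1 : ∀ {x y : L}, ‖x‖ ≤ 1 → ‖x - y‖ < 1 → ‖y‖ ≤ 1 := by
    intro x y hx hxy
    have h2 : y = x - (x - y) := by ring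
    rw [h2, sub_eq_add_neg]
    refine (IsUltrametricDist.norm_add_le_max _ _).trans (max_le hx ?_)
    rw [norm_neg]
    exact hxy.le
  unfold A1 at ha
  induction ha using Algebra.adjoin_induction with
  | mem x hx =>
    rcases hx with ⟨i, rfl⟩ | hx
    · exact ⟨hu i, u i, Algebra.subset_adjoin (Or.inl ⟨i, rfl⟩), by simp⟩
    · rw [Set.mem_singleton_iff] at hx
      rw [hx]
      refine ⟨hα, α + f, Algebra.subset_adjoin (Or.inr rfl), ?_⟩
      have h2 : α - (α + f) = -f := by ring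
      rw [h2, norm_neg]
      exact hf
  | algebraMap c =>
    refine ⟨?_, algebraMap (O k) L c, Subalgebra.algebraMap_mem _ _, by simp⟩
    rw [k5_alg, norm_algebraMap']
    exact mem_O.1 c.2
  | add x y _ _ hx hy =>
    obtain ⟨hx1, x', hx', hxx⟩ := hx
    obtain ⟨hy1, y', hy', hyy⟩ := hy
    refine ⟨(IsUltrametricDist.norm_add_le_max _ _).trans (max_le hx1 hy1), x' + y',
      Subalgebra.add_mem _ hx' hy', ?_⟩
    have h2 : x + y - (x' + y') = (x - x') + (y - y') := by ring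
    rw [h2]
    exact (IsUltrametricDist.norm_add_le_max _ _).trans_lt (max_lt hxx hyy)
  | mul x y _ _ hx hy =>
    obtain ⟨hx1, x', hx', hxx⟩ := hx
    obtain ⟨hy1, y', hy', hyy⟩ := hy
    refine ⟨by rw [norm_mul]; exact mul_le_one₀ hx1 (norm_nonneg _) hy1, x' * y',
      Subalgebra.mul_mem _ hx' hy', ?_⟩
    have h2 : x * y - x' * y' = x * (y - y') + (x - x') * y' := by ring
    rw [h2]
    refine (IsUltrametricDist.norm_add_le_max _ _).trans_lt (max_lt ?_ ?_)
    · rw [norm_mul]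
      exact (mul_le_of_le_one_left (norm_nonneg _) hx1).trans_lt hyy
    · rw [norm_mul]
      exact (mul_le_of_le_one_right (norm_nonneg _) (h1 hy1 hyy)).trans_lt hxx

end aux

/-- K5.  Proof.  Let `h₁ = evH u α H`: `‖h₁‖ < 1`, `w h₁ ≤ 1` (integral coefficients). By K5a there is `y₁ ∈ R`,
`w y₁ ≤ 1`, `w (h₁ - f y₁) < 1`. Case `‖y₁‖ = 1`: `w y₁ = 1`, `y₁⁻¹ ∈ R`, `w (f - h₁ y₁⁻¹) < 1`; take
`α' = α`, `h = h₁`; it is a uniformizer (`q = f y = h₁ y₁⁻¹ y` up to `w < 1`). Case `‖y₁‖ < 1`: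
`α' = α + f`, `h = evH u α' H`. By Taylor's formula `h = h₁ + f * evH u α H' + f ^ 2 * (...)`, so
`h = f * v` up to `w < 1`, with `v = y₁ + evH u α H' + f * (...) ∈ R`, `w v ≤ 1`, `‖v‖ = 1` (`h_der`,
`‖y₁‖ < 1`, `‖f‖ < 1`); `v⁻¹ ∈ R`, so `f = h * v⁻¹` up to `w < 1`. `h_mem`: `evH u α' H` is a polynomial in
`u, α'` with coefficients in `O k`. `res`: `a, b` are polynomials in `u, α` over `O k`; replacing `α` by
`α'` changes them by elements of norm `≤ ‖f‖ < 1`. The other items are those of `PreCor`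
(`f ∈ R`, `w f = 1`). -/
theorem exists_cor_of_precor {k L : Type*} [NormedField k] [IsUltrametricDist k]
    [NormedField L] [IsUltrametricDist L] [NormedAlgebra k L] {M : IntermediateField k L}
    {R : Subring L} {w : AbsoluteValue L ℝ} {V : Submodule M L} {f : L} {r m : ℕ}
    (h : DIVd M R w V f) {e : Fin r → L} {u : Fin m → L} {α : L}
    {H : Polynomial (MvPolynomial (Fin m) k)} (hC : PreCor k R w e u α H) :
    ∃ α' h' : L, Cor k R w e u α' h' := by
  have hwM : ∀ c ∈ M, w c = ‖c‖ := by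
    intro c hc
    rcases eq_or_ne c 0 with rfl | h0
    · simp
    have h1 := h.le c (h.M_le c hc)
    have h2 := h.le c⁻¹ (h.M_le _ (M.inv_mem hc))
    rw [norm_inv, map_inv₀] at h2
    have h3 : 0 < ‖c‖ := norm_pos_iff.2 h0
    have h4 : 0 < w c := lt_of_lt_of_le h3 h1
    exact le_antisymm ((inv_le_inv₀ h3 h4).1 h2) h1
  have hnu : ∀ i, ‖u i‖ ≤ 1 := hC.eu.norm_u
  have hnα : ‖α‖ ≤ 1 := (h.le α hC.α_mem).trans hC.α_w
  have hA1 : ∀ {x : L}, x ∈ A1 k u α → x ∈ k5R R w h.nonarch := fun hx =>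
    k5_A1 h.nonarch h.M_le hwM (fun i => ⟨hC.u_mem i, hC.u_w i⟩) ⟨hC.α_mem, hC.α_w⟩ hx
  have hh₁ := hA1 (k5_evH u α H hC.int)
  have hinv1 : ∀ y ∈ R, w y ≤ 1 → ‖y‖ = 1 → y ≠ 0 ∧ w y = 1 ∧ y⁻¹ ∈ R ∧ w y⁻¹ = 1 := by
    intro y hy hyw hyn
    have h1 : w y = 1 := le_antisymm hyw (by rw [← hyn]; exact h.le y hy)
    refine ⟨?_, h1, h.inv y hy (by rw [h1, hyn]), by rw [map_inv₀, h1, inv_one]⟩
    rintro rfl
    rw [norm_zero] at hyn
    exact zero_ne_one hyn
  -- a uniformizer from `f = h v⁻¹`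
  have hunif : ∀ (g v : L), v ∈ R → w v ≤ 1 → w (f - g * v) < 1 → Unif R w g := by
    intro g v hv hvw hgv q hq hqw hqn
    obtain ⟨y, hy, hyw, hqy⟩ := h.unif q hq hqw hqn
    refine ⟨v * y, R.mul_mem hv hy, by rw [map_mul]; exact mul_le_one₀ hvw (w.nonneg _) hyw, ?_⟩
    have h2 : q - g * (v * y) = (q - f * y) + (f - g * v) * y := by ring
    rw [h2]
    refine (h.nonarch _ _).trans_lt (max_lt hqy ?_)
    rw [map_mul]
    exact (mul_le_of_le_one_right (w.nonneg _) hyw).trans_lt hgv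
  obtain ⟨y₁, hy₁, hy₁w, hy₁d⟩ := h.unif _ hh₁.1 hh₁.2 hC.h_lt
  have hy₁n : ‖y₁‖ ≤ 1 := (h.le y₁ hy₁).trans hy₁w
  rcases hy₁n.lt_or_eq with hlt | heq
  · -- second case
    set P : L[X] := H.map (MvPolynomial.aeval u : MvPolynomial (Fin m) k →ₐ[k] L).toRingHom with hP
    set R₁ := k5R R w h.nonarch with hR₁
    have hcoeff : ∀ i, P.coeff i ∈ R₁ := by
      intro i
      rw [hP, Polynomial.coeff_map]
      exact hA1 (k5_aeval u _ (fun i => Algebra.subset_adjoin (Or.inl ⟨i, rfl⟩)) _ (hC.int i))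
    have hcoeffs : (↑P.coeffs : Set L) ⊆ R₁ := by
      intro x hx
      obtain ⟨i, -, rfl⟩ := Polynomial.mem_coeffs_iff.1 (Finset.mem_coe.1 hx)
      exact hcoeff i
    set P₁ : R₁[X] := P.toSubring R₁ hcoeffs with hP₁
    have hmap : P₁.map R₁.subtype = P := Polynomial.map_toSubring _ _ _
    have hf1 : f ∈ R₁ := ⟨h.f_mem, h.f_w.le⟩
    have hα1 : α ∈ R₁ := ⟨hC.α_mem, hC.α_w⟩
    obtain ⟨t, ht⟩ := Polynomial.binomExpansion P₁ ⟨α, hα1⟩ ⟨f, hf1⟩
    have hev : ∀ (Q : R₁[X]) (x : R₁), ((Q.eval x : R₁) : L) = (Q.map R₁.subtype).eval (x : L) := by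
      intro Q x
      rw [Polynomial.eval_map]
      exact (Polynomial.eval₂_at_apply R₁.subtype x).symm
    have ht' : P.eval (α + f) = P.eval α + (derivative P).eval α * f + (t : L) * f ^ 2 := by
      have h1 := congrArg (Subtype.val) ht
      have h2 : ((P₁.eval (⟨α, hα1⟩ + ⟨f, hf1⟩) : R₁) : L) = P.eval (α + f) := by
        rw [hev, hmap]
        rfl
      have h3 : ((P₁.eval (⟨α, hα1⟩ : R₁) : R₁) : L) = P.eval α := by
        rw [hev, hmap]
      have h4 : (((derivative P₁).eval (⟨α, hα1⟩ : R₁) : R₁) : L) = (derivative P).eval α := by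
        rw [hev, ← Polynomial.derivative_map, hmap]
      rw [← h2, ← h3, ← h4]
      exact h1
    have hd0 : evH u α (derivative H) = (derivative P).eval α := by
      rw [evH, hP, Polynomial.derivative_map]
    have hdR : (derivative P).eval α ∈ R₁ := by
      have h4 : (((derivative P₁).eval (⟨α, hα1⟩ : R₁) : R₁) : L) = (derivative P).eval α := by
        rw [hev, ← Polynomial.derivative_map, hmap]
      rw [← h4]
      exact Subtype.property _
    set d := (derivative P).eval α with hd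
    have hdn : ‖d‖ = 1 := by rw [← hd0]; exact hC.h_der
    set g := evH u (α + f) H with hg
    have hgP : g = P.eval (α + f) := rfl
    have hh₁P : evH u α H = P.eval α := rfl
    set v := y₁ + (d + f * t) with hv
    have hge : g = f * v + (evH u α H - f * y₁) := by
      rw [hgP, ht', hv, hh₁P]
      ring
    have htn : ‖(t : L)‖ ≤ 1 := (h.le _ t.2.1).trans t.2.2
    have hftn : ‖f * (t : L)‖ < 1 := by
      rw [norm_mul]
      exact (mul_le_of_le_one_right (norm_nonneg _) htn).trans_lt h.f_lt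
    have hvR : v ∈ R₁ := R₁.add_mem ⟨hy₁, hy₁w⟩ (R₁.add_mem hdR (R₁.mul_mem hf1 t.2))
    have hvn : ‖v‖ = 1 := by
      have h1 : v = d + (y₁ + f * t) := by rw [hv]; ring
      have h2 : ‖y₁ + f * (t : L)‖ < 1 :=
        (IsUltrametricDist.norm_add_le_max _ _).trans_lt (max_lt hlt hftn)
      have h3 : ‖d‖ ≠ ‖y₁ + f * (t : L)‖ := by rw [hdn]; exact h2.ne'
      rw [h1, IsUltrametricDist.norm_add_eq_max_of_norm_ne_norm h3, hdn]
      exact max_eq_left h2.le
    obtain ⟨hv0, hvw, hvi, hviw⟩ := hinv1 v hvR.1 hvR.2 hvn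
    have hgn : ‖g‖ < 1 := by
      have h1 : g = evH u α H + f * (d + f * t) := by rw [hge, hv]; ring
      rw [h1]
      refine (IsUltrametricDist.norm_add_le_max _ _).trans_lt (max_lt hC.h_lt ?_)
      rw [norm_mul]
      have h2 : ‖d + f * (t : L)‖ ≤ 1 :=
        (IsUltrametricDist.norm_add_le_max _ _).trans (max_le hdn.le hftn.le)
      exact (mul_le_of_le_one_right (norm_nonneg _) h2).trans_lt h.f_lt
    refine ⟨α + f, g, ⟨hC.e_mem, hC.e_w, hC.eu, hC.u_mem, hC.u_w, R.add_mem hC.α_mem h.f_mem,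
      (R₁.add_mem hα1 hf1).2, k5_evH u _ H hC.int, hgn, hC.val, ?_, ?_⟩⟩
    · intro q hq hqw
      obtain ⟨a, ha, b, hb, hbn, hab⟩ := hC.res q hq hqw
      obtain ⟨han, a', ha', haa⟩ := k5_repl hnu hnα h.f_lt ha
      obtain ⟨-, b', hb', hbb⟩ := k5_repl hnu hnα h.f_lt hb
      have hb'n : ‖b'‖ = 1 := by
        have h1 : b' = b + (-(b - b')) := by ring
        have h2 : ‖b‖ ≠ ‖-(b - b')‖ := by rw [hbn, norm_neg]; exact hbb.ne'
        rw [h1, IsUltrametricDist.norm_add_eq_max_of_norm_ne_norm h2, hbn, norm_neg]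
        exact max_eq_left hbb.le
      refine ⟨a', ha', b', hb', hb'n, ?_⟩
      have hb0 : b ≠ 0 := by
        rintro rfl
        rw [norm_zero] at hbn
        exact zero_ne_one hbn
      have hb'0 : b' ≠ 0 := by
        rintro rfl
        rw [norm_zero] at hb'n
        exact zero_ne_one hb'n
      have h1 : q - a' / b' = (q - a / b) + ((a - a') * b' + a' * (b' - b)) / (b * b') := by
        field_simp
        ring
      rw [h1]
      refine (IsUltrametricDist.norm_add_le_max _ _).trans_lt (max_lt hab ?_)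
      rw [norm_div, norm_mul b b', hbn, hb'n, mul_one, div_one]
      have ha'n : ‖a'‖ ≤ 1 := by
        have h2 : a' = a + (-(a - a')) := by ring
        rw [h2]
        refine (IsUltrametricDist.norm_add_le_max _ _).trans (max_le han ?_)
        rw [norm_neg]
        exact haa.le
      refine (IsUltrametricDist.norm_add_le_max _ _).trans_lt (max_lt ?_ ?_)
      · rw [norm_mul, hb'n, mul_one]
        exact haa
      · rw [norm_mul, ← norm_neg (b' - b), neg_sub]
        exact (mul_le_of_le_one_left (norm_nonneg _) ha'n).trans_lt hbb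
    · refine hunif g v⁻¹ hvi hviw.le ?_
      have h1 : f - g * v⁻¹ = -((evH u α H - f * y₁) * v⁻¹) := by
        rw [hge]
        field_simp
        ring
      rw [h1, AbsoluteValue.map_neg, map_mul, hviw, mul_one]
      exact hy₁d
  · -- first case
    obtain ⟨hy0, hyw, hyi, hyiw⟩ := hinv1 y₁ hy₁ hy₁w heq
    refine ⟨α, evH u α H, ⟨hC.e_mem, hC.e_w, hC.eu, hC.u_mem, hC.u_w, hC.α_mem, hC.α_w,
      k5_evH u _ H hC.int, hC.h_lt, hC.val, hC.res, hunif _ y₁⁻¹ hyi hyiw.le ?_⟩⟩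
    have h1 : f - evH u α H * y₁⁻¹ = -((evH u α H - f * y₁) * y₁⁻¹) := by
      field_simp
      ring
    rw [h1, AbsoluteValue.map_neg, map_mul, hyiw, mul_one]
    exact hy₁d

end DA
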