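import Mathlib

/-!
# Module K6a: perturbation to a separating transcendence basis
-/

namespace DA

private theorem k6_sep_of_diff {k F : Type*} [Field k] [Field F] [Algebra k F]
    [Algebra.EssFiniteType k F]
    (s : Set F) (hs : Submodule.span F (KaehlerDifferential.D k F '' s) = ⊤) :
    Algebra.IsSeparable (IntermediateField.adjoin k s) F := by
  set E := IntermediateField.adjoin k s with hE
  have hess : Algebra.EssFiniteType E F := Algebra.EssFiniteType.of_comp k E F
  have hmap : ∀ x : F, KaehlerDifferential.map k E F F (KaehlerDifferential.D k F x) =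
      KaehlerDifferential.D E F x := by
    intro x
    rw [KaehlerDifferential.map_D]
    rfl
  have hzero : ∀ ω : Ω[F⁄k], KaehlerDifferential.map k E F F ω = 0 := by
    intro ω
    have hω : ω ∈ Submodule.span F (KaehlerDifferential.D k F '' s) := by
      rw [hs]; exact Submodule.mem_top
    induction hω using Submodule.span_induction with
    | mem x hx =>
      obtain ⟨y, hy, rfl⟩ := hx
      rw [hmap]
      have hyE : y ∈ E := IntermediateField.subset_adjoin k s hy
      have : algebraMap E F ⟨y, hyE⟩ = y := rfl
      rw [← this]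
      exact Derivation.map_algebraMap _ _
    | zero => exact map_zero _
    | add x y _ _ hx hy => rw [map_add, hx, hy, add_zero]
    | smul a x _ hx => rw [map_smul, hx, smul_zero]
  have hD : ∀ x : F, KaehlerDifferential.D E F x = 0 := by
    intro x
    rw [← hmap, hzero]
  have hsub : Subsingleton (Ω[F⁄E]) := by
    have hspan := KaehlerDifferential.span_range_derivation E F
    have hbot : (⊤ : Submodule F (Ω[F⁄E])) = ⊥ := by
      rw [← hspan, Submodule.span_eq_bot]
      rintro x ⟨y, rfl⟩
      exact hD y
    exact (Submodule.subsingleton_iff F).1 (subsingleton_of_bot_eq_top hbot.symm)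
  have hunr : Algebra.FormallyUnramified E F := ⟨hsub⟩
  exact (Algebra.FormallyUnramified.iff_isSeparable E F).1 hunr

private theorem k6_span_of_sep {k F : Type*} [Field k] [Field F] [Algebra k F]
    (s : Set F) [Algebra.IsSeparable (IntermediateField.adjoin k s) F] :
    Submodule.span F (KaehlerDifferential.D k F '' s) = ⊤ := by
  set W : Submodule F (Ω[F⁄k]) := Submodule.span F (KaehlerDifferential.D k F '' s) with hW
  -- elements of `E`
  have hE : ∀ x ∈ IntermediateField.adjoin k s, KaehlerDifferential.D k F x ∈ W := by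
    intro x hx
    induction hx using IntermediateField.adjoin_induction with
    | mem x hx => exact Submodule.subset_span ⟨x, hx, rfl⟩
    | algebraMap x => rw [Derivation.map_algebraMap]; exact W.zero_mem
    | add x y _ _ hx hy => rw [map_add]; exact W.add_mem hx hy
    | inv x _ hx => rw [Derivation.leibniz_inv]; exact W.smul_mem _ hx
    | mul x y _ _ hx hy =>
      rw [Derivation.leibniz]; exact W.add_mem (W.smul_mem _ hy) (W.smul_mem _ hx)
  have hsub : Subsingleton (Ω[F⁄(IntermediateField.adjoin k s)]) :=
    (Algebra.FormallyUnramified.of_isSeparable (IntermediateField.adjoin k s) F).1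
  let d0 : F →ₗ[IntermediateField.adjoin k s] (Ω[F⁄k] ⧸ W) :=
    { toFun := fun x => W.mkQ (KaehlerDifferential.D k F x)
      map_add' := fun x y => by simp
      map_smul' := fun e x => by
        have h1 : (e • x : F) = (e : F) * x := rfl
        have h2 : W.mkQ (KaehlerDifferential.D k F (e : F)) = 0 := by
          rw [Submodule.mkQ_apply, Submodule.Quotient.mk_eq_zero]
          exact hE _ e.2
        rw [h1, Derivation.leibniz, map_add, map_smul, map_smul, h2, smul_zero, add_zero]
        rfl }
  let d : Derivation (IntermediateField.adjoin k s) F (Ω[F⁄k] ⧸ W) :=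
    Derivation.mk' d0 (fun a b => by
      change W.mkQ (KaehlerDifferential.D k F (a * b)) = _
      rw [Derivation.leibniz, map_add, map_smul, map_smul]
      rfl)
  have hd : ∀ x, KaehlerDifferential.D k F x ∈ W := by
    intro x
    have h1 : d x = d.liftKaehlerDifferential
        (KaehlerDifferential.D (IntermediateField.adjoin k s) F x) :=
      (Derivation.liftKaehlerDifferential_comp_D d x).symm
    have h2 : KaehlerDifferential.D (IntermediateField.adjoin k s) F x = 0 :=
      Subsingleton.elim _ _
    rw [h2, map_zero] at h1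
    have h3 : W.mkQ (KaehlerDifferential.D k F x) = 0 := h1
    rwa [Submodule.mkQ_apply, Submodule.Quotient.mk_eq_zero] at h3
  rw [eq_top_iff, ← KaehlerDifferential.span_range_derivation k F, Submodule.span_le]
  rintro _ ⟨x, rfl⟩
  exact hd x

/-- K6a.  Proof.  Let `Ω = Ω[L⁄k]`. (1) `dim_L Ω ≤ n`: `k` is perfect, so there is a separating transcendence
basis `s` of `L / k` (`exists_isTranscendenceBasis_and_isSeparable_of_perfectField`), with `n` elements, and
`Ω` is spanned by the `d s` (`Ω[L⁄k(s)] = 0` as `L / k(s)` is separable algebraic). (2) `Ω` is spanned by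
the `d a`, `a ∈ 𝓡` (quotient rule), so there are `ζ 1, …, ζ n ∈ 𝓡` whose differentials span `Ω`
(a basis, completed by `0 ∈ 𝓡`: `0 = a / b`). (3) Let `x : Fin n → L`. Let `I ⊆ Fin n` be such that
`(d ζ i)_{i ∈ I}` is a basis. The matrix of `(d x i + c d ζ i)_{i ∈ I}` in this basis is `J + c 1`, whose
determinant is a monic polynomial in `c` (characteristic polynomial of `-J`), nonzero outside a finite
set `Z` of `c ∈ k`. (4) For `c ∉ Z` let `N = k(x i + c ζ i)`. The `d (x i + c ζ i)` span `Ω` and vanish in
`Ω[L⁄N]`, so `Ω[L⁄N] = 0`, `L / N` is formally unramified, and finitely generated as a field, so it is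
separable algebraic (`Algebra.FormallyUnramified.isSeparable`, `Algebra.EssFiniteType`). (Compare
Pool/Agent/Lib/TDO/SepDiff.lean and DiffRank.lean, which are stated for `Type`.) -/
theorem exists_sep_dir {k L : Type*} [Field k] [IsAlgClosed k] [Field L] [Algebra k L]
    (hfg : (⊤ : IntermediateField k L).FG) {n : ℕ} (htr : Algebra.trdeg k L = n) (𝓡 : Set L)
    (h𝓡 : ∀ x : L, ∃ a ∈ 𝓡, ∃ b ∈ 𝓡, b ≠ 0 ∧ x = a / b) :
    ∃ ζ : Fin n → L, (∀ i, ζ i ∈ 𝓡) ∧ ∀ x : Fin n → L, ∃ Z : Finset k, ∀ c ∉ Z,
      Algebra.IsSeparable
        (IntermediateField.adjoin k (Set.range fun i => x i + algebraMap k L c * ζ i)) L := by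
  classical
  have hess : Algebra.EssFiniteType k L := IntermediateField.fg_top_iff.1 hfg
  -- (1)
  obtain ⟨s, hs, hsep⟩ := exists_isTranscendenceBasis_and_isSeparable_of_perfectField k L
  have hspan1 := k6_span_of_sep (k := k) (F := L) (s : Set L)
  have hcard : s.card = n := by
    have h2 := hs.cardinalMk_eq_trdeg
    rw [htr, Cardinal.mk_fintype] at h2
    simpa using h2
  have hfin : Module.Finite L (Ω[L⁄k]) := by
    refine ⟨?_⟩
    rw [← hspan1]
    exact Submodule.fg_span (s.finite_toSet.image _)
  have hrank : Module.finrank L (Ω[L⁄k]) ≤ n := by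
    have h1 : Module.finrank L (Ω[L⁄k]) =
        Module.finrank L (Submodule.span L (KaehlerDifferential.D k L '' (s : Set L))) := by
      rw [hspan1, finrank_top]
    rw [h1, ← hcard]
    have h2 : KaehlerDifferential.D k L '' (s : Set L) =
        ((s.image (KaehlerDifferential.D k L) : Finset _) : Set (Ω[L⁄k])) := by simp
    rw [h2]
    exact (finrank_span_finset_le_card _).trans Finset.card_image_le
  -- (2)
  have hspan2 : Submodule.span L (KaehlerDifferential.D k L '' 𝓡) = ⊤ := by
    rw [eq_top_iff, ← KaehlerDifferential.span_range_derivation k L, Submodule.span_le]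
    rintro _ ⟨x, rfl⟩
    obtain ⟨a, ha, b, hb, hb0, rfl⟩ := h𝓡 x
    rw [div_eq_mul_inv, Derivation.leibniz, Derivation.leibniz_inv]
    have h1 : KaehlerDifferential.D k L a ∈ Submodule.span L (KaehlerDifferential.D k L '' 𝓡) :=
      Submodule.subset_span ⟨a, ha, rfl⟩
    have h2 : KaehlerDifferential.D k L b ∈ Submodule.span L (KaehlerDifferential.D k L '' 𝓡) :=
      Submodule.subset_span ⟨b, hb, rfl⟩
    exact Submodule.add_mem _ (Submodule.smul_mem _ _ (Submodule.smul_mem _ _ h2))
      (Submodule.smul_mem _ _ h1)
  obtain ⟨b, hb, hbspan, hbli⟩ := exists_linearIndependent L (KaehlerDifferential.D k L '' 𝓡)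
  rw [hspan2] at hbspan
  have hbfin : Fintype b := by
    have : Finite b := hbli.finite
    exact Fintype.ofFinite b
  let B : Module.Basis b L (Ω[L⁄k]) := Module.Basis.mk hbli (by
    rw [Subtype.range_coe]; exact hbspan.ge)
  have hBapp : ∀ j : b, B j = (j : Ω[L⁄k]) := fun j => by
    simp [B]
  have hbcard : Fintype.card b ≤ n := by
    rw [← Module.finrank_eq_card_basis B]; exact hrank
  obtain ⟨f⟩ : Nonempty (b ↪ Fin n) := by
    rw [Function.Embedding.nonempty_iff_card_le]; simpa using hbcard
  choose g hg𝓡 hgD using fun j : b => hb j.2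
  obtain ⟨a0, ha0, -⟩ := h𝓡 0
  refine ⟨fun i => if h : ∃ j, f j = i then g h.choose else a0, ?_, ?_⟩
  · intro i
    by_cases h : ∃ j, f j = i
    · simp only [h, dif_pos]; exact hg𝓡 _
    · simp only [h, dif_neg, not_false_eq_true]; exact ha0
  · intro x
    have hζ : ∀ j : b, (if h : ∃ j', f j' = f j then g h.choose else a0) = g j := by
      intro j
      have h : ∃ j', f j' = f j := ⟨j, rfl⟩
      rw [dif_pos h]
      congr 1
      exact f.injective h.choose_spec
    let T : (Ω[L⁄k]) →ₗ[L] (Ω[L⁄k]) := B.constr L (fun j => KaehlerDifferential.D k L (x (f j)))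
    have hTB : ∀ j, T (B j) = KaehlerDifferential.D k L (x (f j)) := fun j =>
      B.constr_basis L _ j
    have hev : Set.Finite {μ : L | Module.End.HasEigenvalue T μ} :=
      Module.End.finite_hasEigenvalue T
    have hinj : Function.Injective (fun c : k => - algebraMap k L c) := by
      intro c c' h
      exact (algebraMap k L).injective (neg_injective h)
    have hZ : Set.Finite ((fun c : k => - algebraMap k L c) ⁻¹'
        {μ : L | Module.End.HasEigenvalue T μ}) := hev.preimage hinj.injOn
    refine ⟨hZ.toFinset, ?_⟩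
    intro c hc
    rw [Set.Finite.mem_toFinset, Set.mem_preimage, Set.mem_ofPred_eq] at hc
    -- `T + c` is injective
    have hinj2 : Function.Injective (T + algebraMap k L c • (LinearMap.id : (Ω[L⁄k]) →ₗ[L] (Ω[L⁄k]))) := by
      rw [← LinearMap.ker_eq_bot, LinearMap.ker_eq_bot']
      intro v hv
      by_contra hv0
      apply hc
      refine Module.End.hasEigenvalue_of_hasEigenvector (x := v) ⟨?_, hv0⟩
      rw [Module.End.mem_eigenspace_iff]
      have h1 : T v + algebraMap k L c • v = 0 := by simpa using hv
      rw [neg_smul]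
      exact eq_neg_of_add_eq_zero_left h1
    have hsurj := LinearMap.injective_iff_surjective.1 hinj2
    apply k6_sep_of_diff
    rw [eq_top_iff]
    have h1 : (⊤ : Submodule L (Ω[L⁄k])) =
        Submodule.map (T + algebraMap k L c • (LinearMap.id : (Ω[L⁄k]) →ₗ[L] (Ω[L⁄k]))) ⊤ := by
      rw [Submodule.map_top, LinearMap.range_eq_top.2 hsurj]
    rw [h1, ← B.span_eq, Submodule.map_span, Submodule.span_le]
    rintro _ ⟨_, ⟨j, rfl⟩, rfl⟩
    apply Submodule.subset_span
    refine ⟨_, ⟨f j, rfl⟩, ?_⟩
    simp only [hζ]
    rw [map_add, LinearMap.add_apply, hTB, ← Algebra.smul_def, Derivation.map_smul, hgD j,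
      LinearMap.smul_apply, LinearMap.id_apply, hBapp, algebraMap_smul]

end DA
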