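import Pool.Agent.Lib.DA.EUa

/-!
# Module EUc: absolute values on `k(e, u)`
-/

namespace DA

open Polynomial MP1a953e

variable {k L : Type*} [NormedField k] [IsUltrametricDist k] [NormedField L]
  [IsUltrametricDist L] [NormedAlgebra k L] {r m : ℕ} {e : Fin r → L} {u : Fin m → L}

/-- finite sums for a nonarchimedean absolute value -/
private theorem EUc.sum_le' {ι : Type*} {w : AbsoluteValue L ℝ} (hw : IsNonarchimedean w)
    (s : Finset ι) (f : ι → L) {C : ℝ} (hC : 0 ≤ C) (hf : ∀ i ∈ s, w (f i) ≤ C) :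
    w (∑ i ∈ s, f i) ≤ C := by
  classical
  induction s using Finset.induction_on with
  | empty => simpa using hC
  | insert a s ha ih =>
    rw [Finset.sum_insert ha]
    refine le_trans (hw _ _) (max_le (hf a (Finset.mem_insert_self a s)) (ih ?_))
    intro i hi
    exact hf i (Finset.mem_insert_of_mem hi)

/-- the elements of `k[e, u]` are Laurent polynomials -/
private theorem EUc.exists_rep {x : L}
    (hx : x ∈ Algebra.adjoin k (Set.range e ∪ Set.range u)) :
    ∃ (Z : Finset (Fin r → ℤ)) (P : (Fin r → ℤ) → MvPolynomial (Fin m) k),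
      x = ∑ z ∈ Z, MvPolynomial.aeval u (P z) * ∏ i, e i ^ z i := by
  classical
  rw [Set.union_comm, Algebra.adjoin_union_eq_adjoin_adjoin, Subalgebra.mem_restrictScalars] at hx
  have hle : Algebra.adjoin (Algebra.adjoin k (Set.range u)) (Set.range e) ≤
      (MvPolynomial.aeval e : MvPolynomial (Fin r) (Algebra.adjoin k (Set.range u))
        →ₐ[Algebra.adjoin k (Set.range u)] L).range := by
    refine Algebra.adjoin_le ?_
    rintro _ ⟨i, rfl⟩
    exact ⟨MvPolynomial.X i, MvPolynomial.aeval_X e i⟩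
  obtain ⟨p, hp⟩ := hle hx
  have hp' : MvPolynomial.aeval e p = x := hp
  have hex : ∀ a : Algebra.adjoin k (Set.range u), ∃ Q : MvPolynomial (Fin m) k,
      MvPolynomial.aeval u Q = (a : L) := by
    intro a
    have ha : (a : L) ∈ Algebra.adjoin k (Set.range u) := a.2
    have hle : Algebra.adjoin k (Set.range u) ≤
        (MvPolynomial.aeval u : MvPolynomial (Fin m) k →ₐ[k] L).range := by
      refine Algebra.adjoin_le ?_
      rintro _ ⟨i, rfl⟩
      exact ⟨MvPolynomial.X i, MvPolynomial.aeval_X u i⟩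
    obtain ⟨q, hq⟩ := hle ha
    exact ⟨q, hq⟩
  choose Q hQ using hex
  set g : (Fin r →₀ ℕ) → (Fin r → ℤ) := fun s i => (s i : ℤ) with hg
  have hginj : Function.Injective g := by
    intro s t hst
    ext i
    have := congrFun hst i
    simpa [hg] using this
  refine ⟨p.support.image g, fun z => Q (p.coeff (Function.invFun g z)), ?_⟩
  rw [Finset.sum_image (fun a _ b _ hab => hginj hab), ← hp', MvPolynomial.aeval_def,
    MvPolynomial.eval₂_eq']
  refine Finset.sum_congr rfl ?_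
  intro s _
  have h1 : ∏ i, e i ^ g s i = ∏ i, e i ^ s i :=
    Finset.prod_congr rfl (fun i _ => zpow_natCast (e i) (s i))
  have h2 : Function.invFun g (g s) = s := Function.leftInverse_invFun hginj s
  change _ = MvPolynomial.aeval u (Q (p.coeff (Function.invFun g (g s)))) * ∏ i, e i ^ g s i
  rw [h2, hQ, h1]
  rfl

/-- EUc.  Proof.  For a Laurent polynomial `q = ∑ P z (u) * e ^ z` (in `R`, because `e i ^ (-1) ∈ R` by
`hinv`) we have `w q ≤ max w (P z (u)) * w (e ^ z) ≤ max ‖P z (u)‖ * ‖e ^ z‖ ≤ ‖q‖` (`EU.sum_le`;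
`w (P z (u)) ≤ max ‖coefficients‖ = ‖P z (u)‖` since `w (u i) ≤ 1`), and `‖q‖ ≤ w q`. So `w q = ‖q‖` and
`q⁻¹ ∈ R` by `hinv`. The elements of `k(e, u)` are fractions of such elements. -/
theorem EU.mem_of (h : EU k e u) {R : Subring L} {w : AbsoluteValue L ℝ}
    (hw : IsNonarchimedean w)
    (hk : ∀ c : k, algebraMap k L c ∈ R ∧ w (algebraMap k L c) = ‖c‖)
    (hle : ∀ q ∈ R, ‖q‖ ≤ w q) (hinv : ∀ q ∈ R, w q = ‖q‖ → q⁻¹ ∈ R)
    (he : ∀ i, e i ∈ R ∧ w (e i) = ‖e i‖) (hu : ∀ i, u i ∈ R ∧ w (u i) ≤ 1) {x : L}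
    (hx : x ∈ keu k e u) : x ∈ R ∧ w x = ‖x‖ := by
  classical
  -- bound for polynomials in `u`
  have hPu : ∀ P : MvPolynomial (Fin m) k,
      w (MvPolynomial.aeval u P) ≤ ‖MvPolynomial.aeval u P‖ := by
    intro P
    have h1 : MvPolynomial.aeval u P = ∑ d ∈ P.support,
        algebraMap k L (P.coeff d) * ∏ i ∈ d.support, u i ^ d i := by
      rw [MvPolynomial.aeval_def, MvPolynomial.eval₂_eq]
    have h2 : w (∑ d ∈ P.support, algebraMap k L (P.coeff d) * ∏ i ∈ d.support, u i ^ d i) ≤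
        ‖MvPolynomial.aeval u P‖ := by
      refine EUc.sum_le' hw _ _ (norm_nonneg _) ?_
      intro d _
      rw [map_mul, map_prod, (hk _).2]
      have h3 : ∏ i ∈ d.support, w (u i ^ d i) ≤ 1 := by
        refine Finset.prod_le_one (fun i _ => w.nonneg _) ?_
        intro i _
        rw [map_pow]
        exact pow_le_one₀ (w.nonneg _) (hu i).2
      calc ‖P.coeff d‖ * ∏ i ∈ d.support, w (u i ^ d i) ≤ ‖P.coeff d‖ * 1 :=
            mul_le_mul_of_nonneg_left h3 (norm_nonneg _)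
        _ = ‖P.coeff d‖ := mul_one _
        _ ≤ ‖MvPolynomial.aeval u P‖ := h.gauss P d
    calc w (MvPolynomial.aeval u P) = _ := congrArg w h1
      _ ≤ _ := h2
  have hez : ∀ z : Fin r → ℤ, w (∏ i, e i ^ z i) = ‖∏ i, e i ^ z i‖ := by
    intro z
    rw [map_prod, norm_prod]
    refine Finset.prod_congr rfl ?_
    intro i _
    rw [map_zpow₀, norm_zpow, (he i).2]
  -- membership in `R`
  let S : Subalgebra k L := { R with algebraMap_mem' := fun c => (hk c).1 }
  have hS : Algebra.adjoin k (Set.range e ∪ Set.range u) ≤ S := by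
    refine Algebra.adjoin_le ?_
    rintro y (⟨i, rfl⟩ | ⟨i, rfl⟩)
    · exact (he i).1
    · exact (hu i).1
  have hq : ∀ q ∈ Algebra.adjoin k (Set.range e ∪ Set.range u), q ∈ R ∧ w q = ‖q‖ := by
    intro q hq
    have hqR : q ∈ R := hS hq
    refine ⟨hqR, le_antisymm ?_ (hle q hqR)⟩
    obtain ⟨Z, P, hZ⟩ := EUc.exists_rep hq
    have h1 : w (∑ z ∈ Z, MvPolynomial.aeval u (P z) * ∏ i, e i ^ z i) ≤
        ‖∑ z ∈ Z, MvPolynomial.aeval u (P z) * ∏ i, e i ^ z i‖ := by
      refine EUc.sum_le' hw _ _ (norm_nonneg _) ?_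
      intro z hz
      rw [map_mul, hez]
      exact le_trans (mul_le_mul_of_nonneg_right (hPu _) (norm_nonneg _)) (h.sum_le Z P hz)
    rw [hZ]
    exact h1
  obtain ⟨a, ha, b, hb, hab⟩ := IntermediateField.mem_adjoin_iff_div.1 hx
  obtain ⟨haR, haw⟩ := hq a ha
  obtain ⟨hbR, hbw⟩ := hq b hb
  rw [hab]
  refine ⟨?_, ?_⟩
  · rw [div_eq_mul_inv]
    exact R.mul_mem haR (hinv b hbR hbw)
  · rw [map_div₀, norm_div, haw, hbw]

/-- products of nearby elements of the unit ball -/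
private theorem EUc.prod_near {ι : Type*} (s : Finset ι) (f g : ι → L)
    (hf : ∀ i ∈ s, ‖f i‖ ≤ 1) (hg : ∀ i ∈ s, ‖g i‖ ≤ 1) (hfg : ∀ i ∈ s, ‖f i - g i‖ < 1) :
    ‖∏ i ∈ s, f i‖ ≤ 1 ∧ ‖∏ i ∈ s, g i‖ ≤ 1 ∧ ‖∏ i ∈ s, f i - ∏ i ∈ s, g i‖ < 1 := by
  classical
  induction s using Finset.induction_on with
  | empty => simp
  | insert a s ha ih =>
    obtain ⟨h1, h2, h3⟩ := ih (fun i hi => hf i (Finset.mem_insert_of_mem hi))
      (fun i hi => hg i (Finset.mem_insert_of_mem hi))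
      (fun i hi => hfg i (Finset.mem_insert_of_mem hi))
    have ha1 := hf a (Finset.mem_insert_self a s)
    have ha2 := hg a (Finset.mem_insert_self a s)
    have ha3 := hfg a (Finset.mem_insert_self a s)
    rw [Finset.prod_insert ha, Finset.prod_insert ha]
    refine ⟨?_, ?_, ?_⟩
    · rw [norm_mul]
      exact mul_le_one₀ ha1 (norm_nonneg _) h1
    · rw [norm_mul]
      exact mul_le_one₀ ha2 (norm_nonneg _) h2
    · have heq : f a * ∏ i ∈ s, f i - g a * ∏ i ∈ s, g i =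
          (f a - g a) * ∏ i ∈ s, f i + g a * (∏ i ∈ s, f i - ∏ i ∈ s, g i) := by ring
      rw [heq]
      refine lt_of_le_of_lt (IsUltrametricDist.norm_add_le_max _ _) (max_lt ?_ ?_)
      · rw [norm_mul]
        exact lt_of_le_of_lt (mul_le_of_le_one_right (norm_nonneg _) h1) ha3
      · rw [norm_mul]
        exact lt_of_le_of_lt (mul_le_of_le_one_left (norm_nonneg _) ha2) h3

/-- powers of nearby elements of the unit ball -/
private theorem EUc.pow_near {a b : L} (ha : ‖a‖ ≤ 1) (hb : ‖b‖ ≤ 1) (hab : ‖a - b‖ < 1) (n : ℕ) :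
    ‖a ^ n‖ ≤ 1 ∧ ‖b ^ n‖ ≤ 1 ∧ ‖a ^ n - b ^ n‖ < 1 := by
  have h := EUc.prod_near (Finset.range n) (fun _ => a) (fun _ => b) (fun _ _ => ha)
    (fun _ _ => hb) (fun _ _ => hab)
  simpa using h

/-- isosceles triangles -/
private theorem EUc.norm_eq {a b : L} (h : ‖a - b‖ < ‖b‖) : ‖a‖ = ‖b‖ := by
  have h1 : a = (a - b) + b := by ring
  have h2 : ‖(a - b) + b‖ = max ‖a - b‖ ‖b‖ :=
    IsUltrametricDist.norm_add_eq_max_of_norm_ne_norm (ne_of_lt h)
  rw [max_eq_right h.le, ← h1] at h2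
  exact h2

/-- Small perturbations of an Abhyankar basis are Abhyankar bases.  Proof.  `‖e' i‖ = ‖e i‖`, so `ne`, `ind`
(the norm of `∏ e' i ^ z i` is that of `∏ e i ^ z i`). `gauss`: if `M` is the maximal norm of the
coefficients of `P` (`P ≠ 0`) then `‖P(u') - P(u)‖ < M = ‖P(u)‖` (each monomial changes by an element
of norm `< ‖coefficient‖`, or is unchanged), so `‖P(u')‖ = M`. -/
theorem EU.perturb (h : EU k e u) {e' : Fin r → L} {u' : Fin m → L}
    (he : ∀ i, ‖e' i - e i‖ < ‖e i‖) (hu : ∀ i, ‖u' i - u i‖ < 1) : EU k e' u' := by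
  classical
  have hen : ∀ i, ‖e' i‖ = ‖e i‖ := fun i => EUc.norm_eq (he i)
  have hun : ∀ i, ‖u' i‖ ≤ 1 := by
    intro i
    have h1 : u' i = (u' i - u i) + u i := by ring
    rw [h1]
    exact le_trans (IsUltrametricDist.norm_add_le_max _ _) (max_le (hu i).le (h.norm_u i))
  refine ⟨?_, ?_, hun, ?_⟩
  · intro i h0
    have h1 := hen i
    rw [h0, norm_zero] at h1
    exact h.ne i (norm_eq_zero.1 h1.symm)
  · intro z c hc
    refine h.ind z c ?_
    rw [hc, norm_prod, norm_prod]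
    refine Finset.prod_congr rfl ?_
    intro i _
    rw [norm_zpow, norm_zpow, hen]
  · intro P s
    rcases eq_or_ne P 0 with hP | hP
    · rw [hP]; simp
    have hne : P.support.Nonempty := MvPolynomial.support_nonempty.2 hP
    obtain ⟨s₀, hs₀, hmax⟩ := Finset.exists_max_image P.support (fun s => ‖P.coeff s‖) hne
    have hMpos : 0 < ‖P.coeff s₀‖ := norm_pos_iff.2 (MvPolynomial.mem_support_iff.1 hs₀)
    have hM : ‖P.coeff s₀‖ ≤ ‖MvPolynomial.aeval u P‖ := h.gauss P s₀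
    have hdiff : ‖MvPolynomial.aeval u' P - MvPolynomial.aeval u P‖ < ‖P.coeff s₀‖ := by
      rw [MvPolynomial.aeval_def, MvPolynomial.eval₂_eq, MvPolynomial.aeval_def,
        MvPolynomial.eval₂_eq, ← Finset.sum_sub_distrib]
      obtain ⟨d, hd, hd'⟩ := IsUltrametricDist.exists_norm_finsetSum_le_of_nonempty hne
        (fun d => algebraMap k L (P.coeff d) * ∏ i ∈ d.support, u' i ^ d i -
          algebraMap k L (P.coeff d) * ∏ i ∈ d.support, u i ^ d i)
      refine lt_of_le_of_lt hd' ?_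
      have h3 : ‖∏ i ∈ d.support, u' i ^ d i - ∏ i ∈ d.support, u i ^ d i‖ < 1 := by
        refine (EUc.prod_near d.support (fun i => u' i ^ d i) (fun i => u i ^ d i) ?_ ?_ ?_).2.2
        · intro i _
          exact (EUc.pow_near (hun i) (h.norm_u i) (hu i) (d i)).1
        · intro i _
          exact (EUc.pow_near (hun i) (h.norm_u i) (hu i) (d i)).2.1
        · intro i _
          exact (EUc.pow_near (hun i) (h.norm_u i) (hu i) (d i)).2.2
      rw [← mul_sub, norm_mul, norm_algebraMap']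
      have hdpos : 0 < ‖P.coeff d‖ := norm_pos_iff.2 (MvPolynomial.mem_support_iff.1 hd)
      calc ‖P.coeff d‖ * ‖∏ i ∈ d.support, u' i ^ d i - ∏ i ∈ d.support, u i ^ d i‖
          < ‖P.coeff d‖ * 1 := mul_lt_mul_of_pos_left h3 hdpos
        _ = ‖P.coeff d‖ := mul_one _
        _ ≤ ‖P.coeff s₀‖ := hmax d hd
    have heq : ‖MvPolynomial.aeval u' P‖ = ‖MvPolynomial.aeval u P‖ :=
      EUc.norm_eq (lt_of_lt_of_le hdiff hM)
    rw [heq]
    exact h.gauss P s

end DA
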