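import Pool.Agent.Lib.DA.K1
import Pool.Agent.Lib.DA.EUc

/-!
# Module K6b: small perturbations of core data
-/

namespace DA

open Polynomial MP1a953e

private theorem k6b_norm_eq {L : Type*} [NormedField L] [IsUltrametricDist L] {a b : L}
    (h : ‖a - b‖ < ‖b‖) : ‖a‖ = ‖b‖ := by
  have h1 : a = (a - b) + b := by ring
  have h2 : ‖(a - b) + b‖ = max ‖a - b‖ ‖b‖ :=
    IsUltrametricDist.norm_add_eq_max_of_norm_ne_norm (ne_of_lt h)
  rw [max_eq_right h.le, ← h1] at h2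
  exact h2

/-- elements of `A1` are approximated by elements of the perturbed `A1` -/
private theorem k6b_close {k L : Type*} [NormedField k] [IsUltrametricDist k] [NormedField L]
    [IsUltrametricDist L] [NormedAlgebra k L] {M : IntermediateField k L} {R : Subring L}
    {w : AbsoluteValue L ℝ} (hR : RWd M R w) {m : ℕ} {u u' : Fin m → L} {α α' : L}
    (hu : ∀ i, u i ∈ R ∧ w (u i) ≤ 1) (hu' : ∀ i, u' i ∈ R ∧ w (u' i) ≤ 1)
    (huu : ∀ i, w (u i - u' i) < 1) (hα : α ∈ R ∧ w α ≤ 1) (hα' : α' ∈ R ∧ w α' ≤ 1)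
    (hαα : w (α - α') < 1) {a : L} (ha : a ∈ A1 k u α) :
    ∃ a' ∈ A1 k u' α', a ∈ R ∧ w a ≤ 1 ∧ a' ∈ R ∧ w a' ≤ 1 ∧ w (a - a') < 1 := by
  have hsub : ∀ i, u' i ∈ A1 k u' α' := fun i =>
    Algebra.subset_adjoin (Or.inl ⟨i, rfl⟩)
  have hsub2 : α' ∈ A1 k u' α' := Algebra.subset_adjoin (Or.inr rfl)
  refine Algebra.adjoin_induction (p := fun a _ => ∃ a' ∈ A1 k u' α', a ∈ R ∧ w a ≤ 1 ∧
    a' ∈ R ∧ w a' ≤ 1 ∧ w (a - a') < 1) ?_ ?_ ?_ ?_ ha
  · rintro x (⟨i, rfl⟩ | hx)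
    · exact ⟨u' i, hsub i, (hu i).1, (hu i).2, (hu' i).1, (hu' i).2, huu i⟩
    · rw [Set.mem_singleton_iff] at hx
      rw [hx]
      exact ⟨α', hsub2, hα.1, hα.2, hα'.1, hα'.2, hαα⟩
  · intro c
    have h1 : algebraMap (O k) L c = algebraMap k L (c : k) := rfl
    have h2 : algebraMap (O k) L c ∈ M := by
      rw [h1]
      exact M.algebraMap_mem _
    have h3 : w (algebraMap (O k) L c) ≤ 1 := by
      rw [hR.eq_M h2, h1, norm_algebraMap']
      exact c.2
    refine ⟨algebraMap (O k) L c, (A1 k u' α').algebraMap_mem c, hR.M_le _ h2, h3,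
      hR.M_le _ h2, h3, ?_⟩
    rw [sub_self, map_zero]
    exact one_pos
  · rintro x y _ _ ⟨x', hx', hx1, hx2, hx3, hx4, hx5⟩ ⟨y', hy', hy1, hy2, hy3, hy4, hy5⟩
    refine ⟨x' + y', (A1 k u' α').add_mem hx' hy', R.add_mem hx1 hy1,
      (hR.nonarch _ _).trans (max_le hx2 hy2), R.add_mem hx3 hy3,
      (hR.nonarch _ _).trans (max_le hx4 hy4), ?_⟩
    have h1 : x + y - (x' + y') = (x - x') + (y - y') := by ring
    rw [h1]
    exact (hR.nonarch _ _).trans_lt (max_lt hx5 hy5)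
  · rintro x y _ _ ⟨x', hx', hx1, hx2, hx3, hx4, hx5⟩ ⟨y', hy', hy1, hy2, hy3, hy4, hy5⟩
    refine ⟨x' * y', (A1 k u' α').mul_mem hx' hy', R.mul_mem hx1 hy1, ?_, R.mul_mem hx3 hy3,
      ?_, ?_⟩
    · rw [map_mul]
      exact mul_le_one₀ hx2 (w.nonneg _) hy2
    · rw [map_mul]
      exact mul_le_one₀ hx4 (w.nonneg _) hy4
    · have h1 : x * y - x' * y' = (x - x') * y + x' * (y - y') := by ring
      rw [h1]
      refine (hR.nonarch _ _).trans_lt (max_lt ?_ ?_)
      · rw [map_mul]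
        exact lt_of_le_of_lt (mul_le_of_le_one_right (w.nonneg _) hy2) hx5
      · rw [map_mul]
        exact lt_of_le_of_lt (mul_le_of_le_one_left (w.nonneg _) hx4) hy5

/-- K6b.  Proof.  Let `δ` be so small that `δ * w (ζ) < 1` for all the `ζ` and `δ * w (ζe i) < ‖e i‖`. All new
elements are in `R` (constants are in `R` by `M_le`, with `w c = ‖c‖`). `w (e' i - e i) < ‖e i‖ = w (e i)`,
so `w (e' i) = ‖e' i‖ = ‖e i‖` (`‖·‖ ≤ w` on `R`). `eu`: `EU.perturb`. `h = G(u, α)` for a polynomial `G` over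
`O k` (`h ∈ A1 k u α`, e.g. in the form `Algebra.adjoin_range_eq_range_aeval`), `h' = G(u', α')`,
`w (h' - h) < 1`, so `unif`: `w (q - h' y) < 1` if `w (q - h y) < 1`, `w y ≤ 1`. `val`: the norms of the
monomials are the same. `res`: replace `a, b` by the values of the same polynomials. -/
theorem Cor.perturb {k L : Type*} [NormedField k] [IsUltrametricDist k] [NormedField L]
    [IsUltrametricDist L] [NormedAlgebra k L] {M : IntermediateField k L} {R : Subring L}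
    {w : AbsoluteValue L ℝ} (hR : RWd M R w) {r m : ℕ} {e : Fin r → L} {u : Fin m → L}
    {α h : L} (hC : Cor k R w e u α h) (ζe : Fin r → L) (ζu : Fin m → L) (ζα : L)
    (h1 : ∀ i, ζe i ∈ R) (h2 : ∀ i, ζu i ∈ R) (h3 : ζα ∈ R) :
    ∃ δ : ℝ, 0 < δ ∧ ∀ c : k, ‖c‖ < δ → ∃ h' : L,
      Cor k R w (fun i => e i + algebraMap k L c * ζe i)
        (fun i => u i + algebraMap k L c * ζu i) (α + algebraMap k L c * ζα) h' := by
  classical
  -- choice of `δ`
  set B : ℝ := 1 + ∑ i, w (ζu i) + w ζα + ∑ i, w (ζe i) / ‖e i‖ with hB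
  have hu0 : 0 ≤ ∑ i, w (ζu i) := Finset.sum_nonneg fun i _ => w.nonneg _
  have he0 : 0 ≤ ∑ i, w (ζe i) / ‖e i‖ :=
    Finset.sum_nonneg fun i _ => div_nonneg (w.nonneg _) (norm_nonneg _)
  have hα0 : 0 ≤ w ζα := w.nonneg _
  have hBpos : 0 < B := by rw [hB]; linarith
  have hBu : ∀ i, w (ζu i) ≤ B := by
    intro i
    have := Finset.single_le_sum (f := fun i => w (ζu i)) (fun i _ => w.nonneg _)
      (Finset.mem_univ i)
    rw [hB]
    linarith
  have hBe : ∀ i, w (ζe i) / ‖e i‖ ≤ B := by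
    intro i
    have := Finset.single_le_sum (f := fun i => w (ζe i) / ‖e i‖)
      (fun i _ => div_nonneg (w.nonneg _) (norm_nonneg _)) (Finset.mem_univ i)
    rw [hB]
    linarith
  have hBα : w ζα ≤ B := by rw [hB]; linarith
  refine ⟨1 / B, by positivity, fun c hc => ?_⟩
  have hcB : ‖c‖ * B < 1 := by rwa [lt_div_iff₀ hBpos] at hc
  have hlt : ∀ x : ℝ, x ≤ B → ‖c‖ * x < 1 := fun x hx =>
    lt_of_le_of_lt (mul_le_mul_of_nonneg_left hx (norm_nonneg _)) hcB
  have hcM : algebraMap k L c ∈ M := M.algebraMap_mem c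
  have hcR : algebraMap k L c ∈ R := hR.M_le _ hcM
  have hwc : w (algebraMap k L c) = ‖c‖ := by rw [hR.eq_M hcM, norm_algebraMap']
  -- the differences
  have hdu : ∀ i, w (algebraMap k L c * ζu i) < 1 := by
    intro i
    rw [map_mul, hwc]
    exact hlt _ (hBu i)
  have hdα : w (algebraMap k L c * ζα) < 1 := by
    rw [map_mul, hwc]
    exact hlt _ hBα
  have hde : ∀ i, w (algebraMap k L c * ζe i) < ‖e i‖ := by
    intro i
    have h4 := hlt _ (hBe i)
    have h5 : 0 < ‖e i‖ := norm_pos_iff.2 (hC.eu.ne i)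
    rw [← mul_div_assoc, div_lt_one h5] at h4
    rw [map_mul, hwc]
    exact h4
  have hmu : ∀ i, u i + algebraMap k L c * ζu i ∈ R := fun i =>
    R.add_mem (hC.u_mem i) (R.mul_mem hcR (h2 i))
  have hmα : α + algebraMap k L c * ζα ∈ R := R.add_mem hC.α_mem (R.mul_mem hcR h3)
  have hme : ∀ i, e i + algebraMap k L c * ζe i ∈ R := fun i =>
    R.add_mem (hC.e_mem i) (R.mul_mem hcR (h1 i))
  have hwu : ∀ i, w (u i + algebraMap k L c * ζu i) ≤ 1 := fun i =>
    (hR.nonarch _ _).trans (max_le (hC.u_w i) (hdu i).le)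
  have hwα : w (α + algebraMap k L c * ζα) ≤ 1 :=
    (hR.nonarch _ _).trans (max_le hC.α_w hdα.le)
  have hne' : ∀ i, ‖e i + algebraMap k L c * ζe i‖ = ‖e i‖ := by
    intro i
    refine k6b_norm_eq ?_
    rw [add_sub_cancel_left]
    exact (hR.le _ (R.mul_mem hcR (h1 i))).trans_lt (hde i)
  have hclose : ∀ a ∈ A1 k u α, ∃ a' ∈ A1 k (fun i => u i + algebraMap k L c * ζu i)
      (α + algebraMap k L c * ζα), a ∈ R ∧ w a ≤ 1 ∧ a' ∈ R ∧ w a' ≤ 1 ∧ w (a - a') < 1 := by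
    intro a ha
    refine k6b_close hR (fun i => ⟨hC.u_mem i, hC.u_w i⟩) (fun i => ⟨hmu i, hwu i⟩) ?_
      ⟨hC.α_mem, hC.α_w⟩ ⟨hmα, hwα⟩ ?_ ha
    · intro i
      have h4 : u i - (u i + algebraMap k L c * ζu i) = -(algebraMap k L c * ζu i) := by ring
      rw [h4, w.map_neg]
      exact hdu i
    · have h4 : α - (α + algebraMap k L c * ζα) = -(algebraMap k L c * ζα) := by ring
      rw [h4, w.map_neg]
      exact hdα
  obtain ⟨h', hh', hhR, hhw, hh'R, hh'w, hhh⟩ := hclose h hC.h_mem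
  refine ⟨h', ?_⟩
  constructor
  · exact hme
  · intro i
    refine le_antisymm ?_ (hR.le _ (hme i))
    rw [hne' i]
    refine (hR.nonarch _ _).trans (max_le ?_ (hde i).le)
    rw [hC.e_w]
  · refine hC.eu.perturb ?_ ?_
    · intro i
      rw [add_sub_cancel_left]
      exact (hR.le _ (R.mul_mem hcR (h1 i))).trans_lt (hde i)
    · intro i
      rw [add_sub_cancel_left]
      exact (hR.le _ (R.mul_mem hcR (h2 i))).trans_lt (hdu i)
  · exact hmu
  · exact hwu
  · exact hmα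
  · exact hwα
  · exact hh'
  · have h4 : h' = h + -(h - h') := by ring
    rw [h4]
    refine (IsUltrametricDist.norm_add_le_max _ _).trans_lt (max_lt hC.h_lt ?_)
    rw [norm_neg]
    exact (hR.le _ (R.sub_mem hhR hh'R)).trans_lt hhh
  · intro q hq hqw hq0
    obtain ⟨z, d, hd, hqd⟩ := hC.val q hq hqw hq0
    refine ⟨z, d, hd, ?_⟩
    rw [hqd, mon, mon, norm_mul, norm_mul, norm_prod, norm_prod]
    congr 1
    refine Finset.prod_congr rfl ?_
    intro i _
    rw [norm_zpow, norm_zpow, hne']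
  · intro q hq hqw
    obtain ⟨a, ha, b, hb, hb1, hab⟩ := hC.res q hq hqw
    obtain ⟨a', ha', haR, haw, ha'R, ha'w, haa⟩ := hclose a ha
    obtain ⟨b', hb', hbR, hbw, hb'R, hb'w, hbb⟩ := hclose b hb
    have hbb' : ‖b' - b‖ < 1 := by
      rw [norm_sub_rev]
      exact (hR.le _ (R.sub_mem hbR hb'R)).trans_lt hbb
    have haa' : ‖a - a'‖ < 1 := (hR.le _ (R.sub_mem haR ha'R)).trans_lt haa
    have ha'1 : ‖a'‖ ≤ 1 := (hR.le _ ha'R).trans ha'w
    have hb'1 : ‖b'‖ = 1 := by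
      rw [← hb1]
      exact k6b_norm_eq (by rw [hb1]; exact hbb')
    refine ⟨a', ha', b', hb', hb'1, ?_⟩
    have hb0 : b ≠ 0 := by
      intro h0
      rw [h0, norm_zero] at hb1
      exact zero_ne_one hb1
    have hb'0 : b' ≠ 0 := by
      intro h0
      rw [h0, norm_zero] at hb'1
      exact zero_ne_one hb'1
    have h4 : q - a' / b' = (q - a / b) + ((a - a') * b' + a' * (b' - b)) / (b * b') := by
      field_simp
      ring
    rw [h4]
    refine (IsUltrametricDist.norm_add_le_max _ _).trans_lt (max_lt hab ?_)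
    rw [norm_div, norm_mul, hb1, hb'1, mul_one, div_one]
    refine (IsUltrametricDist.norm_add_le_max _ _).trans_lt (max_lt ?_ ?_)
    · rw [norm_mul, hb'1, mul_one]
      exact haa'
    · rw [norm_mul]
      exact lt_of_le_of_lt (mul_le_of_le_one_left (norm_nonneg _) ha'1) hbb'
  · intro q hq hqw hq1
    obtain ⟨y, hy, hyw, hqy⟩ := hC.unif q hq hqw hq1
    refine ⟨y, hy, hyw, ?_⟩
    have h4 : q - h' * y = (q - h * y) + (h - h') * y := by ring
    rw [h4]
    refine (hR.nonarch _ _).trans_lt (max_lt hqy ?_)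
    rw [map_mul]
    exact lt_of_le_of_lt (mul_le_of_le_one_right (w.nonneg _) hyw) hhh

end DA
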