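import Pool.Agent.Lib.DA.K3
import Pool.Agent.Lib.DA.K5
import Pool.Agent.Lib.DA.K6a
import Pool.Agent.Lib.DA.K6b

/-!
# Module K7: existence of core data
-/

namespace DA

open Polynomial MP1a953e

section
variable {k L : Type*} [NontriviallyNormedField k] [IsUltrametricDist k] [IsAlgClosed k]
  [NormedField L] [IsUltrametricDist L] [NormedAlgebra k L] {r m : ℕ}

open scoped IntermediateField.algebraAdjoinAdjoin in
omit [IsUltrametricDist k] [IsAlgClosed k] [IsUltrametricDist L] in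
private theorem k7_alg (s : Set L)
    (h : Algebra.IsAlgebraic (IntermediateField.adjoin k s) L) :
    Algebra.IsAlgebraic (Algebra.adjoin k s) L :=
  (IsFractionRing.comap_isAlgebraic_iff (A := Algebra.adjoin k s)
    (K := IntermediateField.adjoin k s) (C := L)).2 h

omit [IsUltrametricDist k] [IsAlgClosed k] in
private theorem k7_small (δ : ℝ) (hδ : 0 < δ) (Z : Finset k) : ∃ c : k, ‖c‖ < δ ∧ c ∉ Z := by
  have h1 : (Metric.ball (0 : k) δ).Infinite :=
    infinite_of_mem_nhds (0 : k) (Metric.ball_mem_nhds 0 hδ)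
  obtain ⟨c, hc, hcZ⟩ := h1.exists_notMem_finset Z
  exact ⟨c, by simpa using hc, hcZ⟩

omit [IsUltrametricDist k] [IsAlgClosed k] [IsUltrametricDist L] in
private theorem k7_range (x ζ : Fin (r + m + 1) → L) (c : k) :
    (Set.range fun i => x i + algebraMap k L c * ζ i) =
      Set.range (fun i : Fin r => x ((i.castAdd m).castAdd 1) +
        algebraMap k L c * ζ ((i.castAdd m).castAdd 1)) ∪
      Set.range (fun i : Fin m => x ((i.natAdd r).castAdd 1) +
        algebraMap k L c * ζ ((i.natAdd r).castAdd 1)) ∪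
      {x (Fin.last _) + algebraMap k L c * ζ (Fin.last _)} := by
  ext y
  constructor
  · rintro ⟨i, rfl⟩
    refine Fin.lastCases ?_ (fun i => ?_) i
    · exact Or.inr rfl
    · refine Fin.addCases (fun i => ?_) (fun i => ?_) i
      · exact Or.inl (Or.inl ⟨i, rfl⟩)
      · exact Or.inl (Or.inr ⟨i, rfl⟩)
  · rintro ((⟨i, rfl⟩ | ⟨i, rfl⟩) | rfl)
    · exact ⟨_, rfl⟩
    · exact ⟨_, rfl⟩
    · exact ⟨_, rfl⟩

/-- If `L` is algebraic over `k(e, u, α)` and `trdeg (L / k) = r + m + 1` then `α` is transcendental over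
`k(e, u)` (`EU.algebraicIndependent`; or: otherwise `L` would be algebraic over `k(e, u)`, which is
generated by `r + m` elements). -/
theorem transcendental_of_sep {e : Fin r → L} {u : Fin m → L} {α : L}
    (htr : Algebra.trdeg k L = r + m + 1)
    (hsep : Algebra.IsSeparable (keuT k e u α) L) : Transcendental (keu k e u) α := by
  intro hα
  have h1 : keuT k e u α =
      (IntermediateField.adjoin (keu k e u) {α}).restrictScalars k := by
    unfold keuT keu
    rw [IntermediateField.adjoin_adjoin_left]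
  have h2 : Algebra.IsSeparable (IntermediateField.adjoin (keu k e u) {α}) L := by
    rw [h1] at hsep
    exact hsep
  have h3 : Algebra.IsAlgebraic (IntermediateField.adjoin (keu k e u) {α}) L := inferInstance
  have h4 : Algebra.IsAlgebraic (keu k e u) (IntermediateField.adjoin (keu k e u) {α}) :=
    IntermediateField.isAlgebraic_adjoin_simple hα.isIntegral
  have h5 : Algebra.IsAlgebraic (keu k e u) L :=
    Algebra.IsAlgebraic.trans (keu k e u) (IntermediateField.adjoin (keu k e u) {α}) L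
  have h6 : Algebra.IsAlgebraic (Algebra.adjoin k (Set.range e ∪ Set.range u)) L := k7_alg _ h5
  have h7 : Algebra.trdeg k L ≤ Cardinal.mk ((Set.range e ∪ Set.range u : Set L)) :=
    Algebra.IsAlgebraic.trdeg_le_cardinalMk k (Set.range e ∪ Set.range u)
  have h8 : Cardinal.mk ((Set.range e ∪ Set.range u : Set L)) ≤ ((r + m : ℕ) : Cardinal) := by
    have h9 : Set.range e ∪ Set.range u = Set.range (Sum.elim e u) := (Set.Sum.elim_range e u).symm
    rw [h9]
    have h10 := Cardinal.mk_range_le_lift (f := Sum.elim e u)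
    simpa using h10
  have h11 := h7.trans h8
  rw [htr] at h11
  have h12 : ((r + m + 1 : ℕ) : Cardinal) ≤ ((r + m : ℕ) : Cardinal) := by
    push_cast at h11 ⊢
    exact h11
  have h13 := Nat.cast_le.1 h12
  omega

/-- Small perturbations of an Abhyankar basis.  Proof.  `exists_sep_dir` with `𝓡 = Set.univ`,
`n = r + m + 1`, `x = (e₀, u₀, 0)` (`Fin.append`), and `c ∉ Z` small; `EU.perturb`. The range of the perturbed
family is `range e ∪ range u ∪ {T}`. -/
theorem exists_sep_eu {e₀ : Fin r → L} {u₀ : Fin m → L} (h₀ : EU k e₀ u₀)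
    (hfg : (⊤ : IntermediateField k L).FG) (htr : Algebra.trdeg k L = r + m + 1) :
    ∃ (e : Fin r → L) (u : Fin m → L) (T : L), EU k e u ∧ (∀ i, ‖e i - e₀ i‖ < ‖e₀ i‖) ∧
      (∀ i, ‖u i - u₀ i‖ < 1) ∧ Algebra.IsSeparable (keuT k e u T) L := by
  classical
  have htr' : Algebra.trdeg k L = ((r + m + 1 : ℕ) : Cardinal) := by
    rw [htr]; push_cast; rfl
  obtain ⟨ζ, -, hζ⟩ := exists_sep_dir hfg htr' Set.univ
    (fun x => ⟨x, trivial, 1, trivial, one_ne_zero, by simp⟩)
  obtain ⟨Z, hZ⟩ := hζ (Fin.snoc (Fin.append e₀ u₀) 0)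
  -- a small `δ`
  obtain ⟨δ, hδ, hδe, hδu⟩ : ∃ δ : ℝ, 0 < δ ∧
      (∀ i : Fin r, ∀ c : k, ‖c‖ < δ →
        ‖algebraMap k L c * ζ ((i.castAdd m).castAdd 1)‖ < ‖e₀ i‖) ∧
      (∀ i : Fin m, ∀ c : k, ‖c‖ < δ →
        ‖algebraMap k L c * ζ ((i.natAdd r).castAdd 1)‖ < 1) := by
    have key : ∀ (ι : Type) [Fintype ι] (a : ι → L) (b : ι → ℝ), (∀ i, 0 < b i) →
        ∃ δ : ℝ, 0 < δ ∧ ∀ i, ∀ c : k, ‖c‖ < δ → ‖algebraMap k L c * a i‖ < b i := by
      intro ι _ a b hb
      have h1 : ∀ i, ∃ δ : ℝ, 0 < δ ∧ ∀ c : k, ‖c‖ < δ → ‖algebraMap k L c * a i‖ < b i := by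
        intro i
        refine ⟨b i / (‖a i‖ + 1), by have := norm_nonneg (a i); have := hb i; positivity, ?_⟩
        intro c hc
        rw [norm_mul, norm_algebraMap']
        have h2 : 0 < ‖a i‖ + 1 := by have := norm_nonneg (a i); linarith
        rw [lt_div_iff₀ h2] at hc
        have h3 := norm_nonneg c
        rcases h3.eq_or_lt with h4 | h4
        · rw [← h4, zero_mul]; exact hb i
        · nlinarith [norm_nonneg (a i)]
      choose d hd0 hd using h1
      by_cases hι : Nonempty ι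
      · refine ⟨Finset.univ.inf' Finset.univ_nonempty d, ?_, ?_⟩
        · rw [Finset.lt_inf'_iff]; intro i _; exact hd0 i
        · intro i c hc
          exact hd i c (lt_of_lt_of_le hc (Finset.inf'_le _ (Finset.mem_univ i)))
      · exact ⟨1, one_pos, fun i => (hι ⟨i⟩).elim⟩
    obtain ⟨δ1, h1, h1'⟩ := key (Fin r) (fun i => ζ ((i.castAdd m).castAdd 1)) (fun i => ‖e₀ i‖)
      (fun i => norm_pos_iff.2 (h₀.ne i))
    obtain ⟨δ2, h2, h2'⟩ := key (Fin m) (fun i => ζ ((i.natAdd r).castAdd 1)) (fun i => 1)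
      (fun i => one_pos)
    exact ⟨min δ1 δ2, lt_min h1 h2, fun i c hc => h1' i c (lt_of_lt_of_le hc (min_le_left _ _)),
      fun i c hc => h2' i c (lt_of_lt_of_le hc (min_le_right _ _))⟩
  obtain ⟨c, hc, hcZ⟩ := k7_small δ hδ Z
  have hsep := hZ c hcZ
  have hxe : ∀ i : Fin r, (Fin.snoc (Fin.append e₀ u₀) 0 : Fin (r + m + 1) → L)
      ((i.castAdd m).castAdd 1) = e₀ i := by
    intro i
    have h1 := Fin.snoc_castSucc (α := fun _ => L) (0 : L) (Fin.append e₀ u₀) (i.castAdd m)
    rw [Fin.append_left] at h1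
    exact h1
  have hxu : ∀ i : Fin m, (Fin.snoc (Fin.append e₀ u₀) 0 : Fin (r + m + 1) → L)
      ((i.natAdd r).castAdd 1) = u₀ i := by
    intro i
    have h1 := Fin.snoc_castSucc (α := fun _ => L) (0 : L) (Fin.append e₀ u₀) (i.natAdd r)
    rw [Fin.append_right] at h1
    exact h1
  have hS : (Set.range fun i => (Fin.snoc (Fin.append e₀ u₀) 0 : Fin (r + m + 1) → L) i +
      algebraMap k L c * ζ i) =
      Set.range (fun i : Fin r => e₀ i + algebraMap k L c * ζ ((i.castAdd m).castAdd 1)) ∪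
      Set.range (fun i : Fin m => u₀ i + algebraMap k L c * ζ ((i.natAdd r).castAdd 1)) ∪
      {(Fin.snoc (Fin.append e₀ u₀) 0 : Fin (r + m + 1) → L) (Fin.last _) +
        algebraMap k L c * ζ (Fin.last _)} := by
    rw [k7_range]
    simp only [hxe, hxu]
  rw [hS] at hsep
  have he' : ∀ i, ‖(e₀ i + algebraMap k L c * ζ ((i.castAdd m).castAdd 1)) - e₀ i‖ < ‖e₀ i‖ := by
    intro i
    rw [add_sub_cancel_left]
    exact hδe i c hc
  have hu' : ∀ i, ‖(u₀ i + algebraMap k L c * ζ ((i.natAdd r).castAdd 1)) - u₀ i‖ < 1 := by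
    intro i
    rw [add_sub_cancel_left]
    exact hδu i c hc
  exact ⟨_, _, _, h₀.perturb he' hu', he', hu', hsep⟩

/-- K7.  Proof.  `DIVd.rwd`, `exists_vb`, `exists_precor`, `exists_cor_of_precor` give core data. Let `ζ` be as in
`exists_sep_dir` for `𝓡 = R` (`DIVd.frac`), `n = r + m + 1`, and `δ` as in `Cor.perturb` for the corresponding
parts of `ζ`; choose `c ∈ k` with `‖c‖ < δ`, `c ∉ Z` (there are infinitely many small `c`), where `Z` belongs to
`x = (e, u, α)`. -/
theorem exists_cor {e₀ : Fin r → L} {u₀ : Fin m → L} (h₀ : EU k e₀ u₀) {R : Subring L}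
    {w : AbsoluteValue L ℝ} {V : Submodule (keu k e₀ u₀) L} {f : L}
    (h : DIVd (keu k e₀ u₀) R w V f) (hfg : (⊤ : IntermediateField k L).FG)
    (htr : Algebra.trdeg k L = r + m + 1) :
    ∃ (e : Fin r → L) (u : Fin m → L) (α h' : L), Cor k R w e u α h' ∧
      Algebra.IsSeparable (keuT k e u α) L := by
  have htr' : Algebra.trdeg k L = ((r + m + 1 : ℕ) : Cardinal) := by
    rw [htr]; push_cast; rfl
  have hR := h.rwd
  obtain ⟨e, he⟩ := exists_vb h₀ hR
  obtain ⟨u, α, H, hC⟩ := exists_precor h₀ hR he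
  obtain ⟨α', h', hC'⟩ := exists_cor_of_precor h hC
  obtain ⟨ζ, hζR, hζ⟩ := exists_sep_dir hfg htr' (R : Set L) h.frac
  obtain ⟨Z, hZ⟩ := hζ (Fin.snoc (Fin.append e u) α')
  obtain ⟨δ, hδ, hpert⟩ := hC'.perturb hR (fun i => ζ ((i.castAdd m).castAdd 1))
    (fun i => ζ ((i.natAdd r).castAdd 1)) (ζ (Fin.last _)) (fun i => hζR _) (fun i => hζR _)
    (hζR _)
  obtain ⟨c, hc, hcZ⟩ := k7_small δ hδ Z
  obtain ⟨h'', hh''⟩ := hpert c hc
  have hsep := hZ c hcZ
  have hxe : ∀ i : Fin r, (Fin.snoc (Fin.append e u) α' : Fin (r + m + 1) → L)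
      ((i.castAdd m).castAdd 1) = e i := by
    intro i
    have h1 := Fin.snoc_castSucc (α := fun _ => L) α' (Fin.append e u) (i.castAdd m)
    rw [Fin.append_left] at h1
    exact h1
  have hxu : ∀ i : Fin m, (Fin.snoc (Fin.append e u) α' : Fin (r + m + 1) → L)
      ((i.natAdd r).castAdd 1) = u i := by
    intro i
    have h1 := Fin.snoc_castSucc (α := fun _ => L) α' (Fin.append e u) (i.natAdd r)
    rw [Fin.append_right] at h1
    exact h1
  have hS : (Set.range fun i => (Fin.snoc (Fin.append e u) α' : Fin (r + m + 1) → L) i +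
      algebraMap k L c * ζ i) =
      Set.range (fun i : Fin r => e i + algebraMap k L c * ζ ((i.castAdd m).castAdd 1)) ∪
      Set.range (fun i : Fin m => u i + algebraMap k L c * ζ ((i.natAdd r).castAdd 1)) ∪
      {α' + algebraMap k L c * ζ (Fin.last _)} := by
    rw [k7_range]
    simp only [hxe, hxu, Fin.snoc_last]
  rw [hS] at hsep
  exact ⟨_, _, _, h'', hh'', hsep⟩

end

end DA
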