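import Pool.Agent.Lib.DA.HFa
import Pool.Agent.Lib.DA.HFc
import Pool.Agent.Lib.DA.K7
import Pool.Agent.Lib.MP_1a953e_ag.Tr1
import Pool.Agent.Lib.MP_1a953e_ag.Em8

/-!
# Module HFd: finite index
-/

namespace DA

open Polynomial MP1a953e IsLocalRing

universe v

private theorem hfd_append_range {L : Type*} {r m : ℕ} (e : Fin r → L) (u : Fin m → L) :
    Set.range (Fin.append e u) = Set.range e ∪ Set.range u := by
  ext x
  constructor
  · rintro ⟨i, rfl⟩
    refine Fin.addCases (fun i => ?_) (fun i => ?_) i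
    · left
      exact ⟨i, (Fin.append_left _ _ _).symm⟩
    · right
      exact ⟨i, (Fin.append_right _ _ _).symm⟩
  · rintro (⟨i, rfl⟩ | ⟨i, rfl⟩)
    · exact ⟨Fin.castAdd m i, Fin.append_left _ _ _⟩
    · exact ⟨Fin.natAdd r i, Fin.append_right _ _ _⟩

private theorem hfd_alpha {k L : Type v} [NontriviallyNormedField k] [IsAlgClosed k]
    [NormedField L] [IsUltrametricDist L] [NormedAlgebra k L] {r m : ℕ} (e : Fin r → L)
    (u : Fin m → L) (htr : Algebra.trdeg k L = r + m + 1) (T : L)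
    (hT : Algebra.IsSeparable (keuT k e u T) L) (α₀ : L) {δ : ℝ} (hδ : 0 < δ) :
    ∃ α : L, ‖α - α₀‖ < δ ∧ Algebra.IsSeparable (keuT k e u α) L := by
  have hr := hfd_append_range e u
  have h1 : Algebra.IsSeparable
      (IntermediateField.adjoin k (Set.range (Fin.append e u) ∪ {T})) L := by
    rw [hr]
    exact hT
  have h2 : Algebra.trdeg k L = (r + m : ℕ) + 1 := by
    rw [htr]
    push_cast
    rfl
  obtain ⟨α, hα, hs⟩ := exists_alpha_sep (Fin.append e u) h2 T h1 α₀ hδ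
  refine ⟨α, hα, ?_⟩
  rw [hr] at hs
  exact hs

private theorem hfd_small {k : Type*} [NontriviallyNormedField k] {B : ℝ} (hB : 0 < B) :
    ∃ c : k, c ≠ 0 ∧ ‖c‖ < B := by
  obtain ⟨c, h1, h2⟩ := NormedField.exists_norm_lt k hB
  exact ⟨c, norm_pos_iff.1 h1, h2⟩

private theorem hfd_res {L : Type*} [NormedField L] [IsUltrametricDist L] {x y : O L}
    (h : ‖(x : L) - y‖ < 1) : residue (O L) x = residue (O L) y := by
  rw [← sub_eq_zero, ← map_sub, residue_eq_zero_iff, mem_maximalIdeal, mem_nonunits_iff,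
    isUnit_O_iff]
  exact ne_of_lt h

/-- HFd (finite index).  Proof.  `exists_vb`, `exists_res_gens` for `R = ⊤`, `w = nabs L` give `e₁` and `u₁, α₁`;
`EU k e₁ u₁` by `gauss_of_residues`. `exists_sep_eu` gives `e, u, T` near `e₁, u₁`, `EU k e u`, `L` separable
over `keuT k e u T`; the norms of the `e i` are those of the `e₁ i`, the residues of the `u i` those of the
`u₁ i` (so `hval` for `e`, and the hypotheses of HFa for `u, α₁`). `exists_emb2`: `Ω, ι, K`.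
`exists_rd_of_gens`: `a, d, f`; `rd_lift`. `exists_Y`: `F`. If `K ≤ F` put `c = 0`, and choose `α₀ ∈ L` with
`‖ι α₀ - a‖ < 1`. Otherwise let `Y` be as in `exists_Y`, choose `c ∈ k`, `c ≠ 0`, `‖ι c * Y‖ < 1`, and `α₀ ∈ L` with
`‖ι α₀ - (a + ι c * Y)‖ < ‖c‖ * infDist Y F` and `< 1`. `exists_alpha_sep` (module Em8, family
`Fin.append e u`, `T`, `α₀`, small `δ`) gives `α` with the same properties and `L` separable over
`keuT k e u α`. `RD.dense_of_close` (module Tr7) with `k' = kU (kO k ι) (ι ∘ e)`: `adj (kM ι e u) (ι α)` is dense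
in `K`; it is the image of `keuT k e u α` (`kM_eq`), and `ι` is isometric. -/
theorem dense_of_fin {p : ℕ} [Fact p.Prime] {k L : Type v} [NontriviallyNormedField k]
    [IsUltrametricDist k] [IsAlgClosed k] (hp : ‖(p : k)‖ < 1) [NormedField L]
    [IsUltrametricDist L] [NormedAlgebra k L] {r m : ℕ} {e₀ : Fin r → L} {u₀ : Fin m → L}
    (h₀ : EU k e₀ u₀) (hfg : (⊤ : IntermediateField k L).FG)
    (htr : Algebra.trdeg k L = r + m + 1) (hfin : RWd (keu k e₀ u₀) ⊤ (nabs L)) :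
    ∃ (e : Fin r → L) (u : Fin m → L) (α : L), EU k e u ∧
      Algebra.IsSeparable (keuT k e u α) L ∧
      ∀ x : L, ∀ ε : ℝ, 0 < ε → ∃ y ∈ keuT k e u α, ‖x - y‖ < ε := by
  obtain ⟨e₁, hvb⟩ := exists_vb h₀ hfin
  obtain ⟨u₁, α₁, -, -, -, hai, hsep₁, hgen⟩ := exists_res_gens h₀ hfin
  have hEU₁ : EU k e₁ (fun i => (u₁ i : L)) :=
    ⟨hvb.ne, hvb.ind, fun i => mem_O.1 (u₁ i).2, fun P s => gauss_of_residues u₁ hai P s⟩
  obtain ⟨e, u, T, hEU, he, hu, hsepT⟩ := exists_sep_eu hEU₁ hfg htr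
  have hne : ∀ i, ‖e i‖ = ‖e₁ i‖ := by
    intro i
    have h3 : ‖e i - e₁ i‖ ≠ ‖e₁ i‖ := ne_of_lt (he i)
    have h4 : e i = (e i - e₁ i) + e₁ i := by ring
    rw [h4, IsUltrametricDist.norm_add_eq_max_of_norm_ne_norm h3]
    exact max_eq_right (he i).le
  have hval : ∀ x : L, x ≠ 0 → ∃ (z : Fin r → ℤ) (c : k), c ≠ 0 ∧ ‖x‖ = ‖mon k e z c‖ := by
    intro x hx
    obtain ⟨z, c, hc, h1⟩ := hvb.val x trivial rfl hx
    refine ⟨z, c, hc, ?_⟩
    rw [h1]
    unfold mon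
    rw [norm_mul, norm_mul, norm_prod, norm_prod]
    congr 1
    refine Finset.prod_congr rfl (fun i _ => ?_)
    rw [norm_zpow, norm_zpow, hne]
  obtain ⟨u', hu'⟩ : ∃ u' : Fin m → O L, ∀ i, (u' i : L) = u i :=
    ⟨fun i => ⟨u i, mem_O.2 (hEU.norm_u i)⟩, fun _ => rfl⟩
  have hu'' : (fun i => (u' i : L)) = u := funext hu'
  have hfun : (fun i => residue (O L) (u' i)) = fun i => residue (O L) (u₁ i) := by
    funext i
    refine hfd_res ?_
    rw [hu']
    exact hu i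
  have hnt : ∃ x : L, 1 < ‖x‖ := by
    obtain ⟨c, hc⟩ := NormedField.exists_one_lt_norm k
    exact ⟨algebraMap k L c, by rw [norm_algebraMap']; exact hc⟩
  obtain ⟨Ω, instΩ, hU, hA, ι, K, hE, halgK⟩ := exists_emb2 L hnt
  have hmemk : ∀ c : k, ι (algebraMap k L c) ∈ kO k ι := fun c => ⟨c, rfl⟩
  have hknorm : ∀ c : k, ‖ι (algebraMap k L c)‖ = ‖c‖ := fun c => by
    rw [hE.norm, norm_algebraMap']
  have hpΩ : ‖(p : Ω)‖ < 1 := by
    have h1 := hknorm (p : k)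
    rw [map_natCast, map_natCast] at h1
    rw [h1]
    exact hp
  obtain ⟨a, d, f, haK, haα, hRD0, hresK⟩ := exists_rd_of_gens hE u' α₁
    (by rw [hfun]; exact hai) (by rw [hfun]; exact hsep₁)
    (by
      rw [hfun]
      exact fun q => hgen q trivial (mem_O.1 q.2))
  have hu3 : (fun i => ι (u' i : L)) = fun i => ι (u i) := by
    funext i
    rw [hu']
  rw [hu3] at hRD0
  have hRD := rd_lift hE.norm hEU hRD0
  have hresK' : ∀ x ∈ K, ‖x‖ ≤ 1 →
      ∃ c ∈ adj (kU (kO k ι) fun i => ι (u i)) a, ‖x - c‖ < 1 := by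
    rw [← hu3]
    exact hresK
  obtain ⟨F, hFK, hFd, hcase⟩ := exists_Y hpΩ hE halgK hEU hval hRD haK hresK' hsepT hfg
  have hmain : ∀ α : L,
      DenseIn (adj (kU (kU (kO k ι) fun i => ι (e i)) fun i => ι (u i)) (ι α)) K →
      ∀ x : L, ∀ ε : ℝ, 0 < ε → ∃ y ∈ keuT k e u α, ‖x - y‖ < ε := by
    intro α hdense x ε hε
    have hle : adj (kU (kU (kO k ι) fun i => ι (e i)) fun i => ι (u i)) (ι α) ≤
        (keuT k e u α).toSubfield.map ι := by
      refine adj_le ?_ ⟨α, IntermediateField.subset_adjoin k _ (Or.inr rfl), rfl⟩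
      have h1 : kU (kU (kO k ι) fun i => ι (e i)) (fun i => ι (u i)) =
        (keu k e u).toSubfield.map ι := kM_eq (k := k) (ι := ι) (e := e) (u := u)
      rw [h1]
      rintro _ ⟨y, hy, rfl⟩
      have h2 : keu k e u ≤ keuT k e u α :=
        IntermediateField.adjoin.mono _ _ _ Set.subset_union_left
      exact ⟨y, h2 hy, rfl⟩
    obtain ⟨b, hb, h4⟩ := hdense.2 (ι x) (hE.mem x) ε hε
    obtain ⟨y, hy, rfl⟩ := hle hb
    refine ⟨y, hy, ?_⟩
    rw [← hE.norm, map_sub]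
    exact h4
  rcases hcase with hKF | ⟨Y, hYK, hTY, hYd⟩
  · obtain ⟨α₀, hα₀⟩ := hE.dense a haK 1 one_pos
    obtain ⟨α, hα, hsepα⟩ := hfd_alpha e u htr T hsepT α₀ one_pos
    have hαa : ‖ι α - a‖ < 1 := by
      have h1 : ι α - a = ι (α - α₀) + -(a - ι α₀) := by rw [map_sub]; ring
      rw [h1]
      refine lt_of_le_of_lt (IsUltrametricDist.norm_add_le_max _ _) (max_lt ?_ ?_)
      · rw [hE.norm]; exact hα
      · rw [norm_neg]; exact hα₀
    exact ⟨e, u, α, hEU, hsepα, hmain α (hRD.dense_of_close (Y := 0) (c := 0) hFd hFK hE.complete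
      (hE.mem α) (Or.inl ⟨rfl, hKF, hαa⟩))⟩
  · have hY0 : Y ≠ 0 := by
      rintro rfl
      have h1 := hTY.pos
      rw [Metric.infDist_zero_of_mem (show (0 : Ω) ∈ (F : Set Ω) from F.zero_mem)] at h1
      exact lt_irrefl _ h1
    obtain ⟨c, hc0, hc1⟩ := hfd_small (k := k) (B := 1 / ‖Y‖) (by positivity)
    obtain ⟨c', hc'⟩ : ∃ c' : Ω, c' = ι (algebraMap k L c) := ⟨_, rfl⟩
    have hcn : ‖c'‖ = ‖c‖ := by rw [hc']; exact hknorm c
    have hcpos : 0 < ‖c‖ := norm_pos_iff.2 hc0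
    have hc'0 : c' ≠ 0 := norm_pos_iff.1 (by rw [hcn]; exact hcpos)
    have hcY : ‖c' * Y‖ < 1 := by
      rw [norm_mul, hcn]
      rwa [lt_div_iff₀ (norm_pos_iff.2 hY0)] at hc1
    obtain ⟨δ, hδ⟩ : ∃ δ : ℝ, δ = min 1 (‖c'‖ * Metric.infDist Y (F : Set Ω)) := ⟨_, rfl⟩
    have hδ0 : 0 < δ := by
      rw [hδ]
      exact lt_min one_pos (mul_pos (norm_pos_iff.2 hc'0) hTY.pos)
    have hc'K : c' ∈ K := by rw [hc']; exact hE.mem _
    have hacY : a + c' * Y ∈ K := K.add_mem haK (K.mul_mem hc'K hYK)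
    obtain ⟨α₀, hα₀⟩ := hE.dense _ hacY δ hδ0
    obtain ⟨α, hα, hsepα⟩ := hfd_alpha e u htr T hsepT α₀ hδ0
    have hα2 : ‖ι α - (a + c' * Y)‖ < δ := by
      have h1 : ι α - (a + c' * Y) = ι (α - α₀) + -(a + c' * Y - ι α₀) := by
        rw [map_sub]; ring
      rw [h1]
      refine lt_of_le_of_lt (IsUltrametricDist.norm_add_le_max _ _) (max_lt ?_ ?_)
      · rw [hE.norm]; exact hα
      · rw [norm_neg]; exact hα₀
    have hδ1 : δ ≤ 1 := by rw [hδ]; exact min_le_left _ _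
    have hδ2 : δ ≤ ‖c'‖ * Metric.infDist Y (F : Set Ω) := by rw [hδ]; exact min_le_right _ _
    have hαa : ‖ι α - a‖ < 1 := by
      have h1 : ι α - a = (ι α - (a + c' * Y)) + c' * Y := by ring
      rw [h1]
      exact lt_of_le_of_lt (IsUltrametricDist.norm_add_le_max _ _)
        (max_lt (lt_of_lt_of_le hα2 hδ1) hcY)
    have hck : c' ∈ kU (kO k ι) fun i => ι (e i) := by
      rw [hc']
      exact (le_sup_left : kO k ι ≤ kU (kO k ι) fun i => ι (e i)) (hmemk c)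
    exact ⟨e, u, α, hEU, hsepα, hmain α (hRD.dense_of_close (Y := Y) (c := c') hFd hFK hE.complete
      (hE.mem α) (Or.inr ⟨hTY, hYd, hck, hc'0, hcY, hαa, lt_of_lt_of_le hα2 hδ2⟩))⟩

end DA
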