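import Pool.Agent.Lib.DA.EUa

/-!
# Module EUb: elements of `k(e, u)`
-/

namespace DA

open Polynomial MP1a953e

variable {k L : Type*} [NormedField k] [IsUltrametricDist k] [NormedField L]
  [IsUltrametricDist L] [NormedAlgebra k L] {r m : ℕ} {e : Fin r → L} {u : Fin m → L}

omit [IsUltrametricDist k] [IsUltrametricDist L] in
private theorem eub_prod_add (h : EU k e u) (z z' : Fin r → ℤ) :
    ∏ i, e i ^ (z + z') i = (∏ i, e i ^ z i) * ∏ i, e i ^ z' i := by
  rw [← Finset.prod_mul_distrib]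
  refine Finset.prod_congr rfl fun i _ => ?_
  rw [Pi.add_apply, zpow_add₀ (h.ne i)]

omit [IsUltrametricDist k] [IsUltrametricDist L] in
private theorem eub_prod_sub (h : EU k e u) (z z' : Fin r → ℤ) :
    ∏ i, e i ^ (z - z') i = (∏ i, e i ^ z i) / ∏ i, e i ^ z' i := by
  rw [← Finset.prod_div_distrib]
  refine Finset.prod_congr rfl fun i _ => ?_
  rw [Pi.sub_apply, zpow_sub₀ (h.ne i)]

omit [IsUltrametricDist k] [IsUltrametricDist L] in
private theorem eub_prod_ne (h : EU k e u) (z : Fin r → ℤ) : ∏ i, e i ^ z i ≠ 0 :=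
  Finset.prod_ne_zero_iff.2 fun i _ => zpow_ne_zero _ (h.ne i)

omit [IsUltrametricDist k] [IsUltrametricDist L] in
private theorem eub_mon_ne (h : EU k e u) (z : Fin r → ℤ) {c : k} (hc : c ≠ 0) :
    mon k e z c ≠ 0 := by
  unfold mon
  exact mul_ne_zero ((_root_.map_ne_zero _).2 hc) (eub_prod_ne h z)

omit [IsUltrametricDist k] [IsUltrametricDist L] in
private theorem eub_mon_div (h : EU k e u) (z z' : Fin r → ℤ) (c c' : k) :
    mon k e z c / mon k e z' c' = mon k e (z - z') (c / c') := by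
  unfold mon
  rw [eub_prod_sub h, map_div₀]
  rw [div_mul_div_comm]

/-- EUb1.  A nonzero Laurent polynomial is a monomial times an element of `MB` of norm `1`.  Proof.  By the
ultrametric inequality, `EU.sum_le` and `EU.exists_coeff` the norm of the sum is
`‖mon k e z₀ c‖` for some `z₀ ∈ Z` and a coefficient `c` of `P z₀`; divide the sum by `mon k e z₀ c`: it
becomes a sum of terms `mon k e (z - z₀) (a / c) * ∏ u i ^ s i`, where `a` runs over the coefficients, and
the monomials have norm `≤ 1` (again by `EU.sum_le`, `gauss`). -/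
theorem EU.exists_mon (h : EU k e u) (Z : Finset (Fin r → ℤ))
    (P : (Fin r → ℤ) → MvPolynomial (Fin m) k)
    (hne : ∑ z ∈ Z, MvPolynomial.aeval u (P z) * ∏ i, e i ^ z i ≠ 0) :
    ∃ (z₀ : Fin r → ℤ) (c : k), c ≠ 0 ∧ ∃ a ∈ MB k e u, ‖a‖ = 1 ∧
      ∑ z ∈ Z, MvPolynomial.aeval u (P z) * ∏ i, e i ^ z i = mon k e z₀ c * a := by
  classical
  set f : (Σ _ : Fin r → ℤ, Fin m →₀ ℕ) → ℝ := fun x =>
    ‖(P x.1).coeff x.2‖ * ‖∏ i, e i ^ x.1 i‖ with hf
  set I : Finset (Σ _ : Fin r → ℤ, Fin m →₀ ℕ) := Z.sigma fun z => (P z).support with hI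
  have hexp : ∀ z, MvPolynomial.aeval u (P z) * ∏ i, e i ^ z i =
      ∑ s ∈ (P z).support, algebraMap k L ((P z).coeff s) * (∏ i, u i ^ s i) *
        ∏ i, e i ^ z i := by
    intro z
    rw [MvPolynomial.aeval_def, MvPolynomial.eval₂_eq', Finset.sum_mul]
  have hS : ∑ z ∈ Z, MvPolynomial.aeval u (P z) * ∏ i, e i ^ z i =
      ∑ x ∈ I, algebraMap k L ((P x.1).coeff x.2) * (∏ i, u i ^ x.2 i) *
        ∏ i, e i ^ x.1 i := by
    rw [hI, Finset.sum_sigma]
    exact Finset.sum_congr rfl fun z _ => hexp z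
  have hIne : I.Nonempty := by
    rw [Finset.nonempty_iff_ne_empty]
    intro h0
    rw [hS, h0, Finset.sum_empty] at hne
    exact hne rfl
  obtain ⟨x₀, hx₀, hmax⟩ := Finset.exists_max_image I f hIne
  have hx₀' := Finset.mem_sigma.1 hx₀
  have hc : (P x₀.1).coeff x₀.2 ≠ 0 := MvPolynomial.mem_support_iff.1 hx₀'.2
  have hu1 : ∀ s : Fin m →₀ ℕ, ‖∏ i, u i ^ s i‖ ≤ 1 := by
    intro s
    rw [norm_prod]
    refine Finset.prod_le_one (fun i _ => norm_nonneg _) fun i _ => ?_
    rw [norm_pow]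
    exact pow_le_one₀ (norm_nonneg _) (h.norm_u i)
  have hterm : ∀ x ∈ I, ‖algebraMap k L ((P x.1).coeff x.2) * (∏ i, u i ^ x.2 i) *
      ∏ i, e i ^ x.1 i‖ ≤ f x₀ := by
    intro x hx
    refine le_trans ?_ (hmax x hx)
    rw [norm_mul, norm_mul, norm_algebraMap']
    refine mul_le_mul_of_nonneg_right ?_ (norm_nonneg _)
    exact mul_le_of_le_one_right (norm_nonneg _) (hu1 _)
  have hle : ‖∑ z ∈ Z, MvPolynomial.aeval u (P z) * ∏ i, e i ^ z i‖ ≤ f x₀ := by
    rw [hS]
    exact IsUltrametricDist.norm_sum_le_of_forall_le_of_nonempty hIne hterm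
  have hge : f x₀ ≤ ‖∑ z ∈ Z, MvPolynomial.aeval u (P z) * ∏ i, e i ^ z i‖ := by
    refine le_trans ?_ (h.sum_le Z P hx₀'.1)
    exact mul_le_mul_of_nonneg_right (h.gauss _ _) (norm_nonneg _)
  have hmon0 := eub_mon_ne h x₀.1 hc
  have hmonn : ‖mon k e x₀.1 ((P x₀.1).coeff x₀.2)‖ = f x₀ := by
    unfold mon
    rw [norm_mul, norm_algebraMap']
  refine ⟨x₀.1, (P x₀.1).coeff x₀.2, hc,
    (∑ z ∈ Z, MvPolynomial.aeval u (P z) * ∏ i, e i ^ z i) /
      mon k e x₀.1 ((P x₀.1).coeff x₀.2), ?_, ?_, ?_⟩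
  · rw [hS, Finset.sum_div]
    refine Subalgebra.sum_mem _ fun x hx => ?_
    have h1 : algebraMap k L ((P x.1).coeff x.2) * (∏ i, u i ^ x.2 i) * (∏ i, e i ^ x.1 i) /
        mon k e x₀.1 ((P x₀.1).coeff x₀.2) =
        mon k e (x.1 - x₀.1) ((P x.1).coeff x.2 / (P x₀.1).coeff x₀.2) * ∏ i, u i ^ x.2 i := by
      rw [← eub_mon_div h]
      unfold mon
      ring
    rw [h1]
    refine Subalgebra.mul_mem _ ?_ ?_
    · refine Algebra.subset_adjoin (Or.inl ⟨_, _, rfl, ?_⟩)
      rw [← eub_mon_div h, norm_div, hmonn]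
      refine div_le_one_of_le₀ ?_ (by rw [← hmonn]; exact norm_nonneg _)
      have h2 := hmax x hx
      unfold mon
      rw [norm_mul, norm_algebraMap']
      exact h2
    · refine Subalgebra.prod_mem _ fun i _ => Subalgebra.pow_mem _ ?_ _
      exact Algebra.subset_adjoin (Or.inr ⟨i, rfl⟩)
  · rw [norm_div, hmonn, le_antisymm hle hge, div_self]
    rw [← hmonn]
    exact norm_ne_zero_iff.2 hmon0
  · rw [mul_div_cancel₀ _ hmon0]

omit [IsUltrametricDist k] [IsUltrametricDist L] in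
private theorem eub_lau (h : EU k e u) (p : MvPolynomial (Fin r ⊕ Fin m) k) :
    ∃ (Z : Finset (Fin r → ℤ)) (P : (Fin r → ℤ) → MvPolynomial (Fin m) k),
      MvPolynomial.aeval (Sum.elim e u) p =
        ∑ z ∈ Z, MvPolynomial.aeval u (P z) * ∏ i, e i ^ z i := by
  classical
  induction p using MvPolynomial.induction_on with
  | C a =>
    refine ⟨{0}, fun _ => MvPolynomial.C a, ?_⟩
    simp
  | add p q hp hq =>
    obtain ⟨Z1, P1, h1⟩ := hp
    obtain ⟨Z2, P2, h2⟩ := hq
    refine ⟨Z1 ∪ Z2, fun z => (if z ∈ Z1 then P1 z else 0) + (if z ∈ Z2 then P2 z else 0), ?_⟩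
    rw [map_add, h1, h2]
    simp only [map_add, add_mul, Finset.sum_add_distrib]
    congr 1
    · rw [← Finset.sum_subset (Finset.subset_union_left (s₁ := Z1) (s₂ := Z2))]
      · refine Finset.sum_congr rfl fun z hz => ?_
        rw [if_pos hz]
      · intro z _ hz
        rw [if_neg hz, map_zero, zero_mul]
    · rw [← Finset.sum_subset (Finset.subset_union_right (s₁ := Z1) (s₂ := Z2))]
      · refine Finset.sum_congr rfl fun z hz => ?_
        rw [if_pos hz]
      · intro z _ hz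
        rw [if_neg hz, map_zero, zero_mul]
  | mul_X p n hp =>
    obtain ⟨Z, P, h1⟩ := hp
    rw [map_mul, h1, MvPolynomial.aeval_X]
    cases n with
    | inl j =>
      refine ⟨Z.map (addRightEmbedding (Pi.single j (1 : ℤ))), fun z => P (z - Pi.single j 1), ?_⟩
      rw [Finset.sum_map, Finset.sum_mul]
      refine Finset.sum_congr rfl fun z _ => ?_
      show _ = MvPolynomial.aeval u (P (z + Pi.single j 1 - Pi.single j 1)) *
        ∏ i, e i ^ (z + Pi.single j 1 : Fin r → ℤ) i
      rw [add_sub_cancel_right, eub_prod_add h]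
      have h2 : ∏ i, e i ^ (Pi.single j (1 : ℤ) : Fin r → ℤ) i = e j := by
        rw [Finset.prod_eq_single j]
        · rw [Pi.single_eq_same, zpow_one]
        · intro i _ hi
          rw [Pi.single_eq_of_ne hi, zpow_zero]
        · intro hj
          exact absurd (Finset.mem_univ j) hj
      rw [h2, Sum.elim_inl, mul_assoc]
    | inr j =>
      refine ⟨Z, fun z => P z * MvPolynomial.X j, ?_⟩
      rw [Finset.sum_mul]
      refine Finset.sum_congr rfl fun z _ => ?_
      rw [map_mul, MvPolynomial.aeval_X, Sum.elim_inr]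
      ring

/-- EUb2.  Proof.  `x` is a fraction of two polynomials in `e, u`; each polynomial is
`∑_z P z (u) * e ^ z`; apply EUb1 to numerator and denominator. (The set of all `x` which are `0` or of
this form can also be shown to be a field.) -/
theorem EU.exists_frac (h : EU k e u) {x : L} (hx : x ∈ keu k e u) (hx0 : x ≠ 0) :
    ∃ (z : Fin r → ℤ) (c : k), c ≠ 0 ∧ ∃ a ∈ MB k e u, ∃ b ∈ MB k e u, ‖a‖ = 1 ∧ ‖b‖ = 1 ∧
      x = mon k e z c * (a / b) := by
  have hr : Set.range e ∪ Set.range u = Set.range (Sum.elim e u) := (Set.Sum.elim_range e u).symm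
  unfold keu at hx
  rw [hr, IntermediateField.mem_adjoin_range_iff] at hx
  obtain ⟨p, q, rfl⟩ := hx
  obtain ⟨Z1, P1, h1⟩ := eub_lau h p
  obtain ⟨Z2, P2, h2⟩ := eub_lau h q
  rw [h1, h2] at hx0 ⊢
  obtain ⟨hp0, hq0⟩ := div_ne_zero_iff.1 hx0
  obtain ⟨z1, c1, hc1, a1, ha1, hn1, e1⟩ := h.exists_mon Z1 P1 hp0
  obtain ⟨z2, c2, hc2, a2, ha2, hn2, e2⟩ := h.exists_mon Z2 P2 hq0
  refine ⟨z1 - z2, c1 / c2, div_ne_zero hc1 hc2, a1, ha1, a2, ha2, hn1, hn2, ?_⟩
  rw [e1, e2, ← eub_mon_div h, mul_div_mul_comm]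

/-- EUb3.  Elements of `MB` have norm `≤ 1` (induction over `Algebra.adjoin`). -/
theorem EU.norm_MB_le (h : EU k e u) {a : L} (ha : a ∈ MB k e u) : ‖a‖ ≤ 1 := by
  unfold MB at ha
  induction ha using Algebra.adjoin_induction with
  | mem x hx =>
    rcases hx with ⟨z, c, rfl, hx⟩ | ⟨i, rfl⟩
    · exact hx
    · exact h.norm_u i
  | algebraMap c =>
    have h1 : algebraMap (O k) L c = algebraMap k L (c : k) := rfl
    rw [h1, norm_algebraMap']
    exact c.2
  | add x y _ _ hx hy =>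
    exact (IsUltrametricDist.norm_add_le_max x y).trans (max_le hx hy)
  | mul x y _ _ hx hy =>
    rw [norm_mul]
    exact mul_le_one₀ hx (norm_nonneg _) hy

omit [IsUltrametricDist L] in
private theorem eub_alg (c : O k) : algebraMap (O k) L c = algebraMap k L (c : k) := rfl

omit [IsUltrametricDist L] in
private theorem eub_aeval_mem (P : MvPolynomial (Fin m) (O k)) :
    MvPolynomial.aeval u P ∈ MB k e u := by
  induction P using MvPolynomial.induction_on with
  | C a =>
    rw [MvPolynomial.aeval_C]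
    exact Subalgebra.algebraMap_mem _ a
  | add p q hp hq =>
    rw [map_add]
    exact Subalgebra.add_mem _ hp hq
  | mul_X p n hp =>
    rw [map_mul, MvPolynomial.aeval_X]
    exact Subalgebra.mul_mem _ hp (Algebra.subset_adjoin (Or.inr ⟨n, rfl⟩))

private theorem eub_res (h : EU k e u) {a : L} (ha : a ∈ MB k e u) :
    ∃ P : MvPolynomial (Fin m) (O k), ‖a - MvPolynomial.aeval u P‖ < 1 := by
  unfold MB at ha
  induction ha using Algebra.adjoin_induction with
  | mem x hx =>
    rcases hx with ⟨z, c, rfl, hx⟩ | ⟨i, rfl⟩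
    · rcases hx.lt_or_eq with h1 | h1
      · refine ⟨0, ?_⟩
        rw [map_zero, sub_zero]
        exact h1
      · have hc0 : c ≠ 0 := by
          rintro rfl
          unfold mon at h1
          rw [map_zero, zero_mul, norm_zero] at h1
          exact zero_ne_one h1
        have h2 : ‖c‖ * ‖∏ i, e i ^ z i‖ = 1 := by
          unfold mon at h1
          rw [norm_mul, norm_algebraMap'] at h1
          exact h1
        have h3 : z = 0 := by
          refine h.ind z c⁻¹ ?_
          rw [norm_inv]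
          exact inv_eq_of_mul_eq_one_right h2
        have h4 : mon k e z c = algebraMap k L c := by
          unfold mon
          rw [h3]
          simp
        have h5 : ‖c‖ ≤ 1 := by
          have h6 := h1
          rw [h4, norm_algebraMap'] at h6
          exact h6.le
        refine ⟨MvPolynomial.C ⟨c, h5⟩, ?_⟩
        rw [MvPolynomial.aeval_C, eub_alg, h4, sub_self, norm_zero]
        exact one_pos
    · refine ⟨MvPolynomial.X i, ?_⟩
      rw [MvPolynomial.aeval_X, sub_self, norm_zero]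
      exact one_pos
  | algebraMap c =>
    refine ⟨MvPolynomial.C c, ?_⟩
    rw [MvPolynomial.aeval_C, sub_self, norm_zero]
    exact one_pos
  | add x y _ _ hx hy =>
    obtain ⟨P, hP⟩ := hx
    obtain ⟨Q, hQ⟩ := hy
    refine ⟨P + Q, ?_⟩
    have e1 : x + y - MvPolynomial.aeval u (P + Q) =
        (x - MvPolynomial.aeval u P) + (y - MvPolynomial.aeval u Q) := by
      rw [map_add]
      ring
    rw [e1]
    exact (IsUltrametricDist.norm_add_le_max _ _).trans_lt (max_lt hP hQ)
  | mul x y hx' _ hx hy =>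
    obtain ⟨P, hP⟩ := hx
    obtain ⟨Q, hQ⟩ := hy
    refine ⟨P * Q, ?_⟩
    have e1 : x * y - MvPolynomial.aeval u (P * Q) =
        x * (y - MvPolynomial.aeval u Q) +
          (x - MvPolynomial.aeval u P) * MvPolynomial.aeval u Q := by
      rw [map_mul]
      ring
    have h1 : ‖x‖ ≤ 1 := h.norm_MB_le hx'
    have h2 : ‖MvPolynomial.aeval u Q‖ ≤ 1 := h.norm_MB_le (eub_aeval_mem Q)
    rw [e1]
    refine (IsUltrametricDist.norm_add_le_max _ _).trans_lt (max_lt ?_ ?_)
    · rw [norm_mul]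
      exact (mul_le_of_le_one_left (norm_nonneg _) h1).trans_lt hQ
    · rw [norm_mul]
      exact (mul_le_of_le_one_right (norm_nonneg _) h2).trans_lt hP

/-- EUb4.  Residues.  Proof.  Induction over `Algebra.adjoin`: monomials of norm `< 1` are approximated
by `0`; a monomial `mon k e z c` of norm `1` has `z = 0` by `ind` (`‖c⁻¹‖ = ‖∏ e i ^ z i‖`), so it is
the constant `c`. Sums and products: `EU.norm_MB_le`. -/
theorem EU.exists_res (h : EU k e u) {a : L} (ha : a ∈ MB k e u) :
    ∃ P : MvPolynomial (Fin m) k, (∀ s, ‖P.coeff s‖ ≤ 1) ∧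
      ‖a - MvPolynomial.aeval u P‖ < 1 := by
  obtain ⟨P, hP⟩ := eub_res h ha
  refine ⟨MvPolynomial.map (O k).subtype P, fun s => ?_, ?_⟩
  · rw [MvPolynomial.coeff_map]
    exact (P.coeff s).2
  · have h1 : MvPolynomial.aeval u (MvPolynomial.map (O k).subtype P) =
        MvPolynomial.aeval u P := by
      rw [MvPolynomial.aeval_def, MvPolynomial.eval₂_map, MvPolynomial.aeval_def]
      rfl
    rw [h1]
    exact hP

end DA
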