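import Pool.Agent.Lib.DA.K1

/-!
# Module H1a: the rings `AAs`
-/

namespace DA

open Polynomial MP1a953e

section
variable {k L : Type*} [NormedField k] [IsUltrametricDist k] [NormedField L]
  [IsUltrametricDist L] [NormedAlgebra k L] {M : IntermediateField k L} {R : Subring L}
  {w : AbsoluteValue L ℝ} {r m : ℕ} {e : Fin r → L} {u : Fin m → L} {α h : L}

private theorem h1a_A1 (hR : RWd M R w) (hC : Cor k R w e u α h) :
    ∀ x ∈ A1 k u α, x ∈ R ∧ w x ≤ 1 := by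
  intro x hx
  unfold A1 at hx
  induction hx using Algebra.adjoin_induction with
  | mem x hx =>
    rcases hx with ⟨i, rfl⟩ | hx
    · exact ⟨hC.u_mem i, hC.u_w i⟩
    · rw [Set.mem_singleton_iff] at hx
      rw [hx]
      exact ⟨hC.α_mem, hC.α_w⟩
  | algebraMap c =>
    have h1 : (algebraMap (O k) L c : L) = algebraMap k L (c : k) := rfl
    rw [h1]
    refine ⟨hR.M_le _ (M.algebraMap_mem _), ?_⟩
    rw [hR.eq_M (M.algebraMap_mem _), norm_algebraMap']
    exact mem_O.1 c.2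
  | add x y _ _ hx hy =>
    exact ⟨R.add_mem hx.1 hy.1, (hR.nonarch _ _).trans (max_le hx.2 hy.2)⟩
  | mul x y _ _ hx hy =>
    refine ⟨R.mul_mem hx.1 hy.1, ?_⟩
    rw [map_mul]
    exact mul_le_one₀ hx.2 (w.nonneg _) hy.2

private theorem h1a_keuT : ∀ x ∈ A1 k u α, x ∈ keuT k e u α := by
  intro x hx
  unfold A1 at hx
  induction hx using Algebra.adjoin_induction with
  | mem x hx =>
    rcases hx with ⟨i, rfl⟩ | hx
    · exact IntermediateField.subset_adjoin k _ (Or.inl (Or.inr ⟨i, rfl⟩))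
    · exact IntermediateField.subset_adjoin k _ (Or.inr hx)
  | algebraMap c =>
    have h1 : (algebraMap (O k) L c : L) = algebraMap k L (c : k) := rfl
    rw [h1]
    exact (keuT k e u α).algebraMap_mem _
  | add x y _ _ hx hy => exact add_mem hx hy
  | mul x y _ _ hx hy => exact mul_mem hx hy

/-- an element of the unit ball of `R` of norm `1` -/
private theorem h1a_inv (hR : RWd M R w) {b : L} (hb : b ∈ R) (hw : w b ≤ 1) (hn : ‖b‖ = 1) :
    w b = 1 ∧ b⁻¹ ∈ R := by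
  have h1 : w b = 1 := le_antisymm hw (by rw [← hn]; exact hR.le b hb)
  exact ⟨h1, hR.inv b hb (by rw [h1, hn])⟩

/-- `h` is in the unit ball of `R` for `w` (it is a polynomial in `u, α` over `O k`) -/
theorem Cor.h_w (hR : RWd M R w) (hC : Cor k R w e u α h) : h ∈ R ∧ w h ≤ 1 :=
  h1a_A1 hR hC h hC.h_mem

/-- H1a.  Proof.  Products: `(n + h y + ρ) (n' + h y' + ρ')`. Inverses: let `q = n + h y + ρ`, `‖q‖ = 1`; then
`w q = 1` (`‖q‖ ≤ w q ≤ 1`), `q⁻¹ ∈ R`, `‖n‖ = 1` (`‖h y‖ ≤ ‖h‖ < 1`, `‖ρ‖ ≤ w ρ ≤ ε < 1`), so `w n = 1`,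
`n⁻¹ ∈ R`, and `q⁻¹ - n⁻¹ = - (h y + ρ) q⁻¹ n⁻¹`. -/
theorem exists_AA_ring (hR : RWd M R w) (hC : Cor k R w e u α h) (N : IntermediateField k L)
    {ε : ℝ} (hε0 : 0 ≤ ε) (hε : ε < 1) :
    ∃ 𝒜 : Subring L, (∀ q, q ∈ 𝒜 ↔ q ∈ AAs k N R w h ε) ∧
      ∀ q ∈ 𝒜, ‖q‖ = 1 → q⁻¹ ∈ 𝒜 := by
  have hh := Cor.h_w hR hC
  refine ⟨{
    carrier := AAs k N R w h ε
    mul_mem' := ?_
    one_mem' := ?_
    add_mem' := ?_
    zero_mem' := ?_
    neg_mem' := ?_ }, fun q => Iff.rfl, ?_⟩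
  · rintro q q' ⟨hq, hqw, n, hn, hnR, hnw, y, hy, hyw, hρ⟩
      ⟨hq', hqw', n', hn', hnR', hnw', y', hy', hyw', hρ'⟩
    refine ⟨R.mul_mem hq hq', ?_, n * n', mul_mem hn hn', R.mul_mem hnR hnR', ?_,
      y * n' + q * y', R.add_mem (R.mul_mem hy hnR') (R.mul_mem hq hy'), ?_, ?_⟩
    · rw [map_mul]; exact mul_le_one₀ hqw (w.nonneg _) hqw'
    · rw [map_mul]; exact mul_le_one₀ hnw (w.nonneg _) hnw'
    · refine (hR.nonarch _ _).trans (max_le ?_ ?_)
      · rw [map_mul]; exact mul_le_one₀ hyw (w.nonneg _) hnw'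
      · rw [map_mul]; exact mul_le_one₀ hqw (w.nonneg _) hyw'
    · have e1 : q * q' - n * n' - h * (y * n' + q * y') =
          (q - n - h * y) * n' + q * (q' - n' - h * y') := by ring
      rw [e1]
      refine (hR.nonarch _ _).trans (max_le ?_ ?_)
      · rw [map_mul]
        calc w (q - n - h * y) * w n' ≤ ε * 1 := mul_le_mul hρ hnw' (w.nonneg _) hε0
          _ = ε := mul_one _
      · rw [map_mul]
        calc w q * w (q' - n' - h * y') ≤ 1 * ε := mul_le_mul hqw hρ' (w.nonneg _) zero_le_one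
          _ = ε := one_mul _
  · refine ⟨R.one_mem, by rw [map_one], 1, one_mem N, R.one_mem, by rw [map_one], 0,
      R.zero_mem, by rw [map_zero]; exact zero_le_one, ?_⟩
    rw [mul_zero, sub_self, sub_zero, map_zero]
    exact hε0
  · rintro q q' ⟨hq, hqw, n, hn, hnR, hnw, y, hy, hyw, hρ⟩
      ⟨hq', hqw', n', hn', hnR', hnw', y', hy', hyw', hρ'⟩
    refine ⟨R.add_mem hq hq', (hR.nonarch _ _).trans (max_le hqw hqw'), n + n', add_mem hn hn',
      R.add_mem hnR hnR', (hR.nonarch _ _).trans (max_le hnw hnw'), y + y', R.add_mem hy hy',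
      (hR.nonarch _ _).trans (max_le hyw hyw'), ?_⟩
    have e1 : q + q' - (n + n') - h * (y + y') =
        (q - n - h * y) + (q' - n' - h * y') := by ring
    rw [e1]
    exact (hR.nonarch _ _).trans (max_le hρ hρ')
  · refine ⟨R.zero_mem, by rw [map_zero]; exact zero_le_one, 0, zero_mem N, R.zero_mem,
      by rw [map_zero]; exact zero_le_one, 0, R.zero_mem, by rw [map_zero]; exact zero_le_one,
      ?_⟩
    rw [mul_zero, sub_self, sub_zero, map_zero]
    exact hε0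
  · rintro q ⟨hq, hqw, n, hn, hnR, hnw, y, hy, hyw, hρ⟩
    refine ⟨R.neg_mem hq, by rw [map_neg_eq_map]; exact hqw, -n, neg_mem hn, R.neg_mem hnR,
      by rw [map_neg_eq_map]; exact hnw, -y, R.neg_mem hy, by rw [map_neg_eq_map]; exact hyw,
      ?_⟩
    have e1 : -q - -n - h * -y = -(q - n - h * y) := by ring
    rw [e1, map_neg_eq_map]
    exact hρ
  · rintro q ⟨hq, hqw, n, hn, hnR, hnw, y, hy, hyw, hρ⟩ hq1
    obtain ⟨hwq, hqi⟩ := h1a_inv hR hq hqw hq1
    have hρR : q - n - h * y ∈ R := R.sub_mem (R.sub_mem hq hnR) (R.mul_mem hh.1 hy)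
    have h1 : ‖q - n‖ < 1 := by
      have e1 : q - n = h * y + (q - n - h * y) := by ring
      rw [e1]
      refine (IsUltrametricDist.norm_add_le_max _ _).trans_lt (max_lt ?_ ?_)
      · rw [norm_mul]
        calc ‖h‖ * ‖y‖ ≤ ‖h‖ * 1 :=
              mul_le_mul_of_nonneg_left ((hR.le y hy).trans hyw) (norm_nonneg _)
          _ < 1 := by rw [mul_one]; exact hC.h_lt
      · exact ((hR.le _ hρR).trans hρ).trans_lt hε
    have hn1 : ‖n‖ = 1 := by
      refine le_antisymm ((hR.le n hnR).trans hnw) ?_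
      by_contra hlt
      push Not at hlt
      have e1 : q = (q - n) + n := by ring
      have h2 : ‖q‖ < 1 := by
        rw [e1]
        exact (IsUltrametricDist.norm_add_le_max _ _).trans_lt (max_lt h1 hlt)
      exact absurd hq1 h2.ne
    obtain ⟨hwn, hni⟩ := h1a_inv hR hnR hnw hn1
    have hq0 : q ≠ 0 := fun e0 => by rw [e0, norm_zero] at hq1; exact zero_ne_one hq1
    have hn0 : n ≠ 0 := fun e0 => by rw [e0, norm_zero] at hn1; exact zero_ne_one hn1
    have hwqi : w q⁻¹ = 1 := by rw [map_inv₀, hwq, inv_one]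
    have hwni : w n⁻¹ = 1 := by rw [map_inv₀, hwn, inv_one]
    refine ⟨hqi, hwqi.le, n⁻¹, inv_mem hn, hni, hwni.le, -(y * q⁻¹ * n⁻¹),
      R.neg_mem (R.mul_mem (R.mul_mem hy hqi) hni), ?_, ?_⟩
    · rw [map_neg_eq_map, map_mul, map_mul, hwqi, hwni, mul_one, mul_one]
      exact hyw
    · have e1 : q⁻¹ - n⁻¹ - h * -(y * q⁻¹ * n⁻¹) = -((q - n - h * y) * q⁻¹ * n⁻¹) := by
        field_simp
        ring
      rw [e1, map_neg_eq_map, map_mul, map_mul, hwqi, hwni, mul_one, mul_one]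
      exact hρ

/-- `AAs` increases with `ε` -/
theorem AAs_mono {N : IntermediateField k L} {ε ε' : ℝ} (h' : ε ≤ ε') {q : L}
    (hq : q ∈ AAs k N R w h ε) : q ∈ AAs k N R w h ε' := by
  obtain ⟨hq, hqw, n, hn, hnR, hnw, y, hy, hyw, hρ⟩ := hq
  exact ⟨hq, hqw, n, hn, hnR, hnw, y, hy, hyw, hρ.trans h'⟩

/-- H1b.  Proof.  For `g ∈ G` let `a, b ∈ A1 k u α`, `‖b‖ = 1`, `‖g - a / b‖ < 1` (`Cor.res`); `A1 k u α ≤ R`,
`w ≤ 1` on it, `b⁻¹ ∈ R`, `n = a / b ∈ keuT k e u α`. By `Cor.unif` there is `y ∈ R`, `w y ≤ 1`,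
`w (g - n - h y) < 1`. Take the maximum over the finite set `G` (and `1/2`). -/
theorem exists_eps (hR : RWd M R w) (hC : Cor k R w e u α h) (G : Finset L)
    (hG : ∀ g ∈ G, g ∈ R ∧ w g ≤ 1) :
    ∃ ε : ℝ, 0 < ε ∧ ε < 1 ∧ ∀ g ∈ G, g ∈ AAs k (keuT k e u α) R w h ε := by
  classical
  have key : ∀ g : L, g ∈ R → w g ≤ 1 →
      ∃ ε : ℝ, ε < 1 ∧ g ∈ AAs k (keuT k e u α) R w h ε := by
    intro g hg hgw
    obtain ⟨a, ha, b, hb, hb1, hab⟩ := hC.res g hg hgw
    obtain ⟨haR, haw⟩ := h1a_A1 hR hC a ha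
    obtain ⟨hbR, hbw⟩ := h1a_A1 hR hC b hb
    obtain ⟨hwb, hbi⟩ := h1a_inv hR hbR hbw hb1
    have hnR : a / b ∈ R := by rw [div_eq_mul_inv]; exact R.mul_mem haR hbi
    have hnw : w (a / b) ≤ 1 := by rw [map_div₀, hwb, div_one]; exact haw
    have hgn : w (g - a / b) ≤ 1 := by
      rw [sub_eq_add_neg]
      refine (hR.nonarch _ _).trans (max_le hgw ?_)
      rw [map_neg_eq_map]; exact hnw
    obtain ⟨y, hy, hyw, hlt⟩ := hC.unif (g - a / b) (R.sub_mem hg hnR) hgn hab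
    exact ⟨w (g - a / b - h * y), hlt, hg, hgw, a / b, div_mem (h1a_keuT a ha) (h1a_keuT b hb),
      hnR, hnw, y, hy, hyw, le_rfl⟩
  induction G using Finset.induction_on with
  | empty => exact ⟨1 / 2, by norm_num, by norm_num, fun g hg => absurd hg (Finset.notMem_empty g)⟩
  | insert a G ha ih =>
    obtain ⟨ε₁, h1, h2, h3⟩ := ih fun g hg => hG g (Finset.mem_insert_of_mem hg)
    obtain ⟨hgR, hgw⟩ := hG a (Finset.mem_insert_self _ _)
    obtain ⟨ε₂, h4, h5⟩ := key a hgR hgw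
    refine ⟨max ε₁ ε₂, lt_max_of_lt_left h1, max_lt h2 h4, fun g hg => ?_⟩
    rcases Finset.mem_insert.1 hg with rfl | hg
    · exact AAs_mono (le_max_right _ _) h5
    · exact AAs_mono (le_max_left _ _) (h3 g hg)

/-- monomials in `e` of norm `≤ 1` -/
theorem Cor.mon_mem (hR : RWd M R w) (hC : Cor k R w e u α h) {ε : ℝ} (hε : 0 ≤ ε)
    (z : Fin r → ℤ) (c : k) (hz : ‖mon k e z c‖ ≤ 1) :
    mon k e z c ∈ R ∧ w (mon k e z c) = ‖mon k e z c‖ ∧
      mon k e z c ∈ AAs k (keuT k e u α) R w h ε := by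
  have hcM : (algebraMap k L c : L) ∈ M := M.algebraMap_mem c
  have hzp : ∀ i, e i ^ z i ∈ R := by
    intro i
    have h1 := hC.e_mem i
    have h2 : (e i)⁻¹ ∈ R := hR.inv _ h1 (hC.e_w i)
    rcases Int.le_total 0 (z i) with h3 | h3
    · obtain ⟨n, hn⟩ := Int.eq_ofNat_of_zero_le h3
      rw [hn, zpow_natCast]
      exact R.pow_mem h1 n
    · obtain ⟨n, hn⟩ := Int.eq_ofNat_of_zero_le (Int.neg_nonneg_of_nonpos h3)
      have h4 : z i = -(n : ℤ) := by omega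
      rw [h4, zpow_neg, zpow_natCast, ← inv_pow]
      exact R.pow_mem h2 n
  have hmR : mon k e z c ∈ R := R.mul_mem (hR.M_le _ hcM) (R.prod_mem fun i _ => hzp i)
  have hmw : w (mon k e z c) = ‖mon k e z c‖ := by
    unfold mon
    rw [map_mul, norm_mul, hR.eq_M hcM, map_prod, norm_prod]
    congr 1
    refine Finset.prod_congr rfl fun i _ => ?_
    rw [map_zpow₀, norm_zpow, hC.e_w i]
  refine ⟨hmR, hmw, hmR, by rw [hmw]; exact hz, mon k e z c, ?_, hmR, by rw [hmw]; exact hz, 0,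
    R.zero_mem, by rw [map_zero]; exact zero_le_one, ?_⟩
  · show algebraMap k L c * ∏ i, e i ^ z i ∈ keuT k e u α
    have he : ∀ i, e i ∈ keuT k e u α := fun i =>
      IntermediateField.subset_adjoin k _ (Or.inl (Or.inl ⟨i, rfl⟩))
    exact mul_mem ((keuT k e u α).algebraMap_mem c) (prod_mem fun i _ => zpow_mem (he i) _)
  · rw [mul_zero, sub_self, sub_zero, map_zero]
    exact hε

end

end DA
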