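import Pool.Agent.Lib.DA.S1
import Pool.Agent.Lib.DA.H1a

/-!
# Module R3b: monomial units and denominators in fine charts
-/

namespace DA

open Polynomial MP1a953e

section aux

variable {k L : Type*} [NormedField k] [NormedField L] [NormedAlgebra k L] {r : ℕ}
  {e : Fin r → L}

private theorem r3b_prod_ne (hne : ∀ i, e i ≠ 0) (z : Fin r → ℤ) : ∏ i, e i ^ z i ≠ 0 :=
  Finset.prod_ne_zero_iff.2 fun i _ => zpow_ne_zero _ (hne i)

private theorem r3b_mon_ne (hne : ∀ i, e i ≠ 0) (z : Fin r → ℤ) {c : k} (hc : c ≠ 0) :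
    mon k e z c ≠ 0 := by
  unfold mon
  exact mul_ne_zero ((_root_.map_ne_zero _).2 hc) (r3b_prod_ne hne z)

private theorem r3b_mon_mul (hne : ∀ i, e i ≠ 0) (z z' : Fin r → ℤ) (c c' : k) :
    mon k e z c * mon k e z' c' = mon k e (z + z') (c * c') := by
  unfold mon
  have h1 : ∏ i, e i ^ (z + z') i = (∏ i, e i ^ z i) * ∏ i, e i ^ z' i := by
    rw [← Finset.prod_mul_distrib]
    refine Finset.prod_congr rfl fun i _ => ?_
    rw [Pi.add_apply, zpow_add₀ (hne i)]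
  rw [h1, map_mul]
  ring

private theorem r3b_mon_one : mon k e 0 (1 : k) = 1 := by
  unfold mon
  simp

private theorem r3b_ne {k L : Type*} [NormedField k] [IsUltrametricDist k] [NormedField L]
    [IsUltrametricDist L] [NormedAlgebra k L] {r : ℕ} {e : Fin r → L} (hne : ∀ i, e i ≠ 0)
    {B : Subalgebra (O k) L} {x : L} (hx : MUnit k e B x) : x ≠ 0 := by
  obtain ⟨z, c, hc, a, -, b, -, hna, hnb, rfl⟩ := hx
  refine mul_ne_zero (r3b_mon_ne hne z hc) (div_ne_zero ?_ ?_)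
  · rw [← norm_ne_zero_iff, hna]
    exact one_ne_zero
  · rw [← norm_ne_zero_iff, hnb]
    exact one_ne_zero

end aux

section aux2

variable {k L : Type*} [NormedField k] [NormedField L] [NormedAlgebra k L]
  {M : IntermediateField k L} {R : Subring L} {w : AbsoluteValue L ℝ}

private theorem r3b_wM (hR : RWd M R w) {c : L} (hc : c ∈ M) : w c = ‖c‖ := by
  by_cases h0 : c = 0
  · rw [h0, map_zero, norm_zero]
  refine le_antisymm ?_ (hR.le c (hR.M_le c hc))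
  have h1 := hR.le c⁻¹ (hR.M_le _ (inv_mem hc))
  rw [norm_inv, map_inv₀] at h1
  have h2 : 0 < w c := w.pos h0
  exact (inv_le_inv₀ (norm_pos_iff.2 h0) h2).1 h1

private theorem r3b_prod (hR : RWd M R w) {r : ℕ} {e : Fin r → L} (he : ∀ i, e i ∈ R)
    (hw : ∀ i, w (e i) = ‖e i‖) (z : Fin r → ℤ) :
    ∏ i, e i ^ z i ∈ R ∧ w (∏ i, e i ^ z i) = ‖∏ i, e i ^ z i‖ := by
  constructor
  · refine Subring.prod_mem _ fun i _ => ?_
    rcases Int.eq_nat_or_neg (z i) with ⟨n, hn | hn⟩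
    · rw [hn, zpow_natCast]
      exact Subring.pow_mem _ (he i) _
    · rw [hn, zpow_neg, zpow_natCast, ← inv_pow]
      exact Subring.pow_mem _ (hR.inv _ (he i) (hw i)) _
  · rw [map_prod, norm_prod]
    refine Finset.prod_congr rfl fun i _ => ?_
    rw [map_zpow₀, norm_zpow, hw i]

private theorem r3b_mon (hR : RWd M R w) {r : ℕ} {e : Fin r → L} (he : ∀ i, e i ∈ R)
    (hw : ∀ i, w (e i) = ‖e i‖) (z : Fin r → ℤ) (c : k) :
    mon k e z c ∈ R ∧ w (mon k e z c) = ‖mon k e z c‖ := by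
  obtain ⟨h1, h2⟩ := r3b_prod hR he hw z
  have h3 : algebraMap k L c ∈ M := M.algebraMap_mem c
  unfold mon
  refine ⟨mul_mem (hR.M_le _ h3) h1, ?_⟩
  rw [map_mul, norm_mul, h2, r3b_wM hR h3]

end aux2

private theorem r3b_fine_mono {k L : Type*} [NormedField k] [IsUltrametricDist k]
    [NormedField L] [IsUltrametricDist L] [NormedAlgebra k L] {r : ℕ} {e : Fin r → L}
    {c : Fin r → k} {π : k} {δ δ' : ℝ} (h : Fine k e c π δ) (hδ : δ' ≤ δ) : Fine k e c π δ' :=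
  ⟨h.c_ne, h.π_ne, fun i => hδ.trans_lt (h.lo i), h.hi⟩

/-- R3b1.  Elements `x ∈ R`, `w x = ‖x‖`, are monomials times units of fine charts.  Proof.  Let `μ` be a monomial
with `‖μ‖ = ‖x‖` (`Cor.val`), `x' = x / μ ∈ R`, `w x' = 1`, `x' = a / b` with `a, b ∈ MBG k e G` of norm `1`
(`hloc`); for fine coordinates `a, b ∈ BG` (S1c), and if `‖x‖ ≤ 1` then `μ ∈ Tt ≤ BG` (S1b), so `x` is in
the local ring. -/
theorem munit_of_fine {k L : Type*} [NormedField k] [IsUltrametricDist k]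
    [NormedField L] [IsUltrametricDist L] [NormedAlgebra k L] {M : IntermediateField k L}
    {R : Subring L} {w : AbsoluteValue L ℝ} {r m : ℕ} {e : Fin r → L} {u : Fin m → L}
    {α h : L} (hR : RWd M R w) (hC : Cor k R w e u α h) {G : Finset L}
    (hG : ∀ g ∈ G, g ∈ R ∧ w g ≤ 1)
    (hloc : ∀ q ∈ R, w q ≤ 1 →
      ∃ a ∈ MBG k e (G : Set L), ∃ b ∈ MBG k e (G : Set L), ‖b‖ = 1 ∧ q = a / b)
    {x : L} (hx : x ∈ R) (hxw : w x = ‖x‖) (hx0 : x ≠ 0) :
    ∃ δ : ℝ, 0 < δ ∧ δ < 1 ∧ ∀ (c : Fin r → k) (π : k), Fine k e c π δ →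
      MUnit k e (BG k e c π (G : Set L)) x ∧ (‖x‖ ≤ 1 → Loc k (BG k e c π (G : Set L)) x) := by
  have hne := hC.eu.ne
  have hind := hC.eu.ind
  obtain ⟨z, c₀, hc₀, hxn⟩ := hC.val x hx hxw hx0
  have hμ0 : mon k e z c₀ ≠ 0 := r3b_mon_ne hne z hc₀
  obtain ⟨hμR, hμw⟩ := r3b_mon hR hC.e_mem hC.e_w z c₀
  have hμi : (mon k e z c₀)⁻¹ ∈ R := hR.inv _ hμR hμw
  have hx'w : w (x * (mon k e z c₀)⁻¹) = 1 := by
    rw [map_mul, map_inv₀, hμw, hxw, hxn]
    exact mul_inv_cancel₀ (norm_ne_zero_iff.2 hμ0)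
  have hx'n : ‖x * (mon k e z c₀)⁻¹‖ = 1 := by
    rw [norm_mul, norm_inv, hxn]
    exact mul_inv_cancel₀ (norm_ne_zero_iff.2 hμ0)
  obtain ⟨a, ha, b, hb, hbn, hab⟩ := hloc _ (mul_mem hx hμi) hx'w.le
  have han : ‖a‖ = 1 := by
    rw [hab, norm_div, hbn, div_one] at hx'n
    exact hx'n
  have hxe : x = mon k e z c₀ * (a / b) := by
    rw [← hab, mul_comm x, mul_inv_cancel_left₀ hμ0]
  obtain ⟨δ1, h1, h1', hδ1⟩ := mem_BG_of_mem_MBG hne hind ha
  obtain ⟨δ2, h2, h2', hδ2⟩ := mem_BG_of_mem_MBG hne hind hb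
  obtain ⟨δ3, h3', hδ3⟩ : ∃ δ : ℝ, δ < 1 ∧ ∀ (c : Fin r → k) (π : k), Fine k e c π δ →
      ‖x‖ ≤ 1 → mon k e z c₀ ∈ Tt k e c π := by
    by_cases hx1 : ‖x‖ ≤ 1
    · obtain ⟨δ, -, h', hδ⟩ := mon_mem_tor hne hind z c₀ (by rw [← hxn]; exact hx1)
      exact ⟨δ, h', fun c π hF _ => hδ c π hF⟩
    · exact ⟨0, one_pos, fun c π _ h => absurd h hx1⟩
  refine ⟨max δ1 (max δ2 δ3), lt_max_of_lt_left h1, max_lt h1' (max_lt h2' h3'), ?_⟩
  intro c π hF
  have ha' := hδ1 c π (r3b_fine_mono hF (le_max_left _ _))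
  have hb' := hδ2 c π (r3b_fine_mono hF ((le_max_left _ _).trans (le_max_right _ _)))
  have hμ' := hδ3 c π (r3b_fine_mono hF ((le_max_right _ _).trans (le_max_right _ _)))
  refine ⟨⟨z, c₀, hc₀, a, ha', b, hb', han, hbn, hxe⟩, fun hx1 => ?_⟩
  have hle : Tt k e c π ≤ BG k e c π (G : Set L) :=
    Algebra.adjoin_mono Set.subset_union_left
  refine ⟨mon k e z c₀ * a, mul_mem (hle (hμ' hx1)) ha', b, hb', hbn, ?_⟩
  rw [hxe, mul_div_assoc]

/-- products of monomials times units -/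
theorem MUnit.mul {k L : Type*} [NormedField k] [IsUltrametricDist k] [NormedField L]
    [IsUltrametricDist L] [NormedAlgebra k L] {r : ℕ} {e : Fin r → L} (hne : ∀ i, e i ≠ 0)
    {B : Subalgebra (O k) L} {x y : L} (hx : MUnit k e B x) (hy : MUnit k e B y) :
    MUnit k e B (x * y) := by
  obtain ⟨z, c, hc, a, ha, b, hb, hna, hnb, rfl⟩ := hx
  obtain ⟨z', c', hc', a', ha', b', hb', hna', hnb', rfl⟩ := hy
  refine ⟨z + z', c * c', mul_ne_zero hc hc', a * a', mul_mem ha ha', b * b', mul_mem hb hb',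
    ?_, ?_, ?_⟩
  · rw [norm_mul, hna, hna', one_mul]
  · rw [norm_mul, hnb, hnb', one_mul]
  · rw [← r3b_mon_mul hne, mul_div_mul_comm]
    ring

/-- R3b2.  If the generators of `B` are fractions of elements of `A` with denominators which are
monomials times units, so are all elements of `B` (adjoin induction; constants are in `A`, `1` is a monomial). -/
theorem denoms_adjoin {k L : Type*} [NormedField k] [IsUltrametricDist k] [NormedField L]
    [IsUltrametricDist L] [NormedAlgebra k L] {r : ℕ} {e : Fin r → L} (hne : ∀ i, e i ≠ 0)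
    (A : Subalgebra k L) (X : Set L) {B : Subalgebra (O k) L}
    (hB : B = Algebra.adjoin (O k) X)
    (hX : ∀ x ∈ X, ∃ n ∈ A, ∃ d ∈ A, MUnit k e B d ∧ x = n / d) :
    ∀ b ∈ B, ∃ n ∈ A, ∃ d ∈ A, MUnit k e B d ∧ b = n / d := by
  intro b hb
  rw [hB] at hb
  induction hb using Algebra.adjoin_induction with
  | mem x hx => exact hX x hx
  | algebraMap c =>
    refine ⟨algebraMap k L (c : k), A.algebraMap_mem _, 1, one_mem _, ?_, ?_⟩
    · refine ⟨0, 1, one_ne_zero, 1, one_mem _, 1, one_mem _, norm_one, norm_one, ?_⟩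
      rw [r3b_mon_one, div_one, mul_one]
    · rw [div_one]
      rfl
  | add x y _ _ hx hy =>
    obtain ⟨n, hn, d, hd, hdu, rfl⟩ := hx
    obtain ⟨n', hn', d', hd', hdu', rfl⟩ := hy
    refine ⟨n * d' + d * n', add_mem (mul_mem hn hd') (mul_mem hd hn'), d * d', mul_mem hd hd',
      MUnit.mul hne hdu hdu', ?_⟩
    exact div_add_div _ _ (r3b_ne hne hdu) (r3b_ne hne hdu')
  | mul x y _ _ hx hy =>
    obtain ⟨n, hn, d, hd, hdu, rfl⟩ := hx
    obtain ⟨n', hn', d', hd', hdu', rfl⟩ := hy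
    exact ⟨n * n', mul_mem hn hn', d * d', mul_mem hd hd', MUnit.mul hne hdu hdu',
      div_mul_div_comm _ _ _ _⟩

end DA
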