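import Pool.Agent.Lib.DA.F1
import Pool.Agent.Lib.DA.R3b

/-!
# Module F2: lifting charts to finite separable extensions
-/

namespace DA

open Polynomial MP1a953e

section lift

variable {k L : Type*} [NormedField k] [IsUltrametricDist k] [NormedField L]
  [IsUltrametricDist L] [NormedAlgebra k L] {N : IntermediateField k L} {r m : ℕ}

/-- the inclusion of `N` -/
private noncomputable def inc (N : IntermediateField k L) : N →ₐ[O k] L where
  toFun x := x
  map_one' := rfl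
  map_mul' _ _ := rfl
  map_zero' := rfl
  map_add' _ _ := rfl
  commutes' _ := rfl

private theorem inc_apply (x : N) : inc N x = (x : L) := rfl

private theorem coe_norm (x : N) : ‖(x : L)‖ = ‖x‖ := rfl

private theorem alg_coe (c : k) : ((algebraMap k N c : N) : L) = algebraMap k L c := rfl

private theorem tor_coe (e : Fin r → N) (c : Fin r → k) (π : k) (i : Fin (r + 1)) :
    tor k (fun i => (e i : L)) c π i = ((tor k e c π i : N) : L) := by
  refine Fin.cases ?_ (fun i => ?_) i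
  · show algebraMap k L π * ∏ i, (algebraMap k L (c i) / (e i : L)) =
      ((algebraMap k N π * ∏ i, (algebraMap k N (c i) / e i) : N) : L)
    push_cast
    rfl
  · rfl

private theorem mon_coe (e : Fin r → N) (z : Fin r → ℤ) (c : k) :
    mon k (fun i => (e i : L)) z c = ((mon k e z c : N) : L) := by
  show algebraMap k L c * ∏ i, (e i : L) ^ z i = ((algebraMap k N c * ∏ i, e i ^ z i : N) : L)
  push_cast
  rfl

private theorem Pt_coe (e : Fin r → N) (c : Fin r → k) (π : k) (u : Fin m → N) (α : N) {x : N}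
    (hx : x ∈ Pt k e c π u α) :
    (x : L) ∈ Pt k (fun i => (e i : L)) c π (fun i => (u i : L)) (α : L) := by
  have h : Pt k e c π u α ≤
      (Pt k (fun i => (e i : L)) c π (fun i => (u i : L)) (α : L)).comap (inc N) := by
    refine Algebra.adjoin_le ?_
    rintro _ (⟨i, rfl⟩ | ⟨i, rfl⟩ | rfl)
    · refine Algebra.subset_adjoin (Or.inl ⟨i, tor_coe e c π i⟩)
    · exact Algebra.subset_adjoin (Or.inr (Or.inl ⟨i, rfl⟩))
    · exact Algebra.subset_adjoin (Or.inr (Or.inr rfl))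
  exact h hx

omit [IsUltrametricDist k] [IsUltrametricDist L] in
private theorem eu_coe {e : Fin r → N} {u : Fin m → N} (h : EU k e u) :
    EU k (fun i => (e i : L)) (fun i => (u i : L)) where
  ne i := by
    intro h0
    exact h.ne i (Subtype.ext h0)
  ind z c hc := by
    refine h.ind z c ?_
    rw [hc]
    have : (∏ i, (e i : L) ^ z i) = ((∏ i, e i ^ z i : N) : L) := by push_cast; rfl
    rw [this]
    rfl
  norm_u := h.norm_u
  gauss P s := by
    refine (h.gauss P s).trans (le_of_eq ?_)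
    have : MvPolynomial.aeval (fun i => (u i : L)) P = ((MvPolynomial.aeval u P : N) : L) := by
      have := MvPolynomial.comp_aeval_apply (f := u) N.val P
      exact this.symm
    rw [this]
    rfl

omit [IsUltrametricDist k] [IsUltrametricDist L] in
private theorem trans_coe {e : Fin r → N} {u : Fin m → N} {α : N}
    (h : Transcendental (keu k e u) α) :
    Transcendental (keu k (fun i => (e i : L)) (fun i => (u i : L))) (α : L) := by
  have h1 : keu k (fun i => (e i : L)) (fun i => (u i : L)) = (keu k e u).map N.val := by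
    unfold keu
    rw [IntermediateField.adjoin_map, Set.image_union, ← Set.range_comp, ← Set.range_comp]
    rfl
  rw [h1]
  exact (transcendental_ringHom_iff_of_comp_eq
    ((keu k e u).equivMap N.val : keu k e u ≃+* (keu k e u).map N.val) N.val
    N.val.injective rfl).2 h


private theorem add_lt {x y : L} (hx : ‖x‖ < 1) (hy : ‖y‖ < 1) : ‖x + y‖ < 1 :=
  lt_of_le_of_lt (IsUltrametricDist.norm_add_le_max x y) (max_lt hx hy)

private theorem mul_lt {x y : L} (hx : ‖x‖ ≤ 1) (hy : ‖y‖ < 1) : ‖x * y‖ < 1 := by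
  rw [norm_mul]
  calc ‖x‖ * ‖y‖ ≤ 1 * ‖y‖ := mul_le_mul_of_nonneg_right hx (norm_nonneg _)
    _ < 1 := by rw [one_mul]; exact hy

private theorem mul_le' {x y : L} (hx : ‖x‖ ≤ 1) (hy : ‖y‖ ≤ 1) : ‖x * y‖ ≤ 1 := by
  rw [norm_mul]
  exact mul_le_one₀ hx (norm_nonneg _) hy

private theorem one_add_norm {x : L} (hx : ‖x‖ < 1) : ‖1 + x‖ = 1 := by
  have h := IsUltrametricDist.norm_add_eq_max_of_norm_ne_norm (x := (1 : L)) (y := x)
    (by rw [norm_one]; exact hx.ne')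
  rw [h, norm_one, max_eq_left hx.le]

private theorem sum_lt {ι : Type} (s : Finset ι) (f : ι → L) (hf : ∀ i, ‖f i‖ < 1) :
    ‖∑ i ∈ s, f i‖ < 1 := by
  classical
  induction s using Finset.induction_on with
  | empty => simp
  | insert a s ha ih => rw [Finset.sum_insert ha]; exact add_lt (hf a) ih

/-- combinations of elements of the maximal ideal of `P` -/
private def Ksm (P B : Subalgebra (O k) L) (z : L) : Prop :=
  ∃ (n : ℕ) (x y : Fin n → L), (∀ i, x i ∈ P ∧ ‖x i‖ < 1 ∧ y i ∈ B) ∧ z = ∑ i, x i * y i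

private theorem Ksm.add {P B : Subalgebra (O k) L} {z z' : L} (h : Ksm P B z) (h' : Ksm P B z') :
    Ksm P B (z + z') := by
  obtain ⟨n, x, y, hxy, rfl⟩ := h
  obtain ⟨n', x', y', hxy', rfl⟩ := h'
  refine ⟨n + n', Fin.append x x', Fin.append y y', fun i => ?_, ?_⟩
  · refine Fin.addCases (fun i => ?_) (fun i => ?_) i
    · rw [Fin.append_left, Fin.append_left]; exact hxy i
    · rw [Fin.append_right, Fin.append_right]; exact hxy' i
  · rw [Fin.sum_univ_add]
    simp only [Fin.append_left, Fin.append_right]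

private theorem Ksm.mul {P B : Subalgebra (O k) L} {z b : L} (h : Ksm P B z) (hb : b ∈ B) :
    Ksm P B (b * z) := by
  obtain ⟨n, x, y, hxy, rfl⟩ := h
  refine ⟨n, x, fun i => b * y i, fun i => ⟨(hxy i).1, (hxy i).2.1, B.mul_mem hb (hxy i).2.2⟩, ?_⟩
  rw [Finset.mul_sum]
  exact Finset.sum_congr rfl fun i _ => by ring

end lift

/-- F2a.  The chart `B₀` of `N` and `y` give the chart `B` of `L`: here `b ∈ B₀`, `‖b‖ = 1`, the `q i` are in
`B₀[1/b]`, and `B` is the `O k`-algebra generated by the images of `B₀`, `1/b` and `y`.  Proof.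
`norm_le`: clear (`‖1/b‖ = 1`, `‖y‖ < 1`). `res`: every element of `B` is, modulo elements of norm `< 1`, of
the form `a / b ^ j`, `a ∈ B₀`; use `res` of `B₀` for `a` and `b ^ j`. `unr`: let
`s₁ = 1 + ∑_{i ≥ 2} q i y ^ (i-1) ∈ B`, `‖s₁‖ = 1`, `s₁ y = - q 0`, `q 0 = a' / b ^ j`, `a' ∈ B₀`, `‖a'‖ < 1`: by
`unr` for `B₀`, `s' a' = ∑ x i y i`, so `s' b ^ j s₁ y` is of the required form; for a general `x ∈ B`,
`‖x‖ < 1`: `x = x₀ + y x₁`, `x₀ = a'' / b ^ l`, `a'' ∈ B₀`, `‖a''‖ < 1`, `x₁ ∈ B`. `eu`, `trans`: transport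
along `N → L` (isometric; `N` and `L` are fields, `α` transcendental over `k(e, u)`). -/
theorem cht_lift {k L : Type*} [NormedField k] [IsUltrametricDist k]
    [NormedField L] [IsUltrametricDist L] [NormedAlgebra k L] {N : IntermediateField k L}
    {r m : ℕ} {e : Fin r → N} {c : Fin r → k} {π : k} {u : Fin m → N} {α : N}
    {B₀ : Subalgebra (O k) N} (h : Cht k e c π u α B₀) {b : N} (hb : b ∈ B₀) (hb1 : ‖b‖ = 1)
    {y : L} (hy : ‖y‖ < 1) {D : ℕ} {q : ℕ → N} (hq1 : ∀ i, ‖q i‖ < 1)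
    (hq : ∀ i ≤ D, ∃ (j : ℕ), b ^ j * q i ∈ B₀)
    (hyq : y = - (q 0 : L) - ∑ i ∈ Finset.Icc 2 D, (q i : L) * y ^ i) :
    Cht k (fun i => (e i : L)) c π (fun i => (u i : L)) (α : L)
      (Algebra.adjoin (O k) ((fun x : N => (x : L)) '' (B₀ : Set N) ∪ {(b : L)⁻¹, y})) := by
  classical
  obtain ⟨B, hB⟩ : ∃ B : Subalgebra (O k) L, B = Algebra.adjoin (O k)
    ((fun x : N => (x : L)) '' (B₀ : Set N) ∪ {(b : L)⁻¹, y}) := ⟨_, rfl⟩
  rw [← hB]
  have hbL : ‖(b : L)‖ = 1 := hb1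
  have hb0 : (b : L) ≠ 0 := by
    intro h0; rw [h0, norm_zero] at hbL; exact zero_ne_one hbL
  have hB₀ : ∀ x ∈ B₀, (x : L) ∈ B := by
    intro x hx
    rw [hB]
    exact Algebra.subset_adjoin (Or.inl ⟨x, hx, rfl⟩)
  have hbB : (b : L) ∈ B := hB₀ b hb
  have hbi : (b : L)⁻¹ ∈ B := by
    rw [hB]; exact Algebra.subset_adjoin (Or.inr (Or.inl rfl))
  have hyB : y ∈ B := by
    rw [hB]; exact Algebra.subset_adjoin (Or.inr (Or.inr rfl))
  have hnorm : ∀ x ∈ B, ‖x‖ ≤ 1 := by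
    intro x hx
    rw [hB] at hx
    induction hx using Algebra.adjoin_induction with
    | mem x hx =>
      rcases hx with ⟨x, hx, rfl⟩ | rfl | rfl
      · exact h.norm_le x hx
      · rw [norm_inv, hbL, inv_one]
      · exact hy.le
    | algebraMap c =>
      have h1 : ‖algebraMap (O k) L c‖ = ‖(c : k)‖ := norm_algebraMap' L (c : k)
      rw [h1]
      exact mem_O.1 c.2
    | add x y _ _ h1 h2 =>
      exact (IsUltrametricDist.norm_add_le_max x y).trans (max_le h1 h2)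
    | mul x y _ _ h1 h2 => exact mul_le' h1 h2
  -- decomposition
  have hD : ∀ x ∈ B, ∃ a ∈ B₀, ∃ j : ℕ, ∃ x₁ ∈ B, (b : L) ^ j * x = (a : L) + y * x₁ := by
    intro x hx
    rw [hB] at hx
    induction hx using Algebra.adjoin_induction with
    | mem x hx =>
      rcases hx with ⟨x, hx, rfl⟩ | rfl | rfl
      · exact ⟨x, hx, 0, 0, B.zero_mem, by simp⟩
      · exact ⟨1, B₀.one_mem, 1, 0, B.zero_mem, by rw [pow_one, mul_inv_cancel₀ hb0]; simp⟩
      · exact ⟨0, B₀.zero_mem, 0, 1, B.one_mem, by simp⟩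
    | algebraMap c =>
      exact ⟨algebraMap (O k) N c, B₀.algebraMap_mem c, 0, 0, B.zero_mem, by
        rw [pow_zero, one_mul, mul_zero, add_zero]; rfl⟩
    | add x x' _ _ h1 h2 =>
      obtain ⟨a, ha, j, x₁, hx₁, e1⟩ := h1
      obtain ⟨a', ha', j', x₁', hx₁', e1'⟩ := h2
      refine ⟨b ^ j' * a + b ^ j * a', B₀.add_mem (B₀.mul_mem (B₀.pow_mem hb _) ha)
        (B₀.mul_mem (B₀.pow_mem hb _) ha'), j + j', (b : L) ^ j' * x₁ + (b : L) ^ j * x₁',
        B.add_mem (B.mul_mem (B.pow_mem hbB _) hx₁) (B.mul_mem (B.pow_mem hbB _) hx₁'), ?_⟩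
      push_cast
      calc (b : L) ^ (j + j') * (x + x') = (b : L) ^ j' * ((b : L) ^ j * x) +
            (b : L) ^ j * ((b : L) ^ j' * x') := by ring
        _ = _ := by rw [e1, e1']; ring
    | mul x x' _ _ h1 h2 =>
      obtain ⟨a, ha, j, x₁, hx₁, e1⟩ := h1
      obtain ⟨a', ha', j', x₁', hx₁', e1'⟩ := h2
      refine ⟨a * a', B₀.mul_mem ha ha', j + j', (a : L) * x₁' + x₁ * (a' : L) + y * (x₁ * x₁'),
        B.add_mem (B.add_mem (B.mul_mem (hB₀ a ha) hx₁') (B.mul_mem hx₁ (hB₀ a' ha')))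
        (B.mul_mem hyB (B.mul_mem hx₁ hx₁')), ?_⟩
      push_cast
      calc (b : L) ^ (j + j') * (x * x') = ((b : L) ^ j * x) * ((b : L) ^ j' * x') := by ring
        _ = _ := by rw [e1, e1']; ring
  refine ⟨eu_coe h.eu, trans_coe h.trans, h.c_ne, h.π_ne, ?_, ?_, ?_, hnorm, ?_, ?_⟩
  · intro i
    rw [tor_coe]
    exact h.t_lt i
  · refine Algebra.adjoin_le ?_
    rintro _ (⟨i, rfl⟩ | ⟨i, rfl⟩ | rfl)
    · rw [tor_coe]
      exact hB₀ _ (h.le (Algebra.subset_adjoin (Or.inl ⟨i, rfl⟩)))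
    · exact hB₀ _ (h.le (Algebra.subset_adjoin (Or.inr (Or.inl ⟨i, rfl⟩))))
    · exact hB₀ _ (h.le (Algebra.subset_adjoin (Or.inr (Or.inr rfl))))
  · have e1 : B = B₀.map (inc N) ⊔ Algebra.adjoin (O k) (({(b : L)⁻¹, y} : Finset L) : Set L) := by
      rw [hB, Algebra.adjoin_union]
      congr 1
      · have : (fun x : N => (x : L)) '' (B₀ : Set N) = ((B₀.map (inc N) : Subalgebra (O k) L) :
          Set L) := rfl
        rw [this, Algebra.adjoin_eq]
      · push_cast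
        rfl
    rw [e1]
    exact (h.fg.map _).sup (Subalgebra.fg_adjoin_finset _)
  · intro x hx
    obtain ⟨a, ha, j, x₁, hx₁, e1⟩ := hD x hx
    obtain ⟨p, hp, s, hs, hs1, hsp⟩ := h.res a ha
    obtain ⟨p', hp', s', hs', hs1', hsp'⟩ := h.res (b ^ j) (B₀.pow_mem hb j)
    have hs1L : ‖(s : L)‖ = 1 := hs1
    have hs1L' : ‖(s' : L)‖ = 1 := hs1'
    have hspL : ‖(s : L) * (a : L) - (p : L)‖ < 1 := hsp
    have hspL' : ‖(s' : L) * (b : L) ^ j - (p' : L)‖ < 1 := by
      have e2 : (s' : L) * (b : L) ^ j - (p' : L) = ((s' * b ^ j - p' : N) : L) := by push_cast; rfl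
      rw [e2]; exact hsp'
    have hp1' : ‖(p' : L)‖ = 1 := by
      have e2 : (p' : L) = (s' : L) * (b : L) ^ j + -((s' : L) * (b : L) ^ j - (p' : L)) := by ring
      have e3 : ‖(s' : L) * (b : L) ^ j‖ = 1 := by rw [norm_mul, norm_pow, hs1L', hbL]; simp
      have e4 := IsUltrametricDist.norm_add_eq_max_of_norm_ne_norm
        (x := (s' : L) * (b : L) ^ j) (y := -((s' : L) * (b : L) ^ j - (p' : L)))
        (by rw [e3, norm_neg]; exact hspL'.ne')
      rw [e2, e4, e3, norm_neg, max_eq_left hspL'.le]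
    refine ⟨(s' * p : N), Pt_coe e c π u α (Subalgebra.mul_mem _ hs' hp), (s * p' : N),
      Pt_coe e c π u α (Subalgebra.mul_mem _ hs hp'), ?_, ?_⟩
    · push_cast
      rw [norm_mul, hs1L, hp1', one_mul]
    · push_cast
      have e5 : (s : L) * (p' : L) * x - (s' : L) * (p : L) =
          (s : L) * x * (-((s' : L) * (b : L) ^ j - (p' : L))) + ((s' : L) *
            ((s : L) * (a : L) - (p : L)) + (s' : L) * (s : L) * x₁ * y) := by
        have e6 : (s : L) * (s' : L) * ((b : L) ^ j * x) =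
          (s : L) * (s' : L) * ((a : L) + y * x₁) := by rw [e1]
        linear_combination e6
      rw [e5]
      refine add_lt (mul_lt (mul_le' hs1L.le (hnorm x hx)) (by rw [norm_neg]; exact hspL'))
        (add_lt (mul_lt hs1L'.le hspL) (mul_lt (mul_le' (mul_le' hs1L'.le hs1L.le)
          (hnorm x₁ hx₁)) hy))
  · intro x hx hx1
    obtain ⟨a, ha, j, x₁, hx₁, e1⟩ := hD x hx
    have hbj : ∀ n : ℕ, ‖(b : L) ^ n‖ = 1 := fun n => by rw [norm_pow, hbL, one_pow]
    have ha1 : ‖a‖ < 1 := by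
      have e2 : (a : L) = (b : L) ^ j * x + -(x₁ * y) := by rw [e1]; ring
      show ‖(a : L)‖ < 1
      rw [e2]
      exact add_lt (mul_lt (hbj j).le hx1) (by rw [norm_neg]; exact mul_lt (hnorm x₁ hx₁) hy)
    -- transport of the condition
    have htr : ∀ z ∈ B₀, ‖z‖ < 1 → ∃ s ∈ B₀, ‖(s : L)‖ = 1 ∧
        Ksm (Pt k (fun i => (e i : L)) c π (fun i => (u i : L)) (α : L)) B ((s : L) * (z : L)) := by
      intro z hz hz1
      obtain ⟨s, hs, hs1, n, X, Y, hXY, hsum⟩ := h.unr z hz hz1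
      refine ⟨s, hs, hs1, n, fun i => (X i : L), fun i => (Y i : L), fun i =>
        ⟨Pt_coe e c π u α (hXY i).1, (hXY i).2.1, hB₀ _ (hXY i).2.2⟩, ?_⟩
      have := congrArg (fun t : N => (t : L)) hsum
      push_cast at this
      exact this
    obtain ⟨s, hs, hs1, hK⟩ := htr a ha ha1
    obtain ⟨j₀, hj₀⟩ := hq 0 (Nat.zero_le _)
    have hq0 : ‖b ^ j₀ * q 0‖ < 1 := by
      rw [norm_mul, norm_pow, hb1, one_pow, one_mul]
      exact hq1 0
    obtain ⟨s', hs', hs1', hK'⟩ := htr _ hj₀ hq0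
    obtain ⟨s₁, hs₁⟩ : ∃ s₁ : L, s₁ = 1 + ∑ i ∈ Finset.Icc 2 D, (q i : L) * y ^ (i - 1) := ⟨_, rfl⟩
    have hs₁1 : ‖s₁‖ = 1 := by
      rw [hs₁]
      refine one_add_norm (sum_lt _ _ fun i => ?_)
      rw [mul_comm]
      refine mul_lt ?_ (hq1 i)
      rw [norm_pow]
      exact pow_le_one₀ (norm_nonneg _) hy.le
    have hs₁B : s₁ ∈ B := by
      rw [hs₁]
      refine B.add_mem B.one_mem (B.sum_mem fun i hi => B.mul_mem ?_ (B.pow_mem hyB _))
      obtain ⟨l, hl⟩ := hq i (Finset.mem_Icc.1 hi).2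
      have e2 : (q i : L) = (b : L)⁻¹ ^ l * ((b ^ l * q i : N) : L) := by
        push_cast
        rw [← mul_assoc, ← mul_pow, inv_mul_cancel₀ hb0, one_pow, one_mul]
      rw [e2]
      exact B.mul_mem (B.pow_mem hbi _) (hB₀ _ hl)
    have hys : y * s₁ = -(q 0 : L) := by
      have e2 : y * s₁ = y + ∑ i ∈ Finset.Icc 2 D, (q i : L) * y ^ i := by
        rw [hs₁, mul_add, mul_one, Finset.mul_sum]
        congr 1
        refine Finset.sum_congr rfl fun i hi => ?_
        obtain ⟨l, rfl⟩ : ∃ l, i = l + 1 := ⟨i - 1, by have := (Finset.mem_Icc.1 hi).1; omega⟩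
        rw [Nat.add_sub_cancel, pow_succ]
        ring
      rw [e2]
      linear_combination hyq
    refine ⟨(s : L) * (s' : L) * (b : L) ^ j₀ * s₁ * (b : L) ^ j, ?_, ?_, ?_⟩
    · exact B.mul_mem (B.mul_mem (B.mul_mem (B.mul_mem (hB₀ _ hs) (hB₀ _ hs'))
        (B.pow_mem hbB _)) hs₁B) (B.pow_mem hbB _)
    · rw [norm_mul, norm_mul, norm_mul, norm_mul, hs1, hs1', hbj, hbj, hs₁1]
      norm_num
    · have e3 : (s : L) * (s' : L) * (b : L) ^ j₀ * s₁ * (b : L) ^ j * x =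
          ((s' : L) * (b : L) ^ j₀ * s₁) * ((s : L) * (a : L)) +
            (-((s : L) * x₁)) * ((s' : L) * ((b ^ j₀ * q 0 : N) : L)) := by
        push_cast
        calc (s : L) * (s' : L) * (b : L) ^ j₀ * s₁ * (b : L) ^ j * x =
            (s : L) * (s' : L) * (b : L) ^ j₀ * s₁ * ((b : L) ^ j * x) := by ring
          _ = (s : L) * (s' : L) * (b : L) ^ j₀ * s₁ * (a : L) +
              (s : L) * (s' : L) * (b : L) ^ j₀ * x₁ * (y * s₁) := by rw [e1]; ring
          _ = _ := by rw [hys]; ring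
      rw [e3]
      exact (hK.mul (B.mul_mem (B.mul_mem (hB₀ _ hs') (B.pow_mem hbB _)) hs₁B)).add
        (hK'.mul (B.neg_mem (B.mul_mem (hB₀ _ hs) hx₁)))


section munit

variable {k L : Type*} [NormedField k] [IsUltrametricDist k] [NormedField L]
  [IsUltrametricDist L] [NormedAlgebra k L] {r : ℕ}

private theorem munit_one {e : Fin r → L} {B : Subalgebra (O k) L} {x : L} (hx : x ∈ B)
    (hx1 : ‖x‖ = 1) : MUnit k e B x := by
  refine ⟨0, 1, one_ne_zero, x, hx, 1, B.one_mem, hx1, norm_one, ?_⟩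
  unfold mon
  simp

private theorem munit_const {e : Fin r → L} {B : Subalgebra (O k) L} {c : k} (hc : c ≠ 0) :
    MUnit k e B (algebraMap k L c) := by
  refine ⟨0, c, hc, 1, B.one_mem, 1, B.one_mem, norm_one, norm_one, ?_⟩
  unfold mon
  simp

private theorem munit_pow {e : Fin r → L} (hne : ∀ i, e i ≠ 0) {B : Subalgebra (O k) L} {x : L}
    (hx : MUnit k e B x) (n : ℕ) : MUnit k e B (x ^ n) := by
  induction n with
  | zero => rw [pow_zero]; exact munit_one B.one_mem norm_one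
  | succ n ih => rw [pow_succ]; exact MUnit.mul hne ih hx

private theorem munit_coe {N : IntermediateField k L} {e : Fin r → N} {B₀ : Subalgebra (O k) N}
    {B : Subalgebra (O k) L} (hB : ∀ x ∈ B₀, (x : L) ∈ B) {x : N} (hx : MUnit k e B₀ x) :
    MUnit k (fun i => (e i : L)) B (x : L) := by
  obtain ⟨z, c, hc, a, ha, b, hb, ha1, hb1, rfl⟩ := hx
  refine ⟨z, c, hc, a, hB a ha, b, hB b hb, ha1, hb1, ?_⟩
  rw [mon_coe]
  push_cast
  rfl

private theorem loc_coe {N : IntermediateField k L} {B₀ : Subalgebra (O k) N}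
    {B : Subalgebra (O k) L} (hB : ∀ x ∈ B₀, (x : L) ∈ B) {x : N} (hx : Loc k B₀ x) :
    Loc k B (x : L) := by
  obtain ⟨a, ha, b, hb, hb1, rfl⟩ := hx
  refine ⟨a, hB a ha, b, hB b hb, hb1, ?_⟩
  push_cast
  rfl

/-- a common denominator -/
private theorem common_den {B : Subalgebra (O k) L} (X : Finset L) (hX : ∀ x ∈ X, Loc k B x) :
    ∃ b ∈ B, ‖b‖ = 1 ∧ ∀ x ∈ X, b * x ∈ B := by
  classical
  induction X using Finset.induction_on with
  | empty => exact ⟨1, B.one_mem, norm_one, by simp⟩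
  | insert x X _ ih =>
    obtain ⟨b, hb, hb1, hbX⟩ := ih fun x hx => hX x (Finset.mem_insert_of_mem hx)
    obtain ⟨a, ha, b', hb', hb1', rfl⟩ := hX x (Finset.mem_insert_self _ _)
    have hb0' : b' ≠ 0 := by
      intro h0; rw [h0, norm_zero] at hb1'; exact zero_ne_one hb1'
    refine ⟨b * b', B.mul_mem hb hb', by rw [norm_mul, hb1, hb1', one_mul], ?_⟩
    intro z hz
    rcases Finset.mem_insert.1 hz with rfl | hz
    · have : b * b' * (a / b') = b * a := by field_simp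
      rw [this]
      exact B.mul_mem hb ha
    · have : b * b' * z = b' * (b * z) := by ring
      rw [this]
      exact B.mul_mem hb' (hbX z hz)

end munit

/-- F2.  Proof.  Let `A, S` be as in `Chts` for `L`. Let `A_N ≤ N` be the `k`-algebra generated by finitely many
field generators of `N` (`hN`), and `y₀` a primitive element of `L / N`. Choose `a₀ ∈ A`, `a₀ ≠ 0`, such that
the generators of `A_N` and `y₀` are fractions `a / a₀`, `a ∈ A`. Apply `exists_newton` to `y₀` and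
`S₁ = S ∪ {a₀}`. Write `n = n₁ / n₂`, `n₁, n₂ ∈ A_N`. Let `S_N` be the finite set of the nonzero elements among
`n₂`, `q i`, `s₀`, `ρ i` (`i ≤ D`, `s ∈ S₁`), as elements of `N`. Let `e, c, π, u, α, B₀` be the chart of
`N` for `A_N, S_N`, and `b ∈ B₀`, `‖b‖ = 1`, a common denominator of the elements of `S_N` of norm
`≤ 1` (`Loc`). `B` as in F2a. `MUnit` for `s ∈ S₁`: `s = s₀ (1 + ∑ ρ i y ^ i)`, `s₀` is a monomial times a unit
of `B₀`, the second factor is in `B` and has norm `1`. If `‖s‖ ≤ 1` then `‖s₀‖ ≤ 1` and `s₀` is in the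
local ring. Denominators (`denoms_adjoin`): an element of `B₀` is `n' / d'` with `n', d' ∈ A_N`, `d'` a
monomial times a unit; `n' a₀ ^ j, d' a₀ ^ j ∈ A` for large `j`, and `a₀` is a monomial times a unit of
`B`; for `1 / b`: `b = n' / d'` and `n' = b d'` is a monomial times a unit; for `y = (y₀ - n) / κ`:
`y₀ = a / a₀`, `n = n₁ / n₂`, `n₂` is a monomial times a unit. -/
theorem charts_lift {k L : Type*} [NontriviallyNormedField k] [IsUltrametricDist k]
    [NormedField L] [IsUltrametricDist L] [NormedAlgebra k L] (N : IntermediateField k L)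
    [Algebra.IsSeparable N L] [FiniteDimensional N L]
    (hd : ∀ x : L, ∀ ε : ℝ, 0 < ε → ∃ y ∈ N, ‖x - y‖ < ε) (hN : (⊤ : IntermediateField k N).FG)
    {r m : ℕ} (h : Chts k N r m) : Chts k L r m := by
  classical
  intro A hA S hS
  obtain ⟨y₀, hy₀⟩ := Field.exists_primitive_element N L
  obtain ⟨g, hg⟩ := hN
  obtain ⟨AN, hAN⟩ : ∃ AN : Subalgebra k N, AN = Algebra.adjoin k (g : Set N) := ⟨_, rfl⟩
  have hfrac : ∀ x : N, ∃ a ∈ AN, ∃ b ∈ AN, b ≠ 0 ∧ x = a / b := by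
    intro x
    have hx : x ∈ IntermediateField.adjoin k (g : Set N) := by
      rw [hg]; exact IntermediateField.mem_top
    obtain ⟨a, ha, b, hb, hab⟩ := IntermediateField.mem_adjoin_iff_div.1 hx
    rw [← hAN] at ha hb
    by_cases hb0 : b = 0
    · refine ⟨0, AN.zero_mem, 1, AN.one_mem, one_ne_zero, ?_⟩
      rw [hab, hb0, div_zero, zero_div]
    · exact ⟨a, ha, b, hb, hb0, hab⟩
  -- common denominators in `A`
  have hden : ∀ X : Finset L, ∃ a₀ ∈ A, a₀ ≠ 0 ∧ ∀ x ∈ X, a₀ * x ∈ A := by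
    intro X
    induction X using Finset.induction_on with
    | empty => exact ⟨1, A.one_mem, one_ne_zero, by simp⟩
    | insert x X _ ih =>
      obtain ⟨a₀, h1, h2, h3⟩ := ih
      obtain ⟨a, ha, b, hb, hb0, rfl⟩ := hA x
      refine ⟨a₀ * b, A.mul_mem h1 hb, mul_ne_zero h2 hb0, ?_⟩
      intro z hz
      rcases Finset.mem_insert.1 hz with rfl | hz
      · have : a₀ * b * (a / b) = a₀ * a := by field_simp
        rw [this]
        exact A.mul_mem h1 ha
      · have : a₀ * b * z = b * (a₀ * z) := by ring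
        rw [this]
        exact A.mul_mem hb (h3 z hz)
  obtain ⟨a₀, ha₀, ha₀0, hgen⟩ := hden (insert y₀ (g.image fun x : N => (x : L)))
  have hAN' : ∀ t ∈ AN, ∃ j : ℕ, a₀ ^ j * (t : L) ∈ A := by
    intro t ht
    rw [hAN] at ht
    induction ht using Algebra.adjoin_induction with
    | mem t ht =>
      exact ⟨1, by
        rw [pow_one]
        exact hgen _ (Finset.mem_insert_of_mem (Finset.mem_image_of_mem _ ht))⟩
    | algebraMap c =>
      exact ⟨0, by
        rw [pow_zero, one_mul]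
        exact A.algebraMap_mem c⟩
    | add t t' _ _ h1 h2 =>
      obtain ⟨j, hj⟩ := h1
      obtain ⟨j', hj'⟩ := h2
      refine ⟨j + j', ?_⟩
      have : a₀ ^ (j + j') * ((t + t' : N) : L) = a₀ ^ j' * (a₀ ^ j * (t : L)) +
          a₀ ^ j * (a₀ ^ j' * (t' : L)) := by push_cast; ring
      rw [this]
      exact A.add_mem (A.mul_mem (A.pow_mem ha₀ _) hj) (A.mul_mem (A.pow_mem ha₀ _) hj')
    | mul t t' _ _ h1 h2 =>
      obtain ⟨j, hj⟩ := h1
      obtain ⟨j', hj'⟩ := h2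
      refine ⟨j + j', ?_⟩
      have : a₀ ^ (j + j') * ((t * t' : N) : L) = (a₀ ^ j * (t : L)) *
          (a₀ ^ j' * (t' : L)) := by push_cast; ring
      rw [this]
      exact A.mul_mem hj hj'
  have hS₁ : ∀ x ∈ insert a₀ S, x ≠ 0 := by
    intro x hx
    rcases Finset.mem_insert.1 hx with rfl | hx
    · exact ha₀0
    · exact hS x hx
  obtain ⟨y, n, κ, D, q, hκ, hn, hy, hy1, hq, hyq, hs⟩ := exists_newton N hd hy₀ (insert a₀ S) hS₁
  have hs' : ∀ s : L, ∃ (s₀ : N) (ρ : ℕ → N), s ∈ insert a₀ S → s₀ ≠ 0 ∧ (∀ i, ‖ρ i‖ < 1) ∧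
      s = (s₀ : L) * (1 + ∑ i ∈ Finset.range (D + 1), (ρ i : L) * y ^ i) := by
    intro s
    by_cases hsS : s ∈ insert a₀ S
    · obtain ⟨s₀, hs₀, hs₀0, ρ, hρ, he⟩ := hs s hsS
      exact ⟨⟨s₀, hs₀⟩, fun i => ⟨ρ i, (hρ i).1⟩, fun _ =>
        ⟨fun h0 => hs₀0 (congrArg Subtype.val h0), fun i => (hρ i).2, he⟩⟩
    · exact ⟨0, fun _ => 0, fun h' => absurd h' hsS⟩
  choose sN ρN hsN using hs'
  obtain ⟨n₁, hn₁, n₂, hn₂, hn₂0, hnn⟩ := hfrac ⟨n, hn⟩
  obtain ⟨qN, hqN⟩ : ∃ qN : ℕ → N, ∀ i, (qN i : L) = q i := ⟨fun i => ⟨q i, (hq i).1⟩, fun _ => rfl⟩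
  have hqN1 : ∀ i, ‖qN i‖ < 1 := by
    intro i
    show ‖(qN i : L)‖ < 1
    rw [hqN]; exact (hq i).2
  obtain ⟨SN, hSN⟩ : ∃ SN : Finset N, SN = (insert n₂ ((Finset.range (D + 1)).image qN ∪
    ((insert a₀ S).image sN ∪ ((insert a₀ S) ×ˢ (Finset.range (D + 1))).image
      (fun p => ρN p.1 p.2)))).filter (fun x => x ≠ 0) := ⟨_, rfl⟩
  obtain ⟨e, c, π, u, α, B₀, hC, hSNc, hden₀⟩ := h AN hfrac SN (fun x hx => by
    rw [hSN] at hx; exact (Finset.mem_filter.1 hx).2)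
  have hm_n₂ : n₂ ∈ SN := by
    rw [hSN]
    exact Finset.mem_filter.2 ⟨Finset.mem_insert_self _ _, hn₂0⟩
  have hm_q : ∀ i ≤ D, qN i ≠ 0 → qN i ∈ SN := by
    intro i hi h0
    rw [hSN]
    exact Finset.mem_filter.2 ⟨Finset.mem_insert_of_mem (Finset.mem_union_left _
      (Finset.mem_image_of_mem _ (Finset.mem_range.2 (by omega)))), h0⟩
  have hm_s : ∀ s ∈ insert a₀ S, sN s ∈ SN := by
    intro s hs
    rw [hSN]
    exact Finset.mem_filter.2 ⟨Finset.mem_insert_of_mem (Finset.mem_union_right _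
      (Finset.mem_union_left _ (Finset.mem_image_of_mem _ hs))), (hsN s hs).1⟩
  have hm_ρ : ∀ s ∈ insert a₀ S, ∀ i ≤ D, ρN s i ≠ 0 → ρN s i ∈ SN := by
    intro s hs i hi h0
    rw [hSN]
    refine Finset.mem_filter.2 ⟨Finset.mem_insert_of_mem (Finset.mem_union_right _
      (Finset.mem_union_right _ (Finset.mem_image.2 ⟨(s, i), ?_, rfl⟩))), h0⟩
    exact Finset.mem_product.2 ⟨hs, Finset.mem_range.2 (by show i < D + 1; omega)⟩
  obtain ⟨b, hb, hb1, hbX⟩ := common_den (k := k) (B := B₀) (SN.filter fun x => ‖x‖ ≤ 1)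
    (fun x hx => (hSNc x (Finset.mem_filter.1 hx).1).2 (Finset.mem_filter.1 hx).2)
  have hbS : ∀ x ∈ SN, ‖x‖ ≤ 1 → b * x ∈ B₀ := fun x hx h1 => hbX x (Finset.mem_filter.2 ⟨hx, h1⟩)
  have hbq : ∀ i ≤ D, b * qN i ∈ B₀ := by
    intro i hi
    by_cases h0 : qN i = 0
    · rw [h0, mul_zero]; exact B₀.zero_mem
    · exact hbS _ (hm_q i hi h0) (hqN1 i).le
  have hbρ : ∀ s ∈ insert a₀ S, ∀ i ≤ D, b * ρN s i ∈ B₀ := by
    intro s hs i hi
    by_cases h0 : ρN s i = 0
    · rw [h0, mul_zero]; exact B₀.zero_mem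
    · exact hbS _ (hm_ρ s hs i hi h0) ((hsN s hs).2.1 i).le
  have hyq' : y = - (qN 0 : L) - ∑ i ∈ Finset.Icc 2 D, (qN i : L) * y ^ i := by
    simp only [hqN]
    exact hyq
  have hCL := cht_lift hC hb hb1 hy1 hqN1 (fun i hi => ⟨1, by rw [pow_one]; exact hbq i hi⟩) hyq'
  obtain ⟨B, hB⟩ : ∃ B : Subalgebra (O k) L, B = Algebra.adjoin (O k)
    ((fun x : N => (x : L)) '' (B₀ : Set N) ∪ {(b : L)⁻¹, y}) := ⟨_, rfl⟩
  have hbL : ‖(b : L)‖ = 1 := hb1
  have hb0 : (b : L) ≠ 0 := by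
    intro h0; rw [h0, norm_zero] at hbL; exact zero_ne_one hbL
  have hB₀ : ∀ x ∈ B₀, (x : L) ∈ B := by
    intro x hx
    rw [hB]
    exact Algebra.subset_adjoin (Or.inl ⟨x, hx, rfl⟩)
  have hbi : (b : L)⁻¹ ∈ B := by
    rw [hB]; exact Algebra.subset_adjoin (Or.inr (Or.inl rfl))
  have hyB : y ∈ B := by
    rw [hB]; exact Algebra.subset_adjoin (Or.inr (Or.inr rfl))
  rw [← hB] at hCL
  have hne := hCL.eu.ne
  -- the elements of `insert a₀ S`
  have hw : ∀ s ∈ insert a₀ S, (1 + ∑ i ∈ Finset.range (D + 1), (ρN s i : L) * y ^ i) ∈ B ∧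
      ‖1 + ∑ i ∈ Finset.range (D + 1), (ρN s i : L) * y ^ i‖ = 1 := by
    intro s hs
    constructor
    · refine B.add_mem B.one_mem (B.sum_mem fun i hi => B.mul_mem ?_ (B.pow_mem hyB _))
      have h1 := hbρ s hs i (by have := Finset.mem_range.1 hi; omega)
      have e2 : (ρN s i : L) = (b : L)⁻¹ * ((b * ρN s i : N) : L) := by
        push_cast
        rw [← mul_assoc, inv_mul_cancel₀ hb0, one_mul]
      rw [e2]
      exact B.mul_mem hbi (hB₀ _ h1)
    · refine one_add_norm (sum_lt _ _ fun i => ?_)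
      rw [mul_comm]
      refine mul_lt ?_ ((hsN s hs).2.1 i)
      rw [norm_pow]
      exact pow_le_one₀ (norm_nonneg _) hy1.le
  have hMU : ∀ s ∈ insert a₀ S, MUnit k (fun i => (e i : L)) B s := by
    intro s hs
    rw [(hsN s hs).2.2]
    exact MUnit.mul hne (munit_coe hB₀ (hSNc _ (hm_s s hs)).1) (munit_one (hw s hs).1 (hw s hs).2)
  have hMa : ∀ j : ℕ, MUnit k (fun i => (e i : L)) B (a₀ ^ j) := fun j =>
    munit_pow hne (hMU a₀ (Finset.mem_insert_self _ _)) j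
  refine ⟨fun i => (e i : L), c, π, fun i => (u i : L), (α : L), B, hCL, ?_, ?_⟩
  · intro s hs
    have hs1 : s ∈ insert a₀ S := Finset.mem_insert_of_mem hs
    refine ⟨hMU s hs1, fun hle => ?_⟩
    have e1 := (hsN s hs1).2.2
    have e2 : ‖sN s‖ ≤ 1 := by
      have e3 := congrArg norm e1
      rw [norm_mul, (hw s hs1).2, mul_one] at e3
      rw [e3] at hle
      exact hle
    obtain ⟨a, ha, b', hb', hb1', hab⟩ := loc_coe hB₀ ((hSNc _ (hm_s s hs1)).2 e2)
    refine ⟨a * (1 + ∑ i ∈ Finset.range (D + 1), (ρN s i : L) * y ^ i),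
      B.mul_mem ha (hw s hs1).1, b', hb', hb1', ?_⟩
    conv_lhs => rw [e1, hab]
    ring
  · refine denoms_adjoin hne A _ hB ?_
    rintro x (⟨b', hb', rfl⟩ | rfl | rfl)
    · obtain ⟨n', hn', d', hd', hMd, rfl⟩ := hden₀ b' hb'
      obtain ⟨j, hj⟩ := hAN' n' hn'
      obtain ⟨j', hj'⟩ := hAN' d' hd'
      refine ⟨a₀ ^ j' * (a₀ ^ j * (n' : L)), A.mul_mem (A.pow_mem ha₀ _) hj,
        a₀ ^ j * (a₀ ^ j' * (d' : L)), A.mul_mem (A.pow_mem ha₀ _) hj',
        MUnit.mul hne (hMa j) (MUnit.mul hne (hMa j') (munit_coe hB₀ hMd)), ?_⟩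
      have e1 : a₀ ^ j' * (a₀ ^ j * (n' : L)) = (a₀ ^ j * a₀ ^ j') * (n' : L) := by ring
      have e2 : a₀ ^ j * (a₀ ^ j' * (d' : L)) = (a₀ ^ j * a₀ ^ j') * (d' : L) := by ring
      rw [e1, e2, mul_div_mul_left _ _ (mul_ne_zero (pow_ne_zero _ ha₀0) (pow_ne_zero _ ha₀0))]
      push_cast
      rfl
    · obtain ⟨n', hn', d', hd', hMd, hbd⟩ := hden₀ b hb
      obtain ⟨j, hj⟩ := hAN' n' hn'
      obtain ⟨j', hj'⟩ := hAN' d' hd'
      have hbdL : (b : L) = (n' : L) / (d' : L) := by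
        have := congrArg (fun t : N => (t : L)) hbd
        push_cast at this
        exact this
      have hd0 : (d' : L) ≠ 0 := by
        intro h0; rw [h0, div_zero] at hbdL; exact hb0 hbdL
      have hn' : (n' : L) = (b : L) * (d' : L) := by
        rw [hbdL, div_mul_cancel₀ _ hd0]
      refine ⟨a₀ ^ j * (a₀ ^ j' * (d' : L)), A.mul_mem (A.pow_mem ha₀ _) hj',
        a₀ ^ j' * (a₀ ^ j * (n' : L)), A.mul_mem (A.pow_mem ha₀ _) hj,
        MUnit.mul hne (hMa j') (MUnit.mul hne (hMa j) ?_), ?_⟩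
      · rw [hn']
        exact MUnit.mul hne (munit_one (hB₀ b hb) hbL) (munit_coe hB₀ hMd)
      · have e1 : a₀ ^ j' * (a₀ ^ j * (n' : L)) = (a₀ ^ j * a₀ ^ j') * (n' : L) := by ring
        have e2 : a₀ ^ j * (a₀ ^ j' * (d' : L)) = (a₀ ^ j * a₀ ^ j') * (d' : L) := by ring
        rw [e1, e2, mul_div_mul_left _ _ (mul_ne_zero (pow_ne_zero _ ha₀0) (pow_ne_zero _ ha₀0)),
          hbdL, inv_div]
    · obtain ⟨j₁, hj₁⟩ := hAN' n₁ hn₁
      obtain ⟨j₂, hj₂⟩ := hAN' n₂ hn₂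
      have hnL : n = (n₁ : L) / (n₂ : L) := by
        have := congrArg (fun t : N => (t : L)) hnn
        push_cast at this
        exact this
      have hn₂L : (n₂ : L) ≠ 0 := fun h0 => hn₂0 (Subtype.ext h0)
      have hκL : algebraMap k L κ ≠ 0 := by
        intro h0
        exact hκ ((algebraMap k L).injective (by rw [h0, map_zero]))
      refine ⟨(a₀ * y₀) * (a₀ ^ j₁ * (a₀ ^ j₂ * (n₂ : L))) - a₀ * (a₀ ^ j₂ * (a₀ ^ j₁ * (n₁ : L))),
        A.sub_mem (A.mul_mem (hgen _ (Finset.mem_insert_self _ _))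
          (A.mul_mem (A.pow_mem ha₀ _) hj₂)) (A.mul_mem ha₀ (A.mul_mem (A.pow_mem ha₀ _) hj₁)),
        algebraMap k L κ * (a₀ * (a₀ ^ j₁ * (a₀ ^ j₂ * (n₂ : L)))),
        A.mul_mem (A.algebraMap_mem κ) (A.mul_mem ha₀ (A.mul_mem (A.pow_mem ha₀ _) hj₂)),
        MUnit.mul hne (munit_const hκ) (MUnit.mul hne (hMU a₀ (Finset.mem_insert_self _ _))
          (MUnit.mul hne (hMa j₁) (MUnit.mul hne (hMa j₂)
            (munit_coe hB₀ (hSNc _ hm_n₂).1)))), ?_⟩
      rw [hy, hnL]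
      field_simp

end DA
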