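import Pool.Agent.Lib.DA.E3
import Pool.Agent.Lib.DA.R3b

/-!
# Module M1: local uniformization from charts
-/

namespace DA

open Polynomial MP1a953e

section aux

variable {k L : Type*} [NontriviallyNormedField k] [IsUltrametricDist k] [NormedField L]
  [IsUltrametricDist L] [NormedAlgebra k L]

private theorem m1_algebraMap (c : O k) : algebraMap (O k) L c = algebraMap k L (c : k) := rfl

/-- a nonzero constant of `O k` which makes a given constant integral -/
private theorem m1_const (a : k) : ∃ c : O k, c ≠ 0 ∧ ‖(c : k) * a‖ ≤ 1 := by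
  by_cases ha : ‖a‖ ≤ 1
  · exact ⟨1, one_ne_zero, by simpa using ha⟩
  · rw [not_le] at ha
    have ha0 : a ≠ 0 := norm_pos_iff.1 (zero_lt_one.trans ha)
    refine ⟨⟨a⁻¹, mem_O.2 (by rw [norm_inv]; exact inv_le_one_of_one_le₀ ha.le)⟩, ?_, ?_⟩
    · intro h0
      exact inv_ne_zero ha0 (congrArg Subtype.val h0)
    · change ‖a⁻¹ * a‖ ≤ 1
      rw [inv_mul_cancel₀ ha0, norm_one]

private theorem m1_scale (A : Subalgebra (O k) L) {x : L}
    (hx : x ∈ Algebra.adjoin k (A : Set L)) :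
    ∃ c : O k, c ≠ 0 ∧ algebraMap (O k) L c * x ∈ A := by
  induction hx using Algebra.adjoin_induction with
  | mem x hx => exact ⟨1, one_ne_zero, by rw [map_one, one_mul]; exact hx⟩
  | algebraMap a =>
    obtain ⟨c, hc, hca⟩ := m1_const a
    refine ⟨c, hc, ?_⟩
    have h1 := A.algebraMap_mem ⟨(c : k) * a, mem_O.2 hca⟩
    rw [m1_algebraMap] at h1
    rw [m1_algebraMap, ← map_mul]
    exact h1
  | add x y _ _ hx hy =>
    obtain ⟨c, hc, hcx⟩ := hx
    obtain ⟨d, hd, hdy⟩ := hy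
    refine ⟨c * d, mul_ne_zero hc hd, ?_⟩
    have e : algebraMap (O k) L (c * d) * (x + y) =
        algebraMap (O k) L d * (algebraMap (O k) L c * x) +
          algebraMap (O k) L c * (algebraMap (O k) L d * y) := by
      rw [map_mul]
      ring
    rw [e]
    exact add_mem (mul_mem (A.algebraMap_mem d) hcx) (mul_mem (A.algebraMap_mem c) hdy)
  | mul x y _ _ hx hy =>
    obtain ⟨c, hc, hcx⟩ := hx
    obtain ⟨d, hd, hdy⟩ := hy
    refine ⟨c * d, mul_ne_zero hc hd, ?_⟩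
    have e : algebraMap (O k) L (c * d) * (x * y) =
        (algebraMap (O k) L c * x) * (algebraMap (O k) L d * y) := by
      rw [map_mul]
      ring
    rw [e]
    exact mul_mem hcx hdy

private theorem m1_pow {A : Subalgebra (O k) L} {G : Set L} {f₀ : L} (hf₀ : f₀ ∈ A)
    (hG : ∀ g ∈ G, g * f₀ ∈ A) {x : L} (hx : x ∈ Algebra.adjoin (O k) G) :
    ∃ i : ℕ, x * f₀ ^ i ∈ A := by
  induction hx using Algebra.adjoin_induction with
  | mem x hx => exact ⟨1, by rw [pow_one]; exact hG x hx⟩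
  | algebraMap a => exact ⟨0, by rw [pow_zero, mul_one]; exact A.algebraMap_mem a⟩
  | add x y _ _ hx hy =>
    obtain ⟨i, hi⟩ := hx
    obtain ⟨j, hj⟩ := hy
    refine ⟨i + j, ?_⟩
    have e : (x + y) * f₀ ^ (i + j) = (x * f₀ ^ i) * f₀ ^ j + (y * f₀ ^ j) * f₀ ^ i := by
      rw [pow_add]
      ring
    rw [e]
    exact add_mem (mul_mem hi (pow_mem hf₀ _)) (mul_mem hj (pow_mem hf₀ _))
  | mul x y _ _ hx hy =>
    obtain ⟨i, hi⟩ := hx
    obtain ⟨j, hj⟩ := hy
    refine ⟨i + j, ?_⟩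
    have e : (x * y) * f₀ ^ (i + j) = (x * f₀ ^ i) * (y * f₀ ^ j) := by
      rw [pow_add]
      ring
    rw [e]
    exact mul_mem hi hj

/-- the fractions which generate the chart -/
private theorem m1_family {A B : Subalgebra (O k) L} {G : Finset L}
    (hG : Algebra.adjoin (O k) (G : Set L) = B) {f₀ : L} (hf₀ : f₀ ∈ A) (hf₀0 : f₀ ≠ 0)
    (hGf : ∀ g ∈ G, g * f₀ ∈ A) {w : L} (hw : w ∈ B) (hw0 : w ≠ 0)
    (hAB : A ≤ Algebra.adjoin (O k) ((B : Set L) ∪ {w⁻¹})) {γ : O k} (hγ : γ ≠ 0)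
    (hγf : algebraMap (O k) L γ * f₀⁻¹ ∈ Algebra.adjoin (O k) ((B : Set L) ∪ {w⁻¹})) :
    ∃ (n : ℕ) (f : Fin (n + 1) → L), (∀ i, f i ∈ A) ∧ f 0 ≠ 0 ∧
      (∃ i, ∃ c : O k, c ≠ 0 ∧ f i = algebraMap (O k) L c) ∧
      A ⊔ Algebra.adjoin (O k) (Set.range fun i => f i / f 0) =
        Algebra.adjoin (O k) ((B : Set L) ∪ {w⁻¹}) := by
  classical
  obtain ⟨i, hi⟩ := m1_pow hf₀ (fun g hg => hGf g hg) (by rw [hG]; exact hw)
  have hBB : ∀ x ∈ B, x ∈ Algebra.adjoin (O k) ((B : Set L) ∪ {w⁻¹}) := fun x hx =>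
    Algebra.subset_adjoin (Or.inl hx)
  have hwB : w⁻¹ ∈ Algebra.adjoin (O k) ((B : Set L) ∪ {w⁻¹}) :=
    Algebra.subset_adjoin (Or.inr rfl)
  set F₀ : L := w * f₀ ^ (i + 1) with hF₀
  have hF₀0 : F₀ ≠ 0 := mul_ne_zero hw0 (pow_ne_zero _ hf₀0)
  have hF₀A : F₀ ∈ A := by
    have e : F₀ = (w * f₀ ^ i) * f₀ := by rw [hF₀, pow_succ, mul_assoc]
    rw [e]
    exact mul_mem hi hf₀
  set T : Finset L := G.image (fun g => g * F₀) ∪
    {w⁻¹ * F₀, algebraMap (O k) L (γ ^ (i + 1))} with hT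
  set f : Fin (T.card + 1) → L := Fin.cons F₀ fun j => ((T.equivFin.symm j : T) : L) with hf
  have hf0 : f 0 = F₀ := rfl
  have hfT : ∀ j, f j = F₀ ∨ f j ∈ T := by
    intro j
    refine Fin.cases (Or.inl rfl) (fun j => Or.inr ?_) j
    exact (T.equivFin.symm j).2
  have hTf : ∀ x ∈ T, ∃ j, f j = x := by
    intro x hx
    refine ⟨(T.equivFin ⟨x, hx⟩).succ, ?_⟩
    rw [hf, Fin.cons_succ, Equiv.symm_apply_apply]
  have hTA : ∀ x ∈ T, x ∈ A := by
    intro x hx
    rw [hT, Finset.mem_union, Finset.mem_image, Finset.mem_insert, Finset.mem_singleton] at hx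
    rcases hx with ⟨g, hg, rfl⟩ | rfl | rfl
    · have e : g * F₀ = (g * f₀) * (w * f₀ ^ i) := by rw [hF₀, pow_succ]; ring
      rw [e]
      exact mul_mem (hGf g hg) hi
    · rw [hF₀, inv_mul_cancel_left₀ hw0]
      exact pow_mem hf₀ _
    · exact A.algebraMap_mem _
  have hTB : ∀ x ∈ T, x / F₀ ∈ Algebra.adjoin (O k) ((B : Set L) ∪ {w⁻¹}) := by
    intro x hx
    rw [hT, Finset.mem_union, Finset.mem_image, Finset.mem_insert, Finset.mem_singleton] at hx
    rcases hx with ⟨g, hg, rfl⟩ | rfl | rfl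
    · rw [mul_div_cancel_right₀ _ hF₀0]
      refine hBB g ?_
      rw [← hG]
      exact Algebra.subset_adjoin hg
    · rw [mul_div_cancel_right₀ _ hF₀0]
      exact hwB
    · have e : algebraMap (O k) L (γ ^ (i + 1)) / F₀ =
          w⁻¹ * (algebraMap (O k) L γ * f₀⁻¹) ^ (i + 1) := by
        rw [hF₀, map_pow, mul_pow, inv_pow, div_eq_mul_inv, mul_inv]
        ring
      rw [e]
      exact mul_mem hwB (pow_mem hγf _)
  refine ⟨T.card, f, ?_, ?_, ?_, ?_⟩
  · intro j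
    rcases hfT j with h | h
    · rw [h]
      exact hF₀A
    · exact hTA _ h
  · rw [hf0]
    exact hF₀0
  · obtain ⟨j, hj⟩ := hTf (algebraMap (O k) L (γ ^ (i + 1)))
      (Finset.mem_union_right _ (Finset.mem_insert_of_mem (Finset.mem_singleton_self _)))
    exact ⟨j, γ ^ (i + 1), pow_ne_zero _ hγ, hj⟩
  · refine le_antisymm (sup_le hAB (Algebra.adjoin_le ?_)) (Algebra.adjoin_le ?_)
    · rintro _ ⟨j, rfl⟩
      change f j / f 0 ∈ _
      rw [hf0]
      rcases hfT j with h | h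
      · rw [h, div_self hF₀0]
        exact one_mem _
      · exact hTB _ h
    · have hmem : ∀ x ∈ T, x / F₀ ∈
          A ⊔ Algebra.adjoin (O k) (Set.range fun i => f i / f 0) := by
        intro x hx
        obtain ⟨j, hj⟩ := hTf x hx
        have hle : Algebra.adjoin (O k) (Set.range fun i => f i / f 0) ≤
            A ⊔ Algebra.adjoin (O k) (Set.range fun i => f i / f 0) := le_sup_right
        refine hle (Algebra.subset_adjoin ⟨j, ?_⟩)
        change f j / f 0 = _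
        rw [hj, hf0]
      rintro x (hx | hx)
      · have hx' : x ∈ Algebra.adjoin (O k) (G : Set L) := by rw [hG]; exact hx
        refine (Algebra.adjoin_le ?_ : Algebra.adjoin (O k) (G : Set L) ≤ _) hx'
        intro g hg
        have h1 := hmem (g * F₀) (Finset.mem_union_left _ (Finset.mem_image_of_mem _ hg))
        rwa [mul_div_cancel_right₀ _ hF₀0] at h1
      · rw [Set.mem_singleton_iff] at hx
        rw [hx]
        have h1 := hmem (w⁻¹ * F₀)
          (Finset.mem_union_right _ (Finset.mem_insert_self _ _))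
        rwa [mul_div_cancel_right₀ _ hF₀0] at h1

/-- the units of the chart -/
private theorem m1_units {B : Subalgebra (O k) L} {U : Finset L}
    (hU : ∀ s ∈ U, s ∈ B ∧ ‖s‖ = 1) {b : L} (hb : b ∈ B) (hb1 : ‖b‖ = 1) :
    ∃ β ∈ B, ‖β‖ = 1 ∧ ∀ s ∈ U, s⁻¹ ∈ Algebra.adjoin (O k) ((B : Set L) ∪ {(b * β)⁻¹}) := by
  classical
  refine ⟨∏ s ∈ U, s, prod_mem fun s hs => (hU s hs).1, ?_, fun s hs => ?_⟩
  · rw [norm_prod]
    exact Finset.prod_eq_one fun s hs => (hU s hs).2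
  · have hs0 : s ≠ 0 := by
      rw [← norm_ne_zero_iff, (hU s hs).2]
      exact one_ne_zero
    have hb0 : b ≠ 0 := by
      rw [← norm_ne_zero_iff, hb1]
      exact one_ne_zero
    have hP0 : ∏ t ∈ U.erase s, t ≠ 0 := by
      refine Finset.prod_ne_zero_iff.2 fun t ht => ?_
      rw [← norm_ne_zero_iff, (hU t (Finset.mem_of_mem_erase ht)).2]
      exact one_ne_zero
    have hP : ∏ t ∈ U, t = s * ∏ t ∈ U.erase s, t := (Finset.mul_prod_erase U _ hs).symm
    have e : s⁻¹ = (b * ∏ t ∈ U.erase s, t) * (b * ∏ t ∈ U, t)⁻¹ := by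
      rw [hP]
      field_simp
    rw [e]
    refine mul_mem (Algebra.subset_adjoin (Or.inl (mul_mem hb (prod_mem fun t ht =>
      (hU t (Finset.mem_of_mem_erase ht)).1)))) (Algebra.subset_adjoin (Or.inr rfl))

private theorem m1_mon_const {r : ℕ} {e : Fin r → L} (hne : ∀ i, e i ≠ 0) {c : Fin r → k}
    (hc : ∀ i, c i ≠ 0) {π : k} (hπ : π ≠ 0) (z : Fin r → ℤ) (a : k) :
    ∃ γ : O k, γ ≠ 0 ∧ algebraMap (O k) L γ * mon k e z a ∈ Tt k e c π := by
  obtain ⟨n, hn⟩ := exists_tor_exp (k := k) hne z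
  obtain ⟨a'', ha⟩ := hn c π hc hπ a
  obtain ⟨γ, hγ, hγa⟩ := m1_const a''
  refine ⟨γ, hγ, ?_⟩
  have e1 : algebraMap (O k) L γ * mon k e z a =
      algebraMap (O k) L ⟨(γ : k) * a'', mem_O.2 hγa⟩ * ∏ i, tor k e c π i ^ n i := by
    rw [ha, m1_algebraMap, m1_algebraMap, map_mul, mul_assoc]
  rw [e1]
  have ht : ∀ i, tor k e c π i ∈ Tt k e c π := fun i =>
    Algebra.subset_adjoin (Set.mem_range_self i)
  exact mul_mem ((Tt k e c π).algebraMap_mem _) (prod_mem fun i _ => pow_mem (ht i) _)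

private theorem m1_mon_tor {r : ℕ} {e : Fin r → L} {c : Fin r → k}
    (hc : ∀ i, c i ≠ 0) {π : k} (z : Fin r → ℤ) (a : k) :
    mon k e z a = algebraMap k L (a * ∏ i, c i ^ z i) *
      ∏ i, tor k e c π i ^ (Fin.cons 0 z : Fin (r + 1) → ℤ) i := by
  have hc' : ∀ i, algebraMap k L (c i) ≠ 0 := fun i => (_root_.map_ne_zero _).2 (hc i)
  rw [Fin.prod_univ_succ, Fin.cons_zero, zpow_zero, one_mul, map_mul, map_prod, mul_assoc,
    ← Finset.prod_mul_distrib]
  unfold mon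
  congr 1
  refine Finset.prod_congr rfl fun i _ => ?_
  rw [map_zpow₀, Fin.cons_succ, ← mul_zpow]
  congr 1
  simp only [tor, Fin.cons_succ]
  rw [mul_div_cancel₀ _ (hc' i)]

private theorem m1_alg {r m : ℕ} (htr : Algebra.trdeg k L = r + m + 1) {e : Fin r → L}
    {u : Fin m → L} {α : L} (heu : EU k e u) (htrans : Transcendental (keu k e u) α) (x : L) :
    IsAlgebraic (keuT k e u α) x := by
  have hset : Set.range e ∪ Set.range u = Set.range (Fin.append e u) := by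
    ext y
    simp only [Set.mem_union, Set.mem_range]
    constructor
    · rintro (⟨i, rfl⟩ | ⟨i, rfl⟩)
      · exact ⟨Fin.castAdd m i, Fin.append_left e u i⟩
      · exact ⟨Fin.natAdd r i, Fin.append_right e u i⟩
    · rintro ⟨i, rfl⟩
      refine Fin.addCases (fun i => ?_) (fun i => ?_) i
      · exact Or.inl ⟨i, (Fin.append_left e u i).symm⟩
      · exact Or.inr ⟨i, (Fin.append_right e u i).symm⟩
  have hai := heu.algebraicIndependent
  unfold keu at htrans
  rw [hset, IntermediateField.transcendental_adjoin_iff] at htrans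
  have h2 : AlgebraicIndependent k (fun o : Option (Fin (r + m)) => o.elim α (Fin.append e u)) :=
    (hai.option_iff_transcendental α).2 htrans
  have h3 : IsTranscendenceBasis k
      (fun o : Option (Fin (r + m)) => o.elim α (Fin.append e u)) := by
    refine h2.isTranscendenceBasis_of_lift_trdeg_le_of_finite ?_
    rw [htr]
    simp
  have h4 := h3.isAlgebraic_field
  have hset2 : Set.range (fun o : Option (Fin (r + m)) => o.elim α (Fin.append e u)) =
      Set.range e ∪ Set.range u ∪ {α} := by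
    rw [hset]
    ext y
    simp only [Set.mem_union, Set.mem_range, Set.mem_singleton_iff]
    constructor
    · rintro ⟨_ | i, rfl⟩
      · exact Or.inr rfl
      · exact Or.inl ⟨i, rfl⟩
    · rintro (⟨i, rfl⟩ | rfl)
      · exact ⟨some i, rfl⟩
      · exact ⟨none, rfl⟩
  unfold keuT
  rw [hset2] at h4
  exact h4.isAlgebraic x

end aux

/-- M1.  Proof.  Let `A_k ≤ L` be the `k`-algebra of all `c * a`, `a ∈ A`, `c ∈ k` (it is a `k`-algebra: bring
sums to a common constant of maximal norm); its fraction field is `L`. Let `S₁` consist of `S` and the nonzero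
elements of a finite set of generators of `A` over `O k`. `h` gives the chart `e, c, π, u, α, B` for
`A_k, S₁`. `L` is algebraic over `keuT k e u α` (`trdeg (L/k) = r + m + 1`, `EU.algebraicIndependent`,
`Cht.trans`). E3 gives `b`. Let `g 1, …, g l` generate `B`, `g j = n j / d j`, `n j, d j ∈ A_k`, `d j` a
monomial times a unit; multiplying both by a constant we may assume `n j, d j ∈ A` (`d j` remains a
monomial times a unit). `f₀ = ∏ d j ∈ A`, a monomial times `a₀ / b₀` (`a₀, b₀ ∈ B` of norm `1`, `MUnit.mul`).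
Every element of `B` is `n / f₀ ^ i` with `n ∈ A_k`. Let `β ∈ B`, `‖β‖ = 1`, be the product of `a₀, b₀`, the
denominators `s ∈ B` (norm `1`) of the generators of `A` (`Loc`), and the numerators and denominators of the
units of the elements of `S`. `B' = adjoin (B ∪ {(b β)⁻¹})`, `φ` from E3 (`ϖ = π`, `‖π‖ < 1`). So `A ≤ B'`,
`a₀⁻¹, b₀⁻¹ ∈ B'`. `b β = n' / f₀ ^ i` with `n' ∈ A_k`, scaled: `b β = n' / (c' f₀ ^ i)`, `n' ∈ A`, `c' ∈ k`,
`c' ≠ 0`. `F₀ = γ f₀ n' ∈ A` with a suitable nonzero constant `γ ∈ O k`. The elements `g j F₀`,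
`(b β)⁻¹ F₀ = γ c' f₀ ^ (i+1)` are in `A` for suitable `γ` (small norm). `F₀ ∈ A` is a monomial
`mon k e z a` times a unit of `B'`; `γ' / mon k e z a ∈ Tt k e c π ≤ B'` for a nonzero constant `γ' ∈ O k` of
sufficiently small norm (`exists_tor_exp`), so `γ' / F₀ ∈ B'`. Let `F` be the family
`F₀`, `g j F₀`, `(b β)⁻¹ F₀`, `γ'`. Then `A ⊔ adjoin {F i / F₀} = B'`: `≤` clear, `≥` because `B'` is generated by
the `g j` and `(b β)⁻¹`. Elements of `B'` have norm `≤ 1`. `‖φ (x i)‖ = ‖tor i‖ < 1`. `S`: an element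
`s ∈ S` is `mon k e z a * (a' / b')`, with `a' / b'` a unit of `B'`, and
`mon k e z a = a * ∏ (c i) ^ (z i) * ∏ t (i+1) ^ z i`. -/
theorem lu_of_chts {k L : Type*} [NontriviallyNormedField k] [IsUltrametricDist k]
    [IsAlgClosed k] [NormedField L] [IsUltrametricDist L] [NormedAlgebra k L] {r m : ℕ}
    (hfg : (⊤ : IntermediateField k L).FG) (htr : Algebra.trdeg k L = r + m + 1)
    (h : Chts k L r m) (A : Subalgebra (O k) L) (hA : A.FG) (hle : ∀ a ∈ A, ‖a‖ ≤ 1)
    [IsFractionRing A L] (S : Finset L) (hS : ∀ x ∈ S, x ≠ 0) :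
    ∃ (n : ℕ) (f : Fin (n + 1) → L), (∀ i, f i ∈ A) ∧ f 0 ≠ 0 ∧
      (∃ i, ∃ c : O k, c ≠ 0 ∧ f i = algebraMap (O k) L c) ∧
      (∀ b ∈ A ⊔ Algebra.adjoin (O k) (Set.range fun i => f i / f 0), ‖b‖ ≤ 1) ∧
      ∃ ϖ : O k, ϖ ≠ 0 ∧ ‖(ϖ : k)‖ < 1 ∧
        ∃ φ : SSr r ϖ →ₐ[O k]
            ↥(A ⊔ Algebra.adjoin (O k) (Set.range fun i => f i / f 0)),
          IsSm _ φ ∧ (∀ i, ‖(φ (SSr.x i) : L)‖ < 1) ∧
          ∀ x ∈ S, ∃ (z : Fin (r + 1) → ℤ) (c : k) (v : L), c ≠ 0 ∧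
            v ∈ A ⊔ Algebra.adjoin (O k) (Set.range fun i => f i / f 0) ∧
            v⁻¹ ∈ A ⊔ Algebra.adjoin (O k) (Set.range fun i => f i / f 0) ∧
            x = algebraMap k L c * (∏ i, (φ (SSr.x i) : L) ^ z i) * v := by
  classical
  -- the algebra `A_k`
  have hfrac : ∀ x : L, ∃ a ∈ Algebra.adjoin k (A : Set L), ∃ b ∈ Algebra.adjoin k (A : Set L),
      b ≠ 0 ∧ x = a / b := by
    intro x
    obtain ⟨a, b, hb, hab⟩ := IsFractionRing.div_surjective (A := A) x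
    refine ⟨a, Algebra.subset_adjoin a.2, b, Algebra.subset_adjoin b.2, ?_, hab.symm⟩
    have := nonZeroDivisors.ne_zero hb
    intro h0
    exact this (Subtype.ext h0)
  obtain ⟨T, hT⟩ := hA
  have hTA : ∀ x ∈ T, x ∈ A := fun x hx => by
    rw [← hT]
    exact Algebra.subset_adjoin hx
  obtain ⟨e, c, π, u, α, B, hB, hSB, hden⟩ := h (Algebra.adjoin k (A : Set L)) hfrac
    (S ∪ T.filter (· ≠ 0)) (by
      intro x hx
      rcases Finset.mem_union.1 hx with hx | hx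
      · exact hS x hx
      · exact (Finset.mem_filter.1 hx).2)
  have hne := hB.eu.ne
  have hTtB : ∀ x ∈ Tt k e c π, x ∈ B := fun x hx =>
    hB.le ((Algebra.adjoin_mono Set.subset_union_left : Tt k e c π ≤ Pt k e c π u α) hx)
  have halg := m1_alg htr hB.eu hB.trans
  have hπ1 : ‖π‖ < 1 := by
    have h1 : ‖∏ i, tor k e c π i‖ < 1 := by
      rw [norm_prod, Fin.prod_univ_succ]
      have h2 : ∏ i : Fin r, ‖tor k e c π i.succ‖ ≤ 1 :=
        Finset.prod_le_one (fun i _ => norm_nonneg _) fun i _ => (hB.t_lt _).le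
      calc ‖tor k e c π 0‖ * ∏ i : Fin r, ‖tor k e c π i.succ‖ ≤ ‖tor k e c π 0‖ * 1 :=
            mul_le_mul_of_nonneg_left h2 (norm_nonneg _)
        _ < 1 := by rw [mul_one]; exact hB.t_lt 0
    rwa [prod_tor hne hB.c_ne, norm_algebraMap'] at h1
  obtain ⟨b, hbB, hb1, hbφ⟩ := smooth_of_cht hB halg (ϖ := ⟨π, mem_O.2 hπ1.le⟩) rfl
  -- generators of `B` and their denominators
  obtain ⟨G, hG⟩ := hB.fg
  have hGB : ∀ g ∈ G, g ∈ B := fun g hg => by
    rw [← hG]
    exact Algebra.subset_adjoin hg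
  have hGd : ∀ g ∈ G, ∃ d : L, d ∈ A ∧ g * d ∈ A ∧ MUnit k e B d := by
    intro g hg
    obtain ⟨n, hn, d, hd, hdu, hgd⟩ := hden g (hGB g hg)
    obtain ⟨c₁, hc₁, hn'⟩ := m1_scale A hn
    obtain ⟨c₂, hc₂, hd'⟩ := m1_scale A hd
    have hd0 : d ≠ 0 := by
      obtain ⟨z, c, hc, a, -, b, -, hna, hnb, rfl⟩ := hdu
      refine mul_ne_zero ?_ (div_ne_zero ?_ ?_)
      · unfold mon
        exact mul_ne_zero ((_root_.map_ne_zero _).2 hc)
          (Finset.prod_ne_zero_iff.2 fun i _ => zpow_ne_zero _ (hne i))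
      · rw [← norm_ne_zero_iff, hna]
        exact one_ne_zero
      · rw [← norm_ne_zero_iff, hnb]
        exact one_ne_zero
    refine ⟨algebraMap (O k) L (c₁ * c₂) * d, ?_, ?_, ?_⟩
    · rw [map_mul, mul_assoc]
      exact mul_mem (A.algebraMap_mem c₁) hd'
    · have e1 : g * (algebraMap (O k) L (c₁ * c₂) * d) =
          algebraMap (O k) L c₂ * (algebraMap (O k) L c₁ * n) := by
        rw [hgd, map_mul]
        field_simp
      rw [e1]
      exact mul_mem (A.algebraMap_mem c₂) hn'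
    · obtain ⟨z, c', hc', a', ha', b', hb', hna, hnb, hd⟩ := hdu
      refine ⟨z, ((c₁ * c₂ : O k) : k) * c', mul_ne_zero ?_ hc', a', ha', b', hb', hna, hnb, ?_⟩
      · intro h0
        exact mul_ne_zero hc₁ hc₂ (Subtype.ext h0)
      · rw [hd, m1_algebraMap]
        unfold mon
        rw [map_mul]
        ring
  choose! d hdA hgdA hdu using hGd
  set f₀ : L := ∏ g ∈ G, d g with hf₀
  have hf₀A : f₀ ∈ A := prod_mem fun g hg => hdA g hg
  have hGf : ∀ g ∈ G, g * f₀ ∈ A := by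
    intro g hg
    rw [hf₀, ← Finset.mul_prod_erase G d hg, ← mul_assoc]
    exact mul_mem (hgdA g hg) (prod_mem fun g' hg' => hdA g' (Finset.mem_of_mem_erase hg'))
  have hf₀u : MUnit k e B f₀ := by
    have hone : MUnit k e B 1 := by
      refine ⟨0, 1, one_ne_zero, 1, one_mem _, 1, one_mem _, norm_one, norm_one, ?_⟩
      unfold mon
      simp
    have key : ∀ G' : Finset L, (∀ g ∈ G', MUnit k e B (d g)) →
        MUnit k e B (∏ g ∈ G', d g) := by
      intro G'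
      induction G' using Finset.induction with
      | empty => intro _; rw [Finset.prod_empty]; exact hone
      | insert a s ha ih =>
        intro h1
        rw [Finset.prod_insert ha]
        exact MUnit.mul hne (h1 a (Finset.mem_insert_self _ _))
          (ih fun g hg => h1 g (Finset.mem_insert_of_mem hg))
    exact key G hdu
  obtain ⟨z₀, c₀, hc₀, a₀, ha₀, b₀, hb₀, hna₀, hnb₀, hf₀e⟩ := hf₀u
  -- the units
  have hTl : ∀ x ∈ T, ∃ s : L, s ∈ B ∧ ‖s‖ = 1 ∧ x * s ∈ B := by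
    intro x hx
    by_cases hx0 : x = 0
    · exact ⟨1, one_mem _, norm_one, by rw [hx0, zero_mul]; exact zero_mem _⟩
    · obtain ⟨-, h2⟩ := hSB x (Finset.mem_union_right _ (Finset.mem_filter.2 ⟨hx, hx0⟩))
      obtain ⟨a, ha, s, hs, hs1, rfl⟩ := h2 (hle x (hTA x hx))
      refine ⟨s, hs, hs1, ?_⟩
      rw [div_mul_cancel₀ _ (by
        rw [← norm_ne_zero_iff, hs1]
        exact one_ne_zero)]
      exact ha
  choose! sT hsB hs1 hsT using hTl
  have hSl : ∀ x ∈ S, ∃ (z : Fin r → ℤ) (c' a' b' : L), c' ≠ 0 ∧ a' ∈ B ∧ b' ∈ B ∧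
      ‖a'‖ = 1 ∧ ‖b'‖ = 1 ∧ ∃ c'' : k, c'' ≠ 0 ∧ x = mon k e z c'' * (a' / b') := by
    intro x hx
    obtain ⟨⟨z, c', hc', a', ha', b', hb', hna, hnb, hxe⟩, -⟩ :=
      hSB x (Finset.mem_union_left _ hx)
    exact ⟨z, 1, a', b', one_ne_zero, ha', hb', hna, hnb, c', hc', hxe⟩
  choose! zS _ aS bS _ haS hbS hnaS hnbS cS hcS hxS using hSl
  set U : Finset L := {a₀, b₀} ∪ T.image sT ∪ S.image aS ∪ S.image bS with hU
  have hUB : ∀ s ∈ U, s ∈ B ∧ ‖s‖ = 1 := by
    intro s hs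
    rw [hU, Finset.mem_union, Finset.mem_union, Finset.mem_union, Finset.mem_insert,
      Finset.mem_singleton, Finset.mem_image, Finset.mem_image, Finset.mem_image] at hs
    rcases hs with (((rfl | rfl) | ⟨x, hx, rfl⟩) | ⟨x, hx, rfl⟩) | ⟨x, hx, rfl⟩
    · exact ⟨ha₀, hna₀⟩
    · exact ⟨hb₀, hnb₀⟩
    · exact ⟨hsB x hx, hs1 x hx⟩
    · exact ⟨haS x hx, hnaS x hx⟩
    · exact ⟨hbS x hx, hnbS x hx⟩
  obtain ⟨β, hβB, hβ1, hβU⟩ := m1_units hUB hbB hb1
  obtain ⟨φ, hφx, hφs⟩ := hbφ β hβB hβ1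
  have hUa₀ : a₀ ∈ U := by simp [hU]
  have hUT : ∀ x ∈ T, sT x ∈ U := fun x hx => by
    rw [hU]
    exact Finset.mem_union_left _ (Finset.mem_union_left _ (Finset.mem_union_right _
      (Finset.mem_image_of_mem _ hx)))
  have hUaS : ∀ x ∈ S, aS x ∈ U := fun x hx => by
    rw [hU]
    exact Finset.mem_union_left _ (Finset.mem_union_right _ (Finset.mem_image_of_mem _ hx))
  have hUbS : ∀ x ∈ S, bS x ∈ U := fun x hx => by
    rw [hU]
    exact Finset.mem_union_right _ (Finset.mem_image_of_mem _ hx)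
  have hw1 : ‖b * β‖ = 1 := by rw [norm_mul, hb1, hβ1, one_mul]
  have hw0 : b * β ≠ 0 := by
    rw [← norm_ne_zero_iff, hw1]
    exact one_ne_zero
  have hBB : ∀ x ∈ B, x ∈ Algebra.adjoin (O k) ((B : Set L) ∪ {(b * β)⁻¹}) := fun x hx =>
    Algebra.subset_adjoin (Or.inl hx)
  have hAB : A ≤ Algebra.adjoin (O k) ((B : Set L) ∪ {(b * β)⁻¹}) := by
    rw [← hT]
    refine Algebra.adjoin_le fun x hx => ?_
    have hs0 : sT x ≠ 0 := by
      rw [← norm_ne_zero_iff, hs1 x hx]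
      exact one_ne_zero
    have e1 : x = (x * sT x) * (sT x)⁻¹ := by rw [mul_inv_cancel_right₀ hs0]
    rw [e1]
    exact mul_mem (hBB _ (hsT x hx)) (hβU _ (hUT x hx))
  have hf₀0 : f₀ ≠ 0 := by
    rw [hf₀e]
    refine mul_ne_zero ?_ (div_ne_zero ?_ ?_)
    · unfold mon
      exact mul_ne_zero ((_root_.map_ne_zero _).2 hc₀)
        (Finset.prod_ne_zero_iff.2 fun i _ => zpow_ne_zero _ (hne i))
    · rw [← norm_ne_zero_iff, hna₀]
      exact one_ne_zero
    · rw [← norm_ne_zero_iff, hnb₀]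
      exact one_ne_zero
  obtain ⟨γ, hγ, hγm⟩ := m1_mon_const (k := k) hne hB.c_ne hB.π_ne (-z₀) c₀⁻¹
  have hγf : algebraMap (O k) L γ * f₀⁻¹ ∈
      Algebra.adjoin (O k) ((B : Set L) ∪ {(b * β)⁻¹}) := by
    have e1 : (mon k e z₀ c₀)⁻¹ = mon k e (-z₀) c₀⁻¹ := by
      unfold mon
      rw [mul_inv, map_inv₀, ← Finset.prod_inv_distrib]
      congr 1
      refine Finset.prod_congr rfl fun i _ => ?_
      rw [Pi.neg_apply, zpow_neg]
    have e2 : algebraMap (O k) L γ * f₀⁻¹ =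
        (algebraMap (O k) L γ * mon k e (-z₀) c₀⁻¹) * b₀ * a₀⁻¹ := by
      rw [hf₀e, mul_inv, e1, inv_div, div_eq_mul_inv]
      ring
    rw [e2]
    exact mul_mem (mul_mem (hBB _ (hTtB _ hγm)) (hBB _ hb₀)) (hβU _ hUa₀)
  obtain ⟨n, f, hfA, hf0, hfc, hEq⟩ := m1_family hG hf₀A hf₀0 hGf (mul_mem hbB hβB) hw0 hAB
    hγ hγf
  refine ⟨n, f, hfA, hf0, hfc, ?_⟩
  rw [hEq]
  refine ⟨?_, ⟨π, mem_O.2 hπ1.le⟩, ?_, hπ1, φ, hφs, ?_, ?_⟩
  · intro x hx
    induction hx using Algebra.adjoin_induction with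
    | mem x hx =>
      rcases hx with hx | hx
      · exact hB.norm_le x hx
      · rw [Set.mem_singleton_iff] at hx
        rw [hx, norm_inv, hw1, inv_one]
    | algebraMap a =>
      rw [m1_algebraMap, norm_algebraMap']
      exact mem_O.1 a.2
    | add x y _ _ hx hy =>
      exact (IsUltrametricDist.norm_add_le_max _ _).trans (max_le hx hy)
    | mul x y _ _ hx hy =>
      rw [norm_mul]
      exact mul_le_one₀ hx (norm_nonneg _) hy
  · intro h0
    exact hB.π_ne (congrArg Subtype.val h0)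
  · intro i
    rw [hφx i]
    exact hB.t_lt i
  · intro x hx
    refine ⟨Fin.cons 0 (zS x), cS x * ∏ i, c i ^ zS x i, aS x / bS x,
      mul_ne_zero (hcS x hx) (Finset.prod_ne_zero_iff.2 fun i _ =>
        zpow_ne_zero _ (hB.c_ne i)), ?_, ?_, ?_⟩
    · rw [div_eq_mul_inv]
      exact mul_mem (hBB _ (haS x hx)) (hβU _ (hUbS x hx))
    · rw [inv_div, div_eq_mul_inv]
      exact mul_mem (hBB _ (hbS x hx)) (hβU _ (hUaS x hx))
    · have e1 : ∏ i, (φ (SSr.x i) : L) ^ (Fin.cons 0 (zS x) : Fin (r + 1) → ℤ) i =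
          ∏ i, tor k e c π i ^ (Fin.cons 0 (zS x) : Fin (r + 1) → ℤ) i := by
        refine Finset.prod_congr rfl fun i _ => ?_
        rw [hφx i]
      rw [e1, ← m1_mon_tor hB.c_ne]
      exact hxS x hx

end DA
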