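import Pool.Agent.Lib.DA.W1b

/-!
# Module W1c: the ring `RegS C z s₀` of values of regular rational functions
-/

namespace DA

open Polynomial MP1a953e

variable {E : Type*} [NormedField E] [IsUltrametricDist E] {C : Subfield E} {z : E} {s₀ : ℝ}

omit [IsUltrametricDist E] in
private theorem eval_mem_adj {P : E[X]} (hP : Coeffs C P) : P.eval z ∈ adj C z := by
  rw [Polynomial.eval_eq_sum]
  refine Subfield.sum_mem _ fun i _ => ?_
  exact (adj C z).mul_mem (le_adj C z (hP i)) (pow_mem (mem_adj_self C z) i)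

omit [IsUltrametricDist E] in
private theorem coeffs_C {c : E} (hc : c ∈ C) : Coeffs C (Polynomial.C c) := by
  intro i
  rw [Polynomial.coeff_C]
  split_ifs
  · exact hc
  · exact C.zero_mem

omit [IsUltrametricDist E] in
private theorem coeffs_add {P Q : E[X]} (hP : Coeffs C P) (hQ : Coeffs C Q) :
    Coeffs C (P + Q) := fun i => by
  rw [Polynomial.coeff_add]
  exact C.add_mem (hP i) (hQ i)

omit [IsUltrametricDist E] in
private theorem coeffs_neg {P : E[X]} (hP : Coeffs C P) : Coeffs C (-P) := fun i => by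
  rw [Polynomial.coeff_neg]
  exact C.neg_mem (hP i)

omit [IsUltrametricDist E] in
private theorem coeffs_mul {P Q : E[X]} (hP : Coeffs C P) (hQ : Coeffs C Q) :
    Coeffs C (P * Q) := fun i => by
  rw [Polynomial.coeff_mul]
  exact Subfield.sum_mem _ fun x _ => C.mul_mem (hP _) (hQ _)

private theorem reg_mul {P Q P' Q' R : E[X]} (h : Reg C z s₀ P Q) (h' : Reg C z s₀ P' Q')
    (hR : Coeffs C R) : Reg C z s₀ R (Q * Q') where
  cP := hR
  cQ := coeffs_mul h.cQ h'.cQ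
  ne := by
    rw [Polynomial.eval_mul]
    exact mul_ne_zero h.ne h'.ne
  eq := fun s hs hss => by
    rw [Polynomial.taylor_mul, gn_mul hs, h.eq s hs hss, h'.eq s hs hss, Polynomial.eval_mul,
      norm_mul]

theorem RegS.mem_adj {x : E} (hx : x ∈ RegS C z s₀) : x ∈ adj C z := by
  obtain ⟨P, Q, h, rfl⟩ := hx
  exact (adj C z).div_mem (eval_mem_adj h.cP) (eval_mem_adj h.cQ)

theorem RegS.const {c : E} (hc : c ∈ C) : c ∈ RegS C z s₀ := by
  refine ⟨Polynomial.C c, Polynomial.C 1, ⟨coeffs_C hc, coeffs_C C.one_mem, ?_, fun s _ _ => ?_⟩, ?_⟩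
  · rw [Polynomial.eval_C]
    exact one_ne_zero
  · rw [Polynomial.taylor_C, gn_C, Polynomial.eval_C]
  · rw [Polynomial.eval_C, Polynomial.eval_C, div_one]

theorem RegS.add {x y : E} (hx : x ∈ RegS C z s₀) (hy : y ∈ RegS C z s₀) :
    x + y ∈ RegS C z s₀ := by
  obtain ⟨P, Q, h, rfl⟩ := hx
  obtain ⟨P', Q', h', rfl⟩ := hy
  refine ⟨P * Q' + Q * P', Q * Q',
    reg_mul h h' (coeffs_add (coeffs_mul h.cP h'.cQ) (coeffs_mul h.cQ h'.cP)), ?_⟩
  rw [div_add_div _ _ h.ne h'.ne, Polynomial.eval_add, Polynomial.eval_mul, Polynomial.eval_mul,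
    Polynomial.eval_mul]

theorem RegS.mul {x y : E} (hx : x ∈ RegS C z s₀) (hy : y ∈ RegS C z s₀) :
    x * y ∈ RegS C z s₀ := by
  obtain ⟨P, Q, h, rfl⟩ := hx
  obtain ⟨P', Q', h', rfl⟩ := hy
  refine ⟨P * P', Q * Q', reg_mul h h' (coeffs_mul h.cP h'.cP), ?_⟩
  rw [div_mul_div_comm, Polynomial.eval_mul, Polynomial.eval_mul]

theorem RegS.neg {x : E} (hx : x ∈ RegS C z s₀) : -x ∈ RegS C z s₀ := by
  obtain ⟨P, Q, h, rfl⟩ := hx
  refine ⟨-P, Q, ⟨coeffs_neg h.cP, h.cQ, h.ne, h.eq⟩, ?_⟩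
  rw [Polynomial.eval_neg, neg_div]

theorem RegS.mono {s₁ : ℝ} (h : s₁ ≤ s₀) {x : E} (hx : x ∈ RegS C z s₀) : x ∈ RegS C z s₁ := by
  obtain ⟨P, Q, hr, rfl⟩ := hx
  exact ⟨P, Q, ⟨hr.cP, hr.cQ, hr.ne, fun s hs hss => hr.eq s hs (hss.trans_le h)⟩, rfl⟩

/-- the field of all values of rational functions over `C` -/
private def ratField (C : Subfield E) (z : E) : Subfield E where
  carrier := {x | ∃ P Q : E[X], Coeffs C P ∧ Coeffs C Q ∧ Q.eval z ≠ 0 ∧
    x = P.eval z / Q.eval z}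
  mul_mem' := by
    rintro x y ⟨P, Q, hP, hQ, h0, rfl⟩ ⟨P', Q', hP', hQ', h0', rfl⟩
    refine ⟨P * P', Q * Q', coeffs_mul hP hP', coeffs_mul hQ hQ', ?_, ?_⟩
    · rw [Polynomial.eval_mul]
      exact mul_ne_zero h0 h0'
    · rw [div_mul_div_comm, Polynomial.eval_mul, Polynomial.eval_mul]
  one_mem' := by
    refine ⟨Polynomial.C 1, Polynomial.C 1, coeffs_C C.one_mem, coeffs_C C.one_mem, ?_, ?_⟩
    · rw [Polynomial.eval_C]
      exact one_ne_zero
    · rw [Polynomial.eval_C, div_one]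
  add_mem' := by
    rintro x y ⟨P, Q, hP, hQ, h0, rfl⟩ ⟨P', Q', hP', hQ', h0', rfl⟩
    refine ⟨P * Q' + Q * P', Q * Q', coeffs_add (coeffs_mul hP hQ') (coeffs_mul hQ hP'),
      coeffs_mul hQ hQ', ?_, ?_⟩
    · rw [Polynomial.eval_mul]
      exact mul_ne_zero h0 h0'
    · rw [div_add_div _ _ h0 h0', Polynomial.eval_add, Polynomial.eval_mul, Polynomial.eval_mul,
        Polynomial.eval_mul]
  zero_mem' := by
    refine ⟨0, Polynomial.C 1, fun i => ?_, coeffs_C C.one_mem, ?_, ?_⟩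
    · rw [Polynomial.coeff_zero]
      exact C.zero_mem
    · rw [Polynomial.eval_C]
      exact one_ne_zero
    · rw [Polynomial.eval_zero, zero_div]
  neg_mem' := by
    rintro x ⟨P, Q, hP, hQ, h0, rfl⟩
    refine ⟨-P, Q, coeffs_neg hP, hQ, h0, ?_⟩
    rw [Polynomial.eval_neg, neg_div]
  inv_mem' := by
    rintro x ⟨P, Q, hP, hQ, h0, rfl⟩
    by_cases hp : P.eval z = 0
    · refine ⟨0, Polynomial.C 1, fun i => ?_, coeffs_C C.one_mem, ?_, ?_⟩
      · rw [Polynomial.coeff_zero]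
        exact C.zero_mem
      · rw [Polynomial.eval_C]
        exact one_ne_zero
      · rw [hp, Polynomial.eval_zero, zero_div, zero_div, inv_zero]
    · exact ⟨Q, P, hQ, hP, hp, by rw [inv_div]⟩

omit [IsUltrametricDist E] in
private theorem exists_rat {x : E} (hx : x ∈ adj C z) : ∃ P Q : E[X], Coeffs C P ∧ Coeffs C Q ∧
    Q.eval z ≠ 0 ∧ x = P.eval z / Q.eval z := by
  have hle : adj C z ≤ ratField C z := by
    refine adj_le (fun c hc => ?_) ?_
    · refine ⟨Polynomial.C c, Polynomial.C 1, coeffs_C hc, coeffs_C C.one_mem, ?_, ?_⟩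
      · rw [Polynomial.eval_C]
        exact one_ne_zero
      · rw [Polynomial.eval_C, Polynomial.eval_C, div_one]
    · refine ⟨X, Polynomial.C 1, fun i => ?_, coeffs_C C.one_mem, ?_, ?_⟩
      · rw [Polynomial.coeff_X]
        split_ifs
        · exact C.one_mem
        · exact C.zero_mem
      · rw [Polynomial.eval_C]
        exact one_ne_zero
      · rw [Polynomial.eval_X, Polynomial.eval_C, div_one]
  exact hle hx

/-- every element of `C(z)` is regular near `z` (numerator and denominator polynomials, and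
`exists_reg_radius`) -/
theorem exists_regS (hC : IsAlgClosed C) (hz : NA C z) {x : E} (hx : x ∈ adj C z) :
    ∃ s₁, Metric.infDist z (C : Set E) < s₁ ∧ x ∈ RegS C z s₁ := by
  obtain ⟨P, Q, hP, hQ, h0, rfl⟩ := exists_rat hx
  have hQ0 : Q ≠ 0 := by
    rintro rfl
    exact h0 Polynomial.eval_zero
  obtain ⟨s₁, h1, h2⟩ := exists_reg_radius hC hz hQ hQ0
  exact ⟨s₁, h1, P, Q, ⟨hP, hQ, h0, fun s hs hss => h2 s hs hss.le⟩, rfl⟩

/-- values of the absolute values `GaussAt` on `RegS`: for `x = P(z)/Q(z)` regular,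
`w x = gn s (taylor z P) / ‖Q z‖` -/
theorem GaussAt.val_reg {s : ℝ} {w : AbsoluteValue E ℝ} (hw : GaussAt C z s w) (hs : 0 < s)
    (hss : s < s₀) {P Q : E[X]} (h : Reg C z s₀ P Q) :
    w (P.eval z / Q.eval z) = gn s (taylor z P) / ‖Q.eval z‖ := by
  rw [map_div₀, hw.val P h.cP, hw.val Q h.cQ, h.eq s hs hss]

/-- if `x ∈ C(z)` is not zero then `w x = ‖x‖` for all `GaussAt C z s w` with `s` near the
distance -/
theorem exists_radius_eq (hC : IsAlgClosed C) (hz : NA C z) {x : E} (hx : x ∈ adj C z) :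
    ∃ s₁, Metric.infDist z (C : Set E) < s₁ ∧ ∀ s, 0 < s → s ≤ s₁ →
      ∀ w : AbsoluteValue E ℝ, GaussAt C z s w → w x = ‖x‖ := by
  obtain ⟨P, Q, hP, hQ, h0, rfl⟩ := exists_rat hx
  have hQ0 : Q ≠ 0 := by
    rintro rfl
    exact h0 Polynomial.eval_zero
  obtain ⟨s₁, h1, h2⟩ := exists_reg_radius hC hz hQ hQ0
  by_cases hP0 : P = 0
  · refine ⟨s₁, h1, fun s _ _ w _ => ?_⟩
    rw [hP0, Polynomial.eval_zero, zero_div, map_zero, norm_zero]
  · obtain ⟨s₂, h3, h4⟩ := exists_reg_radius hC hz hP hP0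
    refine ⟨min s₁ s₂, lt_min h1 h3, fun s hs hle w hw => ?_⟩
    rw [map_div₀, hw.val P hP, hw.val Q hQ, h2 s hs (hle.trans (min_le_left _ _)),
      h4 s hs (hle.trans (min_le_right _ _)), norm_div]

end DA
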