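import Pool.Agent.Lib.DA.La
import Pool.Agent.Lib.DA.W1c

/-!
# Module Lb: the family of absolute values on `L`
-/

namespace DA

open Polynomial MP1a953e

/-- Lb1.  Proof.  `GaussAt.val` for the polynomial `X - C b` and `gn_taylor_X_sub_C`. -/
theorem GaussAt.val_sub {E : Type*} [NormedField E] [IsUltrametricDist E] {C : Subfield E} {z : E}
    {s : ℝ} (hs : 0 < s) {w : AbsoluteValue E ℝ} (hw : GaussAt C z s w) :
    (∀ c ∈ C, w c = ‖c‖) ∧ ∀ b ∈ C, w (z - b) = max ‖z - b‖ s := by
  refine ⟨fun c hc => ?_, fun b hb => ?_⟩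
  · have hco : Coeffs C (Polynomial.C c) := by
      intro i
      rw [Polynomial.coeff_C]
      split_ifs
      · exact hc
      · exact C.zero_mem
    have h := hw.val (Polynomial.C c) hco
    rwa [Polynomial.eval_C, Polynomial.taylor_C, gn_C] at h
  · have hco : Coeffs C (X - Polynomial.C b) := by
      intro i
      rw [Polynomial.coeff_sub, Polynomial.coeff_C, Polynomial.coeff_X]
      refine C.sub_mem ?_ ?_
      · split_ifs
        · exact C.one_mem
        · exact C.zero_mem
      · split_ifs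
        · exact hb
        · exact C.zero_mem
    have h := hw.val (X - Polynomial.C b) hco
    rwa [Polynomial.eval_sub, Polynomial.eval_X, Polynomial.eval_C,
      gn_taylor_X_sub_C s hs] at h

private theorem lb_prod_le {E : Type*} [NormedField E] {C : Subfield E} {w : AbsoluteValue E ℝ}
    {t : E} (h0 : t ∉ C) (hle : ∀ b ∈ C, ‖t - b‖ ≤ w (t - b)) (m : Multiset C) :
    0 < ‖(m.map fun b : C => t - (b : E)).prod‖ ∧
      ‖(m.map fun b : C => t - (b : E)).prod‖ ≤ w (m.map fun b : C => t - (b : E)).prod := by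
  induction m using Multiset.induction_on with
  | empty => simp
  | cons b m ih =>
    rw [Multiset.map_cons, Multiset.prod_cons, norm_mul, map_mul]
    have hb : 0 < ‖t - (b : E)‖ := by
      rw [norm_pos_iff, sub_ne_zero]
      intro h
      exact h0 (h ▸ b.2)
    exact ⟨mul_pos hb ih.1, mul_le_mul (hle _ b.2) ih.2 (norm_nonneg _)
      ((norm_nonneg _).trans (hle _ b.2))⟩

private theorem lb_factor {E : Type*} [NormedField E] [IsUltrametricDist E] {C : Subfield E}
    (hC : IsAlgClosed C) {w : AbsoluteValue E ℝ} (hwC : ∀ c ∈ C, w c = ‖c‖) {t : E} (h0 : t ∉ C)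
    (hle : ∀ b ∈ C, ‖t - b‖ ≤ w (t - b)) {β : E} (hβ : β ∈ C) (hlt : ‖t - β‖ < w (t - β))
    {Q : E[X]} (hQ : Coeffs C Q) (hQ0 : Q ≠ 0) (hQβ : Q.eval β = 0) :
    ‖Q.eval t‖ < w (Q.eval t) := by
  have hl : Q ∈ lifts (algebraMap C E) := by
    rw [lifts_iff_coeff_lifts]
    intro n
    exact ⟨⟨Q.coeff n, hQ n⟩, rfl⟩
  obtain ⟨q, hq⟩ := (mem_lifts Q).1 hl
  have hq0 : q ≠ 0 := by
    rintro rfl
    rw [Polynomial.map_zero] at hq
    exact hQ0 hq.symm
  have hsp : q = Polynomial.C q.leadingCoeff * (q.roots.map fun a => X - Polynomial.C a).prod :=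
    (IsAlgClosed.splits q).eq_prod_roots
  have hev : Q.eval t = (q.leadingCoeff : E) * (q.roots.map fun a : C => t - (a : E)).prod := by
    rw [← hq]
    conv_lhs => rw [hsp]
    rw [Polynomial.map_mul, Polynomial.map_C, Polynomial.map_multiset_prod, Multiset.map_map,
      Polynomial.eval_mul, Polynomial.eval_C, Polynomial.eval_multiset_prod, Multiset.map_map]
    have hfun : (Polynomial.eval t ∘ Polynomial.map (algebraMap C E) ∘
        fun a => X - Polynomial.C a) = fun a : C => (t - (a : E)) := by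
      funext a
      simp only [Function.comp_apply, Polynomial.map_sub, Polynomial.map_X, Polynomial.map_C,
        Polynomial.eval_sub, Polynomial.eval_X, Polynomial.eval_C]
      rfl
    rw [hfun]
    rfl
  have hroot : (⟨β, hβ⟩ : C) ∈ q.roots := by
    rw [Polynomial.mem_roots hq0, Polynomial.IsRoot.def]
    have h1 : algebraMap C E (q.eval ⟨β, hβ⟩) = 0 := by
      rw [← Polynomial.eval₂_at_apply, ← Polynomial.eval_map, hq]
      exact hQβ
    exact (algebraMap C E).injective (by rw [h1, map_zero])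
  obtain ⟨m, hm⟩ := Multiset.exists_cons_of_mem hroot
  have ha : (q.leadingCoeff : E) ≠ 0 := by
    intro h
    have : q.leadingCoeff = 0 := Subtype.ext h
    exact hq0 (Polynomial.leadingCoeff_eq_zero.1 this)
  rw [hev, hm, Multiset.map_cons, Multiset.prod_cons, norm_mul, norm_mul, map_mul, map_mul,
    hwC _ q.leadingCoeff.2]
  obtain ⟨h1, h2⟩ := lb_prod_le h0 hle m
  refine mul_lt_mul_of_pos_left ?_ (norm_pos_iff.2 ha)
  exact mul_lt_mul hlt h2 h1 ((norm_nonneg _).trans (hle _ hβ))

/-- Lb (the family on `L`): `w' s = (w s) ∘ j`.  Proof.  `const`: `GaussAt.val` for constants. `le`, `mono`,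
`cont`, `eq`: from `WFam`, as `j g ∈ R` for `g ∈ A`. `strict`: let `s ∈ Iv C z s₀`. Choose `β₀ ∈ C` with
`‖z - β₀‖ ≤ s` (`infDist z C < s`), so `w s (z - β₀) = s` and `w s (z - β₀ - c) ≥ s` for all `c ∈ C`: `E` is
not immediate over `C` for `w s`. By `imm_w` (with `t = j T`, `ZSet.isAlgebraic`) there is
`β ∈ C` with `w s (j T - β) ≠ ‖j T - β‖`, so `‖j T - β‖ < w s (j T - β)` (`WFam.le`, `j T - β ∈ R`). Let
`q ∈ L[X]`, nonzero with coefficients in `M`, vanishing at `β` (`ZSet.alg`), `f = q.eval T ∈ A`.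
`q.map j = a * ∏ (X - β_l)` with all `β_l ∈ C` (`mem_of_eval_eq_zero`), one of them is `β`; every factor
satisfies `0 < ‖j T - β_l‖ ≤ w s (j T - β_l)`, with strict inequality for `β`, so `‖f‖ < w s (j f)`
(`‖j a‖ = w s (j a) ≠ 0`). -/
theorem lfam_of_wfam {k L E : Type*} [NormedField k] [NormedField L] [NormedAlgebra k L]
    [NormedField E] [IsUltrametricDist E] {M : IntermediateField k L} {C : Subfield E}
    {j : L →+* E} {z y : E} (h : ZSet M C j z y) {T : L} (hT : Transcendental M T)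
    {A : Subring L} (hMA : ∀ c ∈ M, c ∈ A) (hTA : T ∈ A) {R : Subring E}
    (hAR : ∀ g ∈ A, j g ∈ R) (hCR : ∀ c ∈ C, c ∈ R) {s₀ : ℝ} {w : ℝ → AbsoluteValue E ℝ}
    (hw : WFam C z R s₀ w) :
    LFam M A (Metric.infDist z (C : Set E)) s₀ fun s => (w s).comp j.injective := by
  have hpos : ∀ s ∈ Set.Ioo (Metric.infDist z (C : Set E)) s₀, 0 < s := fun s hs =>
    lt_of_le_of_lt Metric.infDist_nonneg hs.1
  refine
    { lt := hw.lt
      nonarch := fun s hs x y => ?_
      const := fun s hs c hc => ?_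
      le := fun s hs g hg => ?_
      mono := fun s hs s' hs' hss g hg => ?_
      cont := fun g hg => ?_
      eq := fun g => ?_
      strict := fun s hs => ?_ }
  · have h1 := (hw.gauss s hs).nonarch (j x) (j y)
    rw [← map_add] at h1
    exact h1
  · have h1 := (GaussAt.val_sub (hpos s hs) (hw.gauss s hs)).1 (j c) (h.mem c hc)
    rw [h.iso] at h1
    exact h1
  · have h1 := hw.le s hs (j g) (hAR g hg)
    rw [h.iso] at h1
    exact h1
  · exact hw.mono s hs s' hs' hss (j g) (hAR g hg)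
  · exact hw.cont (j g) (hAR g hg)
  · obtain ⟨s₁, h1, h2⟩ := hw.eq (j g)
    refine ⟨s₁, h1, fun s hs hlt => ?_⟩
    have h3 := h2 s hs hlt
    rw [h.iso] at h3
    exact h3
  · have hg := hw.gauss s hs
    obtain ⟨hwC, hwz⟩ := GaussAt.val_sub (hpos s hs) hg
    have hne : (C : Set E).Nonempty := ⟨0, C.zero_mem⟩
    obtain ⟨β₀, hβ₀, hd⟩ := (Metric.infDist_lt_iff hne).1 hs.1
    rw [dist_eq_norm] at hd
    have hβ₀' : β₀ ∈ C := hβ₀
    have h1 : w s (z - β₀) = s := by
      rw [hwz β₀ hβ₀', max_eq_right hd.le]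
    have h2 : ∀ c ∈ C, s ≤ w s (z - β₀ - c) := by
      intro c hc
      have h3 := hwz (β₀ + c) (C.add_mem hβ₀' hc)
      rw [← sub_sub] at h3
      rw [h3]
      exact le_max_right _ _
    have hx0 : z - β₀ ≠ 0 := by
      intro h0
      rw [h0, map_zero] at h1
      exact absurd h1 (hpos s hs).ne
    have h3 : ¬ ∀ b ∈ C, w s (j T - b) = ‖j T - b‖ := by
      intro ht
      obtain ⟨c, hc, hlt⟩ := imm_w h.closed h.imm hg.nonarch hwC
        (fun x => (h.isAlgebraic hT x).1) ht hx0
      rw [h1] at hlt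
      exact absurd hlt (not_lt.2 (h2 c hc))
    push Not at h3
    obtain ⟨β, hβ, hne'⟩ := h3
    have hle : ∀ b ∈ C, ‖j T - b‖ ≤ w s (j T - b) := fun b hb =>
      hw.le s hs _ (R.sub_mem (hAR T hTA) (hCR b hb))
    have hlt : ‖j T - β‖ < w s (j T - β) := lt_of_le_of_ne (hle β hβ) (Ne.symm hne')
    obtain ⟨P, hPM, hP0, hPβ⟩ := h.alg β hβ
    refine ⟨P.eval T, ?_, ?_⟩
    · rw [Polynomial.eval_eq_sum]
      exact A.sum_mem fun i _ => A.mul_mem (hMA _ (hPM i)) (A.pow_mem hTA i)
    · have hev : j (P.eval T) = (P.map j).eval (j T) := by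
        rw [Polynomial.eval_map, Polynomial.eval₂_hom]
      have h4 : ‖(P.map j).eval (j T)‖ < w s ((P.map j).eval (j T)) := by
        refine lb_factor h.closed hwC (h.isAlgebraic hT (j T)).2 hle hβ hlt ?_ ?_ ?_
        · intro i
          rw [Polynomial.coeff_map]
          exact h.mem _ (hPM i)
        · exact (Polynomial.map_ne_zero_iff j.injective).2 hP0
        · rw [Polynomial.eval_map]
          exact hPβ
      rw [← hev, h.iso] at h4
      exact h4

end DA
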