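import Pool.Agent.Lib.DA.Ba
import Pool.Agent.Lib.DA.Lb

/-!
# Module Bb: approximation by the spans of orthogonal families
-/

namespace DA

open Polynomial MP1a953e

private theorem bb_coeffs_map {E : Type*} [NormedField E] {C : Subfield E} (P : C[X]) :
    Coeffs C (P.map C.subtype) := fun i => by
  rw [Polynomial.coeff_map]
  exact (P.coeff i).2

private theorem bb_coeffs_mul {E : Type*} [NormedField E] {C : Subfield E} {P Q : E[X]}
    (hP : Coeffs C P) (hQ : Coeffs C Q) : Coeffs C (P * Q) := fun i => by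
  rw [Polynomial.coeff_mul]
  exact sum_mem fun x _ => mul_mem (hP _) (hQ _)

private theorem bb_coeffs_prod {E : Type*} [NormedField E] {C : Subfield E} {ι : Type*}
    (S : Finset ι) (P : ι → E[X]) (hP : ∀ i, Coeffs C (P i)) : Coeffs C (∏ i ∈ S, P i) := by
  classical
  induction S using Finset.induction_on with
  | empty =>
    intro i
    rw [Finset.prod_empty, Polynomial.coeff_one]
    split_ifs
    · exact C.one_mem
    · exact C.zero_mem
  | insert a S ha ih =>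
    rw [Finset.prod_insert ha]
    exact bb_coeffs_mul (hP a) ih

private theorem bb_coeffs_taylor {E : Type*} [NormedField E] {C : Subfield E} {P : E[X]}
    (hP : Coeffs C P) {β : E} (hβ : β ∈ C) : Coeffs C (taylor β P) := by
  have hl : P ∈ lifts (algebraMap C E) := by
    rw [lifts_iff_coeff_lifts]
    intro n
    exact ⟨⟨P.coeff n, hP n⟩, rfl⟩
  obtain ⟨q, hq⟩ := (mem_lifts P).1 hl
  have h1 : taylor β P = (taylor (⟨β, hβ⟩ : C) q).map C.subtype := by
    rw [Polynomial.taylor_apply, Polynomial.taylor_apply, Polynomial.map_comp, Polynomial.map_add,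
      Polynomial.map_X, Polynomial.map_C, ← hq]
    rfl
  rw [h1]
  exact bb_coeffs_map _

/-- Bb1 (Gauss norm at another centre): `w (∑_{l<n} c l * (z - β) ^ l) = max ‖c l‖ * s ^ l`, in the form of
two inequalities.  Proof.  `GaussAt.val` for `∑ C (c l) * (X - C β) ^ l`, whose Taylor expansion at `β` is
`∑ C (c l) * X ^ l`, and `gn_taylor_centre`; `coeff_le_gn`, `gn_le`. -/
theorem GaussAt.val_centre {E : Type*} [NormedField E] [IsUltrametricDist E] {C : Subfield E}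
    {z : E} {s : ℝ} (hs : 0 < s) {w : AbsoluteValue E ℝ} (hw : GaussAt C z s w) {β : E}
    (hβ : β ∈ C) (hzβ : ‖z - β‖ ≤ s) (n : ℕ) (c : ℕ → E) (hc : ∀ l, c l ∈ C) :
    (∀ l < n, ‖c l‖ * s ^ l ≤ w (∑ l ∈ Finset.range n, c l * (z - β) ^ l)) ∧
      ∀ B : ℝ, 0 ≤ B → (∀ l < n, ‖c l‖ * s ^ l ≤ B) →
        w (∑ l ∈ Finset.range n, c l * (z - β) ^ l) ≤ B := by
  obtain ⟨Q, hQ⟩ : ∃ Q : E[X], Q = ∑ l ∈ Finset.range n, Polynomial.C (c l) * X ^ l := ⟨_, rfl⟩
  have hQc : ∀ i, Q.coeff i = if i < n then c i else 0 := by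
    intro i
    rw [hQ, Polynomial.finsetSum_coeff]
    simp only [Polynomial.coeff_C_mul, Polynomial.coeff_X_pow, mul_ite, mul_one, mul_zero,
      Finset.sum_ite_eq, Finset.mem_range]
  have hQC : Coeffs C Q := fun i => by
    rw [hQc]
    split_ifs
    · exact hc i
    · exact C.zero_mem
  have hev : (taylor (-β) Q).eval z = ∑ l ∈ Finset.range n, c l * (z - β) ^ l := by
    rw [Polynomial.taylor_eval, ← sub_eq_add_neg, hQ, Polynomial.eval_finsetSum]
    exact Finset.sum_congr rfl fun l _ => by simp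
  have h1 := hw.val (taylor (-β) Q) (bb_coeffs_taylor hQC (C.neg_mem hβ))
  rw [hev, gn_taylor_centre hs hzβ, Polynomial.taylor_taylor, add_neg_cancel,
    Polynomial.taylor_zero] at h1
  rw [h1]
  refine ⟨fun l hl => ?_, fun B hB hle => ?_⟩
  · have h2 := coeff_le_gn hs.le Q l
    rwa [hQc, if_pos hl] at h2
  · refine gn_le Q fun i => ?_
    rw [hQc]
    split_ifs with hi
    · exact hle i hi
    · rw [norm_zero, zero_mul]
      exact hB

private theorem bb_fin {E : Type*} [NormedField E] [IsUltrametricDist E] {C : Subfield E}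
    {z : E} {s : ℝ} (hs : 0 < s) {w : AbsoluteValue E ℝ} (hw : GaussAt C z s w) {β : E}
    (hβ : β ∈ C) (hzβ : ‖z - β‖ ≤ s) {n : ℕ} (c : Fin n → E) (hc : ∀ l, c l ∈ C) :
    (∀ l, ‖c l‖ * s ^ (l : ℕ) ≤ w (∑ l, c l * (z - β) ^ (l : ℕ))) ∧
      ∀ B : ℝ, 0 ≤ B → (∀ l, ‖c l‖ * s ^ (l : ℕ) ≤ B) →
        w (∑ l, c l * (z - β) ^ (l : ℕ)) ≤ B := by
  obtain ⟨c', hc'⟩ : ∃ c' : ℕ → E, ∀ l, c' l = if h : l < n then c ⟨l, h⟩ else 0 :=
    ⟨_, fun _ => rfl⟩
  have h0 : ∀ l, c' l ∈ C := by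
    intro l
    rw [hc']
    split_ifs with h
    · exact hc _
    · exact C.zero_mem
  have h1 : ∀ l : Fin n, c' l = c l := by
    intro l
    rw [hc', dif_pos l.2]
  obtain ⟨h2, h3⟩ := GaussAt.val_centre hs hw hβ hzβ n c' h0
  rw [Finset.sum_range] at h2 h3
  simp only [h1] at h2 h3
  refine ⟨fun l => ?_, fun B hB hle => ?_⟩
  · have h4 := h2 l l.2
    rwa [h1] at h4
  · refine h3 B hB fun l hl => ?_
    have h4 := hle ⟨l, hl⟩
    rwa [← h1] at h4

/-- Bb.  Proof.  Let `β ∈ C` with `‖z - β‖ ≤ s` (`infDist z C < s`). By `WFam.approx` the elements `j (v i)`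
are approximated, up to `ε`, by `P i (z) / Q i (z)`; with the common denominator `Q = ∏ Q i`
(`w s (Q z) = ‖Q z‖ ≠ 0`) by `P' i (z) / Q(z)`, `P' i = ∑_{l < n'} p (i,l) (X - C β) ^ l`, `p (i,l) ∈ C`
(Taylor expansion at `β`; a common bound `n'` for the degrees). By `exists_sep_near` choose
`p' (i,l) ∈ C`, separable over `M`, with `‖p - p'‖ * s ^ l ≤ ε * ‖Q z‖`, let `X` be the finite set of all
`p' (i,l)`. `hst` gives `θ`, and `p' (i,l)` is approximated by `∑_t j (a (i,l,t)) θ t` up to the relative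
error `ε'` with `ε' * ‖p'(i,l)‖ * s ^ l ≤ ε * ‖Q z‖` for all `i, l`. The family
`η (t, l) = θ t * (z - β) ^ l / Q(z)` (`l < n'`; indexed by `Fin (l₀ * n')`, e.g. with `finProdFinEquiv`) is
orthogonal by Bb1 and the orthogonality of `θ` (elements `∑_t j (a t) θ t` are in `C`), and all
`η ≠ 0`; the approximation of `j (v i)` is `∑ j (a (i,l,t)) η (t,l)` (errors by Bb1). -/
theorem oapp_of_wfam {k L E : Type*} [NontriviallyNormedField k] [NormedField L]
    [NormedAlgebra k L] [NormedField E] [IsUltrametricDist E] {M : IntermediateField k L}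
    {C : Subfield E} {j : L →+* E} {z y : E} (h : ZSet M C j z y) (hst : MStab M C j)
    {R : Subring E} {s₀ : ℝ} {w : ℝ → AbsoluteValue E ℝ} (hw : WFam C z R s₀ w) {s : ℝ}
    (hs : s ∈ Iv C z s₀) {n : ℕ} (v : Fin n → L) (hv : ∀ i, j (v i) ∈ R) :
    OApp M j (w s) v := by
  classical
  intro ε hε
  have hs0 : 0 < s := lt_of_le_of_lt Metric.infDist_nonneg hs.1
  have hg := hw.gauss s hs
  obtain ⟨hwC, hwz⟩ := GaussAt.val_sub hs0 hg
  have hne : (C : Set E).Nonempty := ⟨0, C.zero_mem⟩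
  obtain ⟨β, hβ', hd⟩ := (Metric.infDist_lt_iff hne).1 hs.1
  rw [dist_eq_norm] at hd
  have hβ : β ∈ C := hβ'
  have hwβ : w s (z - β) = s := by rw [hwz β hβ, max_eq_right hd.le]
  have hzβ0 : z - β ≠ 0 := by
    intro h0
    rw [h0, map_zero] at hwβ
    exact absurd hwβ hs0.ne
  -- approximation by rational functions with a common denominator
  have happ : ∀ i, ∃ PQ : E[X] × E[X], Reg C z s₀ PQ.1 PQ.2 ∧
      w s (j (v i) - PQ.1.eval z / PQ.2.eval z) ≤ ε := by
    intro i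
    obtain ⟨P, Q, h1, h2⟩ := hw.approx s hs (j (v i)) (hv i) ε hε
    exact ⟨(P, Q), h1, h2⟩
  choose PQ hreg hPQ using happ
  obtain ⟨Q, hQ⟩ : ∃ Q : E[X], Q = ∏ i, (PQ i).2 := ⟨_, rfl⟩
  have hQz : Q.eval z ≠ 0 := by
    rw [hQ, Polynomial.eval_prod]
    exact Finset.prod_ne_zero_iff.2 fun i _ => (hreg i).ne
  obtain ⟨P', hP'⟩ : ∃ P' : Fin n → E[X],
      ∀ i, P' i = (PQ i).1 * ∏ i' ∈ Finset.univ.erase i, (PQ i').2 := ⟨_, fun _ => rfl⟩
  have hP'C : ∀ i, Coeffs C (P' i) := fun i => by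
    rw [hP' i]
    exact bb_coeffs_mul (hreg i).cP (bb_coeffs_prod _ _ fun i => (hreg i).cQ)
  have hP'Q : ∀ i, (P' i).eval z / Q.eval z = (PQ i).1.eval z / (PQ i).2.eval z := by
    intro i
    have h1 : Q = (PQ i).2 * ∏ i' ∈ Finset.univ.erase i, (PQ i').2 := by
      rw [hQ]
      exact (Finset.mul_prod_erase _ (fun i => (PQ i).2) (Finset.mem_univ i)).symm
    have h2 : (∏ i' ∈ Finset.univ.erase i, (PQ i').2).eval z ≠ 0 := by
      rw [Polynomial.eval_prod]
      exact Finset.prod_ne_zero_iff.2 fun i _ => (hreg i).ne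
    rw [h1, hP', Polynomial.eval_mul, Polynomial.eval_mul, mul_div_mul_right _ _ h2]
  obtain ⟨N, hN⟩ : ∃ N : ℕ, ∀ i, (P' i).natDegree < N :=
    ⟨∑ i, (P' i).natDegree + 1, fun i => Nat.lt_succ_of_le
      (Finset.single_le_sum (f := fun i => (P' i).natDegree) (fun _ _ => Nat.zero_le _)
        (Finset.mem_univ i))⟩
  obtain ⟨p, hp⟩ : ∃ p : Fin n → Fin N → E, ∀ i l, p i l = (taylor β (P' i)).coeff l :=
    ⟨_, fun _ _ => rfl⟩
  have hpC : ∀ i l, p i l ∈ C := fun i l => by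
    rw [hp]
    exact bb_coeffs_taylor (hP'C i) hβ _
  have hpev : ∀ i, (P' i).eval z = ∑ l, p i l * (z - β) ^ (l : ℕ) := by
    intro i
    have h1 : (taylor β (P' i)).eval (z - β) = (P' i).eval z := by
      rw [Polynomial.taylor_eval, sub_add_cancel]
    have h2 : (taylor β (P' i)).natDegree < N := by
      rw [Polynomial.natDegree_taylor]
      exact hN i
    rw [← h1, Polynomial.eval_eq_sum_range' h2, Finset.sum_range]
    exact Finset.sum_congr rfl fun l _ => by rw [hp]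
  obtain ⟨W, hW⟩ : ∃ W : ℝ, W = w s (Q.eval z) := ⟨_, rfl⟩
  have hW0 : 0 < W := by
    rw [hW]
    exact (w s).pos hQz
  have hεW : 0 < ε * W := mul_pos hε hW0
  -- separable approximations
  have hsep : ∀ i (l : Fin N), ∃ x' ∈ C, ‖p i l - x'‖ < ε * W / s ^ (l : ℕ) ∧
      ∃ P : L[X], CoeffsIn M P ∧ P.Separable ∧ P.eval₂ j x' = 0 := fun i l =>
    exists_sep_near h (hpC i l) (div_pos hεW (pow_pos hs0 _))
  choose p' hp'C hp'lt hp'sep using hsep
  obtain ⟨l₀, θ, hθ, hθo, hθa⟩ := hst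
    (Finset.univ.image fun il : Fin n × Fin N => p' il.1 il.2) (by
      intro x hx
      obtain ⟨il, -, rfl⟩ := Finset.mem_image.1 hx
      exact ⟨hp'C _ _, hp'sep _ _⟩)
  have hcl : ∀ i l, ∃ a : Fin l₀ → L, (∀ t, a t ∈ M) ∧
      ‖p' i l - ∑ t, j (a t) * θ t‖ * s ^ (l : ℕ) ≤ ε * W := by
    intro i l
    have hsl := pow_pos hs0 (l : ℕ)
    have hδ : 0 < ε * W / (s ^ (l : ℕ) * (‖p' i l‖ + 1)) :=
      div_pos hεW (mul_pos hsl (by positivity))
    obtain ⟨a, ha, hle⟩ := hθa (p' i l) (Subfield.subset_closure (Or.inr (by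
      rw [Finset.mem_coe]
      exact Finset.mem_image.2 ⟨(i, l), Finset.mem_univ _, rfl⟩))) _ hδ
    refine ⟨a, ha, ?_⟩
    calc ‖p' i l - ∑ t, j (a t) * θ t‖ * s ^ (l : ℕ)
        ≤ ε * W / (s ^ (l : ℕ) * (‖p' i l‖ + 1)) * ‖p' i l‖ * s ^ (l : ℕ) :=
          mul_le_mul_of_nonneg_right hle hsl.le
      _ = ε * W * (‖p' i l‖ / (‖p' i l‖ + 1)) := by
          have h1 : ‖p' i l‖ + 1 ≠ 0 := by positivity
          field_simp
      _ ≤ ε * W * 1 := by
          refine mul_le_mul_of_nonneg_left ?_ hεW.le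
          rw [div_le_one (by positivity)]
          linarith
      _ = ε * W := mul_one _
  choose a ha hal using hcl
  obtain ⟨η, hη⟩ : ∃ η : Fin (l₀ * N) → E, ∀ idx, η idx =
      θ (finProdFinEquiv.symm idx).1 * (z - β) ^ ((finProdFinEquiv.symm idx).2 : ℕ) /
        Q.eval z := ⟨_, fun _ => rfl⟩
  have hsum : ∀ b : Fin (l₀ * N) → L, ∑ idx, j (b idx) * η idx =
      (∑ l, (∑ t, j (b (finProdFinEquiv (t, l))) * θ t) * (z - β) ^ (l : ℕ)) / Q.eval z := by
    intro b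
    rw [← Equiv.sum_comp finProdFinEquiv, Fintype.sum_prod_type, Finset.sum_comm, Finset.sum_div]
    refine Finset.sum_congr rfl fun l _ => ?_
    rw [Finset.sum_mul, Finset.sum_div]
    refine Finset.sum_congr rfl fun t _ => ?_
    rw [hη, Equiv.symm_apply_apply]
    ring
  have hcC : ∀ b : Fin (l₀ * N) → L, (∀ i, b i ∈ M) → ∀ l,
      ∑ t, j (b (finProdFinEquiv (t, l))) * θ t ∈ C := fun b hb l =>
    sum_mem fun t _ => mul_mem (h.mem _ (hb _)) (hθ t).1
  refine ⟨l₀ * N, η, fun idx => ?_, fun b hb idx => ?_, fun i => ?_⟩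
  · rw [hη]
    exact div_ne_zero (mul_ne_zero (hθ _).2 (pow_ne_zero _ hzβ0)) hQz
  · obtain ⟨⟨t, l⟩, rfl⟩ := finProdFinEquiv.surjective idx
    rw [hsum, map_div₀, ← hW, hη, Equiv.symm_apply_apply]
    have h1 : j (b (finProdFinEquiv (t, l))) * (θ t * (z - β) ^ (l : ℕ) / Q.eval z) =
        (j (b (finProdFinEquiv (t, l))) * θ t) * (z - β) ^ (l : ℕ) / Q.eval z := by ring
    show w s (j (b (finProdFinEquiv (t, l))) * (θ t * (z - β) ^ (l : ℕ) / Q.eval z)) ≤ _
    rw [h1, map_div₀, ← hW]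
    refine div_le_div_of_nonneg_right ?_ hW0.le
    rw [map_mul, map_pow, hwβ, hwC _ (mul_mem (h.mem _ (hb _)) (hθ t).1)]
    refine le_trans ?_ ((bb_fin hs0 hg hβ hd.le
      (fun l => ∑ t, j (b (finProdFinEquiv (t, l))) * θ t) (hcC b hb)).1 l)
    refine mul_le_mul_of_nonneg_right ?_ (pow_pos hs0 _).le
    exact hθo (fun t => b (finProdFinEquiv (t, l))) (fun t => hb _) t
  · refine ⟨fun idx => a i (finProdFinEquiv.symm idx).2 (finProdFinEquiv.symm idx).1,
      fun idx => ha _ _ _, ?_⟩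
    have h1 := hsum fun idx => a i (finProdFinEquiv.symm idx).2 (finProdFinEquiv.symm idx).1
    simp only [Equiv.symm_apply_apply] at h1
    have h2 : j (v i) - ∑ idx, j (a i (finProdFinEquiv.symm idx).2
        (finProdFinEquiv.symm idx).1) * η idx =
        (j (v i) - (PQ i).1.eval z / (PQ i).2.eval z) +
          (∑ l, (p i l - ∑ t, j (a i l t) * θ t) * (z - β) ^ (l : ℕ)) / Q.eval z := by
      rw [h1, ← hP'Q i, hpev i]
      simp only [sub_mul, Finset.sum_sub_distrib]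
      ring
    rw [h2]
    refine (hg.nonarch _ _).trans (max_le (hPQ i) ?_)
    rw [map_div₀, ← hW, div_le_iff₀ hW0]
    refine (bb_fin hs0 hg hβ hd.le (fun l => p i l - ∑ t, j (a i l t) * θ t) fun l =>
      sub_mem (hpC i l) (sum_mem fun t _ => mul_mem (h.mem _ (ha i l t)) (hθ t).1)).2 _ hεW.le
      fun l => ?_
    have hsl := pow_pos hs0 (l : ℕ)
    have h3 : p i l - ∑ t, j (a i l t) * θ t =
        (p i l - p' i l) + (p' i l - ∑ t, j (a i l t) * θ t) := by ring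
    have h4 : ‖p i l - ∑ t, j (a i l t) * θ t‖ ≤
        max ‖p i l - p' i l‖ ‖p' i l - ∑ t, j (a i l t) * θ t‖ := by
      rw [h3]
      exact IsUltrametricDist.norm_add_le_max _ _
    calc ‖p i l - ∑ t, j (a i l t) * θ t‖ * s ^ (l : ℕ)
        ≤ max ‖p i l - p' i l‖ ‖p' i l - ∑ t, j (a i l t) * θ t‖ * s ^ (l : ℕ) :=
          mul_le_mul_of_nonneg_right h4 hsl.le
      _ ≤ ε * W := by
          rcases max_cases ‖p i l - p' i l‖ ‖p' i l - ∑ t, j (a i l t) * θ t‖ with h5 | h5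
          · rw [h5.1]
            have h6 := (hp'lt i l).le
            rwa [le_div_iff₀ hsl] at h6
          · rw [h5.1]
            exact hal i l

end DA
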