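import Pool.Agent.Lib.DA.Bc

/-!
# Module Bd: orthogonal families with dense span
-/

namespace DA

open Polynomial MP1a953e

private theorem bd_snoc {k L E : Type*} [NormedField k] [NormedField L] [NormedAlgebra k L]
    [NormedField E] {M : IntermediateField k L} {j : L →+* E} {w : AbsoluteValue E ℝ}
    (hw : IsNonarchimedean w) {l : ℕ} (v : Fin l → L) (x : L) {c₀ : ℝ} (hc₀ : 0 < c₀)
    (hlow : ∀ a : Fin l → L, (∀ i, a i ∈ M) →
        ∀ i, c₀ * w (j (a i * v i)) ≤ w (j (∑ t, a t * v t))) {δ : ℝ} (hδ : 0 < δ)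
    (hdist : ∀ a : Fin l → L, (∀ i, a i ∈ M) → δ ≤ w (j (x - ∑ t, a t * v t))) :
    ∃ c₁ : ℝ, 0 < c₁ ∧ ∀ a : Fin (l + 1) → L, (∀ i, a i ∈ M) →
      (∀ i : Fin l, c₁ * w (j (a i.castSucc * v i)) ≤
        w (j (∑ t : Fin l, a t.castSucc * v t + a (Fin.last l) * x))) ∧
      c₁ * w (j (a (Fin.last l) * x)) ≤
        w (j (∑ t : Fin l, a t.castSucc * v t + a (Fin.last l) * x)) := by
  set K : ℝ := max 1 (w (j x) / δ) with hK
  have hK1 : 1 ≤ K := le_max_left _ _
  have hK0 : 0 < K := by linarith
  have hKd : w (j x) ≤ K * δ := by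
    rw [← div_le_iff₀ hδ]; exact le_max_right _ _
  refine ⟨min c₀ 1 / K, div_pos (lt_min hc₀ one_pos) hK0, fun a ha => ?_⟩
  set y : L := ∑ t : Fin l, a t.castSucc * v t with hy
  set b : L := a (Fin.last l) with hb
  set T : ℝ := w (j (y + b * x)) with hT
  have hT0 : 0 ≤ T := w.nonneg _
  have h1 : w (j b) * δ ≤ T := by
    by_cases hb0 : b = 0
    · rw [hb0, map_zero, map_zero, zero_mul]; exact hT0
    · have e : y + b * x = b * (x - ∑ t : Fin l, (-(b⁻¹ * a t.castSucc)) * v t) := by
        rw [mul_sub, Finset.mul_sum, hy]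
        have : ∀ t : Fin l, b * (-(b⁻¹ * a t.castSucc) * v t) = -(a t.castSucc * v t) := by
          intro t
          field_simp
        rw [Finset.sum_congr rfl fun t _ => this t, Finset.sum_neg_distrib]
        ring
      rw [hT, e, map_mul, map_mul]
      refine mul_le_mul_of_nonneg_left (hdist _ fun t => ?_) (w.nonneg _)
      exact neg_mem (mul_mem (inv_mem (ha _)) (ha _))
  have h2 : w (j (b * x)) ≤ T * K := by
    rw [map_mul, map_mul]
    calc w (j b) * w (j x) ≤ w (j b) * (K * δ) := mul_le_mul_of_nonneg_left hKd (w.nonneg _)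
      _ = (w (j b) * δ) * K := by ring
      _ ≤ T * K := mul_le_mul_of_nonneg_right h1 hK0.le
  have h3 : w (j y) ≤ T * K := by
    have e : j y = j (y + b * x) + -(j (b * x)) := by rw [map_add]; ring
    rw [e]
    refine (hw _ _).trans (max_le ?_ ?_)
    · calc w (j (y + b * x)) = T * 1 := by rw [mul_one]
        _ ≤ T * K := mul_le_mul_of_nonneg_left hK1 hT0
    · rw [map_neg_eq_map]; exact h2
  constructor
  · intro i
    rw [div_mul_eq_mul_div, div_le_iff₀ hK0]
    refine le_trans ?_ h3
    exact (mul_le_mul_of_nonneg_right (min_le_left _ _) (w.nonneg _)).trans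
      (hlow (fun t => a t.castSucc) (fun t => ha _) i)
  · rw [div_mul_eq_mul_div, div_le_iff₀ hK0]
    refine le_trans ?_ h2
    calc min c₀ 1 * w (j (b * x)) ≤ 1 * w (j (b * x)) :=
          mul_le_mul_of_nonneg_right (min_le_right _ _) (w.nonneg _)
      _ = w (j (b * x)) := one_mul _

private theorem bd_sum_le {E ι : Type*} [Field E] {w : AbsoluteValue E ℝ}
    (hw : IsNonarchimedean w) (s : Finset ι) (f : ι → E) {B : ℝ} (hB : 0 ≤ B)
    (h : ∀ i ∈ s, w (f i) ≤ B) : w (∑ i ∈ s, f i) ≤ B := by
  classical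
  induction s using Finset.induction_on with
  | empty => simpa using hB
  | insert a s ha ih =>
    rw [Finset.sum_insert ha]
    exact (hw _ _).trans (max_le (h a (Finset.mem_insert_self _ _))
      (ih fun i hi => h i (Finset.mem_insert_of_mem hi)))

/-- Bd1 (independence over the completion).  From a finite family one can select a subfamily with a lower
bound, whose span is dense in the span of the family.  Proof.  Induction on `n`: let `v = (v', v_n)` and
select `σ'` from `v'`. If `v_n` can be approximated arbitrarily well (for `w ∘ j`) by elements of the span of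
the selected `v' i`, take `σ = σ'`. Otherwise there is `δ > 0` with `w (j (v_n - x)) ≥ δ` for all `x` in this
span; add `n`: for `x + a v_n`, `a ∈ M`: `w (j (x + a v_n)) ≥ w (j a) * δ`, and
`w (j x) ≤ max (w (j (x + a v_n))) (w (j a) w (j v_n)) ≤ max 1 (w (j v_n) / δ) * w (j (x + a v_n))`, which gives
a new lower bound `c₀`. Density: closure of a subspace is a subspace. (`M` need not be complete.) -/
theorem exists_select {k L E : Type*} [NormedField k] [NormedField L] [NormedAlgebra k L]
    [NormedField E] {M : IntermediateField k L} {j : L →+* E} {w : AbsoluteValue E ℝ}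
    (hw : IsNonarchimedean w) {n : ℕ} (v : Fin n → L) :
    ∃ (l : ℕ) (σ : Fin l → Fin n) (c₀ : ℝ), 0 < c₀ ∧ (∀ i, v (σ i) ≠ 0) ∧
      (∀ a : Fin l → L, (∀ i, a i ∈ M) →
        ∀ i, c₀ * w (j (a i * v (σ i))) ≤ w (j (∑ t, a t * v (σ t)))) ∧
      ∀ i, ∀ ε : ℝ, 0 < ε → ∃ a : Fin l → L, (∀ t, a t ∈ M) ∧
        w (j (v i - ∑ t, a t * v (σ t))) ≤ ε := by
  induction n with
  | zero =>
    refine ⟨0, Fin.elim0, 1, one_pos, fun i => i.elim0, fun _ _ i => i.elim0, fun i => i.elim0⟩
  | succ n ih =>
    obtain ⟨l, σ, c₀, hc₀, hne, hlow, hden⟩ := ih (fun i => v i.castSucc)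
    by_cases hcase : ∀ ε : ℝ, 0 < ε → ∃ a : Fin l → L, (∀ t, a t ∈ M) ∧
        w (j (v (Fin.last n) - ∑ t, a t * v (σ t).castSucc)) ≤ ε
    · refine ⟨l, fun i => (σ i).castSucc, c₀, hc₀, hne, hlow, fun i => ?_⟩
      refine Fin.lastCases ?_ (fun i => ?_) i
      · exact hcase
      · exact hden i
    · push Not at hcase
      obtain ⟨δ, hδ, hdist⟩ := hcase
      have hlast : v (Fin.last n) ≠ 0 := by
        intro h0
        have := hdist 0 (fun _ => zero_mem M)
        simp [h0] at this
        linarith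
      obtain ⟨c₁, hc₁, hlow'⟩ := bd_snoc hw (fun i => v (σ i).castSucc) (v (Fin.last n)) hc₀
        hlow hδ (fun a ha => (hdist a ha).le)
      refine ⟨l + 1, Fin.snoc (fun i => (σ i).castSucc) (Fin.last n), c₁, hc₁, fun i => ?_,
        fun a ha i => ?_, fun i ε hε => ?_⟩
      · refine Fin.lastCases ?_ (fun i => ?_) i
        · rw [Fin.snoc_last]; exact hlast
        · rw [Fin.snoc_castSucc]; exact hne i
      · have h1 := hlow' a ha
        have h2 : (∑ t, a t * v ((Fin.snoc (fun i => (σ i).castSucc) (Fin.last n) :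
            Fin (l + 1) → Fin (n + 1)) t)) =
            ∑ t : Fin l, a t.castSucc * v (σ t).castSucc + a (Fin.last l) * v (Fin.last n) := by
          rw [Fin.sum_univ_castSucc, Fin.snoc_last]
          congr 1
          refine Finset.sum_congr rfl fun t _ => ?_
          rw [Fin.snoc_castSucc]
        rw [h2]
        refine Fin.lastCases ?_ (fun i => ?_) i
        · rw [Fin.snoc_last]; exact h1.2
        · rw [Fin.snoc_castSucc]; exact h1.1 i
      · refine Fin.lastCases ?_ (fun i => ?_) i
        · refine ⟨Fin.snoc (fun _ => 0) 1, fun t => ?_, ?_⟩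
          · refine Fin.lastCases ?_ (fun t => ?_) t
            · rw [Fin.snoc_last]; exact one_mem M
            · rw [Fin.snoc_castSucc]; exact zero_mem M
          · rw [Fin.sum_univ_castSucc, Fin.snoc_last, Fin.snoc_last, one_mul]
            have : (∑ t : Fin l, (Fin.snoc (fun _ => 0) 1 : Fin (l + 1) → L) t.castSucc *
                v ((Fin.snoc (fun i => (σ i).castSucc) (Fin.last n) :
                  Fin (l + 1) → Fin (n + 1)) t.castSucc)) = 0 := by
              refine Finset.sum_eq_zero fun t _ => ?_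
              rw [Fin.snoc_castSucc, zero_mul]
            rw [this, zero_add, sub_self, map_zero, map_zero]
            exact hε.le
        · obtain ⟨a, ha, hae⟩ := hden i ε hε
          refine ⟨Fin.snoc a 0, fun t => ?_, ?_⟩
          · refine Fin.lastCases ?_ (fun t => ?_) t
            · rw [Fin.snoc_last]; exact zero_mem M
            · rw [Fin.snoc_castSucc]; exact ha t
          · rw [Fin.sum_univ_castSucc, Fin.snoc_last, zero_mul, add_zero]
            have : (∑ t : Fin l, (Fin.snoc a 0 : Fin (l + 1) → L) t.castSucc *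
                v ((Fin.snoc (fun i => (σ i).castSucc) (Fin.last n) :
                  Fin (l + 1) → Fin (n + 1)) t.castSucc)) = ∑ t, a t * v (σ t).castSucc := by
              refine Finset.sum_congr rfl fun t _ => ?_
              rw [Fin.snoc_castSucc, Fin.snoc_castSucc]
            rw [this]
            exact hae

/-- Bd.  Proof.  Let `v` be a finite generating family of `V` (`hfin`), `σ, c₀` as in Bd1. `obx_of_oapp` for the
subfamily `v ∘ σ` gives an exact orthogonal basis `b` of the span `V'` of the subfamily, `V' ≤ V`. Every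
`x ∈ V`, `x ≠ 0`, is `∑ a i v i`; approximating the `v i` by elements of `V'` we get `x' ∈ V'` with
`w (j (x - x')) ≤ ε * w (j x)`, and `x' = ∑ a j b j`. (`x = 0`: take `a = 0`.) -/
theorem aob_of_oapp {k L E : Type*} [NormedField k] [NormedField L] [NormedAlgebra k L]
    [NormedField E] {M : IntermediateField k L} {j : L →+* E} {w : AbsoluteValue E ℝ}
    (hw : IsNonarchimedean w) {V : Submodule M L} (hfin : Module.Finite M V)
    (happ : ∀ (n : ℕ) (v : Fin n → L), (∀ i, v i ∈ V) → OApp M j w v) :
    AOB M (w.comp j.injective) V := by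
  classical
  obtain ⟨n, v, hv⟩ := Submodule.fg_iff_exists_fin_generating_family.1
    (Module.Finite.iff_fg.1 hfin)
  have hvV : ∀ i, v i ∈ V := fun i => by
    rw [← hv]; exact Submodule.subset_span ⟨i, rfl⟩
  obtain ⟨l, σ, c₀, hc₀, hne, hlow, hden⟩ := exists_select (M := M) (j := j) hw v
  obtain ⟨l', b, hbV, hborth, hbgen⟩ := obx_of_oapp hw (v := fun i => v (σ i)) hne hc₀ hlow
    (happ l (fun i => v (σ i)) fun i => hvV _)
  have hle : Submodule.span M (Set.range fun i => v (σ i)) ≤ V := by
    rw [Submodule.span_le]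
    rintro _ ⟨i, rfl⟩
    exact hvV _
  refine ⟨l', b, fun i => hle (hbV i), hborth, fun x hx ε hε => ?_⟩
  by_cases hx0 : x = 0
  · refine ⟨fun _ => 0, fun _ => zero_mem M, ?_⟩
    simp [hx0]
  · rw [← hv, Submodule.mem_span_range_iff_exists_fun] at hx
    obtain ⟨c, hc⟩ := hx
    have hwx : 0 < w (j x) := w.pos ((map_ne_zero j).2 hx0)
    set B : ℝ := ∑ i, w (j (c i : L)) + 1 with hB
    have hB0 : 0 < B := by
      have : 0 ≤ ∑ i, w (j (c i : L)) := Finset.sum_nonneg fun i _ => w.nonneg _
      linarith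
    have hBi : ∀ i, w (j (c i : L)) ≤ B := fun i => by
      have := Finset.single_le_sum (f := fun i => w (j (c i : L)))
        (fun i _ => w.nonneg _) (Finset.mem_univ i)
      linarith
    have hη : 0 < ε * w (j x) / B := div_pos (mul_pos hε hwx) hB0
    choose A hAM hA using fun i => hden i (ε * w (j x) / B) hη
    set x' : L := ∑ i, (c i : L) * ∑ t, A i t * v (σ t) with hx'
    have hx'V : x' ∈ Submodule.span M (Set.range fun i => v (σ i)) := by
      refine Submodule.sum_mem _ fun i _ => ?_
      have h1 : (∑ t, A i t * v (σ t)) ∈ Submodule.span M (Set.range fun i => v (σ i)) := by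
        refine Submodule.sum_mem _ fun t _ => ?_
        exact Submodule.smul_mem _ (⟨A i t, hAM i t⟩ : M) (Submodule.subset_span ⟨t, rfl⟩)
      exact Submodule.smul_mem _ (c i) h1
    obtain ⟨a, haM, hxa⟩ := hbgen x' hx'V
    refine ⟨a, haM, ?_⟩
    rw [← hxa]
    show w (j (x - x')) ≤ ε * w (j x)
    have e : j (x - x') = ∑ i, j ((c i : L) * (v i - ∑ t, A i t * v (σ t))) := by
      rw [← map_sum]
      congr 1
      rw [← hc, hx', ← Finset.sum_sub_distrib]
      refine Finset.sum_congr rfl fun i _ => ?_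
      rw [mul_sub]
      rfl
    rw [e]
    refine bd_sum_le hw _ _ (mul_pos hε hwx).le fun i _ => ?_
    rw [map_mul, map_mul]
    calc w (j (c i : L)) * w (j (v i - ∑ t, A i t * v (σ t)))
        ≤ B * (ε * w (j x) / B) := mul_le_mul (hBi i) (hA i) (w.nonneg _) hB0.le
      _ = ε * w (j x) := by field_simp

end DA
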