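import Pool.Agent.Lib.DA.D0

/-!
# Module D1: existence of the division data
-/

namespace DA

open Polynomial MP1a953e

section
variable {k L : Type*} [NormedField k] [NormedField L] [NormedAlgebra k L]

private theorem d1_le {A : Subring L} {w : AbsoluteValue L ℝ} {a : L} (ha : a ∈ A) :
    a ∈ RS A w := ⟨a, ha, 1, one_mem A, one_ne_zero, by simp, by simp⟩

private theorem d1_common {A : Subring L} {w : AbsoluteValue L ℝ} (T : Finset L)
    (hT : ∀ t ∈ T, t ∈ RS A w) : ∃ b ∈ A, b ≠ 0 ∧ w b = ‖b‖ ∧ ∀ t ∈ T, b * t ∈ A := by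
  classical
  induction T using Finset.induction_on with
  | empty => exact ⟨1, one_mem A, one_ne_zero, by simp, by simp⟩
  | insert x T hx ih =>
    obtain ⟨b, hb, hb0, hwb, hbT⟩ := ih fun t ht => hT t (Finset.mem_insert_of_mem ht)
    obtain ⟨a, ha, c, hc, hc0, hwc, rfl⟩ := hT x (Finset.mem_insert_self _ _)
    refine ⟨b * c, mul_mem hb hc, mul_ne_zero hb0 hc0, by rw [map_mul, norm_mul, hwb, hwc], ?_⟩
    intro t ht
    rcases Finset.mem_insert.mp ht with rfl | ht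
    · have : b * c * (a / c) = b * a := by field_simp
      rw [this]
      exact mul_mem hb ha
    · have : b * c * t = c * (b * t) := by ring
      rw [this]
      exact mul_mem hc (hbT t ht)

end

/-- D1a.  If `w g = ‖g‖` on `V d` and `f ∈ V (d+1)`, `‖f‖ < w f = 1`, then `DIVd` holds for
`R = RS A w` and `V d`.  Proof.  `le`, `inv`, `V_le` clear. `div` is `exact_division`. `bdd` with
`N = n * (d + 1)`: if `Y ≤ R` is finite dimensional and `w = ‖·‖` on `Y`, multiply by a common denominator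
`b` (of generators), `w b = ‖b‖`: `b Y ≤ A`, `w = ‖·‖` on `b Y`, and `b Y` meets `f A` trivially
(`‖f c‖ < w (f c)` for `c ≠ 0`), so `Filt.bound`. -/
theorem divd_of_filt {k L : Type*} [NormedField k] [NormedField L] [IsUltrametricDist L]
    [NormedAlgebra k L] {M : IntermediateField k L} {A : Subring L} {V : ℕ → Submodule M L}
    {n : ℕ} (h : Filt M A V n) {w : AbsoluteValue L ℝ} (hw : IsNonarchimedean w)
    (hle : ∀ g ∈ A, ‖g‖ ≤ w g) {d : ℕ} (heq : ∀ g ∈ V d, w g = ‖g‖) {f : L}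
    (hf : f ∈ V (d + 1)) (hlt : ‖f‖ < 1) (hf1 : w f = 1)
    (hbig : n * (d + 1) < 2 * Module.finrank M (V d)) : DIVd M (RS A w) w (V d) f := by
  have hVA : ∀ D, ∀ g ∈ V D, g ∈ A := fun D g hg => (h.mem g).2 ⟨D, hg⟩
  have hfA : f ∈ A := hVA _ f hf
  have hf0 : f ≠ 0 := by
    rintro rfl
    rw [map_zero] at hf1
    exact zero_ne_one hf1
  refine
    { nonarch := hw
      M_le := ?_
      le := ?_
      inv := ?_
      V_le := fun g hg => d1_le (hVA d g hg)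
      one := h.mono (Nat.zero_le d) h.one
      eqV := heq
      fin := h.fin d
      f_mem := d1_le hfA
      f_lt := hlt
      f_w := hf1
      div := ?_
      bdd := ?_
      frac := ?_ }
  · intro c hc
    refine d1_le (hVA 0 c ?_)
    have h1 := (V 0).smul_mem (⟨c, hc⟩ : M) h.one
    have h2 : (⟨c, hc⟩ : M) • (1 : L) = c := by
      rw [Algebra.smul_def, mul_one]
      rfl
    rwa [h2] at h1
  · rintro q ⟨a, ha, b, hb, hb0, hwb, rfl⟩
    rw [map_div₀, norm_div, hwb]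
    have hb' : 0 < ‖b‖ := norm_pos_iff.mpr hb0
    gcongr
    exact hle a ha
  · rintro q ⟨a, ha, b, hb, hb0, hwb, rfl⟩ hq
    have hb' : 0 < ‖b‖ := norm_pos_iff.mpr hb0
    rw [map_div₀, norm_div, hwb] at hq
    have hwa : w a = ‖a‖ := by
      field_simp at hq
      exact hq
    by_cases ha0 : a = 0
    · subst ha0
      simpa using zero_mem (RS A w)
    · exact ⟨b, hb, a, ha, ha0, hwa, by rw [inv_div]⟩
  · intro q hq
    obtain ⟨x, hx, B, hB, hB0, y, hy, he, h1, h2⟩ :=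
      exact_division h hw hle heq hf (by rw [hf1]; exact hlt) hbig hq
    refine ⟨x, hx, B, hB, hB0, y, hy, he, h1, ?_⟩
    rwa [map_mul, hf1, one_mul] at h2
  · refine ⟨n * (d + 1), ?_⟩
    intro Y hYfin hYR hYw
    obtain ⟨T, hT⟩ := Module.Finite.iff_fg.mp hYfin
    have hTY : ∀ t ∈ T, t ∈ Y := fun t ht => by
      rw [← hT]
      exact Submodule.subset_span ht
    obtain ⟨b, hb, hb0, hwb, hbT⟩ := d1_common (A := A) (w := w) T fun t ht => hYR t (hTY t ht)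
    let μ : L →ₗ[M] L := LinearMap.mulLeft M b
    have hμ : Function.Injective μ := fun x y hxy => mul_left_cancel₀ hb0 hxy
    let Y' : Submodule M L := Y.map μ
    have hY'A : ∀ y ∈ Y', y ∈ A := by
      rintro y ⟨x, hx, rfl⟩
      change b * x ∈ A
      have hx' : x ∈ Submodule.span M (T : Set L) := by rwa [hT]
      refine Submodule.span_induction (p := fun x _ => b * x ∈ A) ?_ ?_ ?_ ?_ hx'
      · intro x hx
        exact hbT x hx
      · simpa using zero_mem A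
      · intro x y _ _ hx hy
        rw [mul_add]
        exact add_mem hx hy
      · intro c x _ hx
        rw [mul_smul_comm, (h.mem _)]
        obtain ⟨D, hD⟩ := (h.mem _).1 hx
        exact ⟨D, (V D).smul_mem c hD⟩
    have hY'fin : Module.Finite M Y' := Module.Finite.map Y μ
    have hfr : Module.finrank M Y' = Module.finrank M Y :=
      (Submodule.equivMapOfInjective μ hμ Y).finrank_eq.symm
    rw [← hfr]
    refine h.bound hf hf0 Y' hY'A ?_
    rintro y ⟨x, hx, rfl⟩ c hc hyc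
    change b * x = f * c at hyc
    change b * x = 0
    by_contra hne
    have hc0 : c ≠ 0 := by
      rintro rfl
      rw [mul_zero] at hyc
      exact hne hyc
    have h1 : w (b * x) = ‖b * x‖ := by rw [map_mul, norm_mul, hwb, hYw x hx]
    rw [hyc, map_mul, norm_mul, hf1, one_mul] at h1
    have h2 := hle c hc
    have h3 : 0 < ‖c‖ := norm_pos_iff.mpr hc0
    nlinarith
  · intro x
    obtain ⟨a, ha, b, hb, hb0, hx⟩ := h.frac x
    exact ⟨a, d1_le ha, b, d1_le hb, hb0, hx⟩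

private theorem d1_dense {k : Type*} [NontriviallyNormedField k] [IsAlgClosed k] {a b : ℝ}
    (ha : 0 < a) (hab : a < b) : ∃ c : k, a < ‖c‖ ∧ ‖c‖ < b := by
  obtain ⟨x, hx⟩ := NormedField.exists_one_lt_norm k
  have h1 : 1 < b / a := (one_lt_div ha).2 hab
  obtain ⟨n, hn⟩ := pow_unbounded_of_one_lt ‖x‖ h1
  have hn0 : n ≠ 0 := by
    rintro rfl
    rw [pow_zero] at hn
    exact absurd hn (not_lt.mpr hx.le)
  obtain ⟨y, hy⟩ := IsAlgClosed.exists_pow_nat_eq x (Nat.pos_of_ne_zero hn0)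
  have hy1 : 1 < ‖y‖ := by
    by_contra hcon
    push Not at hcon
    have : ‖y‖ ^ n ≤ 1 := pow_le_one₀ (norm_nonneg _) hcon
    rw [← norm_pow, hy] at this
    exact absurd this (not_le.mpr hx)
  have hy2 : ‖y‖ < b / a := by
    by_contra hcon
    push Not at hcon
    have : (b / a) ^ n ≤ ‖y‖ ^ n := by gcongr
    rw [← norm_pow, hy] at this
    exact absurd this (not_le.mpr hn)
  obtain ⟨m, hm1, hm2⟩ := exists_mem_Ico_zpow ha hy1
  refine ⟨y ^ (m + 1), ?_, ?_⟩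
  · rw [norm_zpow]
    exact hm2
  · rw [norm_zpow, zpow_add_one₀ (by linarith)]
    calc ‖y‖ ^ m * ‖y‖ ≤ a * ‖y‖ := by gcongr
      _ < a * (b / a) := by gcongr
      _ = b := by field_simp

private theorem d1_small {L : Type*} [NormedField L] {ρ s₀ : ℝ} {w : ℝ → AbsoluteValue L ℝ}
    (heq : ∀ g : L, ∃ s₁, ρ < s₁ ∧ ∀ s ∈ Set.Ioo ρ s₀, s < s₁ → w s g = ‖g‖) (S : Finset L) :
    ∃ t, ρ < t ∧ ∀ x ∈ S, ∀ s ∈ Set.Ioo ρ s₀, s < t → w s x = ‖x‖ := by
  classical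
  induction S using Finset.induction_on with
  | empty => exact ⟨ρ + 1, by linarith, by simp⟩
  | insert x S hx ih =>
    obtain ⟨t, ht, h⟩ := ih
    obtain ⟨t', ht', h'⟩ := heq x
    refine ⟨min t t', lt_min ht ht', ?_⟩
    intro y hy s hs hst
    rcases Finset.mem_insert.mp hy with rfl | hy
    · exact h' s hs (lt_of_lt_of_le hst (min_le_right _ _))
    · exact h y hy s hs (lt_of_lt_of_le hst (min_le_left _ _))

/-- D1b.  Proof.  Choose `s₃ ∈ (ρ, s₀)` with `s₃ < s₂` and `w s x = ‖x‖` for `x ∈ S`, `s ≤ s₃`. By `strict`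
there is a smallest `D` such that `V D` contains an `f₁` with `‖f₁‖ < w s₃ f₁`; `D = d + 1`, since
`w s₃ = ‖·‖` on `V 0 ≤ M`. As `s ↦ w s f₁` is continuous on `(ρ, s₀)` and equal to `‖f₁‖` near `ρ`, and
the norms of `k` are dense (`k` algebraically closed, nontrivially valued), there are `c ∈ k` and
`s ∈ (ρ, s₃]` with `‖f₁‖ < ‖c‖ = w s f₁`. For `g ∈ V d` we have `‖g‖ ≤ w s g ≤ w s₃ g = ‖g‖` by
`mono`. `f = f₁ / c`. Use `hbig` for `s` and `d`, and D1a. -/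
theorem exists_divd {k L : Type*} [NontriviallyNormedField k] [IsUltrametricDist k]
    [IsAlgClosed k] [NormedField L] [IsUltrametricDist L] [NormedAlgebra k L]
    {M : IntermediateField k L} {A : Subring L} {V : ℕ → Submodule M L} {n : ℕ}
    (h : Filt M A V n) {ρ s₀ : ℝ} {w : ℝ → AbsoluteValue L ℝ} (hL : LFam M A ρ s₀ w)
    {s₂ : ℝ} (hs₂ : ρ < s₂)
    (hbig : ∀ s ∈ Set.Ioo ρ s₀, s < s₂ → ∀ d, (∀ g ∈ V d, w s g = ‖g‖) →
      (∃ f ∈ V (d + 1), ‖f‖ < w s f) → n * (d + 1) < 2 * Module.finrank M (V d))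
    (S : Finset L) :
    ∃ s ∈ Set.Ioo ρ s₀, ∃ (d : ℕ) (f : L), (∀ x ∈ S, w s x = ‖x‖) ∧ f ∈ V (d + 1) ∧
      DIVd M (RS A (w s)) (w s) (V d) f := by
  classical
  obtain ⟨t, ht, hS⟩ := d1_small hL.eq S
  obtain ⟨s₃, hs₃1, hs₃2⟩ : ∃ s₃, ρ < s₃ ∧ s₃ < min (min s₀ s₂) t :=
    exists_between (lt_min (lt_min hL.lt hs₂) ht)
  have hs₃0 : s₃ < s₀ := lt_of_lt_of_le hs₃2 ((min_le_left _ _).trans (min_le_left _ _))
  have hs₃2' : s₃ < s₂ := lt_of_lt_of_le hs₃2 ((min_le_left _ _).trans (min_le_right _ _))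
  have hs₃t : s₃ < t := lt_of_lt_of_le hs₃2 (min_le_right _ _)
  have hs₃m : s₃ ∈ Set.Ioo ρ s₀ := ⟨hs₃1, hs₃0⟩
  have hVA : ∀ D, ∀ g ∈ V D, g ∈ A := fun D g hg => (h.mem g).2 ⟨D, hg⟩
  have hex : ∃ D, ∃ f₁ ∈ V D, ‖f₁‖ < w s₃ f₁ := by
    obtain ⟨f₁, hf₁A, hf₁⟩ := hL.strict s₃ hs₃m
    obtain ⟨D, hD⟩ := (h.mem f₁).1 hf₁A
    exact ⟨D, f₁, hD, hf₁⟩
  obtain ⟨f₁, hf₁D, hf₁⟩ := Nat.find_spec hex
  have hD0 : Nat.find hex ≠ 0 := by
    intro h0
    rw [h0] at hf₁D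
    exact absurd hf₁ (not_lt.mpr (hL.const s₃ hs₃m f₁ (h.zero f₁ hf₁D)).le)
  obtain ⟨d, hd⟩ := Nat.exists_eq_succ_of_ne_zero hD0
  rw [hd] at hf₁D
  have hmin : ∀ g ∈ V d, w s₃ g ≤ ‖g‖ := by
    intro g hg
    by_contra hcon
    push Not at hcon
    exact Nat.find_min hex (m := d) (by omega) ⟨g, hg, hcon⟩
  have hf₁A : f₁ ∈ A := hVA _ f₁ hf₁D
  have hf₁0 : f₁ ≠ 0 := by
    rintro rfl
    simp at hf₁
  have hf₁pos : 0 < ‖f₁‖ := norm_pos_iff.mpr hf₁0
  obtain ⟨c, hc1, hc2⟩ := d1_dense (k := k) hf₁pos hf₁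
  -- a radius where the value is the norm
  obtain ⟨s₁, hs₁, hs₁'⟩ := hL.eq f₁
  obtain ⟨s', hs'1, hs'2⟩ : ∃ s', ρ < s' ∧ s' < min s₁ s₃ := exists_between (lt_min hs₁ hs₃1)
  have hs's₃ : s' < s₃ := lt_of_lt_of_le hs'2 (min_le_right _ _)
  have hs'm : s' ∈ Set.Ioo ρ s₀ := ⟨hs'1, hs's₃.trans hs₃0⟩
  have hws' : w s' f₁ = ‖f₁‖ := hs₁' s' hs'm (lt_of_lt_of_le hs'2 (min_le_left _ _))
  have hcont : ContinuousOn (fun s => w s f₁) (Set.Icc s' s₃) :=
    (hL.cont f₁ hf₁A).mono fun x hx => ⟨lt_of_lt_of_le hs'1 hx.1, lt_of_le_of_lt hx.2 hs₃0⟩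
  have hivt := intermediate_value_Icc hs's₃.le hcont
  obtain ⟨s, hs, hsc⟩ : ∃ s ∈ Set.Icc s' s₃, w s f₁ = ‖c‖ := by
    have : ‖c‖ ∈ Set.Icc (w s' f₁) (w s₃ f₁) := ⟨by rw [hws']; exact hc1.le, hc2.le⟩
    exact hivt this
  have hsm : s ∈ Set.Ioo ρ s₀ := ⟨lt_of_lt_of_le hs'1 hs.1, lt_of_le_of_lt hs.2 hs₃0⟩
  have hcpos : 0 < ‖c‖ := hf₁pos.trans hc1
  have hc0 : c ≠ 0 := norm_pos_iff.mp hcpos
  -- the element `f`
  have hcM : algebraMap k L c⁻¹ ∈ M := M.algebraMap_mem c⁻¹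
  set f : L := algebraMap k L c⁻¹ * f₁ with hf
  have hfV : f ∈ V (d + 1) := by
    have h1 := (V (d + 1)).smul_mem (⟨algebraMap k L c⁻¹, hcM⟩ : M) hf₁D
    have h2 : (⟨algebraMap k L c⁻¹, hcM⟩ : M) • f₁ = f := by
      rw [Algebra.smul_def]
      rfl
    rwa [h2] at h1
  have hwf : w s f = 1 := by
    rw [hf, map_mul, hL.const s hsm _ hcM, hsc, norm_algebraMap', norm_inv]
    exact inv_mul_cancel₀ hcpos.ne'
  have hnf : ‖f‖ < 1 := by
    rw [hf, norm_mul, norm_algebraMap', norm_inv, inv_mul_lt_iff₀ hcpos, mul_one]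
    exact hc1
  have hVd : ∀ g ∈ V d, w s g = ‖g‖ := by
    intro g hg
    have hgA := hVA d g hg
    refine le_antisymm ?_ (hL.le s hsm g hgA)
    exact (hL.mono s hsm s₃ hs₃m hs.2 g hgA).trans (hmin g hg)
  refine ⟨s, hsm, d, f, fun x hx => hS x hx s hsm (lt_of_le_of_lt hs.2 hs₃t), hfV, ?_⟩
  exact divd_of_filt h (hL.nonarch s hsm) (hL.le s hsm) hVd hfV hnf hwf
    (hbig s hsm (lt_of_le_of_lt hs.2 hs₃2') d hVd ⟨f, hfV, by rw [hwf]; exact hnf⟩)

end DA
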