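import Pool.Agent.Lib.DA.V1

/-!
# Module D2: the dimension is big near points of infinite index
-/

namespace DA

open Polynomial MP1a953e

/-- D2.  Proof.  `lower` gives `γ`; let `N = 2 * n + 2 * γ + 1` and `g` an orthogonal family of `N`
elements (`hinf`); multiplying by a common denominator (`frac`) we may assume `g j ∈ A` (still
orthogonal). Choose `s₂` such that `w s (g j) = ‖g j‖` for `s < s₂`. Let `s < s₂`, `f ∈ V (d+1)` with
`‖f‖ < w s f`. Let `Y` be the span of the `g j`, of dimension `N` (orthogonality). On `Y` we have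
`w s = ‖·‖`: `w s (∑ a_j g_j) ≤ max ‖a_j‖ ‖g_j‖ = ‖∑ a_j g_j‖ ≤ w s (...)`. `Y` meets `f A` trivially
(`‖f c‖ < w (f c)`), so `N ≤ n * (d + 1)` (`Filt.bound`). So `n * (d+1) > 2 * n + 2 * γ` and
`2 * finrank (V d) ≥ 2 * (n * d - γ) = 2 n (d+1) - 2 n - 2 γ > n * (d + 1)`. -/
theorem big_of_inf {k L : Type*} [NormedField k] [NormedField L] [IsUltrametricDist L]
    [NormedAlgebra k L] {M : IntermediateField k L} {A : Subring L} {V : ℕ → Submodule M L}
    {n : ℕ} (h : Filt M A V n) {ρ s₀ : ℝ} {w : ℝ → AbsoluteValue L ℝ} (hL : LFam M A ρ s₀ w)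
    (hinf : ∀ N : ℕ, ∃ g : Fin N → L, Orth M (nabs L) g) :
    ∃ s₂, ρ < s₂ ∧ ∀ s ∈ Set.Ioo ρ s₀, s < s₂ → ∀ d, (∀ g ∈ V d, w s g = ‖g‖) →
      (∃ f ∈ V (d + 1), ‖f‖ < w s f) → n * (d + 1) < 2 * Module.finrank M (V d) := by
  classical
  obtain ⟨γ, hγ⟩ := h.lower
  obtain ⟨g, hg0, hg⟩ := hinf (2 * n + 2 * γ + 1)
  choose a ha b hb hb0 hab using fun j => h.frac (g j)
  set B : L := ∏ j, b j with hB
  have hB0 : B ≠ 0 := Finset.prod_ne_zero_iff.2 fun j _ => hb0 j
  have hgA : ∀ j, g j * B ∈ A := by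
    intro j
    have : g j * B = a j * ∏ i ∈ Finset.univ.erase j, b i := by
      rw [hB, ← Finset.mul_prod_erase Finset.univ b (Finset.mem_univ j), hab j]
      field_simp [hb0 j]
    rw [this]
    exact mul_mem (ha j) (prod_mem fun i _ => hb i)
  have hMA : ∀ c ∈ M, c ∈ A := by
    intro c hc
    rw [h.mem]
    refine ⟨0, ?_⟩
    have := (V 0).smul_mem (⟨c, hc⟩ : M) h.one
    rwa [show (⟨c, hc⟩ : M) • (1 : L) = c by
      rw [Algebra.smul_def, mul_one]; rfl] at this
  have horth : ∀ c : Fin (2 * n + 2 * γ + 1) → L, (∀ j, c j ∈ M) → ∀ i,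
      ‖c i * (g i * B)‖ ≤ ‖∑ j, c j * (g j * B)‖ := by
    intro c hc i
    have h1 : ‖c i * g i‖ ≤ ‖∑ j, c j * g j‖ := hg c hc i
    have h2 : ∑ j, c j * (g j * B) = (∑ j, c j * g j) * B := by
      rw [Finset.sum_mul]
      exact Finset.sum_congr rfl fun j _ => by ring
    rw [h2, ← mul_assoc, norm_mul, norm_mul (∑ j, c j * g j)]
    exact mul_le_mul_of_nonneg_right h1 (norm_nonneg _)
  choose s₁ hs₁ hs₁' using fun j => hL.eq (g j * B)
  obtain ⟨j₀, hj₀⟩ := Finite.exists_min s₁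
  refine ⟨s₁ j₀, hs₁ j₀, fun s hs hss d _ hf => ?_⟩
  obtain ⟨f, hfV, hfw⟩ := hf
  have hwg : ∀ j, w s (g j * B) = ‖g j * B‖ := fun j => hs₁' j s hs (hss.trans_le (hj₀ j))
  have hfA : f ∈ A := (h.mem f).2 ⟨_, hfV⟩
  have hf0 : f ≠ 0 := by
    rintro rfl
    simp at hfw
  have hli : LinearIndependent M fun j => g j * B := by
    rw [Fintype.linearIndependent_iff]
    intro c hc i
    have h1 := horth (fun j => (c j : L)) (fun j => (c j).2) i
    have h2 : ∑ j, (c j : L) * (g j * B) = 0 := hc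
    rw [h2, norm_zero] at h1
    have h3 : (c i : L) * (g i * B) = 0 := norm_le_zero_iff.1 h1
    rcases mul_eq_zero.1 h3 with h4 | h4
    · exact Subtype.ext h4
    · exact absurd h4 (mul_ne_zero (hg0 i) hB0)
  set Y : Submodule M L := Submodule.span M (Set.range fun j => g j * B) with hY
  have hYfin : Module.Finite M Y := Module.Finite.span_of_finite M (Set.finite_range _)
  have hYrank : Module.finrank M Y = 2 * n + 2 * γ + 1 := by
    rw [hY, finrank_span_eq_card hli, Fintype.card_fin]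
  have hYrep : ∀ y ∈ Y, ∃ c : Fin (2 * n + 2 * γ + 1) → L, (∀ j, c j ∈ M) ∧
      y = ∑ j, c j * (g j * B) := by
    intro y hy
    rw [hY, Submodule.mem_span_range_iff_exists_fun] at hy
    obtain ⟨c, hc⟩ := hy
    exact ⟨fun j => (c j : L), fun j => (c j).2, hc.symm⟩
  have hYA : ∀ y ∈ Y, y ∈ A := by
    intro y hy
    obtain ⟨c, hc, rfl⟩ := hYrep y hy
    exact sum_mem fun j _ => mul_mem (hMA _ (hc j)) (hgA j)
  have hYw : ∀ y ∈ Y, w s y ≤ ‖y‖ := by
    intro y hy
    obtain ⟨c, hc, rfl⟩ := hYrep y hy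
    have h1 : ∀ j, w s (c j * (g j * B)) ≤ ‖∑ j, c j * (g j * B)‖ := by
      intro j
      rw [map_mul, hL.const s hs _ (hc j), hwg j, ← norm_mul]
      exact horth c hc j
    have h2 : ∀ S : Finset (Fin (2 * n + 2 * γ + 1)),
        w s (∑ j ∈ S, c j * (g j * B)) ≤ ‖∑ j, c j * (g j * B)‖ := by
      intro S
      induction S using Finset.induction_on with
      | empty => simp
      | insert i S hi ih =>
        rw [Finset.sum_insert hi]
        exact (hL.nonarch s hs _ _).trans (max_le (h1 i) ih)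
    exact h2 Finset.univ
  have hbound := h.bound hfV hf0 Y hYA (by
    intro y hy c hc hyc
    by_contra hy0
    have hc0 : c ≠ 0 := by
      rintro rfl
      exact hy0 (by rw [hyc, mul_zero])
    have h1 := hYw y hy
    rw [hyc, map_mul, norm_mul] at h1
    have h2 : ‖c‖ ≤ w s c := hL.le s hs c hc
    have h3 : 0 < ‖c‖ := norm_pos_iff.2 hc0
    have h4 : ‖f‖ * ‖c‖ < w s f * w s c :=
      calc ‖f‖ * ‖c‖ < w s f * ‖c‖ := mul_lt_mul_of_pos_right hfw h3
        _ ≤ w s f * w s c := mul_le_mul_of_nonneg_left h2 (AbsoluteValue.nonneg _ _)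
    linarith)
  rw [hYrank] at hbound
  have h1 := hγ d
  have h2 : n * (d + 1) = n * d + n := by ring
  omega

end DA
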