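import Pool.Agent.Lib.DA.H1c

/-!
# Module H2: density of `k(e, u, α)`
-/

namespace DA

open Polynomial MP1a953e

private theorem H2_dense {k : Type*} [NontriviallyNormedField k] [IsAlgClosed k] {a b : ℝ}
    (ha : 0 < a) (hab : a < b) : ∃ c : k, a < ‖c‖ ∧ ‖c‖ < b := by
  obtain ⟨x, hx⟩ := NormedField.exists_one_lt_norm k
  have hba : 1 < b / a := by rwa [one_lt_div ha]
  obtain ⟨n, hn⟩ := pow_unbounded_of_one_lt ‖x‖ hba
  have hn0 : 0 < n := by
    rcases Nat.eq_zero_or_pos n with rfl | h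
    · rw [pow_zero] at hn
      linarith
    · exact h
  obtain ⟨y, hy⟩ := IsAlgClosed.exists_pow_nat_eq x hn0
  have hyn : ‖y‖ ^ n = ‖x‖ := by rw [← norm_pow, hy]
  have hy1 : 1 < ‖y‖ := by
    by_contra hcon
    rw [not_lt] at hcon
    have := pow_le_one₀ (n := n) (norm_nonneg y) hcon
    linarith
  have hy2 : ‖y‖ < b / a := by
    refine lt_of_pow_lt_pow_left₀ n (by linarith) ?_
    rw [hyn]
    exact hn
  obtain ⟨m, hm1, hm2⟩ := exists_mem_Ico_zpow ha hy1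
  have hy0 : ‖y‖ ≠ 0 := by linarith
  refine ⟨y ^ (m + 1), ?_, ?_⟩
  · rw [norm_zpow]
    exact hm2
  · rw [norm_zpow, zpow_add₀ hy0, zpow_one]
    rw [lt_div_iff₀ ha] at hy2
    calc ‖y‖ ^ m * ‖y‖ ≤ a * ‖y‖ := mul_le_mul_of_nonneg_right hm1 (norm_nonneg _)
      _ = ‖y‖ * a := mul_comm _ _
      _ < b := hy2

private theorem H2_A1_le {k L : Type*} [NontriviallyNormedField k] [IsUltrametricDist k]
    [NormedField L] [IsUltrametricDist L] [NormedAlgebra k L] {r m : ℕ} {e : Fin r → L}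
    {u : Fin m → L} {α x : L} (hx : x ∈ A1 k u α) : x ∈ keuT k e u α := by
  unfold A1 at hx
  unfold keuT
  induction hx using Algebra.adjoin_induction with
  | mem x hx =>
    refine IntermediateField.subset_adjoin k _ ?_
    rcases hx with hx | hx
    · exact Or.inl (Or.inr hx)
    · exact Or.inr hx
  | algebraMap a =>
    exact (IntermediateField.adjoin k _).algebraMap_mem (a : k)
  | add x y _ _ hx hy => exact add_mem hx hy
  | mul x y _ _ hx hy => exact mul_mem hx hy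

/-- H2.  Proof.  Let `N = keuT k e u α` and `ε` as in `all_of_cor`; choose `c ∈ k` with
`ε ≤ ‖c‖ < 1` (the norms of `k` are dense, `denseVal_of_closed`, or take roots). Claim: for every `K : ℕ` and
`q ∈ R₁ = {q ∈ R : w q ≤ 1}` there is `n ∈ N` with `‖q - n‖ ≤ θ ^ K`, `θ = max ‖h'‖ ‖c‖ < 1`. Induction:
`q = n₀ + h' y + ρ`, `w ρ ≤ ε ≤ ‖c‖`, `ρ = c ρ'`, `ρ' ∈ R₁`; apply the induction hypothesis to `y` and `ρ'`
(`c ∈ N`, `h' ∈ N`). So `R₁` is in the closure of `N`; every `q ∈ R` is a constant times an element of `R₁`, and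
`L = Frac R` (`DIVd.frac`); the closure of `N` is a subfield. -/
theorem dense_of_cor {k L : Type*} [NontriviallyNormedField k] [IsUltrametricDist k]
    [IsAlgClosed k] [NormedField L] [IsUltrametricDist L] [NormedAlgebra k L] {r m : ℕ}
    {e₀ : Fin r → L} {u₀ : Fin m → L} (h₀ : EU k e₀ u₀) {R : Subring L}
    {w : AbsoluteValue L ℝ} {V : Submodule (keu k e₀ u₀) L} {f : L}
    (h : DIVd (keu k e₀ u₀) R w V f) (hAOB : AOB (keu k e₀ u₀) w V) {e : Fin r → L}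
    {u : Fin m → L} {α h' : L} (hC : Cor k R w e u α h') (x : L) {ε : ℝ} (hε : 0 < ε) :
    ∃ y ∈ keuT k e u α, ‖x - y‖ < ε := by
  obtain ⟨ε₁, hε₁0, hε₁1, hall⟩ := all_of_cor h₀ h hAOB hC
  obtain ⟨c, hc1, hc2⟩ := H2_dense (k := k) hε₁0 hε₁1
  have hc0 : c ≠ 0 := norm_pos_iff.1 (hε₁0.trans hc1)
  have hcL : algebraMap k L c ≠ 0 := (_root_.map_ne_zero _).2 hc0
  have hR : RWd (keu k e₀ u₀) R w := h.rwd
  have hkR : ∀ c : k, algebraMap k L c ∈ R ∧ w (algebraMap k L c) = ‖c‖ := by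
    intro c
    have hcM : algebraMap k L c ∈ keu k e₀ u₀ := (keu k e₀ u₀).algebraMap_mem c
    exact ⟨hR.M_le _ hcM, by rw [hR.eq_M hcM, norm_algebraMap']⟩
  obtain ⟨hhR, hhw⟩ := hC.h_w hR
  have hhN : h' ∈ keuT k e u α := H2_A1_le hC.h_mem
  have hcN : algebraMap k L c ∈ keuT k e u α := (keuT k e u α).algebraMap_mem c
  set θ : ℝ := max ‖h'‖ ‖c‖ with hθ
  have hθ0 : 0 ≤ θ := (norm_nonneg _).trans (le_max_left _ _)
  have hθ1 : θ < 1 := max_lt hC.h_lt hc2
  have claim : ∀ K : ℕ, ∀ q ∈ R, w q ≤ 1 → ∃ n ∈ keuT k e u α, ‖q - n‖ ≤ θ ^ K := by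
    intro K
    induction K with
    | zero =>
      intro q hq hq1
      refine ⟨0, zero_mem _, ?_⟩
      rw [sub_zero, pow_zero]
      exact (hR.le q hq).trans hq1
    | succ K ih =>
      intro q hq hq1
      obtain ⟨_, _, n₀, hn₀N, hn₀R, _, y, hyR, hyw, hρ⟩ := hall q hq hq1
      have hρR : q - n₀ - h' * y ∈ R := sub_mem (sub_mem hq hn₀R) (mul_mem hhR hyR)
      obtain ⟨hciR, hciw⟩ := hkR c⁻¹
      have hρ'R : algebraMap k L c⁻¹ * (q - n₀ - h' * y) ∈ R := mul_mem hciR hρR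
      have hρ'w : w (algebraMap k L c⁻¹ * (q - n₀ - h' * y)) ≤ 1 := by
        rw [map_mul, hciw, norm_inv, inv_mul_le_iff₀ (hε₁0.trans hc1), mul_one]
        exact hρ.trans hc1.le
      obtain ⟨n₁, hn₁, hn₁'⟩ := ih y hyR hyw
      obtain ⟨n₂, hn₂, hn₂'⟩ := ih _ hρ'R hρ'w
      refine ⟨n₀ + h' * n₁ + algebraMap k L c * n₂,
        add_mem (add_mem hn₀N (mul_mem hhN hn₁)) (mul_mem hcN hn₂), ?_⟩
      have e1 : q - (n₀ + h' * n₁ + algebraMap k L c * n₂) =
          h' * (y - n₁) + algebraMap k L c *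
            (algebraMap k L c⁻¹ * (q - n₀ - h' * y) - n₂) := by
        rw [map_inv₀, mul_sub (algebraMap k L c), mul_inv_cancel_left₀ hcL]
        ring
      rw [e1]
      refine (IsUltrametricDist.norm_add_le_max _ _).trans (max_le ?_ ?_)
      · rw [norm_mul, pow_succ']
        exact mul_le_mul (le_max_left _ _) hn₁' (norm_nonneg _) hθ0
      · rw [norm_mul, norm_algebraMap', pow_succ']
        exact mul_le_mul (le_max_right _ _) hn₂' (norm_nonneg _) hθ0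
  set F : Subfield L := (keuT k e u α).toSubfield.topologicalClosure with hF
  have hmemF : ∀ z : L, (∀ δ : ℝ, 0 < δ → ∃ n ∈ keuT k e u α, ‖z - n‖ < δ) → z ∈ F := by
    intro z hz
    change z ∈ closure ((keuT k e u α).toSubfield : Set L)
    rw [Metric.mem_closure_iff]
    intro δ hδ
    obtain ⟨n, hn, hn'⟩ := hz δ hδ
    exact ⟨n, hn, by rw [dist_eq_norm]; exact hn'⟩
  have hNF : ∀ z ∈ keuT k e u α, z ∈ F := fun z hz => hmemF z fun δ hδ =>
    ⟨z, hz, by rw [sub_self, norm_zero]; exact hδ⟩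
  have hR1 : ∀ q ∈ R, w q ≤ 1 → q ∈ F := by
    intro q hq hq1
    refine hmemF q fun δ hδ => ?_
    obtain ⟨K, hK⟩ := exists_pow_lt_of_lt_one hδ hθ1
    obtain ⟨n, hn, hn'⟩ := claim K q hq hq1
    exact ⟨n, hn, hn'.trans_lt hK⟩
  have hRF : ∀ q ∈ R, q ∈ F := by
    intro q hq
    obtain ⟨d, hd⟩ := NormedField.exists_lt_norm k (w q)
    have hd0 : 0 < ‖d‖ := (w.nonneg q).trans_lt hd
    have hdL : algebraMap k L d ≠ 0 := (_root_.map_ne_zero _).2 (norm_pos_iff.1 hd0)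
    obtain ⟨hdR, hdw⟩ := hkR d⁻¹
    have h1 : algebraMap k L d⁻¹ * q ∈ F := by
      refine hR1 _ (mul_mem hdR hq) ?_
      rw [map_mul, hdw, norm_inv, inv_mul_le_iff₀ hd0, mul_one]
      exact hd.le
    have h2 : algebraMap k L d ∈ F := hNF _ ((keuT k e u α).algebraMap_mem d)
    have h3 := mul_mem h2 h1
    rwa [map_inv₀, mul_inv_cancel_left₀ hdL] at h3
  obtain ⟨a, ha, b, hb, hb0, rfl⟩ := h.frac x
  have hx : a / b ∈ F := div_mem (hRF a ha) (hRF b hb)
  change a / b ∈ closure ((keuT k e u α).toSubfield : Set L) at hx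
  rw [Metric.mem_closure_iff] at hx
  obtain ⟨n, hn, hn'⟩ := hx ε hε
  exact ⟨n, hn, by rwa [dist_eq_norm] at hn'⟩

end DA
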