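import Pool.Agent.Lib.DA.Defs

/-!
# Module V2: the filtration of `M[T, y]`
-/

namespace DA

open Polynomial MP1a953e

section
variable {F L : Type*} [Field F] [Field L] [Algebra F L]

/-- indices `⟨j, i⟩` with `j < n`, `i + c * j ≤ D` -/
private def V2_S (c n D : ℕ) : Finset (Σ _ : ℕ, ℕ) :=
  (Finset.range n).sigma fun j => Finset.range (D + 1 - c * j)

private lemma V2_mem_S {c n D : ℕ} {p : Σ _ : ℕ, ℕ} :
    p ∈ V2_S c n D ↔ p.1 < n ∧ p.2 + c * p.1 ≤ D := by
  rw [V2_S, Finset.mem_sigma, Finset.mem_range, Finset.mem_range]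
  constructor
  · rintro ⟨h1, h2⟩
    exact ⟨h1, by omega⟩
  · rintro ⟨h1, h2⟩
    exact ⟨h1, by omega⟩

/-- the monomials -/
private def V2_b (T y : L) (p : Σ _ : ℕ, ℕ) : L := T ^ p.2 * y ^ p.1

/-- the filtration -/
private def V2_V (F : Type*) {L : Type*} [Field F] [Field L] [Algebra F L] (T y : L) (c n D : ℕ) :
    Submodule F L :=
  Submodule.span F (V2_b T y '' (V2_S c n D : Set (Σ _ : ℕ, ℕ)))

private lemma V2_mono (T y : L) (c n : ℕ) : Monotone (V2_V F T y c n) := by
  intro D D' h
  refine Submodule.span_mono (Set.image_mono ?_)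
  intro p hp
  rw [Finset.mem_coe, V2_mem_S] at hp ⊢
  exact ⟨hp.1, hp.2.trans h⟩

private lemma V2_pow_mem (T y : L) {c n : ℕ} (a : ℕ → F[X])
    (rel : y ^ n = -∑ j ∈ Finset.range n, aeval T (a j) * y ^ j)
    (hdeg : ∀ j, j < n → (a j).natDegree ≤ c * (n - j)) (m : ℕ) :
    ∀ i, T ^ i * y ^ m ∈ V2_V F T y c n (i + c * m) := by
  induction m using Nat.strong_induction_on with
  | _ m ih =>
    intro i
    by_cases hm : m < n
    · exact Submodule.subset_span ⟨⟨m, i⟩, by rw [Finset.mem_coe, V2_mem_S]; exact ⟨hm, le_rfl⟩, rfl⟩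
    · rw [not_lt] at hm
      have e : T ^ i * y ^ m = -∑ j ∈ Finset.range n, ∑ l ∈ Finset.range ((a j).natDegree + 1),
          (a j).coeff l • (T ^ (i + l) * y ^ (m - n + j)) := by
        have e1 : y ^ m = y ^ (m - n) * y ^ n := by rw [← pow_add]; congr 1; omega
        rw [e1, rel, mul_neg, mul_neg, Finset.mul_sum, Finset.mul_sum]
        congr 1
        refine Finset.sum_congr rfl fun j _ => ?_
        rw [aeval_eq_sum_range, Finset.sum_mul, Finset.mul_sum, Finset.mul_sum]
        refine Finset.sum_congr rfl fun l _ => ?_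
        rw [pow_add, pow_add, Algebra.smul_def, Algebra.smul_def]
        ring
      rw [e]
      refine Submodule.neg_mem _ (Submodule.sum_mem _ fun j hj => Submodule.sum_mem _ fun l hl =>
        Submodule.smul_mem _ _ ?_)
      rw [Finset.mem_range] at hj hl
      have h1 := ih (m - n + j) (by omega) (i + l)
      refine V2_mono T y c n ?_ h1
      have h2 := hdeg j hj
      have h3 : c * (n - j) + c * (m - n + j) = c * m := by
        rw [← Nat.mul_add]
        congr 1
        omega
      omega

private lemma V2_mul_mem (T y : L) {c n : ℕ} (a : ℕ → F[X])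
    (rel : y ^ n = -∑ j ∈ Finset.range n, aeval T (a j) * y ^ j)
    (hdeg : ∀ j, j < n → (a j).natDegree ≤ c * (n - j)) {d D : ℕ} {f g : L}
    (hf : f ∈ V2_V F T y c n d) (hg : g ∈ V2_V F T y c n D) : f * g ∈ V2_V F T y c n (d + D) := by
  have h1 : V2_V F T y c n d * V2_V F T y c n D ≤ V2_V F T y c n (d + D) := by
    rw [V2_V, V2_V, Submodule.span_mul_span, Submodule.span_le]
    rintro _ ⟨_, ⟨p, hp, rfl⟩, _, ⟨q, hq, rfl⟩, rfl⟩
    rw [Finset.mem_coe, V2_mem_S] at hp hq
    have h2 := V2_pow_mem T y a rel hdeg (p.1 + q.1) (p.2 + q.2)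
    have h3 : V2_b T y p * V2_b T y q = T ^ (p.2 + q.2) * y ^ (p.1 + q.1) := by
      rw [V2_b, V2_b, pow_add, pow_add]
      ring
    change V2_b T y p * V2_b T y q ∈ _
    rw [h3]
    refine V2_mono T y c n ?_ h2
    rw [Nat.mul_add]
    omega
  exact h1 (Submodule.mul_mem_mul hf hg)

private lemma V2_finrank (T y : L) {c n : ℕ}
    (hli : LinearIndependent F fun p : ℕ × Fin n => T ^ p.1 * y ^ (p.2 : ℕ)) (D : ℕ) :
    Module.finrank F (V2_V F T y c n D) = ∑ j ∈ Finset.range n, (D + 1 - c * j) := by
  have h1 : V2_V F T y c n D =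
      Submodule.span F (Set.range fun p : (V2_S c n D : Finset _) => V2_b T y p.1) := by
    rw [V2_V, Set.image_eq_range]
    rfl
  have hli' : LinearIndependent F fun p : (V2_S c n D : Finset _) => V2_b T y p.1 := by
    have h2 := hli.comp (fun p : (V2_S c n D : Finset _) =>
      ((p.1.2, ⟨p.1.1, (V2_mem_S.1 p.2).1⟩) : ℕ × Fin n)) (by
        rintro ⟨⟨j, i⟩, h⟩ ⟨⟨j', i'⟩, h'⟩ he
        simp only [Prod.mk.injEq, Fin.mk.injEq] at he
        obtain ⟨rfl, rfl⟩ := he
        rfl)
    exact h2
  rw [h1, finrank_span_eq_card hli', Fintype.card_coe, V2_S, Finset.card_sigma]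
  exact Finset.sum_congr rfl fun j _ => Finset.card_range _

private lemma V2_fin (T y : L) (c n D : ℕ) : Module.Finite F (V2_V F T y c n D) := by
  have : Finite (V2_b T y '' (V2_S c n D : Set (Σ _ : ℕ, ℕ))) :=
    (Set.Finite.image _ (Finset.finite_toSet _)).to_subtype
  exact FiniteDimensional.span_of_finite F (Set.toFinite _)

end

section
variable {F L : Type*} [Field F] [Field L] [Algebra F L]

private lemma V2_li_pow (T : L) (hT : Transcendental F T) :
    LinearIndependent F fun i : ℕ =>
      (⟨T, IntermediateField.mem_adjoin_simple_self F T⟩ : IntermediateField.adjoin F {T}) ^ i := by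
  set Tn : IntermediateField.adjoin F {T} := ⟨T, IntermediateField.mem_adjoin_simple_self F T⟩
    with hTn
  have hinj : Function.Injective (aeval Tn : F[X] →ₐ[F] IntermediateField.adjoin F {T}) := by
    intro p q hpq
    apply transcendental_iff_injective.1 hT
    have h1 : ∀ p : F[X], ((aeval Tn p : IntermediateField.adjoin F {T}) : L) = aeval T p := by
      intro p
      change (IntermediateField.adjoin F {T}).val (aeval Tn p) = _
      rw [← aeval_algHom_apply]
      rfl
    rw [← h1, ← h1, hpq]
  have h2 := (Polynomial.basisMonomials F).linearIndependent.map'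
    (aeval Tn : F[X] →ₐ[F] IntermediateField.adjoin F {T}).toLinearMap
    (LinearMap.ker_eq_bot.2 hinj)
  have h3 : (⇑(aeval Tn : F[X] →ₐ[F] IntermediateField.adjoin F {T}).toLinearMap ∘
      ⇑(Polynomial.basisMonomials F)) = fun i : ℕ => Tn ^ i := by
    funext i
    change aeval Tn (Polynomial.basisMonomials F i) = _
    rw [Polynomial.coe_basisMonomials, aeval_monomial, map_one, one_mul]
  rw [h3] at h2
  exact h2

private lemma V2_data (T : L) (hT : Transcendental F T)
    (hsep : Algebra.IsSeparable (IntermediateField.adjoin F {T}) L)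
    (hfin : FiniteDimensional (IntermediateField.adjoin F {T}) L) :
    ∃ (y : L) (n c : ℕ) (a : ℕ → F[X]), 0 < n ∧ 0 < c ∧
      y ^ n = -∑ j ∈ Finset.range n, aeval T (a j) * y ^ j ∧
      (∀ j, j < n → (a j).natDegree ≤ c * (n - j)) ∧
      (LinearIndependent F fun p : ℕ × Fin n => T ^ p.1 * y ^ (p.2 : ℕ)) ∧
      Subfield.closure (Set.range (algebraMap F L) ∪ {T, y}) = ⊤ := by
  classical
  set N := IntermediateField.adjoin F {T} with hN
  obtain ⟨y₀, hy₀⟩ := Field.exists_primitive_element N L
  set q := minpoly N y₀ with hq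
  have hint : IsIntegral N y₀ := IsIntegral.of_finite N y₀
  have hTinj := transcendental_iff_injective.1 hT
  have hT0 : ∀ p : F[X], p ≠ 0 → aeval T p ≠ 0 := by
    intro p hp h
    apply hp
    apply hTinj
    rw [h, map_zero]
  have hrs : ∀ j, ∃ r s : F[X], s ≠ 0 ∧ ((q.coeff j : N) : L) = aeval T r / aeval T s := by
    intro j
    obtain ⟨r, s, h⟩ := (IntermediateField.mem_adjoin_simple_iff F _).1 (q.coeff j).2
    by_cases hs : s = 0
    · refine ⟨0, 1, one_ne_zero, ?_⟩
      rw [h, hs]
      simp
    · exact ⟨r, s, hs, h⟩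
  choose r s hs hrs using hrs
  set n := q.natDegree with hn
  have hnpos : 0 < n := minpoly.natDegree_pos hint
  set δ : F[X] := ∏ l ∈ Finset.range n, s l with hδ
  have hδ0 : δ ≠ 0 := Finset.prod_ne_zero_iff.2 fun l _ => hs l
  set d : L := aeval T δ with hd
  have hd0 : d ≠ 0 := hT0 δ hδ0
  have hdN : d ∈ N := by
    have h1 : aeval T δ = ((aeval (⟨T, IntermediateField.mem_adjoin_simple_self F T⟩ : N) δ : N)
        : L) := by
      change _ = N.val (aeval _ δ)
      rw [← aeval_algHom_apply]
      rfl
    rw [hd, h1]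
    exact Subtype.property _
  set dN : N := ⟨d, hdN⟩ with hdNdef
  have hdN0 : dN ≠ 0 := fun h => hd0 (congrArg Subtype.val h)
  set y : L := dN • y₀ with hy
  have hyd : y = d * y₀ := rfl
  have hmin : minpoly N y = q.scaleRoots dN :=
    IsIntegrallyClosed.minpoly_smul hdN0 hint
  have hnat : (minpoly N y).natDegree = n := by rw [hmin, natDegree_scaleRoots]
  set a : ℕ → F[X] := fun j => r j * (∏ l ∈ (Finset.range n).erase j, s l) * δ ^ (n - j - 1)
    with ha
  have hcoef : ∀ j, j < n → (((minpoly N y).coeff j : N) : L) = aeval T (a j) := by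
    intro j hj
    have h1 : (((minpoly N y).coeff j : N) : L) = ((q.coeff j : N) : L) * d ^ (n - j) := by
      rw [hmin, coeff_scaleRoots]
      rfl
    have h2 : δ = s j * ∏ l ∈ (Finset.range n).erase j, s l := by
      rw [hδ, Finset.mul_prod_erase _ _ (Finset.mem_range.2 hj)]
    have h3 : d ^ (n - j) = d * d ^ (n - j - 1) := by
      rw [← pow_succ']
      congr 1
      omega
    have h4 : aeval T (s j) ≠ 0 := hT0 _ (hs j)
    have h5 : d = aeval T (s j) * aeval T (∏ l ∈ (Finset.range n).erase j, s l) := by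
      rw [hd, ← map_mul, ← h2]
    rw [h1, hrs j, h3, ha]
    simp only [map_mul, map_pow]
    rw [← hd, div_mul_eq_mul_div, div_eq_iff h4]
    linear_combination (aeval T (r j) * d ^ (n - j - 1)) * h5
  have hrel : y ^ n = -∑ j ∈ Finset.range n, aeval T (a j) * y ^ j := by
    have h1 := minpoly.aeval N y
    have hy_int : IsIntegral N y := hint.smul dN
    rw [aeval_eq_sum_range, hnat, Finset.sum_range_succ] at h1
    have h2 : (minpoly N y).coeff n = 1 := by
      rw [← hnat]
      exact minpoly.monic hy_int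
    rw [h2, one_smul] at h1
    rw [eq_neg_iff_add_eq_zero, add_comm, ← h1]
    congr 1
    refine Finset.sum_congr rfl fun j hj => ?_
    rw [← hcoef j (Finset.mem_range.1 hj)]
    rfl
  refine ⟨y, n, 1 + ∑ j ∈ Finset.range n, (a j).natDegree, a, hnpos, by omega, hrel, ?_, ?_, ?_⟩
  · intro j hj
    have h1 : (a j).natDegree ≤ ∑ j ∈ Finset.range n, (a j).natDegree :=
      Finset.single_le_sum (f := fun j => (a j).natDegree) (fun _ _ => Nat.zero_le _)
        (Finset.mem_range.2 hj)
    calc (a j).natDegree ≤ (1 + ∑ j ∈ Finset.range n, (a j).natDegree) * 1 := by omega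
      _ ≤ _ := Nat.mul_le_mul_left _ (by omega)
  · have h1 := linearIndependent_pow (K := N) y
    rw [hnat] at h1
    have h2 := linearIndependent_smul (V2_li_pow T hT) h1
    exact h2
  · rw [eq_top_iff]
    intro x _
    set K1 := Subfield.closure (Set.range (algebraMap F L) ∪ {T, y}) with hK1
    have hNK : ∀ x : N, (x : L) ∈ K1 := by
      intro x
      have h1 : N.toSubfield ≤ K1 := by
        refine IntermediateField.adjoin_le_subfield F _ ?_ ?_
        · exact fun z hz => Subfield.subset_closure (Or.inl hz)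
        · intro z hz
          rw [Set.mem_singleton_iff] at hz
          exact Subfield.subset_closure (Or.inr (Or.inl hz))
      exact h1 x.2
    have hyK : y ∈ K1 := Subfield.subset_closure (Or.inr (Or.inr rfl))
    have hy₀K : y₀ ∈ K1 := by
      have h1 : y₀ = y / d := by rw [hyd, mul_div_cancel_left₀ _ hd0]
      rw [h1]
      exact K1.div_mem hyK (hNK dN)
    have h2 : (IntermediateField.adjoin N {y₀}).toSubfield ≤ K1 := by
      refine IntermediateField.adjoin_le_subfield N _ ?_ ?_
      · rintro _ ⟨z, rfl⟩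
        exact hNK z
      · intro z hz
        rw [Set.mem_singleton_iff] at hz
        rw [hz]
        exact hy₀K
    apply h2
    change x ∈ IntermediateField.adjoin N {y₀}
    rw [hy₀]
    exact IntermediateField.mem_top

end

/-- V2.  Proof.  Let `N = M(T)`, `n = [L : N]`, `y₀` a primitive element, with minimal polynomial over
`N`; multiply `y₀` by a nonzero element of `M[T]` (common denominator) to get `y`, `L = N(y)`, whose
minimal polynomial is `Y ^ n + a_1(T) Y ^ (n-1) + ... + a_n(T)` with `a_i ∈ M[X]`. Let `c ≥ 1` with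
`deg a_i ≤ c * i` for all `i`. The elements `T ^ i * y ^ j`, `j < n`, are linearly independent over
`M`. `A` is the ring generated by `M`, `T`, `y`, `V D` the `M`-span of the `T ^ i * y ^ j` with
`j < n`, `i + c * j ≤ D` (the condition `D = 0` gives `M`). `V d * V D ≤ V (d + D)`: give `T` the weight
`1` and `y` the weight `c`; the relation `y ^ n = - ∑ a_i(T) y ^ (n-i)` does not increase the weight, so
`y ^ j T ^ i ∈ V (i + c * j)` for all `j` (induction on `j`). `finrank V D = ∑_{j<n} (D - c j + 1)`
(truncated subtraction of `c j` from `D + 1`), so `lower` holds with `γ = c * n * n` and `growth` with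
`D₀ = c * n`. `frac`: every element of `L` is a polynomial in `y` over `N = Frac M[T]`. -/
theorem exists_filt {k L : Type*} [Field k] [Field L] [Algebra k L] (M : IntermediateField k L)
    (T : L) (hT : Transcendental M T)
    (hsep : Algebra.IsSeparable (IntermediateField.adjoin M {T}) L)
    (hfin : FiniteDimensional (IntermediateField.adjoin M {T}) L) :
    ∃ (y : L) (V : ℕ → Submodule M L) (n : ℕ),
      Filt M (Subring.closure ((M : Set L) ∪ {T, y})) V n := by
  obtain ⟨y, n, c, a, hn, hc, rel, hdeg, hli, htop⟩ := V2_data T hT hsep hfin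
  have hrange : Set.range (algebraMap M L) = (M : Set L) := by
    ext x
    constructor
    · rintro ⟨z, rfl⟩
      exact z.2
    · intro hx
      exact ⟨⟨x, hx⟩, rfl⟩
  rw [hrange] at htop
  have hmono := V2_mono (F := M) T y c n
  have hle : ∀ {D D' : ℕ}, D ≤ D' → ∀ {g : L}, g ∈ V2_V M T y c n D → g ∈ V2_V M T y c n D' :=
    fun h g hg => hmono h hg
  have hone : (1 : L) ∈ V2_V M T y c n 0 := by
    refine Submodule.subset_span ⟨⟨0, 0⟩, ?_, ?_⟩
    · rw [Finset.mem_coe, V2_mem_S]
      exact ⟨hn, by simp⟩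
    · simp [V2_b]
  have hsum : ∀ D, Module.finrank M (V2_V M T y c n D) = ∑ j ∈ Finset.range n, (D + 1 - c * j) :=
    fun D => V2_finrank T y hli D
  refine ⟨y, V2_V M T y c n, n, hn, ?_, hmono, ?_, ?_, hone, ?_, ?_, ?_, ?_⟩
  · intro g
    constructor
    · intro hg
      induction hg using Subring.closure_induction with
      | mem x hx =>
        rcases hx with hx | hx | hx
        · have h1 : x = (⟨x, hx⟩ : M) • (1 : L) := by
            rw [Algebra.smul_def, mul_one]
            rfl
          exact ⟨0, by rw [h1]; exact Submodule.smul_mem _ _ hone⟩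
        · have h1 := V2_pow_mem T y a rel hdeg 0 1
          rw [pow_one, pow_zero, mul_one] at h1
          exact ⟨_, by rw [hx]; exact h1⟩
        · have h1 := V2_pow_mem T y a rel hdeg 1 0
          rw [pow_one, pow_zero, one_mul] at h1
          rw [Set.mem_singleton_iff] at hx
          exact ⟨_, by rw [hx]; exact h1⟩
      | zero => exact ⟨0, Submodule.zero_mem _⟩
      | one => exact ⟨0, hone⟩
      | add x z _ _ hx hz =>
        obtain ⟨D, hD⟩ := hx
        obtain ⟨D', hD'⟩ := hz
        exact ⟨max D D', Submodule.add_mem _ (hle (le_max_left _ _) hD)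
          (hle (le_max_right _ _) hD')⟩
      | neg x _ hx =>
        obtain ⟨D, hD⟩ := hx
        exact ⟨D, Submodule.neg_mem _ hD⟩
      | mul x z _ _ hx hz =>
        obtain ⟨D, hD⟩ := hx
        obtain ⟨D', hD'⟩ := hz
        exact ⟨D + D', V2_mul_mem T y a rel hdeg hD hD'⟩
    · rintro ⟨D, hD⟩
      rw [V2_V] at hD
      induction hD using Submodule.span_induction with
      | mem x hx =>
        obtain ⟨p, _, rfl⟩ := hx
        have hTm : T ∈ Subring.closure ((M : Set L) ∪ {T, y}) :=
          Subring.subset_closure (Or.inr (Or.inl rfl))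
        have hym : y ∈ Subring.closure ((M : Set L) ∪ {T, y}) :=
          Subring.subset_closure (Or.inr (Or.inr rfl))
        exact mul_mem (pow_mem hTm _) (pow_mem hym _)
      | zero => exact Subring.zero_mem _
      | add x z _ _ hx hz => exact Subring.add_mem _ hx hz
      | smul m x _ hx =>
        rw [Algebra.smul_def]
        exact Subring.mul_mem _ (Subring.subset_closure (Or.inl m.2)) hx
  · intro d D f hf g hg
    exact V2_mul_mem T y a rel hdeg hf hg
  · exact fun D => V2_fin T y c n D
  · intro g hg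
    have h1 : V2_V M T y c n 0 ≤ Submodule.span M {(1 : L)} := by
      rw [V2_V, Submodule.span_le]
      rintro _ ⟨p, hp, rfl⟩
      rw [Finset.mem_coe, V2_mem_S] at hp
      have h2 : p.2 = 0 := by omega
      have h3 : c * p.1 = 0 := by omega
      have h4 : p.1 = 0 := (Nat.mul_eq_zero.1 h3).resolve_left hc.ne'
      rw [SetLike.mem_coe, V2_b, h2, h4, pow_zero, pow_zero, one_mul]
      exact Submodule.mem_span_singleton_self 1
    obtain ⟨m, hm⟩ := Submodule.mem_span_singleton.1 (h1 hg)
    rw [← hm, Algebra.smul_def, mul_one]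
    exact m.2
  · refine ⟨c * n * n, fun D => ?_⟩
    rw [hsum]
    have h1 : ∀ j ∈ Finset.range n, D - c * n ≤ D + 1 - c * j := by
      intro j hj
      have h2 : c * j ≤ c * n := Nat.mul_le_mul_left _ (Finset.mem_range.1 hj).le
      omega
    have h3 := Finset.sum_le_sum h1
    rw [Finset.sum_const, Finset.card_range, smul_eq_mul] at h3
    have h4 : n * D ≤ n * (D - c * n) + c * n * n := by
      have h5 : D ≤ (D - c * n) + c * n := by omega
      calc n * D ≤ n * ((D - c * n) + c * n) := Nat.mul_le_mul_left _ h5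
        _ = n * (D - c * n) + c * n * n := by ring
    omega
  · refine ⟨c * n, fun D hD => ?_⟩
    rw [hsum, hsum]
    have h1 : ∀ j ∈ Finset.range n, D + 1 + 1 - c * j = (D + 1 - c * j) + 1 := by
      intro j hj
      have h2 : c * j ≤ c * n := Nat.mul_le_mul_left _ (Finset.mem_range.1 hj).le
      omega
    rw [Finset.sum_congr rfl h1, Finset.sum_add_distrib, Finset.sum_const, Finset.card_range,
      smul_eq_mul, mul_one]
  · intro x
    have hx : x ∈ Subfield.closure ((M : Set L) ∪ {T, y}) := by
      rw [htop]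
      exact Subfield.mem_top x
    obtain ⟨u, hu, v, hv, huv⟩ := Subfield.mem_closure_iff.1 hx
    by_cases hv0 : v = 0
    · refine ⟨0, Subring.zero_mem _, 1, Subring.one_mem _, one_ne_zero, ?_⟩
      rw [← huv, hv0, div_zero, zero_div]
    · exact ⟨u, hu, v, hv, hv0, huv.symm⟩

end DA
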