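import Pool.Agent.Lib.DA.W1b

/-!
# Module W3a: the embedding of `C(z)` with `z ↦ ι z + ξ`
-/

namespace DA

open Polynomial MP1a953e

private theorem w3_taylor {E Ω : Type*} [NormedField E] [NormedField Ω] (ι : E →+* Ω) (ξ : Ω)
    (z : E) (P : E[X]) : (taylor z P).eval₂ ι ξ = P.eval₂ ι (ι z + ξ) := by
  rw [Polynomial.taylor_apply, Polynomial.eval₂_comp]
  congr 1
  rw [Polynomial.eval₂_add, Polynomial.eval₂_X, Polynomial.eval₂_C, add_comm]

/-- a polynomial with coefficients in `C` comes from `C[X]` -/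
private theorem w3_lift {E : Type*} [NormedField E] {C : Subfield E} {P : E[X]}
    (hP : Coeffs C P) : ∃ P₀ : (C : Type _)[X], P₀.map C.subtype = P := by
  have h : P ∈ Polynomial.lifts C.subtype := by
    rw [Polynomial.lifts_iff_coeff_lifts]
    intro n
    exact ⟨⟨P.coeff n, hP n⟩, rfl⟩
  exact (Polynomial.mem_lifts P).1 h

/-- W3a.  Proof.  `P ↦ P.eval₂ ι (ι z + ξ)` on `C[X]` has norm `gn s (taylor z P)` (by
`P.eval₂ ι (ι z + ξ) = (taylor z P).eval₂ ι ξ`), so it is injective; `z` is transcendental over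
`C` (`NA.eval_ne`), so `adj C z` is a fraction field of `C[X]` by `X ↦ z`, and the homomorphism
extends (`IsFractionRing.lift`, or the description of the elements of `adj C z` as fractions). -/
theorem exists_phi {E Ω : Type*} [NormedField E] [IsUltrametricDist E] [NormedField Ω]
    {C : Subfield E} (hC : IsAlgClosed C) {z : E} (hz : NA C z) (ι : E →+* Ω) (ξ : Ω) {s : ℝ}
    (hs : 0 < s) (hι : ∀ P : E[X], ‖P.eval₂ ι ξ‖ = gn s P) :
    ∃ φ : ↥(adj C z) →+* Ω, ∀ (P : E[X]) (_ : Coeffs C P) (h : P.eval z ∈ adj C z),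
      φ ⟨P.eval z, h⟩ = P.eval₂ ι (ι z + ξ) ∧ ‖φ ⟨P.eval z, h⟩‖ = gn s (taylor z P) := by
  have hmapc : ∀ P₀ : (C : Type _)[X], Coeffs C (P₀.map C.subtype) := by
    intro P₀ i
    rw [Polynomial.coeff_map]
    exact (P₀.coeff i).2
  have hmap0 : ∀ P₀ : (C : Type _)[X], P₀ ≠ 0 → P₀.map C.subtype ≠ 0 := by
    intro P₀ h0
    rwa [Ne, Polynomial.map_eq_zero_iff C.subtype.injective]
  -- the two homomorphisms of `C[X]`
  let g₀ : (C : Type _)[X] →+* E := eval₂RingHom C.subtype z
  let h₀ : (C : Type _)[X] →+* Ω := eval₂RingHom (ι.comp C.subtype) (ι z + ξ)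
  have hg₀ : ∀ P₀, g₀ P₀ = (P₀.map C.subtype).eval z := by
    intro P₀
    rw [Polynomial.eval_map]
    rfl
  have hh₀ : ∀ P₀, h₀ P₀ = (P₀.map C.subtype).eval₂ ι (ι z + ξ) := by
    intro P₀
    rw [Polynomial.eval₂_map]
    rfl
  have hnorm : ∀ P : E[X], ‖P.eval₂ ι (ι z + ξ)‖ = gn s (taylor z P) := by
    intro P
    rw [← w3_taylor, hι]
  have hginj : Function.Injective g₀ := by
    rw [injective_iff_map_eq_zero]
    intro P₀ h
    by_contra h0
    rw [hg₀] at h
    exact hz.eval_ne hC (hmapc P₀) (hmap0 P₀ h0) h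
  have hhinj : Function.Injective h₀ := by
    rw [injective_iff_map_eq_zero]
    intro P₀ h
    by_contra h0
    rw [hh₀] at h
    have h1 := hnorm (P₀.map C.subtype)
    rw [h, norm_zero] at h1
    have h2 : taylor z (P₀.map C.subtype) ≠ 0 := by
      intro h3
      have h4 : taylor z (P₀.map C.subtype) = taylor z 0 := by rw [h3, map_zero]
      exact hmap0 P₀ h0 (Polynomial.taylor_injective z h4)
    exact (gn_pos hs h2).ne h1
  let g : FractionRing (C : Type _)[X] →+* E := IsFractionRing.lift hginj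
  let h' : FractionRing (C : Type _)[X] →+* Ω := IsFractionRing.lift hhinj
  have hg : ∀ P₀, g (algebraMap _ _ P₀) = g₀ P₀ := fun P₀ => IsFractionRing.lift_algebraMap _ _
  have hh : ∀ P₀, h' (algebraMap _ _ P₀) = h₀ P₀ := fun P₀ => IsFractionRing.lift_algebraMap _ _
  have hle : adj C z ≤ g.fieldRange := by
    refine adj_le ?_ ?_
    · intro c hc
      refine ⟨algebraMap ((C : Type _)[X]) (FractionRing (C : Type _)[X])
        (Polynomial.C (⟨c, hc⟩ : C)), ?_⟩
      rw [hg, hg₀, Polynomial.map_C, Polynomial.eval_C]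
      rfl
    · refine ⟨algebraMap ((C : Type _)[X]) (FractionRing (C : Type _)[X]) Polynomial.X, ?_⟩
      rw [hg, hg₀, Polynomial.map_X, Polynomial.eval_X]
  let e : FractionRing (C : Type _)[X] ≃+* g.range :=
    RingEquiv.ofBijective g.rangeRestrict
      ⟨fun a b hab => g.injective (congrArg Subtype.val hab), g.rangeRestrict_surjective⟩
  have he : ∀ a, ((e a : g.range) : E) = g a := fun a => rfl
  let i : ↥(adj C z) →+* g.range :=
    RingHom.codRestrict (adj C z).subtype g.range (fun x => hle x.2)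
  refine ⟨h'.comp ((e.symm : g.range →+* FractionRing (C : Type _)[X]).comp i), ?_⟩
  intro P hP hmem
  obtain ⟨P₀, rfl⟩ := w3_lift hP
  have h1 : i ⟨(P₀.map C.subtype).eval z, hmem⟩ = e (algebraMap _ _ P₀) := by
    apply Subtype.ext
    rw [he, hg, hg₀]
    rfl
  have h2 : (h'.comp ((e.symm : g.range →+* FractionRing (C : Type _)[X]).comp i))
      ⟨(P₀.map C.subtype).eval z, hmem⟩ = (P₀.map C.subtype).eval₂ ι (ι z + ξ) := by
    change h' (e.symm (i ⟨(P₀.map C.subtype).eval z, hmem⟩)) = _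
    rw [h1, RingEquiv.symm_apply_apply, hh, hh₀]
  rw [h2]
  exact ⟨rfl, hnorm _⟩

end DA
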