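import Pool.Agent.Lib.DA.W0
import Pool.Agent.Lib.DA.W3a

/-!
# Module W3b: absolute values on `E = C(z)(Y)`
-/

namespace DA

open Polynomial MP1a953e

universe v

private theorem w3b_eval_mem {Ω : Type*} [NormedField Ω] {F : Subfield Ω} {g : Polynomial Ω}
    (hg : Coeffs F g) {a : Ω} (ha : a ∈ F) : g.eval a ∈ F := by
  rw [Polynomial.eval_eq_sum_range]
  exact F.sum_mem fun i _ => F.mul_mem (hg i) (F.pow_mem ha i)

/-- if all roots have norm at least one then the constant coefficient dominates the linear one -/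
private theorem w3b_roots {Ω : Type*} [NormedField Ω] [IsUltrametricDist Ω] (m : Multiset Ω)
    (hm : ∀ a ∈ m, 1 ≤ ‖a‖) :
    ‖((m.map fun a => X - C a).prod).coeff 1‖ ≤ ‖((m.map fun a => X - C a).prod).coeff 0‖ := by
  induction m using Multiset.induction_on with
  | empty => simp [coeff_one]
  | cons a m ih =>
    have ih' := ih fun b hb => hm b (Multiset.mem_cons_of_mem hb)
    have ha : 1 ≤ ‖a‖ := hm a (Multiset.mem_cons_self a m)
    set R : Polynomial Ω := (m.map fun a => X - C a).prod with hR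
    rw [Multiset.map_cons, Multiset.prod_cons, ← hR]
    have h1 : ((X - C a) * R).coeff 1 = R.coeff 0 - a * R.coeff 1 := by
      rw [sub_mul, coeff_sub, coeff_C_mul]
      congr 1
      exact coeff_X_mul R 0
    have h0 : ((X - C a) * R).coeff 0 = - (a * R.coeff 0) := by
      rw [sub_mul, coeff_sub, coeff_C_mul, coeff_X_mul_zero, zero_sub]
    rw [h1, h0, norm_neg, norm_mul]
    have h2 : ‖R.coeff 0 - a * R.coeff 1‖ ≤ max ‖R.coeff 0‖ ‖a * R.coeff 1‖ := by
      rw [sub_eq_add_neg]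
      refine (IsUltrametricDist.norm_add_le_max _ _).trans ?_
      rw [norm_neg]
    refine h2.trans (max_le ?_ ?_)
    · calc ‖R.coeff 0‖ = 1 * ‖R.coeff 0‖ := (one_mul _).symm
        _ ≤ ‖a‖ * ‖R.coeff 0‖ := by gcongr
    · rw [norm_mul]
      gcongr

/-- W3b.  Proof.  `exists_gauss_ext` gives `Ω, ι, ξ`, `exists_phi` gives `φ`. Let `P` be the minimal
polynomial of `Y` over `adj C z`, `Pφ = P.map φ`, which splits in `Ω`, monic of degree `D ≥ 1`, with
roots `ρ_j`. By `hreg` the norms of the coefficients of `Pφ` are those of `P`. If all `‖ρ_j‖ ≥ 1` then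
the coefficient of index `1`, up to sign the sum of the products of `D - 1` of the roots, has norm
`≤ ∏ ‖ρ_j‖ = ‖coefficient 0‖ ≤ θ * ‖coefficient 1‖`, a contradiction. So there is a root `ρ` with
`‖ρ‖ < 1`, and `φ` extends to `τ : E → Ω` with `τ Y = ρ`
(`IntermediateField.algHomAdjoinIntegralEquiv` or `AdjoinRoot`). `w x = ‖τ x‖`. -/
theorem exists_gaussAt {E : Type v} [NormedField E] [IsUltrametricDist E] {C : Subfield E}
    (hC : IsAlgClosed C) (hnt : ∃ x ∈ C, 1 < ‖x‖) {z : E} (hz : NA C z) {Y : E} {θ : ℝ}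
    (hY : NormalGen C z Y θ) {s : ℝ} (hs : 0 < s)
    (hreg : ∀ i, ∃ P Q : E[X], Coeffs C P ∧ Coeffs C Q ∧ Q.eval z ≠ 0 ∧
      (((minpoly (adj C z) Y).coeff i : adj C z) : E) = P.eval z / Q.eval z ∧
      gn s (taylor z P) = ‖P.eval z‖ ∧ gn s (taylor z Q) = ‖Q.eval z‖) :
    ∃ w : AbsoluteValue E ℝ, GaussAt C z s w ∧ w Y ≤ 1 := by
  obtain ⟨x₀, -, hx₀⟩ := hnt
  obtain ⟨Ω, instN, instU, instA, ι, ξ, hι⟩ := exists_gauss_ext E ⟨x₀, hx₀⟩ hs
  obtain ⟨φ, hφ⟩ := exists_phi hC hz ι ξ hs hι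
  have hzF : z ∈ adj C z := mem_adj_self C z
  have hPF : ∀ P : E[X], Coeffs C P → P.eval z ∈ adj C z := fun P hP =>
    w3b_eval_mem (fun i => le_adj C z (hP i)) hzF
  -- norms of the coefficients
  have hco : ∀ i, ‖φ ((minpoly (adj C z) Y).coeff i)‖ =
      ‖(((minpoly (adj C z) Y).coeff i : adj C z) : E)‖ := by
    intro i
    obtain ⟨P, Q, hP, hQ, hQ0, heq, hgP, hgQ⟩ := hreg i
    have e1 : (minpoly (adj C z) Y).coeff i =
        (⟨P.eval z, hPF P hP⟩ : adj C z) / ⟨Q.eval z, hPF Q hQ⟩ := by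
      apply Subtype.ext
      rw [heq]
      rfl
    rw [heq, e1, map_div₀, norm_div, norm_div, (hφ P hP (hPF P hP)).2, (hφ Q hQ (hPF Q hQ)).2,
      hgP, hgQ]
  let : Algebra ↥(adj C z) Ω := φ.toAlgebra
  have hint : IsIntegral ↥(adj C z) Y := hY.alg.isIntegral
  have hmon := minpoly.monic hint
  set p : (↥(adj C z))[X] := minpoly (adj C z) Y with hp
  -- a root of norm less than one
  obtain ⟨ρ, hρ, hρ1⟩ : ∃ ρ ∈ p.aroots Ω, ‖ρ‖ < 1 := by
    by_contra hcon
    push Not at hcon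
    have hsp : (p.map φ).Splits := IsAlgClosed.splits _
    have hprod : p.map φ = ((p.map φ).roots.map fun a => X - Polynomial.C a).prod :=
      hsp.eq_prod_roots_of_monic (hmon.map φ)
    have hr : ∀ a ∈ (p.map φ).roots, 1 ≤ ‖a‖ := fun a ha => hcon a ha
    have h1 := w3b_roots _ hr
    rw [← hprod, coeff_map, coeff_map, hco, hco] at h1
    have h2 := hY.dom 0 zero_ne_one
    have h3 : 0 < ‖(((minpoly (adj C z) Y).coeff 1 : adj C z) : E)‖ := norm_pos_iff.mpr hY.ne
    have h4 : θ * ‖(((minpoly (adj C z) Y).coeff 1 : adj C z) : E)‖ <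
        ‖(((minpoly (adj C z) Y).coeff 1 : adj C z) : E)‖ := by
      have := hY.lt
      nlinarith
    exact absurd (h1.trans h2) (not_le.mpr h4)
  -- extension to `E`
  have htop : ∀ x : E, x ∈ IntermediateField.adjoin ↥(adj C z) ({Y} : Set E) := by
    intro x
    have hx := hY.gen x
    have hle : adj (adj C z) Y ≤
        (IntermediateField.adjoin ↥(adj C z) ({Y} : Set E)).toSubfield := by
      refine adj_le ?_ ?_
      · intro c hc
        exact (IntermediateField.adjoin ↥(adj C z) ({Y} : Set E)).algebraMap_mem ⟨c, hc⟩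
      · exact IntermediateField.mem_adjoin_simple_self _ Y
    exact hle hx
  let τ₀ : IntermediateField.adjoin ↥(adj C z) ({Y} : Set E) →ₐ[↥(adj C z)] Ω :=
    (IntermediateField.algHomAdjoinIntegralEquiv ↥(adj C z) hint).symm ⟨ρ, hρ⟩
  have hτY : τ₀ (IntermediateField.AdjoinSimple.gen ↥(adj C z) Y) = ρ :=
    IntermediateField.algHomAdjoinIntegralEquiv_symm_apply_gen ↥(adj C z) hint ⟨ρ, hρ⟩
  let τ : E →+* Ω :=
    { toFun := fun x => τ₀ ⟨x, htop x⟩
      map_one' := by
        rw [← map_one τ₀]; rfl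
      map_mul' := fun x y => by
        rw [← map_mul τ₀]; rfl
      map_zero' := by
        rw [← map_zero τ₀]; rfl
      map_add' := fun x y => by
        rw [← map_add τ₀]; rfl }
  have hτφ : ∀ c : ↥(adj C z), τ (c : E) = φ c := by
    intro c
    have h := τ₀.commutes c
    exact h
  have hτY' : τ Y = ρ := hτY
  refine ⟨(IsAbsoluteValue.toAbsoluteValue (norm : Ω → ℝ)).comp τ.injective, ⟨?_, ?_⟩, ?_⟩
  · intro x y
    change ‖τ (x + y)‖ ≤ max ‖τ x‖ ‖τ y‖
    rw [map_add]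
    exact IsUltrametricDist.norm_add_le_max _ _
  · intro P hP
    change ‖τ (P.eval z)‖ = _
    have h := hτφ ⟨P.eval z, hPF P hP⟩
    rw [show τ (P.eval z) = φ ⟨P.eval z, hPF P hP⟩ from h]
    exact (hφ P hP (hPF P hP)).2
  · change ‖τ Y‖ ≤ 1
    rw [hτY']
    exact hρ1.le

end DA
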