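import Pool.Agent.Lib.DA.W1c
import Pool.Agent.Lib.DA.W3b

/-!
# Module W4: approximation of the generator
-/

namespace DA

open Polynomial MP1a953e

universe v

section
variable {E : Type*} [NormedField E]

private lemma W4_sum_le {w : AbsoluteValue E ℝ} (hna : IsNonarchimedean w) (S : Finset ℕ)
    (g : ℕ → E) (B : ℝ) (hB : 0 ≤ B) (h : ∀ i ∈ S, w (g i) ≤ B) : w (∑ i ∈ S, g i) ≤ B := by
  induction S using Finset.induction with
  | empty => rw [Finset.sum_empty, map_zero]; exact hB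
  | insert a S ha ih =>
    rw [Finset.sum_insert ha]
    refine (hna _ _).trans (max_le (h a (Finset.mem_insert_self _ _)) ?_)
    exact ih fun i hi => h i (Finset.mem_insert_of_mem hi)

private lemma W4_pow_sub_le {w : AbsoluteValue E ℝ} (hna : IsNonarchimedean w) {x y : E}
    (hx : w x ≤ 1) (hy : w y ≤ 1) (i : ℕ) : w (x ^ i - y ^ i) ≤ w (x - y) := by
  induction i with
  | zero => rw [pow_zero, pow_zero, sub_self, map_zero]; exact w.nonneg _
  | succ i ih =>
    have e : x ^ (i + 1) - y ^ (i + 1) = x * (x ^ i - y ^ i) + (x - y) * y ^ i := by ring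
    rw [e]
    refine (hna _ _).trans (max_le ?_ ?_)
    · rw [map_mul]
      exact (mul_le_of_le_one_left (w.nonneg _) hx).trans ih
    · rw [map_mul, map_pow]
      exact mul_le_of_le_one_right (w.nonneg _) (pow_le_one₀ (w.nonneg _) hy)

/-- the map `Φ` of the iteration -/
private noncomputable def W4_phi (S : Finset ℕ) (a : ℕ → E) (x : E) : E := -∑ i ∈ S, a i * x ^ i

private lemma W4_phi_le {w : AbsoluteValue E ℝ} (hna : IsNonarchimedean w) (S : Finset ℕ)
    (a : ℕ → E) {θ : ℝ} (hθ : 0 ≤ θ) (ha : ∀ i ∈ S, w (a i) ≤ θ) {x : E} (hx : w x ≤ 1) :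
    w (W4_phi S a x) ≤ θ := by
  rw [W4_phi, map_neg_eq_map]
  refine W4_sum_le hna S _ θ hθ fun i hi => ?_
  rw [map_mul, map_pow]
  calc w (a i) * w x ^ i ≤ θ * 1 :=
        mul_le_mul (ha i hi) (pow_le_one₀ (w.nonneg _) hx) (pow_nonneg (w.nonneg _) _) hθ
    _ = θ := mul_one θ

private lemma W4_phi_sub {w : AbsoluteValue E ℝ} (hna : IsNonarchimedean w) (S : Finset ℕ)
    (a : ℕ → E) {θ : ℝ} (hθ : 0 ≤ θ) (ha : ∀ i ∈ S, w (a i) ≤ θ) {x y : E} (hx : w x ≤ 1)
    (hy : w y ≤ 1) : w (W4_phi S a x - W4_phi S a y) ≤ θ * w (x - y) := by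
  have e : W4_phi S a x - W4_phi S a y = -∑ i ∈ S, a i * (x ^ i - y ^ i) := by
    rw [W4_phi, W4_phi, neg_sub_neg, ← Finset.sum_sub_distrib, ← Finset.sum_neg_distrib]
    refine Finset.sum_congr rfl fun i _ => ?_
    ring
  rw [e, map_neg_eq_map]
  refine W4_sum_le hna S _ _ (mul_nonneg hθ (w.nonneg _)) fun i hi => ?_
  rw [map_mul]
  exact mul_le_mul (ha i hi) (W4_pow_sub_le hna hx hy i) (w.nonneg _) hθ

/-- the iterates -/
private noncomputable def W4_it (S : Finset ℕ) (a : ℕ → E) : ℕ → E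
  | 0 => 0
  | j + 1 => W4_phi S a (W4_it S a j)

private lemma W4_it_near {w : AbsoluteValue E ℝ} (hna : IsNonarchimedean w) (S : Finset ℕ)
    (a : ℕ → E) {θ : ℝ} (hθ : 0 ≤ θ) (hθ1 : θ < 1) (ha : ∀ i ∈ S, w (a i) ≤ θ) {Y : E}
    (hY : w Y ≤ 1) (hfix : W4_phi S a Y = Y) (j : ℕ) :
    w (W4_it S a j) ≤ 1 ∧ w (Y - W4_it S a j) ≤ θ ^ j := by
  induction j with
  | zero =>
    rw [W4_it, map_zero, sub_zero, pow_zero]
    exact ⟨zero_le_one, hY⟩
  | succ j ih =>
    constructor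
    · rw [W4_it]
      exact (W4_phi_le hna S a hθ ha ih.1).trans hθ1.le
    · rw [W4_it]
      conv_lhs => rw [← hfix]
      refine (W4_phi_sub hna S a hθ ha hY ih.1).trans ?_
      rw [pow_succ']
      exact mul_le_mul_of_nonneg_left ih.2 hθ

private lemma W4_min {Q : ℕ → ℝ → Prop} (S : Finset ℕ) (d : ℝ)
    (h : ∀ i ∈ S, ∃ s₁, d < s₁ ∧ ∀ s, 0 < s → s ≤ s₁ → Q i s) :
    ∃ s₀, d < s₀ ∧ ∀ i ∈ S, ∀ s, 0 < s → s ≤ s₀ → Q i s := by
  induction S using Finset.induction with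
  | empty => exact ⟨d + 1, by linarith, by simp⟩
  | insert a S ha ih =>
    obtain ⟨s₀, h0, h1⟩ := ih fun i hi => h i (Finset.mem_insert_of_mem hi)
    obtain ⟨s₁, h2, h3⟩ := h a (Finset.mem_insert_self _ _)
    refine ⟨min s₀ s₁, lt_min h0 h2, fun i hi s hs hss => ?_⟩
    rcases Finset.mem_insert.1 hi with rfl | hi
    · exact h3 s hs (hss.trans (min_le_right _ _))
    · exact h1 i hi s hs (hss.trans (min_le_left _ _))

private lemma W4_nabs (E : Type*) [NormedField E] [IsUltrametricDist E] :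
    IsNonarchimedean (nabs E) := fun x y => IsUltrametricDist.norm_add_le_max x y

private lemma W4_it_reg [IsUltrametricDist E] {C : Subfield E} {z : E} {s₀ : ℝ} (S : Finset ℕ)
    (a : ℕ → E) (ha : ∀ i ∈ S, a i ∈ RegS C z s₀) (j : ℕ) : W4_it S a j ∈ RegS C z s₀ := by
  have hpow : ∀ x ∈ RegS C z s₀, ∀ i : ℕ, x ^ i ∈ RegS C z s₀ := by
    intro x hx i
    induction i with
    | zero => rw [pow_zero]; exact RegS.const C.one_mem
    | succ i ih => rw [pow_succ]; exact RegS.mul ih hx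
  have hsum : ∀ (T : Finset ℕ) (g : ℕ → E), (∀ i ∈ T, g i ∈ RegS C z s₀) →
      ∑ i ∈ T, g i ∈ RegS C z s₀ := by
    intro T g
    induction T using Finset.induction with
    | empty => intro _; rw [Finset.sum_empty]; exact RegS.const C.zero_mem
    | insert b T hb ih =>
      intro h
      rw [Finset.sum_insert hb]
      exact RegS.add (h b (Finset.mem_insert_self _ _))
        (ih fun i hi => h i (Finset.mem_insert_of_mem hi))
  induction j with
  | zero => rw [W4_it]; exact RegS.const C.zero_mem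
  | succ j ih =>
    rw [W4_it, W4_phi]
    exact RegS.neg (hsum S _ fun i hi => RegS.mul (ha i hi) (hpow _ ih i))

end

/-- numerator and denominator have their norms as Gauss norms near `z` -/
private lemma W4_frac {E : Type*} [NormedField E] [IsUltrametricDist E] {C : Subfield E}
    (hC : IsAlgClosed C) {z : E} (hz : NA C z) {x : E} (hx : x ∈ adj C z) :
    ∃ s₁, Metric.infDist z (C : Set E) < s₁ ∧ ∀ s, 0 < s → s ≤ s₁ →
      ∃ P Q : E[X], Coeffs C P ∧ Coeffs C Q ∧ Q.eval z ≠ 0 ∧ x = P.eval z / Q.eval z ∧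
      gn s (taylor z P) = ‖P.eval z‖ ∧ gn s (taylor z Q) = ‖Q.eval z‖ := by
  obtain ⟨_, _, P, Q, hPQ, hxe⟩ := exists_regS hC hz hx
  have hQ0 : Q ≠ 0 := by
    rintro rfl
    exact hPQ.ne (by simp)
  obtain ⟨s₂, h2, h2'⟩ := exists_reg_radius hC hz hPQ.cQ hQ0
  by_cases hP0 : P = 0
  · refine ⟨s₂, h2, fun s hs hss => ⟨P, Q, hPQ.cP, hPQ.cQ, hPQ.ne, hxe, ?_, h2' s hs hss⟩⟩
    rw [hP0, map_zero, eval_zero, norm_zero, gn, gaussNorm_zero]
  · obtain ⟨s₁, h1, h1'⟩ := exists_reg_radius hC hz hPQ.cP hP0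
    exact ⟨min s₁ s₂, lt_min h1 h2, fun s hs hss => ⟨P, Q, hPQ.cP, hPQ.cQ, hPQ.ne, hxe,
      h1' s hs (hss.trans (min_le_left _ _)), h2' s hs (hss.trans (min_le_right _ _))⟩⟩

/-- W4.  Proof.  Let `P = ∑ p_i X ^ i` be the minimal polynomial, `a_i = p_i / p_1 ∈ adj C z` for `i ≠ 1`,
`‖a_i‖ ≤ θ`, and `Φ(x) = - ∑_{i ≠ 1} a_i x ^ i`, so `Φ(Y) = Y`, and `Yj 0 = 0`,
`Yj (j+1) = Φ (Yj j)`. For all nonarchimedean absolute values `w` with `w (a_i) ≤ θ` and all `x, y` with
`w x, w y ≤ 1` we have `w (Φ x) ≤ θ` and `w (Φ x - Φ y) ≤ θ * w (x - y)`. Choose `s₀` bigger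
than the distance such that all `a_i ∈ RegS C z s₀` (`exists_regS`, `RegS.mono`) and such that for
`s < s₀`: `w (a_i) = ‖a_i‖` for all `GaussAt C z s w` (`exists_radius_eq`), and the hypothesis
`hreg` of `exists_gaussAt` holds (numerators and denominators of the `p_i`, `exists_reg_radius`; the
radius of `p_i = 0` is trivial). `w 1 = 1` etc. -/
theorem exists_approxGen {E : Type v} [NormedField E] [IsUltrametricDist E] {C : Subfield E}
    (hC : IsAlgClosed C) (hnt : ∃ x ∈ C, 1 < ‖x‖) {z : E} (hz : NA C z) {Y : E} {θ : ℝ}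
    (hY : NormalGen C z Y θ) :
    ∃ (s₀ : ℝ) (Yj : ℕ → E), Metric.infDist z (C : Set E) < s₀ ∧
      ∀ s₁, Metric.infDist z (C : Set E) < s₁ → s₁ ≤ s₀ → ApproxGen C z Y θ s₁ Yj := by
  have hint : IsIntegral (adj C z) Y := hY.alg.isIntegral
  set m := minpoly (adj C z) Y with hm
  set p : ℕ → E := fun i => ((m.coeff i : adj C z) : E) with hp
  have hpm : ∀ i, p i ∈ adj C z := fun i => (m.coeff i).2
  have hp1 : p 1 ≠ 0 := hY.ne
  have hDpos : 0 < m.natDegree := minpoly.natDegree_pos hint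
  set S : Finset ℕ := (Finset.range (m.natDegree + 1)).erase 1 with hS
  set a : ℕ → E := fun i => p i / p 1 with ha
  have ham : ∀ i, a i ∈ adj C z := fun i => (adj C z).div_mem (hpm i) (hpm 1)
  have haθ : ∀ i ∈ S, ‖a i‖ ≤ θ := by
    intro i hi
    rw [ha]
    simp only
    rw [norm_div, div_le_iff₀ (norm_pos_iff.2 hp1)]
    exact hY.dom i (Finset.ne_of_mem_erase hi)
  have hfix : W4_phi S a Y = Y := by
    have h1 : ∑ i ∈ Finset.range (m.natDegree + 1), p i * Y ^ i = 0 := by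
      have h2 := minpoly.aeval (adj C z) Y
      rw [aeval_eq_sum_range] at h2
      exact h2
    have h1mem : 1 ∈ Finset.range (m.natDegree + 1) := Finset.mem_range.2 (by omega)
    rw [← Finset.add_sum_erase _ _ h1mem, pow_one] at h1
    have h3 : W4_phi S a Y = -(∑ i ∈ S, p i * Y ^ i) / p 1 := by
      rw [W4_phi, neg_div, Finset.sum_div]
      congr 1
      refine Finset.sum_congr rfl fun i _ => ?_
      rw [ha]
      ring
    rw [h3, div_eq_iff hp1]
    linear_combination (-1 : E) * h1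
  -- the radius
  obtain ⟨s₀, hs0, hs0'⟩ := W4_min (Q := fun i s =>
      (a i ∈ RegS C z s ∧ ∀ w : AbsoluteValue E ℝ, GaussAt C z s w → w (a i) = ‖a i‖) ∧
      ∃ P Q : E[X], Coeffs C P ∧ Coeffs C Q ∧ Q.eval z ≠ 0 ∧ p i = P.eval z / Q.eval z ∧
      gn s (taylor z P) = ‖P.eval z‖ ∧ gn s (taylor z Q) = ‖Q.eval z‖)
    (Finset.range (m.natDegree + 1)) (Metric.infDist z (C : Set E)) (by
      intro i _
      obtain ⟨r₁, h1, h1'⟩ := exists_regS hC hz (ham i)
      obtain ⟨r₂, h2, h2'⟩ := exists_radius_eq hC hz (ham i)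
      obtain ⟨r₃, h3, h3'⟩ := W4_frac hC hz (hpm i)
      refine ⟨min r₁ (min r₂ r₃), lt_min h1 (lt_min h2 h3), fun s hs hss => ?_⟩
      have e1 : s ≤ r₁ := hss.trans (min_le_left _ _)
      have e2 : s ≤ r₂ := hss.trans ((min_le_right _ _).trans (min_le_left _ _))
      have e3 : s ≤ r₃ := hss.trans ((min_le_right _ _).trans (min_le_right _ _))
      exact ⟨⟨RegS.mono e1 h1', h2' s hs e2⟩, h3' s hs e3⟩)
  have hdnn : 0 ≤ Metric.infDist z (C : Set E) := Metric.infDist_nonneg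
  refine ⟨s₀, W4_it S a, hs0, fun s₁ h1 h2 => ?_⟩
  have hs1 : 0 < s₁ := lt_of_le_of_lt hdnn h1
  have hSr : ∀ i ∈ S, i ∈ Finset.range (m.natDegree + 1) := fun i hi => Finset.mem_of_mem_erase hi
  refine ⟨hY.nonneg, hY.lt, h1, ?_, ?_, ?_, ?_⟩
  · exact W4_it_reg S a fun i hi => (hs0' i (hSr i hi) s₁ hs1 h2).1.1
  · intro j
    exact (W4_it_near (W4_nabs E) S a hY.nonneg hY.lt haθ hY.norm_le hfix j).2
  · intro s hs
    have hspos : 0 < s := lt_of_le_of_lt hdnn hs.1
    have hsle : s ≤ s₀ := hs.2.le.trans h2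
    refine exists_gaussAt hC hnt hz hY hspos fun i => ?_
    by_cases hi : i ∈ Finset.range (m.natDegree + 1)
    · exact (hs0' i hi s hspos hsle).2
    · have hi0 : m.coeff i = 0 := by
        apply coeff_eq_zero_of_natDegree_lt
        rw [Finset.mem_range] at hi
        omega
      refine ⟨0, 1, fun n => ?_, fun n => ?_, ?_, ?_, ?_, ?_⟩
      · rw [coeff_zero]; exact C.zero_mem
      · rw [coeff_one]
        split_ifs
        · exact C.one_mem
        · exact C.zero_mem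
      · rw [eval_one]; exact one_ne_zero
      · rw [← hm, hi0, eval_zero, zero_div]
        rfl
      · rw [map_zero, eval_zero, norm_zero, gn, gaussNorm_zero]
      · rw [taylor_one, gn_C, eval_one]
  · intro s hs w hw hwY j
    have hspos : 0 < s := lt_of_le_of_lt hdnn hs.1
    have hsle : s ≤ s₀ := hs.2.le.trans h2
    refine (W4_it_near hw.nonarch S a hY.nonneg hY.lt (fun i hi => ?_) hwY hfix j).2
    rw [(hs0' i (hSr i hi) s hspos hsle).1.2 w hw]
    exact haθ i hi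

end DA
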