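import Pool.Agent.Lib.DA.W1c

/-!
# Module W5a: approximation of polynomials in the generator
-/

namespace DA

open Polynomial MP1a953e

private theorem w5a_sum_le {E : Type*} [Field E] {w : AbsoluteValue E ℝ} (hw : IsNonarchimedean w)
    {B : ℝ} (hB : 0 ≤ B) (s : Finset ℕ) (f : ℕ → E) (h : ∀ i ∈ s, w (f i) ≤ B) :
    w (∑ i ∈ s, f i) ≤ B := by
  classical
  induction s using Finset.induction_on with
  | empty => simpa using hB
  | insert a s ha ih =>
    rw [Finset.sum_insert ha]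
    exact (hw _ _).trans (max_le (h a (Finset.mem_insert_self a s))
      (ih fun i hi => h i (Finset.mem_insert_of_mem hi)))

private theorem w5a_pow_sub {E : Type*} [Field E] {w : AbsoluteValue E ℝ} (hw : IsNonarchimedean w)
    {Y y : E} (hY : w Y ≤ 1) (hy : w y ≤ 1) (n : ℕ) : w (Y ^ n - y ^ n) ≤ w (Y - y) := by
  rw [← geom_sum₂_mul Y y n, map_mul]
  have h1 : w (∑ i ∈ Finset.range n, Y ^ i * y ^ (n - 1 - i)) ≤ 1 := by
    refine w5a_sum_le hw zero_le_one _ _ fun i _ => ?_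
    rw [map_mul, map_pow, map_pow]
    exact mul_le_one₀ (pow_le_one₀ (w.nonneg _) hY) (pow_nonneg (w.nonneg _) _)
      (pow_le_one₀ (w.nonneg _) hy)
  calc _ ≤ 1 * w (Y - y) := mul_le_mul_of_nonneg_right h1 (w.nonneg _)
    _ = _ := one_mul _

private theorem w5a_key {E : Type*} [Field E] {w : AbsoluteValue E ℝ} (hw : IsNonarchimedean w)
    {Y y : E} (hY : w Y ≤ 1) {t : ℝ} (ht : w (Y - y) ≤ t) (ht1 : t ≤ 1) {N : ℕ} {g : ℕ → E} {B : ℝ}
    (hB : 0 ≤ B) (hg : ∀ i ∈ Finset.range N, w (g i) ≤ B) :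
    w (∑ i ∈ Finset.range N, g i * Y ^ i - ∑ i ∈ Finset.range N, g i * y ^ i) ≤ B * t := by
  have hy : w y ≤ 1 := by
    have h1 := hw Y (-(Y - y))
    rw [w.map_neg] at h1
    have h2 : Y + -(Y - y) = y := by ring
    rw [h2] at h1
    exact h1.trans (max_le hY (ht.trans ht1))
  have ht0 : 0 ≤ t := (w.nonneg _).trans ht
  rw [← Finset.sum_sub_distrib]
  refine w5a_sum_le hw (mul_nonneg hB ht0) _ _ fun i hi => ?_
  rw [← mul_sub, map_mul]
  exact mul_le_mul (hg i hi) ((w5a_pow_sub hw hY hy i).trans ht) (w.nonneg _) hB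

/-- W5a.  Proof.  `G j = ∑ g i * (Yj j) ^ i`. For `0 < s < s₀` and `GaussAt C z s w`, `w (g i) ≤ B`
with `B = max_i gn s₀ (taylor z P_i) / ‖Q_i z‖` (`GaussAt.val_reg`, `gn_mono`), and `‖g i‖ ≤ B`.
`‖Yj j‖ ≤ 1`, `w (Yj j) ≤ 1` (from `‖Y‖ ≤ 1`, `w Y ≤ 1`, `θ ≤ 1`), so
`w (Y ^ i - (Yj j) ^ i) ≤ w (Y - Yj j) ≤ θ ^ j`. -/
theorem ApproxGen.poly {E : Type*} [NormedField E] [IsUltrametricDist E] {C : Subfield E}
    {z Y : E} {θ s₀ : ℝ} {Yj : ℕ → E} (h : ApproxGen C z Y θ s₀ Yj) (hY : ‖Y‖ ≤ 1) (N : ℕ)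
    (g : ℕ → E) (hg : ∀ i, g i ∈ RegS C z s₀) :
    ∃ (B : ℝ) (G : ℕ → E), 0 ≤ B ∧ ∀ j, G j ∈ RegS C z s₀ ∧
      ‖∑ i ∈ Finset.range N, g i * Y ^ i - G j‖ ≤ B * θ ^ j ∧
      ∀ s ∈ Iv C z s₀, ∀ w : AbsoluteValue E ℝ, GaussAt C z s w → w Y ≤ 1 →
        w (∑ i ∈ Finset.range N, g i * Y ^ i - G j) ≤ B * θ ^ j := by
  classical
  choose P Q hR hPQ using hg
  have hs₀ : 0 ≤ s₀ := Metric.infDist_nonneg.trans h.lt.le
  set b : ℕ → ℝ := fun i => gn s₀ (taylor z (P i)) / ‖(Q i).eval z‖ with hb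
  have hb0 : ∀ i, 0 ≤ b i := fun i => div_nonneg (gn_nonneg hs₀ _) (norm_nonneg _)
  set B : ℝ := ∑ i ∈ Finset.range N, b i with hBdef
  have hB : 0 ≤ B := Finset.sum_nonneg fun i _ => hb0 i
  have hbB : ∀ i ∈ Finset.range N, b i ≤ B := fun i hi =>
    Finset.single_le_sum (f := b) (fun k _ => hb0 k) hi
  refine ⟨B, fun j => ∑ i ∈ Finset.range N, g i * (Yj j) ^ i, hB, fun j => ⟨?_, ?_, ?_⟩⟩
  · have hpow : ∀ n : ℕ, (Yj j) ^ n ∈ RegS C z s₀ := by
      intro n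
      induction n with
      | zero => rw [pow_zero]; exact RegS.const (one_mem C)
      | succ n ih => rw [pow_succ]; exact RegS.mul ih (h.reg j)
    have hsum : ∀ s : Finset ℕ, ∑ i ∈ s, g i * (Yj j) ^ i ∈ RegS C z s₀ := by
      intro s
      induction s using Finset.induction_on with
      | empty => rw [Finset.sum_empty]; exact RegS.const (zero_mem C)
      | insert a s ha ih =>
        rw [Finset.sum_insert ha]
        exact RegS.add (RegS.mul ⟨P a, Q a, hR a, hPQ a⟩ (hpow a)) ih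
    exact hsum _
  · have hna : IsNonarchimedean (nabs E) := by
      intro x y
      exact IsUltrametricDist.norm_add_le_max x y
    have h1 : ∀ i ∈ Finset.range N, nabs E (g i) ≤ B := by
      intro i hi
      refine le_trans ?_ (hbB i hi)
      show ‖g i‖ ≤ b i
      rw [hPQ i, norm_div, hb]
      exact div_le_div_of_nonneg_right (norm_eval_le_gn z hs₀ (P i)) (norm_nonneg _)
    exact w5a_key (w := nabs E) hna (Y := Y) (y := Yj j) hY (h.near j)
      (pow_le_one₀ h.nonneg h.lt_one.le) hB h1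
  · intro s hs w hw hwY
    have hs0 : 0 < s := Metric.infDist_nonneg.trans_lt hs.1
    have h1 : ∀ i ∈ Finset.range N, w (g i) ≤ B := by
      intro i hi
      refine le_trans ?_ (hbB i hi)
      rw [hPQ i, hw.val_reg hs0 hs.2 (hR i), hb]
      exact div_le_div_of_nonneg_right (gn_mono hs0.le hs.2.le _) (norm_nonneg _)
    exact w5a_key hw.nonarch hwY (h.wnear s hs w hw hwY j)
      (pow_le_one₀ h.nonneg h.lt_one.le) hB h1

end DA
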