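import Pool.Agent.Lib.DA.W2
import Pool.Agent.Lib.DA.W4
import Pool.Agent.Lib.DA.W5a

/-!
# Module W5b: the family of absolute values
-/

namespace DA

open Polynomial MP1a953e

universe v

private theorem w5b_min {ι : Type*} {ρ : ℝ} (S : Finset ι) (p : ι → ℝ → Prop)
    (hp : ∀ i ∈ S, ∃ r, ρ < r ∧ ∀ t, t ≤ r → p i t) :
    ∃ r, ρ < r ∧ ∀ i ∈ S, ∀ t, t ≤ r → p i t := by
  classical
  induction S using Finset.induction_on with
  | empty => exact ⟨ρ + 1, by linarith, by simp⟩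
  | insert a s ha ih =>
    obtain ⟨r, hr, h⟩ := ih fun i hi => hp i (Finset.mem_insert_of_mem hi)
    obtain ⟨r', hr', h'⟩ := hp a (Finset.mem_insert_self a s)
    refine ⟨min r r', lt_min hr hr', fun i hi t ht => ?_⟩
    rcases Finset.mem_insert.1 hi with rfl | hi
    · exact h' t (ht.trans (min_le_right _ _))
    · exact h i hi t (ht.trans (min_le_left _ _))

private theorem w5b_small {θ B : ℝ} (h0 : 0 ≤ θ) (h1 : θ < 1) (hB : 0 ≤ B) {ε : ℝ} (hε : 0 < ε) :
    ∃ j : ℕ, B * θ ^ j < ε := by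
  obtain ⟨j, hj⟩ := exists_pow_lt_of_lt_one (show 0 < ε / (B + 1) by positivity) h1
  refine ⟨j, ?_⟩
  have h2 : 0 ≤ θ ^ j := pow_nonneg h0 j
  calc B * θ ^ j ≤ (B + 1) * θ ^ j := by nlinarith
    _ < (B + 1) * (ε / (B + 1)) := mul_lt_mul_of_pos_left hj (by linarith)
    _ = ε := by field_simp

section
variable {E : Type*} [NormedField E] [IsUltrametricDist E]

/-- `RegS` as a subring -/
private def w5bR (C : Subfield E) (z : E) (s : ℝ) : Subring E where
  carrier := RegS C z s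
  mul_mem' := RegS.mul
  one_mem' := RegS.const (one_mem C)
  add_mem' := RegS.add
  zero_mem' := RegS.const (zero_mem C)
  neg_mem' := RegS.neg

/-- polynomials in `Y` with coefficients in `RegS` -/
private noncomputable def w5bRY (C : Subfield E) (z Y : E) (s : ℝ) : Subring E :=
  (Polynomial.eval₂RingHom (w5bR C z s).subtype Y).range

private theorem w5b_coeff_mem {C : Subfield E} {z : E} (Y : E) {s : ℝ} {x : E}
    (hx : x ∈ RegS C z s) : x ∈ w5bRY C z Y s := by
  refine ⟨Polynomial.C (⟨x, hx⟩ : w5bR C z s), ?_⟩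
  simp

private theorem w5b_gen_mem (C : Subfield E) (z Y : E) (s : ℝ) : Y ∈ w5bRY C z Y s := by
  refine ⟨Polynomial.X, ?_⟩
  simp

private theorem w5b_rep {C : Subfield E} {z Y : E} {s : ℝ} {x : E} (hx : x ∈ w5bRY C z Y s) :
    ∃ (N : ℕ) (g : ℕ → E), (∀ i, g i ∈ RegS C z s) ∧ x = ∑ i ∈ Finset.range N, g i * Y ^ i := by
  obtain ⟨P, hP⟩ := hx
  refine ⟨P.natDegree + 1, fun i => ((P.coeff i : w5bR C z s) : E), fun i => (P.coeff i).2, ?_⟩
  rw [← hP, Polynomial.coe_eval₂RingHom, Polynomial.eval₂_eq_sum_range]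
  rfl

omit [IsUltrametricDist E] in
private theorem w5b_mem_adj_poly {F : Subfield E} {Y : E} (hY : IsAlgebraic F Y) {x : E}
    (hx : x ∈ adj F Y) : ∃ P : Polynomial E, Coeffs F P ∧ x = P.eval Y := by
  have h1 : adj F Y ≤ (IntermediateField.adjoin F {Y}).toSubfield := by
    refine adj_le (fun e he => ?_) ?_
    · exact (IntermediateField.adjoin F {Y}).algebraMap_mem ⟨e, he⟩
    · exact IntermediateField.mem_adjoin_simple_self F Y
  have h2 : x ∈ IntermediateField.adjoin F {Y} := h1 hx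
  have h3 : x ∈ (IntermediateField.adjoin F {Y}).toSubalgebra := h2
  rw [IntermediateField.adjoin_simple_toSubalgebra_of_isAlgebraic hY,
    Algebra.adjoin_singleton_eq_range_aeval] at h3
  obtain ⟨P, hP⟩ := h3
  refine ⟨P.map (algebraMap F E), fun i => ?_, ?_⟩
  · rw [coeff_map]
    exact (P.coeff i).2
  · rw [eval_map_algebraMap]
    exact hP.symm

private theorem w5b_radius_rep {C : Subfield E} (hC : IsAlgClosed C) {z : E} (hz : NA C z)
    {Y : E} {θ : ℝ} (hY : NormalGen C z Y θ) (x : E) :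
    ∃ r, Metric.infDist z (C : Set E) < r ∧ ∀ s, s ≤ r → x ∈ w5bRY C z Y s := by
  obtain ⟨P, hP, hx⟩ := w5b_mem_adj_poly hY.alg (hY.gen x)
  obtain ⟨r, hr, h⟩ := w5b_min (ρ := Metric.infDist z (C : Set E))
    (Finset.range (P.natDegree + 1)) (fun i t => P.coeff i ∈ RegS C z t) (fun i _ => by
      obtain ⟨r, hr, h⟩ := exists_regS hC hz (hP i)
      exact ⟨r, hr, fun t ht => RegS.mono ht h⟩)
  refine ⟨r, hr, fun s hs => ?_⟩
  rw [hx, Polynomial.eval_eq_sum_range]
  exact sum_mem fun i hi => mul_mem (w5b_coeff_mem Y (h i hi s hs))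
    (pow_mem (w5b_gen_mem C z Y s) i)

private theorem w5b_le_val {C : Subfield E} {z : E} {s₀ s : ℝ} (hs : 0 < s) (hss : s < s₀)
    {w : AbsoluteValue E ℝ} (hw : GaussAt C z s w) {x : E} (hx : x ∈ RegS C z s₀) :
    ‖x‖ ≤ w x := by
  obtain ⟨P, Q, hR, rfl⟩ := hx
  rw [hw.val_reg hs hss hR, norm_div]
  exact div_le_div_of_nonneg_right (norm_eval_le_gn z hs.le P) (norm_nonneg _)

private theorem w5b_mono_val {C : Subfield E} {z : E} {s₀ s s' : ℝ} (hs : 0 < s) (hss : s ≤ s')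
    (hs' : s' < s₀) {w w' : AbsoluteValue E ℝ} (hw : GaussAt C z s w) (hw' : GaussAt C z s' w')
    {x : E} (hx : x ∈ RegS C z s₀) : w x ≤ w' x := by
  obtain ⟨P, Q, hR, rfl⟩ := hx
  rw [hw.val_reg hs (hss.trans_lt hs') hR, hw'.val_reg (hs.trans_le hss) hs' hR]
  exact div_le_div_of_nonneg_right (gn_mono hs.le hss _) (norm_nonneg _)

end

/-- W5b.  Proof.  `exists_normalGen` gives `Y`, `θ`; every `x ∈ E` is `∑_{i < N} g i * Y ^ i` with
`g i ∈ adj C z` (`N` the degree of `Y`). `exists_approxGen` and `exists_regS` give `s₀` with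
`ApproxGen C z Y θ s₀ Yj` and such that the coefficients of all elements of `X` are in `RegS C z s₀`. For
`s ∈ Iv C z s₀` let `w s` be as in `ApproxGen.ex` (choice; anything for other `s`). The elements
`∑ g i * Y ^ i` (any number of terms) with `g i ∈ RegS C z s₀` form a subring which contains `C` and `X`.
`le`, `mono`, `cont`, `approx` for such elements from `ApproxGen.poly`: for `x = P(z)/Q(z)` regular and
`s < s₀` we have `w s x = gn s (taylor z P) / ‖Q z‖` (`GaussAt.val_reg`), which is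
`≥ ‖x‖`, monotone and continuous in `s`; the limits (uniform in `s`) have the same properties. `eq`: for
`g = ∑ g i * Y ^ i`, `g i ∈ adj C z`, shrink the radius such that the `g i` are regular; by
`ApproxGen.poly` there is `G ∈ adj C z` with `‖g - G‖ < ‖g‖` and `w s (g - G) < ‖g‖` for all `s`, and
`w s G = ‖G‖ = ‖g‖` for `s` near the distance (`exists_radius_eq`). -/
theorem exists_wfam {E : Type v} [NormedField E] [IsUltrametricDist E] {C : Subfield E}
    (hC : IsAlgClosed C) (hnt : ∃ x ∈ C, 1 < ‖x‖) {z y : E} (hz : NA C z)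
    (hy : IsSeparable (adj C z) y) (hE : ∀ x : E, x ∈ adj (adj C z) y)
    (hd : ∀ x : E, ∀ ε : ℝ, 0 < ε → ∃ g ∈ adj C z, ‖x - g‖ < ε) (X : Finset E) :
    ∃ (s₀ : ℝ) (w : ℝ → AbsoluteValue E ℝ),
      WFam C z (Subring.closure ((C : Set E) ∪ (X : Set E))) s₀ w := by
  classical
  obtain ⟨Y, θ, hY⟩ := exists_normalGen hnt hy hE hd
  obtain ⟨a₀, Yj, ha₀, hA⟩ := exists_approxGen hC hnt hz hY
  obtain ⟨r, hr, hX⟩ := w5b_min (ρ := Metric.infDist z (C : Set E)) X
    (fun x t => x ∈ w5bRY C z Y t) (fun x _ => w5b_radius_rep hC hz hY x)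
  have hρ : 0 ≤ Metric.infDist z (C : Set E) := Metric.infDist_nonneg
  set s₀ : ℝ := min a₀ r with hs₀
  have hs₀ρ : Metric.infDist z (C : Set E) < s₀ := lt_min ha₀ hr
  have h := hA s₀ hs₀ρ (min_le_left _ _)
  have hex : ∀ s, ∃ w : AbsoluteValue E ℝ, s ∈ Iv C z s₀ → GaussAt C z s w ∧ w Y ≤ 1 := by
    intro s
    by_cases hs : s ∈ Iv C z s₀
    · obtain ⟨w, hw⟩ := h.ex s hs
      exact ⟨w, fun _ => hw⟩
    · exact ⟨nabs E, fun h' => absurd h' hs⟩
  choose w hw using hex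
  have hle : Subring.closure ((C : Set E) ∪ (X : Set E)) ≤ w5bRY C z Y s₀ := by
    rw [Subring.closure_le]
    rintro x (hx | hx)
    · exact w5b_coeff_mem Y (RegS.const hx)
    · exact hX x hx s₀ (min_le_right _ _)
  have happ : ∀ g ∈ Subring.closure ((C : Set E) ∪ (X : Set E)), ∀ ε : ℝ, 0 < ε →
      ∃ G ∈ RegS C z s₀, ‖g - G‖ < ε ∧ ∀ s ∈ Iv C z s₀, w s (g - G) < ε := by
    intro g hg ε hε
    obtain ⟨N, c, hc, hgc⟩ := w5b_rep (hle hg)
    obtain ⟨B, G, hB, hG⟩ := h.poly hY.norm_le N c hc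
    obtain ⟨j, hj⟩ := w5b_small h.nonneg h.lt_one hB hε
    refine ⟨G j, (hG j).1, ?_, fun s hs => ?_⟩
    · rw [hgc]
      exact (hG j).2.1.trans_lt hj
    · rw [hgc]
      exact ((hG j).2.2 s hs (w s) (hw s hs).1 (hw s hs).2).trans_lt hj
  refine ⟨s₀, w, ⟨hs₀ρ, fun s hs => (hw s hs).1, ?_, ?_, ?_, ?_, ?_⟩⟩
  · -- le
    intro s hs g hg
    refine le_of_forall_pos_le_add fun ε hε => ?_
    obtain ⟨G, hG, h1, h2⟩ := happ g hg (ε / 2) (half_pos hε)
    have h3 := w5b_le_val (hρ.trans_lt hs.1) hs.2 (hw s hs).1 hG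
    have h4 : ‖g‖ ≤ ‖G‖ + ‖g - G‖ := by
      have := norm_add_le G (g - G)
      rwa [add_sub_cancel] at this
    have h5 : w s G ≤ w s g + w s (g - G) := by
      have h6 := (w s).add_le g (-(g - G))
      rw [(w s).map_neg] at h6
      have h7 : g + -(g - G) = G := by ring
      rwa [h7] at h6
    have h8 := h2 s hs
    linarith
  · -- mono
    intro s hs s' hs' hss g hg
    refine le_of_forall_pos_le_add fun ε hε => ?_
    obtain ⟨G, hG, h1, h2⟩ := happ g hg (ε / 2) (half_pos hε)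
    have h3 := w5b_mono_val (hρ.trans_lt hs.1) hss hs'.2 (hw s hs).1 (hw s' hs').1 hG
    have h4 : w s g ≤ w s G + w s (g - G) := by
      have := (w s).add_le G (g - G)
      rwa [add_sub_cancel] at this
    have h5 : w s' G ≤ w s' g + w s' (g - G) := by
      have h6 := (w s').add_le g (-(g - G))
      rw [(w s').map_neg] at h6
      have h7 : g + -(g - G) = G := by ring
      rwa [h7] at h6
    have h8 := h2 s hs
    have h9 := h2 s' hs'
    linarith
  · -- cont
    intro g hg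
    refine continuousOn_of_uniform_approx_of_continuousOn fun u hu => ?_
    obtain ⟨ε, hε, hεu⟩ := Metric.mem_uniformity_dist.1 hu
    obtain ⟨G, ⟨P, Q, hR, hPQ⟩, h1, h2⟩ := happ g hg ε hε
    refine ⟨fun s => gn s (taylor z P) / ‖Q.eval z‖,
      ((continuous_gn (taylor z P)).div_const _).continuousOn, fun s hs => hεu ?_⟩
    show dist (w s g) (gn s (taylor z P) / ‖Q.eval z‖) < ε
    rw [← (hw s hs).1.val_reg (hρ.trans_lt hs.1) hs.2 hR, ← hPQ, Real.dist_eq]
    exact ((w s).abs_abv_sub_le_abv_sub g G).trans_lt (h2 s hs)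
  · -- eq
    intro g
    rcases eq_or_ne g 0 with rfl | hg0
    · exact ⟨s₀, hs₀ρ, fun s _ _ => by simp⟩
    have hgn : 0 < ‖g‖ := norm_pos_iff.2 hg0
    obtain ⟨r', hr', hg'⟩ := w5b_radius_rep hC hz hY g
    set s₂ : ℝ := min a₀ r' with hs₂
    have hs₂ρ : Metric.infDist z (C : Set E) < s₂ := lt_min ha₀ hr'
    have h' := hA s₂ hs₂ρ (min_le_left _ _)
    obtain ⟨N, c, hc, hgc⟩ := w5b_rep (hg' s₂ (min_le_right _ _))
    obtain ⟨B, G, hB, hG⟩ := h'.poly hY.norm_le N c hc
    obtain ⟨j, hj⟩ := w5b_small h'.nonneg h'.lt_one hB hgn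
    obtain ⟨s₃, hs₃, h₃⟩ := exists_radius_eq hC hz (RegS.mem_adj (hG j).1)
    refine ⟨min s₂ s₃, lt_min hs₂ρ hs₃, fun s hs hlt => ?_⟩
    have hs2 : s ∈ Iv C z s₂ := ⟨hs.1, hlt.trans_le (min_le_left _ _)⟩
    have e1 : ‖g - G j‖ < ‖g‖ := by
      have := (hG j).2.1
      rw [← hgc] at this
      exact this.trans_lt hj
    have e2 : w s (g - G j) < ‖g‖ := by
      have := (hG j).2.2 s hs2 (w s) (hw s hs).1 (hw s hs).2
      rw [← hgc] at this
      exact this.trans_lt hj
    have e3 : ‖G j‖ = ‖g‖ := by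
      have h8 : ‖g + -(g - G j)‖ = max ‖g‖ ‖-(g - G j)‖ :=
        IsUltrametricDist.norm_add_eq_max_of_norm_ne_norm (by rw [norm_neg]; exact e1.ne')
      have h9 : g + -(g - G j) = G j := by ring
      rw [h9, norm_neg, max_eq_left e1.le] at h8
      exact h8
    have e4 : w s (G j) = ‖G j‖ :=
      h₃ s (hρ.trans_lt hs.1) (hlt.le.trans (min_le_right _ _)) (w s) (hw s hs).1
    have hna := (hw s hs).1.nonarch
    rw [← e3, ← e4]
    rw [← e3, ← e4] at e2
    apply le_antisymm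
    · have := hna (G j) (g - G j)
      rw [add_sub_cancel] at this
      exact this.trans (max_le le_rfl e2.le)
    · have := hna g (-(g - G j))
      rw [(w s).map_neg] at this
      have h9 : g + -(g - G j) = G j := by ring
      rw [h9] at this
      rcases le_max_iff.1 this with h | h
      · exact h
      · exact absurd h (not_le.2 e2)
  · -- approx
    intro s hs g hg δ hδ
    obtain ⟨G, ⟨P, Q, hR, hPQ⟩, h1, h2⟩ := happ g hg δ hδ
    exact ⟨P, Q, hR, by rw [← hPQ]; exact (h2 s hs).le⟩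

end DA
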