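import Pool.Agent.Lib.DA.Zf
import Pool.Agent.Lib.DA.Bd
import Pool.Agent.Lib.DA.Bb
import Pool.Agent.Lib.DA.D1
import Pool.Agent.Lib.DA.D2
import Pool.Agent.Lib.DA.V2
import Pool.Agent.Lib.DA.W5b
import Pool.Agent.Lib.DA.K7
import Pool.Agent.Lib.DA.H2

/-!
# Module M2: infinite index
-/

namespace DA

open Polynomial MP1a953e

universe v

private theorem m2_fin {k L : Type*} [Field k] [Field L] [Algebra k L]
    (hfg : (⊤ : IntermediateField k L).FG) (M : IntermediateField k L) (T : L)
    (N : IntermediateField k L)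
    (hle : N ≤ (IntermediateField.adjoin M {T}).restrictScalars k)
    (hsep : Algebra.IsSeparable N L) :
    Algebra.IsSeparable (IntermediateField.adjoin M {T}) L ∧
      FiniteDimensional (IntermediateField.adjoin M {T}) L := by
  have hs : Algebra.IsSeparable (IntermediateField.adjoin M {T}) L := by
    let _ : Algebra N ↥((IntermediateField.adjoin M {T}).restrictScalars k) :=
      (IntermediateField.inclusion hle).toAlgebra
    have : IsScalarTower N ↥((IntermediateField.adjoin M {T}).restrictScalars k) L :=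
      IsScalarTower.of_algebraMap_eq fun x => rfl
    exact Algebra.isSeparable_tower_top_of_isSeparable N
      ↥((IntermediateField.adjoin M {T}).restrictScalars k) L
  refine ⟨hs, ?_⟩
  have : Algebra.EssFiniteType k L := IntermediateField.fg_top_iff.1 hfg
  have h1 : Algebra.EssFiniteType ↥((IntermediateField.adjoin M {T}).restrictScalars k) L :=
    Algebra.EssFiniteType.of_comp k _ L
  have h2 : Algebra.EssFiniteType (IntermediateField.adjoin M {T}) L := h1
  have := hs.isAlgebraic
  exact Algebra.finite_of_essFiniteType_of_isAlgebraic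

/-- M2 (infinite index).  Proof.  Let `M = k(e₀, u₀)`. `T` is transcendental over `M` (`transcendental_of_sep`), `L` is
finite separable over `M(T)` (`adjoin M {T}` and `keuT` have the same elements). `exists_zset`:
`E, C, j, z, y`. `exists_filt M T`: `y₁, V, n`, `A = Subring.closure (M ∪ {T, y₁})`. `exists_wfam` for
`X = {j T, j y₁}`: `s₀, w`; `R = Subring.closure (C ∪ X)`, `j A ≤ R`. `lfam_of_wfam`: the family on `L`.
`big_of_inf` (with `hinf`), `exists_divd` (with `S = ∅`): `s, d, f`, `DIVd` for `RS A w'`,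
`w' = (w s).comp j.injective`, and `V d`. `aob_of_oapp`, `oapp_of_wfam`: `AOB M w' (V d)`. `exists_cor`:
`e, u, α, h'` with `Cor` and separability. `dense_of_cor`. -/
theorem dense_of_inf {p : ℕ} [Fact p.Prime] {k L : Type v} [NontriviallyNormedField k]
    [IsUltrametricDist k] [IsAlgClosed k] (hp : ‖(p : k)‖ < 1) [NormedField L]
    [IsUltrametricDist L] [NormedAlgebra k L] {r m : ℕ} {e₀ : Fin r → L} {u₀ : Fin m → L}
    (hD : D1 k e₀ u₀) {T : L} (hsep : Algebra.IsSeparable (keuT k e₀ u₀ T) L)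
    (hfg : (⊤ : IntermediateField k L).FG) (htr : Algebra.trdeg k L = r + m + 1)
    (hinf : ∀ N : ℕ, ∃ g : Fin N → L, Orth (keu k e₀ u₀) (nabs L) g) :
    ∃ (e : Fin r → L) (u : Fin m → L) (α : L), EU k e u ∧
      Algebra.IsSeparable (keuT k e u α) L ∧
      ∀ x : L, ∀ ε : ℝ, 0 < ε → ∃ y ∈ keuT k e u α, ‖x - y‖ < ε := by
  classical
  have hT : Transcendental (keu k e₀ u₀) T := transcendental_of_sep htr hsep
  have hle : keuT k e₀ u₀ T ≤
      (IntermediateField.adjoin (keu k e₀ u₀) {T}).restrictScalars k := by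
    refine IntermediateField.adjoin_le_iff.2 ?_
    rintro x (hx | rfl)
    · exact (IntermediateField.adjoin (keu k e₀ u₀) {T}).algebraMap_mem
        ⟨x, IntermediateField.subset_adjoin k _ hx⟩
    · exact IntermediateField.subset_adjoin (keu k e₀ u₀) _ rfl
  obtain ⟨hs1, hf1⟩ := m2_fin hfg (keu k e₀ u₀) T (keuT k e₀ u₀ T) hle hsep
  obtain ⟨E, _, _, C, j, z, y, hZ, hSt, -⟩ := exists_zset hp hD hT hsep hfg
  obtain ⟨y₁, V, n, hF⟩ := exists_filt (keu k e₀ u₀) T hT hs1 hf1
  set A := Subring.closure ((keu k e₀ u₀ : Set L) ∪ {T, y₁}) with hA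
  obtain ⟨s₀, w, hw⟩ := exists_wfam hZ.closed hZ.nt hZ.na hZ.sep hZ.gen hZ.dense {j T, j y₁}
  set R := Subring.closure ((C : Set E) ∪ (({j T, j y₁} : Finset E) : Set E)) with hR
  have hCR : ∀ c ∈ C, c ∈ R := fun c hc => Subring.subset_closure (Or.inl hc)
  have hAR : ∀ g ∈ A, j g ∈ R := by
    have : A ≤ R.comap j := by
      refine Subring.closure_le.2 ?_
      rintro x (hx | rfl | rfl)
      · exact hCR _ (hZ.mem x hx)
      · exact Subring.subset_closure (Or.inr (by simp))
      · exact Subring.subset_closure (Or.inr (by simp))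
    exact fun g hg => this hg
  have hMA : ∀ c ∈ keu k e₀ u₀, c ∈ A := fun c hc => Subring.subset_closure (Or.inl hc)
  have hTA : T ∈ A := Subring.subset_closure (Or.inr (Or.inl rfl))
  have hL := lfam_of_wfam hZ hT hMA hTA hAR hCR hw
  obtain ⟨s₂, hs₂, hbig⟩ := big_of_inf hF hL hinf
  obtain ⟨s, hs, d, f, -, hf, hDv⟩ := exists_divd hF hL hs₂ hbig ∅
  have hAOB : AOB (keu k e₀ u₀) ((w s).comp j.injective) (V d) :=
    aob_of_oapp (hw.gauss s hs).nonarch (hF.fin d) fun n v hv =>
      oapp_of_wfam hZ hSt hw hs v fun i => hAR _ ((hF.mem _).2 ⟨d, hv i⟩)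
  obtain ⟨e, u, α, h', hC, hsepC⟩ := exists_cor hD.eu hDv hfg htr
  exact ⟨e, u, α, hC.eu, hsepC, fun x ε hε => dense_of_cor hD.eu hDv hAOB hC x hε⟩

end DA
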