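import Pool.Agent.Lib.DA.Defs2
import Pool.Agent.Lib.HR.OL

/-!
# Module Bc: orthogonal bases
-/

namespace DA

open Polynomial MP1a953e

private theorem bc_span_sub {W : Type*} [NormedField W] {K : Subfield W} {l₀ : ℕ} {η : Fin l₀ → W}
    {n : ℕ} {y : Fin n → W}
    (hy : ∀ i, ∃ a : Fin l₀ → W, (∀ t, a t ∈ K) ∧ y i = ∑ t, a t * η t) (c : Fin n → W)
    (hc : ∀ i, c i ∈ K) :
    ∃ a : Fin l₀ → W, (∀ t, a t ∈ K) ∧ ∑ i, c i * y i = ∑ t, a t * η t := by
  choose a ha hya using hy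
  refine ⟨fun t => ∑ i, c i * a i t, fun t => sum_mem fun i _ => mul_mem (hc i) (ha i t), ?_⟩
  simp only [Finset.sum_mul]
  rw [Finset.sum_comm]
  refine Finset.sum_congr rfl fun i _ => ?_
  rw [hya i, Finset.mul_sum]
  exact Finset.sum_congr rfl fun t _ => by ring

private theorem bc_aux {W : Type*} [NormedField W] [IsUltrametricDist W] {K : Subfield W}
    {l₀ : ℕ} {η : Fin l₀ → W} (hη : ∀ i, η i ≠ 0)
    (horth : ∀ a : Fin l₀ → W, (∀ i, a i ∈ K) → ∀ i, ‖a i * η i‖ ≤ ‖∑ t, a t * η t‖) {n : ℕ}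
    (y : Fin n → W) (hy : ∀ i, ∃ a : Fin l₀ → W, (∀ t, a t ∈ K) ∧ y i = ∑ t, a t * η t) :
    ∃ (l : ℕ) (f : Fin l → W) (q : Fin l → Fin n → W), (∀ i t, q i t ∈ K) ∧
      (∀ i, f i ≠ 0 ∧ f i = ∑ t, q i t * y t) ∧
      (∀ a : Fin l → W, (∀ i, a i ∈ K) → ∀ i, ‖a i * f i‖ ≤ ‖∑ t, a t * f t‖) ∧
      ∀ i, ∃ a : Fin l → W, (∀ t, a t ∈ K) ∧ y i = ∑ t, a t * f t := by
  classical
  by_cases h0 : ∀ i, y i = 0
  · exact ⟨0, fun i => i.elim0, fun i => i.elim0, fun i => i.elim0, fun i => i.elim0,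
      fun _ _ i => i.elim0, fun i => ⟨fun t => t.elim0, fun t => t.elim0, by simp [h0 i]⟩⟩
  push Not at h0
  obtain ⟨i₀, hi₀⟩ := h0
  have hX : HR.IsOB K η {x | ∃ a : Fin l₀ → W, (∀ i, a i ∈ K) ∧ x = ∑ i, a i * η i} :=
    ⟨hη, fun x => Iff.rfl, fun a ha i => by rw [← norm_mul]; exact horth a ha i⟩
  have hmem : ∀ i, y i ∈ {x | ∃ a : Fin n → W, (∀ i, a i ∈ K) ∧ x = ∑ i, a i * y i} := by
    intro i
    refine ⟨fun t => if t = i then 1 else 0, fun t => ?_, by simp⟩
    show (if t = i then (1 : W) else 0) ∈ K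
    split_ifs
    · exact one_mem K
    · exact zero_mem K
  have hY : HR.KSub K {x | ∃ a : Fin n → W, (∀ i, a i ∈ K) ∧ x = ∑ i, a i * y i} := by
    refine ⟨⟨fun _ => 0, fun _ => zero_mem K, by simp⟩, ?_, ?_⟩
    · rintro _ ⟨a, ha, rfl⟩ _ ⟨b, hb, rfl⟩
      refine ⟨fun i => a i + b i, fun i => add_mem (ha i) (hb i), ?_⟩
      simp only [add_mul, Finset.sum_add_distrib]
    · rintro c hc _ ⟨a, ha, rfl⟩
      refine ⟨fun i => c * a i, fun i => mul_mem hc (ha i), ?_⟩
      rw [Finset.mul_sum]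
      exact Finset.sum_congr rfl fun i _ => by ring
  have hYX : {x | ∃ a : Fin n → W, (∀ i, a i ∈ K) ∧ x = ∑ i, a i * y i} ⊆
      {x | ∃ a : Fin l₀ → W, (∀ i, a i ∈ K) ∧ x = ∑ i, a i * η i} := by
    rintro _ ⟨c, hc, rfl⟩
    exact bc_span_sub hy c hc
  obtain ⟨m, f, -, -, hf, -⟩ := HR.ob_sub hX hY hYX (hmem i₀) hi₀
  have hfm : ∀ i, ∃ a : Fin n → W, (∀ t, a t ∈ K) ∧ f i = ∑ t, a t * y t := by
    intro i
    refine (hf.span (f i)).2 ⟨fun t => if t = i then 1 else 0, fun t => ?_, by simp⟩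
    show (if t = i then (1 : W) else 0) ∈ K
    split_ifs
    · exact one_mem K
    · exact zero_mem K
  choose q hq hfq using hfm
  refine ⟨m + 1, f, q, hq, fun i => ⟨hf.ne i, hfq i⟩, fun a ha i => ?_, fun i => ?_⟩
  · rw [norm_mul]
    exact hf.orth a ha i
  · exact (hf.span (y i)).1 (hmem i)

/-- Bc1 (subspaces of spaces with an orthogonal basis).  Let `η` be an `M`-orthogonal family in `E` for `w`,
`y : Fin n → E` in the `M`-span of `η`. Then the `M`-span of `y` has an orthogonal basis consisting of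
`M`-combinations of the `y i`.  Proof.  In the normed field `W = WithAbs w` apply `HR.ob_sub` with
`K = j(M)`, `X` = the span of `η`, `Y` = the span of the `y i` (if `Y = {0}` take `l = 0`). (One can also
prove it directly by induction on `n` or on the length of `η`.) -/
theorem exists_orth_span {k L E : Type*} [NormedField k] [NormedField L] [NormedAlgebra k L]
    [Field E] {M : IntermediateField k L} {j : L →+* E} {w : AbsoluteValue E ℝ}
    (hw : IsNonarchimedean w) {l₀ : ℕ} {η : Fin l₀ → E} (hη : ∀ i, η i ≠ 0)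
    (horth : ∀ a : Fin l₀ → L, (∀ i, a i ∈ M) →
      ∀ i, w (j (a i) * η i) ≤ w (∑ t, j (a t) * η t)) {n : ℕ} (y : Fin n → E)
    (hy : ∀ i, ∃ a : Fin l₀ → L, (∀ t, a t ∈ M) ∧ y i = ∑ t, j (a t) * η t) :
    ∃ (l : ℕ) (f : Fin l → E) (q : Fin l → Fin n → L), (∀ i t, q i t ∈ M) ∧
      (∀ i, f i ≠ 0 ∧ f i = ∑ t, j (q i t) * y t) ∧
      (∀ a : Fin l → L, (∀ i, a i ∈ M) → ∀ i, w (j (a i) * f i) ≤ w (∑ t, j (a t) * f t)) ∧
      ∀ i, ∃ a : Fin l → L, (∀ t, a t ∈ M) ∧ y i = ∑ t, j (a t) * f t := by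
  let _ : NormedField E := w.toNormedField
  have _ : IsUltrametricDist E :=
    IsUltrametricDist.isUltrametricDist_of_isNonarchimedean_norm hw
  have hlift : ∀ (l : ℕ) (a : Fin l → E), (∀ i, a i ∈ M.toSubfield.map j) →
      ∃ b : Fin l → L, (∀ i, b i ∈ M) ∧ ∀ i, j (b i) = a i := by
    intro l a ha
    have h1 : ∀ i, ∃ b : L, b ∈ M ∧ j b = a i := fun i => by
      obtain ⟨b, hb, hba⟩ := Subfield.mem_map.1 (ha i)
      exact ⟨b, hb, hba⟩
    choose b hb hba using h1
    exact ⟨b, hb, hba⟩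
  have hin : ∀ b ∈ M, j b ∈ M.toSubfield.map j := fun b hb => Subfield.mem_map.2 ⟨b, hb, rfl⟩
  obtain ⟨l, f, q, hq, hf, hfo, hyf⟩ := bc_aux (W := E) (K := M.toSubfield.map j) hη
    (fun a ha i => by
      obtain ⟨b, hb, hba⟩ := hlift _ a ha
      have h1 := horth b hb i
      simp only [hba] at h1
      exact h1) y
    (fun i => by
      obtain ⟨a, ha, hya⟩ := hy i
      exact ⟨fun t => j (a t), fun t => hin _ (ha t), hya⟩)
  have hq' : ∀ i, ∃ b : Fin n → L, (∀ t, b t ∈ M) ∧ ∀ t, j (b t) = q i t := fun i =>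
    hlift _ (q i) (hq i)
  choose q' hq'M hq'j using hq'
  refine ⟨l, f, q', hq'M, fun i => ⟨(hf i).1, ?_⟩, fun a ha i => ?_, fun i => ?_⟩
  · simp only [hq'j]
    exact (hf i).2
  · exact hfo (fun t => j (a t)) (fun t => hin _ (ha t)) i
  · obtain ⟨a, ha, hya⟩ := hyf i
    obtain ⟨b, hb, hba⟩ := hlift _ a ha
    refine ⟨b, hb, ?_⟩
    simp only [hba]
    exact hya

private theorem bc_sum_lt {E : Type*} [Field E] {w : AbsoluteValue E ℝ}
    (hw : IsNonarchimedean w) {ι : Type*} (S : Finset ι) (f : ι → E) {B : ℝ} (hB : 0 < B)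
    (h : ∀ i ∈ S, w (f i) < B) : w (∑ i ∈ S, f i) < B := by
  classical
  induction S using Finset.induction_on with
  | empty => simpa using hB
  | insert a S ha ih =>
    rw [Finset.sum_insert ha]
    refine lt_of_le_of_lt (hw _ _) (max_lt (h a (Finset.mem_insert_self _ _)) (ih fun i hi => ?_))
    exact h i (Finset.mem_insert_of_mem hi)

private theorem bc_sub_eq {E : Type*} [Field E] {w : AbsoluteValue E ℝ}
    (hw : IsNonarchimedean w) {x e : E} (h : w e < w x) : w (x - e) = w x := by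
  apply le_antisymm
  · rw [sub_eq_add_neg]
    refine (hw _ _).trans (max_le le_rfl ?_)
    rw [w.map_neg]
    exact h.le
  · by_contra hlt
    rw [not_le] at hlt
    have h1 : w ((x - e) + e) ≤ max (w (x - e)) (w e) := hw _ _
    rw [sub_add_cancel] at h1
    exact absurd h1 (not_le.2 (max_lt hlt h))

/-- Bc (exact orthogonal bases).  Here the `v i` satisfy a lower bound: `c₀ * w (a i v i) ≤ w (∑ a t v t)`
with `c₀ > 0`.  Proof.  Let `ε₀ > 0` with `ε₀ < c₀ * w (j (v i))` for all `i` (all `v i ≠ 0` if we drop the zero ones;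
`hne`). By `happ` there are an orthogonal `η` and `y i ∈ span η` with `w (j (v i) - y i) ≤ ε₀`. Then for all
`a i ∈ M`, not all zero, `w (∑ j (a t) (j (v t) - y t)) < w (j (∑ a t v t))` (the left side is
`≤ max w (j (a t)) * ε₀ < max c₀ * w (j (a t v t))`), so `w (∑ j (a t) y t) = w (j (∑ a t v t))`.
`exists_orth_span` gives `f i = ∑ j (q i t) y t`; `b i = ∑_t q i t * v t ∈ V` is an orthogonal basis of `V`
(same norms; and `v i` is the combination of the `b`'s with the same coefficients as `y i` of the `f`'s,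
because the map `∑ a t v t ↦ ∑ j (a t) y t` is injective). -/
theorem obx_of_oapp {k L E : Type*} [NormedField k] [NormedField L] [NormedAlgebra k L]
    [NormedField E] {M : IntermediateField k L} {j : L →+* E} {w : AbsoluteValue E ℝ}
    (hw : IsNonarchimedean w) {n : ℕ} {v : Fin n → L} (hne : ∀ i, v i ≠ 0) {c₀ : ℝ}
    (hc₀ : 0 < c₀)
    (hlow : ∀ a : Fin n → L, (∀ i, a i ∈ M) →
      ∀ i, c₀ * w (j (a i * v i)) ≤ w (j (∑ t, a t * v t)))
    (happ : OApp M j w v) :
    OBx M (w.comp j.injective) (Submodule.span M (Set.range v)) := by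
  have hjne : ∀ x : L, x ≠ 0 → 0 < w (j x) := fun x hx =>
    w.pos ((map_ne_zero_iff j j.injective).2 hx)
  obtain ⟨ε₀, hε₀, hlt⟩ : ∃ ε₀ : ℝ, 0 < ε₀ ∧ ∀ i, ε₀ < c₀ * w (j (v i)) := by
    have h1 : ∀ᶠ ε : ℝ in nhdsWithin 0 (Set.Ioi 0), ∀ i, ε < c₀ * w (j (v i)) := by
      rw [Filter.eventually_all]
      intro i
      have h2 : 0 < c₀ * w (j (v i)) := mul_pos hc₀ (hjne _ (hne i))
      filter_upwards [Ioo_mem_nhdsGT h2] with ε hε using hε.2
    obtain ⟨ε, h2, h3⟩ := (h1.and self_mem_nhdsWithin).exists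
    exact ⟨ε, h3, h2⟩
  obtain ⟨l₀, η, hη, horth, hα⟩ := happ ε₀ hε₀
  choose α hα hαv using hα
  obtain ⟨y, hy⟩ : ∃ y : Fin n → E, ∀ i, y i = ∑ t, j (α i t) * η t := ⟨_, fun _ => rfl⟩
  -- the key equality
  have key : ∀ a : Fin n → L, (∀ i, a i ∈ M) →
      w (∑ t, j (a t) * y t) = w (j (∑ t, a t * v t)) := by
    intro a ha
    by_cases h0 : ∀ t, a t = 0
    · simp [h0]
    push Not at h0
    obtain ⟨t₀, ht₀⟩ := h0
    have hx : 0 < w (j (∑ t, a t * v t)) := by
      refine lt_of_lt_of_le (mul_pos hc₀ ?_) (hlow a ha t₀)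
      exact hjne _ (mul_ne_zero ht₀ (hne t₀))
    have h1 : ∑ t, j (a t) * y t = j (∑ t, a t * v t) - ∑ t, j (a t) * (j (v t) - y t) := by
      rw [map_sum, ← Finset.sum_sub_distrib]
      refine Finset.sum_congr rfl fun t _ => ?_
      rw [map_mul]
      ring
    rw [h1]
    refine bc_sub_eq hw (bc_sum_lt hw _ _ hx fun t _ => ?_)
    by_cases hat : a t = 0
    · simpa [hat] using hx
    · have h2 : w (j (v t) - y t) < c₀ * w (j (v t)) := by
        refine lt_of_le_of_lt ?_ (hlt t)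
        rw [hy t]
        exact hαv t
      calc w (j (a t) * (j (v t) - y t)) = w (j (a t)) * w (j (v t) - y t) := map_mul _ _ _
        _ < w (j (a t)) * (c₀ * w (j (v t))) := mul_lt_mul_of_pos_left h2 (hjne _ hat)
        _ = c₀ * w (j (a t * v t)) := by rw [map_mul, map_mul]; ring
        _ ≤ _ := hlow a ha t
  obtain ⟨l, f, q, hq, hf, hfo, hyf⟩ := exists_orth_span (j := j) hw hη horth y
    (fun i => ⟨α i, hα i, hy i⟩)
  -- combinations
  have hcomb : ∀ a : Fin l → L, ∑ t, j (a t) * f t = ∑ s, j (∑ t, a t * q t s) * y s := by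
    intro a
    simp only [map_sum, Finset.sum_mul]
    rw [Finset.sum_comm]
    refine Finset.sum_congr rfl fun t _ => ?_
    rw [(hf t).2, Finset.mul_sum]
    refine Finset.sum_congr rfl fun s _ => ?_
    rw [map_mul]
    ring
  have hcomb' : ∀ a : Fin l → L, ∑ t, a t * (∑ s, q t s * v s) =
      ∑ s, (∑ t, a t * q t s) * v s := by
    intro a
    simp only [Finset.sum_mul]
    rw [Finset.sum_comm]
    refine Finset.sum_congr rfl fun t _ => ?_
    rw [Finset.mul_sum]
    refine Finset.sum_congr rfl fun s _ => ?_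
    ring
  have hval : ∀ a : Fin l → L, (∀ i, a i ∈ M) →
      w (j (∑ t, a t * (∑ s, q t s * v s))) = w (∑ t, j (a t) * f t) := by
    intro a ha
    rw [hcomb', hcomb, key _ fun s => sum_mem fun t _ => mul_mem (ha t) (hq t s)]
  have hb : ∀ i, w (j (∑ s, q i s * v s)) = w (f i) := by
    intro i
    rw [← key (q i) (hq i), ← (hf i).2]
  refine ⟨l, fun i => ∑ s, q i s * v s, fun i => ?_, ⟨fun i => ?_, fun a ha i => ?_⟩, fun x hx => ?_⟩
  · refine sum_mem fun s _ => ?_
    have h1 : q i s * v s = (⟨q i s, hq i s⟩ : M) • v s := rfl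
    rw [h1]
    exact Submodule.smul_mem _ _ (Submodule.subset_span ⟨s, rfl⟩)
  · intro h0
    have h1 := hb i
    have h0' : ∑ s, q i s * v s = 0 := h0
    rw [h0', map_zero, map_zero] at h1
    exact absurd h1.symm (w.ne_zero (hf i).1)
  · show w (j (a i * ∑ s, q i s * v s)) ≤ w (j (∑ t, a t * (∑ s, q t s * v s)))
    rw [hval a ha, map_mul, map_mul, hb i, ← map_mul]
    exact hfo a ha i
  · rw [Submodule.mem_span_range_iff_exists_fun] at hx
    obtain ⟨c, rfl⟩ := hx
    choose a ha hya using hyf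
    have hv : ∀ i, v i = ∑ t, a i t * (∑ s, q t s * v s) := by
      classical
      intro i
      have hδ : ∀ t, (if t = i then (1 : L) else 0) ∈ M := by
        intro t
        split_ifs
        · exact one_mem M
        · exact zero_mem M
      have h1 := key (fun s => (if s = i then (1 : L) else 0) - ∑ t, a i t * q t s)
        (fun s => sub_mem (hδ s) (sum_mem fun t _ => mul_mem (ha i t) (hq t s)))
      have h2 : ∑ s, j ((if s = i then (1 : L) else 0) - ∑ t, a i t * q t s) * y s = 0 := by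
        simp only [map_sub, sub_mul, Finset.sum_sub_distrib]
        rw [← hcomb (a i), ← hya i, sub_eq_zero]
        simp
      have h3 : ∑ s, ((if s = i then (1 : L) else 0) - ∑ t, a i t * q t s) * v s =
          v i - ∑ t, a i t * (∑ s, q t s * v s) := by
        simp only [sub_mul, Finset.sum_sub_distrib]
        rw [← hcomb' (a i)]
        simp
      rw [h2, map_zero, h3] at h1
      have h4 := (map_eq_zero_iff j j.injective).1 (w.eq_zero.1 h1.symm)
      exact sub_eq_zero.1 h4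
    refine ⟨fun t => ∑ i, (c i : L) * a i t,
      fun t => sum_mem fun i _ => mul_mem (c i).2 (ha i t), ?_⟩
    have h5 : ∀ i, c i • v i = (c i : L) * v i := fun i => rfl
    simp only [h5, Finset.sum_mul]
    rw [Finset.sum_comm]
    refine Finset.sum_congr rfl fun i _ => ?_
    conv_lhs => rw [hv i]
    rw [Finset.mul_sum]
    refine Finset.sum_congr rfl fun t _ => ?_
    rw [mul_assoc]

end DA
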