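import Pool.Agent.Lib.DA.Defs

/-!
# Module V3: the filtration of `M[T]`
-/

namespace DA

open Polynomial MP1a953e

/-- the polynomials in `T` of degree `≤ D` -/
noncomputable def polyV {k L : Type*} [Field k] [Field L] [Algebra k L]
    (M : IntermediateField k L) (T : L) (D : ℕ) : Submodule M L :=
  Submodule.span M (Set.range fun i : Fin (D + 1) => T ^ (i : ℕ))

theorem mem_polyV {k L : Type*} [Field k] [Field L] [Algebra k L] {M : IntermediateField k L}
    {T : L} {D : ℕ} {x : L} :
    x ∈ polyV M T D ↔ ∃ P : L[X], CoeffsIn M P ∧ P.natDegree ≤ D ∧ x = P.eval T := by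
  unfold polyV
  rw [Submodule.mem_span_range_iff_exists_fun]
  constructor
  · rintro ⟨c, rfl⟩
    refine ⟨∑ i : Fin (D + 1), C ((c i : M) : L) * X ^ (i : ℕ), ?_, ?_, ?_⟩
    · intro n
      rw [Polynomial.finsetSum_coeff]
      refine sum_mem fun i _ => ?_
      rw [Polynomial.coeff_C_mul_X_pow]
      split_ifs
      · exact (c i).2
      · exact zero_mem M
    · refine Polynomial.natDegree_sum_le_of_forall_le _ _ fun i _ => ?_
      refine (Polynomial.natDegree_C_mul_X_pow_le _ _).trans ?_
      have := i.2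
      omega
    · rw [Polynomial.eval_finsetSum]
      refine Finset.sum_congr rfl fun i _ => ?_
      rw [Polynomial.eval_mul, Polynomial.eval_C, Polynomial.eval_pow, Polynomial.eval_X]
      rfl
  · rintro ⟨P, hP, hd, rfl⟩
    refine ⟨fun i => ⟨P.coeff i, hP i⟩, ?_⟩
    rw [Polynomial.eval_eq_sum_range' (Nat.lt_succ_of_le hd), ← Fin.sum_univ_eq_sum_range
      (fun i => P.coeff i * T ^ i)]
    rfl

private theorem v3_linInd {k L : Type*} [Field k] [Field L] [Algebra k L]
    {M : IntermediateField k L} {T : L} (hT : Transcendental M T) (D : ℕ) :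
    LinearIndependent M (fun i : Fin (D + 1) => T ^ (i : ℕ)) := by
  rw [Fintype.linearIndependent_iff]
  intro g hg i
  set P : (M : Type _)[X] := ∑ i : Fin (D + 1), C (g i) * X ^ (i : ℕ) with hP
  have h0 : aeval T P = 0 := by
    rw [hP, map_sum, ← hg]
    refine Finset.sum_congr rfl fun i _ => ?_
    rw [map_mul, Polynomial.aeval_C, map_pow, Polynomial.aeval_X, Algebra.smul_def]
  have h1 : P = 0 := by
    by_contra hne
    exact hT ⟨P, hne, h0⟩
  have h2 : P.coeff (i : ℕ) = g i := by
    rw [hP, Polynomial.finsetSum_coeff, Finset.sum_eq_single i]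
    · rw [Polynomial.coeff_C_mul_X_pow, if_pos rfl]
    · intro b _ hb
      rw [Polynomial.coeff_C_mul_X_pow, if_neg]
      intro h
      exact hb (Fin.ext h.symm)
    · intro h
      exact absurd (Finset.mem_univ i) h
  rw [← h2, h1, Polynomial.coeff_zero]

theorem finrank_polyV {k L : Type*} [Field k] [Field L] [Algebra k L]
    {M : IntermediateField k L} {T : L} (hT : Transcendental M T) (D : ℕ) :
    Module.finrank M (polyV M T D) = D + 1 := by
  unfold polyV
  rw [finrank_span_eq_card (v3_linInd hT D), Fintype.card_fin]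

private theorem v3_mul {k L : Type*} [Field k] [Field L] [Algebra k L]
    {M : IntermediateField k L} {P Q : L[X]} (hP : CoeffsIn M P) (hQ : CoeffsIn M Q) :
    CoeffsIn M (P * Q) := by
  intro n
  rw [Polynomial.coeff_mul]
  exact sum_mem fun x _ => mul_mem (hP _) (hQ _)

/-- V3.  `L = M(T)`, the ring `A = M[T]`, `n = 1`. -/
theorem filt_poly {k L : Type*} [Field k] [Field L] [Algebra k L] {M : IntermediateField k L}
    {T : L} (hT : Transcendental M T)
    (htop : ∀ x : L, x ∈ IntermediateField.adjoin M ({T} : Set L)) :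
    Filt M (Subring.closure ((M : Set L) ∪ {T})) (polyV M T) 1 := by
  have hmono : Monotone (polyV M T) := by
    intro D D' h x hx
    rw [mem_polyV] at hx ⊢
    obtain ⟨P, h1, h2, h3⟩ := hx
    exact ⟨P, h1, h2.trans h, h3⟩
  have hmul : ∀ d D, ∀ f ∈ polyV M T d, ∀ g ∈ polyV M T D, f * g ∈ polyV M T (d + D) := by
    intro d D f hf g hg
    rw [mem_polyV] at hf hg ⊢
    obtain ⟨P, h1, h2, rfl⟩ := hf
    obtain ⟨Q, h3, h4, rfl⟩ := hg
    exact ⟨P * Q, v3_mul h1 h3, Polynomial.natDegree_mul_le.trans (add_le_add h2 h4),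
      (Polynomial.eval_mul).symm⟩
  have hconst : ∀ c ∈ M, ∀ D, c ∈ polyV M T D := by
    intro c hc D
    rw [mem_polyV]
    refine ⟨C c, fun i => ?_, by simp, by simp⟩
    rw [Polynomial.coeff_C]
    split_ifs
    · exact hc
    · exact zero_mem M
  have hone : (1 : L) ∈ polyV M T 0 := hconst 1 (one_mem M) 0
  have heval : ∀ P : L[X], CoeffsIn M P →
      P.eval T ∈ Subring.closure ((M : Set L) ∪ {T}) := by
    intro P hP
    rw [Polynomial.eval_eq_sum_range]
    refine sum_mem fun i _ => mul_mem ?_ (pow_mem ?_ i)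
    · exact Subring.subset_closure (Or.inl (hP i))
    · exact Subring.subset_closure (Or.inr rfl)
  have hmem : ∀ g, g ∈ Subring.closure ((M : Set L) ∪ {T}) ↔ ∃ D, g ∈ polyV M T D := by
    intro g
    constructor
    · intro hg
      induction hg using Subring.closure_induction with
      | mem x hx =>
        rcases hx with hx | hx
        · exact ⟨0, hconst x hx 0⟩
        · rw [Set.mem_singleton_iff] at hx
          refine ⟨1, ?_⟩
          rw [mem_polyV]
          refine ⟨X, fun i => ?_, by simp, by simp [hx]⟩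
          rw [Polynomial.coeff_X]
          split_ifs
          · exact one_mem M
          · exact zero_mem M
      | zero => exact ⟨0, zero_mem _⟩
      | one => exact ⟨0, hone⟩
      | add x y _ _ hx hy =>
        obtain ⟨D, hx⟩ := hx
        obtain ⟨D', hy⟩ := hy
        exact ⟨max D D', add_mem (hmono (le_max_left _ _) hx) (hmono (le_max_right _ _) hy)⟩
      | neg x _ hx =>
        obtain ⟨D, hx⟩ := hx
        exact ⟨D, neg_mem hx⟩
      | mul x y _ _ hx hy =>
        obtain ⟨D, hx⟩ := hx
        obtain ⟨D', hy⟩ := hy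
        exact ⟨D + D', hmul _ _ _ hx _ hy⟩
    · rintro ⟨D, hg⟩
      rw [mem_polyV] at hg
      obtain ⟨P, h1, _, rfl⟩ := hg
      exact heval P h1
  refine ⟨one_pos, hmem, hmono, hmul, ?_, hone, ?_, ⟨0, fun D => ?_⟩, ⟨0, fun D _ => ?_⟩, ?_⟩
  · intro D
    exact Module.Finite.span_of_finite M (Set.finite_range _)
  · intro g hg
    rw [mem_polyV] at hg
    obtain ⟨P, h1, h2, rfl⟩ := hg
    rw [Polynomial.eq_C_of_natDegree_le_zero h2, Polynomial.eval_C]
    exact h1 0
  · rw [finrank_polyV hT]
    omega
  · rw [finrank_polyV hT, finrank_polyV hT]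
  · intro x
    obtain ⟨r, s, hx⟩ := (IntermediateField.mem_adjoin_simple_iff M x).1 (htop x)
    have key : ∀ r : (M : Type _)[X], aeval T r ∈ Subring.closure ((M : Set L) ∪ {T}) := by
      intro r
      have h1 : aeval T r = (r.map (algebraMap M L)).eval T := by
        rw [Polynomial.eval_map_algebraMap]
      rw [h1]
      refine heval _ fun i => ?_
      rw [Polynomial.coeff_map]
      exact (r.coeff i).2
    by_cases h0 : aeval T s = 0
    · refine ⟨0, zero_mem _, 1, one_mem _, one_ne_zero, ?_⟩
      rw [hx, h0, div_zero, zero_div]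
    · exact ⟨aeval T r, key r, aeval T s, key s, h0, hx⟩

end DA
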