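import Pool.Agent.Lib.DA.Bb
import Pool.Agent.Lib.DA.Bc
import Pool.Agent.Lib.DA.V3

/-!
# Module Be: exact orthogonal bases of spaces of polynomials
-/

namespace DA

open Polynomial MP1a953e

/-- the limits (for `w`) of elements of `C` -/
private def beClo {E : Type*} [NormedField E] (C : Subfield E) {w : AbsoluteValue E ℝ}
    (hw : IsNonarchimedean w) : Subfield E where
  carrier := {x | ∀ ε : ℝ, 0 < ε → ∃ c ∈ C, w (x - c) < ε}
  mul_mem' := by
    intro x y hx hy ε hε
    have hx' : ∀ ε : ℝ, 0 < ε → ∃ c ∈ C, w (x - c) < ε := hx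
    have hy' : ∀ ε : ℝ, 0 < ε → ∃ c ∈ C, w (y - c) < ε := hy
    have hx0 := w.nonneg x
    have hy0 := w.nonneg y
    obtain ⟨d, hd, hyd⟩ := hy' (min (ε / (w x + 1)) 1)
      (lt_min (div_pos hε (by linarith)) one_pos)
    obtain ⟨c, hc, hxc⟩ := hx' (ε / (w y + 1)) (div_pos hε (by linarith))
    refine ⟨c * d, mul_mem hc hd, ?_⟩
    have e : x * y - c * d = x * (y - d) + (x - c) * d := by ring
    rw [e]
    refine (hw _ _).trans_lt (max_lt ?_ ?_)
    · rw [map_mul]
      have h1 := hyd.trans_le (min_le_left _ _)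
      rw [lt_div_iff₀ (by linarith)] at h1
      have h2 := w.nonneg (y - d)
      nlinarith
    · rw [map_mul]
      have h1 := hyd.trans_le (min_le_right _ _)
      have h2 : w d ≤ w y + 1 := by
        have e2 : d = y + -(y - d) := by ring
        rw [e2]
        refine (w.add_le _ _).trans ?_
        rw [map_neg_eq_map]
        linarith
      rw [lt_div_iff₀ (by linarith)] at hxc
      have h3 := w.nonneg (x - c)
      calc w (x - c) * w d ≤ w (x - c) * (w y + 1) := mul_le_mul_of_nonneg_left h2 h3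
        _ < ε := hxc
  one_mem' := fun ε hε => ⟨1, one_mem C, by rw [sub_self, map_zero]; exact hε⟩
  add_mem' := by
    intro x y hx hy ε hε
    have hx' : ∀ ε : ℝ, 0 < ε → ∃ c ∈ C, w (x - c) < ε := hx
    have hy' : ∀ ε : ℝ, 0 < ε → ∃ c ∈ C, w (y - c) < ε := hy
    obtain ⟨c, hc, hxc⟩ := hx' ε hε
    obtain ⟨d, hd, hyd⟩ := hy' ε hε
    refine ⟨c + d, add_mem hc hd, ?_⟩
    have e : x + y - (c + d) = (x - c) + (y - d) := by ring
    rw [e]
    exact (hw _ _).trans_lt (max_lt hxc hyd)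
  zero_mem' := fun ε hε => ⟨0, zero_mem C, by rw [sub_self, map_zero]; exact hε⟩
  neg_mem' := by
    intro x hx ε hε
    have hx' : ∀ ε : ℝ, 0 < ε → ∃ c ∈ C, w (x - c) < ε := hx
    obtain ⟨c, hc, hxc⟩ := hx' ε hε
    refine ⟨-c, neg_mem hc, ?_⟩
    have e : -x - -c = -(x - c) := by ring
    rw [e, map_neg_eq_map]
    exact hxc
  inv_mem' := by
    intro x hx ε hε
    have hx' : ∀ ε : ℝ, 0 < ε → ∃ c ∈ C, w (x - c) < ε := hx
    by_cases hx0 : x = 0
    · exact ⟨0, zero_mem C, by rw [hx0, inv_zero, sub_self, map_zero]; exact hε⟩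
    · have hwx : 0 < w x := w.pos hx0
      obtain ⟨c, hc, hxc⟩ := hx' (min (w x) (ε * w x ^ 2)) (lt_min hwx (by positivity))
      have h1 := hxc.trans_le (min_le_left _ _)
      have h2 := hxc.trans_le (min_le_right _ _)
      have h3 : w x ≤ w c := by
        have e : x = (x - c) + c := by ring
        have h4 : w x ≤ max (w (x - c)) (w c) := by
          conv_lhs => rw [e]
          exact hw _ _
        rcases le_max_iff.1 h4 with h5 | h5
        · exact absurd h5 (not_le.2 h1)
        · exact h5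
      have hwc : 0 < w c := hwx.trans_le h3
      have hc0 : c ≠ 0 := fun e => by rw [e, map_zero] at hwc; exact lt_irrefl _ hwc
      refine ⟨c⁻¹, inv_mem hc, ?_⟩
      have e : x⁻¹ - c⁻¹ = -(x - c) / (x * c) := by field_simp; ring
      rw [e, map_div₀, map_neg_eq_map, map_mul, div_lt_iff₀ (mul_pos hwx hwc)]
      calc w (x - c) < ε * w x ^ 2 := h2
        _ = ε * (w x * w x) := by ring
        _ ≤ ε * (w x * w c) :=
          mul_le_mul_of_nonneg_left (mul_le_mul_of_nonneg_left h3 hwx.le) hε.le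

/-- Be1 (positive distance).  Proof.  Suppose that for every `δ > 0` there is `β ∈ C` with `w (t - β) < δ`. The
set of all `x ∈ E` which are limits (for `w`) of elements of `C` is a subfield (the product rule and
`x⁻¹ - c⁻¹ = (c - x) / (x c)`), it contains `C` and `t`, so it contains `z`, but
`w (z - c) ≥ s > 0` for all `c ∈ C` (`GaussAt.val_sub`). -/
theorem exists_pos_dist {E : Type*} [NormedField E] [IsUltrametricDist E] {C : Subfield E}
    {z : E} {s : ℝ} (hs : 0 < s) {w : AbsoluteValue E ℝ} (hw : GaussAt C z s w) {t : E}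
    (ht : z ∈ adj C t) : ∃ δ : ℝ, 0 < δ ∧ ∀ b ∈ C, δ ≤ w (t - b) := by
  by_contra hcon
  push Not at hcon
  have h1 : adj C t ≤ beClo C hw.nonarch := by
    refine adj_le ?_ ?_
    · intro x hx ε hε
      exact ⟨x, hx, by rw [sub_self, map_zero]; exact hε⟩
    · intro ε hε
      obtain ⟨b, hb, hlt⟩ := hcon ε hε
      exact ⟨b, hb, hlt⟩
  have h2 : z ∈ beClo C hw.nonarch := h1 ht
  have h3 : ∀ ε : ℝ, 0 < ε → ∃ c ∈ C, w (z - c) < ε := h2
  obtain ⟨c, hc, hlt⟩ := h3 s hs
  rw [(GaussAt.val_sub hs hw).2 c hc] at hlt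
  exact absurd hlt (not_lt.2 (le_max_right _ _))

private theorem be_snoc {k L E : Type*} [NormedField k] [NormedField L] [NormedAlgebra k L]
    [NormedField E] {M : IntermediateField k L} {j : L →+* E} {w : AbsoluteValue E ℝ}
    (hw : IsNonarchimedean w) {l : ℕ} (v : Fin l → L) (x : L) {c₀ : ℝ} (hc₀ : 0 < c₀)
    (hlow : ∀ a : Fin l → L, (∀ i, a i ∈ M) →
        ∀ i, c₀ * w (j (a i * v i)) ≤ w (j (∑ t, a t * v t))) {δ : ℝ} (hδ : 0 < δ)
    (hdist : ∀ a : Fin l → L, (∀ i, a i ∈ M) → δ ≤ w (j (x - ∑ t, a t * v t))) :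
    ∃ c₁ : ℝ, 0 < c₁ ∧ ∀ a : Fin (l + 1) → L, (∀ i, a i ∈ M) →
      (∀ i : Fin l, c₁ * w (j (a i.castSucc * v i)) ≤
        w (j (∑ t : Fin l, a t.castSucc * v t + a (Fin.last l) * x))) ∧
      c₁ * w (j (a (Fin.last l) * x)) ≤
        w (j (∑ t : Fin l, a t.castSucc * v t + a (Fin.last l) * x)) := by
  set K : ℝ := max 1 (w (j x) / δ) with hK
  have hK1 : 1 ≤ K := le_max_left _ _
  have hK0 : 0 < K := by linarith
  have hKd : w (j x) ≤ K * δ := by
    rw [← div_le_iff₀ hδ]; exact le_max_right _ _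
  refine ⟨min c₀ 1 / K, div_pos (lt_min hc₀ one_pos) hK0, fun a ha => ?_⟩
  set y : L := ∑ t : Fin l, a t.castSucc * v t with hy
  set b : L := a (Fin.last l) with hb
  set T : ℝ := w (j (y + b * x)) with hT
  have hT0 : 0 ≤ T := w.nonneg _
  have h1 : w (j b) * δ ≤ T := by
    by_cases hb0 : b = 0
    · rw [hb0, map_zero, map_zero, zero_mul]; exact hT0
    · have e : y + b * x = b * (x - ∑ t : Fin l, (-(b⁻¹ * a t.castSucc)) * v t) := by
        rw [mul_sub, Finset.mul_sum, hy]
        have : ∀ t : Fin l, b * (-(b⁻¹ * a t.castSucc) * v t) = -(a t.castSucc * v t) := by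
          intro t
          field_simp
        rw [Finset.sum_congr rfl fun t _ => this t, Finset.sum_neg_distrib]
        ring
      rw [hT, e, map_mul, map_mul]
      refine mul_le_mul_of_nonneg_left (hdist _ fun t => ?_) (w.nonneg _)
      exact neg_mem (mul_mem (inv_mem (ha _)) (ha _))
  have h2 : w (j (b * x)) ≤ T * K := by
    rw [map_mul, map_mul]
    calc w (j b) * w (j x) ≤ w (j b) * (K * δ) := mul_le_mul_of_nonneg_left hKd (w.nonneg _)
      _ = (w (j b) * δ) * K := by ring
      _ ≤ T * K := mul_le_mul_of_nonneg_right h1 hK0.le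
  have h3 : w (j y) ≤ T * K := by
    have e : j y = j (y + b * x) + -(j (b * x)) := by rw [map_add]; ring
    rw [e]
    refine (hw _ _).trans (max_le ?_ ?_)
    · calc w (j (y + b * x)) = T * 1 := by rw [mul_one]
        _ ≤ T * K := mul_le_mul_of_nonneg_left hK1 hT0
    · rw [map_neg_eq_map]; exact h2
  constructor
  · intro i
    rw [div_mul_eq_mul_div, div_le_iff₀ hK0]
    refine le_trans ?_ h3
    exact (mul_le_mul_of_nonneg_right (min_le_left _ _) (w.nonneg _)).trans
      (hlow (fun t => a t.castSucc) (fun t => ha _) i)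
  · rw [div_mul_eq_mul_div, div_le_iff₀ hK0]
    refine le_trans ?_ h2
    calc min c₀ 1 * w (j (b * x)) ≤ 1 * w (j (b * x)) :=
          mul_le_mul_of_nonneg_right (min_le_right _ _) (w.nonneg _)
      _ = w (j (b * x)) := one_mul _

private theorem be_monic {E : Type*} [NormedField E] {C : Subfield E} (hC : IsAlgClosed C)
    {w : AbsoluteValue E ℝ} {t : E} {δ : ℝ} (hδ : 0 < δ) (hd : ∀ b ∈ C, δ ≤ w (t - b)) (n : ℕ) :
    ∀ P : Polynomial C, P.Monic → P.natDegree = n → δ ^ n ≤ w (aeval t P) := by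
  induction n with
  | zero =>
    intro P hP hn
    rw [hP.natDegree_eq_zero.1 hn]
    simp
  | succ n ih =>
    intro P hP hn
    have hdeg : P.degree ≠ 0 := by
      intro h0
      have h1 : P.natDegree = 0 := Polynomial.natDegree_eq_of_degree_eq_some h0
      omega
    obtain ⟨β, hβ⟩ := IsAlgClosed.exists_root P hdeg
    obtain ⟨Q, hQ⟩ := Polynomial.dvd_iff_isRoot.2 hβ
    have hm : ((X - Polynomial.C β) * Q).Monic := by rw [← hQ]; exact hP
    have hQm : Q.Monic := (monic_X_sub_C β).of_mul_monic_left hm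
    have hQn : Q.natDegree = n := by
      have h1 := (monic_X_sub_C β).natDegree_mul hQm
      rw [← hQ, hn, natDegree_X_sub_C] at h1
      omega
    have h2 := ih Q hQm hQn
    have h3 := hd β β.2
    rw [hQ, map_mul, map_mul, pow_succ, mul_comm]
    have h4 : aeval t (X - Polynomial.C β) = t - (β : E) := by
      rw [map_sub, aeval_X, aeval_C]
      rfl
    rw [h4]
    exact mul_le_mul h3 h2 (by positivity) (w.nonneg _)

private theorem be_low {k L E : Type*} [NormedField k] [NormedField L] [NormedAlgebra k L]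
    [NormedField E] {M : IntermediateField k L} {C : Subfield E} {j : L →+* E}
    (hC : IsAlgClosed C) (hmem : ∀ c ∈ M, j c ∈ C)
    {w : AbsoluteValue E ℝ} (hw : IsNonarchimedean w) {T : L} {δ : ℝ} (hδ : 0 < δ)
    (hd : ∀ b ∈ C, δ ≤ w (j T - b)) (D : ℕ) :
    ∃ c₀ : ℝ, 0 < c₀ ∧ ∀ a : Fin D → L, (∀ i, a i ∈ M) →
      ∀ i, c₀ * w (j (a i * T ^ (i : ℕ))) ≤ w (j (∑ t, a t * T ^ (t : ℕ))) := by
  induction D with
  | zero => exact ⟨1, one_pos, fun a ha i => i.elim0⟩
  | succ D ih =>
    obtain ⟨c₀, hc₀, hlow⟩ := ih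
    have hdist : ∀ a : Fin D → L, (∀ i, a i ∈ M) →
        δ ^ D ≤ w (j (T ^ D - ∑ t, a t * T ^ (t : ℕ))) := by
      intro a ha
      set P : Polynomial C := X ^ D - ∑ i : Fin D,
        Polynomial.C (⟨j (a i), hmem _ (ha i)⟩ : C) * X ^ (i : ℕ) with hP
      have hdeg : (∑ i : Fin D, Polynomial.C (⟨j (a i), hmem _ (ha i)⟩ : C) *
          X ^ (i : ℕ)).degree < (D : WithBot ℕ) := degree_sum_fin_lt _
      have hPm : P.Monic := monic_X_pow_sub hdeg
      have hPn : P.natDegree = D := by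
        have h1 : P.degree = (D : WithBot ℕ) := by
          rw [hP, degree_sub_eq_left_of_degree_lt]
          · exact degree_X_pow D
          · rw [degree_X_pow]; exact hdeg
        exact natDegree_eq_of_degree_eq_some h1
      have h2 := be_monic hC hδ hd D P hPm hPn
      have h3 : aeval (j T) P = j (T ^ D - ∑ t, a t * T ^ (t : ℕ)) := by
        rw [hP, map_sub, map_sub, map_pow, aeval_X, map_pow, map_sum, map_sum]
        congr 1
        refine Finset.sum_congr rfl fun i _ => ?_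
        rw [map_mul, map_pow, aeval_X, aeval_C, map_mul, map_pow]
        rfl
      rwa [h3] at h2
    obtain ⟨c₁, hc₁, h1⟩ := be_snoc hw (fun t : Fin D => T ^ (t : ℕ)) (T ^ D) hc₀ hlow
      (pow_pos hδ D) hdist
    refine ⟨c₁, hc₁, fun a ha i => ?_⟩
    obtain ⟨h2, h3⟩ := h1 a ha
    have h4 : (∑ t : Fin (D + 1), a t * T ^ (t : ℕ)) =
        ∑ t : Fin D, a t.castSucc * T ^ (t : ℕ) + a (Fin.last D) * T ^ D := by
      rw [Fin.sum_univ_castSucc]
      simp
    rw [h4]
    refine Fin.lastCases ?_ (fun i => ?_) i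
    · simpa using h3
    · simpa using h2 i

/-- Be.  Proof.  Let `t = j T`, `δ` as in Be1 (`z ∈ adj C t` by `hgen`: `j(L) ≤ adj C t` because `L = M(T)`).
Lower bound for the family `T ^ i`, `i ≤ D`: for a polynomial `P` over `M` of degree `i` with leading
coefficient `a`, `w (P t) = ‖a‖ * ∏ w (t - β_l) ≥ ‖a‖ * δ ^ i` (roots in `C`), so the distance of `t ^ i`
to the span of the smaller powers is `≥ δ ^ i`; this gives `c₀ > 0` as in Bd1 (induction on `D`). `OApp`
from `oapp_of_wfam` (`j (T ^ i) ∈ R`). `obx_of_oapp`; `polyV M T D` is the span of the `T ^ i`. -/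
theorem obx_poly {k L E : Type*} [NontriviallyNormedField k] [NormedField L]
    [NormedAlgebra k L] [NormedField E] [IsUltrametricDist E] {M : IntermediateField k L}
    {C : Subfield E} {j : L →+* E} {z y : E} (h : ZSet M C j z y) (hst : MStab M C j)
    (hgen : ∀ x : E, x ∈ j.fieldRange ⊔ C) {T : L} (hT : Transcendental M T)
    (htop : ∀ x : L, x ∈ IntermediateField.adjoin M ({T} : Set L)) {R : Subring E}
    (hTR : j T ∈ R) (hMR : ∀ c ∈ C, c ∈ R) {s₀ : ℝ} {w : ℝ → AbsoluteValue E ℝ}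
    (hw : WFam C z R s₀ w) {s : ℝ} (hs : s ∈ Iv C z s₀) (D : ℕ) :
    OBx M ((w s).comp j.injective) (polyV M T D) := by
  have hs0 : 0 < s := lt_of_le_of_lt Metric.infDist_nonneg hs.1
  have hG := hw.gauss s hs
  have hjT : ∀ x : L, j x ∈ adj C (j T) := by
    intro x
    have hx := htop x
    induction hx using IntermediateField.adjoin_induction with
    | mem x hx =>
      rw [Set.mem_singleton_iff] at hx
      rw [hx]
      exact mem_adj_self _ _
    | algebraMap x => exact le_adj _ _ (h.mem _ x.2)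
    | add x y _ _ hx hy => rw [map_add]; exact add_mem hx hy
    | inv x _ hx => rw [map_inv₀]; exact inv_mem hx
    | mul x y _ _ hx hy => rw [map_mul]; exact mul_mem hx hy
  have hz : z ∈ adj C (j T) := by
    have h1 : j.fieldRange ⊔ C ≤ adj C (j T) := by
      refine sup_le ?_ (le_adj _ _)
      rintro _ ⟨x, rfl⟩
      exact hjT x
    exact h1 (hgen z)
  obtain ⟨δ, hδ, hd⟩ := exists_pos_dist hs0 hG hz
  obtain ⟨c₀, hc₀, hlow⟩ := be_low (M := M) h.closed h.mem hG.nonarch hδ hd (D + 1)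
  have hT0 : T ≠ 0 := by
    rintro rfl
    exact hT isAlgebraic_zero
  refine obx_of_oapp hG.nonarch (v := fun i : Fin (D + 1) => T ^ (i : ℕ))
    (fun i => pow_ne_zero _ hT0) hc₀ hlow ?_
  refine oapp_of_wfam h hst hw hs _ fun i => ?_
  rw [map_pow]
  exact pow_mem hTR _

end DA
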