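import Pool.Agent.Lib.DA.Defs2

/-!
# Definitions for the modules K, H, R, S
-/

namespace DA

open Polynomial MP1a953e

section
variable (k : Type*) {L : Type*} [NormedField k] [IsUltrametricDist k] [NormedField L]
  [IsUltrametricDist L] [NormedAlgebra k L]

/-- the new Abhyankar basis: values -/
structure VB {r : ℕ} (R : Subring L) (w : AbsoluteValue L ℝ) (e : Fin r → L) : Prop where
  mem : ∀ i, e i ∈ R
  w_eq : ∀ i, w (e i) = ‖e i‖
  ne : ∀ i, e i ≠ 0
  ind : ∀ (z : Fin r → ℤ) (c : k), ‖c‖ = ‖∏ i, e i ^ z i‖ → z = 0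
  val : ∀ q ∈ R, w q = ‖q‖ → q ≠ 0 → ∃ (z : Fin r → ℤ) (c : k), c ≠ 0 ∧ ‖q‖ = ‖mon k e z c‖

/-- Elements of the unit ball of `R` which are, up to `w ≤ ε`, of the form `n + h * y` with `n ∈ N`. -/
def AAs (N : IntermediateField k L) (R : Subring L) (w : AbsoluteValue L ℝ) (h : L) (ε : ℝ) :
    Set L :=
  {q | q ∈ R ∧ w q ≤ 1 ∧ ∃ n ∈ N, n ∈ R ∧ w n ≤ 1 ∧ ∃ y ∈ R, w y ≤ 1 ∧
    w (q - n - h * y) ≤ ε}

/-- the `O k`-algebra generated by all monomials in `e` of norm `≤ 1` and by `G` -/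
noncomputable def MBG {r : ℕ} (e : Fin r → L) (G : Set L) : Subalgebra (O k) L :=
  Algebra.adjoin (O k) ({x | ∃ (z : Fin r → ℤ) (c : k), x = mon k e z c ∧ ‖x‖ ≤ 1} ∪ G)

/-- the `O k`-algebra generated by the toric coordinates -/
noncomputable def Tt {r : ℕ} (e : Fin r → L) (c : Fin r → k) (π : k) : Subalgebra (O k) L :=
  Algebra.adjoin (O k) (Set.range (tor k e c π))

/-- the `O k`-algebra generated by the toric coordinates and by `G` -/
noncomputable def BG {r : ℕ} (e : Fin r → L) (c : Fin r → k) (π : k) (G : Set L) :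
    Subalgebra (O k) L :=
  Algebra.adjoin (O k) (Set.range (tor k e c π) ∪ G)

/-- the toric coordinates have norms in `(δ, 1)` -/
structure Fine {r : ℕ} (e : Fin r → L) (c : Fin r → k) (π : k) (δ : ℝ) : Prop where
  c_ne : ∀ i, c i ≠ 0
  π_ne : π ≠ 0
  lo : ∀ i, δ < ‖tor k e c π i‖
  hi : ∀ i, ‖tor k e c π i‖ < 1

end

end DA
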