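import Pool.Agent.Lib.DA.EUb
import Pool.Agent.Lib.DA.Defs3

/-!
# Module H0: elements of `k(e₀, u₀)` as monomials in `e` times units
-/

namespace DA

open Polynomial MP1a953e

private theorem h0_mon_add {k L : Type*} [NormedField k] [NormedField L] [NormedAlgebra k L] {r : ℕ}
    {e : Fin r → L} (hne : ∀ i, e i ≠ 0) (z z' : Fin r → ℤ) (c c' : k) :
    mon k e (z + z') (c * c') = mon k e z c * mon k e z' c' := by
  unfold mon
  have h1 : ∏ i, e i ^ (z + z') i = (∏ i, e i ^ z i) * ∏ i, e i ^ z' i := by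
    rw [← Finset.prod_mul_distrib]
    exact Finset.prod_congr rfl fun i _ => zpow_add₀ (hne i) _ _
  rw [h1, map_mul]
  ring

private theorem h0_mon_neg {k L : Type*} [NormedField k] [NormedField L] [NormedAlgebra k L] {r : ℕ}
    (e : Fin r → L) (z : Fin r → ℤ) (c : k) :
    mon k e (-z) c⁻¹ = (mon k e z c)⁻¹ := by
  unfold mon
  have h1 : ∏ i, e i ^ (-z) i = (∏ i, e i ^ z i)⁻¹ := by
    rw [← Finset.prod_inv_distrib]
    exact Finset.prod_congr rfl fun i _ => zpow_neg _ _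
  rw [h1, map_inv₀, mul_inv]

private theorem h0_mon_zero {k L : Type*} [NormedField k] [NormedField L] [NormedAlgebra k L]
    {r : ℕ} (e : Fin r → L) (c : k) : mon k e 0 c = algebraMap k L c := by
  unfold mon
  simp

/-- monomial times unit -/
private def H0F {k L : Type*} [NormedField k] [NormedField L]
    [NormedAlgebra k L] {r : ℕ} (e : Fin r → L) (𝒜 : Subring L) (x : L) : Prop :=
  ∃ (z : Fin r → ℤ) (c : k), c ≠ 0 ∧ ∃ a ∈ 𝒜, ‖a‖ = 1 ∧ x = mon k e z c * a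

section

variable {k L : Type*} [NormedField k] [NormedField L]
    [NormedAlgebra k L] {r : ℕ} {e : Fin r → L} {𝒜 : Subring L}

private theorem H0F.of_mem {a : L} (ha : a ∈ 𝒜) (h1 : ‖a‖ = 1) : H0F (k := k) e 𝒜 a :=
  ⟨0, 1, one_ne_zero, a, ha, h1, by rw [h0_mon_zero, map_one, one_mul]⟩

private theorem H0F.of_const {c : k} (hc : c ≠ 0) : H0F (k := k) e 𝒜 (algebraMap k L c) :=
  ⟨0, c, hc, 1, one_mem 𝒜, norm_one, by rw [h0_mon_zero, mul_one]⟩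

private theorem H0F.mul (hne : ∀ i, e i ≠ 0) {x y : L} (hx : H0F (k := k) e 𝒜 x)
    (hy : H0F (k := k) e 𝒜 y) : H0F (k := k) e 𝒜 (x * y) := by
  obtain ⟨z, c, hc, a, ha, ha1, rfl⟩ := hx
  obtain ⟨z', c', hc', a', ha', ha1', rfl⟩ := hy
  refine ⟨z + z', c * c', mul_ne_zero hc hc', a * a', mul_mem ha ha', ?_, ?_⟩
  · rw [norm_mul, ha1, ha1', mul_one]
  · rw [h0_mon_add hne]
    ring

private theorem H0F.inv (hinv : ∀ q ∈ 𝒜, ‖q‖ = 1 → q⁻¹ ∈ 𝒜) {x : L} (hx : H0F (k := k) e 𝒜 x) :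
    H0F (k := k) e 𝒜 x⁻¹ := by
  obtain ⟨z, c, hc, a, ha, ha1, rfl⟩ := hx
  refine ⟨-z, c⁻¹, inv_ne_zero hc, a⁻¹, hinv a ha ha1, ?_, ?_⟩
  · rw [norm_inv, ha1, inv_one]
  · rw [h0_mon_neg, mul_inv]

private theorem H0F.pow (hne : ∀ i, e i ≠ 0) {x : L} (hx : H0F (k := k) e 𝒜 x) (n : ℕ) :
    H0F (k := k) e 𝒜 (x ^ n) := by
  induction n with
  | zero =>
    rw [pow_zero]
    exact H0F.of_mem (one_mem 𝒜) norm_one
  | succ n ih =>
    rw [pow_succ]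
    exact ih.mul hne hx

private theorem H0F.zpow (hinv : ∀ q ∈ 𝒜, ‖q‖ = 1 → q⁻¹ ∈ 𝒜) (hne : ∀ i, e i ≠ 0) {x : L}
    (hx : H0F (k := k) e 𝒜 x) (n : ℤ) : H0F (k := k) e 𝒜 (x ^ n) := by
  cases n with
  | ofNat n =>
    rw [Int.ofNat_eq_natCast, zpow_natCast]
    exact hx.pow hne n
  | negSucc n =>
    rw [zpow_negSucc]
    exact (hx.pow hne (n + 1)).inv hinv

private theorem H0F.mon (hinv : ∀ q ∈ 𝒜, ‖q‖ = 1 → q⁻¹ ∈ 𝒜) (hne : ∀ i, e i ≠ 0) {s : ℕ}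
    {e₀ : Fin s → L} (he₀ : ∀ i, H0F (k := k) e 𝒜 (e₀ i)) (z : Fin s → ℤ) {c : k} (hc : c ≠ 0) :
    H0F (k := k) e 𝒜 (mon k e₀ z c) := by
  unfold DA.mon
  refine (H0F.of_const hc).mul hne ?_
  exact Finset.prod_induction _ (fun x => H0F (k := k) e 𝒜 x) (fun _ _ hx hy => hx.mul hne hy)
    (H0F.of_mem (one_mem 𝒜) norm_one) (fun i _ => (he₀ i).zpow hinv hne (z i))

private theorem H0F.mem (hmon : ∀ (z : Fin r → ℤ) (c : k), ‖DA.mon k e z c‖ ≤ 1 → DA.mon k e z c ∈ 𝒜)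
    {x : L} (hx : H0F (k := k) e 𝒜 x) (h1 : ‖x‖ ≤ 1) : x ∈ 𝒜 := by
  obtain ⟨z, c, hc, a, ha, ha1, rfl⟩ := hx
  rw [norm_mul, ha1, mul_one] at h1
  exact mul_mem (hmon z c h1) ha

end

/-- H0.  `𝒜` is a subring of `L` whose elements of norm `1` are invertible in it, and which contains all
monomials in `e` of norm `≤ 1`.  Proof.  Products, quotients (and powers with integer exponents) of elements
`mon k e z c * a`, `a ∈ 𝒜`, `‖a‖ = 1`, `c ≠ 0`, are of the same form (`e i ≠ 0`); such an element of norm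
`≤ 1` is in `𝒜`. So every monomial `mon k e₀ z c ≠ 0` has this form, and if its norm is `≤ 1` it is in
`𝒜`: `MB k e₀ u₀ ⊆ 𝒜` (induction over the adjoin; constants of norm `≤ 1` are monomials). By
`EU.exists_frac` `x = mon k e₀ z c * (a / b)` with `a, b ∈ MB k e₀ u₀` of norm `1`. -/
theorem exists_mon_unit {k L : Type*} [NormedField k] [IsUltrametricDist k] [NormedField L]
    [IsUltrametricDist L] [NormedAlgebra k L] {r m : ℕ} {e₀ : Fin r → L} {u₀ : Fin m → L}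
    (h₀ : EU k e₀ u₀) {𝒜 : Subring L} (hinv : ∀ q ∈ 𝒜, ‖q‖ = 1 → q⁻¹ ∈ 𝒜) {e : Fin r → L}
    (hne : ∀ i, e i ≠ 0)
    (hmon : ∀ (z : Fin r → ℤ) (c : k), ‖mon k e z c‖ ≤ 1 → mon k e z c ∈ 𝒜)
    (he₀ : ∀ i, ∃ (z : Fin r → ℤ) (c : k), c ≠ 0 ∧ ∃ a ∈ 𝒜, ‖a‖ = 1 ∧ e₀ i = mon k e z c * a)
    (hu₀ : ∀ i, u₀ i ∈ 𝒜) {x : L} (hx : x ∈ keu k e₀ u₀) (hx0 : x ≠ 0) :
    ∃ (z : Fin r → ℤ) (c : k), c ≠ 0 ∧ ∃ a ∈ 𝒜, ‖a‖ = 1 ∧ x = mon k e z c * a := by
  have hMB : ∀ x ∈ MB k e₀ u₀, x ∈ 𝒜 := by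
    intro x hx
    unfold MB at hx
    induction hx using Algebra.adjoin_induction with
    | mem x hx =>
      rcases hx with ⟨z, c, rfl, hx⟩ | ⟨i, rfl⟩
      · by_cases hc : c = 0
        · have h0 : mon k e₀ z c = 0 := by
            unfold mon
            rw [hc, map_zero, zero_mul]
          rw [h0]
          exact zero_mem 𝒜
        · exact (H0F.mon hinv hne he₀ z hc).mem hmon hx
      · exact hu₀ i
    | algebraMap c =>
      have h1 : algebraMap (O k) L c = mon k e 0 (c : k) := by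
        rw [h0_mon_zero]
        rfl
      rw [h1]
      refine hmon 0 (c : k) ?_
      rw [h0_mon_zero, norm_algebraMap']
      exact c.2
    | add x y _ _ hx hy => exact add_mem hx hy
    | mul x y _ _ hx hy => exact mul_mem hx hy
  obtain ⟨z, c, hc, a, ha, b, hb, ha1, hb1, rfl⟩ := h₀.exists_frac hx hx0
  have h1 : H0F (k := k) e 𝒜 (mon k e₀ z c) := H0F.mon hinv hne he₀ z hc
  have h2 : H0F (k := k) e 𝒜 (a / b) := by
    rw [div_eq_mul_inv]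
    exact (H0F.of_mem (hMB a ha) ha1).mul hne ((H0F.of_mem (hMB b hb) hb1).inv hinv)
  exact h1.mul hne h2

end DA
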