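import Pool.Agent.Lib.DA.R0
import Pool.Agent.Lib.DA.H0
import Pool.Agent.Lib.DA.H1a

/-!
# Module R1: the unit ball of `R` is a localization of `MBG k e G`
-/

namespace DA

open Polynomial MP1a953e

section R1aux

variable {k L : Type*} [NormedField k] [NormedField L] [NormedAlgebra k L] {r : ℕ}
  {e : Fin r → L}

private theorem r1_mon_ne (he : ∀ i, e i ≠ 0) (z : Fin r → ℤ) {c : k} (hc : c ≠ 0) :
    mon k e z c ≠ 0 := by
  unfold mon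
  exact mul_ne_zero ((_root_.map_ne_zero _).2 hc)
    (Finset.prod_ne_zero_iff.2 fun i _ => zpow_ne_zero _ (he i))

private theorem r1_mon_mul (he : ∀ i, e i ≠ 0) (z z' : Fin r → ℤ) (c c' : k) :
    mon k e z c * mon k e z' c' = mon k e (z + z') (c * c') := by
  unfold mon
  have h1 : ∏ i, e i ^ (z + z') i = (∏ i, e i ^ z i) * ∏ i, e i ^ z' i := by
    rw [← Finset.prod_mul_distrib]
    refine Finset.prod_congr rfl fun i _ => ?_
    rw [Pi.add_apply, zpow_add₀ (he i)]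
  rw [h1, map_mul]
  ring

private theorem r1_mon_inv (z : Fin r → ℤ) (c : k) :
    (mon k e z c)⁻¹ = mon k e (-z) c⁻¹ := by
  unfold mon
  rw [mul_inv, map_inv₀, ← Finset.prod_inv_distrib]
  congr 1
  refine Finset.prod_congr rfl fun i _ => ?_
  rw [Pi.neg_apply, zpow_neg]

private theorem r1_mon_mem {R : Subring L} (he : ∀ i, e i ∈ R) (hei : ∀ i, (e i)⁻¹ ∈ R)
    (hk : ∀ c : k, algebraMap k L c ∈ R) (z : Fin r → ℤ) (c : k) : mon k e z c ∈ R := by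
  unfold mon
  refine mul_mem (hk c) (prod_mem fun i _ => ?_)
  obtain ⟨n, hn | hn⟩ := Int.eq_nat_or_neg (z i)
  · rw [hn, zpow_natCast]
    exact pow_mem (he i) n
  · rw [hn, zpow_neg, zpow_natCast, ← inv_pow]
    exact pow_mem (hei i) n

private theorem r1_mon_w {w : AbsoluteValue L ℝ} (he : ∀ i, w (e i) = ‖e i‖)
    (hk : ∀ c : k, w (algebraMap k L c) = ‖algebraMap k L c‖) (z : Fin r → ℤ) (c : k) :
    w (mon k e z c) = ‖mon k e z c‖ := by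
  unfold mon
  rw [map_mul, norm_mul, hk, map_prod, norm_prod]
  congr 1
  refine Finset.prod_congr rfl fun i _ => ?_
  rw [map_zpow₀, norm_zpow, he i]

private theorem r1_MBG [IsUltrametricDist k] [IsUltrametricDist L] {R : Subring L}
    {w : AbsoluteValue L ℝ} (hna : IsNonarchimedean w)
    (hmonR : ∀ (z : Fin r → ℤ) (c : k), mon k e z c ∈ R)
    (hmonw : ∀ (z : Fin r → ℤ) (c : k), w (mon k e z c) = ‖mon k e z c‖)
    (hkR : ∀ c : k, algebraMap k L c ∈ R)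
    (hkw : ∀ c : k, w (algebraMap k L c) = ‖algebraMap k L c‖) {G : Set L}
    (hGR : ∀ g ∈ G, g ∈ R ∧ w g ≤ 1) {x : L} (hx : x ∈ MBG k e G) : x ∈ R ∧ w x ≤ 1 := by
  unfold MBG at hx
  induction hx using Algebra.adjoin_induction with
  | mem x hx =>
    rcases hx with ⟨z, c, rfl, hx⟩ | hx
    · exact ⟨hmonR z c, by rw [hmonw]; exact hx⟩
    · exact hGR x hx
  | algebraMap c =>
    have h1 : algebraMap (O k) L c = algebraMap k L (c : k) := rfl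
    rw [h1]
    refine ⟨hkR _, ?_⟩
    rw [hkw, norm_algebraMap']
    exact c.2
  | add x y _ _ hx hy =>
    exact ⟨add_mem hx.1 hy.1, (hna x y).trans (max_le hx.2 hy.2)⟩
  | mul x y _ _ hx hy =>
    refine ⟨mul_mem hx.1 hy.1, ?_⟩
    rw [map_mul]
    exact mul_le_one₀ hx.2 (w.nonneg _) hy.2

omit [NormedField k] [NormedField L] [NormedAlgebra k L] in
private theorem r1_finset {l m : ℕ} (b' : Fin l → L) (e' : Fin r → L) (u₀ u : Fin m → L)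
    (f α : L) : ∃ G : Finset L, ∀ g, g ∈ G ↔ (∃ j, b' j = g) ∨ (∃ i, e' i = g) ∨
      (∃ i, u₀ i = g) ∨ (∃ i, u i = g) ∨ g = f ∨ g = α := by
  classical
  refine ⟨Finset.univ.image b' ∪ Finset.univ.image e' ∪ Finset.univ.image u₀ ∪
    Finset.univ.image u ∪ {f, α}, fun g => ?_⟩
  simp only [Finset.mem_union, Finset.mem_image, Finset.mem_univ, true_and,
    Finset.mem_insert, Finset.mem_singleton]
  tauto

/-- fractions with denominators of norm `1` -/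
private def r1_fr (B : Subring L) : Subring L where
  carrier := {q | ∃ a ∈ B, ∃ b ∈ B, ‖b‖ = 1 ∧ q = a / b}
  mul_mem' := by
    rintro x y ⟨a, ha, b, hb, hwb, rfl⟩ ⟨a', ha', b', hb', hwb', rfl⟩
    exact ⟨a * a', mul_mem ha ha', b * b', mul_mem hb hb', by rw [norm_mul, hwb, hwb', one_mul],
      by rw [div_mul_div_comm]⟩
  one_mem' := ⟨1, one_mem B, 1, one_mem B, by simp, by simp⟩
  add_mem' := by
    rintro x y ⟨a, ha, b, hb, hwb, rfl⟩ ⟨a', ha', b', hb', hwb', rfl⟩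
    have hb0 : b ≠ 0 := fun h0 => by rw [h0, norm_zero] at hwb; exact zero_ne_one hwb
    have hb0' : b' ≠ 0 := fun h0 => by rw [h0, norm_zero] at hwb'; exact zero_ne_one hwb'
    exact ⟨a * b' + b * a', add_mem (mul_mem ha hb') (mul_mem hb ha'), b * b', mul_mem hb hb',
      by rw [norm_mul, hwb, hwb', one_mul], by rw [div_add_div _ _ hb0 hb0']⟩
  zero_mem' := ⟨0, zero_mem B, 1, one_mem B, by simp, by simp⟩
  neg_mem' := by
    rintro x ⟨a, ha, b, hb, hwb, rfl⟩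
    exact ⟨-a, neg_mem ha, b, hb, hwb, by ring⟩

private theorem r1_mem_fr {B : Subring L} {q : L} :
    q ∈ r1_fr B ↔ ∃ a ∈ B, ∃ b ∈ B, ‖b‖ = 1 ∧ q = a / b := Iff.rfl

private theorem r1_le_fr {B : Subring L} {q : L} (hq : q ∈ B) : q ∈ r1_fr B :=
  ⟨q, hq, 1, one_mem B, by simp, by simp⟩

private theorem r1_fr_inv {B : Subring L} {q : L} (hq : q ∈ r1_fr B) (h1 : ‖q‖ = 1) :
    q⁻¹ ∈ r1_fr B := by
  obtain ⟨a, ha, b, hb, hwb, rfl⟩ := hq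
  refine ⟨b, hb, a, ha, ?_, by rw [inv_div]⟩
  rwa [norm_div, hwb, div_one] at h1

private theorem r1_fr_div {B : Subring L} {x y : L} (hx : x ∈ r1_fr B) (hy : y ∈ r1_fr B)
    (h1 : ‖y‖ = 1) : x / y ∈ r1_fr B := by
  rw [div_eq_mul_inv]
  exact mul_mem hx (r1_fr_inv hy h1)

end R1aux

/-- R1. -/
theorem exists_G {k L : Type*} [NormedField k] [IsUltrametricDist k] [NormedField L]
    [IsUltrametricDist L] [NormedAlgebra k L] {r m : ℕ} {e₀ : Fin r → L} {u₀ : Fin m → L}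
    (h₀ : EU k e₀ u₀) {T : L} (hT : Transcendental (keu k e₀ u₀) T) {w : AbsoluteValue L ℝ}
    (hle : ∀ g ∈ Subring.closure ((keu k e₀ u₀ : Set L) ∪ {T}), ‖g‖ ≤ w g) {d : ℕ} {f : L}
    (hf : f ∈ polyV (keu k e₀ u₀) T (d + 1))
    (h : DIVd (keu k e₀ u₀) (RS (Subring.closure ((keu k e₀ u₀ : Set L) ∪ {T})) w) w
      (polyV (keu k e₀ u₀) T d) f)
    (hOB : OBx (keu k e₀ u₀) w (polyV (keu k e₀ u₀) T d)) {e : Fin r → L} {u : Fin m → L}
    {α h' : L}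
    (hC : Cor k (RS (Subring.closure ((keu k e₀ u₀ : Set L) ∪ {T})) w) w e u α h') :
    ∃ G : Finset L,
      (∀ g ∈ G, g ∈ RS (Subring.closure ((keu k e₀ u₀ : Set L) ∪ {T})) w ∧ w g ≤ 1) ∧
      (∀ i, u i ∈ G) ∧ α ∈ G ∧
      (∀ q ∈ RS (Subring.closure ((keu k e₀ u₀ : Set L) ∪ {T})) w, w q ≤ 1 →
        ∃ a ∈ MBG k e (G : Set L), ∃ b ∈ MBG k e (G : Set L), ‖b‖ = 1 ∧ q = a / b) ∧
      ∀ q ∈ RS (Subring.closure ((keu k e₀ u₀ : Set L) ∪ {T})) w, q ≠ 0 →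
        ∃ (z : Fin r → ℤ) (c : k), c ≠ 0 ∧ w q = ‖mon k e z c‖ := by
  classical
  set M := keu k e₀ u₀ with hM
  set A := Subring.closure ((M : Set L) ∪ {T}) with hA
  set R := RS A w with hR
  set V := polyV M T d with hV
  have hRW : RWd M R w := h.rwd
  have hAR : ∀ a ∈ A, a ∈ R := fun a ha => ⟨a, ha, 1, one_mem A, one_ne_zero, by simp, by simp⟩
  have hkM : ∀ c : k, algebraMap k L c ∈ M := fun c => M.algebraMap_mem c
  have hkR : ∀ c : k, algebraMap k L c ∈ R := fun c => h.M_le _ (hkM c)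
  have hkw : ∀ c : k, w (algebraMap k L c) = ‖algebraMap k L c‖ := fun c => hRW.eq_M (hkM c)
  have hene : ∀ i, e i ≠ 0 := hC.eu.ne
  have heinv : ∀ i, (e i)⁻¹ ∈ R := fun i => h.inv _ (hC.e_mem i) (hC.e_w i)
  have hmonR : ∀ (z : Fin r → ℤ) (c : k), mon k e z c ∈ R :=
    r1_mon_mem hC.e_mem heinv hkR
  have hmonw : ∀ (z : Fin r → ℤ) (c : k), w (mon k e z c) = ‖mon k e z c‖ :=
    r1_mon_w hC.e_w hkw
  -- normalisation of an element with `w = ‖·‖`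
  have hnorm : ∀ q ∈ R, w q = ‖q‖ → q ≠ 0 → ∃ (z : Fin r → ℤ) (c : k) (q' : L), c ≠ 0 ∧
      q = mon k e z c * q' ∧ q' ∈ R ∧ w q' = 1 ∧ ‖q'‖ = 1 := by
    intro q hq hwq hq0
    obtain ⟨z, c, hc, hzc⟩ := hC.val q hq hwq hq0
    have hne := r1_mon_ne (k := k) hene z hc
    have hne' : ‖mon k e z c‖ ≠ 0 := norm_ne_zero_iff.mpr hne
    refine ⟨z, c, q * (mon k e z c)⁻¹, hc, ?_, ?_, ?_, ?_⟩
    · rw [mul_comm q, mul_inv_cancel_left₀ hne]
    · rw [r1_mon_inv]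
      exact mul_mem hq (hmonR _ _)
    · rw [map_mul, map_inv₀, hmonw, hwq, hzc, mul_inv_cancel₀ hne']
    · rw [norm_mul, norm_inv, hzc, mul_inv_cancel₀ hne']
  obtain ⟨l, b, hbV, hbO, hbspan⟩ := hOB
  -- normalised orthogonal basis
  have hb1 : ∀ j, ∃ (z : Fin r → ℤ) (c : k) (q' : L), c ≠ 0 ∧
      b j = mon k e z c * q' ∧ q' ∈ R ∧ w q' = 1 ∧ ‖q'‖ = 1 := fun j =>
    hnorm _ (h.V_le _ (hbV j)) (h.eqV _ (hbV j)) (hbO.1 j)
  choose zb cb b' hcb hbb hb'R hb'w hb'n using hb1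
  have he₀M : ∀ i, e₀ i ∈ M := fun i =>
    IntermediateField.subset_adjoin k _ (Or.inl ⟨i, rfl⟩)
  have hu₀M : ∀ i, u₀ i ∈ M := fun i =>
    IntermediateField.subset_adjoin k _ (Or.inr ⟨i, rfl⟩)
  have he1 : ∀ i, ∃ (z : Fin r → ℤ) (c : k) (q' : L), c ≠ 0 ∧
      e₀ i = mon k e z c * q' ∧ q' ∈ R ∧ w q' = 1 ∧ ‖q'‖ = 1 := fun i =>
    hnorm _ (h.M_le _ (he₀M i)) (hRW.eq_M (he₀M i)) (h₀.ne i)
  choose ze ce e' hce hee he'R he'w he'n using he1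
  -- the finite set
  obtain ⟨G, hGmem⟩ := r1_finset b' e' u₀ u f α
  have hGR : ∀ g ∈ G, g ∈ R ∧ w g ≤ 1 := by
    intro g hg
    rcases (hGmem g).mp hg with ⟨j, rfl⟩ | ⟨i, rfl⟩ | ⟨i, rfl⟩ | ⟨i, rfl⟩ | rfl | rfl
    · exact ⟨hb'R j, (hb'w j).le⟩
    · exact ⟨he'R i, (he'w i).le⟩
    · exact ⟨h.M_le _ (hu₀M i), by rw [hRW.eq_M (hu₀M i)]; exact h₀.norm_u i⟩
    · exact ⟨hC.u_mem i, hC.u_w i⟩
    · exact ⟨h.f_mem, h.f_w.le⟩
    · exact ⟨hC.α_mem, hC.α_w⟩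
  set B : Subalgebra (O k) L := MBG k e (G : Set L) with hB
  have hBR : ∀ x ∈ B, x ∈ R ∧ w x ≤ 1 := fun x hx =>
    r1_MBG h.nonarch hmonR hmonw hkR hkw hGR hx
  set 𝒜 : Subring L := r1_fr B.toSubring with h𝒜
  have hB𝒜 : ∀ x ∈ B, x ∈ 𝒜 := fun x hx => r1_le_fr hx
  have hG𝒜 : ∀ g ∈ G, g ∈ 𝒜 := fun g hg =>
    hB𝒜 g (Algebra.subset_adjoin (Or.inr hg))
  have hmon𝒜 : ∀ (z : Fin r → ℤ) (c : k), ‖mon k e z c‖ ≤ 1 → mon k e z c ∈ 𝒜 :=
    fun z c hzc => hB𝒜 _ (Algebra.subset_adjoin (Or.inl ⟨z, c, rfl, hzc⟩))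
  have hinv : ∀ q ∈ 𝒜, ‖q‖ = 1 → q⁻¹ ∈ 𝒜 := fun q hq h1 => r1_fr_inv hq h1
  have hMu : ∀ x ∈ M, x ≠ 0 → ∃ (z : Fin r → ℤ) (c : k), c ≠ 0 ∧ ∃ a ∈ 𝒜, ‖a‖ = 1 ∧
      x = mon k e z c * a := by
    intro x hx hx0
    refine exists_mon_unit h₀ hinv hene hmon𝒜 (fun i => ?_) (fun i => ?_) hx hx0
    · exact ⟨ze i, ce i, hce i, e' i, hG𝒜 _ ((hGmem _).mpr (Or.inr (Or.inl ⟨i, rfl⟩))),
        he'n i, hee i⟩
    · exact hG𝒜 _ ((hGmem _).mpr (Or.inr (Or.inr (Or.inl ⟨i, rfl⟩))))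
  have hf𝒜 : f ∈ 𝒜 := hG𝒜 _ ((hGmem _).mpr (Or.inr (Or.inr (Or.inr (Or.inr (Or.inl rfl))))))
  have hb'𝒜 : ∀ j, b' j ∈ 𝒜 := fun j => hG𝒜 _ ((hGmem _).mpr (Or.inl ⟨j, rfl⟩))
  -- elements of `A` divided by a monomial
  have hdiv : ∀ a ∈ A, ∀ (z : Fin r → ℤ) (c : k), c ≠ 0 → w a ≤ ‖mon k e z c‖ →
      a * (mon k e z c)⁻¹ ∈ 𝒜 := by
    intro a ha z c hc hwa
    obtain ⟨n, A', hA'V, hA'w, rfl⟩ := exists_expansion hT h.nonarch hle h.eqV hf h.f_lt h.f_w ha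
    rw [Finset.sum_mul]
    refine sum_mem fun i _ => ?_
    have e1 : A' i * f ^ i * (mon k e z c)⁻¹ = (A' i * (mon k e z c)⁻¹) * f ^ i := by ring
    rw [e1]
    refine mul_mem ?_ (pow_mem hf𝒜 i)
    obtain ⟨c', hc'M, hc'⟩ := hbspan _ (hA'V i)
    rw [hc', Finset.sum_mul]
    refine sum_mem fun j _ => ?_
    by_cases h0 : c' j = 0
    · rw [h0, zero_mul, zero_mul]; exact zero_mem _
    obtain ⟨z1, c1, hc1, a1, ha1, ha1n, hc'j⟩ := hMu _ (hc'M j) h0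
    have hw1 : w (c' j * b j) ≤ ‖mon k e z c‖ := by
      have := hbO.2 c' hc'M j
      rw [← hc'] at this
      exact (this.trans (hA'w i)).trans hwa
    have hn1 : ‖c' j * b j‖ ≤ ‖mon k e z c‖ :=
      (h.le _ (mul_mem (h.M_le _ (hc'M j)) (h.V_le _ (hbV j)))).trans hw1
    have e2 : c' j * b j * (mon k e z c)⁻¹ =
        mon k e (z1 + zb j + -z) (c1 * cb j * c⁻¹) * (a1 * b' j) := by
      rw [← r1_mon_mul hene, ← r1_mon_mul hene, ← r1_mon_inv, hc'j, hbb j]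
      ring
    rw [e2]
    refine mul_mem (hmon𝒜 _ _ ?_) (mul_mem ha1 (hb'𝒜 j))
    have e3 : ‖mon k e (z1 + zb j + -z) (c1 * cb j * c⁻¹)‖ =
        ‖c' j * b j * (mon k e z c)⁻¹‖ := by
      rw [e2, norm_mul, norm_mul, ha1n, hb'n j, mul_one, mul_one]
    have hpos : 0 < ‖mon k e z c‖ := norm_pos_iff.mpr (r1_mon_ne hene z hc)
    rw [e3, norm_mul, norm_inv, ← div_eq_mul_inv, div_le_one hpos]
    exact hn1
  refine ⟨G, hGR, fun i => (hGmem _).mpr ?_, (hGmem _).mpr ?_, fun q hq hwq => ?_,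
    fun q hq hq0 => ?_⟩
  · exact Or.inr (Or.inr (Or.inr (Or.inl ⟨i, rfl⟩)))
  · exact Or.inr (Or.inr (Or.inr (Or.inr (Or.inr rfl))))
  · obtain ⟨a, ha, b1, hb1A, hb10, hwb1, rfl⟩ := hq
    obtain ⟨z, c, hc, hzc⟩ := hC.val b1 (hAR _ hb1A) hwb1 hb10
    have hne := r1_mon_ne (k := k) hene z hc
    have hwa : w a ≤ ‖mon k e z c‖ := by
      rw [← hzc, ← hwb1]
      rwa [map_div₀, div_le_one (w.pos hb10)] at hwq
    have h1 := hdiv a ha z c hc hwa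
    have h2 := hdiv b1 hb1A z c hc (by rw [← hzc, hwb1])
    have h3 : ‖b1 * (mon k e z c)⁻¹‖ = 1 := by
      rw [norm_mul, norm_inv, hzc, mul_inv_cancel₀ (norm_ne_zero_iff.mpr hne)]
    have h4 := r1_fr_div h1 h2 h3
    rw [mul_div_mul_right _ _ (inv_ne_zero hne)] at h4
    obtain ⟨a2, ha2, b2, hb2, hb2n, h5⟩ := h4
    exact ⟨a2, ha2, b2, hb2, hb2n, h5⟩
  · obtain ⟨a, ha, b1, hb1A, hb10, hwb1, rfl⟩ := hq
    obtain ⟨z, c, hc, hzc⟩ := hC.val b1 (hAR _ hb1A) hwb1 hb10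
    have ha0 : a ≠ 0 := fun h0 => hq0 (by rw [h0, zero_div])
    obtain ⟨n, A', hA'V, hA'w, hae⟩ := exists_expansion hT h.nonarch hle h.eqV hf h.f_lt h.f_w ha
    -- some coefficient has the same `w`
    have hex : ∃ i, w (A' i) = w a := by
      by_contra hcon
      push Not at hcon
      have hlt : ∀ i, w (A' i * f ^ i) < w a := fun i => by
        rw [map_mul, map_pow, h.f_w, one_pow, mul_one]
        exact lt_of_le_of_ne (hA'w i) (hcon i)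
      have : ∀ s : Finset ℕ, w (∑ i ∈ s, A' i * f ^ i) < w a := by
        intro s
        induction s using Finset.induction_on with
        | empty => rw [Finset.sum_empty, map_zero]; exact w.pos ha0
        | insert i s hi ih =>
          rw [Finset.sum_insert hi]
          exact (h.nonarch _ _).trans_lt (max_lt (hlt i) ih)
      have h1 := this (Finset.range n)
      rw [← hae] at h1
      exact lt_irrefl _ h1
    obtain ⟨i, hi⟩ := hex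
    have hAi0 : A' i ≠ 0 := by
      intro h0
      rw [h0, map_zero] at hi
      exact (w.pos ha0).ne hi
    obtain ⟨z1, c1, hc1, hzc1⟩ := hC.val (A' i) (h.V_le _ (hA'V i)) (h.eqV _ (hA'V i)) hAi0
    refine ⟨z1 + -z, c1 * c⁻¹, mul_ne_zero hc1 (inv_ne_zero hc), ?_⟩
    rw [← r1_mon_mul hene, ← r1_mon_inv, norm_mul, norm_inv, ← hzc1, ← hzc, map_div₀, hwb1,
      ← hi, h.eqV _ (hA'V i), div_eq_mul_inv]

end DA
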