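import Pool.Agent.Lib.DA.S1
import Pool.Agent.Lib.DA.H1a

/-!
# Module R2: charts are unramified over `Pt`
-/

namespace DA

open Polynomial MP1a953e

private theorem r2_lt_add {L : Type*} [NormedField L] [IsUltrametricDist L] {x y : L} (hx : ‖x‖ < 1)
    (hy : ‖y‖ < 1) : ‖x + y‖ < 1 :=
  lt_of_le_of_lt (IsUltrametricDist.norm_add_le_max x y) (max_lt hx hy)

private theorem r2_lt_mul {L : Type*} [NormedField L] {x y : L} (hx : ‖x‖ ≤ 1) (hy : ‖y‖ < 1) :
    ‖x * y‖ < 1 := by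
  rw [norm_mul]
  calc ‖x‖ * ‖y‖ ≤ 1 * ‖y‖ := mul_le_mul_of_nonneg_right hx (norm_nonneg _)
    _ < 1 := by rw [one_mul]; exact hy

private theorem r2_sum_lt {L ι : Type*} [NormedField L] [IsUltrametricDist L] (s : Finset ι)
    (f : ι → L) (hf : ∀ i ∈ s, ‖f i‖ < 1) : ‖∑ i ∈ s, f i‖ < 1 := by
  classical
  induction s using Finset.induction_on with
  | empty => simp
  | insert a s ha ih =>
    rw [Finset.sum_insert ha]
    exact r2_lt_add (hf a (Finset.mem_insert_self _ _)) (ih fun i hi => hf i (Finset.mem_insert_of_mem hi))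

section noeth

variable {k L : Type*} [NormedField k] [IsUltrametricDist k] [NormedField L]
  [IsUltrametricDist L] [NormedAlgebra k L]

private theorem r2_alg (c : O k) : (algebraMap (O k) L c : L) = algebraMap k L (c : k) := rfl

/-- the reduction of a finitely generated algebra is noetherian -/
private theorem r2_noeth_quot (A : Type*) [CommRing A] [Algebra (O k) A] [Algebra.FiniteType (O k) A] :
    IsNoetherianRing (A ⧸ (IsLocalRing.maximalIdeal (O k)).map (algebraMap (O k) A)) := by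
  set J := (IsLocalRing.maximalIdeal (O k)).map (algebraMap (O k) A) with hJ
  obtain ⟨n, φ, hφ⟩ := Algebra.FiniteType.iff_quotient_mvPolynomial''.1 (inferInstance : Algebra.FiniteType (O k) A)
  let f : IsLocalRing.ResidueField (O k) →+* A ⧸ J :=
    Ideal.Quotient.lift (IsLocalRing.maximalIdeal (O k))
      ((Ideal.Quotient.mk J).comp (algebraMap (O k) A)) (by
        intro a ha
        rw [RingHom.comp_apply, Ideal.Quotient.eq_zero_iff_mem]
        exact Ideal.mem_map_of_mem _ ha)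
  let ψ : MvPolynomial (Fin n) (IsLocalRing.ResidueField (O k)) →+* A ⧸ J :=
    MvPolynomial.eval₂Hom f fun i => Ideal.Quotient.mk J (φ (MvPolynomial.X i))
  have hψ : ∀ P : MvPolynomial (Fin n) (O k),
      ψ (MvPolynomial.map (IsLocalRing.residue (O k)) P) = Ideal.Quotient.mk J (φ P) := by
    intro P
    have h1 : ψ.comp (MvPolynomial.map (IsLocalRing.residue (O k))) =
        (Ideal.Quotient.mk J).comp φ.toRingHom := by
      apply MvPolynomial.ringHom_ext
      · intro c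
        simp only [RingHom.comp_apply, MvPolynomial.map_C, ψ, MvPolynomial.coe_eval₂Hom, MvPolynomial.eval₂_C]
        have h2 : φ.toRingHom (MvPolynomial.C c) = algebraMap (O k) A c := φ.commutes c
        rw [h2]
        rfl
      · intro i
        simp only [RingHom.comp_apply, MvPolynomial.map_X, ψ, MvPolynomial.coe_eval₂Hom, MvPolynomial.eval₂_X]
        rfl
    exact congrArg (fun g => g P) h1
  refine isNoetherianRing_of_surjective _ _ ψ ?_
  intro x
  obtain ⟨a, rfl⟩ := Ideal.Quotient.mk_surjective x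
  obtain ⟨P, rfl⟩ := hφ a
  exact ⟨_, hψ P⟩

/-- elements of the ideal generated by the maximal ideal of `O k` -/
private theorem r2_mem_map {A : Subalgebra (O k) L} {x : A}
    (hx : x ∈ (IsLocalRing.maximalIdeal (O k)).map (algebraMap (O k) A)) :
    ∃ (c : k) (b : A), ‖c‖ < 1 ∧ (x : L) = algebraMap k L c * (b : L) := by
  have key : ∀ c c' : k, ∀ b b' : A, ‖c‖ < 1 → ‖c'‖ < 1 → ‖c'‖ ≤ ‖c‖ →
      ∃ (c'' : k) (b'' : A), ‖c''‖ < 1 ∧
        algebraMap k L c * (b : L) + algebraMap k L c' * (b' : L) = algebraMap k L c'' * (b'' : L) := by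
    intro c c' b b' hc hc' hcc
    by_cases h0 : c = 0
    · have h0' : c' = 0 := by
        rw [h0, norm_zero] at hcc
        exact norm_le_zero_iff.1 hcc
      exact ⟨0, 0, by simp, by simp [h0, h0']⟩
    · refine ⟨c, b + algebraMap (O k) A ⟨c' / c, mem_O.2 ?_⟩ * b', hc, ?_⟩
      · rw [norm_div]
        exact div_le_one_of_le₀ hcc (norm_nonneg _)
      · have h1 : ((b + algebraMap (O k) A ⟨c' / c, mem_O.2 (by
            rw [norm_div]
            exact div_le_one_of_le₀ hcc (norm_nonneg _))⟩ * b' : A) : L) =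
            (b : L) + algebraMap k L (c' / c) * (b' : L) := rfl
        rw [h1, map_div₀]
        have h2 : algebraMap k L c ≠ 0 := (_root_.map_ne_zero _).2 h0
        field_simp
  rw [Ideal.map] at hx
  induction hx using Submodule.span_induction with
  | mem x hx =>
    obtain ⟨c, hc, rfl⟩ := hx
    refine ⟨c, 1, ?_, ?_⟩
    · have h1 := (IsLocalRing.mem_maximalIdeal _).1 hc
      rw [mem_nonunits_iff, isUnit_O_iff] at h1
      exact lt_of_le_of_ne (mem_O.1 c.2) h1
    · rw [Subalgebra.coe_one, mul_one]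
      rfl
  | zero => exact ⟨0, 0, by simp, by simp⟩
  | add x y _ _ hx hy =>
    obtain ⟨c, b, hc, hxb⟩ := hx
    obtain ⟨c', b', hc', hyb⟩ := hy
    rcases le_total ‖c'‖ ‖c‖ with h | h
    · obtain ⟨c'', b'', h1, h2⟩ := key c c' b b' hc hc' h
      exact ⟨c'', b'', h1, by rw [Subalgebra.coe_add, hxb, hyb, h2]⟩
    · obtain ⟨c'', b'', h1, h2⟩ := key c' c b' b hc' hc h
      exact ⟨c'', b'', h1, by rw [Subalgebra.coe_add, hxb, hyb, add_comm, h2]⟩
  | smul a x _ hx =>
    obtain ⟨c, b, hc, hxb⟩ := hx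
    refine ⟨c, a * b, hc, ?_⟩
    rw [smul_eq_mul, Subalgebra.coe_mul, hxb, Subalgebra.coe_mul]
    ring

/-- the ideal of elements of norm `< 1` is finitely generated up to constants of norm `< 1` -/
private theorem r2_noeth {A : Subalgebra (O k) L} (hfg : A.FG) (hA : ∀ a ∈ A, ‖a‖ ≤ 1) :
    ∃ G : Finset L, (∀ g ∈ G, g ∈ A ∧ ‖g‖ < 1) ∧ ∀ b ∈ A, ‖b‖ < 1 →
      ∃ (a : L → L) (c : k) (b' : L), (∀ g, a g ∈ A) ∧ ‖c‖ < 1 ∧ b' ∈ A ∧
        b = (∑ g ∈ G, a g * g) + algebraMap k L c * b' := by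
  classical
  have hft : Algebra.FiniteType (O k) A := A.fg_iff_finiteType.1 hfg
  have hno := r2_noeth_quot (k := k) A
  set J := (IsLocalRing.maximalIdeal (O k)).map (algebraMap (O k) A) with hJ
  let I : Ideal A :=
    { carrier := {a : A | ‖(a : L)‖ < 1}
      zero_mem' := by simp
      add_mem' := fun {a b} ha hb => r2_lt_add ha hb
      smul_mem' := fun c {x} hx => r2_lt_mul (hA c c.2) hx }
  obtain ⟨S, hS⟩ := (isNoetherianRing_iff_ideal_fg _).1 hno (I.map (Ideal.Quotient.mk J))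
  have hlift : ∀ s ∈ S, ∃ g : A, g ∈ I ∧ Ideal.Quotient.mk J g = s := by
    intro s hs
    have h1 : s ∈ I.map (Ideal.Quotient.mk J) := by
      rw [← hS]
      exact Ideal.subset_span hs
    exact (Ideal.mem_map_iff_of_surjective _ Ideal.Quotient.mk_surjective).1 h1
  choose! g hgI hgs using hlift
  refine ⟨S.image fun s => (g s : L), ?_, ?_⟩
  · intro x hx
    obtain ⟨s, hs, rfl⟩ := Finset.mem_image.1 hx
    exact ⟨(g s).2, hgI s hs⟩
  · intro b hb hb1
    have h1 : Ideal.Quotient.mk J ⟨b, hb⟩ ∈ Ideal.span (S : Set (A ⧸ J)) := by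
      rw [hS]
      exact Ideal.mem_map_of_mem _ (show (⟨b, hb⟩ : A) ∈ I from hb1)
    obtain ⟨f, -, hf⟩ := Submodule.mem_span_finset.1 h1
    have hlf : ∀ s, ∃ a : A, Ideal.Quotient.mk J a = f s := fun s => Ideal.Quotient.mk_surjective _
    choose a ha using hlf
    have h2 : (⟨b, hb⟩ : A) - ∑ s ∈ S, a s * g s ∈ J := by
      rw [← Ideal.Quotient.eq_zero_iff_mem, map_sub, map_sum, ← hf, sub_eq_zero]
      refine Finset.sum_congr rfl fun s hs => ?_
      rw [map_mul, ha, hgs s hs, smul_eq_mul]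
    obtain ⟨c, b', hc, hcb⟩ := r2_mem_map h2
    -- group the terms with the same value
    refine ⟨fun x => ((∑ s ∈ S.filter (fun s => (g s : L) = x), a s : A) : L), c, b',
      fun x => Subtype.mem _, hc, b'.2, ?_⟩
    have h3 : (∑ x ∈ S.image (fun s => (g s : L)),
        ((∑ s ∈ S.filter (fun s => (g s : L) = x), a s : A) : L) * x) =
        ∑ s ∈ S, (a s : L) * (g s : L) := by
      have h4 : ∀ x ∈ S.image (fun s => (g s : L)),
          ((∑ s ∈ S.filter (fun s => (g s : L) = x), a s : A) : L) * x =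
          ∑ s ∈ S.filter (fun s => (g s : L) = x), (a s : L) * (g s : L) := by
        intro x _
        rw [AddSubmonoidClass.coe_finset_sum, Finset.sum_mul]
        refine Finset.sum_congr rfl fun s hs => ?_
        rw [(Finset.mem_filter.1 hs).2]
      rw [Finset.sum_congr rfl h4]
      exact Finset.sum_fiberwise_of_maps_to (fun s hs => Finset.mem_image_of_mem _ hs) _
    rw [h3, ← hcb]
    have h5 : (((⟨b, hb⟩ : A) - ∑ s ∈ S, a s * g s : A) : L) = b - ∑ s ∈ S, (a s : L) * (g s : L) := by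
      push_cast
      rfl
    rw [h5]
    ring

/-- `s * z` is a combination of elements of norm `< 1` of `P` -/
private def R2U (P B : Subalgebra (O k) L) (z : L) : Prop :=
  ∃ s ∈ B, ‖s‖ = 1 ∧ ∃ (n : ℕ) (x y : Fin n → L), (∀ i, x i ∈ P ∧ ‖x i‖ < 1 ∧ y i ∈ B) ∧
    s * z = ∑ i, x i * y i

private theorem R2U.add {P B : Subalgebra (O k) L} {z z' : L} (h : R2U P B z) (h' : R2U P B z') :
    R2U P B (z + z') := by
  obtain ⟨s, hs, hs1, n, x, y, hxy, hz⟩ := h
  obtain ⟨s', hs', hs1', n', x', y', hxy', hz'⟩ := h'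
  refine ⟨s * s', mul_mem hs hs', by rw [norm_mul, hs1, hs1', one_mul], n + n', Fin.append x x',
    Fin.append (fun i => s' * y i) (fun i => s * y' i), fun i => ?_, ?_⟩
  · refine Fin.addCases (fun i => ?_) (fun i => ?_) i
    · rw [Fin.append_left, Fin.append_left]
      exact ⟨(hxy i).1, (hxy i).2.1, mul_mem hs' (hxy i).2.2⟩
    · rw [Fin.append_right, Fin.append_right]
      exact ⟨(hxy' i).1, (hxy' i).2.1, mul_mem hs (hxy' i).2.2⟩
  · rw [Fin.sum_univ_add]
    simp only [Fin.append_left, Fin.append_right]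
    have h1 : ∑ i, x i * (s' * y i) = s' * ∑ i, x i * y i := by
      rw [Finset.mul_sum]; exact Finset.sum_congr rfl fun i _ => by ring
    have h2 : ∑ i, x' i * (s * y' i) = s * ∑ i, x' i * y' i := by
      rw [Finset.mul_sum]; exact Finset.sum_congr rfl fun i _ => by ring
    rw [h1, h2, ← hz, ← hz']
    ring

private theorem R2U.mul {P B : Subalgebra (O k) L} {z b : L} (h : R2U P B z) (hb : b ∈ B) :
    R2U P B (b * z) := by
  obtain ⟨s, hs, hs1, n, x, y, hxy, hz⟩ := h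
  refine ⟨s, hs, hs1, n, x, fun i => b * y i,
    fun i => ⟨(hxy i).1, (hxy i).2.1, B.mul_mem hb (hxy i).2.2⟩, ?_⟩
  rw [show s * (b * z) = b * (s * z) by ring, hz, Finset.mul_sum]
  exact Finset.sum_congr rfl fun i _ => by ring

private theorem R2U.of_mem {P B : Subalgebra (O k) L} {x y : L} (hx : x ∈ P) (hx1 : ‖x‖ < 1)
    (hy : y ∈ B) : R2U P B (x * y) :=
  ⟨1, one_mem B, norm_one, 1, fun _ => x, fun _ => y, fun _ => ⟨hx, hx1, hy⟩, by simp⟩

private theorem R2U.zero {P B : Subalgebra (O k) L} : R2U P B (0 : L) :=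
  ⟨1, one_mem B, norm_one, 0, fun _ => 0, fun _ => 0, fun i => i.elim0, by simp⟩

private theorem R2U.sum {P B : Subalgebra (O k) L} {ι : Type*} (s : Finset ι) (f : ι → L)
    (h : ∀ i ∈ s, R2U P B (f i)) : R2U P B (∑ i ∈ s, f i) := by
  classical
  induction s using Finset.induction_on with
  | empty => simpa using R2U.zero
  | insert a s ha ih =>
    rw [Finset.sum_insert ha]
    exact (h a (Finset.mem_insert_self _ _)).add (ih fun i hi => h i (Finset.mem_insert_of_mem hi))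

/-- elements of an algebra generated by the `t i` and `G` -/
private theorem r2_split {r : ℕ} (t : Fin r → L) (G : Set L) {x : L}
    (hx : x ∈ Algebra.adjoin (O k) (Set.range t ∪ G)) :
    ∃ x₀ ∈ Algebra.adjoin (O k) G, ∃ y : Fin r → L,
      (∀ i, y i ∈ Algebra.adjoin (O k) (Set.range t ∪ G)) ∧ x = x₀ + ∑ i, t i * y i := by
  classical
  have hle : Algebra.adjoin (O k) G ≤ Algebra.adjoin (O k) (Set.range t ∪ G) :=
    Algebra.adjoin_mono Set.subset_union_right
  induction hx using Algebra.adjoin_induction with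
  | mem x hx =>
    rcases hx with ⟨i, rfl⟩ | hx
    · refine ⟨0, zero_mem _, Pi.single i 1, fun j => ?_, ?_⟩
      · by_cases hij : j = i
        · subst hij
          rw [Pi.single_eq_same]; exact one_mem _
        · rw [Pi.single_eq_of_ne hij]; exact zero_mem _
      · rw [Finset.sum_eq_single i, Pi.single_eq_same]
        · ring
        · intro j _ hj
          rw [Pi.single_eq_of_ne hj, mul_zero]
        · intro hi
          exact absurd (Finset.mem_univ i) hi
    · exact ⟨x, Algebra.subset_adjoin hx, fun _ => 0, fun _ => zero_mem _, by simp⟩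
  | algebraMap c => exact ⟨_, Subalgebra.algebraMap_mem _ c, fun _ => 0, fun _ => zero_mem _, by simp⟩
  | add x y _ _ hx hy =>
    obtain ⟨x₀, hx₀, a, ha, hxa⟩ := hx
    obtain ⟨y₀, hy₀, b, hb, hyb⟩ := hy
    refine ⟨x₀ + y₀, add_mem hx₀ hy₀, fun i => a i + b i, fun i => add_mem (ha i) (hb i), ?_⟩
    have h1 : ∑ i, t i * (a i + b i) = (∑ i, t i * a i) + ∑ i, t i * b i := by
      rw [← Finset.sum_add_distrib]; exact Finset.sum_congr rfl fun i _ => by ring
    rw [h1]
    conv_lhs => rw [hxa, hyb]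
    ring
  | mul x y hx' hy' hx hy =>
    obtain ⟨x₀, hx₀, a, ha, hxa⟩ := hx
    obtain ⟨y₀, hy₀, b, hb, hyb⟩ := hy
    refine ⟨x₀ * y₀, mul_mem hx₀ hy₀, fun i => a i * y + x₀ * b i,
      fun i => add_mem (mul_mem (ha i) hy') (mul_mem (hle hx₀) (hb i)), ?_⟩
    have h1 : ∑ i, t i * (a i * y + x₀ * b i) = (∑ i, t i * a i) * y + x₀ * ∑ i, t i * b i := by
      rw [Finset.sum_mul, Finset.mul_sum, ← Finset.sum_add_distrib]
      exact Finset.sum_congr rfl fun i _ => by ring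
    rw [h1]
    have h2 : ∑ i, t i * a i = x - x₀ := by rw [hxa]; ring
    have h3 : ∑ i, t i * b i = y - y₀ := by
      have : y₀ + ∑ i, t i * b i = y := hyb.symm
      rw [← this]; ring
    rw [h2, h3]
    ring

end noeth

section main

variable {k L : Type*} [NormedField k] [IsUltrametricDist k] [NormedField L]
  [IsUltrametricDist L] [NormedAlgebra k L] {M : IntermediateField k L} {R : Subring L}
  {w : AbsoluteValue L ℝ} {r m : ℕ} {e : Fin r → L} {u : Fin m → L} {α h : L}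

private theorem r2_A1 (hR : RWd M R w) (hC : Cor k R w e u α h) :
    ∀ x ∈ A1 k u α, x ∈ R ∧ w x ≤ 1 := by
  intro x hx
  unfold A1 at hx
  induction hx using Algebra.adjoin_induction with
  | mem x hx =>
    rcases hx with ⟨i, rfl⟩ | hx
    · exact ⟨hC.u_mem i, hC.u_w i⟩
    · rw [Set.mem_singleton_iff] at hx
      rw [hx]
      exact ⟨hC.α_mem, hC.α_w⟩
  | algebraMap c =>
    rw [r2_alg]
    refine ⟨hR.M_le _ (M.algebraMap_mem _), ?_⟩
    rw [hR.eq_M (M.algebraMap_mem _), norm_algebraMap']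
    exact mem_O.1 c.2
  | add x y _ _ hx hy =>
    exact ⟨R.add_mem hx.1 hy.1, (hR.nonarch _ _).trans (max_le hx.2 hy.2)⟩
  | mul x y _ _ hx hy =>
    refine ⟨R.mul_mem hx.1 hy.1, ?_⟩
    rw [map_mul]
    exact mul_le_one₀ hx.2 (w.nonneg _) hy.2

private theorem r2_MBG (hR : RWd M R w) (hC : Cor k R w e u α h) {G : Set L}
    (hG : ∀ g ∈ G, g ∈ R ∧ w g ≤ 1) :
    ∀ x ∈ MBG k e G, x ∈ R ∧ w x ≤ 1 := by
  intro x hx
  unfold MBG at hx
  induction hx using Algebra.adjoin_induction with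
  | mem x hx =>
    rcases hx with ⟨z, c, rfl, hx⟩ | hx
    · obtain ⟨h1, h2, -⟩ := Cor.mon_mem hR hC le_rfl z c hx
      exact ⟨h1, by rw [h2]; exact hx⟩
    · exact hG x hx
  | algebraMap c =>
    rw [r2_alg]
    refine ⟨hR.M_le _ (M.algebraMap_mem _), ?_⟩
    rw [hR.eq_M (M.algebraMap_mem _), norm_algebraMap']
    exact mem_O.1 c.2
  | add x y _ _ hx hy =>
    exact ⟨R.add_mem hx.1 hy.1, (hR.nonarch _ _).trans (max_le hx.2 hy.2)⟩
  | mul x y _ _ hx hy =>
    refine ⟨R.mul_mem hx.1 hy.1, ?_⟩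
    rw [map_mul]
    exact mul_le_one₀ hx.2 (w.nonneg _) hy.2

omit [IsUltrametricDist L] in
private theorem r2_fine_mono {c : Fin r → k} {π : k} {δ δ' : ℝ} (hf : Fine k e c π δ) (hδ : δ' ≤ δ) :
    Fine k e c π δ' :=
  ⟨hf.c_ne, hf.π_ne, fun i => hδ.trans_lt (hf.lo i), hf.hi⟩

/-- one element of the unit ball of norm `< 1` -/
private theorem r2_one (hR : RWd M R w) (hC : Cor k R w e u α h) {G : Set L}
    (hloc : ∀ q ∈ R, w q ≤ 1 →
      ∃ a ∈ MBG k e G, ∃ b ∈ MBG k e G, ‖b‖ = 1 ∧ q = a / b)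
    (hval : ∀ q ∈ R, q ≠ 0 → ∃ (z : Fin r → ℤ) (c : k), c ≠ 0 ∧ w q = ‖mon k e z c‖)
    {g : L} (hg : g ∈ R) (hgw : w g ≤ 1) (hg1 : ‖g‖ < 1) :
    ∃ δ : ℝ, 0 < δ ∧ δ < 1 ∧ ∀ (c : Fin r → k) (π : k), Fine k e c π δ →
      R2U (Pt k e c π u α) (BG k e c π G) g := by
  obtain ⟨y, hy, hyw, hρ⟩ := hC.unif g hg hgw hg1
  have hh := Cor.h_w hR hC
  -- the remainder
  obtain ⟨z, c, q, hz, hq, hqw, hzq⟩ : ∃ (z : Fin r → ℤ) (c : k) (q : L), ‖mon k e z c‖ < 1 ∧ q ∈ R ∧
      w q ≤ 1 ∧ g - h * y = mon k e z c * q := by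
    by_cases h0 : g - h * y = 0
    · refine ⟨0, 0, 0, ?_, zero_mem R, by rw [map_zero]; exact zero_le_one, ?_⟩
      · unfold mon; simp
      · rw [h0]; unfold mon; simp
    · obtain ⟨z, c, hc, hwz⟩ := hval _ (sub_mem hg (mul_mem hh.1 hy)) h0
      have hz1 : ‖mon k e z c‖ < 1 := by rw [← hwz]; exact hρ
      obtain ⟨h1, h2, -⟩ := Cor.mon_mem hR hC le_rfl z c hz1.le
      have h3 : mon k e z c ≠ 0 := by
        intro h3
        rw [h3, norm_zero] at hwz
        exact h0 ((map_eq_zero w).1 hwz)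
      refine ⟨z, c, (mon k e z c)⁻¹ * (g - h * y), hz1,
        mul_mem (hR.inv _ h1 h2) (sub_mem hg (mul_mem hh.1 hy)), ?_, ?_⟩
      · rw [map_mul, map_inv₀, h2, ← hwz, inv_mul_cancel₀]
        rw [hwz]
        exact norm_ne_zero_iff.2 h3
      · rw [mul_inv_cancel_left₀ h3]
  obtain ⟨a₁, ha₁, b₁, hb₁, hb₁1, hy'⟩ := hloc y hy hyw
  obtain ⟨a₂, ha₂, b₂, hb₂, hb₂1, hq'⟩ := hloc q hq hqw
  have hne := hC.eu.ne
  have hind := hC.eu.ind
  obtain ⟨δ₁, h10, h11, H1⟩ := mem_BG_of_mem_MBG hne hind ha₁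
  obtain ⟨δ₂, h20, h21, H2⟩ := mem_BG_of_mem_MBG hne hind hb₁
  obtain ⟨δ₃, h30, h31, H3⟩ := mem_BG_of_mem_MBG hne hind ha₂
  obtain ⟨δ₄, h40, h41, H4⟩ := mem_BG_of_mem_MBG hne hind hb₂
  obtain ⟨δ₅, h50, h51, H5⟩ := mon_mem_tor hne hind z c hz.le
  refine ⟨max δ₁ (max δ₂ (max δ₃ (max δ₄ δ₅))), lt_max_of_lt_left h10,
    max_lt h11 (max_lt h21 (max_lt h31 (max_lt h41 h51))), fun c' π hf => ?_⟩
  have k1 := H1 c' π (r2_fine_mono hf (le_max_left _ _))
  have k2 := H2 c' π (r2_fine_mono hf ((le_max_left _ _).trans (le_max_right _ _)))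
  have k3 := H3 c' π (r2_fine_mono hf ((le_max_left _ _).trans ((le_max_right _ _).trans (le_max_right _ _))))
  have k4 := H4 c' π (r2_fine_mono hf ((le_max_left _ _).trans ((le_max_right _ _).trans
    ((le_max_right _ _).trans (le_max_right _ _)))))
  have k5 := H5 c' π (r2_fine_mono hf ((le_max_right _ _).trans ((le_max_right _ _).trans
    ((le_max_right _ _).trans (le_max_right _ _)))))
  have hTP : Tt k e c' π ≤ Pt k e c' π u α := Algebra.adjoin_mono Set.subset_union_left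
  have hAP : A1 k u α ≤ Pt k e c' π u α := Algebra.adjoin_mono Set.subset_union_right
  have hb₁0 : b₁ ≠ 0 := by intro h0; rw [h0, norm_zero] at hb₁1; exact zero_ne_one hb₁1
  have hb₂0 : b₂ ≠ 0 := by intro h0; rw [h0, norm_zero] at hb₂1; exact zero_ne_one hb₂1
  refine ⟨b₁ * b₂, mul_mem k2 k4, by rw [norm_mul, hb₁1, hb₂1, one_mul], 2, ![h, mon k e z c],
    ![a₁ * b₂, a₂ * b₁], fun i => ?_, ?_⟩
  · fin_cases i
    · exact ⟨hAP hC.h_mem, hC.h_lt, mul_mem k1 k4⟩
    · exact ⟨hTP k5, hz, mul_mem k3 k2⟩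
  · rw [Fin.sum_univ_two]
    simp only [Matrix.cons_val_zero, Matrix.cons_val_one]
    have h6 : g = h * (a₁ / b₁) + mon k e z c * (a₂ / b₂) := by
      rw [← hy', ← hq', ← hzq]; ring
    rw [h6]
    field_simp

/-- finitely many elements of the unit ball of norm `< 1` -/
private theorem r2_fin (hR : RWd M R w) (hC : Cor k R w e u α h) {G : Set L}
    (hloc : ∀ q ∈ R, w q ≤ 1 →
      ∃ a ∈ MBG k e G, ∃ b ∈ MBG k e G, ‖b‖ = 1 ∧ q = a / b)
    (hval : ∀ q ∈ R, q ≠ 0 → ∃ (z : Fin r → ℤ) (c : k), c ≠ 0 ∧ w q = ‖mon k e z c‖)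
    (S : Finset L) (hS : ∀ g ∈ S, g ∈ R ∧ w g ≤ 1 ∧ ‖g‖ < 1) :
    ∃ δ : ℝ, 0 < δ ∧ δ < 1 ∧ ∀ (c : Fin r → k) (π : k), Fine k e c π δ →
      ∀ g ∈ S, R2U (Pt k e c π u α) (BG k e c π G) g := by
  classical
  induction S using Finset.induction_on with
  | empty => exact ⟨1 / 2, by norm_num, by norm_num, fun c π _ g hg => absurd hg (Finset.notMem_empty g)⟩
  | insert a S ha ih =>
    obtain ⟨δ₁, h10, h11, H1⟩ := ih fun g hg => hS g (Finset.mem_insert_of_mem hg)
    obtain ⟨haR, haw, ha1⟩ := hS a (Finset.mem_insert_self _ _)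
    obtain ⟨δ₂, h20, h21, H2⟩ := r2_one hR hC hloc hval haR haw ha1
    refine ⟨max δ₁ δ₂, lt_max_of_lt_left h10, max_lt h11 h21, fun c π hf g hg => ?_⟩
    rcases Finset.mem_insert.1 hg with rfl | hg
    · exact H2 c π (r2_fine_mono hf (le_max_right _ _))
    · exact H1 c π (r2_fine_mono hf (le_max_left _ _)) g hg

end main

/-- R2.  Notation: `R₁ = {q ∈ R : w q ≤ 1}`.  Proof.  Let `φ : MvPolynomial G (O k) → L` be the evaluation
`X_g ↦ g` (values in `R₁`) and `φ̃ : MvPolynomial G κ_k → κ_L` the corresponding homomorphism for the residue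
fields. Its kernel is finitely generated (Hilbert's basis theorem) by `F̃ 1, …, F̃ l`; lift them to
`F i ∈ MvPolynomial G (O k)`, `g i = φ (F i)`, `‖g i‖ < 1`. `Cor.unif`: `g i = h y i + ρ i`, `y i ∈ R₁`,
`w (ρ i) < 1`; `ρ i = μ i q i` with a monomial `μ i = mon k e z c`, `‖μ i‖ = w (ρ i) < 1`, `q i ∈ R₁` (`hval`; if
`ρ i = 0` take `μ i = q i = 0`). `y i = a i / s`, `q i = b i / s` with `a i, b i, s ∈ MBG k e G`, `‖s‖ = 1` (`hloc`,
common denominator). So `s g i = h a i + μ i b i`. Choose `δ` such that for `Fine k e c π δ`: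
`a i, b i, s ∈ B = BG k e c π G` (S1c), `μ i ∈ Tt k e c π` (S1b). `Cht`: `le` because `u i, α ∈ G`;
`norm_le`: `B ≤ MBG k e G`, whose elements are in `R₁`; `res`: `Cor.res`, `A1 ≤ Pt`. `unr`: let `b ∈ B`,
`‖b‖ < 1`. `b = φ F + ∑ t i b' i` with `F ∈ MvPolynomial G (O k)`, `b' i ∈ B`, `t i` the toric coordinates
(adjoin induction). `‖φ F‖ < 1`, so `F̃ ∈ ker φ̃` and `F = ∑ C i F i + E` where all coefficients of `E` have
norm `< 1`, so `φ E = c₀ b''` with `c₀ ∈ k`, `‖c₀‖ < 1`, `b'' ∈ B` (`c₀` a coefficient of maximal norm). So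
`s b = h * (∑ φ (C i) a i) + ∑ μ i * (φ (C i) b i) + c₀ * (s b'') + ∑ t i * (s b' i)`, and
`h, μ i, c₀, t i ∈ Pt k e c π u α` have norm `< 1`. -/
theorem cht_of_fine {k L : Type*} [NontriviallyNormedField k] [IsUltrametricDist k]
    [NormedField L] [IsUltrametricDist L] [NormedAlgebra k L] {M : IntermediateField k L}
    {R : Subring L} {w : AbsoluteValue L ℝ} {r m : ℕ} {e : Fin r → L} {u : Fin m → L}
    {α h : L} (hR : RWd M R w) (hC : Cor k R w e u α h)
    (htrans : Transcendental (keu k e u) α) {G : Finset L} (hG : ∀ g ∈ G, g ∈ R ∧ w g ≤ 1)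
    (huG : ∀ i, u i ∈ G) (hαG : α ∈ G)
    (hloc : ∀ q ∈ R, w q ≤ 1 →
      ∃ a ∈ MBG k e (G : Set L), ∃ b ∈ MBG k e (G : Set L), ‖b‖ = 1 ∧ q = a / b)
    (hval : ∀ q ∈ R, q ≠ 0 → ∃ (z : Fin r → ℤ) (c : k), c ≠ 0 ∧ w q = ‖mon k e z c‖) :
    ∃ δ : ℝ, 0 < δ ∧ δ < 1 ∧ ∀ (c : Fin r → k) (π : k), Fine k e c π δ →
      Cht k e c π u α (BG k e c π (G : Set L)) := by
  classical
  have hMB := r2_MBG hR hC (G := (G : Set L)) (fun g hg => hG g hg)
  have hAM : Algebra.adjoin (O k) (G : Set L) ≤ MBG k e (G : Set L) :=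
    Algebra.adjoin_mono Set.subset_union_right
  obtain ⟨S, hS, hSb⟩ := r2_noeth (k := k) (A := Algebra.adjoin (O k) (G : Set L)) ⟨G, rfl⟩
    (fun a ha => (hR.le a (hMB a (hAM ha)).1).trans (hMB a (hAM ha)).2)
  obtain ⟨δ, hδ0, hδ1, H⟩ := r2_fin hR hC hloc hval S (fun g hg =>
    ⟨(hMB g (hAM (hS g hg).1)).1, (hMB g (hAM (hS g hg).1)).2, (hS g hg).2⟩)
  refine ⟨δ, hδ0, hδ1, fun c π hf => ?_⟩
  have hBM : BG k e c π (G : Set L) ≤ MBG k e (G : Set L) := BG_le_MBG hf _
  have hAP : A1 k u α ≤ Pt k e c π u α := Algebra.adjoin_mono Set.subset_union_right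
  have hAB : Algebra.adjoin (O k) (G : Set L) ≤ BG k e c π (G : Set L) :=
    Algebra.adjoin_mono Set.subset_union_right
  have htP : ∀ i, tor k e c π i ∈ Pt k e c π u α := fun i =>
    Algebra.subset_adjoin (Or.inl (Set.mem_range_self i))
  have hnorm : ∀ b ∈ BG k e c π (G : Set L), ‖b‖ ≤ 1 := fun b hb =>
    (hR.le b (hMB b (hBM hb)).1).trans (hMB b (hBM hb)).2
  exact
    { eu := hC.eu
      trans := htrans
      c_ne := hf.c_ne
      π_ne := hf.π_ne
      t_lt := hf.hi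
      le := by
        refine Algebra.adjoin_mono (Set.union_subset_union_right _ ?_)
        rintro x (⟨i, rfl⟩ | hx)
        · exact huG i
        · rw [Set.mem_singleton_iff] at hx
          rw [hx]
          exact hαG
      fg := Subalgebra.fg_def.2 ⟨_, (Set.finite_range _).union G.finite_toSet, rfl⟩
      norm_le := hnorm
      res := by
        intro b hb
        obtain ⟨hbR, hbw⟩ := hMB b (hBM hb)
        obtain ⟨a, ha, s, hs, hs1, hlt⟩ := hC.res b hbR hbw
        refine ⟨a, hAP ha, s, hAP hs, hs1, ?_⟩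
        have hs0 : s ≠ 0 := by intro h0; rw [h0, norm_zero] at hs1; exact zero_ne_one hs1
        have h1 : s * b - a = s * (b - a / s) := by field_simp
        rw [h1]
        exact r2_lt_mul hs1.le hlt
      unr := by
        intro b hb hb1
        obtain ⟨b₀, hb₀, y, hy, hby⟩ := r2_split (k := k) (tor k e c π) (G : Set L) hb
        have hsum : ‖∑ i, tor k e c π i * y i‖ < 1 := by
          refine r2_sum_lt _ _ fun i _ => ?_
          rw [mul_comm]
          exact r2_lt_mul (hnorm _ (hy i)) (hf.hi i)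
        have hb₀1 : ‖b₀‖ < 1 := by
          have h1 : b₀ = b + -(∑ i, tor k e c π i * y i) := by rw [hby]; ring
          rw [h1]
          exact r2_lt_add hb1 (by rw [norm_neg]; exact hsum)
        obtain ⟨a, c₀, b', ha, hc₀, hb', hb₀e⟩ := hSb b₀ hb₀ hb₀1
        have hU : R2U (Pt k e c π u α) (BG k e c π (G : Set L)) b := by
          rw [hby, hb₀e]
          refine R2U.add (R2U.add (R2U.sum _ _ fun g hg => (H c π hf g hg).mul (hAB (ha g))) ?_)
            (R2U.sum _ _ fun i _ => R2U.of_mem (htP i) (hf.hi i) (hy i))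
          refine R2U.of_mem ?_ ?_ (hAB hb')
          · exact (Pt k e c π u α).algebraMap_mem ⟨c₀, mem_O.2 hc₀.le⟩
          · rw [norm_algebraMap']
            exact hc₀
        exact hU }

end DA
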