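import Pool.Agent.Lib.DA.Defs3

/-!
# Module R3a: denominators
-/

namespace DA

open Polynomial MP1a953e

section

variable {k L : Type*} [NormedField k] [NormedField L] [NormedAlgebra k L]

private theorem r3a_pow {A : Subalgebra k L} {a₀ : L} (ha₀ : a₀ ∈ A) {G : Set L}
    (hG : ∀ x ∈ G, x * a₀ ∈ A) {x : L} (hx : x ∈ Algebra.adjoin k G) :
    ∃ N : ℕ, ∀ n, N ≤ n → x * a₀ ^ n ∈ A := by
  induction hx using Algebra.adjoin_induction with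
  | mem x hx =>
    refine ⟨1, fun n hn => ?_⟩
    obtain ⟨m, rfl⟩ := Nat.exists_eq_add_of_le hn
    rw [pow_add, pow_one, ← mul_assoc]
    exact mul_mem (hG x hx) (pow_mem ha₀ m)
  | algebraMap c => exact ⟨0, fun n _ => mul_mem (A.algebraMap_mem c) (pow_mem ha₀ n)⟩
  | add x y _ _ hx hy =>
    obtain ⟨N, hN⟩ := hx
    obtain ⟨N', hN'⟩ := hy
    refine ⟨N + N', fun n hn => ?_⟩
    rw [add_mul]
    exact add_mem (hN n (by omega)) (hN' n (by omega))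
  | mul x y _ _ hx hy =>
    obtain ⟨N, hN⟩ := hx
    obtain ⟨N', hN'⟩ := hy
    refine ⟨N + N', fun n hn => ?_⟩
    obtain ⟨m, rfl⟩ := Nat.exists_eq_add_of_le hn
    have h1 : x * y * a₀ ^ (N + N' + m) = (x * a₀ ^ N) * (y * a₀ ^ (N' + m)) := by
      rw [show N + N' + m = N + (N' + m) by ring, pow_add]
      ring
    rw [h1]
    exact mul_mem (hN N le_rfl) (hN' _ (by omega))

private theorem r3a_frac (S : Set L) {x : L} (hx : x ∈ IntermediateField.adjoin k S) :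
    ∃ a ∈ Algebra.adjoin k S, ∃ b ∈ Algebra.adjoin k S, b ≠ 0 ∧ x = a / b := by
  obtain ⟨r, s, hr, hs, hxe⟩ : ∃ r s : L, r ∈ Algebra.adjoin k S ∧ s ∈ Algebra.adjoin k S ∧
      x = r / s := by
    have h1 := IntermediateField.mem_adjoin_iff_div.1 hx
    obtain ⟨r, hr, s, hs, h⟩ := h1
    exact ⟨r, s, hr, hs, h.symm ▸ rfl⟩
  by_cases h0 : s = 0
  · refine ⟨0, zero_mem _, 1, one_mem _, one_ne_zero, ?_⟩
    rw [hxe, h0]
    simp
  · exact ⟨r, hr, s, hs, h0, hxe⟩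

private theorem r3a_clo (S : Set L) (T : L) {x : L}
    (hx : x ∈ Subring.closure ((IntermediateField.adjoin k S : Set L) ∪ {T})) :
    ∃ a ∈ Algebra.adjoin k (S ∪ {T}), ∃ b ∈ Algebra.adjoin k S, b ≠ 0 ∧ x = a / b := by
  have hle : Algebra.adjoin k S ≤ Algebra.adjoin k (S ∪ {T}) :=
    Algebra.adjoin_mono Set.subset_union_left
  induction hx using Subring.closure_induction with
  | mem x hx =>
    rcases hx with hx | hx
    · obtain ⟨a, ha, b, hb, hb0, h⟩ := r3a_frac S hx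
      exact ⟨a, hle ha, b, hb, hb0, h⟩
    · refine ⟨x, Algebra.subset_adjoin (Or.inr hx), 1, one_mem _, one_ne_zero, ?_⟩
      rw [div_one]
  | zero => exact ⟨0, zero_mem _, 1, one_mem _, one_ne_zero, by simp⟩
  | one => exact ⟨1, one_mem _, 1, one_mem _, one_ne_zero, by simp⟩
  | add x y _ _ hx hy =>
    obtain ⟨a, ha, b, hb, hb0, rfl⟩ := hx
    obtain ⟨a', ha', b', hb', hb0', rfl⟩ := hy
    exact ⟨a * b' + b * a', add_mem (mul_mem ha (hle hb')) (mul_mem (hle hb) ha'), b * b',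
      mul_mem hb hb', mul_ne_zero hb0 hb0', by field_simp⟩
  | neg x _ hx =>
    obtain ⟨a, ha, b, hb, hb0, rfl⟩ := hx
    exact ⟨-a, neg_mem ha, b, hb, hb0, by ring⟩
  | mul x y _ _ hx hy =>
    obtain ⟨a, ha, b, hb, hb0, rfl⟩ := hx
    obtain ⟨a', ha', b', hb', hb0', rfl⟩ := hy
    exact ⟨a * a', mul_mem ha ha', b * b', mul_mem hb hb', mul_ne_zero hb0 hb0', by field_simp⟩

private theorem r3a_den {ι : Type*} [Fintype ι] (A : Subalgebra k L)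
    (hA : ∀ x : L, ∃ a ∈ A, ∃ b ∈ A, b ≠ 0 ∧ x = a / b) (g : ι → L) :
    ∃ a₀ ∈ A, a₀ ≠ 0 ∧ ∀ i, g i * a₀ ∈ A := by
  classical
  choose num hnum den hden hden0 heq using fun i => hA (g i)
  refine ⟨∏ i, den i, prod_mem fun i _ => hden i, Finset.prod_ne_zero_iff.2 fun i _ => hden0 i,
    fun i => ?_⟩
  rw [← Finset.mul_prod_erase _ _ (Finset.mem_univ i), ← mul_assoc]
  refine mul_mem ?_ (prod_mem fun j _ => hden j)
  have h1 : g i * den i = num i := by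
    rw [heq i, div_mul_cancel₀ _ (hden0 i)]
  rw [h1]
  exact hnum i

end

/-- R3a.  Notation `A_T = M[T]`, `M = k(e₀, u₀)`.  Proof.  The finitely many elements `e₀ i`, `u₀ i`, `T` are
fractions of elements of `A` with a common denominator `a₀`. Then for every polynomial `P` in `e₀, u₀, T` over
`k` there is `N` with `P * a₀ ^ N ∈ A`. Let `q = a / b ∈ RS A_T w`, `a, b ∈ A_T`, `w b = ‖b‖`. `a = a' / m₁`,
`b = b' / m₂` with `a', b' ∈ k[e₀, u₀, T]` and `m₁, m₂ ∈ k[e₀, u₀]` nonzero; `w = ‖·‖` on `M` (`hM`). So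
`q = (a' m₂) / (b' m₁)`, `w (b' m₁) = ‖b' m₁‖`; multiply numerator and denominator by `a₀ ^ N`:
`n = a' m₂ a₀ ^ N ∈ A`, `d = b' m₁ a₀ ^ N ∈ A`; `d ∈ RS A_T w` because `b' m₁ ∈ A_T` and `a₀ ∈ RS A_T w`. -/
theorem exists_denoms {k L : Type*} [NormedField k] [NormedField L] [NormedAlgebra k L]
    {r m : ℕ} (e₀ : Fin r → L) (u₀ : Fin m → L) (T : L) (A : Subalgebra k L)
    (hA : ∀ x : L, ∃ a ∈ A, ∃ b ∈ A, b ≠ 0 ∧ x = a / b) :
    ∃ a₀ ∈ A, a₀ ≠ 0 ∧ ∀ w : AbsoluteValue L ℝ, (∀ c ∈ keu k e₀ u₀, w c = ‖c‖) →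
      a₀ ∈ RS (Subring.closure ((keu k e₀ u₀ : Set L) ∪ {T})) w → w a₀ = ‖a₀‖ →
      ∀ q ∈ RS (Subring.closure ((keu k e₀ u₀ : Set L) ∪ {T})) w,
        ∃ n ∈ A, ∃ d ∈ A, d ≠ 0 ∧ w d = ‖d‖ ∧
          d ∈ RS (Subring.closure ((keu k e₀ u₀ : Set L) ∪ {T})) w ∧ q = n / d := by
  obtain ⟨a₀, ha₀, ha₀0, hg⟩ := r3a_den A hA
    (Sum.elim e₀ (Sum.elim u₀ (fun _ : Unit => T)))
  refine ⟨a₀, ha₀, ha₀0, fun w hw ha₀R hwa₀ q hq => ?_⟩
  have hG : ∀ x ∈ (Set.range e₀ ∪ Set.range u₀) ∪ {T}, x * a₀ ∈ A := by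
    rintro x ((⟨i, rfl⟩ | ⟨i, rfl⟩) | hx)
    · exact hg (Sum.inl i)
    · exact hg (Sum.inr (Sum.inl i))
    · rw [Set.mem_singleton_iff.1 hx]
      exact hg (Sum.inr (Sum.inr ()))
  obtain ⟨a, ha, b, hb, hb0, hwb, rfl⟩ := hq
  obtain ⟨a', ha', m₁, hm₁, hm₁0, rfl⟩ := r3a_clo _ _ ha
  have hbclo := hb
  obtain ⟨b', hb', m₂, hm₂, hm₂0, rfl⟩ := r3a_clo _ _ hb
  have hle : Algebra.adjoin k (Set.range e₀ ∪ Set.range u₀) ≤
      Algebra.adjoin k ((Set.range e₀ ∪ Set.range u₀) ∪ {T}) :=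
    Algebra.adjoin_mono Set.subset_union_left
  have hM : ∀ x ∈ Algebra.adjoin k (Set.range e₀ ∪ Set.range u₀), x ∈ keu k e₀ u₀ :=
    fun x hx => IntermediateField.algebra_adjoin_le_adjoin k _ hx
  obtain ⟨N₁, hN₁⟩ := r3a_pow ha₀ hG (mul_mem ha' (hle hm₂))
  obtain ⟨N₂, hN₂⟩ := r3a_pow ha₀ hG (mul_mem hb' (hle hm₁))
  have hb'0 : b' ≠ 0 := by
    rintro rfl
    exact hb0 (zero_div _)
  have hd0 : b' * m₁ ≠ 0 := mul_ne_zero hb'0 hm₁0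
  have hbm : b' * m₁ = b' / m₂ * (m₂ * m₁) := by field_simp
  have hwd : w (b' * m₁) = ‖b' * m₁‖ := by
    rw [hbm, map_mul, map_mul, hwb, hw _ (hM _ hm₂), hw _ (hM _ hm₁), norm_mul, norm_mul]
  have hclo : b' * m₁ ∈ Subring.closure ((keu k e₀ u₀ : Set L) ∪ {T}) := by
    rw [hbm]
    exact mul_mem hbclo (mul_mem (Subring.subset_closure (Or.inl (hM _ hm₂)))
      (Subring.subset_closure (Or.inl (hM _ hm₁))))
  have hRS : b' * m₁ ∈ RS (Subring.closure ((keu k e₀ u₀ : Set L) ∪ {T})) w :=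
    ⟨b' * m₁, hclo, 1, one_mem _, one_ne_zero, by simp, by simp⟩
  refine ⟨a' * m₂ * a₀ ^ (N₁ + N₂), hN₁ _ (by omega), b' * m₁ * a₀ ^ (N₁ + N₂),
    hN₂ _ (by omega), mul_ne_zero hd0 (pow_ne_zero _ ha₀0), ?_,
    mul_mem hRS (pow_mem ha₀R _), ?_⟩
  · rw [map_mul, map_pow, hwd, hwa₀, norm_mul (b' * m₁), norm_pow]
  · field_simp

end DA
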