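import Pool.Agent.Lib.DA.Zf
import Pool.Agent.Lib.DA.Be
import Pool.Agent.Lib.DA.D1
import Pool.Agent.Lib.DA.W5b
import Pool.Agent.Lib.DA.K7
import Pool.Agent.Lib.DA.R1
import Pool.Agent.Lib.DA.R2
import Pool.Agent.Lib.DA.R3a
import Pool.Agent.Lib.DA.R3b

/-!
# Module R3: charts for `L = k(e, u, T)`
-/

namespace DA

open Polynomial MP1a953e

universe v

private theorem r3_fg {k L : Type v} [NormedField k] [NormedField L] [NormedAlgebra k L]
    {r m : ℕ} {e : Fin r → L} {u : Fin m → L} {T : L}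
    (htop : ∀ x : L, x ∈ keuT k e u T) : (⊤ : IntermediateField k L).FG := by
  have h1 : keuT k e u T = ⊤ := eq_top_iff.2 fun x _ => htop x
  rw [← h1]
  refine IntermediateField.fg_adjoin_of_finite ?_
  exact ((Set.finite_range e).union (Set.finite_range u)).union (Set.finite_singleton T)

private theorem r3_sep {k L : Type v} [NormedField k] [NormedField L] [NormedAlgebra k L]
    {r m : ℕ} {e : Fin r → L} {u : Fin m → L} {T : L}
    (htop : ∀ x : L, x ∈ keuT k e u T) : Algebra.IsSeparable (keuT k e u T) L := by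
  refine ⟨fun x => ?_⟩
  exact isSeparable_algebraMap (⟨x, htop x⟩ : keuT k e u T)

private theorem r3_top {k L : Type v} [NormedField k] [NormedField L] [NormedAlgebra k L]
    {r m : ℕ} {e : Fin r → L} {u : Fin m → L} {T : L}
    (htop : ∀ x : L, x ∈ keuT k e u T) (x : L) :
    x ∈ IntermediateField.adjoin (keu k e u) ({T} : Set L) := by
  have heq : (IntermediateField.adjoin (keu k e u) ({T} : Set L)).restrictScalars k =
      keuT k e u T := IntermediateField.adjoin_adjoin_left _ _ _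
  have h1 := htop x
  rw [← heq] at h1
  exact h1

private theorem r3_trdeg {k L : Type v} [NormedField k] [IsUltrametricDist k] [NormedField L]
    [IsUltrametricDist L] [NormedAlgebra k L]
    {r m : ℕ} {e : Fin r → L} {u : Fin m → L} (h : EU k e u) {T : L}
    (hT : Transcendental (keu k e u) T)
    (htop : ∀ x : L, x ∈ keuT k e u T) : Algebra.trdeg k L = r + m + 1 := by
  have h1 := h.algebraicIndependent
  have hrange : Set.range (Fin.append e u) = Set.range e ∪ Set.range u := by
    ext x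
    simp only [Set.mem_range, Set.mem_union]
    constructor
    · rintro ⟨i, rfl⟩
      refine Fin.addCases (fun i => ?_) (fun i => ?_) i
      · exact Or.inl ⟨i, (Fin.append_left _ _ _).symm⟩
      · exact Or.inr ⟨i, (Fin.append_right _ _ _).symm⟩
    · rintro (⟨i, rfl⟩ | ⟨i, rfl⟩)
      · exact ⟨_, Fin.append_left _ _ i⟩
      · exact ⟨_, Fin.append_right _ _ i⟩
  have h2 : Transcendental (Algebra.adjoin k (Set.range (Fin.append e u))) T := by
    intro hal
    apply hT
    have hle : ∀ y ∈ Algebra.adjoin k (Set.range (Fin.append e u)), y ∈ keu k e u := by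
      intro y hy
      rw [hrange] at hy
      exact IntermediateField.algebra_adjoin_le_adjoin _ _ hy
    obtain ⟨P, hP0, hP⟩ := hal
    refine ⟨P.map ((Algebra.adjoin k (Set.range (Fin.append e u))).val.toRingHom.codRestrict
      (keu k e u).toSubfield.toSubring fun y => hle _ y.2), ?_, ?_⟩
    · intro h0
      apply hP0
      rw [Polynomial.ext_iff] at h0 ⊢
      intro i
      have h3 := h0 i
      rw [Polynomial.coeff_map, Polynomial.coeff_zero] at h3
      rw [Polynomial.coeff_zero]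
      have h4 := congrArg (fun y : keu k e u => (y : L)) h3
      exact Subtype.ext h4
    · rw [Polynomial.aeval_def, Polynomial.eval₂_map]
      exact hP
  have h3 := (h1.option_iff_transcendental T).2 h2
  have hr3 : Set.range (fun o : Option (Fin (r + m)) => o.elim T (Fin.append e u)) =
      Set.range e ∪ Set.range u ∪ {T} := by
    ext x
    rw [← hrange]
    simp only [Set.mem_range, Set.mem_union, Set.mem_singleton_iff, Option.exists,
      Option.elim_none, Option.elim_some]
    constructor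
    · rintro (h | h)
      · exact Or.inr h.symm
      · exact Or.inl h
    · rintro (h | h)
      · exact Or.inr h
      · exact Or.inl h.symm
  have h4 : Algebra.IsAlgebraic (IntermediateField.adjoin k
      (Set.range (fun o : Option (Fin (r + m)) => o.elim T (Fin.append e u)))) L := by
    refine ⟨fun x => ?_⟩
    have hx : x ∈ IntermediateField.adjoin k
        (Set.range (fun o : Option (Fin (r + m)) => o.elim T (Fin.append e u))) := by
      rw [hr3]
      exact htop x
    exact isAlgebraic_algebraMap (⟨x, hx⟩ : IntermediateField.adjoin k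
      (Set.range (fun o : Option (Fin (r + m)) => o.elim T (Fin.append e u))))
  have h5 := h3.isTranscendenceBasis_iff_isAlgebraic.2
    (IntermediateField.isAlgebraic_adjoin_iff_top.1 h4)
  have h6 := h5.lift_cardinalMk_eq_trdeg
  simp only [Cardinal.mk_option, Cardinal.mk_fin, Cardinal.lift_add, Cardinal.lift_natCast,
    Cardinal.lift_one, Cardinal.lift_id'] at h6
  rw [← h6]
  push_cast
  rfl

private theorem r3_fine_mono {k L : Type v} [NormedField k] [IsUltrametricDist k]
    [NormedField L] [IsUltrametricDist L] [NormedAlgebra k L] {r : ℕ} {e : Fin r → L}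
    {c : Fin r → k} {π : k} {δ δ' : ℝ} (h : Fine k e c π δ) (hδ : δ' ≤ δ) : Fine k e c π δ' :=
  ⟨h.c_ne, h.π_ne, fun i => hδ.trans_lt (h.lo i), h.hi⟩

private theorem r3_munits {k L : Type v} [NormedField k] [IsUltrametricDist k]
    [NormedField L] [IsUltrametricDist L] [NormedAlgebra k L] {M : IntermediateField k L}
    {R : Subring L} {w : AbsoluteValue L ℝ} {r m : ℕ} {e : Fin r → L} {u : Fin m → L}
    {α h : L} (hR : RWd M R w) (hC : Cor k R w e u α h) {G : Finset L}
    (hG : ∀ g ∈ G, g ∈ R ∧ w g ≤ 1)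
    (hloc : ∀ q ∈ R, w q ≤ 1 →
      ∃ a ∈ MBG k e (G : Set L), ∃ b ∈ MBG k e (G : Set L), ‖b‖ = 1 ∧ q = a / b)
    (F : Finset L) (hF : ∀ x ∈ F, x ∈ R ∧ w x = ‖x‖ ∧ x ≠ 0) :
    ∃ δ : ℝ, 0 < δ ∧ δ < 1 ∧ ∀ (c : Fin r → k) (π : k), Fine k e c π δ → ∀ x ∈ F,
      MUnit k e (BG k e c π (G : Set L)) x ∧ (‖x‖ ≤ 1 → Loc k (BG k e c π (G : Set L)) x) := by
  classical
  induction F using Finset.induction_on with
  | empty => exact ⟨1 / 2, by norm_num, by norm_num, fun c π _ x hx => absurd hx (by simp)⟩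
  | insert x F hx ih =>
    obtain ⟨δ, h1, h2, h3⟩ := ih fun y hy => hF y (Finset.mem_insert_of_mem hy)
    obtain ⟨hxR, hxw, hx0⟩ := hF x (Finset.mem_insert_self _ _)
    obtain ⟨δ', h1', h2', h3'⟩ := munit_of_fine hR hC hG hloc hxR hxw hx0
    refine ⟨max δ δ', lt_max_of_lt_left h1, max_lt h2 h2', fun c π hfi y hy => ?_⟩
    rcases Finset.mem_insert.1 hy with rfl | hy
    · exact h3' c π (r3_fine_mono hfi (le_max_right _ _))
    · exact h3 c π (r3_fine_mono hfi (le_max_left _ _)) y hy

private theorem r3_dn_one {k L : Type v} [NormedField k] [IsUltrametricDist k]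
    [NormedField L] [IsUltrametricDist L] [NormedAlgebra k L] {r : ℕ} {e : Fin r → L}
    {A : Subalgebra k L} {B : Subalgebra (O k) L} (c : k) :
    ∃ n ∈ A, ∃ d ∈ A, MUnit k e B d ∧ algebraMap k L c = n / d := by
  refine ⟨algebraMap k L c, A.algebraMap_mem _, 1, one_mem _, ?_, by rw [div_one]⟩
  refine ⟨0, 1, one_ne_zero, 1, one_mem _, 1, one_mem _, norm_one, norm_one, ?_⟩
  unfold mon
  simp

private theorem r3_dn_mul {k L : Type v} [NormedField k] [IsUltrametricDist k]
    [NormedField L] [IsUltrametricDist L] [NormedAlgebra k L] {r : ℕ} {e : Fin r → L}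
    (hne : ∀ i, e i ≠ 0)
    {A : Subalgebra k L} {B : Subalgebra (O k) L} {x y : L}
    (hx : ∃ n ∈ A, ∃ d ∈ A, MUnit k e B d ∧ x = n / d)
    (hy : ∃ n ∈ A, ∃ d ∈ A, MUnit k e B d ∧ y = n / d) :
    ∃ n ∈ A, ∃ d ∈ A, MUnit k e B d ∧ x * y = n / d := by
  obtain ⟨n, hn, d, hd, hdu, rfl⟩ := hx
  obtain ⟨n', hn', d', hd', hdu', rfl⟩ := hy
  exact ⟨n * n', mul_mem hn hn', d * d', mul_mem hd hd', MUnit.mul hne hdu hdu',
    div_mul_div_comm _ _ _ _⟩

private theorem r3_dn_prod {k L : Type v} [NormedField k] [IsUltrametricDist k]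
    [NormedField L] [IsUltrametricDist L] [NormedAlgebra k L] {r : ℕ} {e : Fin r → L}
    (hne : ∀ i, e i ≠ 0)
    {A : Subalgebra k L} {B : Subalgebra (O k) L} {ι : Type*} (S : Finset ι) (f : ι → L)
    (hf : ∀ i ∈ S, ∃ n ∈ A, ∃ d ∈ A, MUnit k e B d ∧ f i = n / d) :
    ∃ n ∈ A, ∃ d ∈ A, MUnit k e B d ∧ ∏ i ∈ S, f i = n / d := by
  classical
  induction S using Finset.induction_on with
  | empty =>
    have h1 := r3_dn_one (k := k) (e := e) (A := A) (B := B) 1
    rwa [map_one] at h1
  | insert a S ha ih =>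
    rw [Finset.prod_insert ha]
    exact r3_dn_mul hne (hf a (Finset.mem_insert_self _ _))
      (ih fun i hi => hf i (Finset.mem_insert_of_mem hi))

/-- R3.  Notation `M = k(e₀, u₀)`, `A_T = Subring.closure (M ∪ {T})`.  Proof.  Let `A`, `S` be as in `Chts`. `L` is
finitely generated, `keuT = ⊤` so `L` is separable over it, `trdeg (L / k) = r + m + 1`
(`EU.algebraicIndependent` and `hT`). `exists_denoms` gives `a₀`. Every `x ∈ S ∪ {a₀}` is a fraction of two
nonzero elements of `A_T` (`filt_poly`, `Filt.frac`); let `S'` be the finite set of all these numerators and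
denominators and of all `x`. `exists_zset` gives `E, C, j, z, y`; `exists_wfam` for the finite set
`{j T}` gives `s₀, w`; `lfam_of_wfam` (with `A = A_T`) the family on `L`; `filt_poly` the filtration
`polyV M T` with `n = 1`; `exists_divd` (with `s₂ = s₀`; `hbig` is clear: `d + 1 < 2 * (d + 1)` by
`finrank_polyV`) for the finite set `S'` gives `s, d, f` with `DIVd` for `R = RS A_T w'`,
`w' = (w s).comp`, and `w' x = ‖x‖` for `x ∈ S'`; so `S ∪ {a₀} ⊆ R`. `obx_poly`: orthogonal basis.
`exists_cor`: `e, u, α, h`; `transcendental_of_sep`. `exists_G` gives `G`; `cht_of_fine` and, for the finite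
set of the following elements, `munit_of_fine`: the elements of `S`, and denominators `d` of fractions
`n / d` (`exists_denoms`) for the elements of `G` and `e i`, `(e i)⁻¹` (all these are in `R`). Take a
common `δ` and fine coordinates (`exists_fine`); `B = BG k e c π G`. The last item of `Chts`:
`denoms_adjoin` with `X = range (tor k e c π) ∪ G`: `t (i+1) = e i / c i`, `t 0 = π * ∏ (c i / e i)` are
fractions whose denominators are products of the chosen denominators (`MUnit.mul`, constants are in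
`A`). -/
theorem charts_rational {p : ℕ} [Fact p.Prime] {k L : Type v} [NontriviallyNormedField k]
    [IsUltrametricDist k] [IsAlgClosed k] (hp : ‖(p : k)‖ < 1) [NormedField L]
    [IsUltrametricDist L] [NormedAlgebra k L] {r m : ℕ} {e₀ : Fin r → L} {u₀ : Fin m → L}
    (hD : D1 k e₀ u₀) {T : L} (hT : Transcendental (keu k e₀ u₀) T)
    (htop : ∀ x : L, x ∈ keuT k e₀ u₀ T) : Chts k L r m := by
  classical
  intro A hA S hS
  have hfg := r3_fg htop
  have hsep := r3_sep htop
  have htr := r3_trdeg hD.eu hT htop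
  have htop' := r3_top htop
  obtain ⟨a₀, ha₀A, ha₀0, hden⟩ := exists_denoms e₀ u₀ T A hA
  have hF := filt_poly hT htop'
  choose num hnum den hdenA hden0 hnd using hF.frac
  obtain ⟨E, iE, iU, C, j, z, y, hZ, hst, hgen⟩ := exists_zset hp hD hT hsep hfg
  obtain ⟨s₀, w, hw⟩ := exists_wfam hZ.closed hZ.nt hZ.na hZ.sep hZ.gen hZ.dense
    ({j T} : Finset E)
  have hMA : ∀ c ∈ keu k e₀ u₀, c ∈ Subring.closure ((keu k e₀ u₀ : Set L) ∪ {T}) :=
    fun c hc => Subring.subset_closure (Or.inl hc)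
  have hTA : T ∈ Subring.closure ((keu k e₀ u₀ : Set L) ∪ {T}) :=
    Subring.subset_closure (Or.inr rfl)
  have hCR : ∀ c ∈ C, c ∈ Subring.closure ((C : Set E) ∪ (({j T} : Finset E) : Set E)) :=
    fun c hc => Subring.subset_closure (Or.inl hc)
  have hTR : j T ∈ Subring.closure ((C : Set E) ∪ (({j T} : Finset E) : Set E)) :=
    Subring.subset_closure (Or.inr (by simp))
  have hAR : ∀ g ∈ Subring.closure ((keu k e₀ u₀ : Set L) ∪ {T}),
      j g ∈ Subring.closure ((C : Set E) ∪ (({j T} : Finset E) : Set E)) := by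
    have h1 : Subring.closure ((keu k e₀ u₀ : Set L) ∪ {T}) ≤
        (Subring.closure ((C : Set E) ∪ (({j T} : Finset E) : Set E))).comap j := by
      rw [Subring.closure_le]
      rintro x (hx | hx)
      · exact hCR _ (hZ.mem x hx)
      · rw [Set.mem_singleton_iff] at hx
        subst hx
        exact hTR
    exact fun g hg => h1 hg
  have hL := lfam_of_wfam hZ hT hMA hTA hAR hCR hw
  obtain ⟨s, hs, d, f, hwS, hf, hdiv⟩ := exists_divd hF hL (s₂ := s₀) hw.lt
    (fun s _ _ d _ _ => by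
      rw [finrank_polyV hT]
      omega) (insert a₀ S ∪ (insert a₀ S).image den)
  obtain ⟨w', hw'⟩ : ∃ w' : AbsoluteValue L ℝ, w' = (w s).comp j.injective := ⟨_, rfl⟩
  have hOB : OBx (keu k e₀ u₀) w' (polyV (keu k e₀ u₀) T d) := by
    rw [hw']
    exact obx_poly hZ hst hgen hT htop' hTR hCR hw hs d
  have hle : ∀ g ∈ Subring.closure ((keu k e₀ u₀ : Set L) ∪ {T}), ‖g‖ ≤ w' g := by
    rw [hw']
    exact hL.le s hs
  simp only [← hw'] at hwS hdiv
  obtain ⟨e, u, α, h', hC, hsepα⟩ := exists_cor hD.eu hdiv hfg htr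
  have htrans := transcendental_of_sep htr hsepα
  obtain ⟨G, hG, huG, hαG, hloc, hval⟩ := exists_G hD.eu hT hle hf hdiv hOB hC
  have hR := hdiv.rwd
  have hSR : ∀ x ∈ insert a₀ S,
      x ∈ RS (Subring.closure ((keu k e₀ u₀ : Set L) ∪ {T})) w' := by
    intro x hx
    exact ⟨num x, hnum x, den x, hdenA x, hden0 x,
      hwS _ (Finset.mem_union_right _ (Finset.mem_image_of_mem _ hx)), hnd x⟩
  have hq := hden w' (fun c hc => hR.eq_M hc) (hSR a₀ (Finset.mem_insert_self _ _))
    (hwS _ (Finset.mem_union_left _ (Finset.mem_insert_self _ _)))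
  have hq' : ∀ q : L, ∃ d : L, q ∈ RS (Subring.closure ((keu k e₀ u₀ : Set L) ∪ {T})) w' →
      (d ∈ A ∧ d ≠ 0 ∧ w' d = ‖d‖ ∧
        d ∈ RS (Subring.closure ((keu k e₀ u₀ : Set L) ∪ {T})) w' ∧ ∃ n ∈ A, q = n / d) := by
    intro q
    by_cases hqR : q ∈ RS (Subring.closure ((keu k e₀ u₀ : Set L) ∪ {T})) w'
    · obtain ⟨n, hn, d, hd, h0, h1, h2, h3⟩ := hq q hqR
      exact ⟨d, fun _ => ⟨hd, h0, h1, h2, n, hn, h3⟩⟩
    · exact ⟨0, fun h => absurd h hqR⟩
  choose D hD' using hq'
  have hene := hC.eu.ne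
  have hei : ∀ i, (e i)⁻¹ ∈ RS (Subring.closure ((keu k e₀ u₀ : Set L) ∪ {T})) w' := fun i =>
    hR.inv _ (hC.e_mem i) (hC.e_w i)
  obtain ⟨H, hH⟩ : ∃ H : Finset L, H = G ∪ Finset.univ.image e ∪
      Finset.univ.image (fun i => (e i)⁻¹) := ⟨_, rfl⟩
  have hHR : ∀ x ∈ H, x ∈ RS (Subring.closure ((keu k e₀ u₀ : Set L) ∪ {T})) w' := by
    intro x hx
    rw [hH, Finset.mem_union, Finset.mem_union] at hx
    rcases hx with (hx | hx) | hx
    · exact (hG x hx).1
    · obtain ⟨i, -, rfl⟩ := Finset.mem_image.1 hx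
      exact hC.e_mem i
    · obtain ⟨i, -, rfl⟩ := Finset.mem_image.1 hx
      exact hei i
  obtain ⟨δ₁, hδ₁0, hδ₁1, hδ₁⟩ := cht_of_fine hR hC htrans hG huG hαG hloc hval
  obtain ⟨δ₂, hδ₂0, hδ₂1, hδ₂⟩ := r3_munits hR hC hG hloc (S ∪ H.image D) (by
    intro x hx
    rcases Finset.mem_union.1 hx with hx | hx
    · exact ⟨hSR x (Finset.mem_insert_of_mem hx),
        hwS _ (Finset.mem_union_left _ (Finset.mem_insert_of_mem hx)), hS x hx⟩
    · obtain ⟨q, hqH, rfl⟩ := Finset.mem_image.1 hx
      obtain ⟨-, h0, h1, h2, -⟩ := hD' q (hHR q hqH)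
      exact ⟨h2, h1, h0⟩)
  obtain ⟨c, π, hfine⟩ := exists_fine (k := k) hene (max_lt hδ₁1 hδ₂1)
  have hcht := hδ₁ c π (r3_fine_mono hfine (le_max_left _ _))
  have hmu := hδ₂ c π (r3_fine_mono hfine (le_max_right _ _))
  refine ⟨e, c, π, u, α, BG k e c π (G : Set L), hcht, fun x hx =>
    hmu x (Finset.mem_union_left _ hx), ?_⟩
  have hdn : ∀ x ∈ H, ∃ n ∈ A, ∃ d ∈ A, MUnit k e (BG k e c π (G : Set L)) d ∧ x = n / d := by
    intro x hx
    obtain ⟨h0, -, -, -, n, hn, hxn⟩ := hD' x (hHR x hx)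
    exact ⟨n, hn, D x, h0,
      (hmu _ (Finset.mem_union_right _ (Finset.mem_image_of_mem _ hx))).1, hxn⟩
  have heH : ∀ i, e i ∈ H := fun i => by
    rw [hH]
    exact Finset.mem_union_left _ (Finset.mem_union_right _
      (Finset.mem_image_of_mem _ (Finset.mem_univ i)))
  have heiH : ∀ i, (e i)⁻¹ ∈ H := fun i => by
    rw [hH]
    exact Finset.mem_union_right _ (Finset.mem_image.2 ⟨i, Finset.mem_univ i, rfl⟩)
  refine denoms_adjoin hene A (Set.range (tor k e c π) ∪ (G : Set L)) rfl ?_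
  rintro x (⟨i, rfl⟩ | hx)
  · refine Fin.cases ?_ (fun i => ?_) i
    · unfold tor
      rw [Fin.cons_zero]
      refine r3_dn_mul hene (r3_dn_one _) (r3_dn_prod hene _ _ fun i _ => ?_)
      rw [div_eq_mul_inv]
      exact r3_dn_mul hene (r3_dn_one _) (hdn _ (heiH i))
    · unfold tor
      rw [Fin.cons_succ, div_eq_mul_inv, ← map_inv₀]
      exact r3_dn_mul hene (hdn _ (heH i)) (r3_dn_one _)
  · refine hdn x ?_
    rw [hH]
    exact Finset.mem_union_left _ (Finset.mem_union_left _ hx)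

end DA
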