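import Pool.Agent.Lib.DA.M0
import Pool.Agent.Lib.DA.M1
import Pool.Agent.Lib.DA.M2
import Pool.Agent.Lib.DA.HFd
import Pool.Agent.Lib.DA.R3
import Pool.Agent.Lib.DA.F2

/-!
# Module M3: the main theorem
-/

namespace DA

open Polynomial MP1a953e IsLocalRing

universe v

/-- M3a (density, all cases). -/
theorem exists_dense {p : ℕ} [Fact p.Prime] {k L : Type v} [NontriviallyNormedField k]
    [IsUltrametricDist k] [IsAlgClosed k] (hp : ‖(p : k)‖ < 1) [NormedField L]
    [IsUltrametricDist L] [NormedAlgebra k L] {r m : ℕ} {e₀ : Fin r → L} {u₀ : Fin m → L}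
    (h₀ : EU k e₀ u₀) (hd : Df k L r m) (hfg : (⊤ : IntermediateField k L).FG)
    (htr : Algebra.trdeg k L = r + m + 1) :
    ∃ (e : Fin r → L) (u : Fin m → L) (α : L), EU k e u ∧
      Algebra.IsSeparable (keuT k e u α) L ∧
      ∀ x : L, ∀ ε : ℝ, 0 < ε → ∃ y ∈ keuT k e u α, ‖x - y‖ < ε := by
  obtain ⟨e, u, T, hEU, -, -, hsep⟩ := exists_sep_eu h₀ hfg htr
  by_cases hinf : ∀ N : ℕ, ∃ g : Fin N → L, Orth (keu k e u) (nabs L) g
  · exact dense_of_inf hp (d1_of_df hEU hd) hsep hfg htr hinf
  · push Not at hinf
    obtain ⟨N, hN⟩ := hinf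
    refine dense_of_fin hp hEU hfg htr ?_
    refine ⟨?_, fun c _ => Subring.mem_top c, fun q _ => le_rfl, fun q _ _ => Subring.mem_top _,
      N, fun l g _ hg => ?_⟩
    · intro x y
      exact IsUltrametricDist.norm_add_le_max x y
    · by_contra hlt
      rw [not_le] at hlt
      refine hN (fun i => g (Fin.castLE hlt.le i)) ⟨fun i => hg.1 _, fun a ha i => ?_⟩
      -- extend by zero
      set a' : Fin l → L := fun t => if h : (t : ℕ) < N then a ⟨t, h⟩ else 0 with ha'
      have h1 : ∀ t, a' t ∈ keu k e u := by
        intro t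
        simp only [ha']
        split_ifs
        · exact ha _
        · exact zero_mem _
      have h2 : ∑ t, a' t * g t = ∑ t, a t * g (Fin.castLE hlt.le t) := by
        symm
        refine Finset.sum_of_injOn (Fin.castLE hlt.le) ?_ ?_ ?_ ?_
        · exact (Fin.castLE_injective hlt.le).injOn
        · intro t _
          exact Finset.mem_coe.2 (Finset.mem_univ _)
        · intro t _ ht
          have : ¬ (t : ℕ) < N := by
            intro h
            exact ht ⟨⟨t, h⟩, by simp, rfl⟩
          simp [ha', this]
        · intro t _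
          simp [ha']
      have h3 := hg.2 a' h1 (Fin.castLE hlt.le i)
      have h4 : a' (Fin.castLE hlt.le i) = a i := by simp [ha']
      rw [h2, h4] at h3
      exact h3

/-- M3b (charts). -/
theorem exists_chts {p : ℕ} [Fact p.Prime] {k L : Type v} [NontriviallyNormedField k]
    [IsUltrametricDist k] [IsAlgClosed k] (hp : ‖(p : k)‖ < 1) [NormedField L]
    [IsUltrametricDist L] [NormedAlgebra k L] {r m : ℕ} {e₀ : Fin r → L} {u₀ : Fin m → L}
    (h₀ : EU k e₀ u₀) (hd : Df k L r m) (hfg : (⊤ : IntermediateField k L).FG)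
    (htr : Algebra.trdeg k L = r + m + 1) : Chts k L r m := by
  obtain ⟨e, u, α, hEU, hsep, hdense⟩ := exists_dense hp h₀ hd hfg htr
  have htrans := transcendental_of_sep htr hsep
  set N := keuT k e u α with hN
  have heN : ∀ i, e i ∈ N := fun i =>
    IntermediateField.subset_adjoin _ _ (Or.inl (Or.inl ⟨i, rfl⟩))
  have huN : ∀ i, u i ∈ N := fun i =>
    IntermediateField.subset_adjoin _ _ (Or.inl (Or.inr ⟨i, rfl⟩))
  have hαN : α ∈ N := IntermediateField.subset_adjoin _ _ (Or.inr rfl)
  set e' : Fin r → N := fun i => ⟨e i, heN i⟩ with he'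
  set u' : Fin m → N := fun i => ⟨u i, huN i⟩ with hu'
  set α' : N := ⟨α, hαN⟩ with hα'
  have hEU' : EU k e' u' := eu_sub N hEU
  have hD : D1 k e' u' := d1_of_df hEU' (df_sub N hd)
  have hmap : ∀ S : Set N, (IntermediateField.adjoin k S).map N.val =
      IntermediateField.adjoin k (N.val '' S) := fun S => IntermediateField.adjoin_map k S N.val
  have hval : ∀ x : N, N.val x = (x : L) := fun x => rfl
  have hkeu : (keu k e' u').map N.val = keu k e u := by
    rw [keu, hmap, Set.image_union, ← Set.range_comp, ← Set.range_comp]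
    rfl
  have hkeuT : (keuT k e' u' α').map N.val = keuT k e u α := by
    rw [keuT, hmap, Set.image_union, Set.image_union, ← Set.range_comp, ← Set.range_comp,
      Set.image_singleton]
    rfl
  have htop : ∀ x : N, x ∈ keuT k e' u' α' := by
    intro x
    have h1 : (x : L) ∈ (keuT k e' u' α').map N.val := by
      rw [hkeuT]
      exact x.2
    obtain ⟨y, hy, hyx⟩ := h1
    have : y = x := Subtype.ext hyx
    rwa [← this]
  have htrans' : Transcendental (keu k e' u') α' := by
    rw [transcendental_iff] at htrans ⊢
    intro P hP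
    -- map the coefficients
    let ψ : keu k e' u' →+* keu k e u :=
      { toFun := fun x => ⟨((x : N) : L), by
          rw [← hkeu]
          exact ⟨(x : N), x.2, rfl⟩⟩
        map_one' := rfl
        map_mul' := fun _ _ => rfl
        map_zero' := rfl
        map_add' := fun _ _ => rfl }
    have h1 := htrans (P.map ψ) (by
      have h2 : aeval α (P.map ψ) = ((aeval α' P : N) : L) := by
        rw [aeval_def, eval₂_map, aeval_def, eval₂_eq_sum, eval₂_eq_sum, Polynomial.sum,
          Polynomial.sum]
        push_cast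
        rfl
      rw [h2, hP]
      rfl)
    have h3 : Function.Injective ψ := by
      intro x y hxy
      have := congrArg Subtype.val hxy
      exact Subtype.ext (Subtype.ext this)
    exact (Polynomial.map_eq_zero_iff h3).1 h1
  have hch : Chts k N r m := charts_rational hp hD htrans' htop
  -- finiteness
  have : Algebra.IsSeparable N L := hsep
  have hfgN : (⊤ : IntermediateField N L).FG := by
    obtain ⟨t, ht⟩ := hfg
    refine ⟨t, ?_⟩
    rw [eq_top_iff]
    intro x _
    have hx : x ∈ IntermediateField.adjoin k (t : Set L) := by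
      rw [ht]
      exact IntermediateField.mem_top
    have hle : IntermediateField.adjoin k (t : Set L) ≤
        (IntermediateField.adjoin N (t : Set L)).restrictScalars k := by
      rw [IntermediateField.adjoin_le_iff]
      intro y hy
      exact IntermediateField.subset_adjoin N (t : Set L) hy
    exact hle hx
  have : FiniteDimensional N L := by
    obtain ⟨t, ht⟩ := hfgN
    have : FiniteDimensional N (IntermediateField.adjoin N (t : Set L)) :=
      IntermediateField.finiteDimensional_adjoin fun x _ =>
        (Algebra.IsSeparable.isIntegral N x)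
    rw [ht] at this
    exact IntermediateField.topEquiv.toLinearEquiv.finiteDimensional
  have hN' : (⊤ : IntermediateField k N).FG := by
    classical
    refine ⟨Finset.univ.image e' ∪ Finset.univ.image u' ∪ {α'}, ?_⟩
    rw [eq_top_iff]
    intro x _
    have := htop x
    rw [keuT] at this
    simpa using this
  exact charts_lift N hdense hN' hch

/-- Main theorem. -/
theorem main3 {p : ℕ} [Fact p.Prime] {k L : Type v} [NontriviallyNormedField k]
    [IsUltrametricDist k] [IsAlgClosed k] (hp : ‖(p : k)‖ < 1) [NormedField L]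
    [IsUltrametricDist L] [NormedAlgebra k L] (hfg : (⊤ : IntermediateField k L).FG) {r m : ℕ}
    (e : Fin r → L) (hne : ∀ i, e i ≠ 0)
    (hind : ∀ (z : Fin r → ℤ) (c : k), ‖c‖ = ‖∏ i, e i ^ z i‖ → z = 0)
    (htors : ∀ x : L, x ≠ 0 → ∃ n : ℕ, 0 < n ∧ ∃ (z : Fin r → ℤ) (c : k),
      ‖x‖ ^ n = ‖c‖ * ‖∏ i, e i ^ z i‖)
    (hres : Algebra.trdeg (ResidueField (O k)) (ResidueField (O L)) = m)
    (htr : Algebra.trdeg k L = r + m + 1) :
    (∃ y : Fin (r + m + 1) → L, AlgebraicIndependent k y ∧
      Algebra.IsSeparable (IntermediateField.adjoin k (Set.range y)) L ∧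
      ∀ x : L, ∀ ε : ℝ, 0 < ε →
        ∃ z ∈ IntermediateField.adjoin k (Set.range y), ‖x - z‖ < ε) ∧
    ∀ A : Subalgebra (O k) L, A.FG → (∀ a ∈ A, ‖a‖ ≤ 1) → IsFractionRing A L →
      ∀ S : Finset L, (∀ x ∈ S, x ≠ 0) →
      ∃ (n : ℕ) (f : Fin (n + 1) → L), (∀ i, f i ∈ A) ∧ f 0 ≠ 0 ∧
        (∃ i, ∃ c : O k, c ≠ 0 ∧ f i = algebraMap (O k) L c) ∧
        (∀ b ∈ A ⊔ Algebra.adjoin (O k) (Set.range fun i => f i / f 0), ‖b‖ ≤ 1) ∧
        ∃ ϖ : O k, ϖ ≠ 0 ∧ ‖(ϖ : k)‖ < 1 ∧
          ∃ φ : SSr r ϖ →ₐ[O k]
              ↥(A ⊔ Algebra.adjoin (O k) (Set.range fun i => f i / f 0)),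
            IsSm _ φ ∧ (∀ i, ‖(φ (SSr.x i) : L)‖ < 1) ∧
            ∀ x ∈ S, ∃ (z : Fin (r + 1) → ℤ) (c : k) (v : L), c ≠ 0 ∧
              v ∈ A ⊔ Algebra.adjoin (O k) (Set.range fun i => f i / f 0) ∧
              v⁻¹ ∈ A ⊔ Algebra.adjoin (O k) (Set.range fun i => f i / f 0) ∧
              x = algebraMap k L c * (∏ i, (φ (SSr.x i) : L) ^ z i) * v := by
  have hd : Df k L r m := df_of_hyp hne htors hres
  obtain ⟨u₀, h₀⟩ := exists_eu hne hind hres
  refine ⟨?_, ?_⟩
  · obtain ⟨e', u', α, hEU, hsep, hdense⟩ := exists_dense hp h₀ hd hfg htr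
    set y : Fin (r + m + 1) → L := Fin.snoc (Fin.append e' u') α with hy
    have hrange : Set.range y = Set.range e' ∪ Set.range u' ∪ {α} := by
      ext x
      simp only [Set.mem_range, Set.mem_union, Set.mem_singleton_iff]
      constructor
      · rintro ⟨i, rfl⟩
        refine Fin.lastCases ?_ (fun j => ?_) i
        · right
          rw [hy, Fin.snoc_last]
        · left
          rw [hy, Fin.snoc_castSucc]
          refine Fin.addCases (fun i => ?_) (fun i => ?_) j
          · left
            exact ⟨i, by rw [Fin.append_left]⟩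
          · right
            exact ⟨i, by rw [Fin.append_right]⟩
      · rintro ((⟨i, rfl⟩ | ⟨i, rfl⟩) | rfl)
        · exact ⟨(Fin.castAdd m i).castSucc, by rw [hy, Fin.snoc_castSucc, Fin.append_left]⟩
        · exact ⟨(Fin.natAdd r i).castSucc, by rw [hy, Fin.snoc_castSucc, Fin.append_right]⟩
        · exact ⟨Fin.last _, by rw [hy, Fin.snoc_last]⟩
    have hT : IntermediateField.adjoin k (Set.range y) = keuT k e' u' α := by
      rw [hrange, keuT]
    refine ⟨y, ?_, ?_, ?_⟩
    · -- algebraic independence
      have hai := hEU.algebraicIndependent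
      have htr' := transcendental_of_sep htr hsep
      have h2 : AlgebraicIndependent k
          (fun o : Option (Fin (r + m)) => o.elim α (Fin.append e' u')) := by
        rw [hai.option_iff_transcendental]
        have hr : Set.range (Fin.append e' u') ⊆ (keu k e' u' : Set L) := by
          rintro x ⟨i, rfl⟩
          refine Fin.addCases (fun i => ?_) (fun i => ?_) i
          · rw [Fin.append_left]
            exact IntermediateField.subset_adjoin _ _ (Or.inl ⟨i, rfl⟩)
          · rw [Fin.append_right]
            exact IntermediateField.subset_adjoin _ _ (Or.inr ⟨i, rfl⟩)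
        have h4 : Algebra.adjoin k (Set.range (Fin.append e' u')) ≤
            (keu k e' u').toSubalgebra := Algebra.adjoin_le hr
        intro h5
        apply htr'
        obtain ⟨P, hp0, hp'⟩ := h5
        refine ⟨P.map (Subalgebra.inclusion h4).toRingHom, ?_, ?_⟩
        · rw [Polynomial.map_ne_zero_iff]
          · exact hp0
          · exact Subalgebra.inclusion_injective h4
        · rw [Polynomial.aeval_def] at hp' ⊢
          rw [Polynomial.eval₂_map]
          exact hp'
      have h6 := h2.comp (fun i : Fin (r + m + 1) => (Fin.snoc (fun j => some j) none :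
        Fin (r + m + 1) → Option (Fin (r + m))) i) (by
          intro i j hij
          induction i using Fin.lastCases with
          | last =>
            induction j using Fin.lastCases with
            | last => rfl
            | cast j => simp at hij
          | cast i =>
            induction j using Fin.lastCases with
            | last => simp at hij
            | cast j =>
              simp only [Fin.snoc_castSucc, Option.some.injEq] at hij
              rw [hij])
      convert h6 using 1
      funext i
      refine Fin.lastCases ?_ (fun i => ?_) i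
      · simp [hy]
      · simp [hy]
    · rw [hT]
      exact hsep
    · rw [hT]
      exact hdense
  · intro A hA hle hfr S hS
    have := hfr
    exact lu_of_chts hfg htr (exists_chts hp h₀ hd hfg htr) A hA hle S hS

end DA
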