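import Pool.Agent.Lib.DA.S3

/-!
# Module S4: the ring `Pt`
-/

namespace DA

open Polynomial MP1a953e

section
variable {k L : Type*} [NontriviallyNormedField k] [IsUltrametricDist k] [IsAlgClosed k]
  [NormedField L] [IsUltrametricDist L] [NormedAlgebra k L] {r m : ℕ} {e : Fin r → L}
  {u : Fin m → L} {α : L}

/-- `u` and `α` are algebraically independent over the toric ring -/
private theorem S4_indep (h : EU k e u) (htrans : Transcendental (keu k e u) α)
    (c : Fin r → k) (π : k) :
    AlgebraicIndependent ↥(Tt k e c π) (Fin.cons α u : Fin (m + 1) → L) := by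
  classical
  have h1 : AlgebraicIndependent k (Sum.elim u e) := by
    refine (algebraicIndependent_equiv' ((Equiv.sumComm (Fin m) (Fin r)).trans finSumFinEquiv)
      ?_).2 h.algebraicIndependent
    funext x
    rcases x with x | x
    · simp
    · simp
  have h2 := (AlgebraicIndependent.sumElim_iff.1 h1).2
  set K0 : IntermediateField k L := IntermediateField.adjoin k (Set.range e) with hK0
  have h3 : AlgebraicIndependent K0 u := IntermediateField.algebraicIndependent_adjoin_iff.2 h2
  have hsub : ∀ x ∈ Algebra.adjoin K0 (Set.range u), x ∈ keu k e u := by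
    intro x hx
    induction hx using Algebra.adjoin_induction with
    | mem x hx =>
      exact IntermediateField.subset_adjoin _ _ (Set.mem_union_right _ hx)
    | algebraMap a =>
      have : K0 ≤ keu k e u := IntermediateField.adjoin.mono _ _ _ Set.subset_union_left
      exact this a.2
    | add x y _ _ hx hy => exact add_mem hx hy
    | mul x y _ _ hx hy => exact mul_mem hx hy
  have h4 : Transcendental (Algebra.adjoin K0 (Set.range u)) α := by
    letI : Algebra (Algebra.adjoin K0 (Set.range u)) (keu k e u) :=
      RingHom.toAlgebra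
        { toFun := fun x => ⟨x.1, hsub x.1 x.2⟩
          map_one' := rfl
          map_mul' := fun _ _ => rfl
          map_zero' := rfl
          map_add' := fun _ _ => rfl }
    haveI : IsScalarTower (Algebra.adjoin K0 (Set.range u)) (keu k e u) L :=
      IsScalarTower.of_algebraMap_eq fun _ => rfl
    refine Transcendental.restrictScalars (S := keu k e u) ?_ htrans
    intro x y hxy
    exact Subtype.ext (congrArg (fun t : keu k e u => (t : L)) hxy)
  have h5 : AlgebraicIndependent K0 (fun o : Option (Fin m) => o.elim α u) :=
    AlgebraicIndependent.option_iff.2 ⟨h3, h4⟩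
  have h6 : AlgebraicIndependent K0 (Fin.cons α u : Fin (m + 1) → L) := by
    refine (algebraicIndependent_equiv' (finSuccEquiv m) ?_).2 h5
    funext i
    refine Fin.cases ?_ (fun j => ?_) i
    · simp
    · simp
  have hT : ∀ x ∈ Tt k e c π, x ∈ K0 := by
    have hle : Tt k e c π ≤ K0.toSubalgebra.restrictScalars (O k) := by
      refine Algebra.adjoin_le ?_
      have he : ∀ i, e i ∈ K0 := fun i =>
        IntermediateField.subset_adjoin _ _ (Set.mem_range_self i)
      rintro _ ⟨i, rfl⟩
      refine Fin.cases ?_ (fun j => ?_) i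
      · simp only [tor, Fin.cons_zero]
        change _ ∈ K0
        exact mul_mem (K0.algebraMap_mem _)
          (prod_mem fun i _ => div_mem (K0.algebraMap_mem _) (he i))
      · simp only [tor, Fin.cons_succ]
        change _ ∈ K0
        exact div_mem (he j) (K0.algebraMap_mem _)
    exact fun x hx => hle hx
  letI : Algebra ↥(Tt k e c π) K0 :=
    RingHom.toAlgebra
      { toFun := fun x => ⟨x.1, hT x.1 x.2⟩
        map_one' := rfl
        map_mul' := fun _ _ => rfl
        map_zero' := rfl
        map_add' := fun _ _ => rfl }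
  haveI : IsScalarTower ↥(Tt k e c π) K0 L := IsScalarTower.of_algebraMap_eq fun _ => rfl
  refine h6.restrictScalars ?_
  intro x y hxy
  exact Subtype.ext (congrArg (fun t : K0 => (t : L)) hxy)

/-- S4a.  Proof.  `u, α` are algebraically independent over `k(e)` (`EU.algebraicIndependent`, `htrans`), hence
over `Tt k e c π ≤ k(e)`; `Pt` is generated by them over `Tt`. -/
theorem exists_pt_equiv (h : EU k e u) (htrans : Transcendental (keu k e u) α)
    (c : Fin r → k) (π : k) :
    ∃ θ : MvPolynomial (Fin (m + 1)) ↥(Tt k e c π) ≃+* ↥(Pt k e c π u α),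
      ∀ x : Tt k e c π, ((θ (MvPolynomial.C x) : Pt k e c π u α) : L) = (x : L) := by
  have hind := S4_indep h htrans c π
  have hr : Set.range (Fin.cons α u : Fin (m + 1) → L) = Set.range u ∪ {α} := by
    rw [Fin.range_cons, Set.union_comm, Set.singleton_union]
  have hP : Pt k e c π u α =
      (Algebra.adjoin ↥(Tt k e c π) (Set.range (Fin.cons α u : Fin (m + 1) → L))).restrictScalars
        (O k) := by
    rw [hr]
    exact Algebra.adjoin_union_eq_adjoin_adjoin (O k) (Set.range (tor k e c π))
      (Set.range u ∪ {α})
  rw [hP]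
  refine ⟨hind.aevalEquiv.toRingEquiv, fun x => ?_⟩
  have h1 := hind.algebraMap_aevalEquiv (MvPolynomial.C x)
  rw [MvPolynomial.aeval_C] at h1
  exact h1

/-- polynomial rings over integrally closed domains are integrally closed (induction on `n` with the
instance for `R[X]` and `MvPolynomial.finSuccEquiv`) -/
theorem isIntegrallyClosed_mvPolynomial (R : Type*) [CommRing R] [IsDomain R]
    [IsIntegrallyClosed R] (n : ℕ) : IsIntegrallyClosed (MvPolynomial (Fin n) R) := by
  induction n with
  | zero => exact IsIntegrallyClosed.of_equiv (MvPolynomial.isEmptyRingEquiv R (Fin 0)).symm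
  | succ n ih =>
    exact IsIntegrallyClosed.of_equiv (MvPolynomial.finSuccEquiv R n).toRingEquiv.symm

theorem isIntegrallyClosed_pt (h : EU k e u) (htrans : Transcendental (keu k e u) α)
    {c : Fin r → k} {π : k} (hc : ∀ i, c i ≠ 0) (hπ : π ≠ 0) (hπ1 : ‖π‖ < 1) :
    IsIntegrallyClosed ↥(Pt k e c π u α) := by
  obtain ⟨θ, -⟩ := exists_pt_equiv h htrans c π
  haveI := isIntegrallyClosed_tor h.ne h.ind hc hπ hπ1
  haveI := isIntegrallyClosed_mvPolynomial ↥(Tt k e c π) (m + 1)
  exact IsIntegrallyClosed.of_equiv (R := MvPolynomial (Fin (m + 1)) ↥(Tt k e c π)) θ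

end

end DA
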