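import Pool.Agent.Lib.DA.K1
import Pool.Agent.Lib.MP_1a953e_ag.Tr4
import Pool.Agent.Lib.MP_1a953e_ag.Tr2

/-!
# Module K2: residue fields
-/

namespace DA

open Polynomial MP1a953e IsLocalRing

section K2aux

/-- the residue field of the valuation ring of an algebraically closed field is algebraically closed -/
private theorem k2_closed (k : Type*) [NormedField k] [IsUltrametricDist k] [IsAlgClosed k] :
    IsAlgClosed (ResidueField (O k)) := by
  refine IsAlgClosed.of_exists_root _ fun p hp hirr => ?_
  obtain ⟨P, hP, hdeg, hmonic⟩ := lifts_and_natDegree_eq_and_monic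
    ((mem_lifts p).2 (map_surjective _ (residue_surjective (R := O k)) p)) hp
  have hdeg0 : (P.map (O k).subtype).degree ≠ 0 := by
    have h1 : (P.map (O k).subtype).Monic := hmonic.map _
    rw [degree_eq_natDegree h1.ne_zero, hmonic.natDegree_map, hdeg]
    have := hirr.natDegree_pos
    exact_mod_cast this.ne'
  obtain ⟨x, hx⟩ := IsAlgClosed.exists_root (P.map (O k).subtype) hdeg0
  have hx0 : P.eval₂ (O k).subtype x = 0 := by
    rw [← eval_map]
    exact hx
  have hxn : ‖x‖ ≤ 1 := by
    by_contra hlt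
    rw [not_le] at hlt
    have hx1 : (0 : ℝ) < ‖x‖ := lt_trans zero_lt_one hlt
    rw [eval₂_eq_sum_range, Finset.sum_range_succ] at hx0
    have h1 : P.coeff P.natDegree = 1 := hmonic
    rw [h1, map_one, one_mul] at hx0
    have h2 : ‖x ^ P.natDegree‖ = ‖∑ i ∈ Finset.range P.natDegree,
        (O k).subtype (P.coeff i) * x ^ i‖ := by
      rw [eq_neg_of_add_eq_zero_right hx0, norm_neg]
    have h3 : ‖∑ i ∈ Finset.range P.natDegree, (O k).subtype (P.coeff i) * x ^ i‖ <
        ‖x‖ ^ P.natDegree := by
      refine lt_of_le_of_lt (b := ‖x‖ ^ (P.natDegree - 1)) ?_ ?_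
      · refine IsUltrametricDist.norm_sum_le_of_forall_le_of_nonneg (pow_nonneg hx1.le _) ?_
        intro i hi
        rw [norm_mul, norm_pow]
        calc ‖(O k).subtype (P.coeff i)‖ * ‖x‖ ^ i ≤ 1 * ‖x‖ ^ (P.natDegree - 1) := by
              refine mul_le_mul (mem_O.1 (P.coeff i).2) ?_ (pow_nonneg hx1.le _) zero_le_one
              refine pow_le_pow_right₀ hlt.le ?_
              have := Finset.mem_range.1 hi
              omega
          _ = _ := one_mul _
      · refine pow_lt_pow_right₀ hlt ?_
        have : 0 < P.natDegree := by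
          rw [hdeg]
          exact hirr.natDegree_pos
        omega
    rw [← h2, norm_pow] at h3
    exact lt_irrefl _ h3
  refine ⟨residue (O k) ⟨x, mem_O.2 hxn⟩, ?_⟩
  rw [← hP, eval_map, eval₂_hom]
  have h4 : P.eval (⟨x, mem_O.2 hxn⟩ : O k) = 0 := by
    apply Subtype.ext
    have h5 := hom_eval₂ P (RingHom.id (O k)) (O k).subtype (⟨x, mem_O.2 hxn⟩ : O k)
    rw [RingHom.comp_id] at h5
    exact h5.trans hx0
  rw [h4, map_zero]

/-- pure field theory: generators -/
private theorem k2_gens {κ S : Type*} [Field κ] [Field S] [Algebra κ S] [PerfectField κ] {m : ℕ}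
    {v : Fin m → S} (hv : AlgebraicIndependent κ v) {N : ℕ}
    (hN : ∀ (l : ℕ) (q : Fin l → S),
      LinearIndependent (IntermediateField.adjoin κ (Set.range v)) q → l ≤ N) :
    ∃ (u : Fin m → S) (a : S), AlgebraicIndependent κ u ∧
      IsSeparable (IntermediateField.adjoin κ (Set.range u)) a ∧
      IntermediateField.adjoin (IntermediateField.adjoin κ (Set.range u)) {a} = ⊤ := by
  classical
  set F := IntermediateField.adjoin κ (Set.range v) with hF
  have hrank : Module.rank F S ≤ N := by
    refine rank_le fun s hs => ?_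
    have h1 : LinearIndependent F (fun i : Fin s.card => ((s.equivFin.symm i : s) : S)) :=
      hs.comp _ s.equivFin.symm.injective
    exact hN _ _ h1
  have hfin : Module.Finite F S := by
    rw [← Module.rank_lt_aleph0_iff]
    exact hrank.trans_lt (Cardinal.natCast_lt_aleph0)
  have halg1 : Algebra.IsAlgebraic F S := inferInstance
  have halg : Algebra.IsAlgebraic (Algebra.adjoin κ (Set.range v)) S :=
    IntermediateField.isAlgebraic_adjoin_iff_top.mp halg1
  have htb : IsTranscendenceBasis κ v := hv.isTranscendenceBasis_iff_isAlgebraic.mpr halg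
  have htr : Algebra.trdeg κ S = m := by
    have h1 := htb.lift_cardinalMk_eq_trdeg
    rw [Cardinal.mk_fin, Cardinal.lift_natCast] at h1
    rw [← Cardinal.lift_id (Algebra.trdeg κ S)]
    simpa using h1.symm
  have hess1 : Algebra.EssFiniteType κ F :=
    IntermediateField.essFiniteType_iff.mpr
      (IntermediateField.fg_adjoin_of_finite (Set.finite_range v))
  have hess2 : Algebra.EssFiniteType F S := inferInstance
  have hess : Algebra.EssFiniteType κ S := Algebra.EssFiniteType.comp κ F S
  exact exists_residue_gens hess htr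

private theorem k2_transfer {κ Λ : Type*} [Field κ] [Field Λ] [Algebra κ Λ] {m : ℕ}
    {S : IntermediateField κ Λ} {u : Fin m → S} {a : S} (hu : AlgebraicIndependent κ u)
    (ha : IsSeparable (IntermediateField.adjoin κ (Set.range u)) a)
    (htop : IntermediateField.adjoin (IntermediateField.adjoin κ (Set.range u)) {a} = ⊤) :
    AlgebraicIndependent κ (fun i => (u i : Λ)) ∧
      IsSeparable (IntermediateField.adjoin κ (Set.range fun i => (u i : Λ))) (a : Λ) ∧
      ∀ x : S, (x : Λ) ∈ IntermediateField.adjoin κ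
        ((Set.range fun i => (u i : Λ)) ∪ {(a : Λ)}) := by
  have himg : S.val '' Set.range u = Set.range fun i => (u i : Λ) := by
    rw [← Set.range_comp]; rfl
  refine ⟨hu.map' (f := S.val) S.val.injective, ?_, fun x => ?_⟩
  · set F := IntermediateField.adjoin κ (Set.range u) with hF
    set F' := IntermediateField.adjoin κ (Set.range fun i => (u i : Λ)) with hF'
    have hmem : ∀ x : F, S.val (x : S) ∈ F' := by
      intro x
      have h1 : F.map S.val = F' := by
        rw [hF, IntermediateField.adjoin_map, himg]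
      rw [← h1]
      exact ⟨x, x.2, rfl⟩
    let φ : F →+* F' :=
      { toFun := fun x => ⟨S.val (x : S), hmem x⟩
        map_one' := by ext; simp
        map_mul' := fun x y => by ext; simp
        map_zero' := by ext; simp
        map_add' := fun x y => by ext; simp }
    have hsep : ((minpoly F a).map φ).Separable := Polynomial.Separable.map ha
    have h0 : aeval (a : Λ) ((minpoly F a).map φ) = 0 := by
      rw [aeval_def, eval₂_map]
      have h1 : (algebraMap F' Λ).comp φ = (S.val : S →+* Λ).comp (algebraMap F S) := rfl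
      rw [h1]
      have h2 : (a : Λ) = (S.val : S →+* Λ) a := rfl
      rw [h2, ← hom_eval₂, ← aeval_def, minpoly.aeval, map_zero]
    exact hsep.of_dvd (minpoly.dvd F' (a : Λ) h0)
  · have h1 : x ∈ IntermediateField.adjoin κ (Set.range u ∪ {a}) := by
      rw [← IntermediateField.adjoin_adjoin_left, htop]
      exact IntermediateField.mem_top
    have h2 : (IntermediateField.adjoin κ (Set.range u ∪ {a})).map S.val =
        IntermediateField.adjoin κ ((Set.range fun i => (u i : Λ)) ∪ {(a : Λ)}) := by
      rw [IntermediateField.adjoin_map, Set.image_union, himg, Set.image_singleton]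
      rfl
    rw [← h2]
    exact ⟨x, h1, rfl⟩

variable {k L : Type*} [NormedField k] [IsUltrametricDist k] [NormedField L]
  [IsUltrametricDist L] [NormedAlgebra k L]

omit [NormedField k] [IsUltrametricDist k] [NormedAlgebra k L] in
private theorem k2_res_ne {x : O L} : residue (O L) x ≠ 0 ↔ ‖(x : L)‖ = 1 := by
  rw [residue_ne_zero_iff_isUnit, isUnit_O_iff]

omit [NormedField k] [IsUltrametricDist k] [NormedAlgebra k L] in
private theorem k2_res_zero {x : O L} : residue (O L) x = 0 ↔ ‖(x : L)‖ < 1 := by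
  rw [← not_iff_not, ← ne_eq, k2_res_ne, not_lt]
  exact ⟨fun h => h.ge, fun h => le_antisymm (mem_O.1 x.2) h⟩

private theorem k2_res_const (c : O k) :
    residue (O L) (algebraMap (O k) (O L) c) =
      algebraMap (ResidueField (O k)) (ResidueField (O L)) (residue (O k) c) := rfl

/-- residues of elements of `MB` -/
private theorem k2_res_MB {r m : ℕ} {e : Fin r → L} {u : Fin m → L} (h : EU k e u) {x : L}
    (hx : x ∈ MB k e u) (hx1 : x ∈ O L) :
    residue (O L) ⟨x, hx1⟩ ∈ IntermediateField.adjoin (ResidueField (O k))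
      (Set.range fun i => residue (O L) ⟨u i, mem_O.2 (h.norm_u i)⟩) := by
  unfold MB at hx
  induction hx using Algebra.adjoin_induction with
  | mem x hx =>
    rcases hx with ⟨z, c, rfl, hx⟩ | ⟨i, rfl⟩
    · rcases hx.lt_or_eq with h1 | h1
      · rw [k2_res_zero.mpr h1]
        exact zero_mem _
      · have hc0 : c ≠ 0 := by
          rintro rfl
          unfold mon at h1
          rw [map_zero, zero_mul, norm_zero] at h1
          exact zero_ne_one h1
        have h2 : ‖c‖ * ‖∏ i, e i ^ z i‖ = 1 := by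
          unfold mon at h1
          rw [norm_mul, norm_algebraMap'] at h1
          exact h1
        have h3 : z = 0 := by
          refine h.ind z c⁻¹ ?_
          rw [norm_inv]
          exact inv_eq_of_mul_eq_one_right h2
        have h4 : mon k e z c = algebraMap k L c := by
          unfold mon
          rw [h3]
          simp
        have h5 : ‖c‖ ≤ 1 := by
          have h6 := h1
          rw [h4, norm_algebraMap'] at h6
          exact h6.le
        have h6 : (⟨mon k e z c, hx1⟩ : O L) = algebraMap (O k) (O L) ⟨c, mem_O.2 h5⟩ :=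
          Subtype.ext h4
        rw [h6, k2_res_const]
        exact IntermediateField.algebraMap_mem _ _
    · exact IntermediateField.subset_adjoin _ _ ⟨i, rfl⟩
  | algebraMap c =>
    have h6 : (⟨algebraMap (O k) L c, hx1⟩ : O L) = algebraMap (O k) (O L) c := Subtype.ext rfl
    rw [h6, k2_res_const]
    exact IntermediateField.algebraMap_mem _ _
  | add x y hx' hy' hx hy =>
    have hxO : x ∈ O L := mem_O.2 (h.norm_MB_le hx')
    have hyO : y ∈ O L := mem_O.2 (h.norm_MB_le hy')
    have h6 : (⟨x + y, hx1⟩ : O L) = ⟨x, hxO⟩ + ⟨y, hyO⟩ := rfl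
    rw [h6, map_add]
    exact add_mem (hx hxO) (hy hyO)
  | mul x y hx' hy' hx hy =>
    have hxO : x ∈ O L := mem_O.2 (h.norm_MB_le hx')
    have hyO : y ∈ O L := mem_O.2 (h.norm_MB_le hy')
    have h6 : (⟨x * y, hx1⟩ : O L) = ⟨x, hxO⟩ * ⟨y, hyO⟩ := rfl
    rw [h6, map_mul]
    exact mul_mem (hx hxO) (hy hyO)

/-- residues of elements of `k(e, u)` -/
private theorem k2_res_M {r m : ℕ} {e : Fin r → L} {u : Fin m → L} (h : EU k e u) {x : O L}
    (hx : (x : L) ∈ keu k e u) :
    residue (O L) x ∈ IntermediateField.adjoin (ResidueField (O k))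
      (Set.range fun i => residue (O L) ⟨u i, mem_O.2 (h.norm_u i)⟩) := by
  by_cases h0 : residue (O L) x = 0
  · rw [h0]; exact zero_mem _
  have hx1 : ‖(x : L)‖ = 1 := k2_res_ne.mp h0
  have hxne : (x : L) ≠ 0 := norm_ne_zero_iff.mp (by rw [hx1]; exact one_ne_zero)
  obtain ⟨z, c, hc, a, ha, b, hb, han, hbn, hxe⟩ := h.exists_frac hx hxne
  have hmn : ‖mon k e z c‖ = 1 := by
    have h1 := hx1
    rw [hxe, norm_mul, norm_div, han, hbn, div_one, mul_one] at h1
    exact h1
  have hb0 : b ≠ 0 := norm_ne_zero_iff.mp (by rw [hbn]; exact one_ne_zero)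
  have hmMB : mon k e z c ∈ MB k e u := Algebra.subset_adjoin (Or.inl ⟨z, c, rfl, hmn.le⟩)
  have haO : a ∈ O L := mem_O.2 han.le
  have hbO : b ∈ O L := mem_O.2 hbn.le
  have hmO : mon k e z c ∈ O L := mem_O.2 hmn.le
  have h2 : x * ⟨b, hbO⟩ = (⟨mon k e z c, hmO⟩ : O L) * ⟨a, haO⟩ := by
    apply Subtype.ext
    show (x : L) * b = mon k e z c * a
    rw [hxe]
    field_simp
  have h3 := congrArg (residue (O L)) h2
  rw [map_mul, map_mul] at h3
  have h4 : residue (O L) (⟨b, hbO⟩ : O L) ≠ 0 := k2_res_ne.mpr hbn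
  rw [← eq_div_iff h4] at h3
  rw [h3]
  exact div_mem (mul_mem (k2_res_MB h hmMB hmO) (k2_res_MB h ha haO)) (k2_res_MB h hb hbO)

/-- the residues of the `u i` are algebraically independent -/
private theorem k2_ai {r m : ℕ} {e : Fin r → L} {u : Fin m → L} (h : EU k e u) :
    AlgebraicIndependent (ResidueField (O k))
      (fun i => residue (O L) ⟨u i, mem_O.2 (h.norm_u i)⟩) := by
  rw [algebraicIndependent_iff]
  intro p hp
  obtain ⟨P, rfl⟩ := MvPolynomial.map_surjective _ (residue_surjective (R := O k)) p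
  set u' : Fin m → O L := fun i => ⟨u i, mem_O.2 (h.norm_u i)⟩ with hu'
  have h1 : residue (O L) (MvPolynomial.aeval u' P) = 0 := by
    rw [← hp, MvPolynomial.aeval_def, MvPolynomial.aeval_def, MvPolynomial.eval₂_map]
    exact MvPolynomial.eval₂_comp_left (residue (O L)) (algebraMap (O k) (O L)) u' P
  have h2 : ((MvPolynomial.aeval u' P : O L) : L) =
      MvPolynomial.aeval u (P.map (O k).subtype) := by
    rw [MvPolynomial.aeval_def, MvPolynomial.aeval_def, MvPolynomial.eval₂_map]
    exact MvPolynomial.eval₂_comp_left (O L).subtype (algebraMap (O k) (O L)) u' P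
  have h3 := k2_res_zero.mp h1
  rw [h2] at h3
  ext s
  rw [MvPolynomial.coeff_map, MvPolynomial.coeff_zero]
  have h4 := (h.gauss (P.map (O k).subtype) s).trans_lt h3
  rw [MvPolynomial.coeff_map] at h4
  exact k2_res_zero.mpr h4

end K2aux

/-- K2. -/
theorem exists_res_gens {k L : Type*} [NontriviallyNormedField k] [IsUltrametricDist k]
    [IsAlgClosed k] [NormedField L] [IsUltrametricDist L] [NormedAlgebra k L] {r m : ℕ}
    {e₀ : Fin r → L} {u₀ : Fin m → L} (h₀ : EU k e₀ u₀) {R : Subring L}
    {w : AbsoluteValue L ℝ} (hR : RWd (keu k e₀ u₀) R w) :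
    ∃ (u : Fin m → O L) (α : O L), (∀ i, (u i : L) ∈ R ∧ w (u i : L) ≤ 1) ∧
      (α : L) ∈ R ∧ w (α : L) ≤ 1 ∧
      AlgebraicIndependent (ResidueField (O k)) (fun i => residue (O L) (u i)) ∧
      IsSeparable (IntermediateField.adjoin (ResidueField (O k))
        (Set.range fun i => residue (O L) (u i))) (residue (O L) α) ∧
      ∀ q : O L, (q : L) ∈ R → w (q : L) ≤ 1 →
        residue (O L) q ∈ IntermediateField.adjoin (ResidueField (O k))
          (Set.range (fun i => residue (O L) (u i)) ∪ {residue (O L) α}) := by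
  classical
  have hclosed : IsAlgClosed (ResidueField (O k)) := k2_closed k
  have hkM : ∀ c : k, algebraMap k L c ∈ keu k e₀ u₀ := fun c =>
    (keu k e₀ u₀).algebraMap_mem c
  have hu₀M : ∀ i, u₀ i ∈ keu k e₀ u₀ := fun i =>
    IntermediateField.subset_adjoin k _ (Or.inr ⟨i, rfl⟩)
  -- the field of residues
  let S : IntermediateField (ResidueField (O k)) (ResidueField (O L)) :=
    { carrier := {x | ∃ q : O L, (q : L) ∈ R ∧ w (q : L) ≤ 1 ∧ residue (O L) q = x}
      mul_mem' := by
        rintro x y ⟨q, hq, hwq, rfl⟩ ⟨q', hq', hwq', rfl⟩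
        refine ⟨q * q', mul_mem hq hq', ?_, map_mul _ _ _⟩
        push_cast
        rw [map_mul]
        exact mul_le_one₀ hwq (w.nonneg _) hwq'
      add_mem' := by
        rintro x y ⟨q, hq, hwq, rfl⟩ ⟨q', hq', hwq', rfl⟩
        refine ⟨q + q', add_mem hq hq', ?_, map_add _ _ _⟩
        push_cast
        exact (hR.nonarch _ _).trans (max_le hwq hwq')
      algebraMap_mem' := by
        intro x
        obtain ⟨c, rfl⟩ := residue_surjective (R := O k) x
        refine ⟨algebraMap (O k) (O L) c, hR.M_le _ (hkM _), ?_, k2_res_const c⟩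
        rw [coe_algebraMap_O, hR.eq_M (hkM _), norm_algebraMap']
        exact mem_O.1 c.2
      inv_mem' := by
        rintro x ⟨q, hq, hwq, rfl⟩
        by_cases h0 : residue (O L) q = 0
        · refine ⟨0, R.zero_mem, ?_, ?_⟩
          · push_cast
            rw [map_zero]; exact zero_le_one
          · rw [h0, map_zero, inv_zero]
        · have h1 : ‖(q : L)‖ = 1 := k2_res_ne.mp h0
          have h2 : w (q : L) = ‖(q : L)‖ := by
            refine le_antisymm (by rw [h1]; exact hwq) (hR.le _ hq)
          have hqO : (q : L)⁻¹ ∈ O L := mem_O.2 (by rw [norm_inv, h1, inv_one])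
          refine ⟨⟨(q : L)⁻¹, hqO⟩, hR.inv _ hq h2, ?_, ?_⟩
          · show w ((q : L)⁻¹) ≤ 1
            rw [map_inv₀, h2, h1, inv_one]
          · have hq0 : (q : L) ≠ 0 := norm_ne_zero_iff.mp (by rw [h1]; exact one_ne_zero)
            have h3 : q * ⟨(q : L)⁻¹, hqO⟩ = 1 := Subtype.ext (mul_inv_cancel₀ hq0)
            have h4 := congrArg (residue (O L)) h3
            rw [map_mul, map_one] at h4
            exact eq_inv_of_mul_eq_one_right h4 }
  have hSmem : ∀ x, x ∈ S ↔ ∃ q : O L, (q : L) ∈ R ∧ w (q : L) ≤ 1 ∧ residue (O L) q = x :=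
    fun x => Iff.rfl
  set v : Fin m → ResidueField (O L) := fun i => residue (O L) ⟨u₀ i, mem_O.2 (h₀.norm_u i)⟩
    with hv
  have hvS : ∀ i, v i ∈ S := fun i => by
    refine ⟨⟨u₀ i, mem_O.2 (h₀.norm_u i)⟩, hR.M_le _ (hu₀M i), ?_, rfl⟩
    rw [hR.eq_M (hu₀M i)]
    exact h₀.norm_u i
  let v' : Fin m → S := fun i => ⟨v i, hvS i⟩
  have hv'ai : AlgebraicIndependent (ResidueField (O k)) v' := by
    have h1 : AlgebraicIndependent (ResidueField (O k)) (S.val ∘ v') := k2_ai h₀
    exact AlgebraicIndependent.of_comp S.val h1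
  have hmapF : (IntermediateField.adjoin (ResidueField (O k)) (Set.range v')).map S.val =
      IntermediateField.adjoin (ResidueField (O k)) (Set.range v) := by
    rw [IntermediateField.adjoin_map, ← Set.range_comp]
    rfl
  obtain ⟨N, hN⟩ := hR.bdd
  have hbound : ∀ (l : ℕ) (q : Fin l → S),
      LinearIndependent (IntermediateField.adjoin (ResidueField (O k)) (Set.range v')) q →
        l ≤ N := by
    intro l q hq
    have hq' : ∀ i, ∃ g : O L, (g : L) ∈ R ∧ w (g : L) ≤ 1 ∧ residue (O L) g = (q i : _) :=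
      fun i => (q i).2
    choose g hgR hgw hgq using hq'
    have hg1 : ∀ i, ‖(g i : L)‖ = 1 := by
      intro i
      rw [← k2_res_ne, hgq]
      have := hq.ne_zero i
      intro h0
      exact this (Subtype.ext h0)
    refine hN l (fun i => (g i : L)) (fun i => ⟨hgR i, ?_⟩) ⟨fun i => ?_, ?_⟩
    · refine le_antisymm ?_ (hR.le _ (hgR i))
      show w (g i : L) ≤ ‖(g i : L)‖
      rw [hg1]
      exact hgw i
    · exact norm_ne_zero_iff.mp (by rw [hg1]; exact one_ne_zero)
    · intro a ha i
      show ‖a i * (g i : L)‖ ≤ ‖∑ j, a j * (g j : L)‖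
      rw [norm_mul, hg1, mul_one]
      -- a coefficient of maximal norm
      obtain ⟨i₀, -, hmax⟩ := Finset.exists_max_image (Finset.univ : Finset (Fin l))
        (fun j => ‖a j‖) ⟨i, Finset.mem_univ i⟩
      have hmax' : ∀ j, ‖a j‖ ≤ ‖a i₀‖ := fun j => hmax j (Finset.mem_univ j)
      by_cases ha0 : a i₀ = 0
      · have h1 := hmax' i
        rw [ha0, norm_zero] at h1
        exact h1.trans (norm_nonneg _)
      have hpos : 0 < ‖a i₀‖ := norm_pos_iff.mpr ha0
      have haO : ∀ j, a j / a i₀ ∈ O L := fun j => mem_O.2 (by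
        rw [norm_div, div_le_one hpos]; exact hmax' j)
      have hres : ∀ j, ∃ ρ : S, ρ ∈ IntermediateField.adjoin (ResidueField (O k)) (Set.range v') ∧
          (ρ : ResidueField (O L)) = residue (O L) ⟨a j / a i₀, haO j⟩ := by
        intro j
        have h1 : residue (O L) ⟨a j / a i₀, haO j⟩ ∈
            IntermediateField.adjoin (ResidueField (O k)) (Set.range v) :=
          k2_res_M h₀ (x := ⟨a j / a i₀, haO j⟩) (div_mem (ha j) (ha i₀))
        rw [← hmapF] at h1
        obtain ⟨ρ, hρ, hρ'⟩ := h1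
        exact ⟨ρ, hρ, hρ'⟩
      choose ρ hρF hρ using hres
      have hsum : ∑ j, ρ j * q j ≠ 0 := by
        intro h0
        have h1 := Fintype.linearIndependent_iff.mp hq (fun j => ⟨ρ j, hρF j⟩) (by
          rw [← h0]
          refine Finset.sum_congr rfl fun j _ => ?_
          rfl) i₀
        have h2 : ρ i₀ = 0 := congrArg Subtype.val h1
        have h3 := hρ i₀
        rw [h2] at h3
        have h4 : (⟨a i₀ / a i₀, haO i₀⟩ : O L) = 1 := Subtype.ext (div_self ha0)
        rw [h4, map_one] at h3
        exact zero_ne_one h3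
      have hsum2 : residue (O L) (∑ j, (⟨a j / a i₀, haO j⟩ : O L) * g j) ≠ 0 := by
        intro h0
        apply hsum
        apply Subtype.ext
        rw [map_sum] at h0
        push_cast
        rw [← h0]
        refine Finset.sum_congr rfl fun j _ => ?_
        rw [map_mul, hρ, hgq]
      have h5 := k2_res_ne.mp hsum2
      have h6 : ∑ j, a j * (g j : L) =
          a i₀ * ((∑ j, (⟨a j / a i₀, haO j⟩ : O L) * g j : O L) : L) := by
        push_cast
        rw [Finset.mul_sum]
        refine Finset.sum_congr rfl fun j _ => ?_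
        field_simp
      rw [h6, norm_mul, h5, mul_one]
      exact hmax' i
  obtain ⟨u, a, hu, ha, htop⟩ := k2_gens hv'ai hbound
  obtain ⟨hu1, ha1, hall⟩ := k2_transfer hu ha htop
  have hu2 : ∀ i, ∃ g : O L, (g : L) ∈ R ∧ w (g : L) ≤ 1 ∧ residue (O L) g = (u i : _) :=
    fun i => (u i).2
  choose U hUR hUw hUu using hu2
  obtain ⟨α, hαR, hαw, hαa⟩ : ∃ g : O L, (g : L) ∈ R ∧ w (g : L) ≤ 1 ∧
    residue (O L) g = (a : _) := a.2
  have hfun : (fun i => residue (O L) (U i)) = fun i => (u i : ResidueField (O L)) :=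
    funext hUu
  refine ⟨U, α, fun i => ⟨hUR i, hUw i⟩, hαR, hαw, ?_, ?_, fun q hq hwq => ?_⟩
  · rw [hfun]; exact hu1
  · rw [hfun, hαa]; exact ha1
  · rw [hfun, hαa]
    exact hall ⟨residue (O L) q, (hSmem _).mpr ⟨q, hq, hwq, rfl⟩⟩

end DA
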