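import Pool.Agent.Lib.DA.Defs2

/-!
# Module EUa: norms of Laurent polynomials in an Abhyankar basis
-/

namespace DA

open Polynomial MP1a953e

variable {k L : Type*} [NormedField k] [IsUltrametricDist k] [NormedField L]
  [IsUltrametricDist L] [NormedAlgebra k L] {r m : ℕ} {e : Fin r → L} {u : Fin m → L}

/-- the norm of `P(u)` is the maximum of the norms of the coefficients: `≤` because `‖u i‖ ≤ 1`, `≥` is
`gauss` (`P = 0` is trivial) -/
theorem EU.exists_coeff (h : EU k e u) (P : MvPolynomial (Fin m) k) :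
    ∃ s, ‖MvPolynomial.aeval u P‖ = ‖P.coeff s‖ := by
  classical
  rcases eq_or_ne P 0 with hP | hP
  · exact ⟨0, by rw [hP]; simp⟩
  have hne : P.support.Nonempty := MvPolynomial.support_nonempty.2 hP
  obtain ⟨s, hs, hmax⟩ := Finset.exists_max_image P.support (fun s => ‖P.coeff s‖) hne
  refine ⟨s, le_antisymm ?_ (h.gauss P s)⟩
  rw [MvPolynomial.aeval_def, MvPolynomial.eval₂_eq]
  refine IsUltrametricDist.norm_sum_le_of_forall_le_of_nonneg (norm_nonneg _) ?_
  intro t ht
  rw [norm_mul, norm_algebraMap', norm_prod]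
  have h1 : ∏ i ∈ t.support, ‖u i ^ t i‖ ≤ 1 := by
    refine Finset.prod_le_one (fun i _ => norm_nonneg _) ?_
    intro i _
    rw [norm_pow]
    exact pow_le_one₀ (norm_nonneg _) (h.norm_u i)
  calc ‖P.coeff t‖ * ∏ i ∈ t.support, ‖u i ^ t i‖ ≤ ‖P.coeff t‖ * 1 :=
        mul_le_mul_of_nonneg_left h1 (norm_nonneg _)
    _ = ‖P.coeff t‖ := mul_one _
    _ ≤ ‖P.coeff s‖ := hmax t ht

/-- EUa.  Proof.  For `z ≠ z'` with `P z (u), P z' (u) ≠ 0` the two terms have different norms (the norms
of `P z (u)` are norms of elements of `k`, by `EU.exists_coeff`; the quotient of the terms would give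
`‖c‖ = ‖∏ e i ^ (z i - z' i)‖`, so `z = z'` by `ind`). In an ultrametric field the norm of a sum of
elements with pairwise different norms (or zero) is the maximum of the norms. -/
theorem EU.sum_le (h : EU k e u) (Z : Finset (Fin r → ℤ))
    (P : (Fin r → ℤ) → MvPolynomial (Fin m) k) {z : Fin r → ℤ} (hz : z ∈ Z) :
    ‖MvPolynomial.aeval u (P z)‖ * ‖∏ i, e i ^ z i‖ ≤
      ‖∑ z ∈ Z, MvPolynomial.aeval u (P z) * ∏ i, e i ^ z i‖ := by
  classical
  set f : (Fin r → ℤ) → L := fun z => MvPolynomial.aeval u (P z) * ∏ i, e i ^ z i with hf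
  have hprod : ∀ z : Fin r → ℤ, (∏ i, e i ^ z i) ≠ 0 := by
    intro z
    exact Finset.prod_ne_zero_iff.2 (fun i _ => zpow_ne_zero _ (h.ne i))
  -- the nonzero terms
  set Z' := Z.filter (fun z => f z ≠ 0) with hZ'
  have hsum : ∑ z ∈ Z, f z = ∑ z ∈ Z', f z := by
    rw [hZ']
    exact (Finset.sum_filter_ne_zero Z).symm
  have hgoal : ‖MvPolynomial.aeval u (P z)‖ * ‖∏ i, e i ^ z i‖ = ‖f z‖ := by
    rw [hf, norm_mul]
  rw [hgoal]
  change ‖f z‖ ≤ ‖∑ z ∈ Z, f z‖
  rcases eq_or_ne (f z) 0 with h0 | h0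
  · rw [h0, norm_zero]; exact norm_nonneg _
  have hz' : z ∈ Z' := Finset.mem_filter.2 ⟨hz, h0⟩
  have hpair : Set.Pairwise (Z' : Set (Fin r → ℤ)) (fun i j => ‖f i‖ ≠ ‖f j‖) := by
    intro a ha b hb hab heq
    have ha0 : f a ≠ 0 := (Finset.mem_filter.1 (Finset.mem_coe.1 ha)).2
    have hb0 : f b ≠ 0 := (Finset.mem_filter.1 (Finset.mem_coe.1 hb)).2
    obtain ⟨s, hs⟩ := h.exists_coeff (P a)
    obtain ⟨t, ht⟩ := h.exists_coeff (P b)
    have ha1 : MvPolynomial.aeval u (P a) ≠ 0 := by
      intro h1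
      exact ha0 (by rw [hf]; simp only [h1, zero_mul])
    have hb1 : MvPolynomial.aeval u (P b) ≠ 0 := by
      intro h1
      exact hb0 (by rw [hf]; simp only [h1, zero_mul])
    have hs0 : ‖(P a).coeff s‖ ≠ 0 := by
      rw [← hs]; exact norm_ne_zero_iff.2 ha1
    have ht0 : ‖(P b).coeff t‖ ≠ 0 := by
      rw [← ht]; exact norm_ne_zero_iff.2 hb1
    have heq' : ‖(P a).coeff s‖ * ‖∏ i, e i ^ a i‖ = ‖(P b).coeff t‖ * ‖∏ i, e i ^ b i‖ := by
      rw [← hs, ← ht, ← norm_mul, ← norm_mul]
      exact heq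
    have hb2 : ‖∏ i, e i ^ b i‖ ≠ 0 := norm_ne_zero_iff.2 (hprod b)
    have hquot : ∏ i, e i ^ (a - b) i = (∏ i, e i ^ a i) / (∏ i, e i ^ b i) := by
      rw [← Finset.prod_div_distrib]
      refine Finset.prod_congr rfl ?_
      intro i _
      rw [Pi.sub_apply, zpow_sub₀ (h.ne i)]
    have key : ‖(P b).coeff t / (P a).coeff s‖ = ‖∏ i, e i ^ (a - b) i‖ := by
      rw [hquot, norm_div, norm_div, div_eq_div_iff hs0 hb2, mul_comm ‖∏ i, e i ^ a i‖ _]
      exact heq'.symm
    exact hab (sub_eq_zero.1 (h.ind (a - b) _ key))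
  rw [hsum, IsUltrametricDist.norm_sum_eq_sup'_of_pairwise_ne ⟨z, hz'⟩ hpair]
  exact Finset.le_sup' (fun i => ‖f i‖) hz'

/-- `e, u` are algebraically independent: a polynomial in `Fin (r + m)` variables is regrouped as
`∑_z P z (u) * e ^ z`, use `EU.sum_le` and `gauss`. -/
theorem EU.algebraicIndependent (h : EU k e u) : AlgebraicIndependent k (Fin.append e u) := by
  classical
  have hu : AlgebraicIndependent k u := by
    rw [algebraicIndependent_iff]
    intro p hp
    ext s
    have h1 := h.gauss p s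
    rw [hp, norm_zero] at h1
    rw [MvPolynomial.coeff_zero]
    exact norm_le_zero_iff.1 h1
  have he : AlgebraicIndependent (Algebra.adjoin k (Set.range u)) e := by
    rw [algebraicIndependent_iff]
    intro p hp
    have hex : ∀ a : Algebra.adjoin k (Set.range u), ∃ Q : MvPolynomial (Fin m) k,
        MvPolynomial.aeval u Q = (a : L) := by
      intro a
      have ha : (a : L) ∈ Algebra.adjoin k (Set.range u) := a.2
      have hle : Algebra.adjoin k (Set.range u) ≤
          (MvPolynomial.aeval u : MvPolynomial (Fin m) k →ₐ[k] L).range := by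
        refine Algebra.adjoin_le ?_
        rintro _ ⟨i, rfl⟩
        exact ⟨MvPolynomial.X i, MvPolynomial.aeval_X u i⟩
      obtain ⟨q, hq⟩ := hle ha
      exact ⟨q, hq⟩
    choose Q hQ using hex
    -- exponent vectors as integer vectors
    set g : (Fin r →₀ ℕ) → (Fin r → ℤ) := fun s i => (s i : ℤ) with hg
    have hginj : Function.Injective g := by
      intro s t hst
      ext i
      have := congrFun hst i
      simpa [hg] using this
    set Pz : (Fin r → ℤ) → MvPolynomial (Fin m) k := fun z =>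
      Q (p.coeff (Function.invFun g z)) with hPz
    have hPg : ∀ s, Pz (g s) = Q (p.coeff s) := by
      intro s
      rw [hPz]
      simp only [Function.leftInverse_invFun hginj s]
    have hsum : ∑ z ∈ p.support.image g, MvPolynomial.aeval u (Pz z) * ∏ i, e i ^ z i = 0 := by
      rw [Finset.sum_image (fun a _ b _ hab => hginj hab)]
      rw [MvPolynomial.aeval_def, MvPolynomial.eval₂_eq'] at hp
      rw [← hp]
      refine Finset.sum_congr rfl ?_
      intro s _
      rw [hPg, hQ]
      have h1 : ∏ i, e i ^ g s i = ∏ i, e i ^ s i :=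
        Finset.prod_congr rfl (fun i _ => zpow_natCast (e i) (s i))
      rw [h1]
      rfl
    ext s
    rw [MvPolynomial.coeff_zero]
    by_contra hne
    have hs : s ∈ p.support := by
      rw [MvPolynomial.mem_support_iff]
      intro h0
      exact hne (by rw [h0])
    have h2 := h.sum_le (p.support.image g) Pz (Finset.mem_image_of_mem g hs)
    rw [hsum, norm_zero, hPg, hQ] at h2
    have hprod : (∏ i, e i ^ g s i) ≠ 0 :=
      Finset.prod_ne_zero_iff.2 (fun i _ => zpow_ne_zero _ (h.ne i))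
    have h3 : ‖((p.coeff s : Algebra.adjoin k (Set.range u)) : L)‖ = 0 := by
      by_contra h4
      have h5 : 0 < ‖((p.coeff s : Algebra.adjoin k (Set.range u)) : L)‖ * ‖∏ i, e i ^ g s i‖ :=
        mul_pos (lt_of_le_of_ne (norm_nonneg _) (Ne.symm h4)) (norm_pos_iff.2 hprod)
      linarith
    exact hne (norm_eq_zero.1 h3)
  have hse : AlgebraicIndependent k (Sum.elim e u) := hu.sumElim he
  refine (algebraicIndependent_equiv' (finSumFinEquiv (m := r) (n := m)) ?_).1 hse
  funext i
  rcases i with i | i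
  · simp
  · simp

end DA
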