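import Mathlib

/-!
# Module E1: unramified over normal is etale
-/

namespace DA

open Polynomial

/-- A domain onto which a standard etale algebra over an integrally closed domain surjects is etale. -/
private theorem etale_of_surj {P T : Type*} [CommRing P] [IsDomain P] [IsIntegrallyClosed P]
    [CommRing T] [IsDomain T] [Algebra P T] [FaithfulSMul P T]
    (P₀ : StandardEtalePair P) (φ : P₀.Ring →ₐ[P] T) (hφ : Function.Surjective φ) :
    Algebra.Etale P T := by
  have htf : Module.IsTorsionFree P T := inferInstance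
  let x : T := φ P₀.X
  have hx : P₀.HasMap x := StandardEtalePair.hasMap_X.map φ
  have hint : IsIntegral P x := ⟨P₀.f, P₀.monic_f, hx.1⟩
  obtain ⟨f₂, hf₂⟩ := minpoly.isIntegrallyClosed_dvd hint hx.1
  obtain ⟨p₁, p₂, n, hc⟩ := P₀.cond
  let P₁ : StandardEtalePair P :=
    { f := minpoly P x
      monic_f := minpoly.monic hint
      g := P₀.g
      cond := ⟨f₂ * p₁, derivative f₂ * p₁ + f₂ * p₂, n, by
        rw [← hc]
        conv_rhs => rw [hf₂]
        rw [derivative_mul]
        ring⟩ }
  have hx1 : P₁.HasMap x := ⟨minpoly.aeval P x, hx.2⟩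
  have hX : P₀.HasMap P₁.X := by
    refine ⟨?_, (StandardEtalePair.hasMap_X (P := P₁)).2⟩
    rw [hf₂, map_mul]
    have h := (StandardEtalePair.hasMap_X (P := P₁)).1
    change aeval P₁.X (minpoly P x) = 0 at h
    rw [h, zero_mul]
  have hcomp : (P₁.lift x hx1).comp (P₀.lift P₁.X hX) = φ := by
    apply StandardEtalePair.hom_ext
    rw [AlgHom.comp_apply, StandardEtalePair.lift_X, StandardEtalePair.lift_X]
  have hsurj : Function.Surjective (P₁.lift x hx1) := by
    intro t
    obtain ⟨y, hy⟩ := hφ t
    refine ⟨P₀.lift P₁.X hX y, ?_⟩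
    rw [← AlgHom.comp_apply, hcomp, hy]
  have hinj : Function.Injective (P₁.lift x hx1) := by
    rw [injective_iff_map_eq_zero]
    intro y hy
    let Q : StandardEtalePresentation P P₁.Ring :=
      ⟨P₁, P₁.X, P₁.hasMap_X, by
        rw [StandardEtalePair.lift_X_left]
        exact Function.bijective_id⟩
    obtain ⟨p, m, hp⟩ := Q.exists_mul_aeval_x_g_pow_eq_aeval_x y
    change y * aeval P₁.X P₁.g ^ m = aeval P₁.X p at hp
    have h1 : aeval x p = 0 := by
      have h2 := congrArg (P₁.lift x hx1) hp
      rw [map_mul, hy, zero_mul, ← aeval_algHom_apply, StandardEtalePair.lift_X] at h2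
      exact h2.symm
    obtain ⟨q, hq⟩ := minpoly.isIntegrallyClosed_dvd hint h1
    have h3 : aeval P₁.X p = 0 := by
      rw [hq, map_mul]
      have h := (StandardEtalePair.hasMap_X (P := P₁)).1
      change aeval P₁.X (minpoly P x) = 0 at h
      rw [h, zero_mul]
    rw [h3] at hp
    have hu : IsUnit (aeval P₁.X P₁.g ^ m) := ((StandardEtalePair.hasMap_X (P := P₁)).2).pow m
    exact (hu.mul_left_eq_zero).1 hp
  exact Algebra.Etale.of_equiv (AlgEquiv.ofBijective (P₁.lift x hx1) ⟨hinj, hsurj⟩)

/-- E1.  Proof.  `Algebra.IsUnramifiedAt.exists_hasStandardEtaleSurjectionOn` (Mathlib,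
RingTheory/Unramified/LocalStructure): there is `b₁ ∉ q` such that `B[1/b₁]` is a quotient of a standard
etale algebra `(P[X] / f)_g`, `f` monic, `f'` invertible in it. Let `x ∈ B[1/b₁]` be the image of `X`; so
`f(x) = 0`, `f'(x)` and `g(x)` are units of `B[1/b₁]`, and `B[1/b₁]` is generated over `P` by `x` and
`1/g(x)`. `x` is integral over `P`; let `f₁` be its minimal polynomial over `P` (integrally closed):
`f₁` is monic in `P[X]`, `f = f₁ f₂` (`minpoly.isIntegrallyClosed_dvd`), so `f'(x) = f₁'(x) f₂(x)` and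
`f₁'(x)` is a unit of `B[1/b₁]`. The kernel of `P[X] → B[1/b₁]`, `X ↦ x`, is generated by `f₁`
(`minpoly.ker_eval` or similar), so `P[x] ≅ P[X] / (f₁)` (`AdjoinRoot f₁`), and `B[1/b₁]`, the localization of
`P[x]` at `g(x)`, in which `f₁'(x)` is invertible, is isomorphic to the standard etale algebra of the pair
`(f₁, g)`. So `P → B[1/b₁]` is etale. (`B[1/b₁]` is a domain containing `P`.) -/
theorem exists_etale {P B : Type*} [CommRing P] [IsDomain P] [IsIntegrallyClosed P]
    [CommRing B] [IsDomain B] [Algebra P B] [FaithfulSMul P B] [Algebra.FiniteType P B]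
    [Algebra.IsAlgebraic P B] (q : Ideal B) [q.IsPrime] (h : Algebra.IsUnramifiedAt P q) :
    ∃ b ∉ q, Algebra.Etale P (Localization.Away b) := by
  obtain ⟨b, hb, P₀, φ, hφ⟩ :=
    Algebra.IsUnramifiedAt.exists_hasStandardEtaleSurjectionOn (R := P) q
  refine ⟨b, hb, ?_⟩
  have hb0 : b ≠ 0 := fun h0 => hb (h0 ▸ q.zero_mem)
  have hle : Submonoid.powers b ≤ nonZeroDivisors B :=
    powers_le_nonZeroDivisors_of_noZeroDivisors hb0
  have hdom : IsDomain (Localization.Away b) := IsLocalization.isDomain_localization hle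
  have hinj : Function.Injective (algebraMap P (Localization.Away b)) := by
    rw [IsScalarTower.algebraMap_eq P B (Localization.Away b)]
    exact (IsLocalization.injective (Localization.Away b) hle).comp
      (FaithfulSMul.algebraMap_injective P B)
  have hfs : FaithfulSMul P (Localization.Away b) :=
    (faithfulSMul_iff_algebraMap_injective P (Localization.Away b)).2 hinj
  exact etale_of_surj P₀ φ hφ

end DA
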