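import Pool.Agent.Lib.DA.Defs2
import Pool.Agent.Lib.DA.S1

/-!
# Module E2: charts are unramified at the centre
-/

namespace DA

open Polynomial MP1a953e

private theorem E2_gen {P B : Type*} [CommRing P] [CommRing B] [Algebra P B]
    [Algebra.FiniteType P B] (q : Ideal B) [hq : q.IsPrime]
    (h1 : ∀ b : B, ∃ a s : P, algebraMap P B s ∉ q ∧ algebraMap P B s * b - algebraMap P B a ∈ q)
    (h2 : ∀ b ∈ q, ∃ s, s ∉ q ∧ s * b ∈ (q.comap (algebraMap P B)).map (algebraMap P B)) :
    Algebra.IsUnramifiedAt P q := by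
  set p : Ideal P := q.comap (algebraMap P B) with hp
  have : q.LiesOver p := ⟨rfl⟩
  let _ := Localization.AtPrime.algebraOfLiesOver p q
  refine (Algebra.isUnramifiedAt_iff_map_eq P p q).mpr ⟨?_, ?_⟩
  · have hsurj : Function.Surjective (algebraMap p.ResidueField q.ResidueField) := by
      intro x
      obtain ⟨y, z, hz, rfl⟩ := IsFractionRing.div_surjective (A := B ⧸ q) x
      obtain ⟨b, rfl⟩ := Ideal.Quotient.mk_surjective y
      obtain ⟨d, rfl⟩ := Ideal.Quotient.mk_surjective z
      have key : ∀ b : B, ∃ y : p.ResidueField, algebraMap p.ResidueField q.ResidueField y =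
          algebraMap B q.ResidueField b := by
        intro b
        obtain ⟨a, s, hs, hb⟩ := h1 b
        refine ⟨algebraMap P _ a / algebraMap P _ s, ?_⟩
        rw [map_div₀, ← IsScalarTower.algebraMap_apply, ← IsScalarTower.algebraMap_apply,
          IsScalarTower.algebraMap_apply P B q.ResidueField,
          IsScalarTower.algebraMap_apply P B q.ResidueField]
        have e1 : algebraMap B q.ResidueField (algebraMap P B s) ≠ 0 := by
          rw [Ne, Ideal.algebraMap_residueField_eq_zero]
          exact hs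
        rw [div_eq_iff e1]
        have e2 : algebraMap B q.ResidueField (algebraMap P B s * b - algebraMap P B a) = 0 := by
          rw [Ideal.algebraMap_residueField_eq_zero]
          exact hb
        rw [map_sub, map_mul, sub_eq_zero] at e2
        rw [← e2, mul_comm]
      obtain ⟨y₁, h₁⟩ := key b
      obtain ⟨y₂, h₂⟩ := key d
      refine ⟨y₁ / y₂, ?_⟩
      rw [map_div₀, h₁, h₂]
      rfl
    constructor
    intro x
    obtain ⟨y, rfl⟩ := hsurj x
    exact isSeparable_algebraMap y
  · rw [← Localization.AtPrime.map_eq_maximalIdeal]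
    apply le_antisymm
    · rw [Ideal.map_le_iff_le_comap]
      intro x hx
      rw [Ideal.mem_comap, IsScalarTower.algebraMap_apply P B (Localization.AtPrime q)]
      exact Ideal.mem_map_of_mem _ hx
    · rw [Ideal.map_le_iff_le_comap]
      intro b hb
      obtain ⟨s, hs, hsb⟩ := h2 b hb
      rw [Ideal.mem_comap]
      have h3 : algebraMap B (Localization.AtPrime q) (s * b) ∈
          p.map (algebraMap P (Localization.AtPrime q)) := by
        rw [IsScalarTower.algebraMap_eq P B (Localization.AtPrime q), ← Ideal.map_map]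
        exact Ideal.mem_map_of_mem _ hsb
      rw [map_mul] at h3
      have h4 : IsUnit (algebraMap B (Localization.AtPrime q) s) :=
        IsLocalization.map_units (M := q.primeCompl) _ ⟨s, hs⟩
      exact (Ideal.unit_mul_mem_iff_mem _ h4).mp h3

/-- E2.  `q = {b ∈ B : ‖b‖ < 1}` is a prime ideal of `B` and `B` is unramified over `P = Pt k e c π u α` at `q`.
Proof.  Let `𝔭 = {x ∈ P : ‖x‖ < 1}`, the preimage of `q`. By `Cht.unr` every element of `q` becomes, in `B_q`,
an element of `𝔭 B_q`: the maximal ideal of `B_q` is generated by `𝔭`. By `Cht.res` the residue fields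
`P_𝔭 / 𝔭` and `B_q / q` are equal (surjectivity): for `b ∈ B`, `s b - a ∈ q` with `a, s ∈ P`,
`s ∉ 𝔭`. So `Algebra.isUnramifiedAt_iff_map_eq` (Mathlib, RingTheory/Unramified/LocalRing; the residue
field extension is trivial, hence separable) gives the claim. (Alternatively `Ω[B/P]` localized at `q` is a
finitely generated module equal to `q` times itself: for `b ∈ B`: `s db = d(s b - a)` is in `q Ω`,
because `s' (s b - a) = ∑ x i y i`, `x i ∈ 𝔭`, gives `s' d(s b - a) ∈ q Ω_q`.) -/
theorem unramified_of_cht {k L : Type*} [NormedField k] [IsUltrametricDist k]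
    [NormedField L] [IsUltrametricDist L] [NormedAlgebra k L] {r m : ℕ} {e : Fin r → L}
    {c : Fin r → k} {π : k} {u : Fin m → L} {α : L} {B : Subalgebra (O k) L}
    (h : Cht k e c π u α B) :
    ∃ q : Ideal ↥B, (∀ b : B, b ∈ q ↔ ‖(b : L)‖ < 1) ∧ ∃ hq : q.IsPrime,
      letI := (Subalgebra.inclusion h.le).toRingHom.toAlgebra
      Algebra.FiniteType ↥(Pt k e c π u α) ↥B ∧
        @Algebra.IsUnramifiedAt ↥(Pt k e c π u α) ↥B _ _ _ q hq := by
  have hres := h.res
  have hunr := h.unr
  have hle := h.le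
  have hnorm := h.norm_le
  let q : Ideal ↥B :=
    { carrier := {b | ‖(b : L)‖ < 1}
      add_mem' := by
        intro a b ha hb
        simp only [Set.mem_ofPred_eq] at ha hb ⊢
        refine lt_of_le_of_lt (IsUltrametricDist.norm_add_le_max _ _) (max_lt ha hb)
      zero_mem' := by simp
      smul_mem' := by
        intro c b hb
        simp only [Set.mem_ofPred_eq] at hb ⊢
        rw [smul_eq_mul, MulMemClass.coe_mul, norm_mul]
        exact lt_of_le_of_lt (mul_le_of_le_one_left (norm_nonneg _) (hnorm _ c.2)) hb }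
  have hq : ∀ b : B, b ∈ q ↔ ‖(b : L)‖ < 1 := fun b => Iff.rfl
  have hone : ∀ b : B, b ∉ q ↔ ‖(b : L)‖ = 1 := by
    intro b
    rw [hq, not_lt]
    exact ⟨fun h1 => le_antisymm (hnorm _ b.2) h1, fun h1 => h1.ge⟩
  have hprime : q.IsPrime := by
    refine ⟨?_, ?_⟩
    · rw [Ideal.ne_top_iff_one, hone]
      simp
    · intro x y hxy
      by_contra hcon
      push Not at hcon
      have h1 := (hone x).1 hcon.1
      have h2 := (hone y).1 hcon.2
      have h3 : x * y ∉ q := (hone _).2 (by rw [MulMemClass.coe_mul, norm_mul, h1, h2, mul_one])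
      exact h3 hxy
  refine ⟨q, hq, hprime, ?_⟩
  letI : Algebra ↥(Pt k e c π u α) ↥B := (Subalgebra.inclusion hle).toRingHom.toAlgebra
  haveI : IsScalarTower (O k) ↥(Pt k e c π u α) ↥B := IsScalarTower.of_algebraMap_eq fun x => rfl
  haveI : Algebra.FiniteType (O k) ↥B := (Subalgebra.fg_iff_finiteType B).1 h.fg
  haveI hft : Algebra.FiniteType ↥(Pt k e c π u α) ↥B :=
    Algebra.FiniteType.of_restrictScalars_finiteType (O k) _ _
  refine ⟨hft, ?_⟩
  have hcoe : ∀ x : ↥(Pt k e c π u α), ((algebraMap ↥(Pt k e c π u α) ↥B x : ↥B) : L) = x :=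
    fun _ => rfl
  refine E2_gen q ?_ ?_
  · intro b
    obtain ⟨a, ha, s, hs, hs1, hsb⟩ := hres b b.2
    refine ⟨⟨a, ha⟩, ⟨s, hs⟩, ?_, ?_⟩
    · rw [hone, hcoe]
      exact hs1
    · rw [hq]
      exact hsb
  · intro b hb
    obtain ⟨s, hs, hs1, N, x, y, hxy, hsum⟩ := hunr b b.2 ((hq b).1 hb)
    refine ⟨⟨s, hs⟩, (hone _).2 hs1, ?_⟩
    have e1 : (⟨s, hs⟩ * b : ↥B) = ∑ i, algebraMap ↥(Pt k e c π u α) ↥B ⟨x i, (hxy i).1⟩ *
        ⟨y i, (hxy i).2.2⟩ := by
      apply Subtype.ext
      rw [MulMemClass.coe_mul, AddSubmonoidClass.coe_finsetSum]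
      exact hsum
    rw [e1]
    refine Ideal.sum_mem _ fun i _ => Ideal.mul_mem_right _ _ (Ideal.mem_map_of_mem _ ?_)
    rw [Ideal.mem_comap, hq, hcoe]
    exact (hxy i).2.1

end DA
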