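import Pool.Agent.Lib.DA.S4
import Pool.Agent.Lib.DA.E1
import Pool.Agent.Lib.DA.E2

/-!
# Module E3: charts are smooth over the semistable model
-/

namespace DA

open Polynomial MP1a953e

/-- localization at one more element of an etale algebra -/
private theorem e3_loc {P B B' : Type*} [CommRing P] [CommRing B] [CommRing B'] [Algebra P B]
    [Algebra B B'] [Algebra P B'] [IsScalarTower P B B'] (b β : B)
    [IsLocalization.Away (b * β) B'] (het : Algebra.Etale P (Localization.Away b)) :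
    Algebra.Smooth P B' := by
  let S := Localization.Away b
  let T := Localization.Away (algebraMap B S β)
  have hT : IsLocalization.Away (b * β) T := inferInstance
  have h1 : Algebra.Smooth P S := inferInstance
  have h2 : Algebra.Smooth S T := Algebra.Smooth.of_isLocalization_Away (algebraMap B S β)
  have h3 : Algebra.Smooth P T := Algebra.Smooth.comp P S T
  have e : T ≃ₐ[B] B' := IsLocalization.algEquiv (Submonoid.powers (b * β)) T B'
  exact Algebra.Smooth.of_equiv (e.restrictScalars P)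

section aux

variable {k L : Type*} [NontriviallyNormedField k] [IsUltrametricDist k] [NormedField L]
  [IsUltrametricDist L] [NormedAlgebra k L]

/-- `B[1/w]` inside the field -/
private theorem e3_away {B : Subalgebra (O k) L} {w : L} (hw : w ∈ B) (hw0 : w ≠ 0)
    (hle : B ≤ Algebra.adjoin (O k) ((B : Set L) ∪ {w⁻¹})) :
    letI := (Subalgebra.inclusion hle).toRingHom.toAlgebra
    IsLocalization.Away (⟨w, hw⟩ : B) ↥(Algebra.adjoin (O k) ((B : Set L) ∪ {w⁻¹})) := by
  letI := (Subalgebra.inclusion hle).toRingHom.toAlgebra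
  have hcoe : ∀ x : B, ((algebraMap B ↥(Algebra.adjoin (O k) ((B : Set L) ∪ {w⁻¹})) x :
      ↥(Algebra.adjoin (O k) ((B : Set L) ∪ {w⁻¹}))) : L) = (x : L) := fun _ => rfl
  have hwi : w⁻¹ ∈ Algebra.adjoin (O k) ((B : Set L) ∪ {w⁻¹}) :=
    Algebra.subset_adjoin (Or.inr rfl)
  have hpow : ∀ x ∈ Algebra.adjoin (O k) ((B : Set L) ∪ {w⁻¹}), ∃ n : ℕ, x * w ^ n ∈ B := by
    intro x hx
    induction hx using Algebra.adjoin_induction with
    | mem x hx =>
      rcases hx with hx | hx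
      · exact ⟨0, by rw [pow_zero, mul_one]; exact hx⟩
      · rw [Set.mem_singleton_iff] at hx
        exact ⟨1, by rw [hx, pow_one, inv_mul_cancel₀ hw0]; exact one_mem _⟩
    | algebraMap a => exact ⟨0, by rw [pow_zero, mul_one]; exact B.algebraMap_mem a⟩
    | add x y _ _ hx hy =>
      obtain ⟨i, hi⟩ := hx
      obtain ⟨j, hj⟩ := hy
      refine ⟨i + j, ?_⟩
      have e : (x + y) * w ^ (i + j) = (x * w ^ i) * w ^ j + (y * w ^ j) * w ^ i := by
        rw [pow_add]
        ring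
      rw [e]
      exact add_mem (mul_mem hi (pow_mem hw _)) (mul_mem hj (pow_mem hw _))
    | mul x y _ _ hx hy =>
      obtain ⟨i, hi⟩ := hx
      obtain ⟨j, hj⟩ := hy
      refine ⟨i + j, ?_⟩
      have e : (x * y) * w ^ (i + j) = (x * w ^ i) * (y * w ^ j) := by
        rw [pow_add]
        ring
      rw [e]
      exact mul_mem hi hj
  refine ⟨?_, ?_, ?_⟩
  · rintro ⟨_, n, rfl⟩
    refine IsUnit.of_mul_eq_one (⟨w⁻¹, hwi⟩ ^ n) ?_
    refine Subtype.ext ?_
    change (w ^ n) * (w⁻¹) ^ n = 1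
    rw [← mul_pow, mul_inv_cancel₀ hw0, one_pow]
  · intro z
    obtain ⟨n, hn⟩ := hpow z z.2
    refine ⟨(⟨_, hn⟩, ⟨⟨w, hw⟩ ^ n, n, rfl⟩), ?_⟩
    refine Subtype.ext ?_
    rfl
  · intro x y hxy
    refine ⟨1, ?_⟩
    have h1 : (x : L) = (y : L) := congrArg
      (fun z : ↥(Algebra.adjoin (O k) ((B : Set L) ∪ {w⁻¹})) => (z : L)) hxy
    rw [Subtype.ext h1]

/-- the elements of `L` are algebraic over `Pt` -/
private theorem e3_alg {r m : ℕ} {e : Fin r → L} {c : Fin r → k} {π : k} {u : Fin m → L}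
    {α : L} (hc : ∀ i, c i ≠ 0)
    (halg : ∀ x : L, IsAlgebraic (keuT k e u α) x) (x : L) :
    IsAlgebraic ↥(Pt k e c π u α) x := by
  have hmem : ∀ y ∈ Pt k e c π u α, IsAlgebraic ↥(Pt k e c π u α) y := fun y hy =>
    isAlgebraic_algebraMap (⟨y, hy⟩ : Pt k e c π u α)
  have hk : ∀ a : k, IsAlgebraic ↥(Pt k e c π u α) (algebraMap k L a) := by
    intro a
    by_cases ha : ‖a‖ ≤ 1
    · exact hmem _ ((Pt k e c π u α).algebraMap_mem ⟨a, mem_O.2 ha⟩)
    · rw [not_le] at ha
      have h1 : ‖a⁻¹‖ ≤ 1 := by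
        rw [norm_inv]
        exact inv_le_one_of_one_le₀ ha.le
      have h2 : IsAlgebraic ↥(Pt k e c π u α) (algebraMap k L a⁻¹) :=
        hmem _ ((Pt k e c π u α).algebraMap_mem ⟨a⁻¹, mem_O.2 h1⟩)
      rw [map_inv₀] at h2
      exact IsAlgebraic.inv_iff.1 h2
  have hK : ∀ y ∈ keuT k e u α, IsAlgebraic ↥(Pt k e c π u α) y := by
    intro y hy
    unfold keuT at hy
    induction hy using IntermediateField.adjoin_induction with
    | mem y hy =>
      rcases hy with (⟨i, rfl⟩ | ⟨i, rfl⟩) | hy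
      · have hci : algebraMap k L (c i) ≠ 0 := (_root_.map_ne_zero _).2 (hc i)
        have h1 : e i = algebraMap k L (c i) * tor k e c π i.succ := by
          simp only [tor, Fin.cons_succ]
          rw [mul_div_cancel₀ _ hci]
        rw [h1]
        exact (hk _).mul (hmem _ (Algebra.subset_adjoin (Or.inl ⟨_, rfl⟩)))
      · exact hmem _ (Algebra.subset_adjoin (Or.inr (Or.inl ⟨_, rfl⟩)))
      · exact hmem _ (Algebra.subset_adjoin (Or.inr (Or.inr hy)))
    | algebraMap a => exact hk a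
    | add y z _ _ hy hz => exact hy.add hz
    | inv y _ hy => exact IsAlgebraic.inv_iff.2 hy
    | mul y z _ _ hy hz => exact hy.mul hz
  have hle : ∀ y : Pt k e c π u α, (y : L) ∈ keuT k e u α := by
    rintro ⟨y, hy⟩
    unfold Pt at hy
    change y ∈ keuT k e u α
    induction hy using Algebra.adjoin_induction with
    | mem y hy =>
      rcases hy with ⟨i, rfl⟩ | (⟨i, rfl⟩ | hy)
      · have hE : ∀ i, e i ∈ keuT k e u α := fun i =>
          IntermediateField.subset_adjoin k _ (Or.inl (Or.inl ⟨i, rfl⟩))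
        refine Fin.cases ?_ (fun j => ?_) i
        · simp only [tor, Fin.cons_zero]
          exact mul_mem ((keuT k e u α).algebraMap_mem _) (prod_mem fun i _ =>
            div_mem ((keuT k e u α).algebraMap_mem _) (hE i))
        · simp only [tor, Fin.cons_succ]
          exact div_mem (hE j) ((keuT k e u α).algebraMap_mem _)
      · exact IntermediateField.subset_adjoin k _ (Or.inl (Or.inr ⟨i, rfl⟩))
      · exact IntermediateField.subset_adjoin k _ (Or.inr hy)
    | algebraMap a => exact (keuT k e u α).algebraMap_mem (a : k)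
    | add y z _ _ hy hz => exact add_mem hy hz
    | mul y z _ _ hy hz => exact mul_mem hy hz
  letI : Algebra ↥(Pt k e c π u α) ↥(keuT k e u α) :=
    (((Pt k e c π u α).val.toRingHom).codRestrict (keuT k e u α).toSubalgebra
      (fun y => hle y)).toAlgebra
  haveI : IsScalarTower ↥(Pt k e c π u α) ↥(keuT k e u α) L :=
    IsScalarTower.of_algebraMap_eq fun _ => rfl
  haveI : Algebra.IsAlgebraic ↥(Pt k e c π u α) ↥(keuT k e u α) := by
    refine ⟨fun y => ?_⟩
    have h1 := hK y y.2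
    exact (isAlgebraic_algebraMap_iff (S := ↥(keuT k e u α)) (A := L)
      Subtype.val_injective).1 h1
  exact (halg x).restrictScalars ↥(Pt k e c π u α)

private theorem e3_PB {P B : Subalgebra (O k) L} (h : P ≤ B) (b : B) {β : L} (hβ : β ∈ B)
    (hw0 : (b : L) * β ≠ 0)
    (hle : B ≤ Algebra.adjoin (O k) ((B : Set L) ∪ {((b : L) * β)⁻¹}))
    (het : letI := (Subalgebra.inclusion h).toRingHom.toAlgebra
      Algebra.Etale ↥P (Localization.Away b)) :
    RingHom.Smooth (R := ↥P) (S := ↥(Algebra.adjoin (O k) ((B : Set L) ∪ {((b : L) * β)⁻¹})))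
      (Subalgebra.inclusion (h.trans hle)).toRingHom := by
  letI i0 : Algebra ↥P ↥B := (Subalgebra.inclusion h).toRingHom.toAlgebra
  letI i1 : Algebra ↥B ↥(Algebra.adjoin (O k) ((B : Set L) ∪ {((b : L) * β)⁻¹})) :=
    (Subalgebra.inclusion hle).toRingHom.toAlgebra
  letI i2 : Algebra ↥P ↥(Algebra.adjoin (O k) ((B : Set L) ∪ {((b : L) * β)⁻¹})) :=
    (Subalgebra.inclusion (h.trans hle)).toRingHom.toAlgebra
  haveI : IsScalarTower ↥P ↥B
      ↥(Algebra.adjoin (O k) ((B : Set L) ∪ {((b : L) * β)⁻¹})) :=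
    IsScalarTower.of_algebraMap_eq fun _ => rfl
  haveI : IsLocalization.Away (b * ⟨β, hβ⟩ : ↥B)
      ↥(Algebra.adjoin (O k) ((B : Set L) ∪ {((b : L) * β)⁻¹})) :=
    e3_away (mul_mem b.2 hβ) hw0 hle
  exact e3_loc b ⟨β, hβ⟩ het

private theorem e3_TP {T P : Subalgebra (O k) L} (h : T ≤ P) {n : ℕ}
    (θ : MvPolynomial (Fin n) ↥T ≃+* ↥P)
    (hθ : ∀ x : T, ((θ (MvPolynomial.C x) : P) : L) = (x : L)) :
    RingHom.Smooth (R := ↥T) (S := ↥P) (Subalgebra.inclusion h).toRingHom := by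
  have h1 : RingHom.Smooth (R := ↥T) (S := MvPolynomial (Fin n) ↥T) MvPolynomial.C :=
    RingHom.smooth_algebraMap.2 ⟨inferInstance, inferInstance⟩
  have h2 : RingHom.Smooth (R := MvPolynomial (Fin n) ↥T) (S := ↥P) θ.toRingHom :=
    RingHom.Smooth.of_bijective (R := MvPolynomial (Fin n) ↥T)
      (S := ↥P) (f := θ.toRingHom) θ.bijective
  have h3 : (Subalgebra.inclusion h).toRingHom = θ.toRingHom.comp
      (MvPolynomial.C : ↥T →+* MvPolynomial (Fin n) ↥T) := by
    ext x
    exact (hθ x).symm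
  rw [h3]
  exact h1.comp h2

private theorem e3_comp {T P B' : Subalgebra (O k) L} (h1 : T ≤ P) (h2 : P ≤ B') {r : ℕ}
    {ϖ : O k} (ψ : SSr r ϖ ≃ₐ[O k] ↥T)
    (hPB : RingHom.Smooth (R := ↥P) (S := ↥B') (Subalgebra.inclusion h2).toRingHom)
    (hTP : RingHom.Smooth (R := ↥T) (S := ↥P) (Subalgebra.inclusion h1).toRingHom) :
    IsSm B' ((Subalgebra.inclusion (h1.trans h2)).comp ψ.toAlgHom) := by
  have hψs : RingHom.Smooth (R := SSr r ϖ) (S := ↥T) ψ.toAlgHom.toRingHom :=
    RingHom.Smooth.of_bijective (R := SSr r ϖ) (S := ↥T)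
      (f := ψ.toAlgHom.toRingHom) ψ.bijective
  have hfin := (hψs.comp hTP).comp hPB
  have e : ((Subalgebra.inclusion (h1.trans h2)).comp ψ.toAlgHom).toRingHom =
      ((Subalgebra.inclusion h2).toRingHom.comp
        ((Subalgebra.inclusion h1).toRingHom.comp ψ.toAlgHom.toRingHom)) := by
    ext x <;> rfl
  unfold IsSm
  rw [e]
  exact hfin

end aux

private theorem e3_val {k L : Type*} [NontriviallyNormedField k] [IsUltrametricDist k]
    [NormedField L] [IsUltrametricDist L] [NormedAlgebra k L] {T B' : Subalgebra (O k) L}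
    (h : T ≤ B') {r : ℕ} {ϖ : O k} (ψ : SSr r ϖ ≃ₐ[O k] ↥T) (x : SSr r ϖ) :
    ((((Subalgebra.inclusion h).comp ψ.toAlgHom) x : B') : L) = ((ψ x : T) : L) := rfl

private theorem e3_etale {k L : Type*} [NontriviallyNormedField k] [IsUltrametricDist k]
    [IsAlgClosed k] [NormedField L] [IsUltrametricDist L] [NormedAlgebra k L] {r m : ℕ}
    {e : Fin r → L} {c : Fin r → k} {π : k} {u : Fin m → L} {α : L} {B : Subalgebra (O k) L}
    (h : Cht k e c π u α B) (halg : ∀ x : L, IsAlgebraic (keuT k e u α) x) :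
    ∃ b : B, ‖(b : L)‖ = 1 ∧
      letI := (Subalgebra.inclusion h.le).toRingHom.toAlgebra
      Algebra.Etale ↥(Pt k e c π u α) (Localization.Away b) := by
  have hne := h.eu.ne
  have hind := h.eu.ind
  have hπ1 : ‖π‖ < 1 := by
    have h1 : ‖∏ i, tor k e c π i‖ < 1 := by
      rw [norm_prod, Fin.prod_univ_succ]
      have h2 : ∏ i : Fin r, ‖tor k e c π i.succ‖ ≤ 1 :=
        Finset.prod_le_one (fun i _ => norm_nonneg _) fun i _ => (h.t_lt _).le
      calc ‖tor k e c π 0‖ * ∏ i : Fin r, ‖tor k e c π i.succ‖ ≤ ‖tor k e c π 0‖ * 1 :=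
            mul_le_mul_of_nonneg_left h2 (norm_nonneg _)
        _ < 1 := by rw [mul_one]; exact h.t_lt 0
    rwa [prod_tor hne h.c_ne, norm_algebraMap'] at h1
  haveI := isIntegrallyClosed_pt (c := c) (π := π) h.eu h.trans h.c_ne h.π_ne hπ1
  obtain ⟨q, hq, hqp, hft, hunr⟩ := unramified_of_cht h
  letI iPB : Algebra ↥(Pt k e c π u α) ↥B := (Subalgebra.inclusion h.le).toRingHom.toAlgebra
  haveI : IsScalarTower ↥(Pt k e c π u α) ↥B L := IsScalarTower.of_algebraMap_eq fun _ => rfl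
  haveI : FaithfulSMul ↥(Pt k e c π u α) ↥B := by
    rw [faithfulSMul_iff_algebraMap_injective]
    exact Subalgebra.inclusion_injective h.le
  haveI : Algebra.IsAlgebraic ↥(Pt k e c π u α) ↥B := by
    refine ⟨fun y => ?_⟩
    exact (isAlgebraic_algebraMap_iff (S := ↥B) (A := L) Subtype.val_injective).1
      (e3_alg h.c_ne halg (y : L))
  haveI := hft
  haveI := hqp
  obtain ⟨b, hbq, het⟩ := exists_etale q hunr
  have hb1 : ‖(b : L)‖ = 1 := by
    refine le_antisymm (h.norm_le _ b.2) (not_lt.1 fun hlt => hbq ((hq b).2 hlt))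
  exact ⟨b, hb1, het⟩

/-- E3.  Proof.  `‖π‖ < 1` (`π` is the product of the `t i`, `prod_tor`). Let `P = Pt k e c π u α`, integrally closed
(`isIntegrallyClosed_pt`), and `q` as in E2. `B` is algebraic over `P`: the elements of `L` are algebraic over
`keuT k e u α`, the fraction field of `P`. `exists_etale` gives `b ∈ B`, `b ∉ q`, i.e. `‖b‖ = 1`, with
`B[1/b]` etale over `P`. For `β ∈ B`, `‖β‖ = 1`, the ring `B' = adjoin (B ∪ {(b β)⁻¹})` is the localization
`B[1/(b β)]` (inside the field `L`), so it is etale over `P` (localization of `B[1/b]`). `P` is a polynomial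
ring over `Tt k e c π ≅ SSr r ϖ` (`exists_pt_equiv`, `exists_ss_equiv`), hence smooth over it. `φ` is the
composition `SSr r ϖ ≅ Tt → P → B'`; smoothness of compositions (`RingHom.Smooth.comp`,
`Algebra.Smooth.comp`), isomorphisms are smooth. -/
theorem smooth_of_cht {k L : Type*} [NontriviallyNormedField k] [IsUltrametricDist k]
    [IsAlgClosed k] [NormedField L] [IsUltrametricDist L] [NormedAlgebra k L] {r m : ℕ}
    {e : Fin r → L} {c : Fin r → k} {π : k} {u : Fin m → L} {α : L} {B : Subalgebra (O k) L}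
    (h : Cht k e c π u α B) (halg : ∀ x : L, IsAlgebraic (keuT k e u α) x) {ϖ : O k}
    (hϖ : (ϖ : k) = π) :
    ∃ b ∈ B, ‖b‖ = 1 ∧ ∀ β ∈ B, ‖β‖ = 1 →
      ∃ φ : SSr r ϖ →ₐ[O k] ↥(Algebra.adjoin (O k) ((B : Set L) ∪ {(b * β)⁻¹})),
        (∀ i, (φ (SSr.x i) : L) = tor k e c π i) ∧ IsSm _ φ := by
  have hne := h.eu.ne
  have hind := h.eu.ind
  obtain ⟨b, hb1, het⟩ := e3_etale h halg
  refine ⟨b, b.2, hb1, fun β hβ hβ1 => ?_⟩
  have hw0 : (b : L) * β ≠ 0 := by
    rw [← norm_ne_zero_iff, norm_mul, hb1, hβ1, one_mul]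
    exact one_ne_zero
  have hle : B ≤ Algebra.adjoin (O k) ((B : Set L) ∪ {((b : L) * β)⁻¹}) := fun x hx =>
    Algebra.subset_adjoin (Or.inl hx)
  have hTP : Tt k e c π ≤ Pt k e c π u α := Algebra.adjoin_mono Set.subset_union_left
  obtain ⟨ψ, hψ⟩ := exists_ss_equiv (k := k) hne hind h.c_ne h.π_ne hϖ
  obtain ⟨θ, hθ⟩ := exists_pt_equiv (k := k) h.eu h.trans c π
  refine ⟨(Subalgebra.inclusion (hTP.trans (h.le.trans hle))).comp ψ.toAlgHom, fun i => ?_, ?_⟩
  · exact (e3_val _ ψ _).trans (hψ i)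
  exact e3_comp hTP (h.le.trans hle) ψ (e3_PB h.le b hβ hw0 hle het) (e3_TP hTP θ hθ)

end DA
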