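import Pool.Agent.Lib.DA.SDefs
import Pool.Agent.Lib.DA.S1
import Pool.Agent.Lib.DA.EUa

/-!
# Module S2: presentation of the toric ring
-/

namespace DA

open Polynomial MP1a953e

section
variable {k L : Type*} [NormedField k] [IsUltrametricDist k] [NormedField L]
  [IsUltrametricDist L] [NormedAlgebra k L] {r : ℕ} {e : Fin r → L}

/-- S2a.  The Laurent monomials in `e` are linearly independent over `k` (the nonzero terms of a combination
have pairwise different norms, by `hind`). -/
theorem linearIndependent_zpow (hne : ∀ i, e i ≠ 0)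
    (hind : ∀ (z : Fin r → ℤ) (c : k), ‖c‖ = ‖∏ i, e i ^ z i‖ → z = 0) :
    LinearIndependent k (fun z : Fin r → ℤ => ∏ i, e i ^ z i) := by
  classical
  have hEU : EU k e (Fin.elim0 : Fin 0 → L) := by
    refine ⟨hne, hind, fun i => i.elim0, fun P s => ?_⟩
    have h1 : P = MvPolynomial.C (P.coeff 0) := MvPolynomial.eq_C_of_isEmpty P
    have h2 : s = 0 := Subsingleton.elim _ _
    rw [h2]
    conv_rhs => rw [h1]
    rw [MvPolynomial.aeval_C, norm_algebraMap']
  rw [linearIndependent_iff']
  intro Z g hg z hz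
  have h1 := hEU.sum_le Z (fun z => MvPolynomial.C (g z)) hz
  have h2 : ∑ z ∈ Z, MvPolynomial.aeval (Fin.elim0 : Fin 0 → L)
      (MvPolynomial.C (g z) : MvPolynomial (Fin 0) k) * ∏ i, e i ^ z i = 0 := by
    rw [← hg]
    refine Finset.sum_congr rfl fun z _ => ?_
    rw [MvPolynomial.aeval_C, Algebra.smul_def]
  rw [h2, norm_zero, MvPolynomial.aeval_C, norm_algebraMap'] at h1
  have h3 : (∏ i, e i ^ z i) ≠ 0 :=
    Finset.prod_ne_zero_iff.2 fun i _ => zpow_ne_zero _ (hne i)
  by_contra h4
  exact absurd h1 (not_le.2 (mul_pos (norm_pos_iff.2 h4) (norm_pos_iff.2 h3)))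

/-- reduction modulo `∏ X i - ϖ` -/
private theorem s2_red {R : Type*} [CommRing R] (r : ℕ) (ϖ : R)
    (F : MvPolynomial (Fin (r + 1)) R) :
    ∃ F' : MvPolynomial (Fin (r + 1)) R,
      F - F' ∈ Ideal.span
        {(∏ i, MvPolynomial.X i - MvPolynomial.C ϖ : MvPolynomial (Fin (r + 1)) R)} ∧
      ∀ n : Fin (r + 1) →₀ ℕ, (∀ i, 1 ≤ n i) → F'.coeff n = 0 := by
  classical
  set I := Ideal.span
    {(∏ i, MvPolynomial.X i - MvPolynomial.C ϖ : MvPolynomial (Fin (r + 1)) R)} with hI
  induction F using MvPolynomial.induction_on' with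
  | monomial n a =>
    obtain ⟨N, hN⟩ : ∃ N, n 0 = N := ⟨_, rfl⟩
    induction N generalizing n a with
    | zero =>
      refine ⟨MvPolynomial.monomial n a, by rw [sub_self]; exact I.zero_mem, ?_⟩
      intro n' hn'
      rw [MvPolynomial.coeff_monomial, if_neg]
      rintro rfl
      have := hn' 0
      omega
    | succ N ih =>
      by_cases hall : ∀ i, 1 ≤ n i
      · set one : Fin (r + 1) →₀ ℕ := Finsupp.equivFunOnFinite.symm (fun _ => 1) with hone
        set n' : Fin (r + 1) →₀ ℕ := n - one with hn'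
        have h1 : n = n' + one := by
          ext i
          have := hall i
          simp only [hn', hone, Finsupp.coe_add, Finsupp.coe_tsub, Pi.add_apply, Pi.sub_apply,
            Finsupp.equivFunOnFinite_symm_apply_apply]
          omega
        have h2 : n' 0 = N := by
          simp only [hn', hone, Finsupp.coe_tsub, Pi.sub_apply,
            Finsupp.equivFunOnFinite_symm_apply_apply]
          omega
        obtain ⟨F', hF', hred⟩ := ih n' (a * ϖ) h2
        refine ⟨F', ?_, hred⟩
        have h3 : (MvPolynomial.monomial one (1 : R)) = ∏ i, MvPolynomial.X i := by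
          rw [MvPolynomial.monomial_eq, map_one, one_mul]
          rw [Finsupp.prod_fintype]
          · refine Finset.prod_congr rfl fun i _ => ?_
            simp [hone]
          · intro i
            rw [pow_zero]
        have h4 : MvPolynomial.monomial n a =
            MvPolynomial.monomial n' a * ∏ i, MvPolynomial.X i := by
          rw [← h3, MvPolynomial.monomial_mul, mul_one, ← h1]
        have h5 : MvPolynomial.monomial n' (a * ϖ) =
            MvPolynomial.monomial n' a * MvPolynomial.C ϖ := by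
          rw [mul_comm (MvPolynomial.monomial n' a), MvPolynomial.C_mul_monomial, mul_comm a ϖ]
        have h6 : MvPolynomial.monomial n a - F' =
            MvPolynomial.monomial n' a * (∏ i, MvPolynomial.X i - MvPolynomial.C ϖ) +
              (MvPolynomial.monomial n' (a * ϖ) - F') := by
          rw [h4, h5]
          ring
        rw [h6]
        refine I.add_mem (I.mul_mem_left _ (Ideal.subset_span rfl)) hF'
      · refine ⟨MvPolynomial.monomial n a, by rw [sub_self]; exact I.zero_mem, ?_⟩
        intro n' hn'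
        rw [MvPolynomial.coeff_monomial, if_neg]
        rintro rfl
        exact hall hn'
  | add p q hp hq =>
    obtain ⟨p', hp', hpr⟩ := hp
    obtain ⟨q', hq', hqr⟩ := hq
    refine ⟨p' + q', ?_, ?_⟩
    · have h1 : p + q - (p' + q') = (p - p') + (q - q') := by ring
      rw [h1]
      exact I.add_mem hp' hq'
    · intro n hn
      rw [MvPolynomial.coeff_add, hpr n hn, hqr n hn, add_zero]

/-- S2b (kernel).  Proof.  The generator is in the kernel (`prod_tor`). Let `F` be in the kernel. Modulo the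
generator every monomial is a constant (a power of `ϖ`) times a monomial `X ^ n` with `n i = 0` for some
`i` (induction on the degree), so we may assume that only such monomials occur in `F`. Such a monomial has
the value `π ^ (n 0) * ∏ t (i+1) ^ (n (i+1) - n 0)`, and the exponent `(n (i+1) - n 0)_i ∈ ℤ ^ r` determines
`n` (`n 0 = max 0 (max (- z i))`, because `min n = 0`). So by S2a all coefficients of `F` are `0`
(`π ≠ 0`). -/
theorem ker_tor (hne : ∀ i, e i ≠ 0)
    (hind : ∀ (z : Fin r → ℤ) (c : k), ‖c‖ = ‖∏ i, e i ^ z i‖ → z = 0) {c : Fin r → k} {π : k}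
    (hc : ∀ i, c i ≠ 0) (hπ : π ≠ 0) {ϖ : O k} (hϖ : (ϖ : k) = π) :
    RingHom.ker (MvPolynomial.aeval (tor k e c π) : MvPolynomial (Fin (r + 1)) (O k) →ₐ[O k] L) =
      Ideal.span
        {(∏ i, MvPolynomial.X i - MvPolynomial.C ϖ : MvPolynomial (Fin (r + 1)) (O k))} := by
  classical
  have hgen : (∏ i, MvPolynomial.X i - MvPolynomial.C ϖ : MvPolynomial (Fin (r + 1)) (O k)) ∈
      RingHom.ker (MvPolynomial.aeval (tor k e c π) :
        MvPolynomial (Fin (r + 1)) (O k) →ₐ[O k] L) := by
    rw [RingHom.mem_ker, map_sub, map_prod, MvPolynomial.aeval_C]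
    simp only [MvPolynomial.aeval_X]
    rw [prod_tor hne hc π, ← hϖ]
    exact sub_self _
  have hle : Ideal.span
      {(∏ i, MvPolynomial.X i - MvPolynomial.C ϖ : MvPolynomial (Fin (r + 1)) (O k))} ≤
      RingHom.ker (MvPolynomial.aeval (tor k e c π) :
        MvPolynomial (Fin (r + 1)) (O k) →ₐ[O k] L) := by
    rw [Ideal.span_le, Set.singleton_subset_iff]
    exact hgen
  refine le_antisymm ?_ hle
  intro F hF
  obtain ⟨F', hFF', hred⟩ := s2_red r ϖ F
  have hF' : MvPolynomial.aeval (tor k e c π) F' = 0 := by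
    have h1 : MvPolynomial.aeval (tor k e c π) (F - F') = 0 := hle hFF'
    have h2 : MvPolynomial.aeval (tor k e c π) F = 0 := hF
    rw [map_sub, h2, zero_sub, neg_eq_zero] at h1
    exact h1
  -- the monomials
  set zz : (Fin (r + 1) →₀ ℕ) → (Fin r → ℤ) := fun n i => (n i.succ : ℤ) - n 0 with hzz
  set b : (Fin (r + 1) →₀ ℕ) → k := fun n => π ^ n 0 * ∏ i : Fin r, c i ^ (-(zz n i)) with hb
  have hb0 : ∀ n, b n ≠ 0 := by
    intro n
    rw [hb]
    exact mul_ne_zero (pow_ne_zero _ hπ)
      (Finset.prod_ne_zero_iff.2 fun i _ => zpow_ne_zero _ (hc i))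
  have hc' : ∀ i, algebraMap k L (c i) ≠ 0 := fun i => (_root_.map_ne_zero _).2 (hc i)
  have hmon : ∀ n : Fin (r + 1) →₀ ℕ, ∏ i, tor k e c π i ^ n i =
      algebraMap k L (b n) * ∏ i, e i ^ zz n i := by
    intro n
    rw [Fin.prod_univ_succ]
    simp only [tor, Fin.cons_zero, Fin.cons_succ]
    rw [hb]
    simp only [map_mul, map_pow, map_prod, map_zpow₀]
    rw [mul_pow, mul_assoc, mul_assoc]
    congr 1
    rw [← Finset.prod_pow, ← Finset.prod_mul_distrib, ← Finset.prod_mul_distrib]
    refine Finset.prod_congr rfl fun i _ => ?_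
    have h1 := hc' i
    have h2 := hne i
    rw [hzz]
    simp only
    rw [neg_sub, zpow_sub₀ h1, zpow_sub₀ h2, zpow_natCast, zpow_natCast, zpow_natCast,
      zpow_natCast, div_pow, div_pow]
    field_simp
  -- `zz` is injective on reduced exponents
  have hinj : ∀ n n' : Fin (r + 1) →₀ ℕ, (∃ i, n i = 0) → (∃ i, n' i = 0) → zz n = zz n' →
      n = n' := by
    intro n n' hn hn' h
    have h1 : ∀ i, (n i : ℤ) - n' i = n 0 - n' 0 := by
      intro i
      refine Fin.cases ?_ ?_ i
      · rfl
      · intro i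
        have h2 := congrFun h i
        simp only [hzz] at h2
        linarith
    have h3 : n 0 = n' 0 := by
      obtain ⟨i, hi⟩ := hn
      obtain ⟨i', hi'⟩ := hn'
      have h4 := h1 i
      have h5 := h1 i'
      omega
    ext i
    have h4 := h1 i
    omega
  have hsupp : ∀ n ∈ F'.support, ∃ i, n i = 0 := by
    intro n hn
    by_contra hcon
    push Not at hcon
    exact (MvPolynomial.mem_support_iff.1 hn)
      (hred n fun i => Nat.one_le_iff_ne_zero.2 (hcon i))
  have hli : LinearIndependent k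
      (fun n : (F'.support : Set (Fin (r + 1) →₀ ℕ)) => ∏ i, e i ^ zz n i) := by
    refine (linearIndependent_zpow hne hind).comp
      (fun n : (F'.support : Set (Fin (r + 1) →₀ ℕ)) => zz n) ?_
    intro n n' h
    exact Subtype.ext (hinj n n' (hsupp _ n.2) (hsupp _ n'.2) h)
  have hsum : ∑ n ∈ F'.support, (((F'.coeff n : O k) : k) * b n) • ∏ i, e i ^ zz n i = 0 := by
    rw [← hF', MvPolynomial.aeval_def, MvPolynomial.eval₂_eq']
    refine Finset.sum_congr rfl fun n _ => ?_
    rw [hmon, Algebra.smul_def, map_mul, mul_assoc]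
    rfl
  have hzero : F' = 0 := by
    ext n
    rw [MvPolynomial.coeff_zero]
    by_contra hne0
    have hn : n ∈ F'.support := by
      rw [MvPolynomial.mem_support_iff]
      intro h0
      exact hne0 (by rw [h0])
    have h1 : LinearIndepOn k (fun n => ∏ i, e i ^ zz n i)
        (F'.support : Set (Fin (r + 1) →₀ ℕ)) := hli
    rw [linearIndepOn_finset_iff] at h1
    have h2 := h1 (fun n => ((F'.coeff n : O k) : k) * b n) hsum n hn
    rcases mul_eq_zero.1 h2 with h3 | h3
    · exact hne0 (by exact_mod_cast h3)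
    · exact hb0 n h3
  rw [hzero, sub_zero] at hFF'
  exact hFF'

/-- S2c.  The first isomorphism theorem; the range of the evaluation is `Tt k e c π`
(`Algebra.adjoin_range_eq_range_aeval`). -/
theorem exists_ss_equiv (hne : ∀ i, e i ≠ 0)
    (hind : ∀ (z : Fin r → ℤ) (c : k), ‖c‖ = ‖∏ i, e i ^ z i‖ → z = 0) {c : Fin r → k} {π : k}
    (hc : ∀ i, c i ≠ 0) (hπ : π ≠ 0) {ϖ : O k} (hϖ : (ϖ : k) = π) :
    ∃ ψ : SSr r ϖ ≃ₐ[O k] ↥(Tt k e c π), ∀ i, ((ψ (SSr.x i) : Tt k e c π) : L) = tor k e c π i := by
  classical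
  have hker := ker_tor hne hind hc hπ hϖ
  let f : MvPolynomial (Fin (r + 1)) (O k) →ₐ[O k] Tt k e c π :=
    MvPolynomial.aeval
      (fun i => (⟨tor k e c π i, Algebra.subset_adjoin ⟨i, rfl⟩⟩ : Tt k e c π))
  have hcomp : (Tt k e c π).val.comp f = MvPolynomial.aeval (tor k e c π) := by
    refine MvPolynomial.algHom_ext fun i => ?_
    rw [AlgHom.comp_apply]
    simp only [f, MvPolynomial.aeval_X]
    rfl
  have hcoe : ∀ F, ((f F : Tt k e c π) : L) = MvPolynomial.aeval (tor k e c π) F := by
    intro F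
    rw [← hcomp]
    rfl
  have hf : ∀ F, f F = 0 ↔ F ∈ Ideal.span
      {(∏ i, MvPolynomial.X i - MvPolynomial.C ϖ : MvPolynomial (Fin (r + 1)) (O k))} := by
    intro F
    rw [← hker, RingHom.mem_ker, ← hcoe]
    constructor
    · intro h
      rw [h]
      rfl
    · intro h
      exact Subtype.ext h
  have hsurj : Function.Surjective f := by
    rintro ⟨x, hx⟩
    have hle : Tt k e c π ≤
        (MvPolynomial.aeval (tor k e c π) :
          MvPolynomial (Fin (r + 1)) (O k) →ₐ[O k] L).range := by
      refine Algebra.adjoin_le ?_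
      rintro _ ⟨i, rfl⟩
      exact ⟨MvPolynomial.X i, MvPolynomial.aeval_X _ i⟩
    obtain ⟨F, hF⟩ := hle hx
    refine ⟨F, Subtype.ext ?_⟩
    rw [hcoe]
    exact hF
  let g : SSr r ϖ →ₐ[O k] Tt k e c π :=
    Ideal.Quotient.liftₐ _ f (fun F hF => (hf F).2 hF)
  have hg : ∀ F, g (Ideal.Quotient.mk _ F) = f F := fun F => rfl
  have hbij : Function.Bijective g := by
    constructor
    · rw [injective_iff_map_eq_zero]
      intro x hx
      obtain ⟨F, rfl⟩ := Ideal.Quotient.mk_surjective x
      rw [hg] at hx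
      exact Ideal.Quotient.eq_zero_iff_mem.2 ((hf F).1 hx)
    · intro y
      obtain ⟨F, hF⟩ := hsurj y
      exact ⟨Ideal.Quotient.mk _ F, by rw [hg]; exact hF⟩
  refine ⟨AlgEquiv.ofBijective g hbij, fun i => ?_⟩
  have h1 : (AlgEquiv.ofBijective g hbij) (SSr.x i) = f (MvPolynomial.X i) := rfl
  rw [h1, hcoe, MvPolynomial.aeval_X]

end

end DA
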