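import Pool.Agent.Lib.DA.EUb

/-!
# Module Xa: residual data over `k(e)`
-/

namespace DA

open Polynomial MP1a953e

section
variable {Ω : Type*} [NormedField Ω] [IsUltrametricDist Ω]

private theorem xa_sum_lt {I : Type*} (s : Finset I) (f : I → Ω) {B : ℝ} (hB : 0 < B)
    (h : ∀ i ∈ s, ‖f i‖ < B) : ‖∑ i ∈ s, f i‖ < B := by
  classical
  induction s using Finset.induction_on with
  | empty => simpa using hB
  | insert a s ha ih =>
    rw [Finset.sum_insert ha]
    exact (IsUltrametricDist.norm_add_le_max _ _).trans_lt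
      (max_lt (h a (Finset.mem_insert_self _ _))
        (ih fun i hi => h i (Finset.mem_insert_of_mem hi)))

/-- orthogonality over `K'` implies orthogonality over `K''` if the unit ball of `K''` is approximated
by `K'` up to elements of norm `< 1` -/
private theorem xa_orth {I : Type*} [Fintype I] {K' K'' : Subfield Ω} (b : I → Ω)
    (hb : ∀ i, ‖b i‖ ≤ 1) (happ : ∀ x ∈ K'', ‖x‖ ≤ 1 → ∃ y ∈ K', ‖x - y‖ < 1)
    (h : ∀ c : I → Ω, (∀ i, c i ∈ K') → ∀ i, ‖c i‖ ≤ ‖∑ t, c t * b t‖)
    (c : I → Ω) (hc : ∀ i, c i ∈ K'') (i : I) : ‖c i‖ ≤ ‖∑ t, c t * b t‖ := by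
  classical
  obtain ⟨i₀, -, hi₀⟩ := Finset.exists_max_image Finset.univ (fun i => ‖c i‖)
    ⟨i, Finset.mem_univ i⟩
  refine (hi₀ i (Finset.mem_univ i)).trans ?_
  by_cases h0 : c i₀ = 0
  · rw [h0, norm_zero]; exact norm_nonneg _
  · have hn0 : 0 < ‖c i₀‖ := norm_pos_iff.2 h0
    have h1 : ∀ t, ∃ y ∈ K', ‖c t / c i₀ - y‖ < 1 := by
      intro t
      refine happ _ (div_mem (hc t) (hc i₀)) ?_
      rw [norm_div, div_le_one hn0]
      exact hi₀ t (Finset.mem_univ t)
    choose y hy hyn using h1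
    set y' : I → Ω := Function.update y i₀ 1 with hy'
    have hy'K : ∀ t, y' t ∈ K' := by
      intro t
      by_cases ht : t = i₀
      · rw [hy', ht, Function.update_self]; exact one_mem K'
      · rw [hy', Function.update_of_ne ht]; exact hy t
    have hy'n : ∀ t, ‖c t / c i₀ - y' t‖ < 1 := by
      intro t
      by_cases ht : t = i₀
      · rw [hy', ht, Function.update_self, div_self h0, sub_self, norm_zero]; exact one_pos
      · rw [hy', Function.update_of_ne ht]; exact hyn t
    have h2 : (1 : ℝ) ≤ ‖∑ t, y' t * b t‖ := by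
      have := h y' hy'K i₀
      rwa [hy', Function.update_self, norm_one, ← hy'] at this
    have h3 : ‖∑ t, (c t / c i₀ - y' t) * b t‖ < 1 := by
      refine xa_sum_lt _ _ one_pos fun t _ => ?_
      rw [norm_mul]
      calc ‖c t / c i₀ - y' t‖ * ‖b t‖ ≤ ‖c t / c i₀ - y' t‖ * 1 :=
            mul_le_mul_of_nonneg_left (hb t) (norm_nonneg _)
        _ < 1 := by rw [mul_one]; exact hy'n t
    have h4 : ∑ t, y' t * b t = (∑ t, c t * b t) / c i₀ - ∑ t, (c t / c i₀ - y' t) * b t := by
      rw [Finset.sum_div, ← Finset.sum_sub_distrib]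
      refine Finset.sum_congr rfl fun t _ => ?_
      ring
    have h5 : (1 : ℝ) ≤ ‖(∑ t, c t * b t) / c i₀‖ := by
      by_contra hlt
      push Not at hlt
      have h6 : ‖∑ t, y' t * b t‖ < 1 := by
        rw [h4, sub_eq_add_neg]
        refine (IsUltrametricDist.norm_add_le_max _ _).trans_lt (max_lt hlt ?_)
        rw [norm_neg]; exact h3
      exact absurd h6 (not_lt.2 h2)
    rw [norm_div, le_div_iff₀ hn0, one_mul] at h5
    exact h5

/-- the Gauss norm property over `K'` implies the one over `K''` -/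
private theorem xa_gauss {K' K'' : Subfield Ω} {m : ℕ} {U : Fin m → Ω} (hU : ∀ i, ‖U i‖ ≤ 1)
    (happ : ∀ x ∈ K'', ‖x‖ ≤ 1 → ∃ y ∈ K', ‖x - y‖ < 1)
    (h : ∀ P : MvPolynomial (Fin m) Ω, MC K' P → ∀ s, ‖P.coeff s‖ ≤ ‖MvPolynomial.eval U P‖)
    (P : MvPolynomial (Fin m) Ω) (hP : MC K'' P) (s : Fin m →₀ ℕ) :
    ‖P.coeff s‖ ≤ ‖MvPolynomial.eval U P‖ := by
  classical
  by_cases hs : s ∈ P.support
  · have h1 : MvPolynomial.eval U P =
        ∑ t : P.support, P.coeff t * ∏ i, U i ^ (t : Fin m →₀ ℕ) i := by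
      rw [MvPolynomial.eval_eq', ← Finset.sum_coe_sort P.support
        (fun t => P.coeff t * ∏ i, U i ^ t i)]
    rw [h1]
    refine xa_orth (I := P.support) (K' := K') (K'' := K'')
      (fun t => ∏ i, U i ^ (t : Fin m →₀ ℕ) i) (fun t => ?_) happ ?_
      (fun t => P.coeff t) (fun t => hP _) ⟨s, hs⟩
    · rw [norm_prod]
      refine Finset.prod_le_one (fun _ _ => norm_nonneg _) fun i _ => ?_
      rw [norm_pow]
      exact pow_le_one₀ (norm_nonneg _) (hU i)
    · intro c hc t
      set Q : MvPolynomial (Fin m) Ω := ∑ t : P.support,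
        MvPolynomial.monomial (t : Fin m →₀ ℕ) (c t) with hQ
      have hQc : ∀ t : P.support, Q.coeff t = c t := by
        intro t
        rw [hQ, MvPolynomial.coeff_sum, Finset.sum_eq_single t]
        · rw [MvPolynomial.coeff_monomial, if_pos rfl]
        · intro t' _ htt'
          rw [MvPolynomial.coeff_monomial, if_neg]
          exact fun e => htt' (Subtype.ext e)
        · intro ht
          exact absurd (Finset.mem_univ t) ht
      have hQK : MC K' Q := by
        intro a
        rw [hQ, MvPolynomial.coeff_sum]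
        refine sum_mem fun t _ => ?_
        rw [MvPolynomial.coeff_monomial]
        split_ifs
        · exact hc t
        · exact zero_mem K'
      have hQe : MvPolynomial.eval U Q = ∑ t : P.support,
          c t * ∏ i, U i ^ (t : Fin m →₀ ℕ) i := by
        rw [hQ, map_sum]
        refine Finset.sum_congr rfl fun t _ => ?_
        rw [MvPolynomial.eval_monomial]
        congr 1
        exact Finsupp.prod_fintype _ _ fun i => pow_zero _
      rw [← hQe, ← hQc t]
      exact h Q hQK t
  · rw [MvPolynomial.notMem_support_iff.1 hs, norm_zero]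
    exact norm_nonneg _

end

section
variable {k L Ω : Type*} [NormedField k] [IsUltrametricDist k] [NormedField L]
  [IsUltrametricDist L] [NormedAlgebra k L] [NormedField Ω] [IsUltrametricDist Ω]
  {ι : L →+* Ω} {r m : ℕ} {e : Fin r → L} {u : Fin m → L}

/-- residues of elements of `k(e, u)` come from `k(u)` -/
private theorem xa_res (h : EU k e u) {x : L} (hx : x ∈ keu k e u) (hx1 : ‖x‖ ≤ 1) :
    ∃ y ∈ IntermediateField.adjoin k (Set.range u), ‖x - y‖ < 1 := by
  by_cases hx0 : x = 0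
  · exact ⟨0, zero_mem _, by rw [hx0, sub_self, norm_zero]; exact one_pos⟩
  obtain ⟨z, c, hc, a, ha, b, hb, hna, hnb, hxe⟩ := EU.exists_frac h hx hx0
  have hmon : ‖x‖ = ‖mon k e z c‖ := by
    rw [hxe, norm_mul, norm_div, hna, hnb, div_one, mul_one]
  by_cases hlt : ‖mon k e z c‖ < 1
  · exact ⟨0, zero_mem _, by rw [sub_zero, hmon]; exact hlt⟩
  have h1 : ‖mon k e z c‖ = 1 := le_antisymm (hmon ▸ hx1) (not_lt.1 hlt)
  have hz : z = 0 := by
    refine h.ind z c⁻¹ ?_
    have hc' : ‖c‖ ≠ 0 := norm_ne_zero_iff.2 hc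
    unfold mon at h1
    rw [norm_mul, norm_algebraMap'] at h1
    rw [norm_inv, inv_eq_iff_eq_inv, ← mul_eq_one_iff_eq_inv₀]
    · exact h1
    · intro h2
      rw [h2, mul_zero] at h1
      exact zero_ne_one h1
  have hmc : mon k e z c = algebraMap k L c := by
    unfold mon
    rw [hz]
    simp
  have hc1 : ‖(algebraMap k L c : L)‖ = 1 := by rw [← hmc]; exact h1
  obtain ⟨P, -, hPa⟩ := EU.exists_res h ha
  obtain ⟨Q, -, hQb⟩ := EU.exists_res h hb
  set A : L := MvPolynomial.aeval u P with hA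
  set B : L := MvPolynomial.aeval u Q with hB
  have hmem : ∀ R : MvPolynomial (Fin m) k,
      (MvPolynomial.aeval u R : L) ∈ IntermediateField.adjoin k (Set.range u) := by
    intro R
    have h2 : (MvPolynomial.aeval u R : L) ∈ Algebra.adjoin k (Set.range u) := by
      rw [Algebra.adjoin_range_eq_range_aeval]
      exact ⟨R, rfl⟩
    exact IntermediateField.algebra_adjoin_le_adjoin k _ h2
  have hB1 : ‖B‖ = 1 := by
    have h2 : ‖b - B‖ < ‖b‖ := by rw [hnb]; exact hQb
    have h3 : B = b + -(b - B) := by ring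
    have h4 : ‖B‖ ≤ 1 := by
      rw [h3]
      refine (IsUltrametricDist.norm_add_le_max _ _).trans (max_le hnb.le ?_)
      rw [norm_neg]; exact hQb.le
    have h5 : (1 : ℝ) ≤ ‖B‖ := by
      by_contra hlt2
      push Not at hlt2
      have h6 : b = (b - B) + B := by ring
      have h7 : ‖b‖ < 1 := by
        rw [h6]
        exact (IsUltrametricDist.norm_add_le_max _ _).trans_lt (max_lt hQb hlt2)
      linarith
    exact le_antisymm h4 h5
  have hb0 : b ≠ 0 := fun e0 => by rw [e0, norm_zero] at hnb; exact zero_ne_one hnb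
  have hB0 : B ≠ 0 := fun e0 => by rw [e0, norm_zero] at hB1; exact zero_ne_one hB1
  refine ⟨algebraMap k L c * (A / B), mul_mem (algebraMap_mem _ _)
    (div_mem (hmem P) (hmem Q)), ?_⟩
  have e1 : x - algebraMap k L c * (A / B) =
      algebraMap k L c * ((b * (a - A) + -(a * (b - B))) / (b * B)) := by
    rw [hxe, hmc]
    field_simp
    ring
  rw [e1, norm_mul, hc1, one_mul, norm_div, norm_mul b B, hnb, hB1, mul_one, div_one]
  refine (IsUltrametricDist.norm_add_le_max _ _).trans_lt (max_lt ?_ ?_)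
  · rw [norm_mul, hnb, one_mul]; exact hPa
  · rw [norm_neg, norm_mul, hna, one_mul]; exact hQb

/-- the field `kM ι e u` is the image of `k(e, u)` -/
theorem kM_eq : kM (k := k) ι e u = (keu k e u).toSubfield.map ι := by
  apply le_antisymm
  · refine sup_le (sup_le ?_ ?_) ?_
    · rintro _ ⟨c, rfl⟩
      exact ⟨algebraMap k L c, (keu k e u).algebraMap_mem c, rfl⟩
    · rw [Subfield.closure_le]
      rintro _ ⟨i, rfl⟩
      exact ⟨e i, IntermediateField.subset_adjoin k _ (Or.inl ⟨i, rfl⟩), rfl⟩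
    · rw [Subfield.closure_le]
      rintro _ ⟨i, rfl⟩
      exact ⟨u i, IntermediateField.subset_adjoin k _ (Or.inr ⟨i, rfl⟩), rfl⟩
  · rintro _ ⟨x, hx, rfl⟩
    have hx' : x ∈ IntermediateField.adjoin k (Set.range e ∪ Set.range u) := hx
    clear hx
    induction hx' using IntermediateField.adjoin_induction with
    | mem x hx =>
      rcases hx with ⟨i, rfl⟩ | ⟨i, rfl⟩
      · refine (le_sup_left : kU (kO k ι) (fun i => ι (e i)) ≤ kM (k := k) ι e u) ?_
        exact (le_sup_right : Subfield.closure (Set.range fun i => ι (e i)) ≤ _)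
          (Subfield.subset_closure ⟨i, rfl⟩)
      · exact (le_sup_right : Subfield.closure (Set.range fun i => ι (u i)) ≤
          kM (k := k) ι e u) (Subfield.subset_closure ⟨i, rfl⟩)
    | algebraMap c =>
      refine (le_sup_left : kU (kO k ι) (fun i => ι (e i)) ≤ kM (k := k) ι e u) ?_
      exact (le_sup_left : kO k ι ≤ _) ⟨c, rfl⟩
    | add x y _ _ hx hy => rw [map_add]; exact add_mem hx hy
    | inv x _ hx => rw [map_inv₀]; exact inv_mem hx
    | mul x y _ _ hx hy => rw [map_mul]; exact mul_mem hx hy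

/-- the image of `k(u)` -/
private theorem xa_kU {x : L} (hx : x ∈ IntermediateField.adjoin k (Set.range u)) :
    ι x ∈ kU (kO k ι) (fun i => ι (u i)) := by
  induction hx using IntermediateField.adjoin_induction with
  | mem x hx =>
    obtain ⟨i, rfl⟩ := hx
    exact (le_sup_right : Subfield.closure (Set.range fun i => ι (u i)) ≤ _)
      (Subfield.subset_closure ⟨i, rfl⟩)
  | algebraMap c => exact (le_sup_left : kO k ι ≤ _) ⟨c, rfl⟩
  | add x y _ _ hx hy => rw [map_add]; exact add_mem hx hy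
  | inv x _ hx => rw [map_inv₀]; exact inv_mem hx
  | mul x y _ _ hx hy => rw [map_mul]; exact mul_mem hx hy

private theorem xa_appU (hι : ∀ x, ‖ι x‖ = ‖x‖) (h : EU k e u) :
    ∀ x ∈ kU (kU (kO k ι) fun i => ι (e i)) (fun i => ι (u i)), ‖x‖ ≤ 1 →
      ∃ y ∈ kU (kO k ι) (fun i => ι (u i)), ‖x - y‖ < 1 := by
  intro x hx hx1
  have h1 : x ∈ (keu k e u).toSubfield.map ι := by rw [← kM_eq]; exact hx
  obtain ⟨x', hx', rfl⟩ := h1
  rw [hι] at hx1
  obtain ⟨y, hy, hxy⟩ := xa_res h hx' hx1
  exact ⟨ι y, xa_kU hy, by rw [← map_sub, hι]; exact hxy⟩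

/-- the part `e` of the basis alone -/
private theorem xa_eu0 (h : EU k e u) : EU k e (Fin.elim0 : Fin 0 → L) where
  ne := h.ne
  ind := h.ind
  norm_u := fun i => i.elim0
  gauss := by
    intro P s
    rw [MvPolynomial.eq_C_of_isEmpty P, MvPolynomial.aeval_C, norm_algebraMap',
      MvPolynomial.coeff_C]
    split_ifs
    · exact le_rfl
    · rw [norm_zero]; exact norm_nonneg _

private theorem xa_appE (hι : ∀ x, ‖ι x‖ = ‖x‖) (h : EU k e u) :
    ∀ x ∈ kU (kO k ι) (fun i => ι (e i)), ‖x‖ ≤ 1 → ∃ y ∈ kO k ι, ‖x - y‖ < 1 := by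
  intro x hx hx1
  have h0 : kU (kO k ι) (fun i => ι (e i)) ≤
      kU (kU (kO k ι) fun i => ι (e i)) (fun i => ι ((Fin.elim0 : Fin 0 → L) i)) := le_sup_left
  obtain ⟨y, hy, hxy⟩ := xa_appU hι (xa_eu0 h) x (h0 hx) hx1
  refine ⟨y, ?_, hxy⟩
  have h1 : kU (kO k ι) (fun i => ι ((Fin.elim0 : Fin 0 → L) i)) ≤ kO k ι := by
    refine sup_le le_rfl ?_
    rw [Subfield.closure_le]
    rintro _ ⟨i, rfl⟩
    exact i.elim0
  exact h1 hy

/-- Xa (residual data over `k(e)`).  Proof.  `gauss`: let `P` be a polynomial over `k'(e)` (`k' = kO k ι`);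
multiply by a common denominator in `k'[e]` to get coefficients in `k'[e^±]`, `P = (1/D) ∑_z P_z e ^ z`
with `P_z` polynomials over `k'`; the coefficient of `P` at `s` is `(1/D) ∑_z (P_z)_s e ^ z`, of norm
`≤ max_z ‖(P_z)_s‖ ‖e ^ z‖ / ‖D‖ ≤ max_z ‖P_z(U)‖ ‖e ^ z‖ / ‖D‖ = ‖P(U)‖` (`EU.sum_le` transported by
`ι`). `orth`: let `c i ∈ k'(e, U)`, not all `0`, `‖c i₀‖` maximal; dividing by `c i₀` we may assume that
all `‖c i‖ ≤ 1` and `c i₀ = 1`. Every element of `k(e, u)` of norm `≤ 1` differs by an element of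
norm `< 1` from an element of `k(u)` (`EU.exists_frac`, `EU.exists_res`: `mon k e z c * (a / b)`, where the
monomial has norm `< 1` or is a constant); replace the `c i` by elements `c' i ∈ k'(U)`, `c' i₀ = 1`; then
`‖∑ c' j a ^ j‖ = 1` by `hRD.orth` (and `‖a‖ ≤ 1`), so `‖∑ c j a ^ j‖ = 1`. The other items are
clear (`kU k' U ≤ kU (kU k' e) U`). -/
theorem rd_lift (hι : ∀ x, ‖ι x‖ = ‖x‖) (h : EU k e u) {d : ℕ} {a : Ω} {f : Polynomial Ω}
    (hRD : RD (kO k ι) (fun i => ι (u i)) d a f) :
    RD (kU (kO k ι) fun i => ι (e i)) (fun i => ι (u i)) d a f where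
  gauss := fun P hP s => xa_gauss hRD.norm_U (xa_appE hι h) hRD.gauss P hP s
  norm_U := hRD.norm_U
  norm_a := hRD.norm_a
  dpos := hRD.dpos
  orth := fun c hc i => by
    refine xa_orth (fun j : Fin d => a ^ (j : ℕ)) (fun j => ?_) (xa_appU hι h) hRD.orth c hc i
    rw [norm_pow]
    exact pow_le_one₀ (norm_nonneg _) hRD.norm_a
  coeffs := fun i => (sup_le_sup_right le_sup_left _ :
    kU (kO k ι) (fun i => ι (u i)) ≤ kU (kU (kO k ι) fun i => ι (e i)) (fun i => ι (u i)))
      (hRD.coeffs i)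
  monic := hRD.monic
  deg := hRD.deg
  norm_f := hRD.norm_f
  root := hRD.root
  deriv := hRD.deriv

private theorem xa_gauss0 (hι : ∀ x, ‖ι x‖ = ‖x‖) (h : EU k e u)
    (P : MvPolynomial (Fin m) Ω) (hP : MC (kO k ι) P) (s : Fin m →₀ ℕ) :
    ‖P.coeff s‖ ≤ ‖MvPolynomial.eval (fun i => ι (u i)) P‖ := by
  classical
  have h1 : ∀ t, ∃ c : k, ι (algebraMap k L c) = P.coeff t := fun t => hP t
  choose c hc using h1
  set Q : MvPolynomial (Fin m) k := ∑ t ∈ P.support, MvPolynomial.monomial t (c t) with hQ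
  have hPQ : P = MvPolynomial.map (ι.comp (algebraMap k L)) Q := by
    conv_lhs => rw [P.as_sum]
    rw [hQ, map_sum]
    refine Finset.sum_congr rfl fun t _ => ?_
    rw [MvPolynomial.map_monomial, RingHom.comp_apply, hc]
  have h2 : ‖P.coeff s‖ = ‖Q.coeff s‖ := by
    rw [hPQ, MvPolynomial.coeff_map, RingHom.comp_apply, hι, norm_algebraMap']
  have h3 : MvPolynomial.eval (fun i => ι (u i)) P = ι (MvPolynomial.aeval u Q) := by
    rw [hPQ, MvPolynomial.eval_map, MvPolynomial.aeval_def, MvPolynomial.hom_eval₂]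
  rw [h2, h3, hι]
  exact h.gauss Q s

/-- the trivial residual data `d = 1`, `a = 0`, `f = X` -/
theorem rd_triv (hι : ∀ x, ‖ι x‖ = ‖x‖) (h : EU k e u) :
    RD (kU (kO k ι) fun i => ι (e i)) (fun i => ι (u i)) 1 0 X := by
  refine rd_lift hι h ?_
  exact
    { gauss := xa_gauss0 hι h
      norm_U := fun i => by rw [hι]; exact h.norm_u i
      norm_a := by rw [norm_zero]; exact zero_le_one
      dpos := one_pos
      orth := by
        intro c _ i
        rw [Fin.sum_univ_one]
        have : i = 0 := Subsingleton.elim _ _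
        rw [this]
        simp
      coeffs := by
        intro i
        rw [coeff_X]
        split_ifs
        · exact one_mem _
        · exact zero_mem _
      monic := monic_X
      deg := natDegree_X
      norm_f := by
        intro i
        rw [coeff_X]
        split_ifs
        · rw [norm_one]
        · rw [norm_zero]; exact zero_le_one
      root := eval_X
      deriv := by rw [derivative_X, eval_one, norm_one] }

end

end DA
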