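import Pool.Agent.Lib.DA.Defs2
import Pool.Agent.Lib.HR.Stab1

/-!
# Module Ba: separable elements are dense in `C`
-/

namespace DA

open Polynomial MP1a953e

/-- Ba.  Proof.  Apply `HR.exists_sep_perturb` in the algebraically closed field `W = ↥C` with `E = j(M)` (as a
subfield of `↥C`, nontrivially normed because `k` is); every element of `C` is algebraic over it by
`ZSet.alg`. The minimal polynomial over `j(M)` of the new element comes from a polynomial over `M`
(`j : M ≅ j(M)`), which is separable. -/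
theorem exists_sep_near {k L E : Type*} [NontriviallyNormedField k] [NormedField L]
    [NormedAlgebra k L] [NormedField E] [IsUltrametricDist E] {M : IntermediateField k L}
    {C : Subfield E} {j : L →+* E} {z y : E} (h : ZSet M C j z y) {x : E} (hx : x ∈ C) {ε : ℝ}
    (hε : 0 < ε) :
    ∃ x' ∈ C, ‖x - x'‖ < ε ∧
      ∃ P : L[X], CoeffsIn M P ∧ P.Separable ∧ P.eval₂ j x' = 0 := by
  classical
  rcases eq_or_ne x 0 with hx0 | hx0
  · refine ⟨0, C.zero_mem, by rw [hx0]; simpa using hε, X, ?_, separable_X, ?_⟩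
    · intro i
      rw [coeff_X]
      split_ifs
      · exact M.one_mem
      · exact M.zero_mem
    · rw [eval₂_X]
  have hcl : IsAlgClosed C := h.closed
  -- the image of `M` in `C`
  let ψ : M →+* C := (j.comp (algebraMap M L)).codRestrict C (fun m => h.mem _ m.2)
  have hψ : ∀ m : M, ((ψ m : C) : E) = j (m : L) := fun m => rfl
  let F : Subfield C := ψ.fieldRange
  let φ : M →+* F := ψ.rangeRestrictField
  have hφ : ∀ m : M, (((φ m : F) : C) : E) = j (m : L) := fun m => rfl
  have hφsurj : Function.Surjective φ := by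
    rintro ⟨c, m, hm⟩
    exact ⟨m, Subtype.ext hm⟩
  -- evaluation
  have hev : ∀ (q : M[X]) (c : C), ((aeval c (q.map φ) : C) : E) =
      (q.map (algebraMap M L)).eval₂ j (c : E) := by
    intro q c
    rw [aeval_def, eval₂_map, eval₂_map]
    have h1 : (C.subtype : C →+* E) (eval₂ ((algebraMap F C).comp φ) c q) =
        eval₂ ((C.subtype : C →+* E).comp ((algebraMap F C).comp φ)) ((C.subtype : C →+* E) c) q :=
      Polynomial.hom_eval₂ _ _ _ _
    exact h1
  have hntF : ∃ x ∈ F, 1 < ‖x‖ := by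
    obtain ⟨a, ha⟩ := NormedField.exists_one_lt_norm k
    refine ⟨ψ (algebraMap k M a), ⟨_, rfl⟩, ?_⟩
    have h1 : ‖ψ (algebraMap k M a)‖ = ‖j (algebraMap k L a)‖ := rfl
    rw [h1, h.iso, norm_algebraMap']
    exact ha
  have halg : IsAlgebraic F (⟨x, hx⟩ : C) := by
    obtain ⟨P, hPM, hP0, hP⟩ := h.alg x hx
    have hl : P ∈ lifts (algebraMap M L) := by
      rw [lifts_iff_coeff_lifts]
      intro n
      exact ⟨⟨P.coeff n, hPM n⟩, rfl⟩
    obtain ⟨q, hq⟩ := (mem_lifts P).1 hl
    refine ⟨q.map φ, ?_, ?_⟩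
    · rw [Ne, Polynomial.map_eq_zero]
      rintro rfl
      rw [Polynomial.map_zero] at hq
      exact hP0 hq.symm
    · have h1 := hev q ⟨x, hx⟩
      rw [hq, hP] at h1
      exact Subtype.ext h1
  have hx0' : (⟨x, hx⟩ : C) ≠ 0 := by
    intro h0
    exact hx0 (congrArg (fun c : C => (c : E)) h0)
  obtain ⟨y₁, hsep, -, hclose⟩ := HR.exists_sep_perturb hntF halg hx0' hε
  refine ⟨y₁, y₁.2, hclose, ?_⟩
  obtain ⟨q, hq⟩ := Polynomial.map_surjective φ hφsurj (minpoly F y₁)
  have hqs : q.Separable := by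
    have h1 : (q.map φ).Separable := by
      rw [hq]
      exact hsep
    exact (Polynomial.separable_map φ).1 h1
  refine ⟨q.map (algebraMap M L), ?_, hqs.map, ?_⟩
  · intro i
    rw [coeff_map]
    exact (q.coeff i).2
  · rw [← hev, hq, minpoly.aeval]
    rfl

end DA
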