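import Pool.Agent.Lib.DA.V1

/-!
# Module D0: exact division
-/

namespace DA

open Polynomial MP1a953e

/-- D0 (exact division).  `R = RS A w`, `W = V d`.  Proof.  (0) Elements `B ≠ 0` of `A` with `w B = ‖B‖`
have `B⁻¹ ∈ R`; `‖x‖ ≤ w x` for `x ∈ R`. (1) Claim: there are `A', B ∈ W`, not both `0`, and `c ∈ R` with
`A' + q * B = f * c`. Let `q = a / b` with `a, b ∈ A`, `w b = ‖b‖`, `b ≠ 0`. Otherwise the map
`W × W → L`, `(A', B) ↦ b * A' + a * B` is injective (case `c = 0`) and its image `Y ≤ A` meets `f A`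
trivially (`b A' + a B = f c` with `c ∈ A` gives `A' + q B = f (c / b)`), so
`2 * finrank W ≤ n * (d + 1)` by `Filt.bound`, a contradiction. (2) `B ≠ 0`: if `B = 0` then
`A' = f c ≠ 0`, `c ≠ 0`, `‖A'‖ = w A' = w f * w c > ‖f‖ * ‖c‖ = ‖A'‖`. (3) So
`q = (- A') / B + f * (c / B)`. Norms: suppose `w A' > w (q B)`. Then `w (f c) = w A'`, and
`‖A'‖ ≤ max (‖f c‖) (‖q B‖) ≤ max (‖f‖ * w c) (w (q B)) < w A' = ‖A'‖` (`‖f‖ < w f`, `c ≠ 0`), a
contradiction. So `w A' ≤ w (q B)`, and `w (f c) ≤ w (q B)`. -/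
theorem exact_division {k L : Type*} [NormedField k] [NormedField L] [IsUltrametricDist L]
    [NormedAlgebra k L] {M : IntermediateField k L} {A : Subring L} {V : ℕ → Submodule M L}
    {n : ℕ} (h : Filt M A V n) {w : AbsoluteValue L ℝ} (hw : IsNonarchimedean w)
    (hle : ∀ g ∈ A, ‖g‖ ≤ w g) {d : ℕ} (heq : ∀ g ∈ V d, w g = ‖g‖) {f : L}
    (hf : f ∈ V (d + 1)) (hlt : ‖f‖ < w f)
    (hbig : n * (d + 1) < 2 * Module.finrank M (V d)) {q : L} (hq : q ∈ RS A w) :
    ∃ x ∈ V d, ∃ B ∈ V d, B ≠ 0 ∧ ∃ y ∈ RS A w, q = x / B + f * y ∧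
      w (x / B) ≤ w q ∧ w (f * y) ≤ w q := by
  obtain ⟨a, ha, b, hb, hb0, hwb, rfl⟩ := hq
  have hVA : ∀ g ∈ V d, g ∈ A := fun g hg => (h.mem g).2 ⟨d, hg⟩
  have hAR : ∀ g ∈ A, g ∈ RS A w := fun g hg => ⟨g, hg, 1, one_mem A, one_ne_zero, by simp, by simp⟩
  -- elements of `R`
  have hRle : ∀ x ∈ RS A w, ‖x‖ ≤ w x := by
    rintro _ ⟨a, ha, b, hb, hb0, hwb, rfl⟩
    rw [norm_div, map_div₀, hwb]
    exact div_le_div_of_nonneg_right (hle a ha) (norm_nonneg _)
  have hinv : ∀ B ∈ V d, B ≠ 0 → B⁻¹ ∈ RS A w := fun B hB hB0 =>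
    ⟨1, one_mem A, B, hVA B hB, hB0, heq B hB, by rw [one_div]⟩
  have hbinv : b⁻¹ ∈ RS A w := ⟨1, one_mem A, b, hb, hb0, hwb, by rw [one_div]⟩
  have hfA : f ∈ A := (h.mem f).2 ⟨d + 1, hf⟩
  have hwf : 0 < w f := (norm_nonneg f).trans_lt hlt
  have hf0 : f ≠ 0 := by
    rintro rfl
    rw [map_zero] at hwf
    exact lt_irrefl _ hwf
  -- (1)
  have claim : ∃ x ∈ V d, ∃ B ∈ V d, (x ≠ 0 ∨ B ≠ 0) ∧ ∃ c ∈ RS A w, x + a / b * B = f * c := by
    by_contra hcon
    push Not at hcon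
    have hfin : Module.Finite M (V d) := h.fin d
    let φ : (V d × V d) →ₗ[M] L :=
      { toFun := fun p => b * p.1 + a * p.2
        map_add' := fun p p' => by
          change b * ((p.1 : L) + p'.1) + a * ((p.2 : L) + p'.2) = _
          ring
        map_smul' := fun c p => by
          change b * (c • (p.1 : L)) + a * (c • (p.2 : L)) = c • (b * p.1 + a * p.2)
          rw [smul_add, mul_smul_comm, mul_smul_comm] }
    have hφ : ∀ p, φ p = b * p.1 + a * p.2 := fun p => rfl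
    have key : ∀ p : V d × V d, ∀ c ∈ A, φ p = f * c → p = 0 := by
      intro p c hc hpc
      rw [hφ] at hpc
      by_contra hp
      have hne : (p.1 : L) ≠ 0 ∨ (p.2 : L) ≠ 0 := by
        by_contra hcon2
        push Not at hcon2
        apply hp
        exact Prod.ext (Subtype.ext hcon2.1) (Subtype.ext hcon2.2)
      refine hcon p.1 p.1.2 p.2 p.2.2 hne (c * b⁻¹) (mul_mem (hAR c hc) hbinv) ?_
      field_simp
      linear_combination hpc
    have hinj : Function.Injective φ := by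
      rw [← LinearMap.ker_eq_bot, LinearMap.ker_eq_bot']
      intro p hp
      exact key p 0 (zero_mem A) (by rw [hp, mul_zero])
    have hb1 := h.bound hf hf0 (LinearMap.range φ) (by
      rintro y ⟨p, rfl⟩
      rw [hφ]
      exact add_mem (mul_mem hb (hVA _ p.1.2)) (mul_mem ha (hVA _ p.2.2))) (by
      rintro y ⟨p, rfl⟩ c hc hpc
      rw [key p c hc hpc, map_zero])
    rw [LinearMap.finrank_range_of_inj hinj, Module.finrank_prod] at hb1
    omega
  obtain ⟨x, hx, B, hB, hne, c, hc, hrel⟩ := claim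
  -- (2)
  have hB0 : B ≠ 0 := by
    rintro rfl
    have hx0 : x ≠ 0 := by
      rcases hne with h1 | h1
      · exact h1
      · exact absurd rfl h1
    rw [mul_zero, add_zero] at hrel
    have hc0 : c ≠ 0 := by
      rintro rfl
      rw [mul_zero] at hrel
      exact hx0 hrel
    have h1 : w x = ‖x‖ := heq x hx
    rw [hrel, map_mul, norm_mul] at h1
    have h2 : ‖f‖ * ‖c‖ ≤ ‖f‖ * w c := mul_le_mul_of_nonneg_left (hRle c hc) (norm_nonneg _)
    have h3 : ‖f‖ * w c < w f * w c := mul_lt_mul_of_pos_right hlt ((AbsoluteValue.pos_iff w).2 hc0)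
    linarith
  have hwB : 0 < w B := (AbsoluteValue.pos_iff w).2 hB0
  -- (3)
  have hqB : a / b * B ∈ RS A w :=
    mul_mem ⟨a, ha, b, hb, hb0, hwb, rfl⟩ (hAR _ (hVA B hB))
  have hmain : w x ≤ w (a / b * B) := by
    by_contra hcon
    push Not at hcon
    have h1 : w (f * c) ≤ w x := by
      rw [← hrel]
      exact (hw _ _).trans (max_le le_rfl hcon.le)
    have hwx0 : 0 < w x := (AbsoluteValue.nonneg w _).trans_lt hcon
    have h2 : x = f * c - a / b * B := by
      rw [← hrel]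
      ring
    have h3 : ‖x‖ ≤ max ‖f * c‖ ‖a / b * B‖ := by
      rw [h2, sub_eq_add_neg]
      refine (IsUltrametricDist.norm_add_le_max _ _).trans ?_
      rw [norm_neg]
    have h4 : ‖a / b * B‖ < w x := (hRle _ hqB).trans_lt hcon
    have h5 : ‖f * c‖ < w x := by
      rw [norm_mul]
      by_cases hc0 : c = 0
      · rw [hc0, norm_zero, mul_zero]
        exact hwx0
      · have h6 : ‖f‖ * ‖c‖ ≤ ‖f‖ * w c := mul_le_mul_of_nonneg_left (hRle c hc) (norm_nonneg _)
        have h7 : ‖f‖ * w c < w f * w c :=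
          mul_lt_mul_of_pos_right hlt ((AbsoluteValue.pos_iff w).2 hc0)
        rw [← map_mul] at h7
        linarith
    have h8 : ‖x‖ < w x := h3.trans_lt (max_lt h5 h4)
    rw [heq x hx] at h8
    exact lt_irrefl _ h8
  have hfc : w (f * c) ≤ w (a / b * B) := by
    rw [← hrel]
    exact (hw _ _).trans (max_le hmain le_rfl)
  refine ⟨-x, neg_mem hx, B, hB, hB0, c * B⁻¹, mul_mem hc (hinv B hB hB0), ?_, ?_, ?_⟩
  · field_simp
    field_simp at hrel
    linear_combination hrel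
  · rw [map_div₀, AbsoluteValue.map_neg, div_le_iff₀ hwB, ← map_mul]
    exact hmain
  · rw [← mul_assoc, ← div_eq_mul_inv, map_div₀, div_le_iff₀ hwB, ← map_mul]
    exact hfc

end DA
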