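import Pool.Agent.Lib.MP_1a953e_ag.EmbDefs
import Pool.Agent.Lib.MP_1a953e_ag.UDefs
import Pool.Agent.Lib.MP_1a953e_ag.LUDefs
import Pool.Agent.Lib.MP_1a953e_ag.DDefs

/-!
# Rank one points of transcendence defect one: definitions

Notation from `MP1a953e`: `O K` (valuation ring), `adj F x` (field generated by `F` and `x`),
`Coeffs F P`, `DenseIn`, `Imm`, `ImmAll`, `OrthBasis F F' θ`, `TT C t`, `TF`, `DenseVal`, `Emb`, `kO`.
-/

namespace DA

open Polynomial MP1a953e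

/-! ### Norms on a field `E` which are near the given norm -/

/-- the norm of a normed field as an absolute value -/
noncomputable def nabs (E : Type*) [NormedField E] : AbsoluteValue E ℝ :=
  IsAbsoluteValue.toAbsoluteValue (norm : E → ℝ)

/-- Gauss norm of radius `s`: the maximum of all `‖P.coeff i‖ * s ^ i` -/
noncomputable def gn {E : Type*} [NormedField E] (s : ℝ) (P : E[X]) : ℝ :=
  P.gaussNorm (nabs E) s

/-- `z` has no best approximation in `C` -/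
def NA {E : Type*} [NormedField E] (C : Subfield E) (z : E) : Prop :=
  ∀ b ∈ C, ∃ b' ∈ C, ‖z - b'‖ < ‖z - b‖

/-- the interval between the distance of `z` to `C` and `s₀` -/
def Iv {E : Type*} [NormedField E] (C : Subfield E) (z : E) (s₀ : ℝ) : Set ℝ :=
  Set.Ioo (Metric.infDist z (C : Set E)) s₀

/-- `P / Q` is a rational function over `C` without poles in the open disc of radius `s₀` around
`z` -/
structure Reg {E : Type*} [NormedField E] (C : Subfield E) (z : E) (s₀ : ℝ) (P Q : E[X]) :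
    Prop where
  cP : Coeffs C P
  cQ : Coeffs C Q
  ne : Q.eval z ≠ 0
  eq : ∀ s, 0 < s → s < s₀ → gn s (taylor z Q) = ‖Q.eval z‖

/-- the values at `z` of the rational functions over `C` without poles in the disc of radius `s₀` -/
def RegS {E : Type*} [NormedField E] (C : Subfield E) (z : E) (s₀ : ℝ) : Set E :=
  {x | ∃ P Q : E[X], Reg C z s₀ P Q ∧ x = P.eval z / Q.eval z}

/-- `w` is an absolute value of `E`, nonarchimedean, which on `C(z)` is the Gauss norm of the disc of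
radius `s` around `z` -/
structure GaussAt {E : Type*} [NormedField E] (C : Subfield E) (z : E) (s : ℝ)
    (w : AbsoluteValue E ℝ) : Prop where
  nonarch : IsNonarchimedean w
  val : ∀ P : E[X], Coeffs C P → w (P.eval z) = gn s (taylor z P)

/-- `Y` generates `E` over `C(z)` and the minimal polynomial of `Y` is dominated, up to the factor
`θ < 1`, by its linear coefficient. -/
structure NormalGen {E : Type*} [NormedField E] (C : Subfield E) (z Y : E) (θ : ℝ) : Prop where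
  norm_le : ‖Y‖ ≤ 1
  alg : IsAlgebraic (adj C z) Y
  gen : ∀ x : E, x ∈ adj (adj C z) Y
  nonneg : 0 ≤ θ
  lt : θ < 1
  ne : (((minpoly (adj C z) Y).coeff 1 : adj C z) : E) ≠ 0
  dom : ∀ i, i ≠ 1 → ‖(((minpoly (adj C z) Y).coeff i : adj C z) : E)‖ ≤
    θ * ‖(((minpoly (adj C z) Y).coeff 1 : adj C z) : E)‖

/-- `Y` is approximated by the elements `Yj j` of `RegS C z s₀`, for the given norm and for all absolute
values near it with `w Y ≤ 1`, which exist. -/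
structure ApproxGen {E : Type*} [NormedField E] (C : Subfield E) (z Y : E) (θ s₀ : ℝ)
    (Yj : ℕ → E) : Prop where
  nonneg : 0 ≤ θ
  lt_one : θ < 1
  lt : Metric.infDist z (C : Set E) < s₀
  reg : ∀ j, Yj j ∈ RegS C z s₀
  near : ∀ j, ‖Y - Yj j‖ ≤ θ ^ j
  ex : ∀ s ∈ Iv C z s₀, ∃ w : AbsoluteValue E ℝ, GaussAt C z s w ∧ w Y ≤ 1
  wnear : ∀ s ∈ Iv C z s₀, ∀ w : AbsoluteValue E ℝ, GaussAt C z s w → w Y ≤ 1 →
    ∀ j, w (Y - Yj j) ≤ θ ^ j

/-- A family of absolute values `w s` on `E`, for radii `s` between the distance of `z` to `C` and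
`s₀`, which on `C(z)` are the Gauss norms of the discs around `z`; `R` is a subring of functions which
are regular on these discs. -/
structure WFam {E : Type*} [NormedField E] (C : Subfield E) (z : E) (R : Subring E) (s₀ : ℝ)
    (w : ℝ → AbsoluteValue E ℝ) : Prop where
  lt : Metric.infDist z (C : Set E) < s₀
  gauss : ∀ s ∈ Iv C z s₀, GaussAt C z s (w s)
  le : ∀ s ∈ Iv C z s₀, ∀ g ∈ R, ‖g‖ ≤ w s g
  mono : ∀ s ∈ Iv C z s₀, ∀ s' ∈ Iv C z s₀, s ≤ s' → ∀ g ∈ R, w s g ≤ w s' g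
  cont : ∀ g ∈ R, ContinuousOn (fun s => w s g) (Iv C z s₀)
  eq : ∀ g : E, ∃ s₁, Metric.infDist z (C : Set E) < s₁ ∧
    ∀ s ∈ Iv C z s₀, s < s₁ → w s g = ‖g‖
  approx : ∀ s ∈ Iv C z s₀, ∀ g ∈ R, ∀ δ : ℝ, 0 < δ →
    ∃ P Q : E[X], Reg C z s₀ P Q ∧ w s (g - P.eval z / Q.eval z) ≤ δ

/-- The situation obtained from one dimensional theory over the algebraically closed field `C`: `L` is
embedded in `E = L C`, `C` is an algebraic closure of `M`, `C(z)` is dense in `E`, and `E = C(z)(y)`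
is separable over `C(z)`. -/
structure ZSet {k L E : Type*} [NormedField k] [NormedField L] [NormedAlgebra k L] [NormedField E]
    (M : IntermediateField k L) (C : Subfield E) (j : L →+* E) (z y : E) : Prop where
  iso : ∀ x, ‖j x‖ = ‖x‖
  closed : IsAlgClosed C
  nt : ∃ x ∈ C, 1 < ‖x‖
  mem : ∀ c ∈ M, j c ∈ C
  alg : ∀ x ∈ C, ∃ P : L[X], CoeffsIn M P ∧ P ≠ 0 ∧ P.eval₂ j x = 0
  na : NA C z
  sep : IsSeparable (adj C z) y
  gen : ∀ x : E, x ∈ adj (adj C z) y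
  dense : ∀ x : E, ∀ ε : ℝ, 0 < ε → ∃ g ∈ adj C z, ‖x - g‖ < ε
  imm : ∀ x : E, x ≠ 0 → ∃ c ∈ C, ‖x - c‖ < ‖x‖

/-- Stability of `M`: for finitely many elements of `C`, separable over `M`, the field generated by
them over `M` is approximated by the `M`-span of an `M`-orthogonal family. -/
def MStab {k L E : Type*} [NormedField k] [NormedField L] [NormedAlgebra k L] [NormedField E]
    (M : IntermediateField k L) (C : Subfield E) (j : L →+* E) : Prop :=
  ∀ X : Finset E, (∀ x ∈ X, x ∈ C ∧ ∃ P : L[X], CoeffsIn M P ∧ P.Separable ∧ P.eval₂ j x = 0) →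
    ∃ (l : ℕ) (θ : Fin l → E), (∀ i, θ i ∈ C ∧ θ i ≠ 0) ∧
      (∀ a : Fin l → L, (∀ i, a i ∈ M) → ∀ i, ‖j (a i) * θ i‖ ≤ ‖∑ t, j (a t) * θ t‖) ∧
      ∀ x ∈ Subfield.closure ((fun c : L => j c) '' (M : Set L) ∪ (X : Set E)),
        ∀ ε : ℝ, 0 < ε → ∃ a : Fin l → L, (∀ i, a i ∈ M) ∧ ‖x - ∑ t, j (a t) * θ t‖ ≤ ε * ‖x‖

/-! ### Filtrations -/

section
variable {k L : Type*} [Field k] [Field L] [Algebra k L]

/-- `O` is a ring of functions on an affine curve over `M`, `V D` the finite dimensional subspace of the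
functions of degree `≤ D` -/
structure Filt (M : IntermediateField k L) (A : Subring L) (V : ℕ → Submodule M L) (n : ℕ) :
    Prop where
  npos : 0 < n
  mem : ∀ g, g ∈ A ↔ ∃ D, g ∈ V D
  mono : Monotone V
  mul : ∀ d D, ∀ f ∈ V d, ∀ g ∈ V D, f * g ∈ V (d + D)
  fin : ∀ D, Module.Finite M (V D)
  one : (1 : L) ∈ V 0
  zero : ∀ g ∈ V 0, g ∈ M
  lower : ∃ γ : ℕ, ∀ D, n * D ≤ Module.finrank M (V D) + γ
  growth : ∃ D₀ : ℕ, ∀ D, D₀ ≤ D → Module.finrank M (V (D + 1)) = Module.finrank M (V D) + n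
  frac : ∀ x : L, ∃ a ∈ A, ∃ b ∈ A, b ≠ 0 ∧ x = a / b

/-- `b` is an `M`-orthogonal family for `w` -/
def Orth (M : IntermediateField k L) (w : AbsoluteValue L ℝ) {l : ℕ} (b : Fin l → L) : Prop :=
  (∀ j, b j ≠ 0) ∧
    ∀ a : Fin l → L, (∀ j, a j ∈ M) → ∀ i, w (a i * b i) ≤ w (∑ j, a j * b j)

/-- `V` has an `M`-orthogonal family whose `M`-span is dense in `V` -/
def AOB (M : IntermediateField k L) (w : AbsoluteValue L ℝ) (V : Submodule M L) : Prop :=
  ∃ (l : ℕ) (b : Fin l → L), (∀ j, b j ∈ V) ∧ Orth M w b ∧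
    ∀ x ∈ V, ∀ ε : ℝ, 0 < ε → ∃ a : Fin l → L, (∀ j, a j ∈ M) ∧
      w (x - ∑ j, a j * b j) ≤ ε * w x

/-- `V` has an `M`-orthogonal basis -/
def OBx (M : IntermediateField k L) (w : AbsoluteValue L ℝ) (V : Submodule M L) : Prop :=
  ∃ (l : ℕ) (b : Fin l → L), (∀ j, b j ∈ V) ∧ Orth M w b ∧
    ∀ x ∈ V, ∃ a : Fin l → L, (∀ j, a j ∈ M) ∧ x = ∑ j, a j * b j

end

section
variable {k L : Type*} [NormedField k] [NormedField L] [NormedAlgebra k L]

/-- fractions of elements of `A` whose denominator `b` satisfies `w b = ‖b‖` -/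
def RS (A : Subring L) (w : AbsoluteValue L ℝ) : Subring L where
  carrier := {q | ∃ a ∈ A, ∃ b ∈ A, b ≠ 0 ∧ w b = ‖b‖ ∧ q = a / b}
  mul_mem' := by
    rintro x y ⟨a, ha, b, hb, hb0, hwb, rfl⟩ ⟨a', ha', b', hb', hb0', hwb', rfl⟩
    exact ⟨a * a', mul_mem ha ha', b * b', mul_mem hb hb', mul_ne_zero hb0 hb0',
      by rw [map_mul, norm_mul, hwb, hwb'], by field_simp⟩
  one_mem' := ⟨1, one_mem A, 1, one_mem A, one_ne_zero, by simp, by simp⟩
  add_mem' := by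
    rintro x y ⟨a, ha, b, hb, hb0, hwb, rfl⟩ ⟨a', ha', b', hb', hb0', hwb', rfl⟩
    exact ⟨a * b' + b * a', add_mem (mul_mem ha hb') (mul_mem hb ha'), b * b', mul_mem hb hb',
      mul_ne_zero hb0 hb0', by rw [map_mul, norm_mul, hwb, hwb'], by field_simp⟩
  zero_mem' := ⟨0, zero_mem A, 1, one_mem A, one_ne_zero, by simp, by simp⟩
  neg_mem' := by
    rintro x ⟨a, ha, b, hb, hb0, hwb, rfl⟩
    exact ⟨-a, neg_mem ha, b, hb, hb0, hwb, by ring⟩

/-- A family of absolute values `w s`, `ρ < s < s₀`, on `L`, near the given norm; the ring `A`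
consists of functions which are regular on the corresponding discs. -/
structure LFam (M : IntermediateField k L) (A : Subring L) (ρ s₀ : ℝ)
    (w : ℝ → AbsoluteValue L ℝ) : Prop where
  lt : ρ < s₀
  nonarch : ∀ s ∈ Set.Ioo ρ s₀, IsNonarchimedean (w s)
  const : ∀ s ∈ Set.Ioo ρ s₀, ∀ c ∈ M, w s c = ‖c‖
  le : ∀ s ∈ Set.Ioo ρ s₀, ∀ g ∈ A, ‖g‖ ≤ w s g
  mono : ∀ s ∈ Set.Ioo ρ s₀, ∀ s' ∈ Set.Ioo ρ s₀, s ≤ s' → ∀ g ∈ A, w s g ≤ w s' g
  cont : ∀ g ∈ A, ContinuousOn (fun s => w s g) (Set.Ioo ρ s₀)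
  eq : ∀ g : L, ∃ s₁, ρ < s₁ ∧ ∀ s ∈ Set.Ioo ρ s₀, s < s₁ → w s g = ‖g‖
  strict : ∀ s ∈ Set.Ioo ρ s₀, ∃ f ∈ A, ‖f‖ < w s f

/-- Division with remainder with control of the norms: `V` is finite dimensional over `M`, `w` is the
given norm on `V`, and every `q ∈ R` is `A / B + f * y` with `A, B ∈ V`. -/
structure DIVd (M : IntermediateField k L) (R : Subring L) (w : AbsoluteValue L ℝ)
    (V : Submodule M L) (f : L) : Prop where
  nonarch : IsNonarchimedean w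
  M_le : ∀ c ∈ M, c ∈ R
  le : ∀ q ∈ R, ‖q‖ ≤ w q
  inv : ∀ q ∈ R, w q = ‖q‖ → q⁻¹ ∈ R
  V_le : ∀ A ∈ V, A ∈ R
  one : (1 : L) ∈ V
  eqV : ∀ A ∈ V, w A = ‖A‖
  fin : Module.Finite M V
  f_mem : f ∈ R
  f_lt : ‖f‖ < 1
  f_w : w f = 1
  div : ∀ q ∈ R, ∃ A ∈ V, ∃ B ∈ V, B ≠ 0 ∧ ∃ y ∈ R, q = A / B + f * y ∧
    w (A / B) ≤ w q ∧ w y ≤ w q
  bdd : ∃ N : ℕ, ∀ Y : Submodule M L, Module.Finite M Y → (∀ y ∈ Y, y ∈ R) →
    (∀ y ∈ Y, w y = ‖y‖) → Module.finrank M Y ≤ N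
  frac : ∀ x : L, ∃ a ∈ R, ∃ b ∈ R, b ≠ 0 ∧ x = a / b

end

/-! ### Abhyankar bases, monomials -/

section
variable (k : Type*) {L : Type*} [NormedField k] [NormedField L] [NormedAlgebra k L]

/-- the monomial `c * ∏ e i ^ z i` -/
noncomputable def mon {r : ℕ} (e : Fin r → L) (z : Fin r → ℤ) (c : k) : L :=
  algebraMap k L c * ∏ i, e i ^ z i

/-- the field `k(e, u)` -/
noncomputable def keu {r m : ℕ} (e : Fin r → L) (u : Fin m → L) : IntermediateField k L :=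
  IntermediateField.adjoin k (Set.range e ∪ Set.range u)

/-- the field `k(e, u, T)` -/
noncomputable def keuT {r m : ℕ} (e : Fin r → L) (u : Fin m → L) (T : L) :
    IntermediateField k L :=
  IntermediateField.adjoin k (Set.range e ∪ Set.range u ∪ {T})

/-- The values of the `e i` are independent modulo the values of `k`, and the norm on `k[u]` is the
Gauss norm. -/
structure EU {r m : ℕ} (e : Fin r → L) (u : Fin m → L) : Prop where
  ne : ∀ i, e i ≠ 0
  ind : ∀ (z : Fin r → ℤ) (c : k), ‖c‖ = ‖∏ i, e i ^ z i‖ → z = 0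
  norm_u : ∀ i, ‖u i‖ ≤ 1
  gauss : ∀ (P : MvPolynomial (Fin m) k) (s : Fin m →₀ ℕ), ‖P.coeff s‖ ≤ ‖MvPolynomial.aeval u P‖

/-- `x` is residually algebraic over `M` -/
def RA {k : Type*} [NormedField k] [NormedAlgebra k L] (M : IntermediateField k L) (x : L) :
    Prop :=
  ∃ P : L[X], CoeffsIn M P ∧ ∃ i, ‖P.eval x‖ < ‖P.coeff i‖ * ‖x‖ ^ i

/-- `L / k` has transcendence defect one: `(e, u)` is an Abhyankar basis, and every nonzero element is
residually algebraic over `k(e, u)` -/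
structure D1 {r m : ℕ} (e : Fin r → L) (u : Fin m → L) : Prop where
  eu : EU k e u
  ra : ∀ x : L, x ≠ 0 → RA (keu k e u) x

end

section
variable (k : Type*) {L : Type*} [NormedField k] [IsUltrametricDist k] [NormedField L]
  [IsUltrametricDist L] [NormedAlgebra k L]

/-- the `O k`-algebra generated by `u` and `α` -/
noncomputable def A1 {m : ℕ} (u : Fin m → L) (α : L) : Subalgebra (O k) L :=
  Algebra.adjoin (O k) (Set.range u ∪ {α})

/-- value of the polynomial `H` at `(u, α)` -/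
noncomputable def evH {k : Type*} [NormedField k] [NormedAlgebra k L] {m : ℕ} (u : Fin m → L)
    (α : L) (H : Polynomial (MvPolynomial (Fin m) k)) : L :=
  (H.map (MvPolynomial.aeval u : MvPolynomial (Fin m) k →ₐ[k] L).toRingHom).eval α

/-- the coefficients of `H` have norm `≤ 1` -/
def IntH {k : Type*} [NormedField k] {m : ℕ} (H : Polynomial (MvPolynomial (Fin m) k)) : Prop :=
  ∀ i s, ‖(H.coeff i).coeff s‖ ≤ 1

/-- preliminary core data -/
structure PreCor {r m : ℕ} (R : Subring L) (w : AbsoluteValue L ℝ) (e : Fin r → L)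
    (u : Fin m → L) (α : L) (H : Polynomial (MvPolynomial (Fin m) k)) : Prop where
  e_mem : ∀ i, e i ∈ R
  e_w : ∀ i, w (e i) = ‖e i‖
  eu : EU k e u
  u_mem : ∀ i, u i ∈ R
  u_w : ∀ i, w (u i) ≤ 1
  α_mem : α ∈ R
  α_w : w α ≤ 1
  int : IntH H
  h_lt : ‖evH u α H‖ < 1
  h_der : ‖evH u α (Polynomial.derivative H)‖ = 1
  val : ∀ q ∈ R, w q = ‖q‖ → q ≠ 0 → ∃ (z : Fin r → ℤ) (c : k), c ≠ 0 ∧ ‖q‖ = ‖mon k e z c‖
  res : ∀ q ∈ R, w q ≤ 1 → ∃ a ∈ A1 k u α, ∃ b ∈ A1 k u α, ‖b‖ = 1 ∧ ‖q - a / b‖ < 1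

/-- `h` is a uniformizer modulo elements with `w < 1` -/
def Unif (R : Subring L) (w : AbsoluteValue L ℝ) (h : L) : Prop :=
  ∀ q ∈ R, w q ≤ 1 → ‖q‖ < 1 → ∃ y ∈ R, w y ≤ 1 ∧ w (q - h * y) < 1

/-- Core data: new Abhyankar basis `(e, u)` and elements `α`, `h`, such that `h` is a uniformizer
modulo elements with `w < 1` and `α` generates the residue field over `k(u)`. -/
structure Cor {r m : ℕ} (R : Subring L) (w : AbsoluteValue L ℝ) (e : Fin r → L) (u : Fin m → L)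
    (α h : L) : Prop where
  e_mem : ∀ i, e i ∈ R
  e_w : ∀ i, w (e i) = ‖e i‖
  eu : EU k e u
  u_mem : ∀ i, u i ∈ R
  u_w : ∀ i, w (u i) ≤ 1
  α_mem : α ∈ R
  α_w : w α ≤ 1
  h_mem : h ∈ A1 k u α
  h_lt : ‖h‖ < 1
  val : ∀ q ∈ R, w q = ‖q‖ → q ≠ 0 → ∃ (z : Fin r → ℤ) (c : k), c ≠ 0 ∧ ‖q‖ = ‖mon k e z c‖
  res : ∀ q ∈ R, w q ≤ 1 → ∃ a ∈ A1 k u α, ∃ b ∈ A1 k u α, ‖b‖ = 1 ∧ ‖q - a / b‖ < 1
  unif : Unif R w h

/-! ### Semistable charts -/

/-- toric coordinates: `t 0 = π * ∏ (c i / e i)`, `t (i + 1) = e i / c i`; their product is `π` -/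
noncomputable def tor {r : ℕ} (e : Fin r → L) (c : Fin r → k) (π : k) : Fin (r + 1) → L :=
  Fin.cons (algebraMap k L π * ∏ i, (algebraMap k L (c i) / e i))
    (fun i => e i / algebraMap k L (c i))

/-- the `O k`-algebra generated by the toric coordinates, `u` and `α` -/
noncomputable def Pt {r m : ℕ} (e : Fin r → L) (c : Fin r → k) (π : k) (u : Fin m → L) (α : L) :
    Subalgebra (O k) L :=
  Algebra.adjoin (O k) (Set.range (tor k e c π) ∪ (Set.range u ∪ {α}))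

/-- `B` is a chart: finitely generated, contained in the valuation ring, containing `Pt`, and
unramified over `Pt` at the centre, without residue field extension -/
structure Cht {r m : ℕ} (e : Fin r → L) (c : Fin r → k) (π : k) (u : Fin m → L) (α : L)
    (B : Subalgebra (O k) L) : Prop where
  eu : EU k e u
  trans : Transcendental (keu k e u) α
  c_ne : ∀ i, c i ≠ 0
  π_ne : π ≠ 0
  t_lt : ∀ i, ‖tor k e c π i‖ < 1
  le : Pt k e c π u α ≤ B
  fg : B.FG
  norm_le : ∀ b ∈ B, ‖b‖ ≤ 1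
  res : ∀ b ∈ B, ∃ a ∈ Pt k e c π u α, ∃ s ∈ Pt k e c π u α, ‖s‖ = 1 ∧ ‖s * b - a‖ < 1
  unr : ∀ b ∈ B, ‖b‖ < 1 → ∃ s ∈ B, ‖s‖ = 1 ∧ ∃ (N : ℕ) (x y : Fin N → L),
    (∀ i, x i ∈ Pt k e c π u α ∧ ‖x i‖ < 1 ∧ y i ∈ B) ∧ s * b = ∑ i, x i * y i

/-- `x` is a monomial in `e` times a unit of `B` at the centre -/
def MUnit {r : ℕ} (e : Fin r → L) (B : Subalgebra (O k) L) (x : L) : Prop :=
  ∃ (z : Fin r → ℤ) (c : k), c ≠ 0 ∧ ∃ a ∈ B, ∃ b ∈ B, ‖a‖ = 1 ∧ ‖b‖ = 1 ∧
    x = mon k e z c * (a / b)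

/-- `x` is in the local ring of `B` at the centre -/
def Loc (B : Subalgebra (O k) L) (x : L) : Prop := ∃ a ∈ B, ∃ b ∈ B, ‖b‖ = 1 ∧ x = a / b

/-- Arbitrarily fine charts: for every finite set of nonzero elements there is a chart for which these
elements are monomials times units, and those of norm `≤ 1` are in the local ring. -/
def Charts (k : Type*) (L : Type*) [NormedField k] [IsUltrametricDist k] [NormedField L]
    [IsUltrametricDist L] [NormedAlgebra k L] (r m : ℕ) : Prop :=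
  ∀ S : Finset L, (∀ x ∈ S, x ≠ 0) → ∃ (e : Fin r → L) (c : Fin r → k) (π : k) (u : Fin m → L)
    (α : L) (B : Subalgebra (O k) L), Cht k e c π u α B ∧
      ∀ x ∈ S, MUnit k e B x ∧ (‖x‖ ≤ 1 → Loc k B x)

end

end DA
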