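import Pool.Agent.Lib.DA.Defs
import Pool.Agent.Lib.MP_1a953e_ag.RDefs

/-!
# Rank one points of transcendence defect one: more definitions
-/

namespace DA

open Polynomial MP1a953e

section
variable (k : Type*) {L : Type*} [NormedField k] [IsUltrametricDist k] [NormedField L]
  [IsUltrametricDist L] [NormedAlgebra k L]

/-- the `O k`-algebra generated by `u` and all monomials in `e` of norm `≤ 1` -/
noncomputable def MB {r m : ℕ} (e : Fin r → L) (u : Fin m → L) : Subalgebra (O k) L :=
  Algebra.adjoin (O k)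
    ({x | ∃ (z : Fin r → ℤ) (c : k), x = mon k e z c ∧ ‖x‖ ≤ 1} ∪ Set.range u)

/-- Bounds for the rational rank of `|L*| / |k*|` and the transcendence degree of the residue field
extension: any `r + 1` nonzero elements satisfy a multiplicative relation modulo the values of `k`, and
any `m + 1` elements of the unit ball satisfy a residual relation. -/
structure Df (L : Type*) [NormedField L] [NormedAlgebra k L] (r m : ℕ) : Prop where
  rk : ∀ e : Fin (r + 1) → L, (∀ i, e i ≠ 0) →
    ∃ z : Fin (r + 1) → ℤ, z ≠ 0 ∧ ∃ c : k, ‖c‖ = ‖∏ i, e i ^ z i‖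
  rs : ∀ u : Fin (m + 1) → L, (∀ i, ‖u i‖ ≤ 1) → ∃ P : MvPolynomial (Fin (m + 1)) k,
    (∀ s, ‖P.coeff s‖ ≤ 1) ∧ (∃ s, ‖P.coeff s‖ = 1) ∧ ‖MvPolynomial.aeval u P‖ < 1

end

section
variable {k L E : Type*} [NormedField k] [NormedField L] [NormedAlgebra k L]

/-- The ring `R` and the absolute value `w`, with boundedness of the `M`-orthogonal families of elements
of `R` with `w = ‖·‖`. (In the applications either `R` and `w` are as in `DIVd`, or `R` is everything and
`w` is the norm.) -/
structure RWd (M : IntermediateField k L) (R : Subring L) (w : AbsoluteValue L ℝ) : Prop where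
  nonarch : IsNonarchimedean w
  M_le : ∀ c ∈ M, c ∈ R
  le : ∀ q ∈ R, ‖q‖ ≤ w q
  inv : ∀ q ∈ R, w q = ‖q‖ → q⁻¹ ∈ R
  bdd : ∃ N : ℕ, ∀ (l : ℕ) (g : Fin l → L), (∀ i, g i ∈ R ∧ w (g i) = ‖g i‖) →
    Orth M (nabs L) g → l ≤ N

/-- The elements `v i` can be approximated by the `M`-spans of `M`-orthogonal families (in `E`). -/
def OApp [NormedField E] (M : IntermediateField k L) (j : L →+* E) (w : AbsoluteValue E ℝ) {n : ℕ}
    (v : Fin n → L) : Prop :=
  ∀ ε : ℝ, 0 < ε → ∃ (l : ℕ) (η : Fin l → E), (∀ i, η i ≠ 0) ∧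
    (∀ a : Fin l → L, (∀ i, a i ∈ M) → ∀ i, w (j (a i) * η i) ≤ w (∑ t, j (a t) * η t)) ∧
    ∀ i, ∃ a : Fin l → L, (∀ t, a t ∈ M) ∧ w (j (v i) - ∑ t, j (a t) * η t) ≤ ε

end

section
variable (k L : Type*) [NormedField k] [IsUltrametricDist k] [NormedField L] [IsUltrametricDist L]
  [NormedAlgebra k L]

/-- Arbitrarily fine charts: for every `k`-subalgebra `A` with fraction field `L` and every finite set
`S` of nonzero elements there is a chart `B` for which the elements of `S` are monomials times units, those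
of norm `≤ 1` are in the local ring, and all elements of `B` are fractions of elements of `A` with
denominators which are monomials times units of `B`. -/
def Chts (r m : ℕ) : Prop :=
  ∀ A : Subalgebra k L, (∀ x : L, ∃ a ∈ A, ∃ b ∈ A, b ≠ 0 ∧ x = a / b) →
  ∀ S : Finset L, (∀ x ∈ S, x ≠ 0) → ∃ (e : Fin r → L) (c : Fin r → k) (π : k) (u : Fin m → L)
    (α : L) (B : Subalgebra (O k) L), Cht k e c π u α B ∧
      (∀ x ∈ S, MUnit k e B x ∧ (‖x‖ ≤ 1 → Loc k B x)) ∧
      ∀ b ∈ B, ∃ n ∈ A, ∃ d ∈ A, MUnit k e B d ∧ b = n / d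

end

/-- the image of `k(e, u)` -/
noncomputable def kM {k L Ω : Type*} [NormedField k] [NormedField L] [NormedAlgebra k L]
    [NormedField Ω] (ι : L →+* Ω) {r m : ℕ} (e : Fin r → L) (u : Fin m → L) : Subfield Ω :=
  kU (kU (kO k ι) fun i => ι (e i)) fun i => ι (u i)

end DA
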