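import Pool.Agent.Lib.DA.Defs2

/-!
# Module F1: Newton form of a finite separable extension of a dense subfield
-/

namespace DA

open Polynomial MP1a953e

private lemma F1_cont {E : Type*} [NormedField E] (P : E[X]) (i : ℕ) :
    Continuous fun r : E => (taylor r P).coeff i := by
  have h : (fun r : E => (taylor r P).coeff i) = fun r => (hasseDeriv i P).eval r := by
    funext r
    rw [taylor_coeff]
  rw [h]
  exact (hasseDeriv i P).continuous

private lemma F1_kap {L : Type*} [NormedField L] (P : L[X]) (G : L → L[X]) (S : Finset L)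
    (D : ℕ) {y₀ : L} (h1 : (taylor y₀ P).coeff 1 ≠ 0)
    (hG : ∀ s ∈ S, ‖(taylor y₀ (G s)).coeff 0‖ < 1) :
    ∃ δ : ℝ, 0 < δ ∧ ∀ t : ℝ, 0 < t → t < δ →
      (∀ i ∈ Finset.range (D + 1), 2 ≤ i →
        ‖(taylor y₀ P).coeff i‖ * t ^ (i - 1) < ‖(taylor y₀ P).coeff 1‖) ∧
      ∀ s ∈ S, ∀ i ∈ Finset.range (D + 1), ‖(taylor y₀ (G s)).coeff i‖ * t ^ i < 1 := by
  have hb1 : 0 < ‖(taylor y₀ P).coeff 1‖ := norm_pos_iff.2 h1
  have hev : ∀ᶠ t in nhds (0 : ℝ),
      (∀ i ∈ Finset.range (D + 1), 2 ≤ i →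
        ‖(taylor y₀ P).coeff i‖ * t ^ (i - 1) < ‖(taylor y₀ P).coeff 1‖) ∧
      ∀ s ∈ S, ∀ i ∈ Finset.range (D + 1), ‖(taylor y₀ (G s)).coeff i‖ * t ^ i < 1 := by
    refine Filter.Eventually.and ?_ ?_
    · rw [Filter.eventually_all_finset]
      intro i _
      by_cases hi2 : 2 ≤ i
      · have hc : Continuous fun t : ℝ => ‖(taylor y₀ P).coeff i‖ * t ^ (i - 1) := by fun_prop
        have h0 : ‖(taylor y₀ P).coeff i‖ * (0 : ℝ) ^ (i - 1) < ‖(taylor y₀ P).coeff 1‖ := by
          rw [zero_pow (by omega), mul_zero]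
          exact hb1
        filter_upwards [hc.continuousAt.eventually_lt_const h0] with t ht _
        exact ht
      · exact Filter.Eventually.of_forall fun t h => absurd h hi2
    · rw [Filter.eventually_all_finset]
      intro s hs
      rw [Filter.eventually_all_finset]
      intro i _
      have hc : Continuous fun t : ℝ => ‖(taylor y₀ (G s)).coeff i‖ * t ^ i := by fun_prop
      have h0 : ‖(taylor y₀ (G s)).coeff i‖ * (0 : ℝ) ^ i < 1 := by
        rcases Nat.eq_zero_or_pos i with rfl | hi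
        · rw [pow_zero, mul_one]
          exact hG s hs
        · rw [zero_pow (by omega), mul_zero]
          exact zero_lt_one
      exact hc.continuousAt.eventually_lt_const h0
  rw [Metric.eventually_nhds_iff] at hev
  obtain ⟨δ, hδ, h⟩ := hev
  refine ⟨δ, hδ, fun t ht0 ht => h (y := t) ?_⟩
  rw [Real.dist_eq, sub_zero, abs_of_pos ht0]
  exact ht

private lemma F1_choice {L : Type*} [NormedField L] [IsUltrametricDist L] (P : L[X])
    (G : L → L[X]) (S : Finset L) (D : ℕ) {y₀ : L} (N : Set L) {c : ℝ} (hc : 0 < c)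
    (h0 : (taylor y₀ P).coeff 0 = 0) (h1 : (taylor y₀ P).coeff 1 ≠ 0)
    (hP : ∀ i ∈ Finset.range (D + 1), 2 ≤ i →
        ‖(taylor y₀ P).coeff i‖ * c ^ (i - 1) < ‖(taylor y₀ P).coeff 1‖)
    (hG : ∀ s ∈ S, ∀ i ∈ Finset.range (D + 1), ‖(taylor y₀ (G s)).coeff i‖ * c ^ i < 1)
    (hd : ∀ ε : ℝ, 0 < ε → ∃ g ∈ N, ‖y₀ - g‖ < ε) :
    ∃ r ∈ N, ‖y₀ - r‖ < c ∧ (taylor r P).coeff 1 ≠ 0 ∧
      ‖(taylor r P).coeff 0‖ < c * ‖(taylor r P).coeff 1‖ ∧
      (∀ i ∈ Finset.range (D + 1), 2 ≤ i →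
        ‖(taylor r P).coeff i‖ * c ^ (i - 1) < ‖(taylor r P).coeff 1‖) ∧
      ∀ s ∈ S, ∀ i ∈ Finset.range (D + 1), ‖(taylor r (G s)).coeff i‖ * c ^ i < 1 := by
  have hb1 : 0 < ‖(taylor y₀ P).coeff 1‖ := norm_pos_iff.2 h1
  have hev : ∀ᶠ r in nhds y₀, ‖y₀ - r‖ < c ∧
      ‖(taylor r P).coeff 1 - (taylor y₀ P).coeff 1‖ < ‖(taylor y₀ P).coeff 1‖ ∧
      ‖(taylor r P).coeff 0‖ < c * ‖(taylor y₀ P).coeff 1‖ ∧
      (∀ i ∈ Finset.range (D + 1), 2 ≤ i →
        ‖(taylor r P).coeff i‖ * c ^ (i - 1) < ‖(taylor y₀ P).coeff 1‖) ∧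
      ∀ s ∈ S, ∀ i ∈ Finset.range (D + 1), ‖(taylor r (G s)).coeff i‖ * c ^ i < 1 := by
    refine Filter.Eventually.and ?_ (Filter.Eventually.and ?_ (Filter.Eventually.and ?_
      (Filter.Eventually.and ?_ ?_)))
    · have h1 : Continuous fun r : L => ‖y₀ - r‖ := (continuous_const.sub continuous_id).norm
      refine h1.continuousAt.eventually_lt_const ?_
      simpa using hc
    · have h2 : Continuous fun r : L => ‖(taylor r P).coeff 1 - (taylor y₀ P).coeff 1‖ :=
        ((F1_cont P 1).sub continuous_const).norm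
      refine h2.continuousAt.eventually_lt_const ?_
      simpa using h1
    · have h2 : Continuous fun r : L => ‖(taylor r P).coeff 0‖ := (F1_cont P 0).norm
      refine h2.continuousAt.eventually_lt_const ?_
      change ‖(taylor y₀ P).coeff 0‖ < _
      rw [h0, norm_zero]
      exact mul_pos hc hb1
    · rw [Filter.eventually_all_finset]
      intro i hi
      by_cases hi2 : 2 ≤ i
      · have h2 : Continuous fun r : L => ‖(taylor r P).coeff i‖ * c ^ (i - 1) :=
          (F1_cont P i).norm.mul continuous_const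
        filter_upwards [h2.continuousAt.eventually_lt_const (hP i hi hi2)] with r hr _
        exact hr
      · exact Filter.Eventually.of_forall fun r h => absurd h hi2
    · rw [Filter.eventually_all_finset]
      intro s hs
      rw [Filter.eventually_all_finset]
      intro i hi
      have h2 : Continuous fun r : L => ‖(taylor r (G s)).coeff i‖ * c ^ i :=
        (F1_cont (G s) i).norm.mul continuous_const
      exact h2.continuousAt.eventually_lt_const (hG s hs i hi)
  rw [Metric.eventually_nhds_iff] at hev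
  obtain ⟨ε, hε, hball⟩ := hev
  obtain ⟨r, hrN, hr⟩ := hd ε hε
  obtain ⟨h2, h3, h4, h5, h6⟩ := hball (y := r) (by rw [dist_comm, dist_eq_norm]; exact hr)
  have h7 : ‖(taylor r P).coeff 1‖ = ‖(taylor y₀ P).coeff 1‖ := by
    have e : (taylor r P).coeff 1 =
        ((taylor r P).coeff 1 - (taylor y₀ P).coeff 1) + (taylor y₀ P).coeff 1 := by ring
    rw [e, IsUltrametricDist.norm_add_eq_max_of_norm_ne_norm h3.ne]
    exact max_eq_right h3.le
  refine ⟨r, hrN, h2, ?_, ?_, ?_, h6⟩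
  · rw [← norm_pos_iff, h7]
    exact hb1
  · rw [h7]
    exact h4
  · rw [h7]
    exact h5

private lemma F1_mem {k L : Type*} [NontriviallyNormedField k] [NormedField L]
    [NormedAlgebra k L] (N : IntermediateField k L) (p : N[X]) {n : L} (hn : n ∈ N) (i : ℕ) :
    (taylor n (p.map (algebraMap N L))).coeff i ∈ N := by
  have h : (taylor n (p.map (algebraMap N L))).coeff i =
      algebraMap N L ((taylor (⟨n, hn⟩ : N) p).coeff i) := by
    rw [← coeff_map, map_taylor]
    rfl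
  rw [h]
  exact ((taylor (⟨n, hn⟩ : N) p).coeff i).2

private lemma F1_expand {L : Type*} [Field L] (P : L[X]) {D : ℕ} (hD : P.natDegree ≤ D)
    (n t : L) :
    P.eval (n + t) = ∑ i ∈ Finset.range (D + 1), (taylor n P).coeff i * t ^ i := by
  have h : P.eval (n + t) = (taylor n P).eval t := by
    rw [taylor_eval, add_comm]
  rw [h, eval_eq_sum_range' (n := D + 1)]
  rw [natDegree_taylor]
  omega

/-- F1.  `y₀` is a primitive element of `L / N`.  Proof.  Let `P` be its minimal polynomial, of degree `D`, `P_i`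
its Hasse derivatives; `P_1(y₀) ≠ 0`. For `s ∈ S` choose `s₀ ∈ N` with `‖s - s₀‖ < ‖s‖` (so `s₀ ≠ 0`,
`‖s / s₀ - 1‖ < 1`), and let `G_s ∈ N[X]` be the polynomial of degree `< D` with `s / s₀ - 1 = G_s(y₀)`. Choose
`κ ∈ k`, `κ ≠ 0`, so small that `‖κ‖ ^ (i-1) ‖P_i(y₀)‖ < ‖P_1(y₀)‖` for `2 ≤ i ≤ D` and
`‖κ‖ ^ i ‖G_{s,i}(y₀)‖ < 1` for the Hasse derivatives of index `i ≥ 1` of `G_s`, `s ∈ S`. Then choose
`n ∈ N` so close to `y₀` that `‖y₀ - n‖ < ‖κ‖`, `‖P_1(n)‖ = ‖P_1(y₀)‖`, all these strict inequalities hold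
at `n`, and `‖P(n)‖ < ‖κ‖ ‖P_1(y₀)‖`, `‖G_s(n)‖ < 1`. `y = (y₀ - n) / κ`:
`0 = P(n + κ y) = ∑ P_i(n) κ ^ i y ^ i`; divide by `κ P_1(n)`: `q i = P_i(n) κ ^ (i-1) / P_1(n)`
(`q 1` is not used, put `q 1 = 0`, also `q i = 0` for `i > D`).
`s / s₀ - 1 = ∑ G_{s,i}(n) κ ^ i y ^ i`. (Compare module W2.) -/
theorem exists_newton {k L : Type*} [NontriviallyNormedField k] [NormedField L]
    [IsUltrametricDist L] [NormedAlgebra k L] (N : IntermediateField k L)
    [Algebra.IsSeparable N L] [FiniteDimensional N L]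
    (hd : ∀ x : L, ∀ ε : ℝ, 0 < ε → ∃ y ∈ N, ‖x - y‖ < ε) {y₀ : L}
    (hy₀ : IntermediateField.adjoin N {y₀} = ⊤) (S : Finset L) (hS : ∀ x ∈ S, x ≠ 0) :
    ∃ (y n : L) (κ : k) (D : ℕ) (q : ℕ → L), κ ≠ 0 ∧ n ∈ N ∧ y = (y₀ - n) / algebraMap k L κ ∧
      ‖y‖ < 1 ∧ (∀ i, q i ∈ N ∧ ‖q i‖ < 1) ∧
      y = - q 0 - ∑ i ∈ Finset.Icc 2 D, q i * y ^ i ∧
      ∀ s ∈ S, ∃ s₀ ∈ N, s₀ ≠ 0 ∧ ∃ ρ : ℕ → L, (∀ i, ρ i ∈ N ∧ ‖ρ i‖ < 1) ∧
        s = s₀ * (1 + ∑ i ∈ Finset.range (D + 1), ρ i * y ^ i) := by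
  have hint : IsIntegral N y₀ := Algebra.IsIntegral.isIntegral y₀
  have hsep : IsSeparable N y₀ := Algebra.IsSeparable.isSeparable N y₀
  -- the elements `s₀` and the polynomials `G s`
  have hA : ∀ s ∈ S, ∃ (s₀ : L) (G : N[X]), s₀ ∈ N ∧ s₀ ≠ 0 ∧ s / s₀ - 1 = aeval y₀ G ∧
      ‖s / s₀ - 1‖ < 1 := by
    intro s hs
    have hs0 : s ≠ 0 := hS s hs
    obtain ⟨s₀, hs₀, hlt⟩ := hd s ‖s‖ (norm_pos_iff.2 hs0)
    have hn : ‖s₀‖ = ‖s‖ := by
      have e : s₀ = s + (-(s - s₀)) := by ring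
      rw [e, IsUltrametricDist.norm_add_eq_max_of_norm_ne_norm (by rw [norm_neg]; exact hlt.ne'),
        norm_neg]
      exact max_eq_left hlt.le
    have hs₀0 : s₀ ≠ 0 := by
      rw [← norm_pos_iff, hn]
      exact norm_pos_iff.2 hs0
    have hmem : s / s₀ - 1 ∈ IntermediateField.adjoin N {y₀} := by
      rw [hy₀]
      exact IntermediateField.mem_top
    rw [← IntermediateField.mem_toSubalgebra,
      IntermediateField.adjoin_simple_toSubalgebra_of_isAlgebraic hint.isAlgebraic,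
      Algebra.adjoin_singleton_eq_range_aeval] at hmem
    obtain ⟨G, hG⟩ := hmem
    refine ⟨s₀, G, hs₀, hs₀0, hG.symm, ?_⟩
    have e : s / s₀ - 1 = (s - s₀) / s₀ := by
      rw [sub_div, div_self hs₀0]
    rw [e, norm_div, div_lt_one (norm_pos_iff.2 hs₀0), hn]
    exact hlt
  choose! s₀ G hs₀N hs₀0 hG hG1 using hA
  set p := minpoly N y₀ with hp
  set P : L[X] := p.map (algebraMap N L) with hP
  set Gm : L → L[X] := fun s => (G s).map (algebraMap N L) with hGm
  have hPy : P.eval y₀ = 0 := by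
    rw [hP, eval_map_algebraMap]
    exact minpoly.aeval N y₀
  have hPy1 : P.derivative.eval y₀ ≠ 0 := by
    rw [hP, derivative_map, eval_map_algebraMap]
    exact Separable.aeval_derivative_ne_zero hsep (minpoly.aeval N y₀)
  have hGy : ∀ s ∈ S, (Gm s).eval y₀ = s / s₀ s - 1 := by
    intro s hs
    rw [hGm, eval_map_algebraMap, hG s hs]
  obtain ⟨D, hD1, hDP, hDG⟩ : ∃ D : ℕ, 1 ≤ D ∧ P.natDegree ≤ D ∧
      ∀ s ∈ S, (Gm s).natDegree ≤ D := by
    refine ⟨max 1 (max P.natDegree (S.sup fun s => (Gm s).natDegree)), le_max_left _ _,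
      (le_max_left _ _).trans (le_max_right _ _), fun s hs => ?_⟩
    exact (Finset.le_sup (f := fun s => (Gm s).natDegree) hs).trans
      ((le_max_right _ _).trans (le_max_right _ _))
  have h0 : (taylor y₀ P).coeff 0 = 0 := by rw [taylor_coeff_zero]; exact hPy
  have h1 : (taylor y₀ P).coeff 1 ≠ 0 := by rw [taylor_coeff_one]; exact hPy1
  obtain ⟨δ, hδ, hδ'⟩ := F1_kap P Gm S D h1 (by
    intro s hs
    rw [taylor_coeff_zero, hGy s hs]
    exact hG1 s hs)
  obtain ⟨κ, hκ0, hκδ⟩ := NormedField.exists_norm_lt k hδ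
  obtain ⟨hκP, hκG⟩ := hδ' ‖κ‖ hκ0 hκδ
  obtain ⟨n, hnN, hny, hn1, hn0, hnP, hnG⟩ := F1_choice P Gm S D (N : Set L) hκ0 h0 h1 hκP hκG
    (hd y₀)
  have hκne : κ ≠ 0 := norm_pos_iff.1 hκ0
  have hκL : algebraMap k L κ ≠ 0 := by
    rwa [Ne, map_eq_zero]
  have hκn : ‖algebraMap k L κ‖ = ‖κ‖ := norm_algebraMap' L κ
  have hκN : algebraMap k L κ ∈ N := N.algebraMap_mem κ
  set y : L := (y₀ - n) / algebraMap k L κ with hy
  have hyy : y₀ = n + algebraMap k L κ * y := by
    rw [hy, mul_div_cancel₀ _ hκL]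
    ring
  have hPmem : ∀ i, (taylor n P).coeff i ∈ N := fun i => F1_mem N p hnN i
  have hGmem : ∀ s i, (taylor n (Gm s)).coeff i ∈ N := fun s i => F1_mem N (G s) hnN i
  refine ⟨y, n, κ, D, fun i => if i = 1 then 0 else
    (taylor n P).coeff i * algebraMap k L κ ^ i / (algebraMap k L κ * (taylor n P).coeff 1),
    hκne, hnN, rfl, ?_, ?_, ?_, ?_⟩
  · rw [hy, norm_div, hκn, div_lt_one hκ0]
    exact hny
  · intro i
    by_cases hi1 : i = 1
    · simp only [hi1, if_true]
      exact ⟨N.zero_mem, by rw [norm_zero]; exact zero_lt_one⟩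
    · simp only [hi1, if_false]
      refine ⟨N.div_mem (N.mul_mem (hPmem i) (pow_mem hκN i)) (N.mul_mem hκN (hPmem 1)), ?_⟩
      have hpos : 0 < ‖κ‖ * ‖(taylor n P).coeff 1‖ := mul_pos hκ0 (norm_pos_iff.2 hn1)
      rw [norm_div, norm_mul, norm_mul, norm_pow, hκn, div_lt_one hpos]
      rcases Nat.eq_zero_or_pos i with rfl | hi
      · rw [pow_zero, mul_one]
        exact hn0
      · by_cases hiD : i ≤ D
        · have e : ‖κ‖ ^ i = ‖κ‖ ^ (i - 1) * ‖κ‖ := by
            rw [← pow_succ]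
            congr 1
            omega
          rw [e, ← mul_assoc, mul_comm ‖κ‖ ‖(taylor n P).coeff 1‖]
          refine mul_lt_mul_of_pos_right (hnP i ?_ (by omega)) hκ0
          rw [Finset.mem_range]
          omega
        · have e : (taylor n P).coeff i = 0 := by
            apply coeff_eq_zero_of_natDegree_lt
            rw [natDegree_taylor]
            omega
          rw [e, norm_zero, zero_mul]
          exact hpos
  · have hz : 0 = ∑ i ∈ Finset.range (D + 1), (taylor n P).coeff i *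
        (algebraMap k L κ * y) ^ i := by
      rw [← F1_expand P hDP, ← hyy, hPy]
    have hI : Finset.Ico 2 (D + 1) = Finset.Icc 2 D := by
      ext i
      simp only [Finset.mem_Ico, Finset.mem_Icc]
      omega
    rw [Finset.range_eq_Ico, Finset.sum_eq_sum_Ico_succ_bot (by omega),
      Finset.sum_eq_sum_Ico_succ_bot (by omega), zero_add, one_add_one_eq_two, hI, pow_zero,
      mul_one, pow_one] at hz
    have hne : algebraMap k L κ * (taylor n P).coeff 1 ≠ 0 := mul_ne_zero hκL hn1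
    apply mul_left_cancel₀ hne
    have e2 : algebraMap k L κ * (taylor n P).coeff 1 *
        (∑ i ∈ Finset.Icc 2 D, (if i = 1 then 0 else (taylor n P).coeff i *
          algebraMap k L κ ^ i / (algebraMap k L κ * (taylor n P).coeff 1)) * y ^ i) =
        ∑ i ∈ Finset.Icc 2 D, (taylor n P).coeff i * (algebraMap k L κ * y) ^ i := by
      rw [Finset.mul_sum]
      refine Finset.sum_congr rfl fun i hi => ?_
      rw [Finset.mem_Icc] at hi
      rw [if_neg (by omega), ← mul_assoc, mul_div_cancel₀ _ hne, mul_pow]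
      ring
    have e3 : algebraMap k L κ * (taylor n P).coeff 1 *
        ((taylor n P).coeff 0 * algebraMap k L κ ^ 0 /
          (algebraMap k L κ * (taylor n P).coeff 1)) = (taylor n P).coeff 0 := by
      rw [mul_div_cancel₀ _ hne, pow_zero, mul_one]
    simp only [zero_ne_one, if_false]
    rw [mul_sub, mul_neg, e2, e3]
    linear_combination -hz
  · intro s hs
    refine ⟨s₀ s, hs₀N s hs, hs₀0 s hs, fun i => (taylor n (Gm s)).coeff i *
      algebraMap k L κ ^ i, ?_, ?_⟩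
    · intro i
      refine ⟨N.mul_mem (hGmem s i) (pow_mem hκN i), ?_⟩
      rw [norm_mul, norm_pow, hκn]
      by_cases hiD : i ≤ D
      · exact hnG s hs i (Finset.mem_range.2 (by omega))
      · have e : (taylor n (Gm s)).coeff i = 0 := by
          apply coeff_eq_zero_of_natDegree_lt
          rw [natDegree_taylor]
          have := hDG s hs
          omega
        rw [e, norm_zero, zero_mul]
        exact zero_lt_one
    · have e : ∑ i ∈ Finset.range (D + 1), (taylor n (Gm s)).coeff i *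
          algebraMap k L κ ^ i * y ^ i = s / s₀ s - 1 := by
        rw [← hGy s hs]
        conv_rhs => rw [hyy]
        rw [F1_expand (Gm s) (hDG s hs)]
        refine Finset.sum_congr rfl fun i _ => ?_
        rw [mul_pow]
        ring
      rw [e, add_sub_cancel, mul_div_cancel₀ _ (hs₀0 s hs)]

end DA
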