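import Pool.Agent.Lib.DA.H0
import Pool.Agent.Lib.DA.H1a

/-!
# Module H1c: the ring `AAs` is everything
-/

namespace DA

open Polynomial MP1a953e

private def H1M (k : Type*) {L : Type*} [NormedField k] [NormedField L]
    [NormedAlgebra k L] {r : ℕ} (e : Fin r → L) (x : L) : Prop :=
  ∃ (z : Fin r → ℤ) (c : k), c ≠ 0 ∧ x = mon k e z c

section

variable {k L : Type*} [NormedField k] [NormedField L]
    [NormedAlgebra k L] {r : ℕ} {e : Fin r → L}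

private theorem H1M.mul (hne : ∀ i, e i ≠ 0) {x y : L} (hx : H1M k e x) (hy : H1M k e y) :
    H1M k e (x * y) := by
  obtain ⟨z, c, hc, rfl⟩ := hx
  obtain ⟨z', c', hc', rfl⟩ := hy
  refine ⟨z + z', c * c', mul_ne_zero hc hc', ?_⟩
  unfold mon
  have h1 : ∏ i, e i ^ (z + z') i = (∏ i, e i ^ z i) * ∏ i, e i ^ z' i := by
    rw [← Finset.prod_mul_distrib]
    exact Finset.prod_congr rfl fun i _ => zpow_add₀ (hne i) _ _
  rw [h1, map_mul]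
  ring

private theorem H1M.inv {x : L} (hx : H1M k e x) : H1M k e x⁻¹ := by
  obtain ⟨z, c, hc, rfl⟩ := hx
  refine ⟨-z, c⁻¹, inv_ne_zero hc, ?_⟩
  unfold mon
  have h1 : ∏ i, e i ^ (-z) i = (∏ i, e i ^ z i)⁻¹ := by
    rw [← Finset.prod_inv_distrib]
    exact Finset.prod_congr rfl fun i _ => zpow_neg _ _
  rw [h1, map_inv₀, mul_inv]

private theorem H1M.ne (hne : ∀ i, e i ≠ 0) {x : L} (hx : H1M k e x) : x ≠ 0 := by
  obtain ⟨z, c, hc, rfl⟩ := hx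
  unfold mon
  exact mul_ne_zero ((_root_.map_ne_zero _).2 hc)
    (Finset.prod_ne_zero_iff.2 fun i _ => zpow_ne_zero _ (hne i))

end

section

variable {k L : Type*} [NormedField k] [IsUltrametricDist k] [NormedField L]
  [IsUltrametricDist L] [NormedAlgebra k L] {M : IntermediateField k L} {R : Subring L}
  {w : AbsoluteValue L ℝ} {r m : ℕ} {e : Fin r → L} {u : Fin m → L} {α h' : L}

/-- all monomials are in `R`, with `w = ‖·‖` -/
private theorem h1c_mon (hR : RWd M R w) (hC : Cor k R w e u α h') {x : L} (hx : H1M k e x) :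
    x ∈ R ∧ w x = ‖x‖ := by
  obtain ⟨z, c, hc, rfl⟩ := hx
  have hcM : (algebraMap k L c : L) ∈ M := M.algebraMap_mem c
  have hzp : ∀ i, e i ^ z i ∈ R := by
    intro i
    have h1 := hC.e_mem i
    have h2 : (e i)⁻¹ ∈ R := hR.inv _ h1 (hC.e_w i)
    rcases Int.le_total 0 (z i) with h3 | h3
    · obtain ⟨n, hn⟩ := Int.eq_ofNat_of_zero_le h3
      rw [hn, zpow_natCast]
      exact R.pow_mem h1 n
    · obtain ⟨n, hn⟩ := Int.eq_ofNat_of_zero_le (Int.neg_nonneg_of_nonpos h3)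
      have h4 : z i = -(n : ℤ) := by omega
      rw [h4, zpow_neg, zpow_natCast, ← inv_pow]
      exact R.pow_mem h2 n
  have hmR : mon k e z c ∈ R := R.mul_mem (hR.M_le _ hcM) (R.prod_mem fun i _ => hzp i)
  refine ⟨hmR, ?_⟩
  unfold mon
  rw [map_mul, norm_mul, hR.eq_M hcM, map_prod, norm_prod]
  congr 1
  refine Finset.prod_congr rfl fun i _ => ?_
  rw [map_zpow₀, norm_zpow, hC.e_w i]

/-- an element with `w = ‖·‖` is a monomial times an element of norm `1` -/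
private theorem h1c_form (hR : RWd M R w) (hC : Cor k R w e u α h') {q : L} (hq : q ∈ R)
    (hw : w q = ‖q‖) (h0 : q ≠ 0) :
    ∃ μ q' : L, H1M k e μ ∧ ‖μ‖ = ‖q‖ ∧ q' ∈ R ∧ w q' = 1 ∧ ‖q'‖ = 1 ∧ q = μ * q' := by
  obtain ⟨z, c, hc, hn⟩ := hC.val q hq hw h0
  have hμ : H1M k e (mon k e z c) := ⟨z, c, hc, rfl⟩
  have hμ0 := hμ.ne hC.eu.ne
  obtain ⟨h1, h2⟩ := h1c_mon hR hC hμ.inv
  have hn0 : ‖mon k e z c‖ ≠ 0 := norm_ne_zero_iff.2 hμ0
  refine ⟨mon k e z c, (mon k e z c)⁻¹ * q, hμ, hn.symm, R.mul_mem h1 hq, ?_, ?_, ?_⟩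
  · rw [map_mul, h2, norm_inv, hw, hn, inv_mul_cancel₀ hn0]
  · rw [norm_mul, norm_inv, hn, inv_mul_cancel₀ hn0]
  · rw [mul_inv_cancel_left₀ hμ0]

omit [IsUltrametricDist k] [IsUltrametricDist L] in
private theorem h1c_near {N : IntermediateField k L} (hna : IsNonarchimedean w) {ε : ℝ} {q x : L}
    (hq : q ∈ R) (hqw : w q ≤ 1) (hx : x ∈ AAs k N R w h' ε) (hqx : w (q - x) ≤ ε) :
    q ∈ AAs k N R w h' ε := by
  obtain ⟨-, -, n, hn, hnR, hnw, y, hy, hyw, hρ⟩ := hx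
  refine ⟨hq, hqw, n, hn, hnR, hnw, y, hy, hyw, ?_⟩
  have h1 : q - n - h' * y = (q - x) + (x - n - h' * y) := by ring
  rw [h1]
  exact (hna _ _).trans (max_le hqx hρ)

end

/-- H1c.  Notation: `R₁ = {q ∈ R : w q ≤ 1}`; a monomial is an element `mon k e z c`, `c ≠ 0`; monomials are
invertible elements of `R` with `w = ‖·‖`.  Proof.  Let `b j` be as in `hAOB`. `‖b j‖ = w (b j)`; by `Cor.val`
there is a monomial `μ j` with `‖μ j‖ = ‖b j‖`, `b' j = b j / μ j ∈ R₁` of norm `1`. Similarly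
`e₀ i = ν i * e'' i` with a monomial `ν i` and `e'' i ∈ R₁`, `‖e'' i‖ = 1` (`e₀ i, (e₀ i)⁻¹ ∈ R`). Let
`w (f - h y_f) < 1` (`DIVd.unif` in K5 shows that `f` is a uniformizer; here we use `Cor.unif` for `q = f`).
`exists_eps` for the finite set of all `b' j`, `e'' i`, `u₀ i`, and `w (f - h y_f) ≤ ε`, gives
`ε < 1`; let `𝒜` be the ring of H1a. By `exists_mon_unit` every nonzero element of `M` is a monomial times an
element of `𝒜` of norm `1`. Let `A ∈ V`, `A ≠ 0`; choose a monomial `μ` with `‖μ‖ = ‖A‖`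
(`Cor.val`). By `hAOB` `A = ∑ a j b j` up to `w ≤ ε * w A`; `w A = ‖A‖`, so `‖a j b j‖ ≤ ‖A‖`
(`w (∑) ≤ w A`, orthogonality), `a j b j / μ` is a monomial of norm `≤ 1` times elements of `𝒜`, so it is in
`𝒜`, and `A / μ ∈ 𝒜` (an error with `w ≤ ε` is allowed), of norm `1`. Now let `q ∈ R₁`, `q = A / B + f y`
(`DIVd.div`). If `A ≠ 0`: `A / B = (μ_A / μ_B) * (A / μ_A) / (B / μ_B)`, and
`‖μ_A / μ_B‖ = ‖A / B‖ = w (A / B) ≤ w q ≤ 1`, so `A / B ∈ 𝒜`; and `f y = h y_f y` up to `w ≤ ε`. So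
`q ∈ AAs`. -/
theorem all_of_cor {k L : Type*} [NormedField k] [IsUltrametricDist k] [NormedField L]
    [IsUltrametricDist L] [NormedAlgebra k L] {r m : ℕ} {e₀ : Fin r → L} {u₀ : Fin m → L}
    (h₀ : EU k e₀ u₀) {R : Subring L} {w : AbsoluteValue L ℝ}
    {V : Submodule (keu k e₀ u₀) L} {f : L} (h : DIVd (keu k e₀ u₀) R w V f)
    (hAOB : AOB (keu k e₀ u₀) w V) {e : Fin r → L} {u : Fin m → L} {α h' : L}
    (hC : Cor k R w e u α h') :
    ∃ ε : ℝ, 0 < ε ∧ ε < 1 ∧ ∀ q ∈ R, w q ≤ 1 → q ∈ AAs k (keuT k e u α) R w h' ε := by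
  classical
  have hR := h.rwd
  obtain ⟨l, b, hbV, ⟨hb0, hborth⟩, happ⟩ := hAOB
  have hne := hC.eu.ne
  -- the elements `b j`
  have hbf := fun j => h1c_form hR hC (h.V_le _ (hbV j)) (h.eqV _ (hbV j)) (hb0 j)
  choose μ b' hμ hμn hb'R hb'w hb'n hbμ using hbf
  -- the elements `e₀ i`
  have he₀M : ∀ i, e₀ i ∈ keu k e₀ u₀ := fun i =>
    IntermediateField.subset_adjoin k _ (Or.inl ⟨i, rfl⟩)
  have hu₀M : ∀ i, u₀ i ∈ keu k e₀ u₀ := fun i =>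
    IntermediateField.subset_adjoin k _ (Or.inr ⟨i, rfl⟩)
  have hef := fun i => h1c_form hR hC (h.M_le _ (he₀M i)) (hR.eq_M (he₀M i)) (h₀.ne i)
  choose ν e' hν hνn he'R he'w he'n heν using hef
  obtain ⟨yf, hyf, hyfw, hfρ⟩ := hC.unif f h.f_mem h.f_w.le h.f_lt
  set G : Finset L := (Finset.univ.image b') ∪ (Finset.univ.image e') ∪ (Finset.univ.image u₀) with hG
  have hGR : ∀ g ∈ G, g ∈ R ∧ w g ≤ 1 := by
    intro g hg
    rw [hG, Finset.mem_union, Finset.mem_union, Finset.mem_image, Finset.mem_image,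
      Finset.mem_image] at hg
    rcases hg with (⟨j, -, rfl⟩ | ⟨i, -, rfl⟩) | ⟨i, -, rfl⟩
    · exact ⟨hb'R j, (hb'w j).le⟩
    · exact ⟨he'R i, (he'w i).le⟩
    · exact ⟨h.M_le _ (hu₀M i), by rw [hR.eq_M (hu₀M i)]; exact h₀.norm_u i⟩
  obtain ⟨ε₁, hε10, hε11, hε1⟩ := exists_eps hR hC G hGR
  obtain ⟨ε, hε0, hε1', hε1ε, hfε⟩ : ∃ ε : ℝ, 0 < ε ∧ ε < 1 ∧ ε₁ ≤ ε ∧ w (f - h' * yf) ≤ ε :=
    ⟨max ε₁ (w (f - h' * yf)), lt_max_of_lt_left hε10, max_lt hε11 hfρ, le_max_left _ _,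
      le_max_right _ _⟩
  have hGA : ∀ g ∈ G, g ∈ AAs k (keuT k e u α) R w h' ε := fun g hg => AAs_mono hε1ε (hε1 g hg)
  obtain ⟨𝒜, h𝒜, hinv⟩ := exists_AA_ring hR hC (keuT k e u α) hε0.le hε1'
  have hb'A : ∀ j, b' j ∈ 𝒜 := fun j => (h𝒜 _).2 (hGA _ (by
    rw [hG]; exact Finset.mem_union_left _ (Finset.mem_union_left _
      (Finset.mem_image_of_mem _ (Finset.mem_univ _)))))
  have he'A : ∀ i, e' i ∈ 𝒜 := fun i => (h𝒜 _).2 (hGA _ (by
    rw [hG]; exact Finset.mem_union_left _ (Finset.mem_union_right _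
      (Finset.mem_image_of_mem _ (Finset.mem_univ _)))))
  have hu₀A : ∀ i, u₀ i ∈ 𝒜 := fun i => (h𝒜 _).2 (hGA _ (by
    rw [hG]; exact Finset.mem_union_right _
      (Finset.mem_image_of_mem _ (Finset.mem_univ _))))
  have hmonA : ∀ (z : Fin r → ℤ) (c : k), ‖mon k e z c‖ ≤ 1 → mon k e z c ∈ 𝒜 := fun z c hz =>
    (h𝒜 _).2 (Cor.mon_mem hR hC hε0.le z c hz).2.2
  have hHA : ∀ x, H1M k e x → ‖x‖ ≤ 1 → x ∈ 𝒜 := by
    rintro x ⟨z, c, hc, rfl⟩ hx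
    exact hmonA z c hx
  have he₀f : ∀ i, ∃ (z : Fin r → ℤ) (c : k), c ≠ 0 ∧ ∃ a ∈ 𝒜, ‖a‖ = 1 ∧
      e₀ i = mon k e z c * a := by
    intro i
    obtain ⟨z, c, hc, hz⟩ := hν i
    exact ⟨z, c, hc, e' i, he'A i, he'n i, by rw [← hz]; exact heν i⟩
  have hM : ∀ x ∈ keu k e₀ u₀, x ≠ 0 → ∃ μ a : L, H1M k e μ ∧ a ∈ 𝒜 ∧ ‖a‖ = 1 ∧ x = μ * a := by
    intro x hx hx0
    obtain ⟨z, c, hc, a, ha, ha1, hxa⟩ := exists_mon_unit h₀ hinv hne hmonA he₀f hu₀A hx hx0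
    exact ⟨_, a, ⟨z, c, hc, rfl⟩, ha, ha1, hxa⟩
  -- the elements of `V`
  have hV : ∀ A ∈ V, A ≠ 0 → ∃ μ A' : L, H1M k e μ ∧ ‖μ‖ = ‖A‖ ∧ A' ∈ 𝒜 ∧ ‖A'‖ = 1 ∧
      A = μ * A' := by
    intro A hA hA0
    obtain ⟨ρ, A', hρ, hρn, hA'R, hA'w, hA'n, hAρ⟩ :=
      h1c_form hR hC (h.V_le _ hA) (h.eqV _ hA) hA0
    refine ⟨ρ, A', hρ, hρn, ?_, hA'n, hAρ⟩
    have hρ0 := hρ.ne hne
    have hρnpos : 0 < ‖ρ‖ := norm_pos_iff.2 hρ0
    have hwρ : w ρ = ‖ρ‖ := (h1c_mon hR hC hρ).2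
    have hwA : w A = ‖ρ‖ := by rw [h.eqV _ hA, hρn]
    obtain ⟨a, haM, hlt⟩ := happ A hA ε hε0
    have hsum : w (∑ j, a j * b j) ≤ w A := by
      have h1 : ∑ j, a j * b j = A + -(A - ∑ j, a j * b j) := by ring
      rw [h1]
      refine (h.nonarch _ _).trans (max_le le_rfl ?_)
      rw [map_neg_eq_map]
      refine hlt.trans ?_
      rw [← one_mul (w A), ← mul_assoc, mul_one]
      exact mul_le_mul_of_nonneg_right hε1'.le (w.nonneg _)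
    have hterm : ∀ j, ρ⁻¹ * (a j * b j) ∈ 𝒜 := by
      intro j
      by_cases ha0 : a j = 0
      · rw [ha0, zero_mul, mul_zero]
        exact zero_mem 𝒜
      · obtain ⟨σ, a', hσ, ha', ha'1, haσ⟩ := hM _ (haM j) ha0
        have h1 : ρ⁻¹ * (a j * b j) = (ρ⁻¹ * (σ * μ j)) * (a' * b' j) := by
          conv_lhs => rw [haσ, hbμ j]
          ring
        rw [h1]
        refine mul_mem (hHA _ (hρ.inv.mul hne (hσ.mul hne (hμ j))) ?_) (mul_mem ha' (hb'A j))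
        have h2 : ‖σ‖ = ‖a j‖ := by rw [haσ, norm_mul, ha'1, mul_one]
        rw [norm_mul, norm_inv, norm_mul, h2, hμn j, inv_mul_le_iff₀ hρnpos, mul_one, ← hwA]
        refine le_trans (le_of_eq ?_) ((hborth a haM j).trans hsum)
        rw [map_mul, hR.eq_M (haM j), h.eqV _ (hbV j)]
    have hx : (∑ j, ρ⁻¹ * (a j * b j)) ∈ 𝒜 := sum_mem fun j _ => hterm j
    rw [h𝒜]
    refine h1c_near h.nonarch hA'R hA'w.le ((h𝒜 _).1 hx) ?_
    have h3 : A' - ∑ j, ρ⁻¹ * (a j * b j) = ρ⁻¹ * (A - ∑ j, a j * b j) := by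
      rw [← Finset.mul_sum, mul_sub]
      congr 1
      conv_rhs => rw [hAρ]
      rw [inv_mul_cancel_left₀ hρ0]
    rw [h3, map_mul, map_inv₀, hwρ, inv_mul_le_iff₀ hρnpos]
    rw [← hwA, mul_comm]
    exact hlt
  refine ⟨ε, hε0, hε1', fun q hq hqw => ?_⟩
  obtain ⟨A, hA, B, hB, hB0, y, hy, hqe, hAB, hyw⟩ := h.div q hq
  rw [← h𝒜, hqe]
  refine add_mem ?_ ?_
  · by_cases hA0 : A = 0
    · rw [hA0, zero_div]
      exact zero_mem 𝒜
    · obtain ⟨μA, A', hμA, hμAn, hA', hA'1, hAe⟩ := hV A hA hA0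
      obtain ⟨μB, B', hμB, hμBn, hB', hB'1, hBe⟩ := hV B hB hB0
      have h1 : A / B = (μA * μB⁻¹) * (A' * B'⁻¹) := by
        rw [div_eq_mul_inv]
        conv_lhs => rw [hAe, hBe]
        rw [mul_inv]
        ring
      have h2 : ‖μA * μB⁻¹‖ ≤ 1 := by
        rw [norm_mul, norm_inv, hμAn, hμBn, ← h.eqV _ hA, ← h.eqV _ hB, ← div_eq_mul_inv,
          ← map_div₀]
        exact hAB.trans hqw
      rw [h1]
      exact mul_mem (hHA _ (hμA.mul hne hμB.inv) h2) (mul_mem hA' (hinv _ hB' hB'1))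
  · rw [h𝒜]
    refine ⟨R.mul_mem h.f_mem hy, ?_, 0, zero_mem _, zero_mem R,
      by rw [map_zero]; exact zero_le_one, yf * y, R.mul_mem hyf hy, ?_, ?_⟩
    · rw [map_mul, h.f_w, one_mul]
      exact hyw.trans hqw
    · rw [map_mul]
      exact mul_le_one₀ hyfw (w.nonneg _) (hyw.trans hqw)
    · have h1 : f * y - 0 - h' * (yf * y) = (f - h' * yf) * y := by ring
      rw [h1, map_mul]
      calc w (f - h' * yf) * w y ≤ ε * 1 :=
            mul_le_mul hfε (hyw.trans hqw) (w.nonneg _) hε0.le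
        _ = ε := mul_one _

end DA
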