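import Pool.Agent.Lib.MP_1a953e_ag.Tr3
import Pool.Agent.Lib.MP_1a953e_ag.Tr5

/-!
# Module HFa: residual data from given generators of the residue field
-/

namespace DA

open Polynomial MP1a953e IsLocalRing

universe v

private theorem hfa_sub_le {Ω : Type*} [NormedField Ω] [IsUltrametricDist Ω] (x y : Ω) :
    ‖x - y‖ ≤ max ‖x‖ ‖y‖ := by
  have h := IsUltrametricDist.norm_add_le_max x (-y)
  rwa [norm_neg, ← sub_eq_add_neg] at h

private theorem hfa_pow_sub {Ω : Type*} [NormedField Ω] [IsUltrametricDist Ω] {x y : Ω}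
    (hx : ‖x‖ ≤ 1) (hy : ‖y‖ ≤ 1) (n : ℕ) : ‖x ^ n - y ^ n‖ ≤ ‖x - y‖ := by
  induction n with
  | zero => simp
  | succ n ih =>
    have h1 : x ^ (n + 1) - y ^ (n + 1) = x ^ n * (x - y) + (x ^ n - y ^ n) * y := by ring
    rw [h1]
    refine (IsUltrametricDist.norm_add_le_max _ _).trans (max_le ?_ ?_)
    · rw [norm_mul, norm_pow]
      calc ‖x‖ ^ n * ‖x - y‖ ≤ 1 * ‖x - y‖ :=
            mul_le_mul_of_nonneg_right (pow_le_one₀ (norm_nonneg _) hx) (norm_nonneg _)
        _ = _ := one_mul _
    · rw [norm_mul]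
      calc ‖x ^ n - y ^ n‖ * ‖y‖ ≤ ‖x ^ n - y ^ n‖ * 1 :=
            mul_le_mul_of_nonneg_left hy (norm_nonneg _)
        _ ≤ _ := by rw [mul_one]; exact ih

private theorem hfa_kU {k L Ω : Type v} [NontriviallyNormedField k] [NormedField L]
    [NormedAlgebra k L] [NormedField Ω] (ι : L →+* Ω) {m : ℕ} (u : Fin m → L) {x : Ω} :
    x ∈ kU (kO k ι) (fun i => ι (u i)) ↔
      ∃ c ∈ IntermediateField.adjoin k (Set.range u), ι c = x := by
  constructor
  · intro hx
    have h1 : kU (kO k ι) (fun i => ι (u i)) ≤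
        (IntermediateField.adjoin k (Set.range u)).toSubfield.map ι := by
      refine sup_le ?_ (Subfield.closure_le.2 ?_)
      · rintro _ ⟨c, rfl⟩
        exact ⟨algebraMap k L c, IntermediateField.algebraMap_mem _ c, rfl⟩
      · rintro _ ⟨i, rfl⟩
        exact ⟨u i, IntermediateField.subset_adjoin k _ ⟨i, rfl⟩, rfl⟩
    obtain ⟨c, hc, hcx⟩ := h1 hx
    exact ⟨c, hc, hcx⟩
  · rintro ⟨c, hc, rfl⟩
    have h1 : Subfield.closure (Set.range (algebraMap k L) ∪ Set.range u) ≤
        (kU (kO k ι) (fun i => ι (u i))).comap ι := by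
      refine Subfield.closure_le.2 ?_
      rintro _ (⟨c, rfl⟩ | ⟨i, rfl⟩)
      · exact (le_sup_left : kO k ι ≤ kU (kO k ι) (fun i => ι (u i))) ⟨c, rfl⟩
      · exact (le_sup_right : Subfield.closure (Set.range fun i => ι (u i)) ≤
          kU (kO k ι) (fun i => ι (u i))) (Subfield.subset_closure ⟨i, rfl⟩)
    exact h1 hc

/-- HFa.  As `exists_rd` (module Tr5; adapt its proof), but `u` and a lift `α` of the primitive element are
given. Proof.  Let `f̃` be the minimal polynomial of `α̃` over `κ_k(ũ)`, of degree `d`; lift its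
coefficients (`exists_lift_adjoin`) to get a monic `f₁` over `k(u)` with coefficients in `O L`; `‖f₁ α‖ < 1`,
`‖f₁' α‖ = 1`. `f` is the image of `f₁` under `ι`; `hensel` in `K` gives the root `a ∈ K` with
`‖ι α - a‖ < 1`. The rest is as in Tr5 (`gauss_of_residues`, `orth_of_residues`, density). -/
theorem exists_rd_of_gens {k L Ω : Type v} [NontriviallyNormedField k] [IsUltrametricDist k]
    [IsAlgClosed k] [NormedField L] [IsUltrametricDist L] [NormedAlgebra k L]
    [NormedField Ω] [IsUltrametricDist Ω] {ι : L →+* Ω} {K : Subfield Ω} (hE : Emb ι K) {m : ℕ}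
    (u : Fin m → O L) (α : O L)
    (hai : AlgebraicIndependent (ResidueField (O k)) (fun i => residue (O L) (u i)))
    (hsep : IsSeparable (IntermediateField.adjoin (ResidueField (O k))
      (Set.range fun i => residue (O L) (u i))) (residue (O L) α))
    (hgen : ∀ q : O L, residue (O L) q ∈ IntermediateField.adjoin (ResidueField (O k))
      (Set.range (fun i => residue (O L) (u i)) ∪ {residue (O L) α})) :
    ∃ (a : Ω) (d : ℕ) (f : Polynomial Ω), a ∈ K ∧ ‖a - ι (α : L)‖ < 1 ∧
      RD (kO k ι) (fun i => ι (u i : L)) d a f ∧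
      ∀ x ∈ K, ‖x‖ ≤ 1 →
        ∃ e ∈ adj (kU (kO k ι) (fun i => ι (u i : L))) a, ‖x - e‖ < 1 := by
  classical
  set F := IntermediateField.adjoin (ResidueField (O k)) (Set.range fun i => residue (O L) (u i))
    with hF
  have hint : IsIntegral F (residue (O L) α) := hsep.isIntegral
  set g := minpoly F (residue (O L) α) with hg
  set d := g.natDegree with hd
  have hgm : g.Monic := minpoly.monic hint
  -- lift of the coefficients
  have hlift : ∀ e : F, ∃ c : O L,
      (c : L) ∈ IntermediateField.adjoin k (Set.range fun i => (u i : L)) ∧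
      residue (O L) c = (e : ResidueField (O L)) := fun e => exists_lift_adjoin u e.2
  choose lf hlf1 hlf2 using hlift
  -- the polynomial
  let f₁ : (O L)[X] := X ^ d + ∑ i ∈ Finset.range d, C (lf (g.coeff i)) * X ^ i
  have hdegsum : (∑ i ∈ Finset.range d, C (lf (g.coeff i)) * X ^ i : (O L)[X]).degree < d := by
    rw [degree_lt_iff_coeff_zero]
    intro n hn
    simp only [finsetSum_coeff, coeff_C_mul_X_pow]
    refine Finset.sum_eq_zero fun j hj => ?_
    rw [if_neg]
    have := Finset.mem_range.1 hj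
    omega
  have hf₁m : f₁.Monic := monic_X_pow_add hdegsum
  have hf₁d : f₁.natDegree = d := by
    refine natDegree_eq_of_degree_eq_some ?_
    have h1 : (∑ i ∈ Finset.range d, C (lf (g.coeff i)) * X ^ i : (O L)[X]).degree <
        (X ^ d : (O L)[X]).degree := by
      rw [degree_X_pow]
      exact hdegsum
    rw [degree_add_eq_left_of_degree_lt h1, degree_X_pow]
  have hf₁c : ∀ i, ((f₁.coeff i : O L) : L) ∈
      IntermediateField.adjoin k (Set.range fun i => (u i : L)) := by
    intro i
    simp only [f₁, coeff_add, coeff_X_pow, finsetSum_coeff, coeff_C_mul_X_pow]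
    push_cast
    refine add_mem ?_ (sum_mem fun j _ => ?_)
    · split_ifs
      · exact one_mem _
      · exact zero_mem _
    · split_ifs
      · exact hlf1 _
      · exact zero_mem _
  have hf₁r : f₁.map (residue (O L)) = g.map (algebraMap F (ResidueField (O L))) := by
    have h1 : g = X ^ d + ∑ i ∈ Finset.range d, C (g.coeff i) * X ^ i := by
      conv_lhs => rw [hgm.as_sum]
    rw [h1]
    simp only [f₁, Polynomial.map_add, Polynomial.map_pow, map_X, Polynomial.map_sum,
      Polynomial.map_mul, map_C]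
    congr 1
    refine Finset.sum_congr rfl fun i _ => ?_
    rw [hlf2]
    rfl
  have hres0 : residue (O L) (f₁.eval α) = 0 := by
    rw [← eval₂_hom, ← eval_map, hf₁r, eval_map, ← aeval_def]
    exact minpoly.aeval F _
  have hres1 : residue (O L) (f₁.derivative.eval α) ≠ 0 := by
    rw [← eval₂_hom, ← eval_map, ← derivative_map, hf₁r, derivative_map, eval_map, ← aeval_def]
    exact (hsep : (minpoly F (residue (O L) α)).Separable).aeval_derivative_ne_zero
      (minpoly.aeval F _)
  -- the image of the polynomial in `Ω`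
  let j : O L →+* Ω := ι.comp (O L).subtype
  have hjn : ∀ z : O L, ‖j z‖ = ‖(z : L)‖ := fun z => hE.norm _
  have hjn1 : ∀ z : O L, ‖j z‖ ≤ 1 := fun z => (hjn z).le.trans (mem_O.1 z.2)
  have hjlt : ∀ z : O L, residue (O L) z = 0 → ‖j z‖ < 1 := by
    intro z hz
    rw [hjn]
    refine lt_of_le_of_ne (mem_O.1 z.2) fun h => ?_
    rw [residue_eq_zero_iff, mem_maximalIdeal, mem_nonunits_iff, isUnit_O_iff] at hz
    exact hz h
  have hj1 : ∀ z : O L, residue (O L) z ≠ 0 → ‖j z‖ = 1 := by
    intro z hz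
    rw [hjn]
    by_contra h
    exact hz ((residue_eq_zero_iff _).2 (by
      rw [mem_maximalIdeal, mem_nonunits_iff, isUnit_O_iff]
      exact h))
  set f : Polynomial Ω := f₁.map j with hf
  have hfm : f.Monic := hf₁m.map _
  have hfd : f.natDegree = d := by rw [hf, hf₁m.natDegree_map, hf₁d]
  have hfn : ∀ i, ‖f.coeff i‖ ≤ 1 := fun i => by
    rw [hf, coeff_map]
    exact hjn1 _
  have hfc : Coeffs (kU (kO k ι) (fun i => ι (u i))) f := fun i => by
    rw [hf, coeff_map]
    exact (hfa_kU ι (fun i => (u i : L))).2 ⟨_, hf₁c i, rfl⟩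
  have hkUK : kU (kO k ι) (fun i => ι (u i)) ≤ K := by
    intro x hx
    obtain ⟨c, -, rfl⟩ := (hfa_kU ι (fun i => (u i : L))).1 hx
    exact hE.mem c
  have hfe : ‖f.eval (j α)‖ < 1 := by
    rw [hf, eval_map, eval₂_hom]
    exact hjlt _ hres0
  have hfe1 : ‖f.derivative.eval (j α)‖ = 1 := by
    rw [hf, derivative_map, eval_map, eval₂_hom]
    exact hj1 _ hres1
  obtain ⟨a, haK, hroot, haa⟩ := hensel hE.complete (fun i => hkUK (hfc i)) hfn (hE.mem α)
    (hjn1 α) hfe hfe1
  have haa : ‖j α - a‖ < 1 := haa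
  have hn1 : ‖j α‖ ≤ 1 := hjn1 α
  have hna : ‖a‖ ≤ 1 := by
    have h1 : a = j α - (j α - a) := by ring
    rw [h1]
    exact (hfa_sub_le _ _).trans (max_le hn1 haa.le)
  have hpow : ∀ n : ℕ, ‖(j α) ^ n - a ^ n‖ < 1 := fun n =>
    lt_of_le_of_lt (hfa_pow_sub hn1 hna n) haa
  have hderiv : ‖f.derivative.eval a‖ = 1 := by
    have h1 : ‖f.derivative.eval (j α) - f.derivative.eval a‖ < 1 := by
      rw [eval_eq_sum_range, eval_eq_sum_range, ← Finset.sum_sub_distrib]
      refine lt_of_le_of_lt (b := ‖j α - a‖) ?_ haa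
      refine IsUltrametricDist.norm_sum_le_of_forall_le_of_nonneg (norm_nonneg _) ?_
      intro i _
      rw [← mul_sub, norm_mul]
      have h2 : ‖f.derivative.coeff i‖ ≤ 1 := by
        rw [coeff_derivative, norm_mul]
        refine mul_le_one₀ (hfn _) (norm_nonneg _) ?_
        have := IsUltrametricDist.norm_natCast_le_one Ω (i + 1)
        simpa using this
      calc ‖f.derivative.coeff i‖ * ‖(j α) ^ i - a ^ i‖ ≤ 1 * ‖j α - a‖ :=
            mul_le_mul h2 (hfa_pow_sub hn1 hna i) (norm_nonneg _) zero_le_one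
        _ = _ := one_mul _
    have h3 : f.derivative.eval a = f.derivative.eval (j α) -
        (f.derivative.eval (j α) - f.derivative.eval a) := by ring
    refine le_antisymm ?_ ?_
    · rw [h3]
      exact (hfa_sub_le _ _).trans (max_le hfe1.le h1.le)
    · by_contra hlt
      rw [not_le] at hlt
      have h4 : f.derivative.eval (j α) = f.derivative.eval a +
        (f.derivative.eval (j α) - f.derivative.eval a) := by ring
      have h5 := IsUltrametricDist.norm_add_le_max (f.derivative.eval a)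
        (f.derivative.eval (j α) - f.derivative.eval a)
      rw [← h4, hfe1] at h5
      exact absurd (lt_of_le_of_lt h5 (max_lt hlt h1)) (lt_irrefl _)
  have hdpos : 0 < d := minpoly.natDegree_pos hint
  refine ⟨a, d, f, haK, by rw [norm_sub_rev]; exact haa, ?_, ?_⟩
  · refine ⟨?_, fun i => hjn1 (u i), hna, hdpos, ?_, hfc, hfm, hfd, hfn, hroot, hderiv⟩
    · -- Gauss norm
      intro P hP s
      have h1 : ∃ P0 : MvPolynomial (Fin m) k, P0.map (ι.comp (algebraMap k L)) = P := by
        choose c hc using fun s => (hP s : P.coeff s ∈ kO k ι)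
        refine ⟨∑ s ∈ P.support, MvPolynomial.monomial s (c s), ?_⟩
        rw [map_sum]
        conv_rhs => rw [← MvPolynomial.support_sum_monomial_coeff P]
        refine Finset.sum_congr rfl fun s _ => ?_
        rw [MvPolynomial.map_monomial, hc]
      obtain ⟨P0, rfl⟩ := h1
      have h2 := gauss_of_residues u hai P0 s
      rw [MvPolynomial.coeff_map, MvPolynomial.eval_map]
      have h3 : MvPolynomial.eval₂ (ι.comp (algebraMap k L)) (fun i => ι (u i)) P0 =
          ι (MvPolynomial.aeval (fun i => (u i : L)) P0) := by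
        rw [MvPolynomial.aeval_def, MvPolynomial.eval₂_comp_left]
        rfl
      rw [h3, hE.norm, RingHom.comp_apply, hE.norm, norm_algebraMap']
      exact h2
    · -- orthonormality
      intro c hc i
      choose c' hc' hcc using fun i => (hfa_kU ι (fun i => (u i : L))).1 (hc i)
      have hne : (Finset.univ : Finset (Fin d)).Nonempty := ⟨i, Finset.mem_univ i⟩
      obtain ⟨i₀, -, hi₀⟩ := Finset.exists_max_image Finset.univ (fun j => ‖c j‖) hne
      have hmax : ∀ j, ‖c j‖ ≤ ‖c i₀‖ := fun j => hi₀ j (Finset.mem_univ j)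
      refine (hmax i).trans ?_
      by_contra hlt
      rw [not_le] at hlt
      have hpos : 0 < ‖c i₀‖ := lt_of_le_of_lt (norm_nonneg _) hlt
      have h1 := orth_of_residues u hai α hint rfl c' hc' i₀
      have h2 : ι (∑ n, c' n * (α : L) ^ (n : ℕ)) = ∑ n : Fin d, c n * (j α) ^ (n : ℕ) := by
        rw [map_sum]
        refine Finset.sum_congr rfl fun n _ => ?_
        rw [map_mul, map_pow, hcc]
        rfl
      rw [← hE.norm, hcc, ← hE.norm, h2] at h1
      have h3 : ∑ n : Fin d, c n * (j α) ^ (n : ℕ) = ∑ n : Fin d, c n * a ^ (n : ℕ) +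
          ∑ n : Fin d, c n * ((j α) ^ (n : ℕ) - a ^ (n : ℕ)) := by
        rw [← Finset.sum_add_distrib]
        refine Finset.sum_congr rfl fun n _ => ?_
        ring
      have h4 : ‖∑ n : Fin d, c n * ((j α) ^ (n : ℕ) - a ^ (n : ℕ))‖ < ‖c i₀‖ := by
        refine lt_of_le_of_lt (b := ‖c i₀‖ * ‖j α - a‖) ?_ ?_
        · refine IsUltrametricDist.norm_sum_le_of_forall_le_of_nonneg
            (mul_nonneg hpos.le (norm_nonneg _)) ?_
          intro n _
          rw [norm_mul]
          exact mul_le_mul (hmax n) (hfa_pow_sub hn1 hna n) (norm_nonneg _) hpos.le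
        · calc ‖c i₀‖ * ‖j α - a‖ < ‖c i₀‖ * 1 := mul_lt_mul_of_pos_left haa hpos
            _ = _ := mul_one _
      rw [h3] at h1
      exact absurd (lt_of_le_of_lt (h1.trans (IsUltrametricDist.norm_add_le_max _ _))
        (max_lt hlt h4)) (lt_irrefl _)
  · -- approximation
    intro x hx hx1
    obtain ⟨l, hl⟩ := hE.dense x hx 1 one_pos
    have hl1 : ‖l‖ ≤ 1 := by
      rw [← hE.norm]
      have h1 : ι l = x - (x - ι l) := by ring
      rw [h1]
      exact (hfa_sub_le _ _).trans (max_le hx1 hl.le)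
    obtain ⟨q, hq⟩ : ∃ q : F[X], aeval (residue (O L) α) q =
        residue (O L) (⟨l, mem_O.2 hl1⟩ : O L) := by
      have h1 : residue (O L) (⟨l, mem_O.2 hl1⟩ : O L) ∈
          (IntermediateField.adjoin F {residue (O L) α}).toSubalgebra := by
        have h2 := hgen (⟨l, mem_O.2 hl1⟩ : O L)
        rw [← IntermediateField.adjoin_adjoin_left] at h2
        exact h2
      rw [IntermediateField.adjoin_simple_toSubalgebra_of_isAlgebraic hint.isAlgebraic,
        Algebra.adjoin_singleton_eq_range_aeval] at h1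
      exact h1
    set e : Ω := ∑ n ∈ Finset.range (q.natDegree + 1), j (lf (q.coeff n)) * a ^ n with he
    have hkUa : kU (kO k ι) (fun i => ι (u i)) ≤ adj (kU (kO k ι) (fun i => ι (u i))) a :=
      le_adj _ _
    have hmem : e ∈ adj (kU (kO k ι) (fun i => ι (u i))) a := by
      refine sum_mem fun n _ => mul_mem (hkUa ?_) (pow_mem (mem_adj_self _ _) _)
      exact (hfa_kU ι (fun i => (u i : L))).2 ⟨_, hlf1 _, rfl⟩
    refine ⟨e, hmem, ?_⟩
    set w : O L := (⟨l, mem_O.2 hl1⟩ : O L) -
      ∑ n ∈ Finset.range (q.natDegree + 1), lf (q.coeff n) * α ^ n with hw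
    have hwr : residue (O L) w = 0 := by
      rw [hw, map_sub, ← hq, sub_eq_zero, aeval_eq_sum_range, map_sum]
      refine Finset.sum_congr rfl fun n _ => ?_
      rw [map_mul, map_pow, hlf2, Algebra.smul_def]
      rfl
    have h2 : x - e = (x - ι l) + (j w +
        ∑ n ∈ Finset.range (q.natDegree + 1), j (lf (q.coeff n)) * ((j α) ^ n - a ^ n)) := by
      have h3 : j w = ι l -
          ∑ n ∈ Finset.range (q.natDegree + 1), j (lf (q.coeff n)) * (j α) ^ n := by
        rw [hw, map_sub, map_sum]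
        congr 1
        refine Finset.sum_congr rfl fun n _ => ?_
        rw [map_mul, map_pow]
      have h4 : ∑ n ∈ Finset.range (q.natDegree + 1), j (lf (q.coeff n)) * ((j α) ^ n - a ^ n) =
          ∑ n ∈ Finset.range (q.natDegree + 1), j (lf (q.coeff n)) * (j α) ^ n - e := by
        rw [he, ← Finset.sum_sub_distrib]
        refine Finset.sum_congr rfl fun n _ => ?_
        ring
      rw [h3, h4]
      ring
    rw [h2]
    refine lt_of_le_of_lt (IsUltrametricDist.norm_add_le_max _ _) (max_lt hl ?_)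
    refine lt_of_le_of_lt (IsUltrametricDist.norm_add_le_max _ _) (max_lt (hjlt w hwr) ?_)
    refine lt_of_le_of_lt (b := ‖j α - a‖) ?_ haa
    refine IsUltrametricDist.norm_sum_le_of_forall_le_of_nonneg (norm_nonneg _) ?_
    intro n _
    rw [norm_mul]
    calc ‖j (lf (q.coeff n))‖ * ‖(j α) ^ n - a ^ n‖ ≤ 1 * ‖j α - a‖ :=
          mul_le_mul (hjn1 _) (hfa_pow_sub hn1 hna n) (norm_nonneg _) zero_le_one
      _ = _ := one_mul _

end DA
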