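import Pool.Agent.Lib.DA.Defs3
import Pool.Agent.Lib.DA.EUb

/-!
# Module K1: values
-/

namespace DA

open Polynomial MP1a953e

private theorem k1_nabs {E : Type*} [NormedField E] (x : E) : nabs E x = ‖x‖ := rfl

section
variable {k L : Type*} [NormedField k] [NormedField L] [IsUltrametricDist L]
  [NormedAlgebra k L] {M : IntermediateField k L} {R : Subring L} {w : AbsoluteValue L ℝ}

omit [IsUltrametricDist L] in
private theorem k1_eq (hM : ∀ c ∈ M, c ∈ R) (hle : ∀ q ∈ R, ‖q‖ ≤ w q) {c : L} (hc : c ∈ M) :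
    w c = ‖c‖ := by
  rcases eq_or_ne c 0 with rfl | h0
  · simp
  have h1 := hle c (hM c hc)
  have h2 := hle c⁻¹ (hM _ (M.inv_mem hc))
  rw [norm_inv, map_inv₀] at h2
  have h3 : 0 < ‖c‖ := norm_pos_iff.2 h0
  have h4 : 0 < w c := lt_of_lt_of_le h3 h1
  exact le_antisymm ((inv_le_inv₀ h3 h4).1 h2) h1

/-- `w` is the norm on `M`: `‖c‖ ≤ w c` and `‖c⁻¹‖ ≤ w c⁻¹`. -/
theorem RWd.eq_M (h : RWd M R w) {c : L} (hc : c ∈ M) : w c = ‖c‖ :=
  k1_eq h.M_le h.le hc

omit [IsUltrametricDist L] in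
private theorem k1_lin {l : ℕ} {g : Fin l → L} (hg : Orth M (nabs L) g) :
    LinearIndependent M g := by
  rw [Fintype.linearIndependent_iff]
  intro a ha i
  have h1 := hg.2 (fun j => (a j : L)) (fun j => (a j).2) i
  have h2 : ∑ j, ((a j : L)) * g j = 0 := by
    rw [← ha]
    rfl
  rw [h2, map_zero, k1_nabs] at h1
  have h3 : (a i : L) * g i = 0 := norm_le_zero_iff.1 h1
  rcases mul_eq_zero.1 h3 with h4 | h4
  · exact_mod_cast h4
  · exact absurd h4 (hg.1 i)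

/-- `DIVd` implies `RWd`.  Proof.  `bdd`: let `N` be as in `DIVd.bdd`, `g` an orthogonal family in `R` with
`w (g i) = ‖g i‖`, and `Y` its span, of dimension `l` (orthogonality implies linear independence). For
`y = ∑ a i g i`: `w y ≤ max w (a i g i) = max ‖a i g i‖ ≤ ‖y‖ ≤ w y` (`w = ‖·‖` on `M`, by the argument of
`RWd.eq_M`). -/
theorem DIVd.rwd {V : Submodule M L} {f : L} (h : DIVd M R w V f) : RWd M R w := by
  refine ⟨h.nonarch, h.M_le, h.le, h.inv, ?_⟩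
  obtain ⟨N, hN⟩ := h.bdd
  refine ⟨N, fun l g hg horth => ?_⟩
  have hlin := k1_lin horth
  have hrep : ∀ y ∈ Submodule.span M (Set.range g), ∃ a : Fin l → M, y = ∑ j, (a j : L) * g j := by
    intro y hy
    rw [Submodule.mem_span_range_iff_exists_fun] at hy
    obtain ⟨a, ha⟩ := hy
    exact ⟨a, ha.symm⟩
  have hR : ∀ y ∈ Submodule.span M (Set.range g), y ∈ R := by
    intro y hy
    obtain ⟨a, rfl⟩ := hrep y hy
    exact R.sum_mem fun j _ => R.mul_mem (h.M_le _ (a j).2) (hg j).1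
  have h1 := hN (Submodule.span M (Set.range g))
    (Module.Finite.span_of_finite M (Set.finite_range g)) hR ?_
  · rw [finrank_span_eq_card hlin, Fintype.card_fin] at h1
    exact h1
  · intro y hy
    obtain ⟨a, ha⟩ := hrep y hy
    refine le_antisymm ?_ (h.le y (hR y hy))
    have h2 : ∀ j, w ((a j : L) * g j) ≤ ‖y‖ := by
      intro j
      rw [map_mul, k1_eq h.M_le h.le (a j).2, (hg j).2, ← norm_mul]
      have := horth.2 (fun j => (a j : L)) (fun j => (a j).2) j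
      rw [← ha] at this
      exact this
    rw [ha]
    rw [← ha]
    have h3 : ∀ s : Finset (Fin l), w (∑ j ∈ s, (a j : L) * g j) ≤ ‖y‖ := by
      classical
      intro s
      induction s using Finset.induction_on with
      | empty => simp
      | insert j s hj ih =>
        rw [Finset.sum_insert hj]
        exact (h.nonarch _ _).trans (max_le (h2 j) ih)
    have h4 := h3 Finset.univ
    rw [← ha] at h4
    exact h4

end

section
variable {k L : Type*} [NontriviallyNormedField k] [IsUltrametricDist k] [IsAlgClosed k]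
  [NormedField L] [IsUltrametricDist L] [NormedAlgebra k L] {r m : ℕ}

/-- the group of the values of `k` -/
private def k1D (k : Type*) [NormedField k] : AddSubgroup ℝ where
  carrier := {x | ∃ c : k, c ≠ 0 ∧ x = Real.log ‖c‖}
  add_mem' := by
    rintro _ _ ⟨c, hc, rfl⟩ ⟨d, hd, rfl⟩
    refine ⟨c * d, mul_ne_zero hc hd, ?_⟩
    rw [norm_mul, Real.log_mul (norm_ne_zero_iff.2 hc) (norm_ne_zero_iff.2 hd)]
  zero_mem' := ⟨1, one_ne_zero, by simp⟩
  neg_mem' := by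
    rintro _ ⟨c, hc, rfl⟩
    exact ⟨c⁻¹, inv_ne_zero hc, by rw [norm_inv, Real.log_inv]⟩

/-- the values of `R` modulo the values of `k` -/
private noncomputable def k1G (k : Type*) [NormedField k] {L : Type*} [NormedField L] (R : Subring L)
    (w : AbsoluteValue L ℝ) (hinv : ∀ q ∈ R, w q = ‖q‖ → q⁻¹ ∈ R) : AddSubgroup (ℝ ⧸ k1D k) where
  carrier := {t | ∃ q : L, q ≠ 0 ∧ q ∈ R ∧ w q = ‖q‖ ∧ t = QuotientAddGroup.mk (Real.log ‖q‖)}
  add_mem' := by
    rintro _ _ ⟨c, hc, hcR, hcw, rfl⟩ ⟨d, hd, hdR, hdw, rfl⟩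
    refine ⟨c * d, mul_ne_zero hc hd, R.mul_mem hcR hdR, by rw [map_mul, hcw, hdw, norm_mul], ?_⟩
    rw [norm_mul, Real.log_mul (norm_ne_zero_iff.2 hc) (norm_ne_zero_iff.2 hd)]
    rfl
  zero_mem' := ⟨1, one_ne_zero, R.one_mem, by simp, by simp⟩
  neg_mem' := by
    rintro _ ⟨c, hc, hcR, hcw, rfl⟩
    refine ⟨c⁻¹, inv_ne_zero hc, hinv c hcR hcw, by rw [map_inv₀, hcw, norm_inv], ?_⟩
    rw [norm_inv, Real.log_inv]
    rfl

omit [IsUltrametricDist k] in
private theorem k1_tf : IsAddTorsionFree (ℝ ⧸ k1D k) := by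
  refine ⟨fun n hn => ?_⟩
  intro x y hxy
  have hxy' : n • x = n • y := hxy
  have h0 : n • (x - y) = 0 := by rw [nsmul_sub, hxy', sub_self]
  rw [← sub_eq_zero]
  obtain ⟨t, ht⟩ := QuotientAddGroup.mk_surjective (x - y)
  rw [← ht] at h0 ⊢
  have h1 : (QuotientAddGroup.mk (n • t) : ℝ ⧸ k1D k) = 0 := h0
  rw [QuotientAddGroup.eq_zero_iff] at h1 ⊢
  obtain ⟨c, hc, hct⟩ := h1
  obtain ⟨d, hd⟩ := IsAlgClosed.exists_pow_nat_eq c (Nat.pos_of_ne_zero hn)
  have hd0 : d ≠ 0 := by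
    rintro rfl
    rw [zero_pow hn] at hd
    exact hc hd.symm
  refine ⟨d, hd0, ?_⟩
  rw [← hd, norm_pow, Real.log_pow, nsmul_eq_mul] at hct
  exact mul_left_cancel₀ (Nat.cast_ne_zero.2 hn) hct

omit [NormedAlgebra k L] [IsUltrametricDist k] [IsAlgClosed k] in
private theorem k1_prod {r : ℕ} {e : Fin r → L} (he : ∀ i, e i ≠ 0) (z : Fin r → ℤ) :
    (QuotientAddGroup.mk (Real.log ‖∏ i, e i ^ z i‖) : ℝ ⧸ k1D k) =
      ∑ i, z i • (QuotientAddGroup.mk (Real.log ‖e i‖) : ℝ ⧸ k1D k) := by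
  have h1 : Real.log ‖∏ i, e i ^ z i‖ = ∑ i, z i • Real.log ‖e i‖ := by
    rw [norm_prod, Real.log_prod]
    · refine Finset.sum_congr rfl fun i _ => ?_
      rw [norm_zpow, Real.log_zpow, zsmul_eq_mul]
    · intro i _
      exact norm_ne_zero_iff.2 (zpow_ne_zero _ (he i))
  rw [h1]
  have h2 : ∀ x : ℝ, (QuotientAddGroup.mk x : ℝ ⧸ k1D k) = QuotientAddGroup.mk' (k1D k) x :=
    fun _ => rfl
  simp only [h2, map_sum, map_zsmul]

omit [IsUltrametricDist k] [IsAlgClosed k] in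
/-- an orthogonality criterion -/
private theorem k1_orth {M : IntermediateField k L} {l : ℕ} {g : Fin l → L} (hg0 : ∀ i, g i ≠ 0)
    (hg : ∀ i j, i ≠ j → ∀ a ∈ M, a ≠ 0 → ‖g i‖ ≠ ‖a‖ * ‖g j‖) : Orth M (nabs L) g := by
  classical
  refine ⟨hg0, fun a ha i => ?_⟩
  rw [k1_nabs, k1_nabs]
  obtain ⟨i₀, -, hmax⟩ := Finset.exists_max_image Finset.univ (fun j => ‖a j * g j‖) ⟨i, Finset.mem_univ i⟩
  refine (hmax i (Finset.mem_univ i)).trans ?_
  rcases eq_or_ne (a i₀ * g i₀) 0 with h0 | h0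
  · rw [h0, norm_zero]
    exact norm_nonneg _
  have hlt : ∀ j ∈ Finset.univ.erase i₀, ‖a j * g j‖ < ‖a i₀ * g i₀‖ := by
    intro j hj
    have hji : j ≠ i₀ := (Finset.mem_erase.1 hj).1
    refine lt_of_le_of_ne (hmax j (Finset.mem_univ j)) fun heq => ?_
    have ha0 : a i₀ ≠ 0 := left_ne_zero_of_mul h0
    have hgi : ‖a i₀‖ ≠ 0 := norm_ne_zero_iff.2 ha0
    have haj : a j ≠ 0 := by
      rintro h1
      rw [h1, zero_mul, norm_zero] at heq
      exact h0 (norm_eq_zero.1 heq.symm)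
    refine hg i₀ j hji.symm (a j / a i₀) (M.div_mem (ha _) (ha _)) (div_ne_zero haj ha0) ?_
    rw [norm_mul, norm_mul] at heq
    rw [norm_div, div_mul_eq_mul_div, eq_div_iff hgi, heq, mul_comm]
  have hsum : ∑ j, a j * g j = a i₀ * g i₀ + ∑ j ∈ Finset.univ.erase i₀, a j * g j :=
    (Finset.add_sum_erase _ _ (Finset.mem_univ i₀)).symm
  have hrest : ‖∑ j ∈ Finset.univ.erase i₀, a j * g j‖ < ‖a i₀ * g i₀‖ := by
    rcases (Finset.univ.erase i₀).eq_empty_or_nonempty with h1 | h1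
    · rw [h1, Finset.sum_empty, norm_zero]
      exact norm_pos_iff.2 h0
    · have : Nonempty (Fin l) := ⟨i₀⟩
      obtain ⟨j, hj, hj2⟩ := IsUltrametricDist.exists_norm_finsetSum_le (Finset.univ.erase i₀)
        (fun j => a j * g j)
      exact hj2.trans_lt (hlt j (hj h1))
  rw [hsum, IsUltrametricDist.norm_add_eq_max_of_norm_ne_norm hrest.ne', max_eq_left hrest.le]

/-- K1.  Proof.  Let `Γ = {log ‖q‖ : q ∈ R, w q = ‖q‖, q ≠ 0}`, an additive subgroup of `ℝ` (`RWd.inv`),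
`D = {log ‖c‖ : c ∈ k, c ≠ 0} ≤ Γ`, `Γ₀ = {log ‖a‖ : a ∈ M, a ≠ 0} = D + ∑ ℤ log ‖e₀ i‖`
(`EU.exists_frac`), `D ≤ Γ₀ ≤ Γ`. The index of `Γ₀` in `Γ` is at most `N` (`RWd.bdd`): elements
`g 1, …, g l` whose norms are in different cosets of `Γ₀` form an `M`-orthogonal family (the nonzero terms
`a i g i` have pairwise different norms). `G = Γ / D` is torsion free (`k` has roots:
`‖q‖ ^ n = ‖c‖`, `c = c₁ ^ n`, `‖q‖ = ‖c₁‖`) and finitely generated (by the `e₀ i` and coset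
representatives), hence a free `ℤ`-module of finite rank; `Γ₀ / D` is free of rank `r` with basis the
classes of the `e₀ i` (`ind`), and of finite index, so the rank of `G` is `r`. Let `e i ∈ R` represent a
basis of `G`. -/
theorem exists_vb {e₀ : Fin r → L} {u₀ : Fin m → L} (h₀ : EU k e₀ u₀) {R : Subring L}
    {w : AbsoluteValue L ℝ} (hR : RWd (keu k e₀ u₀) R w) :
    ∃ e : Fin r → L, VB k R w e := by
  classical
  have := k1_tf (k := k)
  set G : Submodule ℤ (ℝ ⧸ k1D k) := AddSubgroup.toIntSubmodule (k1G k R w hR.inv) with hG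
  have memG : ∀ t, t ∈ G ↔ ∃ q : L, q ≠ 0 ∧ q ∈ R ∧ w q = ‖q‖ ∧
      t = QuotientAddGroup.mk (Real.log ‖q‖) := fun t => Iff.rfl
  have he₀M : ∀ i, e₀ i ∈ keu k e₀ u₀ := fun i =>
    IntermediateField.subset_adjoin _ _ (Or.inl ⟨i, rfl⟩)
  -- the classes of the `e₀ i`
  let v : Fin r → G := fun i => ⟨QuotientAddGroup.mk (Real.log ‖e₀ i‖), (memG _).2
    ⟨e₀ i, h₀.ne i, hR.M_le _ (he₀M i), hR.eq_M (he₀M i), rfl⟩⟩
  have hvsum : ∀ z : Fin r → ℤ, ((∑ i, z i • v i : G) : ℝ ⧸ k1D k) =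
      QuotientAddGroup.mk (Real.log ‖∏ i, e₀ i ^ z i‖) := by
    intro z
    rw [k1_prod h₀.ne z]
    simp [v]
  have hind : ∀ {e : Fin r → L}, (∀ i, e i ≠ 0) → ∀ z : Fin r → ℤ,
      (QuotientAddGroup.mk (Real.log ‖∏ i, e i ^ z i‖) : ℝ ⧸ k1D k) = 0 →
      ∃ c : k, ‖c‖ = ‖∏ i, e i ^ z i‖ := by
    intro e he z hz
    rw [QuotientAddGroup.eq_zero_iff] at hz
    obtain ⟨c, hc, hcl⟩ := hz
    refine ⟨c, ?_⟩
    have h1 : 0 < ‖∏ i, e i ^ z i‖ :=
      norm_pos_iff.2 (Finset.prod_ne_zero_iff.2 fun i _ => zpow_ne_zero _ (he i))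
    exact Real.log_injOn_pos (Set.mem_Ioi.2 (norm_pos_iff.2 hc)) (Set.mem_Ioi.2 h1) hcl.symm
  have hlin : LinearIndependent ℤ v := by
    rw [Fintype.linearIndependent_iff]
    intro z hz
    have h1 := hvsum z
    rw [hz] at h1
    obtain ⟨c, hc⟩ := hind h₀.ne z h1.symm
    intro i
    rw [h₀.ind z c hc]
    rfl
  -- finite index
  set S : Submodule ℤ G := Submodule.span ℤ (Set.range v) with hS
  obtain ⟨N, hN⟩ := hR.bdd
  have hfinq : Finite (G ⧸ S) := by
    by_contra hinf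
    rw [not_finite_iff_infinite] at hinf
    obtain ⟨f, hf⟩ : ∃ f : Fin (N + 1) → G ⧸ S, Function.Injective f :=
      ⟨fun i => Infinite.natEmbedding _ (i : ℕ), fun i j hij =>
        Fin.ext ((Infinite.natEmbedding (G ⧸ S)).injective hij)⟩
    choose t ht using fun i => Submodule.Quotient.mk_surjective S (f i)
    choose q hq0 hqR hqw hqt using fun i => (memG (t i : ℝ ⧸ k1D k)).1 (t i).2
    have horth : Orth (keu k e₀ u₀) (nabs L) q := by
      refine k1_orth hq0 fun i j hij a ha ha0 heq => ?_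
      obtain ⟨z, c, hc, a', ha', b', hb', hna, hnb, hab⟩ := h₀.exists_frac ha ha0
      have hna2 : ‖a‖ = ‖c‖ * ‖∏ i, e₀ i ^ z i‖ := by
        rw [hab, norm_mul, norm_div, hna, hnb, div_one, mul_one, mon, norm_mul, norm_algebraMap']
      apply hij
      apply hf
      rw [← ht i, ← ht j, Submodule.Quotient.eq]
      have h1 : t i - t j = ∑ i, z i • v i := by
        apply Subtype.ext
        rw [hvsum z]
        have h2 : ((t i - t j : G) : ℝ ⧸ k1D k) = (t i : ℝ ⧸ k1D k) - (t j : ℝ ⧸ k1D k) := rfl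
        rw [h2, hqt i, hqt j, heq, hna2]
        have hp : ‖∏ i, e₀ i ^ z i‖ ≠ 0 :=
          norm_ne_zero_iff.2 (Finset.prod_ne_zero_iff.2 fun i _ => zpow_ne_zero _ (h₀.ne i))
        rw [Real.log_mul (mul_ne_zero (norm_ne_zero_iff.2 hc) hp) (norm_ne_zero_iff.2 (hq0 j)),
          Real.log_mul (norm_ne_zero_iff.2 hc) hp]
        have h3 : (QuotientAddGroup.mk (Real.log ‖c‖) : ℝ ⧸ k1D k) = 0 :=
          (QuotientAddGroup.eq_zero_iff _).2 ⟨c, hc, rfl⟩
        rw [QuotientAddGroup.mk_add, QuotientAddGroup.mk_add, h3, zero_add, add_sub_cancel_right]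
      rw [h1]
      exact Submodule.sum_mem _ fun i _ =>
        Submodule.smul_mem _ _ (Submodule.subset_span ⟨i, rfl⟩)
    have := hN (N + 1) q (fun i => ⟨hqR i, hqw i⟩) horth
    omega
  have : Module.Finite ℤ S := Module.Finite.span_of_finite ℤ (Set.finite_range v)
  have : Module.Finite ℤ (G ⧸ S) := Module.Finite.of_finite
  have : Module.Finite ℤ G := Module.Finite.of_submodule_quotient S
  have : Module.Free ℤ G := Module.free_of_finite_type_torsion_free'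
  have hrank : Module.finrank ℤ G = r := by
    have h1 := (Submodule.finiteQuotient_iff S).1 hfinq
    rw [← h1, hS, finrank_span_eq_card hlin, Fintype.card_fin]
  let b : Module.Basis (Fin r) ℤ G := (Module.finBasisOfFinrankEq ℤ G hrank)
  choose e he0 heR hew het using fun i => (memG (b i : ℝ ⧸ k1D k)).1 (b i).2
  have hbsum : ∀ z : Fin r → ℤ, ((∑ i, z i • b i : G) : ℝ ⧸ k1D k) =
      QuotientAddGroup.mk (Real.log ‖∏ i, e i ^ z i‖) := by
    intro z
    rw [k1_prod he0 z]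
    simp [het]
  refine ⟨e, heR, hew, he0, fun z c hc => ?_, fun q hq hqw hq0 => ?_⟩
  · have hp : ‖∏ i, e i ^ z i‖ ≠ 0 :=
      norm_ne_zero_iff.2 (Finset.prod_ne_zero_iff.2 fun i _ => zpow_ne_zero _ (he0 i))
    have hc0 : c ≠ 0 := by
      rintro rfl
      rw [norm_zero] at hc
      exact hp hc.symm
    have h1 : (∑ i, z i • b i : G) = 0 := by
      apply Subtype.ext
      rw [hbsum z, ← hc]
      exact (QuotientAddGroup.eq_zero_iff _).2 ⟨c, hc0, rfl⟩
    have h2 := Fintype.linearIndependent_iff.1 b.linearIndependent z h1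
    exact funext h2
  · have h1 : (⟨QuotientAddGroup.mk (Real.log ‖q‖), (memG _).2 ⟨q, hq0, hq, hqw, rfl⟩⟩ : G) =
        ∑ i, b.repr ⟨QuotientAddGroup.mk (Real.log ‖q‖), (memG _).2 ⟨q, hq0, hq, hqw, rfl⟩⟩ i •
          b i := (b.sum_repr _).symm
    set z : Fin r → ℤ := fun i =>
      b.repr ⟨QuotientAddGroup.mk (Real.log ‖q‖), (memG _).2 ⟨q, hq0, hq, hqw, rfl⟩⟩ i with hz
    have h2 := congrArg (Subtype.val) h1
    have h3 : (QuotientAddGroup.mk (Real.log ‖q‖) : ℝ ⧸ k1D k) =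
        QuotientAddGroup.mk (Real.log ‖∏ i, e i ^ z i‖) := by
      rw [← hbsum z]
      exact h2
    have h4 : Real.log ‖q‖ - Real.log ‖∏ i, e i ^ z i‖ ∈ k1D k := by
      rw [← QuotientAddGroup.eq_zero_iff, QuotientAddGroup.mk_sub, h3, sub_self]
    obtain ⟨c, hc, hcl⟩ := h4
    refine ⟨z, c, hc, ?_⟩
    have hp : ‖∏ i, e i ^ z i‖ ≠ 0 :=
      norm_ne_zero_iff.2 (Finset.prod_ne_zero_iff.2 fun i _ => zpow_ne_zero _ (he0 i))
    rw [mon, norm_mul, norm_algebraMap']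
    have h5 : Real.log ‖q‖ = Real.log (‖c‖ * ‖∏ i, e i ^ z i‖) := by
      rw [Real.log_mul (norm_ne_zero_iff.2 hc) hp, ← hcl]
      ring
    have hc' : 0 < ‖c‖ := norm_pos_iff.2 hc
    have hp' : 0 < ‖∏ i, e i ^ z i‖ := lt_of_le_of_ne (norm_nonneg _) hp.symm
    exact Real.log_injOn_pos (Set.mem_Ioi.2 (norm_pos_iff.2 hq0)) (Set.mem_Ioi.2 (mul_pos hc' hp'))
      h5

end

end DA
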