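import Pool.Agent.Lib.DA.K2

/-!
# Module K3: preliminary core data
-/

namespace DA

open Polynomial MP1a953e IsLocalRing

section res
variable {k L : Type*} [NontriviallyNormedField k] [IsUltrametricDist k] [NormedField L]
  [IsUltrametricDist L] [NormedAlgebra k L]

private theorem k3_coe {m : ℕ} (u : Fin m → O L) (P : MvPolynomial (Fin m) (O k)) :
    ((MvPolynomial.aeval u P : O L) : L) =
      MvPolynomial.aeval (fun i => (u i : L)) (P.map (O k).subtype) := by
  rw [MvPolynomial.aeval_def, MvPolynomial.aeval_def, MvPolynomial.eval₂_map]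
  have h := MvPolynomial.eval₂_comp_left (O L).subtype (algebraMap (O k) (O L)) u P
  exact h

private theorem k3_res {m : ℕ} (u : Fin m → O L) (P : MvPolynomial (Fin m) (O k)) :
    residue (O L) (MvPolynomial.aeval u P) =
      MvPolynomial.aeval (fun i => residue (O L) (u i)) (P.map (residue (O k))) := by
  rw [MvPolynomial.aeval_def, MvPolynomial.aeval_def, MvPolynomial.eval₂_map]
  have h := MvPolynomial.eval₂_comp_left (residue (O L)) (algebraMap (O k) (O L)) u P
  exact h

/-- value of an integral polynomial at `(u, α)` -/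
private noncomputable def k3ev {m : ℕ} (u : Fin m → O L) (α : O L)
    (H : Polynomial (MvPolynomial (Fin m) (O k))) : O L :=
  (H.map (MvPolynomial.aeval u : MvPolynomial (Fin m) (O k) →ₐ[O k] O L).toRingHom).eval α

private theorem k3ev_coe {m : ℕ} (u : Fin m → O L) (α : O L)
    (H : Polynomial (MvPolynomial (Fin m) (O k))) :
    ((k3ev u α H : O L) : L) = evH (fun i => (u i : L)) (α : L)
      (H.map (MvPolynomial.map (O k).subtype)) := by
  unfold k3ev evH
  rw [Polynomial.map_map]
  have h1 : (O L).subtype ((H.map (MvPolynomial.aeval u :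
      MvPolynomial (Fin m) (O k) →ₐ[O k] O L).toRingHom).eval α) =
      ((H.map (MvPolynomial.aeval u :
        MvPolynomial (Fin m) (O k) →ₐ[O k] O L).toRingHom).map (O L).subtype).eval
        ((O L).subtype α) := by
    exact (Polynomial.eval₂_at_apply _ _).symm.trans (Polynomial.eval_map _ _).symm
  refine h1.trans ?_
  rw [Polynomial.map_map]
  congr 2
  refine RingHom.ext fun P => ?_
  exact k3_coe u P

private theorem k3ev_res {m : ℕ} (u : Fin m → O L) (α : O L)
    (H : Polynomial (MvPolynomial (Fin m) (O k))) :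
    residue (O L) (k3ev u α H) = ((H.map (MvPolynomial.map (residue (O k)))).map
      (MvPolynomial.aeval (fun i => residue (O L) (u i)) :
        MvPolynomial (Fin m) (ResidueField (O k)) →ₐ[ResidueField (O k)]
          ResidueField (O L)).toRingHom).eval (residue (O L) α) := by
  unfold k3ev
  rw [Polynomial.map_map]
  have h1 : residue (O L) ((H.map (MvPolynomial.aeval u :
      MvPolynomial (Fin m) (O k) →ₐ[O k] O L).toRingHom).eval α) =
      ((H.map (MvPolynomial.aeval u :
        MvPolynomial (Fin m) (O k) →ₐ[O k] O L).toRingHom).map (residue (O L))).eval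
        (residue (O L) α) := by
    exact (Polynomial.eval₂_at_apply _ _).symm.trans (Polynomial.eval_map _ _).symm
  refine h1.trans ?_
  rw [Polynomial.map_map]
  congr 2
  refine RingHom.ext fun P => ?_
  exact k3_res u P

omit [IsUltrametricDist k] [NormedAlgebra k L] [NontriviallyNormedField k] in
private theorem k3_lt {x : O L} (h : residue (O L) x = 0) : ‖(x : L)‖ < 1 := by
  have h1 : ¬ IsUnit x := (mem_maximalIdeal x).1 ((residue_eq_zero_iff x).1 h)
  rw [isUnit_O_iff] at h1
  exact lt_of_le_of_ne (mem_O.1 x.2) h1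

omit [IsUltrametricDist k] [NormedAlgebra k L] [NontriviallyNormedField k] in
private theorem k3_one {x : O L} (h : residue (O L) x ≠ 0) : ‖(x : L)‖ = 1 := by
  rw [← isUnit_O_iff]
  by_contra h1
  exact h ((residue_eq_zero_iff x).2 ((mem_maximalIdeal x).2 h1))

end res

/-- common denominators -/
private theorem k3_den {κ K : Type*} [Field κ] [Field K] [Algebra κ K] {m : ℕ} (v : Fin m → K)
    (f : Polynomial K)
    (hf : ∀ i, f.coeff i ∈ IntermediateField.adjoin κ (Set.range v)) :
    ∃ (G : MvPolynomial (Fin m) κ) (f₁ : Polynomial (MvPolynomial (Fin m) κ)),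
      (MvPolynomial.aeval v G : K) ≠ 0 ∧
      f₁.map (MvPolynomial.aeval v : MvPolynomial (Fin m) κ →ₐ[κ] K).toRingHom =
        C (MvPolynomial.aeval v G : K) * f := by
  classical
  have h1 : ∀ i, ∃ P Q : MvPolynomial (Fin m) κ, (MvPolynomial.aeval v Q : K) ≠ 0 ∧
      f.coeff i * MvPolynomial.aeval v Q = MvPolynomial.aeval v P := by
    intro i
    obtain ⟨P, Q, h⟩ := (IntermediateField.mem_adjoin_range_iff κ v _).1 (hf i)
    by_cases h0 : (MvPolynomial.aeval v Q : K) = 0
    · refine ⟨0, 1, by simp, ?_⟩
      rw [h, h0]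
      simp
    · refine ⟨P, Q, h0, ?_⟩
      rw [h, div_mul_cancel₀ _ h0]
  choose P Q hQ hPQ using h1
  set s := Finset.range (f.natDegree + 1) with hs
  refine ⟨∏ i ∈ s, Q i, ∑ i ∈ s, monomial i (P i * ∏ j ∈ s.erase i, Q j), ?_, ?_⟩
  · rw [map_prod]
    exact Finset.prod_ne_zero_iff.2 fun i _ => hQ i
  · rw [Polynomial.map_sum]
    conv_rhs => rw [f.as_sum_range]
    rw [Finset.mul_sum]
    refine Finset.sum_congr rfl fun i hi => ?_
    rw [Polynomial.map_monomial, Polynomial.C_mul_monomial]
    congr 1
    show (MvPolynomial.aeval v (P i * ∏ j ∈ s.erase i, Q j) : K) = _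
    rw [map_mul, ← hPQ i, ← Finset.mul_prod_erase s Q hi, map_mul]
    ring

/-- K3.  Proof.  Let `u, α` be as in K2. `EU k e u`: `ne`, `ind` from `VB`; `gauss_of_residues` (module Tr2) for
`gauss`. Let `f̃` be the minimal polynomial of `α̃` over `κ_k(ũ)`, separable; multiply it by a nonzero element
`g̃ ∈ κ_k[ũ]` such that the coefficients are in `κ_k[ũ]`, and lift them to polynomials in `u` over `O k`:
`H`, `IntH H`; the residue of `evH u α H` is `g̃ f̃(α̃) = 0`, that of the derivative is `g̃ f̃'(α̃) ≠ 0`.
`res`: the residue of `q` is in `κ_k(ũ, α̃)`, so it is `Ã / B̃` with polynomials in `ũ, α̃` over `κ_k`; lift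
the coefficients. `val`: `VB.val`. -/
theorem exists_precor {k L : Type*} [NontriviallyNormedField k] [IsUltrametricDist k]
    [IsAlgClosed k] [NormedField L] [IsUltrametricDist L] [NormedAlgebra k L] {r m : ℕ}
    {e₀ : Fin r → L} {u₀ : Fin m → L} (h₀ : EU k e₀ u₀) {R : Subring L}
    {w : AbsoluteValue L ℝ} (hR : RWd (keu k e₀ u₀) R w) {e : Fin r → L} (he : VB k R w e) :
    ∃ (u : Fin m → L) (α : L) (H : Polynomial (MvPolynomial (Fin m) k)),
      PreCor k R w e u α H := by
  obtain ⟨u, α, hu, hαR, hαw, hai, hsep, hgen⟩ := exists_res_gens h₀ hR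
  set κ := ResidueField (O k) with hκ
  set v : Fin m → ResidueField (O L) := fun i => residue (O L) (u i) with hv
  set F := IntermediateField.adjoin κ (Set.range v) with hF
  set a₀ : ResidueField (O L) := residue (O L) α with ha₀
  -- the minimal polynomial
  set f : Polynomial (ResidueField (O L)) := (minpoly F a₀).map (algebraMap F _) with hf
  have hf0 : f.eval a₀ = 0 := by
    rw [hf, Polynomial.eval_map_algebraMap]
    exact minpoly.aeval F a₀
  have hf1 : (derivative f).eval a₀ ≠ 0 := by
    rw [hf, Polynomial.derivative_map, Polynomial.eval_map_algebraMap]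
    exact hsep.aeval_derivative_ne_zero (minpoly.aeval F a₀)
  obtain ⟨G, f₁, hG, hf₁⟩ := k3_den v f fun i => by
    rw [hf, Polynomial.coeff_map]
    exact ((minpoly F a₀).coeff i).2
  obtain ⟨H₀, hH₀⟩ := Polynomial.map_surjective (MvPolynomial.map (residue (O k)))
    (MvPolynomial.map_surjective _ (residue_surjective (R := O k))) f₁
  have hev0 : residue (O L) (k3ev u α H₀) = 0 := by
    rw [k3ev_res, hH₀, hf₁, Polynomial.eval_mul, hf0, mul_zero]
  have hev1 : residue (O L) (k3ev u α (derivative H₀)) ≠ 0 := by
    rw [k3ev_res, ← Polynomial.derivative_map, ← Polynomial.derivative_map, hH₀, hf₁,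
      Polynomial.derivative_C_mul, Polynomial.eval_mul, Polynomial.eval_C]
    exact mul_ne_zero hG hf1
  -- lifting of elements of the residue field
  have hlift : ∀ x ∈ Algebra.adjoin κ (Set.range v ∪ {a₀}), ∃ y : O L,
      (y : L) ∈ A1 k (fun i => (u i : L)) (α : L) ∧ residue (O L) y = x := by
    intro x hx
    induction hx using Algebra.adjoin_induction with
    | mem x hx =>
      rcases hx with ⟨i, rfl⟩ | hx
      · exact ⟨u i, Algebra.subset_adjoin (Or.inl ⟨i, rfl⟩), rfl⟩
      · rw [Set.mem_singleton_iff] at hx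
        exact ⟨α, Algebra.subset_adjoin (Or.inr rfl), by rw [hx]⟩
    | algebraMap c =>
      obtain ⟨c', rfl⟩ := residue_surjective (R := O k) c
      refine ⟨algebraMap (O k) (O L) c', ?_, ?_⟩
      · exact (A1 k (fun i => (u i : L)) (α : L)).algebraMap_mem c'
      · rfl
    | add x y _ _ hx hy =>
      obtain ⟨a, ha, rfl⟩ := hx
      obtain ⟨b, hb, rfl⟩ := hy
      exact ⟨a + b, add_mem ha hb, map_add _ _ _⟩
    | mul x y _ _ hx hy =>
      obtain ⟨a, ha, rfl⟩ := hx
      obtain ⟨b, hb, rfl⟩ := hy
      exact ⟨a * b, mul_mem ha hb, map_mul _ _ _⟩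
  refine ⟨fun i => (u i : L), (α : L), H₀.map (MvPolynomial.map (O k).subtype), ?_⟩
  exact
    { e_mem := he.mem
      e_w := he.w_eq
      eu :=
        { ne := he.ne
          ind := he.ind
          norm_u := fun i => mem_O.1 (u i).2
          gauss := fun P s => gauss_of_residues u hai P s }
      u_mem := fun i => (hu i).1
      u_w := fun i => (hu i).2
      α_mem := hαR
      α_w := hαw
      int := by
        intro i s
        rw [Polynomial.coeff_map, MvPolynomial.coeff_map]
        exact mem_O.1 ((H₀.coeff i).coeff s).2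
      h_lt := by
        rw [← k3ev_coe]
        exact k3_lt hev0
      h_der := by
        rw [Polynomial.derivative_map, ← k3ev_coe]
        exact k3_one hev1
      val := he.val
      res := by
        intro q hq hqw
        have hqO : ‖q‖ ≤ 1 := (hR.le q hq).trans hqw
        have h1 := hgen ⟨q, mem_O.2 hqO⟩ hq hqw
        obtain ⟨x, hx, y, hy, hxy⟩ := IntermediateField.mem_adjoin_iff_div.1 h1
        obtain ⟨a, ha, hax⟩ := hlift x hx
        obtain ⟨b, hb, hby⟩ := hlift y hy
        by_cases hy0 : y = 0
        · refine ⟨0, zero_mem _, 1, one_mem _, norm_one, ?_⟩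
          rw [hy0, div_zero] at hxy
          rw [zero_div, sub_zero]
          exact k3_lt hxy
        · have hb1 : ‖(b : L)‖ = 1 := k3_one (by rw [hby]; exact hy0)
          have hb0 : (b : L) ≠ 0 := fun e0 => by
            rw [e0, norm_zero] at hb1; exact zero_ne_one hb1
          refine ⟨a, ha, b, hb, hb1, ?_⟩
          have h2 : residue (O L) ((⟨q, mem_O.2 hqO⟩ : O L) * b - a) = 0 := by
            rw [map_sub, map_mul, hxy, hax, hby, div_mul_cancel₀ _ hy0, sub_self]
          have h3 := k3_lt h2
          have h4 : q - (a : L) / b = (q * b - a) / b := by field_simp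
          rw [h4, norm_div, hb1, div_one]
          exact h3 }

end DA
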