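import Pool.Agent.Lib.DA.Za
import Pool.Agent.Lib.MP_1a953e_ag.Kr2

/-!
# Module La: if the absolute value agrees with the norm on all `t - β`, then `E` is immediate for it
-/

namespace DA

open Polynomial MP1a953e

private theorem la_sum_lt {E ι : Type*} [Field E] {w : AbsoluteValue E ℝ}
    (hw : IsNonarchimedean w) (s : Finset ι) (f : ι → E) {r : ℝ} (hr : 0 < r)
    (hf : ∀ i ∈ s, w (f i) < r) : w (∑ i ∈ s, f i) < r := by
  refine Finset.sum_induction _ (fun y => w y < r) ?_ ?_ hf
  · intro a c ha hc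
    exact lt_of_le_of_lt (hw a c) (max_lt ha hc)
  · rw [map_zero]
    exact hr

private theorem la_norm_eq {E : Type*} [NormedField E] [IsUltrametricDist E] {x c : E}
    (h : ‖x - c‖ < ‖x‖) : ‖c‖ = ‖x‖ := by
  have h1 : c = x + -(x - c) := by ring
  have h2 : ‖x + -(x - c)‖ = max ‖x‖ ‖-(x - c)‖ :=
    IsUltrametricDist.norm_add_eq_max_of_norm_ne_norm (by rw [norm_neg]; exact (ne_of_lt h).symm)
  rw [norm_neg, max_eq_left h.le, ← h1] at h2
  exact h2

/-- `w` is the norm on `C(t)` -/
private theorem la_poly {E : Type*} [NormedField E] {C : Subfield E}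
    (hC : IsAlgClosed C) {w : AbsoluteValue E ℝ} (hwC : ∀ c ∈ C, w c = ‖c‖) {t : E}
    (ht : ∀ b ∈ C, w (t - b) = ‖t - b‖) (q : Polynomial C) :
    w (aeval t q) = ‖aeval t q‖ := by
  have hsp := (IsAlgClosed.splits q).eq_prod_roots
  have hev : aeval t q = (q.leadingCoeff : E) *
      (q.roots.map fun a : C => t - (a : E)).prod := by
    rw [aeval_def, ← eval_map]
    conv_lhs => rw [hsp]
    rw [Polynomial.map_mul, Polynomial.map_C, Polynomial.map_multiset_prod, Multiset.map_map,
      Polynomial.eval_mul, Polynomial.eval_C, Polynomial.eval_multiset_prod, Multiset.map_map]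
    have hfun : (Polynomial.eval t ∘ Polynomial.map (algebraMap C E) ∘
        fun a => X - Polynomial.C a) = fun a : C => (t - (a : E)) := by
      funext a
      simp only [Function.comp_apply, Polynomial.map_sub, Polynomial.map_X, Polynomial.map_C,
        Polynomial.eval_sub, Polynomial.eval_X, Polynomial.eval_C]
      rfl
    rw [hfun]
    rfl
  rw [hev, map_mul, norm_mul, hwC _ q.leadingCoeff.2]
  congr 1
  generalize q.roots = m
  induction m using Multiset.induction_on with
  | empty => simp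
  | cons b m ih =>
    rw [Multiset.map_cons, Multiset.prod_cons, norm_mul, map_mul, ih, ht _ b.2]

private theorem la_adj {E : Type*} [NormedField E] {C : Subfield E}
    (hC : IsAlgClosed C) {w : AbsoluteValue E ℝ} (hwC : ∀ c ∈ C, w c = ‖c‖) {t : E}
    (ht : ∀ b ∈ C, w (t - b) = ‖t - b‖) {g : E} (hg : g ∈ adj C t) : w g = ‖g‖ := by
  rw [mem_adj_iff, IntermediateField.mem_adjoin_simple_iff] at hg
  obtain ⟨r, s, hrs⟩ := hg
  rw [hrs, map_div₀, norm_div, la_poly hC hwC ht, la_poly hC hwC ht]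

/-- La.  `w` is the norm on `C` and on all `t - β`, `β ∈ C`, and `E` is algebraic over `C(t)`. Then `E` is
immediate over `C` for `w`.  Proof.  `w (P t) = ‖P t‖` for polynomials `P` over `C` (they split over `C`), so
`w = ‖·‖` on `adj C t`. Let `x ≠ 0`, `∑ a i * x ^ i = 0` with `a i ∈ adj C t`, not all zero. (1) Two different
indices `i ≠ j` have `w (a i * x ^ i) = w (a j * x ^ j)` maximal (`≠ 0`); by `him`
`w (a i) = ‖a i‖ = ‖c‖` for some `c ∈ C`, so a power `w x ^ n`, `n ≥ 1`, is the norm of an element of `C`, and as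
`C` has `n`-th roots, `w x = ‖c‖` for some `c ∈ C`; divide `x` by `c`: we may assume `w x = 1`. (2) Divide the
`a i` by an element of `C` of norm `max ‖a i‖`: `max ‖a i‖ = 1`. Choose `c i ∈ C` with `‖a i - c i‖ < 1`
(`him` if `‖a i‖ = 1`, and `0` otherwise). `Q = ∑ c i X ^ i` has `w (Q x) = w (Q x - ∑ a i x ^ i) < 1` and a
coefficient of norm `1`. `exists_close_root` gives `b ∈ C` with `w (x - b) < w x`. -/
theorem imm_w {E : Type*} [NormedField E] [IsUltrametricDist E] {C : Subfield E}
    (hC : IsAlgClosed C) (him : ∀ x : E, x ≠ 0 → ∃ c ∈ C, ‖x - c‖ < ‖x‖)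
    {w : AbsoluteValue E ℝ} (hw : IsNonarchimedean w) (hwC : ∀ c ∈ C, w c = ‖c‖) {t : E}
    (halg : ∀ x : E, IsAlgebraic (adj C t) x) (ht : ∀ b ∈ C, w (t - b) = ‖t - b‖) {x : E}
    (hx : x ≠ 0) : ∃ c ∈ C, w (x - c) < w x := by
  classical
  have hadj : ∀ g ∈ adj C t, w g = ‖g‖ := fun g hg => la_adj hC hwC ht hg
  -- values of elements of `adj C t`
  have hval : ∀ g ∈ adj C t, g ≠ 0 → ∃ c ∈ C, c ≠ 0 ∧ w g = w c := by
    intro g hg hg0
    obtain ⟨c, hc, hlt⟩ := him g hg0
    have h1 := la_norm_eq hlt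
    refine ⟨c, hc, ?_, ?_⟩
    · rintro rfl
      rw [norm_zero] at h1
      exact hg0 (norm_eq_zero.1 h1.symm)
    · rw [hadj g hg, hwC c hc, h1]
  have hwx : 0 < w x := w.pos hx
  -- step 1
  obtain ⟨c₀, hc₀, hc₀0, hwc₀⟩ : ∃ c ∈ C, c ≠ 0 ∧ w x = w c := by
    obtain ⟨p, hp0, hp⟩ := halg x
    set f : ℕ → E := fun i => (p.coeff i : E) * x ^ i with hf
    have hsum : ∑ i ∈ p.support, f i = 0 := by
      rw [← hp, aeval_def, eval₂_eq_sum, Polynomial.sum]
      rfl
    have hne : p.support.Nonempty := Polynomial.support_nonempty.2 hp0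
    obtain ⟨i, hi, hmax⟩ := Finset.exists_max_image p.support (fun i => w (f i)) hne
    have hcoef : ∀ n ∈ p.support, (p.coeff n : E) ≠ 0 := by
      intro n hn h0
      exact (Polynomial.mem_support_iff.1 hn) (Subtype.ext h0)
    have hfi : 0 < w (f i) := by
      refine w.pos ?_
      rw [hf]
      exact mul_ne_zero (hcoef i hi) (pow_ne_zero _ hx)
    obtain ⟨l, hl, hli, hle⟩ : ∃ l ∈ p.support, l ≠ i ∧ w (f i) ≤ w (f l) := by
      by_contra hcon
      push Not at hcon
      have h1 : w (∑ l ∈ p.support.erase i, f l) < w (f i) := by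
        refine la_sum_lt hw _ _ hfi ?_
        intro l hl
        rw [Finset.mem_erase] at hl
        exact hcon l hl.2 hl.1
      have h2 : f i = -∑ l ∈ p.support.erase i, f l := by
        rw [← Finset.add_sum_erase _ _ hi] at hsum
        exact eq_neg_of_add_eq_zero_left hsum
      have h3 : w (f i) = w (∑ l ∈ p.support.erase i, f l) := by
        conv_lhs => rw [h2]
        rw [w.map_neg]
      exact absurd h3 (ne_of_gt h1)
    have heq : w (f i) = w (f l) := le_antisymm hle (hmax l hl)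
    obtain ⟨ci, hci, hci0, hwi⟩ := hval _ (p.coeff i).2 (hcoef i hi)
    obtain ⟨cl, hcl, hcl0, hwl⟩ := hval _ (p.coeff l).2 (hcoef l hl)
    have heq2 : w ci * w x ^ i = w cl * w x ^ l := by
      rw [← hwi, ← hwl, ← map_pow, ← map_pow, ← map_mul, ← map_mul]
      exact heq
    -- a power of `w x` is a value of `C`
    obtain ⟨n, hn, d, hd, hd0, hwd⟩ : ∃ n : ℕ, 0 < n ∧ ∃ d ∈ C, d ≠ 0 ∧ w x ^ n = w d := by
      have hcip : 0 < w ci := w.pos hci0
      have hclp : 0 < w cl := w.pos hcl0
      rcases lt_or_gt_of_ne hli with h1 | h1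
      · -- `l < i`
        refine ⟨i - l, by omega, cl / ci, C.div_mem hcl hci, div_ne_zero hcl0 hci0, ?_⟩
        rw [map_div₀, eq_div_iff hcip.ne']
        have h2 : w x ^ i = w x ^ (i - l) * w x ^ l := by
          rw [← pow_add]
          congr 1
          omega
        rw [h2] at heq2
        have h3 : w x ^ l ≠ 0 := (pow_pos hwx l).ne'
        have h4 : (w x ^ (i - l) * w ci) * w x ^ l = w cl * w x ^ l := by
          rw [← heq2]; ring
        exact mul_right_cancel₀ h3 h4
      · refine ⟨l - i, by omega, ci / cl, C.div_mem hci hcl, div_ne_zero hci0 hcl0, ?_⟩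
        rw [map_div₀, eq_div_iff hclp.ne']
        have h2 : w x ^ l = w x ^ (l - i) * w x ^ i := by
          rw [← pow_add]
          congr 1
          omega
        rw [h2] at heq2
        have h3 : w x ^ i ≠ 0 := (pow_pos hwx i).ne'
        have h4 : (w x ^ (l - i) * w cl) * w x ^ i = w ci * w x ^ i := by
          rw [heq2]; ring
        exact mul_right_cancel₀ h3 h4
    obtain ⟨c, hc⟩ := IsAlgClosed.exists_pow_nat_eq (⟨d, hd⟩ : C) hn
    have hc' : (c : E) ^ n = d := by
      have := congrArg (fun y : C => (y : E)) hc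
      simpa using this
    refine ⟨c, c.2, ?_, ?_⟩
    · intro h0
      rw [h0, zero_pow hn.ne'] at hc'
      exact hd0 hc'.symm
    · have h1 : w x ^ n = w (c : E) ^ n := by
        rw [hwd, ← hc', map_pow]
      exact (pow_left_inj₀ hwx.le (w.nonneg _) hn.ne').1 h1
  -- step 2
  set x' : E := x / c₀ with hx'
  have hx'0 : x' ≠ 0 := div_ne_zero hx hc₀0
  have hwx' : w x' = 1 := by
    rw [hx', map_div₀, hwc₀, div_self (w.pos hc₀0).ne']
  obtain ⟨p, hp0, hp⟩ := halg x'
  have hsum : ∑ i ∈ Finset.range (p.natDegree + 1), (p.coeff i : E) * x' ^ i = 0 := by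
    rw [← hp, aeval_def, eval₂_eq_sum_range]
    rfl
  have hne : (Finset.range (p.natDegree + 1)).Nonempty := ⟨0, by simp⟩
  obtain ⟨i₁, hi₁, hmax⟩ := Finset.exists_max_image (Finset.range (p.natDegree + 1))
    (fun i => ‖(p.coeff i : E)‖) hne
  have hi₁0 : (p.coeff i₁ : E) ≠ 0 := by
    intro h0
    have h1 := hmax p.natDegree (by simp)
    rw [h0, norm_zero] at h1
    have h2 : ((p.coeff p.natDegree : adj C t) : E) = 0 := norm_le_zero_iff.1 h1
    exact hp0 (Polynomial.leadingCoeff_eq_zero.1 (Subtype.ext h2))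
  obtain ⟨c₁, hc₁, hc₁0, hwc₁⟩ := hval _ (p.coeff i₁).2 hi₁0
  have hc₁n : ‖c₁‖ = ‖(p.coeff i₁ : E)‖ := by
    rw [← hwC c₁ hc₁, ← hwc₁, hadj _ (p.coeff i₁).2]
  have hc₁adj : c₁ ∈ adj C t := le_adj C t hc₁
  set b : ℕ → E := fun i => (p.coeff i : E) / c₁ with hb
  have hbadj : ∀ i, b i ∈ adj C t := fun i => Subfield.div_mem _ (p.coeff i).2 hc₁adj
  have hble : ∀ i ∈ Finset.range (p.natDegree + 1), ‖b i‖ ≤ 1 := by
    intro i hi
    rw [hb]
    simp only [norm_div]
    rw [div_le_one (norm_pos_iff.2 hc₁0), hc₁n]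
    exact hmax i hi
  have hbi₁ : ‖b i₁‖ = 1 := by
    rw [hb]
    simp only [norm_div]
    rw [hc₁n, div_self (norm_ne_zero_iff.2 hi₁0)]
  have hbsum : ∑ i ∈ Finset.range (p.natDegree + 1), b i * x' ^ i = 0 := by
    have h1 : ∑ i ∈ Finset.range (p.natDegree + 1), b i * x' ^ i =
        (∑ i ∈ Finset.range (p.natDegree + 1), (p.coeff i : E) * x' ^ i) / c₁ := by
      rw [Finset.sum_div]
      refine Finset.sum_congr rfl ?_
      intro i _
      rw [hb]
      ring
    rw [h1, hsum, zero_div]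
  have hch : ∀ i, ∃ c ∈ C, ‖b i‖ ≤ 1 → ‖b i - c‖ < 1 := by
    intro i
    rcases eq_or_ne (b i) 0 with h0 | h0
    · exact ⟨0, C.zero_mem, fun _ => by rw [h0]; simp⟩
    · obtain ⟨c, hc, hlt⟩ := him (b i) h0
      exact ⟨c, hc, fun h => lt_of_lt_of_le hlt h⟩
  choose c hcC hclt using hch
  set Q : E[X] := ∑ i ∈ Finset.range (p.natDegree + 1), Polynomial.C (c i) * X ^ i with hQ
  have hQco : ∀ i, Q.coeff i = if i ∈ Finset.range (p.natDegree + 1) then c i else 0 := by
    intro i
    rw [hQ, finset_sum_coeff]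
    simp only [coeff_C_mul_X_pow]
    rw [Finset.sum_ite_eq]
  have hQC : ∀ i, Q.coeff i ∈ C := by
    intro i
    rw [hQco]
    split_ifs
    · exact hcC i
    · exact C.zero_mem
  have hQx : w (Q.eval x') < 1 := by
    have h1 : Q.eval x' = ∑ i ∈ Finset.range (p.natDegree + 1), (c i - b i) * x' ^ i := by
      have h2 : Q.eval x' = ∑ i ∈ Finset.range (p.natDegree + 1), c i * x' ^ i := by
        rw [hQ, eval_finset_sum]
        refine Finset.sum_congr rfl ?_
        intro i _
        simp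
      rw [h2, ← sub_zero (∑ i ∈ Finset.range (p.natDegree + 1), c i * x' ^ i), ← hbsum,
        ← Finset.sum_sub_distrib]
      refine Finset.sum_congr rfl ?_
      intro i _
      ring
    rw [h1]
    refine la_sum_lt hw _ _ one_pos ?_
    intro i hi
    rw [map_mul, map_pow, hwx', one_pow, mul_one]
    have h3 : c i - b i ∈ adj C t := Subfield.sub_mem _ (le_adj C t (hcC i)) (hbadj i)
    rw [hadj _ h3, norm_sub_rev]
    exact hclt i (hble i hi)
  have hci₁ : w (Q.coeff i₁) = 1 := by
    rw [hQco, if_pos hi₁, hwC _ (hcC i₁), ← hbi₁]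
    exact la_norm_eq (by rw [hbi₁]; exact hclt i₁ (hble i₁ hi₁))
  obtain ⟨β, hβ, hlt⟩ := exists_close_root hw hC hx'0 (Q := Q) (i := i₁) hQC
    (by rw [hci₁, hwx', one_pow, mul_one]; exact hQx)
  refine ⟨c₀ * β, C.mul_mem hc₀ hβ, ?_⟩
  have h1 : x - c₀ * β = c₀ * (x' - β) := by
    rw [hx']
    field_simp
  rw [h1, map_mul, hwc₀]
  have h2 : w (x' - β) < 1 := by rw [← hwx']; exact hlt
  exact mul_lt_of_lt_one_right (w.pos hc₀0) h2

private theorem la_alg_mono {Ω : Type*} [Field Ω] {A B : Subfield Ω} (h : A ≤ B) {x : Ω}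
    (hx : IsAlgebraic A x) : IsAlgebraic B x := by
  obtain ⟨P, hP0, hP⟩ := hx
  refine ⟨P.map (Subfield.inclusion h), ?_, ?_⟩
  · exact (Polynomial.map_ne_zero_iff (Subfield.inclusion h).injective).2 hP0
  · rw [aeval_def, eval₂_map]
    exact hP

private theorem la_alg_adj {Ω : Type*} [NormedField Ω] {K : Subfield Ω} {z : Ω}
    (hz : IsAlgebraic K z) {x : Ω} (hx : x ∈ adj K z) : IsAlgebraic K x := by
  have h5 : Algebra.IsAlgebraic K (IntermediateField.adjoin K ({z} : Set Ω)) :=
    IntermediateField.isAlgebraic_adjoin_simple hz.isIntegral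
  have h6 : x ∈ IntermediateField.adjoin K ({z} : Set Ω) := (mem_adj_iff K z x).1 hx
  have h7 : IsAlgebraic K (⟨x, h6⟩ : IntermediateField.adjoin K ({z} : Set Ω)) :=
    h5.isAlgebraic _
  exact h7.algebraMap (A := Ω)

private theorem la_alg_trans {Ω : Type*} [NormedField Ω] {K : Subfield Ω} {z : Ω}
    (hz : IsAlgebraic K z) {x : Ω} (hx : IsAlgebraic (adj K z) x) : IsAlgebraic K x := by
  have h5 : Algebra.IsAlgebraic K (IntermediateField.adjoin K ({z} : Set Ω)) :=
    IntermediateField.isAlgebraic_adjoin_simple hz.isIntegral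
  have he : adj K z = (IntermediateField.adjoin K ({z} : Set Ω)).toSubfield := by
    ext x
    exact mem_adj_iff K z x
  have h6 : IsAlgebraic (IntermediateField.adjoin K ({z} : Set Ω)) x := by
    rw [he] at hx
    exact hx
  exact h6.restrictScalars K

/-- Everything in `E` is algebraic over `C(j T)`.  Proof.  `j T ∉ C`: otherwise `j T` is a root of a nonzero
polynomial over `j(M)` (`ZSet.alg`) and `T` would be algebraic over `M`; so `j T` is not algebraic over the
algebraically closed field `C` (`mem_of_algebraic`). `j T ∈ E` is algebraic over `adj C z` (`ZSet.sep`,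
`ZSet.gen`), so `z` is algebraic over `adj C (j T)` (`isAlgebraic_exchange`, module Kr2), and `E` is algebraic
over `adj C z`, hence over `adj C (j T)`. -/
theorem ZSet.isAlgebraic {k L E : Type*} [NormedField k] [NormedField L] [NormedAlgebra k L]
    [NormedField E] [IsUltrametricDist E] {M : IntermediateField k L} {C : Subfield E}
    {j : L →+* E} {z y : E} (h : ZSet M C j z y) {T : L} (hT : Transcendental M T) (x : E) :
    IsAlgebraic (adj C (j T)) x ∧ j T ∉ C := by
  have hjT : j T ∉ C := by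
    intro hmem
    obtain ⟨P, hPM, hP0, hP⟩ := h.alg _ hmem
    have h1 : P.eval T = 0 := by
      rw [eval₂_at_apply] at hP
      exact (map_eq_zero j).1 hP
    have hl : P ∈ lifts (algebraMap M L) := by
      rw [lifts_iff_coeff_lifts]
      intro n
      exact ⟨⟨P.coeff n, hPM n⟩, rfl⟩
    obtain ⟨q, hq⟩ := (mem_lifts P).1 hl
    refine hT ⟨q, ?_, ?_⟩
    · rintro rfl
      rw [Polynomial.map_zero] at hq
      exact hP0 hq.symm
    · rw [aeval_def, ← eval_map, hq]
      exact h1
  refine ⟨?_, hjT⟩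
  have hyalg : IsAlgebraic (adj C z) y := h.sep.isIntegral.isAlgebraic
  have hzT : IsAlgebraic (adj C (j T)) z := by
    refine isAlgebraic_exchange (la_alg_adj hyalg (h.gen (j T))) ?_
    intro halg
    exact hjT (mem_of_algebraic h.closed halg)
  have hxz : IsAlgebraic (adj C z) x := la_alg_adj hyalg (h.gen x)
  have hmono : adj C z ≤ adj (adj C (j T)) z :=
    adj_le ((le_adj C (j T)).trans (le_adj _ z)) (mem_adj_self _ _)
  exact la_alg_trans hzT (la_alg_mono hmono hxz)

end DA
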