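import Pool.Agent.Lib.DA.Defs2
import Pool.Agent.Lib.DA.EUa
import Pool.Agent.Lib.MP_1a953e_ag.Tr2

/-!
# Module M0: hypotheses
-/

namespace DA

open Polynomial MP1a953e IsLocalRing

section
variable {k L : Type*} [NontriviallyNormedField k] [IsUltrametricDist k] [IsAlgClosed k]
  [NormedField L] [IsUltrametricDist L] [NormedAlgebra k L] {r m : ℕ}

omit [IsAlgClosed k] in
private theorem m0_coe {m : ℕ} (u : Fin m → O L) (P : MvPolynomial (Fin m) (O k)) :
    ((MvPolynomial.aeval u P : O L) : L) =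
      MvPolynomial.aeval (fun i => (u i : L)) (P.map (O k).subtype) := by
  rw [MvPolynomial.aeval_def, MvPolynomial.aeval_def, MvPolynomial.eval₂_map]
  have h := MvPolynomial.eval₂_comp_left (O L).subtype (algebraMap (O k) (O L)) u P
  exact h

omit [IsAlgClosed k] in
private theorem m0_res {m : ℕ} (u : Fin m → O L) (P : MvPolynomial (Fin m) (O k)) :
    residue (O L) (MvPolynomial.aeval u P) =
      MvPolynomial.aeval (fun i => residue (O L) (u i)) (P.map (residue (O k))) := by
  rw [MvPolynomial.aeval_def, MvPolynomial.aeval_def, MvPolynomial.eval₂_map]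
  have h := MvPolynomial.eval₂_comp_left (residue (O L)) (algebraMap (O k) (O L)) u P
  exact h

/-- M0a.  Proof.  `rk`: given nonzero `e' 0, …, e' r`, choose `n j > 0`, `z j`, `c j` with
`‖e' j‖ ^ (n j) = ‖c j‖ * ‖∏ e i ^ z j i‖`; replace `n j` by a common `n`. The `r + 1` vectors `z j ∈ ℤ ^ r` are
linearly dependent over `ℤ`: `∑ y j z j = 0`, `y ≠ 0`; so `‖∏ e' j ^ (n y j)‖ = ‖∏ c j ^ y j‖`. `rs`: the
residues of the `m + 1` elements are algebraically dependent over `ResidueField (O k)` (`trdeg = m`); lift a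
nonzero relation. -/
theorem df_of_hyp {e : Fin r → L} (hne : ∀ i, e i ≠ 0)
    (htors : ∀ x : L, x ≠ 0 → ∃ n : ℕ, 0 < n ∧ ∃ (z : Fin r → ℤ) (c : k),
      ‖x‖ ^ n = ‖c‖ * ‖∏ i, e i ^ z i‖)
    (hres : Algebra.trdeg (ResidueField (O k)) (ResidueField (O L)) = m) : Df k L r m := by
  classical
  refine ⟨fun e' he' => ?_, fun u hu => ?_⟩
  · choose n hn z c hzc using fun j => htors (e' j) (he' j)
    have hp : ∀ j, ‖∏ i, e i ^ z j i‖ ≠ 0 := fun j =>
      norm_ne_zero_iff.2 (Finset.prod_ne_zero_iff.2 fun i _ => zpow_ne_zero _ (hne i))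
    have hc : ∀ j, c j ≠ 0 := by
      intro j h0
      have h1 := hzc j
      rw [h0, norm_zero, zero_mul] at h1
      exact pow_ne_zero _ (norm_ne_zero_iff.2 (he' j)) h1
    have hdep : ¬ LinearIndependent ℤ z := by
      intro h
      have h1 := h.fintype_card_le_finrank
      rw [Fintype.card_fin, Module.finrank_fin_fun] at h1
      omega
    rw [Fintype.not_linearIndependent_iff] at hdep
    obtain ⟨y, hy, j₀, hj₀⟩ := hdep
    refine ⟨fun j => (n j : ℤ) * y j, ?_, ∏ j, c j ^ y j, ?_⟩
    · intro h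
      have h1 := congrFun h j₀
      rcases mul_eq_zero.1 h1 with h2 | h2
      · have := hn j₀
        omega
      · exact hj₀ h2
    · have hlog : ∀ j, (n j : ℝ) * Real.log ‖e' j‖ =
          Real.log ‖c j‖ + ∑ i, (z j i : ℝ) * Real.log ‖e i‖ := by
        intro j
        rw [← Real.log_pow, hzc j, Real.log_mul (norm_ne_zero_iff.2 (hc j)) (hp j), norm_prod,
          Real.log_prod]
        · congr 1
          refine Finset.sum_congr rfl fun i _ => ?_
          rw [norm_zpow, Real.log_zpow]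
        · intro i _
          exact norm_ne_zero_iff.2 (zpow_ne_zero _ (hne i))
      have h1 : (∏ j, c j ^ y j) ≠ 0 :=
        Finset.prod_ne_zero_iff.2 fun j _ => zpow_ne_zero _ (hc j)
      have h2 : (∏ j, e' j ^ ((n j : ℤ) * y j)) ≠ 0 :=
        Finset.prod_ne_zero_iff.2 fun j _ => zpow_ne_zero _ (he' j)
      refine Real.log_injOn_pos (Set.mem_Ioi.2 (norm_pos_iff.2 h1))
        (Set.mem_Ioi.2 (norm_pos_iff.2 h2)) ?_
      rw [norm_prod, norm_prod, Real.log_prod, Real.log_prod]
      · have h3 : ∀ j, Real.log ‖e' j ^ ((n j : ℤ) * y j)‖ =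
            (y j : ℝ) * Real.log ‖c j‖ + ∑ i, (y j : ℝ) * (z j i : ℝ) * Real.log ‖e i‖ := by
          intro j
          rw [norm_zpow, Real.log_zpow]
          push_cast
          have h4 : (n j : ℝ) * y j * Real.log ‖e' j‖ = y j * (n j * Real.log ‖e' j‖) := by ring
          rw [h4, hlog j, mul_add, Finset.mul_sum]
          congr 1
          exact Finset.sum_congr rfl fun i _ => by ring
        have h5 : ∑ j, ∑ i, (y j : ℝ) * (z j i : ℝ) * Real.log ‖e i‖ = 0 := by
          rw [Finset.sum_comm]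
          refine Finset.sum_eq_zero fun i _ => ?_
          rw [← Finset.sum_mul]
          have h6 : ∑ j, y j * z j i = 0 := by
            have := congrFun hy i
            simpa using this
          have h7 : ∑ j, (y j : ℝ) * (z j i : ℝ) = 0 := by exact_mod_cast h6
          rw [h7, zero_mul]
        simp only [h3, Finset.sum_add_distrib, h5, add_zero]
        refine Finset.sum_congr rfl fun j _ => ?_
        rw [norm_zpow, Real.log_zpow]
      · intro j _
        exact norm_ne_zero_iff.2 (zpow_ne_zero _ (he' j))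
      · intro j _
        exact norm_ne_zero_iff.2 (zpow_ne_zero _ (hc j))
  · set u' : Fin (m + 1) → O L := fun i => ⟨u i, mem_O.2 (hu i)⟩ with hu'
    have hdep : ¬ AlgebraicIndependent (ResidueField (O k)) (fun i => residue (O L) (u' i)) := by
      intro h
      have h1 := h.lift_cardinalMk_le_trdeg
      rw [hres] at h1
      simp only [Cardinal.mk_fin, Cardinal.lift_natCast] at h1
      have h2 : m + 1 ≤ m := by exact_mod_cast h1
      omega
    rw [algebraicIndependent_iff] at hdep
    push Not at hdep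
    obtain ⟨P₁, hP₁, hP₁0⟩ := hdep
    obtain ⟨P0, rfl⟩ := MvPolynomial.map_surjective _ (residue_surjective (R := O k)) P₁
    refine ⟨P0.map (O k).subtype, fun s => ?_, ?_, ?_⟩
    · rw [MvPolynomial.coeff_map]
      exact mem_O.1 (P0.coeff s).2
    · obtain ⟨s, hs⟩ := MvPolynomial.ne_zero_iff.1 hP₁0
      refine ⟨s, ?_⟩
      rw [MvPolynomial.coeff_map] at hs ⊢
      rw [Ne, residue_eq_zero_iff, mem_maximalIdeal, mem_nonunits_iff, not_not] at hs
      exact isUnit_O_iff.1 hs
    · have h1 : MvPolynomial.aeval u (P0.map (O k).subtype) =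
          ((MvPolynomial.aeval u' P0 : O L) : L) := (m0_coe u' P0).symm
      rw [h1]
      rw [← m0_res, residue_eq_zero_iff, mem_maximalIdeal, mem_nonunits_iff, isUnit_O_iff] at hP₁
      exact lt_of_le_of_ne (mem_O.1 (MvPolynomial.aeval u' P0 : O L).2) hP₁

/-- M0b.  Proof.  Lift a transcendence basis of the residue field extension to `O L`; `gauss_of_residues` (module
Tr2). -/
theorem exists_eu {e : Fin r → L} (hne : ∀ i, e i ≠ 0)
    (hind : ∀ (z : Fin r → ℤ) (c : k), ‖c‖ = ‖∏ i, e i ^ z i‖ → z = 0)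
    (hres : Algebra.trdeg (ResidueField (O k)) (ResidueField (O L)) = m) :
    ∃ u : Fin m → L, EU k e u := by
  obtain ⟨s, hs⟩ := exists_isTranscendenceBasis (ResidueField (O k)) (ResidueField (O L))
  have h1 := hs.cardinalMk_eq_trdeg
  rw [hres] at h1
  have hfin : Finite s := Cardinal.lt_aleph0_iff_finite.1 (h1 ▸ Cardinal.natCast_lt_aleph0)
  have hcard : Nat.card s = m := by
    have h2 := congrArg Cardinal.toNat h1
    rw [Cardinal.toNat_natCast] at h2
    exact h2
  let f : Fin m ≃ s := (Finite.equivFinOfCardEq hcard).symm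
  choose u hu using fun i => residue_surjective (R := O L) ((f i : s) : ResidueField (O L))
  have hai : AlgebraicIndependent (ResidueField (O k)) (fun i => residue (O L) (u i)) := by
    have h2 := hs.1.comp f f.injective
    have h3 : (fun i => residue (O L) (u i)) = Subtype.val ∘ f := by
      funext i
      exact hu i
    rw [h3]
    exact h2
  exact ⟨fun i => (u i : L), hne, hind, fun i => mem_O.1 (u i).2, gauss_of_residues u hai⟩

/-- M0c.  Proof.  Let `x ≠ 0`. `Df.rk` for `(e, x)` (`Fin.snoc`) gives `(z, n) ≠ 0` with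
`‖x‖ ^ n = ‖c‖ ‖∏ e i ^ (- z i)‖`, and `n ≠ 0` by `EU.ind`; we may assume `n > 0`. Let
`μ = mon k e z' c` with `‖μ‖ = ‖x ^ n‖` and apply `Df.rs` to `(u, x ^ n / μ)`: `P = ∑_j P_j Y ^ j` with
`P_j ∈ MvPolynomial (Fin m) k`, `‖∑ P_j(u) (x ^ n / μ) ^ j‖ < 1`, and some `‖P_j(u)‖ = 1` (some coefficient
of `P` has norm `1`, `gauss`). The polynomial `∑ P_j(u) μ ^ (-j) X ^ (n j)` over `k(e, u)` shows
`RA (keu k e u) x`. -/
theorem d1_of_df {e : Fin r → L} {u : Fin m → L} (h : EU k e u) (hd : Df k L r m) :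
    D1 k e u := by
  classical
  refine ⟨h, fun x hx => ?_⟩
  -- a power of `x` has the norm of a monomial
  have hpow : ∃ (n : ℕ) (z : Fin r → ℤ) (c : k), 0 < n ∧ ‖x‖ ^ n = ‖c‖ * ‖∏ i, e i ^ z i‖ := by
    obtain ⟨z, hz, c, hc⟩ := hd.rk (Fin.cons x e) (fun i => by
      refine Fin.cases ?_ (fun i => ?_) i
      · simpa using hx
      · simpa using h.ne i)
    have hc' : ‖c‖ = ‖x‖ ^ z 0 * ‖∏ i : Fin r, e i ^ z i.succ‖ := by
      rw [hc, Fin.prod_univ_succ, norm_mul]
      simp
    have hp : ‖∏ i : Fin r, e i ^ z i.succ‖ ≠ 0 :=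
      norm_ne_zero_iff.2 (Finset.prod_ne_zero_iff.2 fun i _ => zpow_ne_zero _ (h.ne i))
    have hx0 : ‖x‖ ≠ 0 := norm_ne_zero_iff.2 hx
    have hz0 : z 0 ≠ 0 := by
      intro h0
      rw [h0, zpow_zero, one_mul] at hc'
      have h1 := h.ind (fun i => z i.succ) c hc'
      apply hz
      funext i
      refine Fin.cases h0 (fun i => ?_) i
      exact congrFun h1 i
    have hc0 : ‖c‖ ≠ 0 := by
      rw [hc']
      exact mul_ne_zero (zpow_ne_zero _ hx0) hp
    have hinv : ‖∏ i : Fin r, e i ^ (-z i.succ)‖ = ‖∏ i : Fin r, e i ^ z i.succ‖⁻¹ := by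
      rw [← norm_inv, ← Finset.prod_inv_distrib]
      congr 1
      exact Finset.prod_congr rfl fun i _ => zpow_neg _ _
    rcases lt_or_gt_of_ne hz0 with hneg | hpos
    · refine ⟨(-z 0).toNat, fun i => z i.succ, c⁻¹, by omega, ?_⟩
      have h1 : ‖x‖ ^ (-z 0).toNat = ‖x‖ ^ (-z 0) := by
        rw [← zpow_natCast, Int.toNat_of_nonneg (by omega)]
      rw [h1, zpow_neg, norm_inv, hc', mul_inv, mul_assoc, inv_mul_cancel₀ hp, mul_one]
    · refine ⟨(z 0).toNat, fun i => -z i.succ, c, by omega, ?_⟩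
      have h1 : ‖x‖ ^ (z 0).toNat = ‖x‖ ^ (z 0) := by
        rw [← zpow_natCast, Int.toNat_of_nonneg (by omega)]
      rw [h1, hinv, hc', mul_assoc, mul_inv_cancel₀ hp, mul_one]
  obtain ⟨n, z, c, hn, hxn⟩ := hpow
  set μ : L := mon k e z c with hμ
  have hμn : ‖μ‖ = ‖x‖ ^ n := by rw [hμ, mon, norm_mul, norm_algebraMap', hxn]
  have hx0 : ‖x‖ ≠ 0 := norm_ne_zero_iff.2 hx
  have hμ0 : μ ≠ 0 := by
    rw [← norm_ne_zero_iff, hμn]
    exact pow_ne_zero _ hx0
  set t : L := μ⁻¹ * x ^ n with ht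
  have htn : ‖t‖ = 1 := by
    rw [ht, norm_mul, norm_inv, norm_pow, hμn, inv_mul_cancel₀ (pow_ne_zero _ hx0)]
  obtain ⟨P, -, ⟨s, hs⟩, hP⟩ := hd.rs (Fin.cons t u) (fun i => by
    refine Fin.cases ?_ (fun i => ?_) i
    · simpa using htn.le
    · simpa using h.norm_u i)
  set Q : L[X] := (MvPolynomial.finSuccEquiv k m P).map
    (MvPolynomial.aeval u : MvPolynomial (Fin m) k →ₐ[k] L).toRingHom with hQ
  have hQe : Q.eval t = MvPolynomial.aeval (Fin.cons t u : Fin (m + 1) → L) P := by
    have h1 : ((Polynomial.evalRingHom t).comp ((Polynomial.mapRingHom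
        (MvPolynomial.aeval u : MvPolynomial (Fin m) k →ₐ[k] L).toRingHom).comp
        (MvPolynomial.finSuccEquiv k m : MvPolynomial (Fin (m + 1)) k →+*
          Polynomial (MvPolynomial (Fin m) k)))) =
        (MvPolynomial.aeval (Fin.cons t u : Fin (m + 1) → L) :
          MvPolynomial (Fin (m + 1)) k →ₐ[k] L).toRingHom := by
      apply MvPolynomial.ringHom_ext
      · intro a
        simp [MvPolynomial.finSuccEquiv_apply]
      · intro i
        refine Fin.cases ?_ (fun i => ?_) i
        · simp [MvPolynomial.finSuccEquiv_X_zero]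
        · simp [MvPolynomial.finSuccEquiv_X_succ]
    have h2 := congrArg (fun φ => φ P) h1
    exact h2
  have hM : ∀ p : MvPolynomial (Fin m) k, MvPolynomial.aeval u p ∈ keu k e u := by
    intro p
    induction p using MvPolynomial.induction_on with
    | C a =>
      rw [MvPolynomial.aeval_C]
      exact (keu k e u).algebraMap_mem a
    | add p q hp hq =>
      rw [map_add]
      exact (keu k e u).add_mem hp hq
    | mul_X p i hp =>
      rw [map_mul, MvPolynomial.aeval_X]
      exact (keu k e u).mul_mem hp (IntermediateField.subset_adjoin _ _ (Or.inr ⟨i, rfl⟩))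
  have hμM : μ ∈ keu k e u := by
    rw [hμ, mon]
    refine (keu k e u).mul_mem ((keu k e u).algebraMap_mem c) ?_
    refine (keu k e u).prod_mem fun i _ => ?_
    have he : e i ∈ keu k e u := IntermediateField.subset_adjoin _ _ (Or.inl ⟨i, rfl⟩)
    exact zpow_mem he (z i)
  set S : L[X] := expand L n (Q.comp (C μ⁻¹ * X)) with hS
  refine ⟨S, fun i => ?_, n * s 0, ?_⟩
  · rw [hS, coeff_expand hn]
    split_ifs with hdiv
    · rw [comp_C_mul_X_coeff, hQ, Polynomial.coeff_map]
      exact (keu k e u).mul_mem (hM _) (pow_mem ((keu k e u).inv_mem hμM) _)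
    · exact (keu k e u).zero_mem
  · have h1 : S.eval x = MvPolynomial.aeval (Fin.cons t u : Fin (m + 1) → L) P := by
      rw [hS, expand_eval, eval_comp, eval_mul, eval_C, eval_X, ← ht, hQe]
    rw [h1]
    refine hP.trans_le ?_
    rw [hS, coeff_expand_mul' hn, comp_C_mul_X_coeff, hQ, Polynomial.coeff_map, norm_mul, norm_pow,
      norm_inv, hμn, mul_assoc, pow_mul, ← mul_pow, inv_mul_cancel₀ (pow_ne_zero _ hx0), one_pow,
      mul_one]
    have h2 := h.gauss ((MvPolynomial.finSuccEquiv k m P).coeff (s 0)) (Finsupp.tail s)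
    rw [MvPolynomial.finSuccEquiv_coeff_coeff, Finsupp.cons_tail, hs] at h2
    exact h2

/-- M0d.  `Df` and `EU` for subfields (restriction). -/
theorem df_sub (N : IntermediateField k L) (hd : Df k L r m) : Df k N r m := by
  refine ⟨fun e he => ?_, fun u hu => ?_⟩
  · obtain ⟨z, hz, c, hc⟩ := hd.rk (fun i => (e i : L)) fun i => by
      intro h0
      exact he i (Subtype.ext h0)
    refine ⟨z, hz, c, ?_⟩
    rw [hc]
    have h1 : ((∏ i, e i ^ z i : N) : L) = ∏ i, (e i : L) ^ z i := by push_cast; rfl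
    rw [← h1]
    rfl
  · obtain ⟨P, h1, h2, h3⟩ := hd.rs (fun i => (u i : L)) hu
    refine ⟨P, h1, h2, ?_⟩
    have h4 : ((MvPolynomial.aeval u P : N) : L) = MvPolynomial.aeval (fun i => (u i : L)) P :=
      (MvPolynomial.aeval_algebraMap_apply (B := L) u P).symm
    rw [← h4] at h3
    exact h3

theorem eu_sub (N : IntermediateField k L) {e : Fin r → N} {u : Fin m → N}
    (h : EU k (fun i => (e i : L)) (fun i => (u i : L))) : EU k e u := by
  refine ⟨fun i h0 => h.ne i (by rw [h0]; rfl), fun z c hc => ?_, fun i => h.norm_u i,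
    fun P s => ?_⟩
  · refine h.ind z c ?_
    rw [hc]
    have h1 : ((∏ i, e i ^ z i : N) : L) = ∏ i, (e i : L) ^ z i := by push_cast; rfl
    rw [← h1]
    rfl
  · have h4 : ((MvPolynomial.aeval u P : N) : L) = MvPolynomial.aeval (fun i => (u i : L)) P :=
      (MvPolynomial.aeval_algebraMap_apply (B := L) u P).symm
    have h5 := h.gauss P s
    rw [← h4] at h5
    exact h5

end

end DA
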