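import Pool.Agent.Lib.DA.V3

/-!
# Module R0: `f`-adic expansions of polynomials
-/

namespace DA

open Polynomial MP1a953e

section

variable {k L : Type*} [NormedField k] [NormedField L] [NormedAlgebra k L]
  {M : IntermediateField k L} {T : L}

private theorem r0_mem {D : ℕ} {x : L} :
    x ∈ polyV M T D ↔ ∃ P : (M : Type _)[X], P.natDegree ≤ D ∧ x = aeval T P := by
  unfold polyV
  rw [Submodule.mem_span_range_iff_exists_fun]
  constructor
  · rintro ⟨c, rfl⟩
    refine ⟨∑ i : Fin (D + 1), C (c i) * X ^ (i : ℕ), ?_, ?_⟩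
    · refine Polynomial.natDegree_sum_le_of_forall_le _ _ fun i _ => ?_
      refine (Polynomial.natDegree_C_mul_X_pow_le _ _).trans ?_
      have := i.2
      omega
    · rw [map_sum]
      refine Finset.sum_congr rfl fun i _ => ?_
      rw [map_mul, Polynomial.aeval_C, map_pow, Polynomial.aeval_X, Algebra.smul_def]
  · rintro ⟨P, hd, rfl⟩
    refine ⟨fun i => P.coeff i, ?_⟩
    rw [Polynomial.aeval_eq_sum_range' (Nat.lt_succ_of_le hd), ← Fin.sum_univ_eq_sum_range
      (fun i => P.coeff i • T ^ i)]

private theorem r0_aeval_mem (P : (M : Type _)[X]) :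
    aeval T P ∈ Subring.closure ((M : Set L) ∪ {T}) := by
  rw [Polynomial.aeval_eq_sum_range]
  refine sum_mem fun i _ => ?_
  rw [Algebra.smul_def]
  refine mul_mem (Subring.subset_closure (Or.inl (P.coeff i).2)) (pow_mem ?_ i)
  exact Subring.subset_closure (Or.inr rfl)

private theorem r0_exists {a : L} (ha : a ∈ Subring.closure ((M : Set L) ∪ {T})) :
    ∃ P : (M : Type _)[X], a = aeval T P := by
  induction ha using Subring.closure_induction with
  | mem x hx =>
    rcases hx with hx | hx
    · exact ⟨C ⟨x, hx⟩, by rw [Polynomial.aeval_C]; rfl⟩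
    · exact ⟨X, by rw [Polynomial.aeval_X]; exact hx⟩
  | zero => exact ⟨0, by rw [map_zero]⟩
  | one => exact ⟨1, by rw [map_one]⟩
  | add x y _ _ hx hy =>
    obtain ⟨P, rfl⟩ := hx
    obtain ⟨Q, rfl⟩ := hy
    exact ⟨P + Q, by rw [map_add]⟩
  | neg x _ hx =>
    obtain ⟨P, rfl⟩ := hx
    exact ⟨-P, by rw [map_neg]⟩
  | mul x y _ _ hx hy =>
    obtain ⟨P, rfl⟩ := hx
    obtain ⟨Q, rfl⟩ := hy
    exact ⟨P * Q, by rw [map_mul]⟩

end

/-- R0.  Proof.  `f` is the value at `T` of a polynomial `F` over `M` of degree exactly `d + 1` (if the degree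
were `≤ d` then `f ∈ polyV M T d` and `w f = ‖f‖ < 1`). Division with remainder by `F` (its leading
coefficient is a unit of `M`): `a = A₀ + f * a₁`, `A₀ ∈ polyV M T d`, `a₁ ∈ M[T]` of smaller degree if the
degree of `a` is `> d`. Claim: `w A₀ ≤ w a`. Otherwise `w (f a₁) = w A₀` and
`‖A₀‖ ≤ max ‖a‖ (‖f‖ ‖a₁‖) ≤ max (w a) (‖f‖ * w a₁) < w A₀ = ‖A₀‖` (`w a₁ = w (f a₁) = w A₀ > 0`,
`‖f‖ < 1`), a contradiction. So `w A₀ ≤ w a` and `w a₁ = w (f a₁) ≤ w a`; induction on the degree. -/
theorem exists_expansion {k L : Type*} [NormedField k] [NormedField L] [IsUltrametricDist L]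
    [NormedAlgebra k L] {M : IntermediateField k L} {T : L} (hT : Transcendental M T)
    {w : AbsoluteValue L ℝ} (hw : IsNonarchimedean w)
    (hle : ∀ g ∈ Subring.closure ((M : Set L) ∪ {T}), ‖g‖ ≤ w g) {d : ℕ}
    (heq : ∀ g ∈ polyV M T d, w g = ‖g‖) {f : L} (hf : f ∈ polyV M T (d + 1))
    (hlt : ‖f‖ < 1) (hf1 : w f = 1) {a : L}
    (ha : a ∈ Subring.closure ((M : Set L) ∪ {T})) :
    ∃ (n : ℕ) (A : ℕ → L), (∀ i, A i ∈ polyV M T d) ∧ (∀ i, w (A i) ≤ w a) ∧
      a = ∑ i ∈ Finset.range n, A i * f ^ i := by
  obtain ⟨F, hFd, hFf⟩ := r0_mem.1 hf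
  have hFdeg : F.natDegree = d + 1 := by
    by_contra hne
    have h1 : F.natDegree ≤ d := by omega
    have h2 := heq f (r0_mem.2 ⟨F, h1, hFf⟩)
    rw [hf1] at h2
    linarith
  have hF0 : F ≠ 0 := by
    rintro rfl
    rw [Polynomial.natDegree_zero] at hFdeg
    omega
  have key : ∀ (N : ℕ) (P : (M : Type _)[X]), P.natDegree = N →
      ∃ (n : ℕ) (A : ℕ → L), (∀ i, A i ∈ polyV M T d) ∧ (∀ i, w (A i) ≤ w (aeval T P)) ∧
        aeval T P = ∑ i ∈ Finset.range n, A i * f ^ i := by
    intro N
    induction N using Nat.strong_induction_on with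
    | _ N ih =>
      intro P hP
      by_cases hPd : P.natDegree ≤ d
      · refine ⟨1, fun _ => aeval T P, fun _ => r0_mem.2 ⟨P, hPd, rfl⟩, fun _ => le_rfl, ?_⟩
        rw [Finset.sum_range_one, pow_zero, mul_one]
      · have hP0 : P ≠ 0 := by
          rintro rfl
          rw [Polynomial.natDegree_zero] at hPd
          omega
        have hdiv : F * (P / F) + P % F = P := EuclideanDomain.div_add_mod P F
        have hmod : (P % F).natDegree < F.natDegree :=
          Polynomial.natDegree_mod_lt P (by omega)
        have hA₀ : aeval T (P % F) ∈ polyV M T d := r0_mem.2 ⟨P % F, by omega, rfl⟩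
        have hquot : (P / F).natDegree < N := by
          by_cases hq : P / F = 0
          · rw [hq, Polynomial.natDegree_zero]
            omega
          · rw [← hP]
            refine Polynomial.natDegree_lt_natDegree hq (Polynomial.degree_div_lt hP0 ?_)
            rw [← Polynomial.natDegree_pos_iff_degree_pos]
            omega
        have hsum : aeval T P = aeval T (P % F) + f * aeval T (P / F) := by
          conv_lhs => rw [← hdiv]
          rw [map_add, map_mul, ← hFf]
          ring
        have hwf : w (f * aeval T (P / F)) = w (aeval T (P / F)) := by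
          rw [map_mul, hf1, one_mul]
        have hle₁ : ‖aeval T (P / F)‖ ≤ w (aeval T (P / F)) := hle _ (r0_aeval_mem _)
        have hleP : ‖aeval T P‖ ≤ w (aeval T P) := hle _ (r0_aeval_mem _)
        -- first estimate
        have hA₀le : w (aeval T (P % F)) ≤ w (aeval T P) := by
          by_contra hcon
          rw [not_le] at hcon
          have h1 : w (f * aeval T (P / F)) ≤ w (aeval T (P % F)) := by
            have h2 : f * aeval T (P / F) = aeval T P + -aeval T (P % F) := by
              rw [hsum]
              ring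
            rw [h2]
            refine (hw _ _).trans (max_le hcon.le ?_)
            rw [w.map_neg]
          have h3 : ‖aeval T (P % F)‖ ≤ max ‖aeval T P‖ (‖f‖ * ‖aeval T (P / F)‖) := by
            have h2 : aeval T (P % F) = aeval T P + -(f * aeval T (P / F)) := by
              rw [hsum]
              ring
            rw [h2]
            refine (IsUltrametricDist.norm_add_le_max _ _).trans ?_
            rw [norm_neg, norm_mul]
          rw [← heq _ hA₀] at h3
          have hpos : 0 < w (aeval T (P % F)) := lt_of_le_of_lt (w.nonneg _) hcon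
          rcases le_max_iff.1 h3 with h4 | h4
          · linarith
          · rw [hwf] at h1
            have h5 : ‖f‖ * ‖aeval T (P / F)‖ ≤ ‖f‖ * w (aeval T (P % F)) :=
              mul_le_mul_of_nonneg_left (hle₁.trans h1) (norm_nonneg _)
            have h6 : ‖f‖ * w (aeval T (P % F)) < w (aeval T (P % F)) := by
              have := mul_lt_mul_of_pos_right hlt hpos
              rwa [one_mul] at this
            linarith
        have ha₁le : w (aeval T (P / F)) ≤ w (aeval T P) := by
          rw [← hwf]
          have h2 : f * aeval T (P / F) = aeval T P + -aeval T (P % F) := by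
            rw [hsum]
            ring
          rw [h2]
          refine (hw _ _).trans (max_le le_rfl ?_)
          rw [w.map_neg]
          exact hA₀le
        obtain ⟨n, A, hA, hwA, hAs⟩ := ih _ hquot (P / F) rfl
        refine ⟨n + 1, fun i => Nat.casesOn i (aeval T (P % F)) A, ?_, ?_, ?_⟩
        · intro i
          cases i with
          | zero => exact hA₀
          | succ i => exact hA i
        · intro i
          cases i with
          | zero => exact hA₀le
          | succ i => exact (hwA i).trans ha₁le
        · rw [Finset.sum_range_succ', hsum]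
          simp only [pow_zero, mul_one]
          rw [hAs, Finset.mul_sum, add_comm]
          congr 1
          refine Finset.sum_congr rfl fun i _ => ?_
          rw [pow_succ]
          ring
  obtain ⟨P, rfl⟩ := r0_exists ha
  exact key _ P rfl

end DA
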