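import Pool.Agent.Lib.DA.SDefs
import Pool.Agent.Lib.DA.S2

/-!
# Module S3: the toric ring is integrally closed
-/

namespace DA

open Polynomial MP1a953e

/-! ### Integrality -/

private theorem S3_icl {R L : Type*} [CommRing R] [IsDomain R] [IsIntegrallyClosed R] [Field L]
    (φ : R →+* L) (hφ : Function.Injective φ) {p q : R} {x : L}
    (hx : x = φ p / φ q) (hint : φ.IsIntegralElem x) : ∃ y, φ y = x := by
  let := φ.toAlgebra
  have hinj : Function.Injective (Algebra.ofId R L) := hφ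
  let f : FractionRing R →ₐ[R] L := IsFractionRing.liftAlgHom (K := FractionRing R) hinj
  have hf : Function.Injective f := f.toRingHom.injective
  have h1 : f (algebraMap R (FractionRing R) p / algebraMap R (FractionRing R) q) = x := by
    rw [map_div₀, f.commutes, f.commutes, hx]
    rfl
  have h2 : IsIntegral R
      (algebraMap R (FractionRing R) p / algebraMap R (FractionRing R) q) := by
    rw [← isIntegral_algHom_iff f hf, h1]
    exact hint
  obtain ⟨y, hy⟩ := (isIntegrallyClosed_iff (FractionRing R)).1 inferInstance h2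
  refine ⟨y, ?_⟩
  rw [← h1, ← hy, f.commutes]
  rfl

private theorem S3_lift {R B L : Type*} [CommRing R] [CommRing B] [Field L] (φ : R →+* L)
    (hφ : Function.Injective φ) (ι : B →+* L) (h : ∀ b, ∃ r, φ r = ι b) :
    ∃ ψ : B →+* R, φ.comp ψ = ι := by
  choose g hg using h
  refine ⟨{ toFun := g, map_one' := hφ ?_, map_mul' := fun a b => hφ ?_,
            map_zero' := hφ ?_, map_add' := fun a b => hφ ?_ }, RingHom.ext hg⟩
  · rw [hg, map_one, map_one]
  · rw [hg, map_mul, map_mul, hg, hg]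
  · rw [hg, map_zero, map_zero]
  · rw [hg, map_add, map_add, hg, hg]

private theorem S3_int {R B L : Type*} [CommRing R] [CommRing B] [Field L] {φ : R →+* L}
    {ι : B →+* L} {ψ : B →+* R} (h : φ.comp ψ = ι) {x : L} (hx : ι.IsIntegralElem x) :
    φ.IsIntegralElem x := by
  obtain ⟨p, hp, h0⟩ := hx
  refine ⟨p.map ψ, hp.map ψ, ?_⟩
  rw [Polynomial.eval₂_map, h]
  exact h0

/-- a root of a monic polynomial with coefficients of norm `≤ 1` has norm `≤ 1` -/
private theorem S3_norm {B L : Type*} [CommRing B] [NormedField L] [IsUltrametricDist L]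
    (ι : B →+* L) (h : ∀ b, ‖ι b‖ ≤ 1) {x : L} (hx : ι.IsIntegralElem x) : ‖x‖ ≤ 1 := by
  have h1 : ((O L).subtype).comp (ι.codRestrict (O L) fun b => mem_O.2 (h b)) = ι := rfl
  have h2 : IsIntegral ↥(O L) x := S3_int (φ := (O L).subtype) h1 hx
  exact mem_O.1 ((Valuation.integer.integers (NormedField.valuation (K := L))).mem_of_integral h2)

section
variable {k L : Type*} [NontriviallyNormedField k] [IsUltrametricDist k] [IsAlgClosed k]
  [NormedField L] [IsUltrametricDist L] [NormedAlgebra k L] {r : ℕ} {e : Fin r → L}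

omit [IsUltrametricDist k] [IsAlgClosed k] [IsUltrametricDist L] in
private theorem S3_eu (hne : ∀ i, e i ≠ 0)
    (hind : ∀ (z : Fin r → ℤ) (c : k), ‖c‖ = ‖∏ i, e i ^ z i‖ → z = 0) :
    EU k e (fun i : Fin 0 => (i.elim0 : L)) where
  ne := hne
  ind := hind
  norm_u := fun i => i.elim0
  gauss := by
    intro P s
    obtain ⟨a, rfl⟩ := MvPolynomial.C_surjective (Fin 0) P
    rw [MvPolynomial.aeval_C, norm_algebraMap', MvPolynomial.coeff_C]
    split_ifs
    · exact le_rfl
    · rw [norm_zero]; exact norm_nonneg _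

omit [IsAlgClosed k] in
private theorem S3_ind (hne : ∀ i, e i ≠ 0)
    (hind : ∀ (z : Fin r → ℤ) (c : k), ‖c‖ = ‖∏ i, e i ^ z i‖ → z = 0) :
    AlgebraicIndependent k e := by
  have h1 := (S3_eu hne hind).algebraicIndependent
  have h2 := h1.comp (Fin.castAdd 0) (Fin.castAdd_injective r 0)
  have h3 : (Fin.append e (fun i : Fin 0 => (i.elim0 : L))) ∘ Fin.castAdd 0 = e := by
    funext i
    simp
  rwa [h3] at h2

omit [IsUltrametricDist k] [IsAlgClosed k] [IsUltrametricDist L] in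
private theorem S3_exp {x : L}
    (hx : x ∈ Submodule.span k (Set.range fun z : Fin r → ℤ => ∏ i, e i ^ z i)) :
    ∃ (Z : Finset (Fin r → ℤ)) (a : (Fin r → ℤ) → k), x = ∑ z ∈ Z, mon k e z (a z) := by
  obtain ⟨c, hc⟩ := Finsupp.mem_span_range_iff_exists_finsupp.1 hx
  refine ⟨c.support, c, ?_⟩
  rw [← hc, Finsupp.sum]
  refine Finset.sum_congr rfl fun z _ => ?_
  unfold mon
  rw [Algebra.smul_def]

/-- S3a.  An element of `k(e)` which is integral over the ring of Laurent polynomials is a Laurent polynomial.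
Proof.  `k[e] ≅ MvPolynomial (Fin r) k` is a unique factorization domain, hence integrally closed. If
`x ^ n + a 1 x ^ (n-1) + … = 0` with Laurent polynomials `a i`, then for large `N` the element
`(∏ e i) ^ N * x` is integral over `k[e]`, so it is in `k[e]`. -/
theorem laurent_of_integral (hne : ∀ i, e i ≠ 0)
    (hind : ∀ (z : Fin r → ℤ) (c : k), ‖c‖ = ‖∏ i, e i ^ z i‖ → z = 0) {x : L}
    (hx : x ∈ IntermediateField.adjoin k (Set.range e))
    (hint : IsIntegral
      ↥(Algebra.adjoin k (Set.range e ∪ Set.range fun i => (e i)⁻¹)) x) :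
    ∃ (Z : Finset (Fin r → ℤ)) (a : (Fin r → ℤ) → k), x = ∑ z ∈ Z, mon k e z (a z) := by
  classical
  obtain ⟨p, q, hpq⟩ := (IntermediateField.mem_adjoin_range_iff k e x).1 hx
  let g : MvPolynomial (Fin r) k →+* L := (MvPolynomial.aeval e : MvPolynomial (Fin r) k →ₐ[k] L)
  have hginj : Function.Injective g := S3_ind hne hind
  let D : MvPolynomial (Fin r) k := ∏ i, MvPolynomial.X i
  have hgX : ∀ i, g (MvPolynomial.X i) = e i := fun i => MvPolynomial.aeval_X e i
  have hgD : g D = ∏ i, e i := by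
    show g (∏ i, MvPolynomial.X i) = _
    rw [map_prod]
    exact Finset.prod_congr rfl fun i _ => hgX i
  have hD0 : (∏ i, e i) ≠ 0 := Finset.prod_ne_zero_iff.2 fun i _ => hne i
  have hD : D ≠ 0 := by
    intro h
    rw [h, map_zero] at hgD
    exact hD0 hgD.symm
  have hM : Submonoid.powers D ≤ nonZeroDivisors (MvPolynomial (Fin r) k) :=
    powers_le_nonZeroDivisors_of_noZeroDivisors hD
  let S := Localization.Away D
  have : IsDomain S := IsLocalization.isDomain_localization hM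
  have : IsIntegrallyClosed S := isIntegrallyClosed_of_isLocalization S (Submonoid.powers D) hM
  have hu : IsUnit (g D) := by
    rw [hgD]
    exact isUnit_iff_ne_zero.2 hD0
  let φ : S →+* L := IsLocalization.Away.lift D hu
  have hφ : ∀ y, φ (algebraMap _ S y) = g y := fun y => IsLocalization.Away.lift_eq D hu y
  have hφinj : Function.Injective φ := by
    rw [injective_iff_map_eq_zero]
    intro y hy
    obtain ⟨⟨a, s⟩, h1⟩ := IsLocalization.surj (Submonoid.powers D) y
    have h2 := congrArg φ h1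
    rw [map_mul, hy, zero_mul, hφ] at h2
    have h3 : a = 0 := hginj (by rw [← h2, map_zero])
    rw [h3, map_zero] at h1
    exact (mul_eq_zero.1 h1).resolve_right
      (IsUnit.ne_zero (IsLocalization.map_units S s))
  have hrange : ∀ b : ↥(Algebra.adjoin k (Set.range e ∪ Set.range fun i => (e i)⁻¹)),
      ∃ s, φ s = algebraMap _ L b := by
    rintro ⟨b, hb⟩
    show ∃ s, φ s = b
    induction hb using Algebra.adjoin_induction with
    | mem b hb =>
      rcases hb with ⟨i, rfl⟩ | ⟨i, rfl⟩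
      · exact ⟨algebraMap _ S (MvPolynomial.X i), by rw [hφ, hgX]⟩
      · have h4 : IsUnit (algebraMap _ S (MvPolynomial.X i : MvPolynomial (Fin r) k)) := by
          refine isUnit_of_dvd_unit (map_dvd (algebraMap _ S)
            (Finset.dvd_prod_of_mem _ (Finset.mem_univ i))) ?_
          exact IsLocalization.Away.algebraMap_isUnit (S := S) D
        obtain ⟨v, hv⟩ := h4.exists_right_inv
        refine ⟨v, ?_⟩
        have h5 := congrArg φ hv
        rw [map_mul, hφ, hgX, map_one] at h5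
        exact eq_inv_of_mul_eq_one_right h5
    | algebraMap a =>
      refine ⟨algebraMap (MvPolynomial (Fin r) k) S (MvPolynomial.C a), ?_⟩
      rw [hφ]
      exact MvPolynomial.aeval_C e a
    | add a b _ _ ha hb =>
      obtain ⟨s, hs⟩ := ha
      obtain ⟨t, ht⟩ := hb
      exact ⟨s + t, by rw [map_add, hs, ht]⟩
    | mul a b _ _ ha hb =>
      obtain ⟨s, hs⟩ := ha
      obtain ⟨t, ht⟩ := hb
      exact ⟨s * t, by rw [map_mul, hs, ht]⟩
  obtain ⟨ψ, hψ⟩ := S3_lift φ hφinj (algebraMap _ L) hrange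
  have hint' : φ.IsIntegralElem x := S3_int hψ hint
  obtain ⟨y, hy⟩ := S3_icl φ hφinj (p := algebraMap _ S p) (q := algebraMap _ S q)
    (by rw [hφ, hφ]; exact hpq) hint'
  obtain ⟨⟨a, s⟩, h1⟩ := IsLocalization.surj (Submonoid.powers D) y
  obtain ⟨N, hN⟩ := s.2
  have h2 := congrArg φ h1
  rw [map_mul, hy, hφ, hφ] at h2
  have hN' : (s : MvPolynomial (Fin r) k) = D ^ N := hN.symm
  rw [hN', map_pow, hgD] at h2
  refine S3_exp ?_
  have h3 : x = g a * ((∏ i, e i) ^ N)⁻¹ := by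
    rw [← h2, mul_assoc, mul_inv_cancel₀ (pow_ne_zero _ hD0), mul_one]
  have h4 : g a = ∑ s ∈ a.support, algebraMap k L (a.coeff s) * ∏ i, e i ^ s i := by
    show MvPolynomial.aeval e a = _
    rw [MvPolynomial.aeval_def, MvPolynomial.eval₂_eq']
  rw [h3, h4, Finset.sum_mul]
  refine Submodule.sum_mem _ fun s _ => ?_
  have h5 : algebraMap k L (a.coeff s) * (∏ i, e i ^ s i) * ((∏ i, e i) ^ N)⁻¹ =
      a.coeff s • ∏ i, e i ^ ((s i : ℤ) - N) := by
    rw [Algebra.smul_def, mul_assoc, ← Finset.prod_pow, ← Finset.prod_inv_distrib,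
      ← Finset.prod_mul_distrib]
    congr 1
    refine Finset.prod_congr rfl fun i _ => ?_
    rw [zpow_sub₀ (hne i), zpow_natCast, zpow_natCast, div_eq_mul_inv]
  rw [h5]
  exact Submodule.smul_mem _ _ (Submodule.subset_span ⟨fun i => (s i : ℤ) - N, rfl⟩)

/-! ### Rescaling -/

/-- evaluation of Laurent polynomials -/
private noncomputable def S3_chi {r : ℕ} (e : Fin r → L) (hne : ∀ i, e i ≠ 0) :
    Multiplicative (Fin r → ℤ) →* L where
  toFun z := ∏ i, e i ^ (Multiplicative.toAdd z) i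
  map_one' := by simp
  map_mul' z z' := by
    rw [← Finset.prod_mul_distrib]
    refine Finset.prod_congr rfl fun i _ => ?_
    rw [toAdd_mul, Pi.add_apply, zpow_add₀ (hne i)]

variable (k) in
private noncomputable def S3_ev {r : ℕ} (e : Fin r → L) (hne : ∀ i, e i ≠ 0) :
    AddMonoidAlgebra k (Fin r → ℤ) →ₐ[k] L :=
  AddMonoidAlgebra.lift k L (Fin r → ℤ) (S3_chi e hne)

omit [IsUltrametricDist k] [IsAlgClosed k] [IsUltrametricDist L] in
private theorem S3_ev_single (hne : ∀ i, e i ≠ 0) (z : Fin r → ℤ) (a : k) :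
    S3_ev k e hne (AddMonoidAlgebra.single z a) = mon k e z a := by
  unfold S3_ev
  rw [AddMonoidAlgebra.lift_single, Algebra.smul_def]
  rfl

omit [IsAlgClosed k] in
private theorem S3_ev_inj (hne : ∀ i, e i ≠ 0)
    (hind : ∀ (z : Fin r → ℤ) (c : k), ‖c‖ = ‖∏ i, e i ^ z i‖ → z = 0) :
    Function.Injective (S3_ev k e hne) := by
  have h1 := linearIndependent_zpow hne hind
  rw [injective_iff_map_eq_zero]
  intro x hx
  have h2 : Finsupp.linearCombination k (fun z : Fin r → ℤ => ∏ i, e i ^ z i) x.coeff = 0 := by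
    rw [← hx]
    unfold S3_ev
    rw [AddMonoidAlgebra.lift_apply, Finsupp.linearCombination_apply]
    rfl
  have h3 : x.coeff = 0 := by
    apply h1
    rw [h2, map_zero]
  exact AddMonoidAlgebra.coeff_injective (by rw [h3]; rfl)

/-- S3b (rescaling).  Let `σ` be the substitution `e i ↦ γ i * e i` on Laurent polynomials, where the `γ i ∈ k`
are such that `‖σ (t i)‖ ≤ 1` for all toric coordinates `t i`. If the Laurent polynomial
`x = ∑ mon k e z (a z)` is integral over `Tt k e c π`, then `‖mon k (fun i => γ i * e i) z (a z)‖ ≤ 1` for all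
`z ∈ Z`.  Proof.  Let `Λ = AddMonoidAlgebra k (Fin r → ℤ)` be the ring of Laurent polynomials; it embeds in
`L` by `e` (S2a), and `σ` is another homomorphism `Λ → L`. `x` is the image of an element of `Λ` which is
integral over the preimage of `Tt k e c π` (generated by the `t i` over `O k`), so `σ x` is integral over
a subring of the unit ball, so `‖σ x‖ ≤ 1` (the unit ball is integrally closed). `σ x` is the sum of the
`mon k (γ e) z (a z)`, whose norms are pairwise different or `0` (`hind`: `‖γ i‖ ∈ |k*|`), so each of them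
has norm `≤ ‖σ x‖ ≤ 1`. -/
theorem norm_rescale_le (hne : ∀ i, e i ≠ 0)
    (hind : ∀ (z : Fin r → ℤ) (c : k), ‖c‖ = ‖∏ i, e i ^ z i‖ → z = 0) {c : Fin r → k} {π : k}
    (hc : ∀ i, c i ≠ 0) (hπ : π ≠ 0) {γ : Fin r → k} (hγ : ∀ i, γ i ≠ 0)
    (hle : ∀ i, ‖tor k (fun i => algebraMap k L (γ i) * e i) c π i‖ ≤ 1)
    {Z : Finset (Fin r → ℤ)} {a : (Fin r → ℤ) → k}
    (hint : IsIntegral ↥(Tt k e c π) (∑ z ∈ Z, mon k e z (a z))) {z : Fin r → ℤ} (hz : z ∈ Z) :
    ‖mon k (fun i => algebraMap k L (γ i) * e i) z (a z)‖ ≤ 1 := by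
  classical
  set e' : Fin r → L := fun i => algebraMap k L (γ i) * e i with he'
  have hγ' : ∀ i, algebraMap k L (γ i) ≠ 0 := fun i => (_root_.map_ne_zero _).2 (hγ i)
  have hne' : ∀ i, e' i ≠ 0 := fun i => mul_ne_zero (hγ' i) (hne i)
  have hind' : ∀ (z : Fin r → ℤ) (c : k), ‖c‖ = ‖∏ i, e' i ^ z i‖ → z = 0 := by
    intro z c h
    refine hind z (c / ∏ i, γ i ^ z i) ?_
    have h1 : ∏ i, e' i ^ z i = algebraMap k L (∏ i, γ i ^ z i) * ∏ i, e i ^ z i := by
      rw [map_prod, ← Finset.prod_mul_distrib]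
      refine Finset.prod_congr rfl fun i _ => ?_
      rw [he', mul_zpow, map_zpow₀]
    have h2 : ‖∏ i, γ i ^ z i‖ ≠ 0 :=
      norm_ne_zero_iff.2 (Finset.prod_ne_zero_iff.2 fun i _ => zpow_ne_zero _ (hγ i))
    rw [norm_div, h, h1, norm_mul, norm_algebraMap', mul_div_cancel_left₀ _ h2]
  set ev := S3_ev k e hne with hev
  set ev' := S3_ev k e' hne' with hev'
  have hinj : Function.Injective ev := S3_ev_inj hne hind
  -- the toric coordinates are Laurent polynomials
  have key : ∀ y ∈ Tt k e c π, ∃ l, ev l = y ∧ ‖ev' l‖ ≤ 1 := by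
    intro y hy
    unfold Tt at hy
    induction hy using Algebra.adjoin_induction with
    | mem y hy =>
      obtain ⟨i, rfl⟩ := hy
      have hm : ∃ (z : Fin r → ℤ) (b : k), ∀ f : Fin r → L, (∀ i, f i ≠ 0) →
          tor k f c π i = mon k f z b := by
        refine Fin.cases ?_ (fun j => ?_) i
        · refine ⟨fun _ => -1, π * ∏ i, c i, fun f hf => ?_⟩
          simp only [tor, Fin.cons_zero]
          unfold mon
          rw [Finset.prod_div_distrib, map_mul, map_prod]
          simp only [zpow_neg_one, Finset.prod_inv_distrib]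
          rw [mul_assoc, div_eq_mul_inv]
        · refine ⟨Pi.single j 1, (c j)⁻¹, fun f hf => ?_⟩
          simp only [tor, Fin.cons_succ]
          unfold mon
          rw [Finset.prod_eq_single j, Pi.single_eq_same, zpow_one, map_inv₀, div_eq_inv_mul]
          · intro i _ hij
            rw [Pi.single_eq_of_ne hij, zpow_zero]
          · intro hj
            exact absurd (Finset.mem_univ j) hj
      obtain ⟨z, b, hzb⟩ := hm
      refine ⟨AddMonoidAlgebra.single z b, ?_, ?_⟩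
      · rw [hev, S3_ev_single, hzb e hne]
      · rw [hev', S3_ev_single, ← hzb e' hne']
        exact hle i
    | algebraMap a =>
      refine ⟨algebraMap k _ (a : k), ?_, ?_⟩
      · rw [AlgHom.commutes]
        rfl
      · rw [AlgHom.commutes, norm_algebraMap']
        exact mem_O.1 a.2
    | add x y _ _ hx hy =>
      obtain ⟨l, h1, h2⟩ := hx
      obtain ⟨l', h1', h2'⟩ := hy
      refine ⟨l + l', by rw [map_add, h1, h1'], ?_⟩
      rw [map_add]
      exact (IsUltrametricDist.norm_add_le_max _ _).trans (max_le h2 h2')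
    | mul x y _ _ hx hy =>
      obtain ⟨l, h1, h2⟩ := hx
      obtain ⟨l', h1', h2'⟩ := hy
      refine ⟨l * l', by rw [map_mul, h1, h1'], ?_⟩
      rw [map_mul, norm_mul]
      exact mul_le_one₀ h2 (norm_nonneg _) h2'
  obtain ⟨ψ, hψ⟩ := S3_lift (ev : AddMonoidAlgebra k (Fin r → ℤ) →+* L) hinj
    (algebraMap ↥(Tt k e c π) L) fun b => by
      obtain ⟨l, h1, -⟩ := key b.1 b.2
      exact ⟨l, h1⟩
  have hψ1 : ∀ b : ↥(Tt k e c π), ev (ψ b) = (b : L) := fun b => RingHom.congr_fun hψ b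
  have hψ2 : ∀ b, ‖((ev' : AddMonoidAlgebra k (Fin r → ℤ) →+* L).comp ψ) b‖ ≤ 1 := by
    intro b
    obtain ⟨l, h1, h2⟩ := key b.1 b.2
    have h3 : ψ b = l := hinj (by rw [hψ1, h1])
    rw [RingHom.comp_apply, h3]
    exact h2
  -- the element of the ring of Laurent polynomials
  set l : AddMonoidAlgebra k (Fin r → ℤ) := ∑ z ∈ Z, AddMonoidAlgebra.single z (a z) with hl
  have hl1 : ev l = ∑ z ∈ Z, mon k e z (a z) := by
    rw [hl, map_sum]
    exact Finset.sum_congr rfl fun z _ => S3_ev_single hne z (a z)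
  have hl2 : ev' l = ∑ z ∈ Z, mon k e' z (a z) := by
    rw [hl, map_sum]
    exact Finset.sum_congr rfl fun z _ => S3_ev_single hne' z (a z)
  have hint2 : ((ev' : AddMonoidAlgebra k (Fin r → ℤ) →+* L).comp ψ).IsIntegralElem (ev' l) := by
    obtain ⟨p, hp, h0⟩ := hint
    refine ⟨p, hp, ?_⟩
    have h1 : Polynomial.eval₂ ψ l p = 0 := by
      apply hinj
      rw [map_zero]
      have h2 := Polynomial.hom_eval₂ p ψ (ev : AddMonoidAlgebra k (Fin r → ℤ) →+* L) l
      rw [hψ] at h2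
      refine Eq.trans h2 ?_
      have h3 : (ev : AddMonoidAlgebra k (Fin r → ℤ) →+* L) l = ∑ z ∈ Z, mon k e z (a z) := hl1
      rw [h3]
      exact h0
    have h4 := Polynomial.hom_eval₂ p ψ (ev' : AddMonoidAlgebra k (Fin r → ℤ) →+* L) l
    rw [h1, map_zero] at h4
    exact h4.symm
  have h5 := S3_norm _ hψ2 hint2
  rw [hl2] at h5
  have h6 := (S3_eu hne' hind').sum_le Z (fun z => MvPolynomial.C (a z)) hz
  simp only [MvPolynomial.aeval_C] at h6
  refine le_trans ?_ (h6.trans h5)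
  unfold mon
  rw [norm_mul]

/-! ### Coefficients -/

private theorem S3_dense {k : Type*} [NontriviallyNormedField k] [IsAlgClosed k] {a b : ℝ}
    (ha : 0 < a) (hab : a < b) : ∃ c : k, a < ‖c‖ ∧ ‖c‖ < b := by
  obtain ⟨x, hx⟩ := NormedField.exists_one_lt_norm k
  have hba : 1 < b / a := by rwa [one_lt_div ha]
  obtain ⟨n, hn⟩ := pow_unbounded_of_one_lt ‖x‖ hba
  have hn0 : 0 < n := by
    rcases Nat.eq_zero_or_pos n with rfl | h
    · rw [pow_zero] at hn
      linarith
    · exact h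
  obtain ⟨y, hy⟩ := IsAlgClosed.exists_pow_nat_eq x hn0
  have hyn : ‖y‖ ^ n = ‖x‖ := by rw [← norm_pow, hy]
  have hy1 : 1 < ‖y‖ := by
    by_contra hcon
    rw [not_lt] at hcon
    have := pow_le_one₀ (n := n) (norm_nonneg y) hcon
    linarith
  have hy2 : ‖y‖ < b / a := by
    refine lt_of_pow_lt_pow_left₀ n (by linarith) ?_
    rw [hyn]
    exact hn
  obtain ⟨m, hm1, hm2⟩ := exists_mem_Ico_zpow ha hy1
  have hy0 : ‖y‖ ≠ 0 := by linarith
  refine ⟨y ^ (m + 1), ?_, ?_⟩
  · rw [norm_zpow]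
    exact hm2
  · rw [norm_zpow, zpow_add₀ hy0, zpow_one]
    rw [lt_div_iff₀ ha] at hy2
    calc ‖y‖ ^ m * ‖y‖ ≤ a * ‖y‖ := mul_le_mul_of_nonneg_right hm1 (norm_nonneg _)
      _ = ‖y‖ * a := mul_comm _ _
      _ < b := hy2

/-- numbers below `1` with large powers -/
private theorem S3_theta {q : ℝ} (hq : q < 1) (M : ℕ) : ∃ θ : ℝ, 0 < θ ∧ θ < 1 ∧ q < θ ^ M := by
  have h1 : Filter.Tendsto (fun θ : ℝ => θ ^ M) (nhdsWithin 1 (Set.Iio 1)) (nhds (1 ^ M)) :=
    ((continuous_pow M).tendsto 1).mono_left nhdsWithin_le_nhds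
  rw [one_pow] at h1
  have h2 := h1.eventually (lt_mem_nhds hq)
  have h3 : ∀ᶠ θ : ℝ in nhdsWithin 1 (Set.Iio 1), 0 < θ :=
    nhdsWithin_le_nhds (lt_mem_nhds zero_lt_one)
  have h4 : ∀ᶠ θ : ℝ in nhdsWithin 1 (Set.Iio 1), θ < 1 := self_mem_nhdsWithin
  obtain ⟨θ, h5, h6, h7⟩ := (h2.and (h3.and h4)).exists
  exact ⟨θ, h6, h7, h5⟩

omit [IsUltrametricDist k] [IsAlgClosed k] [IsUltrametricDist L] in
private theorem S3_tor_succ (f : Fin r → L) (c : Fin r → k) (π : k) (i : Fin r) :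
    ‖tor k f c π i.succ‖ = ‖f i‖ / ‖c i‖ := by
  simp only [tor, Fin.cons_succ]
  rw [norm_div, norm_algebraMap']

omit [IsUltrametricDist k] [IsAlgClosed k] [IsUltrametricDist L] in
private theorem S3_tor_zero (f : Fin r → L) (c : Fin r → k) (π : k) :
    ‖tor k f c π 0‖ = ‖π‖ / ∏ i, (‖f i‖ / ‖c i‖) := by
  simp only [tor, Fin.cons_zero]
  rw [norm_mul, norm_algebraMap', norm_prod, div_eq_mul_inv, ← Finset.prod_inv_distrib]
  congr 1
  refine Finset.prod_congr rfl fun i _ => ?_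
  rw [norm_div, norm_algebraMap', inv_div]

omit [IsUltrametricDist k] [IsUltrametricDist L] in
/-- rescalings for which all toric coordinates except one are close to `1` -/
private theorem S3_gamma (hne : ∀ i, e i ≠ 0) {c : Fin r → k} {π : k} (hc : ∀ i, c i ≠ 0)
    (hπ : π ≠ 0) {θ : ℝ} (h0 : 0 < θ) (h1 : θ < 1) (hθ : ‖π‖ < θ ^ (r + 1)) (i₀ : Fin (r + 1)) :
    ∃ γ : Fin r → k, (∀ i, γ i ≠ 0) ∧
      (∀ i, ‖tor k (fun i => algebraMap k L (γ i) * e i) c π i‖ ≤ 1) ∧
      ∀ i, i ≠ i₀ → θ ≤ ‖tor k (fun i => algebraMap k L (γ i) * e i) c π i‖ := by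
  classical
  have hep : ∀ i, 0 < ‖e i‖ := fun i => norm_pos_iff.2 (hne i)
  have hcp : ∀ i, 0 < ‖c i‖ := fun i => norm_pos_iff.2 (hc i)
  have hπp : 0 < ‖π‖ := norm_pos_iff.2 hπ
  -- a factor with prescribed norm
  have hex : ∀ (i : Fin r) (a b : ℝ), 0 < a → a < b →
      ∃ γ : k, γ ≠ 0 ∧ a < ‖γ‖ * ‖e i‖ / ‖c i‖ ∧ ‖γ‖ * ‖e i‖ / ‖c i‖ < b := by
    intro i a b ha hab
    have hq : 0 < ‖c i‖ / ‖e i‖ := div_pos (hcp i) (hep i)
    obtain ⟨γ, hγ1, hγ2⟩ := S3_dense (k := k) (mul_pos ha hq)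
      (mul_lt_mul_of_pos_right hab hq)
    refine ⟨γ, norm_pos_iff.1 ((mul_pos ha hq).trans hγ1), ?_, ?_⟩
    · rw [lt_div_iff₀ (hcp i)]
      have h2 := mul_lt_mul_of_pos_right hγ1 (hep i)
      rwa [mul_assoc, div_mul_cancel₀ _ (hep i).ne'] at h2
    · rw [div_lt_iff₀ (hcp i)]
      have h2 := mul_lt_mul_of_pos_right hγ2 (hep i)
      rwa [mul_assoc, div_mul_cancel₀ _ (hep i).ne'] at h2
  choose γ₁ hγ0 hγ1 hγ2 using fun i => hex i θ 1 h0 h1
  have hprod : ∀ s : Finset (Fin r), θ ^ r ≤ ∏ i ∈ s, (‖γ₁ i‖ * ‖e i‖ / ‖c i‖) ∧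
      ∏ i ∈ s, (‖γ₁ i‖ * ‖e i‖ / ‖c i‖) ≤ 1 := by
    intro s
    constructor
    · calc θ ^ r ≤ θ ^ s.card := pow_le_pow_of_le_one h0.le h1.le
            (by simpa using Finset.card_le_univ s)
        _ = ∏ _i ∈ s, θ := by rw [Finset.prod_const]
        _ ≤ _ := Finset.prod_le_prod (fun _ _ => h0.le) fun i _ => (hγ1 i).le
    · exact Finset.prod_le_one (fun i _ => by positivity) fun i _ => (hγ2 i).le
  have hθr : 0 < θ ^ r := pow_pos h0 r
  rcases Fin.eq_zero_or_eq_succ i₀ with rfl | ⟨j, rfl⟩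
  · refine ⟨γ₁, hγ0, ?_, ?_⟩
    · intro i
      rcases Fin.eq_zero_or_eq_succ i with rfl | ⟨i, rfl⟩
      · rw [S3_tor_zero]
        simp only [norm_mul, norm_algebraMap']
        have h3 := (hprod Finset.univ).1
        rw [div_le_one (hθr.trans_le h3)]
        refine hθ.le.trans (le_trans ?_ h3)
        rw [pow_succ]
        exact mul_le_of_le_one_right hθr.le h1.le
      · rw [S3_tor_succ]
        simp only [norm_mul, norm_algebraMap']
        exact (hγ2 i).le
    · intro i hi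
      rcases Fin.eq_zero_or_eq_succ i with rfl | ⟨i, rfl⟩
      · exact absurd rfl hi
      · rw [S3_tor_succ]
        simp only [norm_mul, norm_algebraMap']
        exact (hγ1 i).le
  · set P : ℝ := ∏ i ∈ Finset.univ.erase j, (‖γ₁ i‖ * ‖e i‖ / ‖c i‖) with hP
    have hP1 := (hprod (Finset.univ.erase j)).1
    have hP2 := (hprod (Finset.univ.erase j)).2
    rw [← hP] at hP1 hP2
    have hP0 : 0 < P := hθr.trans_le hP1
    obtain ⟨g, hg0, hg1, hg2⟩ := hex j (‖π‖ / P) (‖π‖ / (θ * P)) (by positivity) (by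
      apply div_lt_div_of_pos_left hπp (by positivity)
      exact mul_lt_of_lt_one_left hP0 h1)
    refine ⟨Function.update γ₁ j g, ?_, ?_, ?_⟩
    · intro i
      rcases eq_or_ne i j with rfl | hij
      · rw [Function.update_self]; exact hg0
      · rw [Function.update_of_ne hij]; exact hγ0 i
    all_goals
      have hz : ‖tor k (fun i => algebraMap k L (Function.update γ₁ j g i) * e i) c π 0‖ =
          ‖π‖ / ((‖g‖ * ‖e j‖ / ‖c j‖) * P) := by
        rw [S3_tor_zero]
        simp only [norm_mul, norm_algebraMap']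
        rw [← Finset.mul_prod_erase Finset.univ _ (Finset.mem_univ j), Function.update_self, hP]
        congr 2
        refine Finset.prod_congr rfl fun i hi => ?_
        rw [Function.update_of_ne (Finset.ne_of_mem_erase hi)]
      have hgp : 0 < ‖g‖ * ‖e j‖ / ‖c j‖ := (by positivity : 0 < ‖π‖ / P).trans hg1
    · intro i
      rcases Fin.eq_zero_or_eq_succ i with rfl | ⟨i, rfl⟩
      · rw [hz, div_le_one (by positivity)]
        rw [div_lt_iff₀ hP0] at hg1
        exact hg1.le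
      · rw [S3_tor_succ]
        simp only [norm_mul, norm_algebraMap']
        rcases eq_or_ne i j with rfl | hij
        · rw [Function.update_self]
          refine hg2.le.trans ?_
          rw [div_le_one (by positivity)]
          calc ‖π‖ ≤ θ ^ (r + 1) := hθ.le
            _ = θ * θ ^ r := by rw [pow_succ, mul_comm]
            _ ≤ θ * P := mul_le_mul_of_nonneg_left hP1 h0.le
        · rw [Function.update_of_ne hij]
          exact (hγ2 i).le
    · intro i hi
      rcases Fin.eq_zero_or_eq_succ i with rfl | ⟨i, rfl⟩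
      · rw [hz, le_div_iff₀ (by positivity)]
        rw [lt_div_iff₀ (by positivity)] at hg2
        nlinarith
      · rw [S3_tor_succ]
        simp only [norm_mul, norm_algebraMap']
        rcases eq_or_ne i j with rfl | hij
        · exact absurd rfl hi
        · rw [Function.update_of_ne hij]
          exact (hγ1 i).le

omit [IsUltrametricDist k] [IsAlgClosed k] [IsUltrametricDist L] in
/-- exponents with a zero -/
private theorem S3_expo (z : Fin r → ℤ) : ∃ n : Fin (r + 1) → ℕ, (∃ i₀, n i₀ = 0) ∧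
    ∀ (c : Fin r → k) (π : k), (∀ i, c i ≠ 0) → π ≠ 0 → ∀ a : k,
      ∃ a'' : k, ∀ f : Fin r → L, (∀ i, f i ≠ 0) →
        mon k f z a = algebraMap k L a'' * ∏ i, tor k f c π i ^ n i := by
  classical
  -- the maximum of `0` and the `- z i`
  obtain ⟨N, hN1, hN2⟩ : ∃ N : ℕ, (∀ i, 0 ≤ z i + N) ∧ (N = 0 ∨ ∃ i, z i + N = 0) := by
    by_cases hr : ∀ i, 0 ≤ z i
    · exact ⟨0, fun i => by simpa using hr i, Or.inl rfl⟩
    · push Not at hr
      obtain ⟨i1, hi1⟩ := hr
      obtain ⟨j, -, hj⟩ := Finset.exists_min_image Finset.univ z ⟨i1, Finset.mem_univ i1⟩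
      refine ⟨(z j).natAbs, fun i => ?_, Or.inr ⟨j, ?_⟩⟩
      · have h1 := hj i (Finset.mem_univ i)
        have h2 := hj i1 (Finset.mem_univ i1)
        omega
      · have h2 := hj i1 (Finset.mem_univ i1)
        omega
  refine ⟨Fin.cons N fun i => (z i + N).toNat, ?_, fun c π hc hπ a =>
    ⟨a * (∏ i, c i ^ z i) / π ^ N, fun f hf => ?_⟩⟩
  · rcases hN2 with h | ⟨i, hi⟩
    · exact ⟨0, by rw [Fin.cons_zero, h]⟩
    · exact ⟨i.succ, by rw [Fin.cons_succ, hi]; rfl⟩
  have hc' : ∀ i, algebraMap k L (c i) ≠ 0 := fun i => (_root_.map_ne_zero _).2 (hc i)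
  have hπ' : algebraMap k L π ≠ 0 := (_root_.map_ne_zero _).2 hπ
  have hsu : ∀ i : Fin r, tor k f c π i.succ = f i / algebraMap k L (c i) := fun i => by
    simp only [tor, Fin.cons_succ]
  have ht : ∀ i : Fin r, tor k f c π i.succ ≠ 0 := fun i => by
    rw [hsu]
    exact div_ne_zero (hf i) (hc' i)
  rw [Fin.prod_univ_succ]
  simp only [Fin.cons_zero, Fin.cons_succ]
  have h1 : ∏ i : Fin r, tor k f c π i.succ ^ (z i + N).toNat =
      (∏ i : Fin r, tor k f c π i.succ ^ z i) * (∏ i : Fin r, tor k f c π i.succ) ^ N := by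
    rw [← Finset.prod_pow, ← Finset.prod_mul_distrib]
    refine Finset.prod_congr rfl fun i _ => ?_
    rw [← zpow_natCast, Int.toNat_of_nonneg (hN1 i), zpow_add₀ (ht i), zpow_natCast]
  have h2 : tor k f c π 0 * ∏ i : Fin r, tor k f c π i.succ = algebraMap k L π := by
    simp only [hsu]
    simp only [tor, Fin.cons_zero]
    rw [mul_assoc, ← Finset.prod_mul_distrib, Finset.prod_eq_one, mul_one]
    intro i _
    rw [div_mul_div_comm, mul_comm (f i), div_self (mul_ne_zero (hc' i) (hf i))]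
  have h3 : ∏ i : Fin r, tor k f c π i.succ ^ z i =
      (∏ i, f i ^ z i) / ∏ i, algebraMap k L (c i) ^ z i := by
    rw [← Finset.prod_div_distrib]
    refine Finset.prod_congr rfl fun i _ => ?_
    rw [hsu, div_zpow]
  have h4 : ∏ i, algebraMap k L (c i) ^ z i ≠ 0 :=
    Finset.prod_ne_zero_iff.2 fun i _ => zpow_ne_zero _ (hc' i)
  rw [h1, mul_left_comm (tor k f c π 0 ^ N), ← mul_pow, h2, h3, map_div₀, map_mul, map_prod,
    map_pow]
  simp only [map_zpow₀]
  unfold mon
  field_simp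

/-- S3c (coefficients).  Suppose `‖mon k (γ e) z a‖ ≤ 1` for all `γ` as in S3b. Then
`mon k e z a ∈ Tt k e c π`.  Proof.  Let `n, a''` be as in `exists_tor_exp` (module S1), where
`n i₀ = 0` for some `i₀` (if `N = 0` then `n 0 = 0`; otherwise `z i + N = 0` for some `i`; include this in a
private version of `exists_tor_exp`; `a'' = a * ∏ c i ^ z i / π ^ N` does not change if `e` is replaced by
`γ e`). We must show `‖a''‖ ≤ 1`. For `η < 1` choose `γ` such that
`‖σ (t i)‖ > η` for all `i ≠ i₀` and `‖σ (t i)‖ < 1` for all `i` (the product of the `σ (t i)` is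
`π`, `‖π‖ < 1`; the norms of `k` are dense, so the norms `‖γ i e i / c i‖ = ‖σ (t (i+1))‖`, `i = 0, …, r-1`, can
be prescribed arbitrarily up to small errors: if `i₀ = 0` all of them in `(η, 1)`; otherwise all except the one for
`i₀` very close to `1`, and the one for `i₀` in `(‖π‖, ‖π‖ / η)` divided by the product of the others). Then
`‖a''‖ * ∏_{i ≠ i₀} ‖σ (t i)‖ ^ n i ≤ 1`, so `‖a''‖ ≤ η ^ (- ∑ n i)`; let `η → 1`. -/
theorem mem_tor_of_rescale (hne : ∀ i, e i ≠ 0) {c : Fin r → k} {π : k}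
    (hc : ∀ i, c i ≠ 0) (hπ : π ≠ 0) (hπ1 : ‖π‖ < 1) (z : Fin r → ℤ) (a : k)
    (h : ∀ γ : Fin r → k, (∀ i, γ i ≠ 0) →
      (∀ i, ‖tor k (fun i => algebraMap k L (γ i) * e i) c π i‖ ≤ 1) →
      ‖mon k (fun i => algebraMap k L (γ i) * e i) z a‖ ≤ 1) :
    mon k e z a ∈ Tt k e c π := by
  classical
  obtain ⟨n, ⟨i₀, hi₀⟩, hn⟩ := S3_expo (k := k) (L := L) z
  obtain ⟨a'', ha''⟩ := hn c π hc hπ a
  have ha1 : ‖a''‖ ≤ 1 := by
    by_contra hcon
    rw [not_le] at hcon
    have hq : max ‖π‖ (‖a''‖)⁻¹ < 1 := max_lt hπ1 (inv_lt_one_of_one_lt₀ hcon)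
    obtain ⟨θ, h0, h1, hθ⟩ := S3_theta hq (r + 1 + ∑ i, n i)
    have hθ1 : ‖π‖ < θ ^ (r + 1) :=
      ((le_max_left _ _).trans_lt hθ).trans_le
        (pow_le_pow_of_le_one h0.le h1.le (Nat.le_add_right _ _))
    have hθ2 : (‖a''‖)⁻¹ < θ ^ (∑ i, n i) :=
      ((le_max_right _ _).trans_lt hθ).trans_le
        (pow_le_pow_of_le_one h0.le h1.le (Nat.le_add_left _ _))
    obtain ⟨γ, hγ0, hγ1, hγ2⟩ := S3_gamma (L := L) hne hc hπ h0 h1 hθ1 i₀
    have h2 := h γ hγ0 hγ1
    rw [ha'' _ (fun i => mul_ne_zero ((_root_.map_ne_zero _).2 (hγ0 i)) (hne i)), norm_mul,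
      norm_algebraMap', norm_prod] at h2
    have h3 : θ ^ (∑ i, n i) ≤
        ∏ i, ‖tor k (fun i => algebraMap k L (γ i) * e i) c π i ^ n i‖ := by
      rw [← Finset.prod_pow_eq_pow_sum]
      refine Finset.prod_le_prod (fun i _ => pow_nonneg h0.le _) fun i _ => ?_
      rw [norm_pow]
      rcases eq_or_ne i i₀ with rfl | hi
      · rw [hi₀, pow_zero, pow_zero]
      · exact pow_le_pow_left₀ h0.le (hγ2 i hi) _
    have ha0 : 0 < ‖a''‖ := zero_lt_one.trans hcon
    have h4 : 1 < ‖a''‖ * θ ^ (∑ i, n i) := by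
      rw [inv_lt_iff_one_lt_mul₀ ha0, mul_comm] at hθ2
      exact hθ2
    have h5 := mul_le_mul_of_nonneg_left h3 ha0.le
    linarith
  rw [ha'' e hne]
  have ht : ∀ i, tor k e c π i ∈ Tt k e c π := fun i =>
    Algebra.subset_adjoin (Set.mem_range_self i)
  exact mul_mem ((Tt k e c π).algebraMap_mem ⟨a'', mem_O.2 ha1⟩) (prod_mem fun i _ =>
    pow_mem (ht i) _)

/-- S3.  Proof.  Let `x` be in the fraction field of `Tt k e c π`, i.e. (up to isomorphism) `x ∈ k(e) ≤ L`, integral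
over `Tt k e c π`. S3a, S3b and S3c show that `x ∈ Tt k e c π`. (Use e.g.
`isIntegrallyClosed_iff` with the fraction field `IntermediateField.adjoin k (Set.range e)`.) -/
theorem isIntegrallyClosed_tor (hne : ∀ i, e i ≠ 0)
    (hind : ∀ (z : Fin r → ℤ) (c : k), ‖c‖ = ‖∏ i, e i ^ z i‖ → z = 0) {c : Fin r → k} {π : k}
    (hc : ∀ i, c i ≠ 0) (hπ : π ≠ 0) (hπ1 : ‖π‖ < 1) :
    IsIntegrallyClosed ↥(Tt k e c π) := by
  classical
  set Λ := Algebra.adjoin k (Set.range e ∪ Set.range fun i => (e i)⁻¹) with hΛ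
  have hΛe : ∀ i, e i ∈ Λ := fun i => Algebra.subset_adjoin (Or.inl ⟨i, rfl⟩)
  have hΛi : ∀ i, (e i)⁻¹ ∈ Λ := fun i => Algebra.subset_adjoin (Or.inr ⟨i, rfl⟩)
  have hTΛ : ∀ y ∈ Tt k e c π, y ∈ Λ := by
    intro y hy
    unfold Tt at hy
    induction hy using Algebra.adjoin_induction with
    | mem y hy =>
      obtain ⟨i, rfl⟩ := hy
      rcases Fin.eq_zero_or_eq_succ i with rfl | ⟨i, rfl⟩
      · simp only [tor, Fin.cons_zero]
        refine mul_mem (Λ.algebraMap_mem _) (prod_mem fun i _ => ?_)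
        rw [div_eq_mul_inv]
        exact mul_mem (Λ.algebraMap_mem _) (hΛi i)
      · simp only [tor, Fin.cons_succ]
        rw [div_eq_mul_inv, ← map_inv₀]
        exact mul_mem (hΛe i) (Λ.algebraMap_mem _)
    | algebraMap a => exact Λ.algebraMap_mem (a : k)
    | add x y _ _ hx hy => exact add_mem hx hy
    | mul x y _ _ hx hy => exact mul_mem hx hy
  have hTK : ∀ y ∈ Tt k e c π, y ∈ IntermediateField.adjoin k (Set.range e) := by
    have hle : Λ ≤ (IntermediateField.adjoin k (Set.range e)).toSubalgebra := by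
      refine Algebra.adjoin_le ?_
      rintro y (⟨i, rfl⟩ | ⟨i, rfl⟩)
      · exact IntermediateField.subset_adjoin k _ ⟨i, rfl⟩
      · exact (IntermediateField.adjoin k (Set.range e)).inv_mem
          (IntermediateField.subset_adjoin k _ ⟨i, rfl⟩)
    exact fun y hy => hle (hTΛ y hy)
  rw [isIntegrallyClosed_iff (FractionRing ↥(Tt k e c π))]
  intro x hx
  let f : FractionRing ↥(Tt k e c π) →ₐ[↥(Tt k e c π)] L :=
    IsFractionRing.liftAlgHom (K := FractionRing ↥(Tt k e c π))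
      (g := Algebra.ofId ↥(Tt k e c π) L) Subtype.val_injective
  have hf : Function.Injective f := f.toRingHom.injective
  have h1 : IsIntegral ↥(Tt k e c π) (f x) := (isIntegral_algHom_iff f hf).2 hx
  have h2 : f x ∈ IntermediateField.adjoin k (Set.range e) := by
    obtain ⟨p, q, -, hpq⟩ := IsFractionRing.div_surjective (A := ↥(Tt k e c π)) x
    rw [← hpq, map_div₀, f.commutes, f.commutes]
    exact div_mem (hTK _ p.2) (hTK _ q.2)
  have h3 : IsIntegral ↥Λ (f x) := by
    refine S3_int (ψ := (algebraMap ↥(Tt k e c π) L).codRestrict Λ.toSubring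
      fun b => hTΛ _ b.2) ?_ h1
    rfl
  obtain ⟨Z, a, hZ⟩ := laurent_of_integral hne hind h2 h3
  have h4 : f x ∈ Tt k e c π := by
    rw [hZ]
    refine sum_mem fun z hz => ?_
    refine mem_tor_of_rescale hne hc hπ hπ1 z (a z) fun γ hγ0 hγ1 => ?_
    rw [hZ] at h1
    exact norm_rescale_le hne hind hc hπ hγ0 hγ1 h1 hz
  refine ⟨⟨f x, h4⟩, hf ?_⟩
  rw [f.commutes]
  rfl

end

end DA
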