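import Pool.Agent.Lib.DA.Defs

/-!
# Module V1: subspaces which meet `f A` trivially
-/

namespace DA

open Polynomial MP1a953e

/-- V1.  Proof.  Let `D₀` be as in `growth`. `Y ≤ V D'` for some `D'` (`Y` is finitely generated, `mem`,
`mono`); let `D ≥ D'`, `D ≥ D₀ + d`. The map `V (D - d) → V D`, `x ↦ f * x` is injective, its image
meets `Y` trivially, so `finrank Y + finrank V (D-d) ≤ finrank V D = finrank V (D-d) + n * d` by
`growth` (`d` times). -/
theorem Filt.bound {k L : Type*} [Field k] [Field L] [Algebra k L] {M : IntermediateField k L}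
    {A : Subring L} {V : ℕ → Submodule M L} {n : ℕ} (h : Filt M A V n) {d : ℕ} {f : L}
    (hf : f ∈ V d) (hf0 : f ≠ 0) (Y : Submodule M L) [Module.Finite M Y] (hY : ∀ y ∈ Y, y ∈ A)
    (hYf : ∀ y ∈ Y, ∀ c ∈ A, y = f * c → y = 0) : Module.finrank M Y ≤ n * d := by
  classical
  obtain ⟨D₀, hD₀⟩ := h.growth
  -- a common bound for `Y`
  obtain ⟨D', hD'⟩ : ∃ D', Y ≤ V D' := by
    have hYfg : Y.FG := Module.Finite.iff_fg.1 inferInstance
    obtain ⟨S, hS⟩ := hYfg
    have h1 : ∀ s : L, ∃ D, s ∈ S → s ∈ V D := by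
      intro s
      by_cases hs : s ∈ S
      · obtain ⟨D, hD⟩ := (h.mem s).1 (hY s (by
          rw [← hS]
          exact Submodule.subset_span hs))
        exact ⟨D, fun _ => hD⟩
      · exact ⟨0, fun h => absurd h hs⟩
    choose D hD using h1
    refine ⟨S.sup D, ?_⟩
    rw [← hS, Submodule.span_le]
    intro s hs
    exact h.mono (Finset.le_sup (f := D) hs) (hD s hs)
  set E := max D' D₀ with hE
  have hfinV : ∀ D, Module.Finite M (V D) := h.fin
  have hYE : Y ≤ V (d + E) := hD'.trans (h.mono (by omega))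
  let X : Submodule M L := (V E).map (LinearMap.mulLeft M f)
  have hX : X ≤ V (d + E) := by
    rintro _ ⟨g, hg, rfl⟩
    exact h.mul d E f hf g hg
  have hXfin : Module.finrank M X = Module.finrank M (V E) := by
    have hinj : Function.Injective (LinearMap.mulLeft M f) := fun a b hab =>
      mul_left_cancel₀ hf0 (by simpa using hab)
    exact (LinearEquiv.finrank_eq (Submodule.equivMapOfInjective _ hinj (V E))).symm
  have hXY : X ⊓ Y = ⊥ := by
    rw [eq_bot_iff]
    rintro x ⟨⟨g, hg, hgx⟩, hxY⟩
    exact (Submodule.mem_bot M).2 (hYf x hxY g ((h.mem g).2 ⟨E, hg⟩) (by simpa using hgx.symm))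
  have hgrow : ∀ j, Module.finrank M (V (E + j)) = Module.finrank M (V E) + n * j := by
    intro j
    induction j with
    | zero => simp
    | succ j ih =>
      rw [← add_assoc, hD₀ (E + j) (by omega), ih]
      ring
  have : Module.Finite M X := by
    have : Module.Finite M (V E) := hfinV E
    exact Module.Finite.map (V E) (LinearMap.mulLeft M f)
  have hsum := Submodule.finrank_sup_add_finrank_inf_eq X Y
  rw [hXY, finrank_bot, add_zero] at hsum
  have : Module.Finite M (V (d + E)) := hfinV _
  have hle : Module.finrank M ↥(X ⊔ Y) ≤ Module.finrank M (V (d + E)) :=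
    Submodule.finrank_mono (sup_le hX hYE)
  rw [hsum, hXfin, add_comm d E, hgrow d] at hle
  omega

end DA
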