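import Pool.Agent.Lib.DA.Defs
import Pool.Agent.Lib.MP_1a953e_ag.Tr1

/-!
# Module W0: an algebraically closed field with a generic element of norm `s`
-/

namespace DA

open Polynomial MP1a953e

universe v

/-- W0.  Proof.  On the fraction field `K` of `E[X]` let `v (P / Q) = gn s P / gn s Q`: well defined, and
an absolute value, nonarchimedean, by `Polynomial.gaussNorm_mul`, `gaussNorm_isAbsoluteValue`,
`isNonarchimedean_gaussNorm` (for `v = nabs E`; `gn` is `gaussNorm`). `W = WithAbs v` is an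
ultrametric normed field; `exists_emb2 W` gives `Ω` and `ι' : W → Ω` isometric; `ι = ι' ∘ C`,
`ξ = ι' X`; `P.eval₂ ι ξ = ι' P`. -/
theorem exists_gauss_ext (E : Type v) [NormedField E] [IsUltrametricDist E]
    (hnt : ∃ x : E, 1 < ‖x‖) {s : ℝ} (hs : 0 < s) :
    ∃ (Ω : Type v) (_ : NormedField Ω), IsUltrametricDist Ω ∧ IsAlgClosed Ω ∧
      ∃ (ι : E →+* Ω) (ξ : Ω), ∀ P : E[X], ‖P.eval₂ ι ξ‖ = gn s P := by
  have hna : IsNonarchimedean (nabs E) := fun x y => IsUltrametricDist.norm_add_le_max x y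
  have hg0 : ∀ P : E[X], 0 ≤ gn s P := fun P => P.gaussNorm_nonneg (nabs E) hs.le
  have hC : ∀ c : E, gn s (C c) = ‖c‖ := fun c => gaussNorm_C (nabs E) s c
  let vP : Valuation E[X] NNReal :=
    { toFun := fun P => ⟨gn s P, hg0 P⟩
      map_zero' := Subtype.ext (gaussNorm_zero (nabs E) s)
      map_one' := Subtype.ext (by
        have h1 := hC 1
        rw [map_one, norm_one] at h1
        exact h1)
      map_mul' := fun P Q => Subtype.ext (gaussNorm_mul hna hs P Q)
      map_add_le_max' := fun P Q => by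
        have h1 : gn s (P + Q) ≤ max (gn s P) (gn s Q) :=
          isNonarchimedean_gaussNorm (nabs E) hna hs.le P Q
        rcases le_max_iff.1 h1 with h | h
        · exact le_max_iff.2 (Or.inl h)
        · exact le_max_iff.2 (Or.inr h) }
  have hvP : ∀ P : E[X], ((vP P : NNReal) : ℝ) = gn s P := fun P => rfl
  have hS : nonZeroDivisors E[X] ≤ vP.supp.primeCompl := by
    intro P hP hP'
    have h1 : vP P = 0 := hP'
    have h2 : gn s P = 0 := by rw [← hvP, h1, NNReal.coe_zero]
    have h3 : P = 0 := (gaussNorm_eq_zero_iff (nabs E) P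
      (fun x hx => (AbsoluteValue.eq_zero (nabs E)).1 hx) hs).1 h2
    exact nonZeroDivisors.ne_zero hP h3
  let K := FractionRing E[X]
  let vK : Valuation K NNReal := vP.extendToLocalization hS K
  have hvK : ∀ P : E[X], ((vK (algebraMap E[X] K P) : NNReal) : ℝ) = gn s P := fun P => by
    rw [← hvP]
    exact congrArg _ (Valuation.extendToLocalization_apply_map_apply vP hS K P)
  have hadd : ∀ x y : K, ((vK (x + y) : NNReal) : ℝ) ≤ max ((vK x : NNReal) : ℝ) (vK y) := by
    intro x y
    rw [← NNReal.coe_max]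
    exact_mod_cast vK.map_add x y
  let aK : AbsoluteValue K ℝ :=
    { toFun := fun x => ((vK x : NNReal) : ℝ)
      map_mul' := fun x y => by rw [map_mul, NNReal.coe_mul]
      nonneg' := fun x => NNReal.coe_nonneg _
      eq_zero' := fun x => by
        rw [NNReal.coe_eq_zero, Valuation.zero_iff]
      add_le' := fun x y => (hadd x y).trans
        (max_le_add_of_nonneg (NNReal.coe_nonneg _) (NNReal.coe_nonneg _)) }
  let nK : NormedField K := aK.toNormedField
  have hn : ∀ x : K, ‖x‖ = ((vK x : NNReal) : ℝ) := fun x => rfl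
  have hu : IsUltrametricDist K :=
    IsUltrametricDist.isUltrametricDist_of_isNonarchimedean_norm fun x y => by
      rw [hn, hn, hn]
      exact hadd x y
  have hnt' : ∃ x : K, 1 < ‖x‖ := by
    obtain ⟨x, hx⟩ := hnt
    refine ⟨algebraMap E[X] K (C x), ?_⟩
    rw [hn, hvK, hC]
    exact hx
  obtain ⟨Ω, nΩ, huΩ, hac, ι, K', hE, -⟩ := exists_emb2 K hnt'
  refine ⟨Ω, nΩ, huΩ, hac, (ι.comp (algebraMap E[X] K)).comp C, ι (algebraMap E[X] K X),
    fun P => ?_⟩
  have h1 : P.eval₂ ((ι.comp (algebraMap E[X] K)).comp C) (ι (algebraMap E[X] K X)) =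
      ι (algebraMap E[X] K P) := by
    have h2 := Polynomial.hom_eval₂ P C (ι.comp (algebraMap E[X] K)) X
    rw [eval₂_C_X] at h2
    exact h2.symm
  rw [h1, hE.norm, hn, hvK]

end DA
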