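import Pool.Agent.Lib.DA.Defs

/-!
# Module W1: the Gauss norm `gn`
-/

namespace DA

open Polynomial MP1a953e

section
variable {E : Type*} [NormedField E]

private theorem nabs_apply (x : E) : nabs E x = ‖x‖ := rfl

theorem coeff_le_gn {s : ℝ} (hs : 0 ≤ s) (P : E[X]) (i : ℕ) : ‖P.coeff i‖ * s ^ i ≤ gn s P :=
  Polynomial.le_gaussNorm (nabs E) P hs i

theorem exists_gn_eq (s : ℝ) (P : E[X]) : ∃ i, gn s P = ‖P.coeff i‖ * s ^ i :=
  Polynomial.exists_eq_gaussNorm (nabs E) s P

theorem gn_le {s B : ℝ} (P : E[X]) (h : ∀ i, ‖P.coeff i‖ * s ^ i ≤ B) : gn s P ≤ B := by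
  obtain ⟨i, hi⟩ := exists_gn_eq s P
  rw [hi]
  exact h i

theorem gn_nonneg {s : ℝ} (hs : 0 ≤ s) (P : E[X]) : 0 ≤ gn s P :=
  Polynomial.gaussNorm_nonneg (nabs E) P hs

theorem gn_pos {s : ℝ} (hs : 0 < s) {P : E[X]} (hP : P ≠ 0) : 0 < gn s P := by
  refine lt_of_le_of_ne (gn_nonneg hs.le P) fun h => hP ?_
  exact (Polynomial.gaussNorm_eq_zero_iff (nabs E) P
    (fun x hx => (AbsoluteValue.eq_zero (nabs E)).mp hx) hs).1 h.symm

theorem gn_C (s : ℝ) (c : E) : gn s (C c) = ‖c‖ :=
  Polynomial.gaussNorm_C (nabs E) s c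

theorem gn_mono {s s' : ℝ} (hs : 0 ≤ s) (h : s ≤ s') (P : E[X]) : gn s P ≤ gn s' P := by
  refine gn_le P fun i => le_trans ?_ (coeff_le_gn (hs.trans h) P i)
  exact mul_le_mul_of_nonneg_left (pow_le_pow_left₀ hs h i) (norm_nonneg _)

/-- `gn s P` is a maximum of finitely many monomials in `s` (over the support of `P`). -/
theorem continuous_gn (P : E[X]) : Continuous fun s => gn s P := by
  by_cases hP : P.support.Nonempty
  · have : (fun s => gn s P) = fun s => P.support.sup' hP fun i => ‖P.coeff i‖ * s ^ i := by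
      funext s
      simp only [gn, Polynomial.gaussNorm, hP, ↓reduceDIte]
      rfl
    rw [this]
    exact Continuous.finset_sup'_apply hP fun i _ => by fun_prop
  · have h0 : P = 0 := by
      by_contra h
      exact hP (Polynomial.support_nonempty.2 h)
    subst h0
    have : (fun s => gn s (0 : E[X])) = fun _ => 0 := by
      funext s
      simp [gn]
    rw [this]
    exact continuous_const

theorem norm_eval_le_gn (z : E) {s : ℝ} (hs : 0 ≤ s) (P : E[X]) :
    ‖P.eval z‖ ≤ gn s (taylor z P) := by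
  have h := coeff_le_gn hs (taylor z P) 0
  rwa [Polynomial.taylor_coeff_zero, pow_zero, mul_one] at h

end

section
variable {E : Type*} [NormedField E] [IsUltrametricDist E]

private theorem nabs_na : IsNonarchimedean (nabs E) := fun x y =>
  IsUltrametricDist.norm_add_le_max x y

theorem gn_mul {s : ℝ} (hs : 0 < s) (P Q : E[X]) : gn s (P * Q) = gn s P * gn s Q :=
  Polynomial.gaussNorm_mul nabs_na hs P Q

theorem gn_add {s : ℝ} (hs : 0 < s) (P Q : E[X]) : gn s (P + Q) ≤ max (gn s P) (gn s Q) :=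
  Polynomial.isNonarchimedean_gaussNorm (nabs E) nabs_na hs.le P Q

private theorem gn_X_add_C (s : ℝ) (hs : 0 < s) (c : E) : gn s (X + C c) = max ‖c‖ s := by
  apply le_antisymm
  · refine (gn_add hs _ _).trans ?_
    rw [gn_C, max_comm]
    refine max_le_max le_rfl (gn_le _ fun i => ?_)
    by_cases hi : i = 1
    · subst hi
      simp
    · rw [Polynomial.coeff_X_of_ne_one hi]
      simpa using hs.le
  · apply max_le
    · have := coeff_le_gn hs.le (X + C c) 0
      simpa using this
    · have := coeff_le_gn hs.le (X + C c) 1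
      simpa [Polynomial.coeff_C] using this

theorem gn_taylor_X_sub_C (s : ℝ) (hs : 0 < s) (z b : E) :
    gn s (taylor z (X - C b)) = max ‖z - b‖ s := by
  have : taylor z (X - C b) = X + C (z - b) := by
    rw [map_sub, Polynomial.taylor_X, Polynomial.taylor_C, C_sub]
    ring
  rw [this, gn_X_add_C s hs]

private theorem gn_pow {s : ℝ} (hs : 0 < s) (P : E[X]) (n : ℕ) : gn s (P ^ n) = gn s P ^ n := by
  induction n with
  | zero =>
    rw [pow_zero, pow_zero, ← C_1, gn_C, norm_one]
  | succ n ih => rw [pow_succ, pow_succ, gn_mul hs, ih]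

private theorem gn_sum_le {s : ℝ} (hs : 0 < s) {ι : Type*} (S : Finset ι) (f : ι → E[X]) {B : ℝ}
    (hB : 0 ≤ B) (h : ∀ i ∈ S, gn s (f i) ≤ B) : gn s (∑ i ∈ S, f i) ≤ B := by
  classical
  induction S using Finset.induction_on with
  | empty => simpa [gn] using hB
  | insert a S ha ih =>
    rw [Finset.sum_insert ha]
    refine (gn_add hs _ _).trans (max_le (h a (Finset.mem_insert_self _ _)) (ih fun i hi => ?_))
    exact h i (Finset.mem_insert_of_mem hi)

private theorem gn_taylor_le {s : ℝ} (hs : 0 < s) {c : E} (h : ‖c‖ ≤ s) (Q : E[X]) :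
    gn s (taylor c Q) ≤ gn s Q := by
  rw [Polynomial.taylor_apply, Polynomial.comp_eq_sum_left, Polynomial.sum]
  refine gn_sum_le hs _ _ (gn_nonneg hs.le Q) fun i _ => ?_
  rw [gn_mul hs, gn_C, gn_pow hs, gn_X_add_C s hs, max_eq_right h]
  exact coeff_le_gn hs.le Q i

/-- the Gauss norm of the disc of radius `s` around `z` does not depend on the centre -/
theorem gn_taylor_centre {s : ℝ} (hs : 0 < s) {z b : E} (h : ‖z - b‖ ≤ s) (P : E[X]) :
    gn s (taylor z P) = gn s (taylor b P) := by
  apply le_antisymm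
  · have h1 := gn_taylor_le hs h (taylor b P)
    rwa [Polynomial.taylor_taylor, sub_add_cancel] at h1
  · have h' : ‖b - z‖ ≤ s := by rwa [norm_sub_rev]
    have h1 := gn_taylor_le hs h' (taylor z P)
    rwa [Polynomial.taylor_taylor, sub_add_cancel] at h1

end

end DA
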