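import Pool.Agent.Lib.DA.W1
import Pool.Agent.Lib.MP_1a953e_ag.DImmA

/-!
# Module W1b: radii for which a polynomial over `C` has no zero near `z`
-/

namespace DA

open Polynomial MP1a953e

variable {E : Type*} [NormedField E] [IsUltrametricDist E]

theorem NA.infDist_lt {C : Subfield E} {z : E} (hz : NA C z) {b : E} (hb : b ∈ C) :
    Metric.infDist z (C : Set E) < ‖z - b‖ := by
  obtain ⟨b', hb', hlt⟩ := hz b hb
  refine lt_of_le_of_lt (Metric.infDist_le_dist_of_mem (show b' ∈ (C : Set E) from hb')) ?_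
  rwa [dist_eq_norm]

theorem NA.notMem {C : Subfield E} {z : E} (hz : NA C z) : z ∉ C := by
  intro h
  obtain ⟨b', -, hlt⟩ := hz z h
  rw [sub_self, norm_zero] at hlt
  exact absurd hlt (not_lt.2 (norm_nonneg _))

/-- `z` is not algebraic over the algebraically closed field `C` -/
theorem NA.eval_ne {C : Subfield E} (hC : IsAlgClosed C) {z : E} (hz : NA C z) {Q : E[X]}
    (hQ : Coeffs C Q) (hQ0 : Q ≠ 0) : Q.eval z ≠ 0 := fun h =>
  hz.notMem (mem_of_eval_eq_zero hC hQ hQ0 h)

private theorem exists_radius_prod {C : Subfield E} {z : E} (hz : NA C z) (m : Multiset C) :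
    ∃ s₁, Metric.infDist z (C : Set E) < s₁ ∧
      ∀ s, 0 < s → s ≤ s₁ →
        gn s (taylor z (m.map fun a : C => (X - Polynomial.C (a : E))).prod) =
          ‖((m.map fun a : C => (X - Polynomial.C (a : E))).prod).eval z‖ := by
  induction m using Multiset.induction_on with
  | empty =>
    refine ⟨Metric.infDist z (C : Set E) + 1, by linarith, fun s hs _ => ?_⟩
    simp only [Multiset.map_zero, Multiset.prod_zero]
    rw [← Polynomial.C_1, Polynomial.taylor_C, gn_C, Polynomial.eval_C]
  | cons a m ih =>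
    obtain ⟨s₁, h1, h2⟩ := ih
    refine ⟨min s₁ ‖z - a‖, lt_min h1 (hz.infDist_lt a.2), fun s hs hle => ?_⟩
    rw [Multiset.map_cons, Multiset.prod_cons, Polynomial.taylor_mul, gn_mul hs,
      h2 s hs (hle.trans (min_le_left _ _)), gn_taylor_X_sub_C s hs, Polynomial.eval_mul,
      norm_mul, max_eq_left (hle.trans (min_le_right _ _)), Polynomial.eval_sub,
      Polynomial.eval_X, Polynomial.eval_C]

/-- W1b.  Proof.  `Q = a * ∏ (X - C b_i)` with `a, b_i ∈ C` (`C` is algebraically closed). By `gn_mul`,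
`gn_taylor_X_sub_C` the Gauss norm is `‖a‖ * ∏ max ‖z - b_i‖ s`, which is `‖Q z‖` for
`s ≤ min ‖z - b_i‖`, and this minimum is bigger than the distance (`NA.infDist_lt`). -/
theorem exists_reg_radius {C : Subfield E} (hC : IsAlgClosed C) {z : E} (hz : NA C z) {Q : E[X]}
    (hQ : Coeffs C Q) (hQ0 : Q ≠ 0) :
    ∃ s₁, Metric.infDist z (C : Set E) < s₁ ∧
      ∀ s, 0 < s → s ≤ s₁ → gn s (taylor z Q) = ‖Q.eval z‖ := by
  have hl : Q ∈ lifts (algebraMap C E) := by
    rw [lifts_iff_coeff_lifts]
    intro n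
    exact ⟨⟨Q.coeff n, hQ n⟩, rfl⟩
  obtain ⟨q, hq⟩ := (mem_lifts Q).1 hl
  have hsp : q = Polynomial.C q.leadingCoeff * (q.roots.map fun a => X - Polynomial.C a).prod :=
    (IsAlgClosed.splits q).eq_prod_roots
  have hQ' : Q = Polynomial.C (q.leadingCoeff : E) *
      (q.roots.map fun a : C => (X - Polynomial.C (a : E))).prod := by
    rw [← hq]
    conv_lhs => rw [hsp]
    rw [Polynomial.map_mul, Polynomial.map_C, Polynomial.map_multiset_prod, Multiset.map_map]
    have hfun : (Polynomial.map (algebraMap C E) ∘ fun a => X - Polynomial.C a) =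
        fun a : C => (X - Polynomial.C (a : E)) := by
      funext a
      simp only [Function.comp_apply, Polynomial.map_sub, Polynomial.map_X, Polynomial.map_C]
      rfl
    rw [hfun]
    rfl
  obtain ⟨s₁, h1, h2⟩ := exists_radius_prod hz q.roots
  refine ⟨s₁, h1, fun s hs hle => ?_⟩
  rw [hQ', Polynomial.taylor_mul, gn_mul hs, Polynomial.taylor_C, gn_C, h2 s hs hle,
    Polynomial.eval_mul, norm_mul, Polynomial.eval_C]

end DA
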