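import Pool.Agent.Lib.DA.Defs

/-!
# Module W2: a generator with dominated minimal polynomial
-/

namespace DA

open Polynomial MP1a953e

/-- a bound `< 1` for finitely many numbers `< 1` -/
private lemma W2_theta (s : Finset ℕ) (ρ : ℕ → ℝ) (h : ∀ i ∈ s, ρ i < 1) :
    ∃ θ : ℝ, 0 ≤ θ ∧ θ < 1 ∧ ∀ i ∈ s, ρ i ≤ θ := by
  induction s using Finset.induction with
  | empty => exact ⟨0, le_rfl, zero_lt_one, by simp⟩
  | insert a s ha ih =>
    obtain ⟨θ, h0, h1, h2⟩ := ih fun i hi => h i (Finset.mem_insert_of_mem hi)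
    refine ⟨max θ (ρ a), h0.trans (le_max_left _ _), max_lt h1 (h a (Finset.mem_insert_self _ _)),
      ?_⟩
    intro i hi
    rcases Finset.mem_insert.1 hi with rfl | hi
    · exact le_max_right _ _
    · exact (h2 i hi).trans (le_max_left _ _)

private lemma W2_cont {E : Type*} [NormedField E] (P : E[X]) (i : ℕ) :
    Continuous fun r : E => (taylor r P).coeff i := by
  have h : (fun r : E => (taylor r P).coeff i) = fun r => (hasseDeriv i P).eval r := by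
    funext r
    rw [taylor_coeff]
  rw [h]
  exact (hasseDeriv i P).continuous

/-- the choice of the scaling `κ` and the centre `r` -/
private lemma W2_choice {E : Type*} [NormedField E] [IsUltrametricDist E] (K : Subfield E)
    (P : E[X]) (D : ℕ) {y : E} (hy0 : (taylor y P).coeff 0 = 0) (hy1 : (taylor y P).coeff 1 ≠ 0)
    (hκ : ∀ δ : ℝ, 0 < δ → ∃ κ ∈ K, κ ≠ 0 ∧ ‖κ‖ < δ)
    (hd : ∀ ε : ℝ, 0 < ε → ∃ g ∈ K, ‖y - g‖ < ε) :
    ∃ κ ∈ K, ∃ r ∈ K, κ ≠ 0 ∧ ‖y - r‖ < ‖κ‖ ∧ (taylor r P).coeff 1 ≠ 0 ∧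
      ‖(taylor r P).coeff 0‖ < ‖κ‖ * ‖(taylor r P).coeff 1‖ ∧
      ∀ i ∈ Finset.range (D + 1), 2 ≤ i →
        ‖(taylor r P).coeff i‖ * ‖κ‖ ^ (i - 1) < ‖(taylor r P).coeff 1‖ := by
  have hb1 : 0 < ‖(taylor y P).coeff 1‖ := norm_pos_iff.2 hy1
  set B : ℝ := ∑ i ∈ Finset.range (D + 1), ‖(taylor y P).coeff i‖ + 1 with hB
  have hBpos : 0 < B := by
    have : 0 ≤ ∑ i ∈ Finset.range (D + 1), ‖(taylor y P).coeff i‖ :=
      Finset.sum_nonneg fun i _ => norm_nonneg _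
    linarith
  obtain ⟨κ, hκK, hκ0, hκlt⟩ := hκ (min 1 (‖(taylor y P).coeff 1‖ / B))
    (lt_min zero_lt_one (div_pos hb1 hBpos))
  have hκpos : 0 < ‖κ‖ := norm_pos_iff.2 hκ0
  have hκ1 : ‖κ‖ < 1 := hκlt.trans_le (min_le_left _ _)
  have hκB : ‖κ‖ * B < ‖(taylor y P).coeff 1‖ := by
    have := hκlt.trans_le (min_le_right _ _)
    rwa [lt_div_iff₀ hBpos] at this
  have hy2 : ∀ i ∈ Finset.range (D + 1), 2 ≤ i →
      ‖(taylor y P).coeff i‖ * ‖κ‖ ^ (i - 1) < ‖(taylor y P).coeff 1‖ := by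
    intro i hi hi2
    have h1 : ‖(taylor y P).coeff i‖ ≤ B := by
      have h1 : ‖(taylor y P).coeff i‖ ≤
          ∑ i ∈ Finset.range (D + 1), ‖(taylor y P).coeff i‖ :=
        Finset.single_le_sum (f := fun i => ‖(taylor y P).coeff i‖)
          (fun i _ => norm_nonneg _) hi
      linarith
    have h2 : ‖κ‖ ^ (i - 1) ≤ ‖κ‖ := by
      calc ‖κ‖ ^ (i - 1) ≤ ‖κ‖ ^ 1 :=
            pow_le_pow_of_le_one hκpos.le hκ1.le (by omega)
        _ = ‖κ‖ := pow_one _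
    calc ‖(taylor y P).coeff i‖ * ‖κ‖ ^ (i - 1) ≤ B * ‖κ‖ :=
          mul_le_mul h1 h2 (pow_nonneg hκpos.le _) hBpos.le
      _ = ‖κ‖ * B := mul_comm _ _
      _ < _ := hκB
  have hev : ∀ᶠ r in nhds y, ‖y - r‖ < ‖κ‖ ∧
      ‖(taylor r P).coeff 1 - (taylor y P).coeff 1‖ < ‖(taylor y P).coeff 1‖ ∧
      ‖(taylor r P).coeff 0‖ < ‖κ‖ * ‖(taylor y P).coeff 1‖ ∧
      ∀ i ∈ Finset.range (D + 1), 2 ≤ i →
        ‖(taylor r P).coeff i‖ * ‖κ‖ ^ (i - 1) < ‖(taylor y P).coeff 1‖ := by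
    refine Filter.Eventually.and ?_ (Filter.Eventually.and ?_ (Filter.Eventually.and ?_ ?_))
    · have h1 : Continuous fun r : E => ‖y - r‖ := (continuous_const.sub continuous_id).norm
      refine h1.continuousAt.eventually_lt_const ?_
      simpa using hκpos
    · have h1 : Continuous fun r : E => ‖(taylor r P).coeff 1 - (taylor y P).coeff 1‖ :=
        ((W2_cont P 1).sub continuous_const).norm
      refine h1.continuousAt.eventually_lt_const ?_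
      simpa using hy1
    · have h1 : Continuous fun r : E => ‖(taylor r P).coeff 0‖ := (W2_cont P 0).norm
      refine h1.continuousAt.eventually_lt_const ?_
      change ‖(taylor y P).coeff 0‖ < _
      rw [hy0, norm_zero]
      exact mul_pos hκpos hb1
    · rw [Filter.eventually_all_finset]
      intro i hi
      by_cases hi2 : 2 ≤ i
      · have h1 : Continuous fun r : E => ‖(taylor r P).coeff i‖ * ‖κ‖ ^ (i - 1) :=
          (W2_cont P i).norm.mul continuous_const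
        filter_upwards [h1.continuousAt.eventually_lt_const (hy2 i hi hi2)] with r hr _
        exact hr
      · exact Filter.Eventually.of_forall fun r h => absurd h hi2
  rw [Metric.eventually_nhds_iff] at hev
  obtain ⟨ε, hε, hball⟩ := hev
  obtain ⟨r, hrK, hr⟩ := hd ε hε
  obtain ⟨h1, h2, h3, h4⟩ := hball (y := r) (by rw [dist_comm, dist_eq_norm]; exact hr)
  have h5 : ‖(taylor r P).coeff 1‖ = ‖(taylor y P).coeff 1‖ := by
    have e : (taylor r P).coeff 1 =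
        ((taylor r P).coeff 1 - (taylor y P).coeff 1) + (taylor y P).coeff 1 := by ring
    rw [e, IsUltrametricDist.norm_add_eq_max_of_norm_ne_norm h2.ne]
    exact max_eq_right h2.le
  refine ⟨κ, hκK, r, hrK, hκ0, h1, ?_, ?_, ?_⟩
  · rw [← norm_pos_iff, h5]
    exact hb1
  · rw [h5]
    exact h3
  · rw [h5]
    exact h4

private lemma W2_core {E : Type*} [NormedField E] [IsUltrametricDist E] (K : Subfield E) {y : E}
    (hy : IsSeparable K y) (hκ : ∀ δ : ℝ, 0 < δ → ∃ κ ∈ K, κ ≠ 0 ∧ ‖κ‖ < δ)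
    (hd : ∀ ε : ℝ, 0 < ε → ∃ g ∈ K, ‖y - g‖ < ε) :
    ∃ (κ r : K) (θ : ℝ), κ ≠ 0 ∧ 0 ≤ θ ∧ θ < 1 ∧ ‖y - (r : E)‖ < ‖(κ : E)‖ ∧
      (((minpoly K (κ⁻¹ • (y - algebraMap K E r))).coeff 1 : K) : E) ≠ 0 ∧
      ∀ i, i ≠ 1 → ‖(((minpoly K (κ⁻¹ • (y - algebraMap K E r))).coeff i : K) : E)‖ ≤
        θ * ‖(((minpoly K (κ⁻¹ • (y - algebraMap K E r))).coeff 1 : K) : E)‖ := by
  have hint : IsIntegral K y := hy.isIntegral
  set p := minpoly K y with hp
  set P : E[X] := p.map (algebraMap K E) with hP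
  have hDpos : 0 < p.natDegree := minpoly.natDegree_pos hint
  have hPy : P.eval y = 0 := by
    rw [hP, eval_map_algebraMap]
    exact minpoly.aeval K y
  have hPy1 : P.derivative.eval y ≠ 0 := by
    rw [hP, derivative_map, eval_map_algebraMap]
    exact Separable.aeval_derivative_ne_zero hy (minpoly.aeval K y)
  obtain ⟨κ, hκK, r, hrK, hκ0, h1, h2, h3, h4⟩ := W2_choice K P p.natDegree
    (by rw [taylor_coeff_zero]; exact hPy) (by rw [taylor_coeff_one]; exact hPy1) hκ hd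
  have hκpos : 0 < ‖κ‖ := norm_pos_iff.2 hκ0
  have hκ0' : (⟨κ, hκK⟩ : K) ≠ 0 := fun h => hκ0 (congrArg Subtype.val h)
  have hmin : minpoly K ((⟨κ, hκK⟩ : K)⁻¹ • (y - algebraMap K E ⟨r, hrK⟩)) =
      (taylor (⟨r, hrK⟩ : K) p).scaleRoots (⟨κ, hκK⟩ : K)⁻¹ := by
    rw [IsIntegrallyClosed.minpoly_smul (inv_ne_zero hκ0') (hint.sub isIntegral_algebraMap),
      minpoly.sub_algebraMap, taylor_apply]
  have hcoeff : ∀ i, (((minpoly K ((⟨κ, hκK⟩ : K)⁻¹ • (y - algebraMap K E ⟨r, hrK⟩))).coeff i : K)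
      : E) = (taylor r P).coeff i * (κ⁻¹) ^ (p.natDegree - i) := by
    intro i
    rw [hmin, coeff_scaleRoots, natDegree_taylor]
    have h5 : (((taylor (⟨r, hrK⟩ : K) p).coeff i : K) : E) = (taylor r P).coeff i := by
      change algebraMap K E ((taylor (⟨r, hrK⟩ : K) p).coeff i) = _
      rw [← coeff_map, map_taylor]
      rfl
    rw [← h5]
    rfl
  have hcn : ∀ i, ‖(((minpoly K ((⟨κ, hκK⟩ : K)⁻¹ • (y - algebraMap K E ⟨r, hrK⟩))).coeff i : K)
      : E)‖ = ‖(taylor r P).coeff i‖ * (‖κ‖⁻¹) ^ (p.natDegree - i) := by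
    intro i
    rw [hcoeff, norm_mul, norm_pow, norm_inv]
  have hinv : 0 < ‖κ‖⁻¹ := inv_pos.2 hκpos
  have h1pos : 0 < ‖(taylor r P).coeff 1‖ * (‖κ‖⁻¹) ^ (p.natDegree - 1) :=
    mul_pos (norm_pos_iff.2 h2) (pow_pos hinv _)
  have hlt : ∀ i ∈ (Finset.range (p.natDegree + 1)).erase 1,
      (‖(taylor r P).coeff i‖ * (‖κ‖⁻¹) ^ (p.natDegree - i)) /
        (‖(taylor r P).coeff 1‖ * (‖κ‖⁻¹) ^ (p.natDegree - 1)) < 1 := by
    intro i hi
    rw [Finset.mem_erase, Finset.mem_range] at hi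
    rw [div_lt_one h1pos]
    rcases Nat.eq_zero_or_pos i with rfl | hi0
    · have e : (‖κ‖⁻¹) ^ (p.natDegree - 0) = ‖κ‖⁻¹ * (‖κ‖⁻¹) ^ (p.natDegree - 1) := by
        rw [← pow_succ']
        congr 1
        omega
      rw [e, ← mul_assoc]
      refine mul_lt_mul_of_pos_right ?_ (pow_pos hinv _)
      rw [← div_eq_mul_inv, div_lt_iff₀ hκpos, mul_comm]
      exact h3
    · have e : (‖κ‖⁻¹) ^ (p.natDegree - 1) = (‖κ‖⁻¹) ^ (i - 1) * (‖κ‖⁻¹) ^ (p.natDegree - i) := by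
        rw [← pow_add]
        congr 1
        omega
      rw [e, ← mul_assoc]
      refine mul_lt_mul_of_pos_right ?_ (pow_pos hinv _)
      rw [inv_pow, ← div_eq_mul_inv, lt_div_iff₀ (pow_pos hκpos _)]
      exact h4 i (Finset.mem_range.2 hi.2) (by omega)
  obtain ⟨θ, hθ0, hθ1, hθ⟩ := W2_theta _ _ hlt
  refine ⟨⟨κ, hκK⟩, ⟨r, hrK⟩, θ, hκ0', hθ0, hθ1, h1, ?_, ?_⟩
  · rw [← norm_pos_iff, hcn]
    exact h1pos
  · intro i hi
    rw [hcn, hcn]
    by_cases hiD : i < p.natDegree + 1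
    · have h5 := hθ i (Finset.mem_erase.2 ⟨hi, Finset.mem_range.2 hiD⟩)
      rwa [div_le_iff₀ h1pos] at h5
    · have h6 : (taylor r P).coeff i = 0 := by
        apply coeff_eq_zero_of_natDegree_lt
        rw [natDegree_taylor, hP, natDegree_map]
        omega
      rw [h6, norm_zero, zero_mul]
      exact mul_nonneg hθ0 h1pos.le

/-- W2.  Proof.  Let `K = adj C z`, `p` the minimal polynomial of `y` over `K`, of degree `D`, `p_i` its
Hasse derivatives; `p_1(y) ≠ 0` (separable). Choose `κ ∈ C`, `κ ≠ 0`, so small that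
`‖κ‖ ^ (i-1) * ‖p_i(y)‖ < ‖p_1(y)‖` for `2 ≤ i ≤ D`, and then `r ∈ K` so close to `y` that
`‖y - r‖ < ‖κ‖`, `‖p_1(r)‖ = ‖p_1(y)‖`, `‖κ‖ ^ (i-1) * ‖p_i(r)‖ < ‖p_1(y)‖` and
`‖p(r)‖ < ‖κ‖ * ‖p_1(y)‖` (continuity, `p(y) = 0`). `Y = (y - r) / κ`. The minimal polynomial of `Y`
over `K` is `κ ^ (-D) * p(r + κ X)` (monic of degree `D`, vanishes at `Y`, and `K(Y) = K(y)`), with
coefficients `κ ^ (i-D) * p_i(r)`. Let `θ < 1` be the maximum of the finitely many ratios. -/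
theorem exists_normalGen {E : Type*} [NormedField E] [IsUltrametricDist E] {C : Subfield E}
    (hnt : ∃ x ∈ C, 1 < ‖x‖) {z y : E} (hy : IsSeparable (adj C z) y)
    (hE : ∀ x : E, x ∈ adj (adj C z) y)
    (hd : ∀ x : E, ∀ ε : ℝ, 0 < ε → ∃ g ∈ adj C z, ‖x - g‖ < ε) :
    ∃ (Y : E) (θ : ℝ), NormalGen C z Y θ := by
  have hCK : C ≤ adj C z := le_adj C z
  have hκ : ∀ δ : ℝ, 0 < δ → ∃ κ ∈ adj C z, κ ≠ 0 ∧ ‖κ‖ < δ := by
    intro δ hδ
    obtain ⟨x, hx, hx1⟩ := hnt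
    have hx0 : x ≠ 0 := by
      rintro rfl
      rw [norm_zero] at hx1
      linarith
    have hlt : ‖x⁻¹‖ < 1 := by
      rw [norm_inv]
      exact inv_lt_one_of_one_lt₀ hx1
    obtain ⟨n, hn⟩ := exists_pow_lt_of_lt_one hδ hlt
    refine ⟨x⁻¹ ^ n, hCK (C.pow_mem (C.inv_mem hx) n), pow_ne_zero _ (inv_ne_zero hx0), ?_⟩
    rw [norm_pow]
    exact hn
  obtain ⟨κ, r, θ, hκ0, hθ0, hθ1, hlt, hne, hdom⟩ := W2_core (adj C z) hy hκ (hd y)
  set Y : E := κ⁻¹ • (y - algebraMap (adj C z) E r) with hY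
  have hκE : (κ : E) ≠ 0 := fun h => hκ0 (Subtype.ext h)
  have hYe : Y = (κ : E)⁻¹ * (y - (r : E)) := rfl
  have hyY : y = (κ : E) * Y + (r : E) := by
    rw [hYe, mul_inv_cancel_left₀ hκE, sub_add_cancel]
  refine ⟨Y, θ, ?_, ?_, ?_, hθ0, hθ1, hne, hdom⟩
  · rw [hYe, norm_mul, norm_inv, inv_mul_le_iff₀ (norm_pos_iff.2 hκE), mul_one]
    exact hlt.le
  · exact ((hy.isIntegral.sub isIntegral_algebraMap).smul _).isAlgebraic
  · intro x
    refine adj_le (le_adj _ _) ?_ (hE x)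
    rw [hyY]
    exact (adj (adj C z) Y).add_mem ((adj (adj C z) Y).mul_mem (le_adj _ _ κ.2) (mem_adj_self _ _))
      (le_adj _ _ r.2)

end DA
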