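import Pool.Agent.Lib.DA.Xa
import Pool.Agent.Lib.MP_1a953e_ag.Tr6

/-!
# Module Xb: completions of Abhyankar fields are topologically of finite type
-/

namespace DA

open Polynomial MP1a953e

private theorem xb_closed {k K' : Type*} [Field k] [Field K'] [IsAlgClosed k] (e : k ≃+* K') :
    IsAlgClosed K' := by
  refine IsAlgClosed.of_exists_root K' fun q hq hirr => ?_
  obtain ⟨x, hx⟩ := IsAlgClosed.exists_root (q.map (e.symm : K' →+* k))
    (by rw [degree_map]; exact hirr.degree_pos.ne')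
  refine ⟨e x, ?_⟩
  have h1 : (q.map (e.symm : K' →+* k)).map (e : k →+* K') = q := by
    rw [Polynomial.map_map]
    simp
  have h2 : eval ((e : k →+* K') x) ((q.map (e.symm : K' →+* k)).map (e : k →+* K')) =
      (e : k →+* K') (eval x (q.map (e.symm : K' →+* k))) := Polynomial.eval_map_apply _ _
  have h3 : eval x (q.map (e.symm : K' →+* k)) = 0 := hx
  rw [h1, h3, map_zero] at h2
  exact h2

/-- `x` is the value at `s` of a polynomial over `k'` all of whose monomials have norm `≤ R` -/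
private def Rp {Ω : Type*} [NormedField Ω] (k' : Subfield Ω) {n : ℕ} (s : Fin n → Ω) (R : ℝ)
    (x : Ω) : Prop :=
  ∃ P : MvPolynomial (Fin n) Ω, MC k' P ∧ WB s P R ∧ MvPolynomial.eval s P = x

section
variable {Ω : Type*} [NormedField Ω] [IsUltrametricDist Ω] {k' : Subfield Ω} {n : ℕ}
  {s : Fin n → Ω}

omit [IsUltrametricDist Ω] in
private theorem Rp.mono {R R' : ℝ} {x : Ω} (h : Rp k' s R x) (hR : R ≤ R') : Rp k' s R' x := by
  obtain ⟨P, h1, h2, h3⟩ := h
  exact ⟨P, h1, fun b => (h2 b).trans hR, h3⟩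

private theorem Rp.mul {A B : ℝ} (hA : 0 ≤ A) {x y : Ω} (hx : Rp k' s A x) (hy : Rp k' s B y) :
    Rp k' s (A * B) (x * y) := by
  obtain ⟨P, h1, h2, rfl⟩ := hx
  obtain ⟨Q, h4, h5, rfl⟩ := hy
  exact ⟨P * Q, h1.mul h4, WB.mul hA h2 h5, map_mul _ _ _⟩

private theorem Rp.add {A : ℝ} {x y : Ω} (hx : Rp k' s A x) (hy : Rp k' s A y) :
    Rp k' s A (x + y) := by
  obtain ⟨P, h1, h2, rfl⟩ := hx
  obtain ⟨Q, h4, h5, rfl⟩ := hy
  exact ⟨P + Q, h1.add h4, WB.add h2 h5, map_add _ _ _⟩

omit [IsUltrametricDist Ω] in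
private theorem Rp.const {c : Ω} (hc : c ∈ k') : Rp k' s ‖c‖ c := by
  classical
  refine ⟨MvPolynomial.C c, MC.C hc, ?_, MvPolynomial.eval_C c⟩
  intro b
  rw [MvPolynomial.coeff_C]
  split_ifs with h
  · subst h
    simp
  · rw [norm_zero, zero_mul]
    exact norm_nonneg _

omit [IsUltrametricDist Ω] in
private theorem Rp.gen (i : Fin n) : Rp k' s ‖s i‖ (s i) := by
  classical
  refine ⟨MvPolynomial.X i, MC.X i, ?_, MvPolynomial.eval_X i⟩
  intro b
  rw [MvPolynomial.coeff_X]
  split_ifs with h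
  · subst h
    rw [norm_one, one_mul, Finset.prod_eq_single i]
    · simp
    · intro j _ hj
      rw [Finsupp.single_eq_of_ne hj, pow_zero]
    · intro h
      exact absurd (Finset.mem_univ i) h
  · rw [norm_zero, zero_mul]
    exact norm_nonneg _

private theorem Rp.nmul {x y : Ω} (hx : Rp k' s ‖x‖ x) (hy : Rp k' s ‖y‖ y) :
    Rp k' s ‖x * y‖ (x * y) := by
  rw [norm_mul]
  exact Rp.mul (norm_nonneg _) hx hy

omit [IsUltrametricDist Ω] in
private theorem Rp.none : Rp k' s ‖(1 : Ω)‖ 1 := Rp.const k'.one_mem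

private theorem Rp.npow {x : Ω} (hx : Rp k' s ‖x‖ x) (N : ℕ) : Rp k' s ‖x ^ N‖ (x ^ N) := by
  induction N with
  | zero =>
    rw [pow_zero]
    exact Rp.none
  | succ N ih =>
    rw [pow_succ]
    exact ih.nmul hx

private theorem Rp.nprod {ι : Type*} (S : Finset ι) {x : ι → Ω}
    (hx : ∀ i ∈ S, Rp k' s ‖x i‖ (x i)) : Rp k' s ‖∏ i ∈ S, x i‖ (∏ i ∈ S, x i) := by
  classical
  induction S using Finset.induction_on with
  | empty =>
    rw [Finset.prod_empty]
    exact Rp.none
  | insert i S hi ih =>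
    rw [Finset.prod_insert hi]
    exact (hx i (Finset.mem_insert_self i S)).nmul
      (ih fun j hj => hx j (Finset.mem_insert_of_mem hj))

private theorem Rp.prod_one {ι : Type*} (S : Finset ι) {x : ι → Ω}
    (hx : ∀ i ∈ S, Rp k' s 1 (x i)) : Rp k' s 1 (∏ i ∈ S, x i) := by
  classical
  induction S using Finset.induction_on with
  | empty =>
    rw [Finset.prod_empty]
    have h := Rp.none (k' := k') (s := s)
    rwa [norm_one] at h
  | insert i S hi ih =>
    rw [Finset.prod_insert hi]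
    have h := Rp.mul zero_le_one (hx i (Finset.mem_insert_self i S))
      (ih fun j hj => hx j (Finset.mem_insert_of_mem hj))
    rwa [mul_one] at h

private theorem Rp.sum {ι : Type*} (S : Finset ι) {x : ι → Ω} {A : ℝ} (hA : 0 ≤ A)
    (hx : ∀ i ∈ S, Rp k' s A (x i)) : Rp k' s A (∑ i ∈ S, x i) := by
  classical
  induction S using Finset.induction_on with
  | empty =>
    rw [Finset.sum_empty]
    have h := Rp.const (k' := k') (s := s) k'.zero_mem
    rw [norm_zero] at h
    exact h.mono hA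
  | insert i S hi ih =>
    rw [Finset.sum_insert hi]
    exact (hx i (Finset.mem_insert_self i S)).add
      (ih fun j hj => hx j (Finset.mem_insert_of_mem hj))

end

/-- Xb.  Proof.  As `RD.exists_tf` (module Tr6). `F` = closure of `adj (kM ι e u) a` in `Ω` (contained in the
complete field `K`), `s` = the family of all `e i`, `(e i)⁻¹`, `u i`, `a` (use `Fin.append`, `n = r + r + m + 1`).
`approx`: let `x ∈ F`, `x ≠ 0`, `δ < 1`; choose `x' ∈ adj (kM ι e u) a` with `‖x - x'‖ ≤ δ ‖x‖`, so `‖x'‖ = ‖x‖`;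
`x' = ∑_{i<d} c i * a ^ i` (`RD.exists_comb`), `‖c i‖ ≤ ‖x‖` (`RD.orth`), `c i ∈ k(e, u)`. By
`EU.exists_frac` (transported by `ι`) `c i = mon * (A / B)` with `A, B ∈ MB`, `‖A‖ = ‖B‖ = 1`. Elements of
`MB` are values `P(s)` of polynomials over `k'` with `WB s P 1` (induction over the adjoin; a monomial
`c * ∏ e i ^ z i` of norm `≤ 1` is the value of one monomial of the same norm in the `e i` and
`(e i)⁻¹`), and `mon` is the value of one monomial, of norm `≤ ‖x‖`. Common denominator `∏ B_i`. -/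
theorem tf_e {k L Ω : Type*} [NormedField k] [IsUltrametricDist k] [IsAlgClosed k]
    [NormedField L] [IsUltrametricDist L] [NormedAlgebra k L] [NormedField Ω]
    [IsUltrametricDist Ω] {ι : L →+* Ω} {K : Subfield Ω} (hE : Emb ι K) {r m : ℕ}
    {e : Fin r → L} {u : Fin m → L} (h : EU k e u) {d : ℕ} {a : Ω} {f : Polynomial Ω}
    (hRD : RD (kU (kO k ι) fun i => ι (e i)) (fun i => ι (u i)) d a f) (ha : a ∈ K) :
    ∃ F : Subfield Ω, F ≤ K ∧ DenseIn (adj (kM (k := k) ι e u) a) F ∧
      ∃ (n : ℕ) (s : Fin n → Ω), TF (kO k ι) F s := by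
  classical
  have hK : IsComplete (K : Set Ω) := hE.complete
  set A : Subfield Ω := adj (kM (k := k) ι e u) a with hA
  have hkM : kM (k := k) ι e u = (keu k e u).toSubfield.map ι := kM_eq
  have hMA : kM (k := k) ι e u ≤ A := le_adj _ _
  have hkA : kO k ι ≤ A := by
    refine le_trans ?_ hMA
    unfold kM kU
    exact le_sup_left.trans le_sup_left
  have heM : ∀ i, ι (e i) ∈ kM (k := k) ι e u := by
    intro i
    rw [hkM]
    exact ⟨e i, IntermediateField.subset_adjoin k _ (Or.inl ⟨i, rfl⟩), rfl⟩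
  have huM : ∀ i, ι (u i) ∈ kM (k := k) ι e u := by
    intro i
    rw [hkM]
    exact ⟨u i, IntermediateField.subset_adjoin k _ (Or.inr ⟨i, rfl⟩), rfl⟩
  have haA : a ∈ A := mem_adj_self _ _
  have hAK : A ≤ K := by
    refine adj_le ?_ ha
    rw [hkM]
    rintro _ ⟨x, _, rfl⟩
    exact hE.mem x
  set F : Subfield Ω := A.topologicalClosure with hF
  have hAF : A ≤ F := A.le_topologicalClosure
  have hFcl : IsClosed (F : Set Ω) := A.isClosed_topologicalClosure
  have hFK : F ≤ K := A.topologicalClosure_minimal hAK hK.isClosed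
  have hFcomp : IsComplete (F : Set Ω) := by
    intro l hl hle
    obtain ⟨z, -, hz⟩ := hK l hl (hle.trans (Filter.principal_mono.2 hFK))
    refine ⟨z, ?_, hz⟩
    have := hl.1
    have h1 : ClusterPt z (Filter.principal (F : Set Ω)) :=
      (ClusterPt.of_le_nhds hz).mono hle
    rw [← mem_closure_iff_clusterPt, hFcl.closure_eq] at h1
    exact h1
  have hdense : ∀ x ∈ F, ∀ ε : ℝ, 0 < ε → ∃ y ∈ A, ‖x - y‖ < ε := by
    intro x hx ε hε
    have hx' : x ∈ closure (A : Set Ω) := hx
    obtain ⟨y, hy, hxy⟩ := Metric.mem_closure_iff.1 hx' ε hε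
    exact ⟨y, hy, by rwa [dist_eq_norm] at hxy⟩
  refine ⟨F, hFK, ⟨hAF, hdense⟩, ?_⟩
  -- the family of generators
  set s : Fin (r + r + m + 1) → Ω := Fin.append (Fin.append (Fin.append (fun i => ι (e i))
    (fun i => (ι (e i))⁻¹)) (fun i => ι (u i))) (fun _ : Fin 1 => a) with hs
  have hge : ∀ i, Rp (kO k ι) s ‖ι (e i)‖ (ι (e i)) := by
    intro i
    have h1 := Rp.gen (k' := kO k ι) (s := s)
      (Fin.castAdd 1 (Fin.castAdd m (Fin.castAdd r i)))
    have h2 : s (Fin.castAdd 1 (Fin.castAdd m (Fin.castAdd r i))) = ι (e i) := by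
      rw [hs, Fin.append_left, Fin.append_left, Fin.append_left]
    rwa [h2] at h1
  have hgi : ∀ i, Rp (kO k ι) s ‖(ι (e i))⁻¹‖ (ι (e i))⁻¹ := by
    intro i
    have h1 := Rp.gen (k' := kO k ι) (s := s)
      (Fin.castAdd 1 (Fin.castAdd m (Fin.natAdd r i)))
    have h2 : s (Fin.castAdd 1 (Fin.castAdd m (Fin.natAdd r i))) = (ι (e i))⁻¹ := by
      rw [hs, Fin.append_left, Fin.append_left, Fin.append_right]
    rwa [h2] at h1
  have hgu : ∀ i, Rp (kO k ι) s ‖ι (u i)‖ (ι (u i)) := by
    intro i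
    have h1 := Rp.gen (k' := kO k ι) (s := s) (Fin.castAdd 1 (Fin.natAdd (r + r) i))
    have h2 : s (Fin.castAdd 1 (Fin.natAdd (r + r) i)) = ι (u i) := by
      rw [hs, Fin.append_left, Fin.append_right]
    rwa [h2] at h1
  have hga : Rp (kO k ι) s ‖a‖ a := by
    have h1 := Rp.gen (k' := kO k ι) (s := s) (Fin.natAdd (r + r + m) 0)
    have h2 : s (Fin.natAdd (r + r + m) 0) = a := by
      rw [hs, Fin.append_right]
    rwa [h2] at h1
  have hcst : ∀ c : k, Rp (kO k ι) s ‖ι (algebraMap k L c)‖ (ι (algebraMap k L c)) :=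
    fun c => Rp.const ⟨c, rfl⟩
  have hmon : ∀ (z : Fin r → ℤ) (c : k), Rp (kO k ι) s ‖ι (mon k e z c)‖ (ι (mon k e z c)) := by
    intro z c
    unfold mon
    rw [map_mul, map_prod]
    refine (hcst c).nmul (Rp.nprod _ fun i _ => ?_)
    rw [map_zpow₀]
    rcases le_total 0 (z i) with h0 | h0
    · obtain ⟨N, hN⟩ := Int.eq_ofNat_of_zero_le h0
      rw [hN, zpow_natCast]
      exact (hge i).npow N
    · obtain ⟨N, hN⟩ := Int.eq_ofNat_of_zero_le (neg_nonneg.2 h0)
      have h1 : z i = -(N : ℤ) := by omega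
      rw [h1, zpow_neg, zpow_natCast, ← inv_pow]
      exact (hgi i).npow N
  have hMB : ∀ b ∈ MB k e u, Rp (kO k ι) s 1 (ι b) := by
    intro b hb
    unfold MB at hb
    induction hb using Algebra.adjoin_induction with
    | mem x hx =>
      rcases hx with ⟨z, c, rfl, hx⟩ | ⟨i, rfl⟩
      · refine (hmon z c).mono ?_
        rw [hE.norm]
        exact hx
      · refine (hgu i).mono ?_
        rw [hE.norm]
        exact h.norm_u i
    | algebraMap c =>
      have h1 : algebraMap (O k) L c = algebraMap k L (c : k) := rfl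
      rw [h1]
      refine (hcst c).mono ?_
      rw [hE.norm, norm_algebraMap']
      exact mem_O.1 c.2
    | add x y _ _ hx hy =>
      rw [map_add]
      exact hx.add hy
    | mul x y _ _ hx hy =>
      rw [map_mul]
      have h1 := Rp.mul zero_le_one hx hy
      rwa [mul_one] at h1
  have hfrac : ∀ c ∈ kM (k := k) ι e u, ∃ N D : Ω, Rp (kO k ι) s ‖c‖ N ∧ Rp (kO k ι) s 1 D ∧
      ‖D‖ = 1 ∧ c = N / D := by
    intro c hc
    by_cases hc0 : c = 0
    · refine ⟨0, 1, ?_, ?_, norm_one, ?_⟩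
      · rw [hc0]
        exact Rp.const (kO k ι).zero_mem
      · have h1 := Rp.none (k' := kO k ι) (s := s)
        rwa [norm_one] at h1
      · rw [hc0, zero_div]
    · rw [hkM] at hc
      obtain ⟨x, hx, rfl⟩ := hc
      have hx0 : x ≠ 0 := by
        rintro rfl
        exact hc0 (map_zero ι)
      obtain ⟨z, c, hc, y, hy, b, hb, hy1, hb1, hxe⟩ := h.exists_frac hx hx0
      refine ⟨ι (mon k e z c) * ι y, ι b, ?_, hMB b hb, by rw [hE.norm]; exact hb1, ?_⟩
      · have h1 := Rp.mul (norm_nonneg _) (hmon z c) (hMB y hy)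
        rw [mul_one] at h1
        have h2 : ‖(ι : L → Ω) x‖ = ‖ι (mon k e z c)‖ := by
          rw [hE.norm, hE.norm, hxe, norm_mul, norm_div, hy1, hb1, div_one, mul_one]
        have h3 : ‖ι x‖ = ‖ι (mon k e z c)‖ := h2
        rw [h3]
        exact h1
      · show ι x = ι (mon k e z c) * ι y / ι b
        rw [hxe, map_mul, map_div₀, mul_div_assoc]
  have hkc : IsAlgClosed (kO k ι) := by
    have e1 : k ≃+* kO k ι := RingEquiv.ofBijective
      (ι.comp (algebraMap k L)).rangeRestrictField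
      ⟨(ι.comp (algebraMap k L)).rangeRestrictField.injective,
        (ι.comp (algebraMap k L)).rangeRestrictField_bijective.2⟩
    exact xb_closed e1
  have hs1 : ∀ i, s i ∈ F := by
    intro i
    apply hAF
    refine Fin.addCases (fun j => ?_) (fun j => ?_) i
    · rw [hs, Fin.append_left]
      refine Fin.addCases (fun j => ?_) (fun j => ?_) j
      · rw [Fin.append_left]
        refine Fin.addCases (fun j => ?_) (fun j => ?_) j
        · rw [Fin.append_left]
          exact hMA (heM j)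
        · rw [Fin.append_right]
          exact A.inv_mem (hMA (heM j))
      · rw [Fin.append_right]
        exact hMA (huM j)
    · rw [hs, Fin.append_right]
      exact haA
  refine ⟨r + r + m + 1, s, hkc, hkA.trans hAF, hs1, hFcomp, ?_⟩
  intro x hx δ hδ
  -- the element `x` is approximated by a fraction
  have key : ∃ N D : Ω, Rp (kO k ι) s ‖x‖ N ∧ Rp (kO k ι) s 1 D ∧ ‖D‖ = 1 ∧
      ‖x - N / D‖ ≤ δ * ‖x‖ := by
    by_cases hx0 : x = 0
    · refine ⟨0, 1, ?_, ?_, norm_one, ?_⟩
      · rw [hx0]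
        exact Rp.const (kO k ι).zero_mem
      · have h1 := Rp.none (k' := kO k ι) (s := s)
        rwa [norm_one] at h1
      · rw [hx0, zero_div, sub_zero, norm_zero, mul_zero]
    · have hxpos : 0 < ‖x‖ := norm_pos_iff.2 hx0
      have hε : 0 < min δ 1 * ‖x‖ := mul_pos (lt_min hδ one_pos) hxpos
      obtain ⟨y, hy, hxy⟩ := hdense x hx _ hε
      have hxy1 : ‖x - y‖ < ‖x‖ := by
        refine hxy.trans_le ?_
        calc min δ 1 * ‖x‖ ≤ 1 * ‖x‖ :=
              mul_le_mul_of_nonneg_right (min_le_right _ _) hxpos.le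
          _ = ‖x‖ := one_mul _
      have hyx : ‖y‖ ≤ ‖x‖ := by
        have e1 : y = x + -(x - y) := by ring
        rw [e1]
        refine (IsUltrametricDist.norm_add_le_max _ _).trans (max_le le_rfl ?_)
        rw [norm_neg]
        exact hxy1.le
      obtain ⟨c, hc, hyc⟩ := hRD.exists_comb hy
      have hcn : ∀ i, ‖c i‖ ≤ ‖x‖ := by
        intro i
        refine (hRD.orth c hc i).trans ?_
        rw [← hyc]
        exact hyx
      choose N D hN hD hD1 hcND using fun i => hfrac (c i) (hc i)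
      have hD0 : ∀ i, D i ≠ 0 := by
        intro i h0
        have h1 := hD1 i
        rw [h0, norm_zero] at h1
        exact zero_ne_one h1
      refine ⟨∑ i : Fin d, (N i * ∏ j ∈ Finset.univ.erase i, D j) * a ^ (i : ℕ),
        ∏ j : Fin d, D j, ?_, Rp.prod_one _ fun j _ => hD j, ?_, ?_⟩
      · refine Rp.sum _ (norm_nonneg _) fun i _ => ?_
        have h1 := Rp.mul (norm_nonneg x) ((hN i).mono (hcn i))
          (Rp.prod_one (Finset.univ.erase i) fun j _ => hD j)
        rw [mul_one] at h1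
        have h2 : Rp (kO k ι) s 1 (a ^ (i : ℕ)) := by
          refine (hga.npow (i : ℕ)).mono ?_
          rw [norm_pow]
          exact pow_le_one₀ (norm_nonneg _) hRD.norm_a
        have h3 := Rp.mul (norm_nonneg x) h1 h2
        rwa [mul_one] at h3
      · rw [norm_prod]
        exact Finset.prod_eq_one fun j _ => hD1 j
      · have hev : ∑ i : Fin d, (N i * ∏ j ∈ Finset.univ.erase i, D j) * a ^ (i : ℕ) =
            y * ∏ j : Fin d, D j := by
          rw [hyc, Finset.sum_mul]
          refine Finset.sum_congr rfl fun i _ => ?_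
          rw [← Finset.mul_prod_erase Finset.univ D (Finset.mem_univ i), hcND i]
          have h2 := hD0 i
          field_simp
        rw [hev, mul_div_cancel_right₀ _ (Finset.prod_ne_zero_iff.2 fun j _ => hD0 j)]
        refine hxy.le.trans ?_
        exact mul_le_mul_of_nonneg_right (min_le_left _ _) hxpos.le
  obtain ⟨N, D, ⟨P, hP1, hP2, rfl⟩, ⟨Q, hQ1, hQ2, rfl⟩, h3, h4⟩ := key
  exact ⟨P, Q, hP1, hQ1, hP2, hQ2, h3, h4⟩

end DA
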