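import Pool.Agent.Lib.DA.Xb
import Pool.Agent.Lib.DA.Xc
import Pool.Agent.Lib.MP_1a953e_ag.Sta10
import Pool.Agent.Lib.MP_1a953e_ag.Tr7
import Pool.Agent.Lib.HR.Stab2
import Pool.Agent.Lib.HR.OL

/-!
# Module Xd: stability of the completion of `k(e, u)`
-/

namespace DA

open Polynomial MP1a953e

private theorem xd_char {p : ℕ} [Fact p.Prime] {Ω : Type*} [NormedField Ω] (hp : ‖(p : Ω)‖ < 1) :
    CharZero Ω ∨ CharP Ω p := by
  obtain ⟨q, hq⟩ := CharP.exists Ω
  rcases CharP.char_is_prime_or_zero Ω q with hq' | rfl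
  · right
    have hqF : Fact q.Prime := ⟨hq'⟩
    by_cases hpq : p = q
    · rw [hpq]; exact hq
    · exfalso
      have h1 : (p : ZMod q) ≠ 0 := by
        intro h2
        rw [ZMod.natCast_eq_zero_iff] at h2
        exact hpq ((Nat.prime_dvd_prime_iff_eq hq' Fact.out).1 h2).symm
      have h3 := ZMod.pow_card_sub_one_eq_one h1
      have h4 : ((p : Ω)) ^ (q - 1) = 1 := by
        have := congrArg (ZMod.castHom (dvd_refl q) Ω) h3
        rw [map_pow, map_one, map_natCast] at this
        exact this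
      have h5 : ‖(p : Ω)‖ ^ (q - 1) = 1 := by rw [← norm_pow, h4, norm_one]
      have h6 : ‖(p : Ω)‖ ^ (q - 1) < 1 :=
        pow_lt_one₀ (norm_nonneg _) hp (by have := hq'.two_le; omega)
      exact absurd h5 h6.ne
  · left
    exact CharP.charP_to_charZero Ω

private theorem xd_adj {Ω : Type*} [NormedField Ω] (M : Subfield Ω) : adj M 0 = M :=
  le_antisymm (adj_le le_rfl M.zero_mem) (le_adj M _)

/-- Xd.  Proof.  The characteristic of `Ω` is `0` or `p` (`‖p‖ < 1`; in characteristic `q ≠ 0, p`, `p` would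
be algebraic over the prime field, hence of norm `1`). Use `rd_triv`, so `adj (kM ι e u) 0 = kM ι e u`
(`kM_eq`). Characteristic `0`: `tf_e` gives `F`; `F` has dense norms (`denseVal_of_closed`,
`DenseVal.mono`); `stable` (module Sta10) puts `X` into a finite extension `F'` with an
orthogonal basis; `HR.hasOB_of_orthBasis`, `HR.hasOB_bot` for `F ≤ F ⊔ closure X ≤ F'`.
Characteristic `p`: `hcl_e` gives `F` with `HCl`; `F ⊔ closure X` is finite separable over `F`
(`HR.FSep.finset`), `HR.stable` and `FF.ob`. -/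
theorem exists_stable {p : ℕ} [Fact p.Prime] {k L Ω : Type*} [NontriviallyNormedField k]
    [IsUltrametricDist k] [IsAlgClosed k] [NormedField L] [IsUltrametricDist L]
    [NormedAlgebra k L] [NormedField Ω] [IsUltrametricDist Ω] [IsAlgClosed Ω]
    (hp : ‖(p : Ω)‖ < 1) {ι : L →+* Ω}
    {K : Subfield Ω} (hE : Emb ι K) {r m : ℕ} {e : Fin r → L} {u : Fin m → L} (h : EU k e u) :
    ∃ F : Subfield Ω, IsComplete (F : Set Ω) ∧ DenseIn (kM (k := k) ι e u) F ∧
      ∀ X : Finset Ω, (∀ x ∈ X, IsSeparable F x) →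
        HR.HasOB F ((F ⊔ Subfield.closure (X : Set Ω) : Subfield Ω) : Set Ω) := by
  have hkc : IsAlgClosed (kO k ι) := by
    have e : k ≃+* (ι.comp (algebraMap k L)).fieldRange :=
      RingEquiv.ofBijective (ι.comp (algebraMap k L)).rangeRestrictField
        ⟨(ι.comp (algebraMap k L)).rangeRestrictField.injective,
          (ι.comp (algebraMap k L)).rangeRestrictField_bijective.2⟩
    refine IsAlgClosed.of_exists_root _ fun q hq hirr => ?_
    obtain ⟨x, hx⟩ := IsAlgClosed.exists_root
      (q.map (e.symm : (ι.comp (algebraMap k L)).fieldRange →+* k))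
      (by rw [degree_map]; exact hirr.degree_pos.ne')
    refine ⟨e x, ?_⟩
    have h1 : (q.map (e.symm : (ι.comp (algebraMap k L)).fieldRange →+* k)).map
        (e : k →+* (ι.comp (algebraMap k L)).fieldRange) = q := by
      rw [Polynomial.map_map]
      simp
    have h2 : eval ((e : k →+* (ι.comp (algebraMap k L)).fieldRange) x)
        ((q.map (e.symm : (ι.comp (algebraMap k L)).fieldRange →+* k)).map
          (e : k →+* (ι.comp (algebraMap k L)).fieldRange)) =
        (e : k →+* (ι.comp (algebraMap k L)).fieldRange)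
          (eval x (q.map (e.symm : (ι.comp (algebraMap k L)).fieldRange →+* k))) :=
      Polynomial.eval_map_apply _ _
    have h3 : eval x (q.map (e.symm : (ι.comp (algebraMap k L)).fieldRange →+* k)) = 0 := hx
    rw [h1, h3, map_zero] at h2
    exact h2
  have hknt : ∃ x ∈ kO k ι, 1 < ‖x‖ := by
    obtain ⟨c, hc⟩ := NormedField.exists_one_lt_norm k
    exact ⟨ι (algebraMap k L c), ⟨c, rfl⟩, by rw [hE.norm, norm_algebraMap']; exact hc⟩
  have hRD := rd_triv hE.norm h
  rcases xd_char hp with hch | hch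
  · obtain ⟨F, hFK, hFd, n, s, hTF⟩ := tf_e hE h hRD K.zero_mem
    rw [xd_adj] at hFd
    have hv : DenseVal F := (denseVal_of_closed hkc hknt).mono hTF.le
    refine ⟨F, hTF.complete, hFd, fun X hX => ?_⟩
    obtain ⟨F', d, θ, hθ, hXF⟩ := stable hp hTF hv X fun x hx => (hX x hx).isIntegral.isAlgebraic
    refine HR.hasOB_bot le_sup_left ?_ (HR.hasOB_of_orthBasis hθ)
    refine sup_le hθ.le (Subfield.closure_le.2 fun x hx => hXF x hx)
  · obtain ⟨F, hFK, hcl⟩ := hcl_e (p := p) hE h hRD K.zero_mem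
    rw [xd_adj] at hcl
    refine ⟨F, hcl.complete, hcl.dense, fun X hX => ?_⟩
    exact (HR.stable hkc hcl (HR.FSep.finset X hX)).ob

end DA
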