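import Pool.Agent.Lib.DA.Xd
import Pool.Agent.Lib.HR.OL2

/-!
# Module Xe: stability of `k(e, u)`
-/

namespace DA

open Polynomial MP1a953e

private theorem xe_sep {L Ω : Type*} [Field L] [Field Ω] {ι : L →+* Ω} {F : Subfield Ω}
    {P : L[X]} (hP : ∀ i, ι (P.coeff i) ∈ F) (hs : P.Separable) {x : Ω}
    (hx : P.eval₂ ι x = 0) : IsSeparable F x := by
  have hl : P.map ι ∈ lifts (algebraMap F Ω) := by
    rw [lifts_iff_coeff_lifts]
    intro n
    rw [coeff_map]
    exact ⟨⟨ι (P.coeff n), hP n⟩, rfl⟩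
  obtain ⟨q, hq⟩ := (mem_lifts _).1 hl
  have h1 : q.Separable := by
    rw [← separable_map (algebraMap F Ω), hq, separable_map]
    exact hs
  have h2 : aeval x q = 0 := by
    rw [← eval_map_algebraMap, hq, eval_map]
    exact hx
  exact h1.of_dvd (minpoly.dvd F x h2)

private theorem xe_dense {Ω : Type*} [NormedField Ω] {A F N : Subfield Ω} (hd : DenseIn A F)
    (hA : A ≤ N) {X : Set Ω} (hX : X ⊆ N) {x : Ω} (hx : x ∈ F ⊔ Subfield.closure X) {ε : ℝ}
    (hε : 0 < ε) : ∃ y ∈ N, ‖x - y‖ < ε := by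
  have h1 : F ⊔ Subfield.closure X ≤ N.topologicalClosure := by
    refine sup_le ?_ ?_
    · intro y hy
      show y ∈ closure (N : Set Ω)
      rw [Metric.mem_closure_iff]
      intro δ hδ
      obtain ⟨z, hz, hyz⟩ := hd.2 y hy δ hδ
      refine ⟨z, hA hz, ?_⟩
      rw [dist_eq_norm]
      exact hyz
    · rw [Subfield.closure_le]
      exact fun y hy => Subfield.le_topologicalClosure _ (hX hy)
  have h2 : x ∈ closure (N : Set Ω) := h1 hx
  rw [Metric.mem_closure_iff] at h2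
  obtain ⟨y, hy, hxy⟩ := h2 ε hε
  rw [dist_eq_norm] at hxy
  exact ⟨y, hy, hxy⟩

/-- Xe.  Proof.  Let `F` be as in `exists_stable`, `X` a finite subset of `C`, separable over
`ι(M) = kM ι e u`, hence over `F`. `F ⊔ closure X` has an orthogonal basis `θ'` over `F`. The field
`M_X = ι(M) ⊔ closure X` is dense in `F ⊔ closure X` (its topological closure contains `F` and `X`).
Choose `θ i ∈ M_X` with `‖θ' i - θ i‖ < ‖θ' i‖`; `HR.isOB_perturb`: `θ` is an orthogonal basis of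
`F ⊔ closure X` over `F`. `θ i ∈ C`, `θ i ≠ 0`. Elements `x ∈ M_X` (this is the field in the statement):
`x = ∑ f t * θ t`, `f t ∈ F`; choose `a t ∈ M` with `‖f t - ι (a t)‖ * ‖θ t‖ ≤ ε * ‖x‖` (`x ≠ 0`). -/
theorem mstab_of_emb {p : ℕ} [Fact p.Prime] {k L Ω : Type*} [NontriviallyNormedField k]
    [IsUltrametricDist k] [IsAlgClosed k] [NormedField L] [IsUltrametricDist L]
    [NormedAlgebra k L] [NormedField Ω] [IsUltrametricDist Ω] [IsAlgClosed Ω]
    (hp : ‖(p : Ω)‖ < 1) {ι : L →+* Ω}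
    {K : Subfield Ω} (hE : Emb ι K) {r m : ℕ} {e : Fin r → L} {u : Fin m → L} (h : EU k e u)
    {C : Subfield Ω}
    (hCM : ∀ x, x ∈ C ↔ IsAlgebraic ↥((keu k e u).toSubfield.map ι) x) :
    MStab (keu k e u) C ι := by
  classical
  obtain ⟨F, -, hd, hF⟩ := exists_stable (k := k) hp hE h
  have hkM : ∀ a ∈ keu k e u, ι a ∈ kM (k := k) ι e u := by
    intro a ha
    rw [kM_eq]
    exact ⟨a, ha, rfl⟩
  intro X hX
  obtain ⟨l, θ', hθ'⟩ := hF X fun x hx => by
    obtain ⟨P, hP, hs, hPx⟩ := (hX x hx).2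
    exact xe_sep (fun i => hd.1 (hkM _ (hP i))) hs hPx
  set N : Subfield Ω := Subfield.closure ((fun c : L => ι c) '' (keu k e u : Set L) ∪ (X : Set Ω))
    with hN
  have hkN : kM (k := k) ι e u ≤ N := by
    rw [kM_eq]
    rintro _ ⟨a, ha, rfl⟩
    exact Subfield.subset_closure (Or.inl ⟨a, ha, rfl⟩)
  have hXN : (X : Set Ω) ⊆ N := fun x hx => Subfield.subset_closure (Or.inr hx)
  have hNF : N ≤ F ⊔ Subfield.closure (X : Set Ω) := by
    rw [hN, Subfield.closure_le]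
    rintro x (⟨a, ha, rfl⟩ | hx)
    · exact (le_sup_left : F ≤ F ⊔ Subfield.closure (X : Set Ω)) (hd.1 (hkM a ha))
    · exact (le_sup_right : Subfield.closure (X : Set Ω) ≤ F ⊔ Subfield.closure (X : Set Ω))
        (Subfield.subset_closure hx)
  have hNC : N ≤ C := by
    rw [hN, Subfield.closure_le]
    rintro x (⟨a, ha, rfl⟩ | hx)
    · refine (hCM _).2 ?_
      exact isAlgebraic_algebraMap
        (⟨ι a, ⟨a, ha, rfl⟩⟩ : ((keu k e u).toSubfield.map ι : Subfield Ω))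
    · exact (hX x hx).1
  have hmem : ∀ i, θ' i ∈ F ⊔ Subfield.closure (X : Set Ω) := fun i => by
    have h1 := (hθ'.span (θ' i)).2 ⟨fun j => if j = i then 1 else 0, fun j => by
      show (if j = i then (1 : Ω) else 0) ∈ F
      split_ifs
      · exact one_mem F
      · exact zero_mem F, by simp⟩
    exact h1
  choose θ hθN hθ using fun i : Fin l => xe_dense hd hkN hXN (hmem i)
    (norm_pos_iff.2 (hθ'.ne i))
  have hOB := HR.isOB_perturb hθ' ⟨zero_mem _, fun a ha b hb => add_mem ha hb, fun c hc a ha =>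
    mul_mem ((le_sup_left : F ≤ F ⊔ Subfield.closure (X : Set Ω)) hc) ha⟩
    (fun i => hNF (hθN i)) hθ
  refine ⟨l, θ, fun i => ⟨hNC (hθN i), hOB.ne i⟩, ?_, ?_⟩
  · intro a ha i
    rw [norm_mul]
    exact hOB.orth (fun i => ι (a i)) (fun i => hd.1 (hkM _ (ha i))) i
  · intro x hx ε hε
    by_cases hx0 : x = 0
    · refine ⟨fun _ => 0, fun _ => zero_mem _, ?_⟩
      rw [hx0]
      simp
    obtain ⟨f, hf, hxf⟩ := (hOB.span x).1 (hNF hx)
    have hxpos : 0 < ‖x‖ := norm_pos_iff.2 hx0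
    have h1 : ∀ t, ∃ a : L, a ∈ keu k e u ∧ ‖f t - ι a‖ < ε * ‖x‖ / ‖θ t‖ := by
      intro t
      have hpos : 0 < ε * ‖x‖ / ‖θ t‖ :=
        div_pos (mul_pos hε hxpos) (norm_pos_iff.2 (hOB.ne t))
      obtain ⟨g, hg, hfg⟩ := hd.2 (f t) (hf t) _ hpos
      rw [kM_eq] at hg
      obtain ⟨a, ha, rfl⟩ := hg
      exact ⟨a, ha, hfg⟩
    choose a ha hfa using h1
    refine ⟨a, ha, ?_⟩
    have h2 : x - ∑ t, ι (a t) * θ t = ∑ t, (f t - ι (a t)) * θ t := by
      conv_lhs => rw [hxf]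
      rw [← Finset.sum_sub_distrib]
      exact Finset.sum_congr rfl fun t _ => by ring
    rw [h2]
    refine IsUltrametricDist.norm_sum_le_of_forall_le_of_nonneg
      (mul_nonneg hε.le (norm_nonneg _)) fun t _ => ?_
    rw [norm_mul]
    have h3 : 0 < ‖θ t‖ := norm_pos_iff.2 (hOB.ne t)
    have h4 := (hfa t).le
    rwa [le_div_iff₀ h3] at h4

end DA
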