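import Pool.Agent.Lib.DA.Defs2
import Pool.Agent.Lib.MP_1a953e_ag.DImmA

/-!
# Module Za: close roots
-/

namespace DA

open Polynomial MP1a953e

/-- coefficients of a product of linear factors -/
private theorem za_coeff_prod_le {E : Type*} [Field E] {w : AbsoluteValue E ℝ}
    (hw : IsNonarchimedean w) {B : ℝ} (hB : 0 ≤ B) (f : E → ℝ) (s : Multiset E)
    (hs : ∀ c ∈ s, w c ≤ f c ∧ B ≤ f c) : ∀ i : ℕ,
    w (((s.map fun c => (X - C c : E[X])).prod).coeff i) * B ^ i ≤ (s.map f).prod := by
  induction s using Multiset.induction with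
  | empty =>
    intro i
    simp only [Multiset.map_zero, Multiset.prod_zero]
    rw [coeff_one]
    by_cases hi : i = 0
    · simp [hi]
    · simp [hi]
  | cons c s ih =>
    have ih' := ih (fun c hc => hs c (Multiset.mem_cons_of_mem hc))
    obtain ⟨hc, hc2⟩ := hs c (Multiset.mem_cons_self c s)
    intro i
    simp only [Multiset.map_cons, Multiset.prod_cons]
    set P : E[X] := (s.map fun c => (X - C c : E[X])).prod with hP
    have hfc : 0 ≤ f c := (w.nonneg c).trans hc
    have hpr : 0 ≤ (s.map f).prod := by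
      have h0 := ih' 0
      rw [pow_zero, mul_one] at h0
      exact (w.nonneg _).trans h0
    have key : w (((X - C c) * P).coeff i) ≤
        max (if i = 0 then 0 else w (P.coeff (i - 1))) (w c * w (P.coeff i)) := by
      rw [sub_mul, coeff_sub, coeff_C_mul, sub_eq_add_neg]
      refine (hw _ _).trans (max_le_max ?_ ?_)
      · rcases i with _ | i
        · simp
        · simp [coeff_X_mul]
      · rw [w.map_neg, map_mul]
    refine (mul_le_mul_of_nonneg_right key (pow_nonneg hB i)).trans ?_
    rw [max_mul_of_nonneg _ _ (pow_nonneg hB i)]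
    refine max_le ?_ ?_
    · rcases i with _ | i
      · simp only [if_true, zero_mul]
        positivity
      · simp only [Nat.succ_ne_zero, if_false, Nat.add_sub_cancel]
        calc w (P.coeff i) * B ^ (i + 1) = B * (w (P.coeff i) * B ^ i) := by ring
          _ ≤ f c * (s.map f).prod :=
            mul_le_mul hc2 (ih' i) (mul_nonneg (w.nonneg _) (pow_nonneg hB i)) hfc
    · calc w c * w (P.coeff i) * B ^ i = w c * (w (P.coeff i) * B ^ i) := by ring
        _ ≤ f c * (s.map f).prod :=
          mul_le_mul hc (ih' i) (mul_nonneg (w.nonneg _) (pow_nonneg hB i)) hfc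

/-- Za (close root).  `w` is any nonarchimedean absolute value.  Proof.  Suppose `w (x - b) ≥ w x` for all
`b ∈ C`; then `w (x - b) = max (w x) (w b)` (if `w b > w x` by the ultrametric inequality; if
`w b ≤ w x` then `w (x - b) ≤ w x`). `Q ≠ 0` splits over `C`, `Q = a * ∏ (X - C b_l)`, `a, b_l ∈ C`
(`mem_of_eval_eq_zero` or splitting over the algebraically closed field `C`), so
`w (Q x) = w a * ∏ max (w x) (w (b_l))`, which is `≥ w (Q.coeff i) * w x ^ i` for all `i` (induction over the
number of factors; or `Polynomial.gaussNorm` of radius `w x` is multiplicative and is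
`max (w x) (w b)` for `X - C b`), a contradiction. -/
theorem exists_close_root {E : Type*} [Field E] {w : AbsoluteValue E ℝ}
    (hw : IsNonarchimedean w) {C : Subfield E} (hC : IsAlgClosed C) {x : E} (hx : x ≠ 0)
    {Q : E[X]} (hQ : ∀ i, Q.coeff i ∈ C) {i : ℕ}
    (h : w (Q.eval x) < w (Q.coeff i) * w x ^ i) : ∃ b ∈ C, w (x - b) < w x := by
  classical
  by_contra hcon
  push Not at hcon
  have hl : Q ∈ lifts (algebraMap C E) := by
    rw [lifts_iff_coeff_lifts]
    intro n
    exact ⟨⟨Q.coeff n, hQ n⟩, rfl⟩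
  obtain ⟨q, hq⟩ := (mem_lifts Q).1 hl
  have hfac := (IsAlgClosed.splits q).eq_prod_roots
  set a : E := (q.leadingCoeff : E) with ha
  set s : Multiset E := q.roots.map (fun c : C => (c : E)) with hs
  have hQfac : Q = Polynomial.C a * (s.map fun c => (X - Polynomial.C c : E[X])).prod := by
    have h1 : Q = (Polynomial.C q.leadingCoeff *
        (q.roots.map fun c => (X - Polynomial.C c : C[X])).prod).map (algebraMap C E) := by
      rw [← hfac, hq]
    rw [h1, Polynomial.map_mul, Polynomial.map_C, Polynomial.map_multiset_prod, Multiset.map_map,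
      hs, Multiset.map_map]
    congr 1
    congr 1
    refine Multiset.map_congr rfl fun c _ => ?_
    simp only [Function.comp_apply, Polynomial.map_sub, Polynomial.map_X, Polynomial.map_C]
    rfl
  have hsC : ∀ c ∈ s, c ∈ C := by
    intro c hc
    rw [hs, Multiset.mem_map] at hc
    obtain ⟨y, _, rfl⟩ := hc
    exact y.2
  have hsf : ∀ c ∈ s, w c ≤ w (x - c) ∧ w x ≤ w (x - c) := by
    intro c hc
    have h1 : w x ≤ w (x - c) := hcon c (hsC c hc)
    refine ⟨?_, h1⟩
    have h2 : c = x + -(x - c) := by ring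
    calc w c = w (x + -(x - c)) := by rw [← h2]
      _ ≤ max (w x) (w (-(x - c))) := hw _ _
      _ = max (w x) (w (x - c)) := by rw [w.map_neg]
      _ = w (x - c) := max_eq_right h1
  have hev : w (Q.eval x) = w a * (s.map fun c => w (x - c)).prod := by
    rw [hQfac, eval_mul, eval_C, map_mul, eval_multiset_prod, Multiset.map_map, map_multiset_prod,
      Multiset.map_map]
    congr 2
    refine Multiset.map_congr rfl fun c _ => ?_
    simp
  have hco : w (Q.coeff i) * w x ^ i ≤ w (Q.eval x) := by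
    rw [hev, hQfac, coeff_C_mul, map_mul, mul_assoc]
    exact mul_le_mul_of_nonneg_left
      (za_coeff_prod_le hw (w.nonneg x) (fun c => w (x - c)) s hsf i) (w.nonneg _)
  exact absurd h (not_lt.2 hco)

/-- Zb (immediacy over the algebraic closure).  Proof.  Let `x ∈ Ω`, `x ≠ 0`. (1) `x = ι x₀`: take `P, i`
from `hra x₀` and apply `exists_close_root` with `w = ‖·‖` and `P.map ι`. (2) `x ∈ K`: choose `x₀` with
`‖x - ι x₀‖ < ‖x‖` (`Emb.dense`) and apply (1) to `x₀`. (3) general `x`, algebraic over the complete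
field `K`: copy the proof of `immAll_of_alg` (module DImmB): in that proof the approximations of the
coefficients of the minimal polynomial by elements of `F ≤ C` are the only use of `F`, and (2) gives
approximations in `C`. -/
theorem immAll_of_ra {k L Ω : Type*} [NormedField k] [NormedField L] [NormedAlgebra k L]
    [NormedField Ω] [IsUltrametricDist Ω] [IsAlgClosed Ω] {ι : L →+* Ω} {K : Subfield Ω}
    (hE : Emb ι K) (hnt : ∃ x ∈ K, 1 < ‖x‖) (halg : ∀ x : Ω, IsAlgebraic K x)
    {M : IntermediateField k L} (hra : ∀ x : L, x ≠ 0 → RA M x) {C : Subfield Ω}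
    (hC : IsAlgClosed C) (hMC : ∀ c ∈ M, ι c ∈ C) : ImmAll C := by
  classical
  have hnab : ∀ x : Ω, nabs Ω x = ‖x‖ := fun x => rfl
  have hw : IsNonarchimedean (nabs Ω) := fun x y => IsUltrametricDist.norm_add_le_max x y
  -- step (1)
  have step1 : ∀ x : L, x ≠ 0 → ∃ c ∈ C, ‖ι x - c‖ < ‖ι x‖ := by
    intro x hx
    obtain ⟨P, hPM, i, hi⟩ := hra x hx
    have hx' : ι x ≠ 0 := by rwa [Ne, map_eq_zero]
    obtain ⟨b, hb, hlt⟩ := exists_close_root hw hC hx' (Q := P.map ι) (i := i)
      (fun j => by rw [coeff_map]; exact hMC _ (hPM j))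
      (by
        rw [hnab, hnab, hnab, coeff_map, eval_map, eval₂_at_apply, hE.norm, hE.norm, hE.norm]
        exact hi)
    exact ⟨b, hb, hlt⟩
  -- step (2)
  have step2 : ∀ x ∈ K, x ≠ 0 → ∃ c ∈ C, ‖x - c‖ < ‖x‖ := by
    intro x hxK hx
    obtain ⟨x₀, h0⟩ := hE.dense x hxK ‖x‖ (norm_pos_iff.2 hx)
    have h1 : ‖ι x₀‖ = ‖x‖ := by
      have h2 : ‖x - ι x₀‖ < ‖x‖ := h0
      apply le_antisymm
      · calc ‖ι x₀‖ = ‖x + -(x - ι x₀)‖ := by congr 1; ring
          _ ≤ max ‖x‖ ‖-(x - ι x₀)‖ := IsUltrametricDist.norm_add_le_max _ _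
          _ ≤ ‖x‖ := by rw [norm_neg]; exact max_le le_rfl h2.le
      · by_contra hlt
        rw [not_le] at hlt
        have h3 : ‖x‖ ≤ max ‖x - ι x₀‖ ‖ι x₀‖ := by
          calc ‖x‖ = ‖(x - ι x₀) + ι x₀‖ := by congr 1; ring
            _ ≤ _ := IsUltrametricDist.norm_add_le_max _ _
        exact absurd h3 (not_le.2 (max_lt h2 hlt))
    have hx0 : x₀ ≠ 0 := by
      rintro rfl
      rw [map_zero, norm_zero] at h1
      exact hx (norm_eq_zero.1 h1.symm)
    obtain ⟨c, hc, h2⟩ := step1 x₀ hx0
    refine ⟨c, hc, ?_⟩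
    calc ‖x - c‖ = ‖(x - ι x₀) + (ι x₀ - c)‖ := by congr 1; ring
      _ ≤ max ‖x - ι x₀‖ ‖ι x₀ - c‖ := IsUltrametricDist.norm_add_le_max _ _
      _ < ‖x‖ := max_lt h0 (by rw [← h1]; exact h2)
  -- step (3)
  intro x hx
  have hxpos : 0 < ‖x‖ := norm_pos_iff.2 hx
  have hint : IsIntegral K x := (halg x).isIntegral
  set P : Polynomial Ω := (minpoly K x).map (algebraMap K Ω) with hP
  have hPmonic : P.Monic := (minpoly.monic hint).map _
  set n := P.natDegree with hn
  have hPK : Coeffs K P := fun i => by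
    rw [hP, coeff_map]
    exact ((minpoly K x).coeff i).2
  have hPx : P.eval x = 0 := by
    rw [hP, eval_map_algebraMap]
    exact minpoly.aeval K x
  have hroots : ∀ c ∈ P.roots, ‖c‖ ≤ ‖x‖ := by
    intro c hc
    have h1 : P.eval c = 0 := (mem_roots hPmonic.ne_zero).1 hc
    rw [hP, eval_map_algebraMap] at h1
    have h2 : minpoly K x = minpoly K c :=
      minpoly.eq_of_irreducible_of_monic (minpoly.irreducible hint) h1 (minpoly.monic hint)
    exact (norm_eq_of_minpoly_eq hE.complete hnt (halg x) h2).symm.le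
  have hcard : Multiset.card P.roots = n :=
    (IsAlgClosed.splits P).natDegree_eq_card_roots.symm
  have hfac : P = (P.roots.map fun c => (X - Polynomial.C c : Polynomial Ω)).prod := by
    have h1 := (IsAlgClosed.splits P).eq_prod_roots
    rw [hPmonic.leadingCoeff, Polynomial.C_1, one_mul] at h1
    exact h1
  have hcoef : ∀ i, ‖P.coeff i‖ * ‖x‖ ^ i ≤ ‖x‖ ^ n := by
    intro i
    have h1 := za_coeff_prod_le hw (norm_nonneg x) (fun _ => ‖x‖) P.roots
      (fun c hc => ⟨hroots c hc, le_rfl⟩) i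
    rw [← hfac, Multiset.map_const', Multiset.prod_replicate, hcard] at h1
    exact h1
  have hn1 : 1 ≤ n := by
    rw [hn, hP, natDegree_map]
    exact minpoly.natDegree_pos hint
  have happ : ∀ i : ℕ, ∃ c ∈ C, P.coeff i ≠ 0 → ‖P.coeff i - c‖ < ‖P.coeff i‖ := by
    intro i
    by_cases h0 : P.coeff i = 0
    · exact ⟨0, C.zero_mem, fun h => absurd h0 h⟩
    · obtain ⟨c, hc, h1⟩ := step2 (P.coeff i) (hPK i) h0
      exact ⟨c, hc, fun _ => h1⟩
  choose b hbC hb using happ
  set R : Polynomial Ω := ∑ i ∈ Finset.range n,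
    Polynomial.C (if P.coeff i = 0 then 0 else b i) * X ^ i with hR
  have hRdeg : R.degree < (n : WithBot ℕ) := by
    rw [degree_lt_iff_coeff_zero]
    intro m hm
    rw [hR, finset_sum_coeff]
    refine Finset.sum_eq_zero fun i hi => ?_
    rw [coeff_C_mul_X_pow, if_neg]
    have h1 := Finset.mem_range.1 hi
    omega
  set Q : Polynomial Ω := X ^ n + R with hQ
  have hRC : ∀ k, R.coeff k ∈ C := by
    intro k
    rw [hR, finset_sum_coeff]
    refine C.sum_mem fun i _ => ?_
    rw [coeff_C_mul_X_pow]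
    split_ifs
    · exact C.zero_mem
    · exact hbC i
    · exact C.zero_mem
  have hQC : ∀ k, Q.coeff k ∈ C := by
    intro k
    rw [hQ, coeff_add, coeff_X_pow]
    refine C.add_mem ?_ (hRC k)
    split_ifs
    · exact C.one_mem
    · exact C.zero_mem
  have hPx2 : P.eval x = x ^ n + ∑ i ∈ Finset.range n, P.coeff i * x ^ i := by
    rw [eval_eq_sum_range, Finset.sum_range_succ, ← hn, hPmonic.coeff_natDegree, one_mul, add_comm]
  have hQx : Q.eval x = ∑ i ∈ Finset.range n,
      ((if P.coeff i = 0 then 0 else b i) - P.coeff i) * x ^ i := by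
    have h1 : Q.eval x = Q.eval x - P.eval x := by rw [hPx, sub_zero]
    rw [h1, hPx2, hQ, hR, eval_add, eval_pow, eval_X, eval_finset_sum, add_sub_add_left_eq_sub,
      ← Finset.sum_sub_distrib]
    refine Finset.sum_congr rfl fun i _ => ?_
    rw [eval_mul, eval_C, eval_pow, eval_X]
    ring
  have hQlt : ‖Q.eval x‖ < ‖x‖ ^ n := by
    rw [hQx]
    refine Finset.sum_induction _ (fun y => ‖y‖ < ‖x‖ ^ n) ?_ ?_ ?_
    · intro a c ha hc
      exact lt_of_le_of_lt (IsUltrametricDist.norm_add_le_max _ _) (max_lt ha hc)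
    · rw [norm_zero]
      positivity
    · intro i _
      by_cases h0 : P.coeff i = 0
      · rw [if_pos h0, h0, sub_zero, zero_mul, norm_zero]
        positivity
      · rw [if_neg h0, norm_mul, norm_pow, norm_sub_rev]
        exact lt_of_lt_of_le (mul_lt_mul_of_pos_right (hb i h0) (pow_pos hxpos i)) (hcoef i)
  have hQn : Q.coeff n = 1 := by
    rw [hQ, coeff_add, coeff_X_pow, if_pos rfl, coeff_eq_zero_of_degree_lt hRdeg, add_zero]
  obtain ⟨c, hc, h1⟩ := exists_close_root hw hC hx (Q := Q) (i := n) hQC (by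
    rw [hnab, hnab, hnab, hQn, norm_one, one_mul]
    exact hQlt)
  exact ⟨c, hc, h1⟩

end DA
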