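import Pool.Agent.Lib.DA.Defs2
import Pool.Agent.Lib.MP_1a953e_ag.DImmA

/-!
# Module Zc: density lemmas
-/

namespace DA

open Polynomial MP1a953e

/-- Zc1.  Proof.  The topological closure of `A ⊔ C` in `Ω` is a subfield (`Subfield.topologicalClosure`) which
contains `K` and `C`. -/
theorem sup_dense {Ω : Type*} [NormedField Ω] {A K C : Subfield Ω} (hd : DenseIn A K) :
    DenseIn (A ⊔ C) (K ⊔ C) := by
  refine ⟨sup_le_sup_right hd.1 C, ?_⟩
  have h1 : K ⊔ C ≤ (A ⊔ C).topologicalClosure := by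
    refine sup_le ?_ ?_
    · intro x hx
      show x ∈ closure ((A ⊔ C : Subfield Ω) : Set Ω)
      rw [Metric.mem_closure_iff]
      intro ε hε
      obtain ⟨y, hy, hxy⟩ := hd.2 x hx ε hε
      refine ⟨y, (le_sup_left : A ≤ A ⊔ C) hy, ?_⟩
      rw [dist_eq_norm]
      exact hxy
    · exact (le_sup_right : C ≤ A ⊔ C).trans (Subfield.le_topologicalClosure _)
  intro x hx ε hε
  have h2 : x ∈ closure ((A ⊔ C : Subfield Ω) : Set Ω) := h1 hx
  rw [Metric.mem_closure_iff] at h2
  obtain ⟨y, hy, hxy⟩ := h2 ε hε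
  rw [dist_eq_norm] at hxy
  exact ⟨y, hy, hxy⟩

/-- Zc2 (continuity of roots).  Proof.  Let `P = X ^ n + ∑_{i < n} a i * X ^ i` be the minimal polynomial of
`x` over `P₀`, `n ≥ 1`. Choose `b i ∈ C` with `‖a i - b i‖ * max 1 ‖x‖ ^ n < ε ^ n` and let
`Q = X ^ n + ∑ b i * X ^ i`; `‖Q x‖ = ‖Q x - P x‖ < ε ^ n`; `Q` splits over `C` (`mem_of_eval_eq_zero`), so
`‖Q x‖ = ∏ ‖x - c_l‖` (`n` factors) and one factor is `< ε`. (Compare the proof of
`immAll_of_alg` in DImmB.) -/
theorem approx_of_algebraic {Ω : Type*} [NormedField Ω] [IsUltrametricDist Ω] [IsAlgClosed Ω]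
    {C P₀ : Subfield Ω} (hC : IsAlgClosed C)
    (hP : ∀ x ∈ P₀, ∀ ε : ℝ, 0 < ε → ∃ c ∈ C, ‖x - c‖ < ε) {x : Ω} (hx : IsAlgebraic P₀ x)
    {ε : ℝ} (hε : 0 < ε) : ∃ c ∈ C, ‖x - c‖ < ε := by
  classical
  have hint : IsIntegral P₀ x := hx.isIntegral
  set P : Polynomial Ω := (minpoly P₀ x).map (algebraMap P₀ Ω) with hPdef
  have hPmonic : P.Monic := (minpoly.monic hint).map _
  set n := P.natDegree with hn
  have hPK : ∀ i, P.coeff i ∈ P₀ := fun i => by
    rw [hPdef, coeff_map]
    exact ((minpoly P₀ x).coeff i).2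
  have hPx : P.eval x = 0 := by
    rw [hPdef, eval_map_algebraMap]
    exact minpoly.aeval P₀ x
  have hM : (1 : ℝ) ≤ max 1 ‖x‖ := le_max_left _ _
  have hMpos : (0 : ℝ) < max 1 ‖x‖ := lt_of_lt_of_le one_pos hM
  have hδ : 0 < ε ^ n / (2 * max 1 ‖x‖ ^ n) := by positivity
  choose b hbC hb using fun i : ℕ => hP (P.coeff i) (hPK i) _ hδ
  set R : Polynomial Ω := ∑ i ∈ Finset.range n, Polynomial.C (b i) * X ^ i with hR
  have hRdeg : R.degree < (n : WithBot ℕ) := by
    rw [degree_lt_iff_coeff_zero]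
    intro m hm
    rw [hR, finsetSum_coeff]
    refine Finset.sum_eq_zero fun i hi => ?_
    rw [coeff_C_mul_X_pow, if_neg]
    have h1 := Finset.mem_range.1 hi
    omega
  set Q : Polynomial Ω := X ^ n + R with hQ
  have hQmonic : Q.Monic := monic_X_pow_add hRdeg
  have hQdeg : Q.natDegree = n := by
    rw [hQ, natDegree_add_eq_left_of_degree_lt, natDegree_X_pow]
    rwa [degree_X_pow]
  have hQC : Coeffs C Q := by
    intro k
    rw [hQ, coeff_add, coeff_X_pow, hR, finsetSum_coeff]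
    refine C.add_mem ?_ (C.sum_mem fun i _ => ?_)
    · split_ifs
      · exact C.one_mem
      · exact C.zero_mem
    · rw [coeff_C_mul_X_pow]
      split_ifs
      · exact hbC i
      · exact C.zero_mem
  have hPx2 : P.eval x = x ^ n + ∑ i ∈ Finset.range n, P.coeff i * x ^ i := by
    rw [eval_eq_sum_range, Finset.sum_range_succ, ← hn, hPmonic.coeff_natDegree, one_mul, add_comm]
  have hQx : Q.eval x = ∑ i ∈ Finset.range n, (b i - P.coeff i) * x ^ i := by
    have h1 : Q.eval x = Q.eval x - P.eval x := by rw [hPx, sub_zero]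
    rw [h1, hPx2, hQ, hR, eval_add, eval_pow, eval_X, eval_finsetSum, add_sub_add_left_eq_sub,
      ← Finset.sum_sub_distrib]
    refine Finset.sum_congr rfl fun i _ => ?_
    rw [eval_mul, eval_C, eval_pow, eval_X]
    ring
  have hQlt : ‖Q.eval x‖ < ε ^ n := by
    rw [hQx]
    refine Finset.sum_induction _ (fun y => ‖y‖ < ε ^ n) ?_ ?_ ?_
    · intro a c ha hc
      exact lt_of_le_of_lt (IsUltrametricDist.norm_add_le_max _ _) (max_lt ha hc)
    · rw [norm_zero]
      positivity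
    intro i hi'
    have hi := Finset.mem_range.1 hi'
    rw [norm_mul, norm_pow, norm_sub_rev]
    have h2 : ‖x‖ ^ i ≤ max 1 ‖x‖ ^ n :=
      (pow_le_pow_left₀ (norm_nonneg x) (le_max_right _ _) i).trans
        (pow_le_pow_right₀ hM hi.le)
    calc ‖P.coeff i - b i‖ * ‖x‖ ^ i ≤ ε ^ n / (2 * max 1 ‖x‖ ^ n) * max 1 ‖x‖ ^ n :=
          mul_le_mul (hb i).le h2 (by positivity) hδ.le
      _ = ε ^ n / 2 := by
        have h3 : max 1 ‖x‖ ^ n ≠ 0 := (pow_pos hMpos n).ne'
        field_simp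
      _ < ε ^ n := half_lt_self (by positivity)
  have hQfac : Q.eval x = (Q.roots.map fun c => x - c).prod := by
    have h1 := (IsAlgClosed.splits Q).eq_prod_roots
    rw [hQmonic.leadingCoeff, Polynomial.C_1, one_mul] at h1
    conv_lhs => rw [h1]
    rw [eval_multiset_prod, Multiset.map_map]
    congr 1
    refine Multiset.map_congr rfl fun c _ => ?_
    simp
  have hQcard : Multiset.card Q.roots = n := by
    rw [← hQdeg]
    exact (IsAlgClosed.splits Q).natDegree_eq_card_roots.symm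
  by_contra hcon
  push Not at hcon
  have hall : ∀ c ∈ Q.roots, ε ≤ ‖x - c‖ := by
    intro c hc
    exact hcon c (mem_of_eval_eq_zero hC hQC hQmonic.ne_zero ((mem_roots hQmonic.ne_zero).1 hc))
  have hprod : ∀ s : Multiset Ω, (∀ c ∈ s, ε ≤ ‖x - c‖) →
      ε ^ Multiset.card s ≤ ‖(s.map fun c => x - c).prod‖ := by
    intro s
    induction s using Multiset.induction with
    | empty => intro _; simp
    | cons c s ih =>
      intro hs
      rw [Multiset.map_cons, Multiset.prod_cons, norm_mul, Multiset.card_cons, pow_succ, mul_comm]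
      exact mul_le_mul (hs c (Multiset.mem_cons_self c s))
        (ih fun c hc => hs c (Multiset.mem_cons_of_mem hc)) (by positivity) (norm_nonneg _)
  have h2 := hprod Q.roots hall
  rw [hQcard, ← hQfac] at h2
  exact absurd hQlt (not_lt.2 h2)

end DA
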