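import Pool.Agent.Lib.DA.Zc
import Pool.Agent.Lib.MP_1a953e_ag.DTop
import Pool.Agent.Lib.MP_1a953e_ag.Em9
import Pool.Agent.Lib.MP_1a953e_ag.Calc4

/-!
# Module Zd: an element `z₁` of `ι(L) C` such that `C(z₁)` is dense
-/

namespace DA

open Polynomial MP1a953e

private theorem zd_norm_eq {Ω : Type*} [NormedField Ω] [IsUltrametricDist Ω] {x y : Ω}
    (h : ‖y‖ < ‖x‖) : ‖x - y‖ = ‖x‖ := by
  have h1 : ‖x‖ ≠ ‖-y‖ := by rw [norm_neg]; exact ne_of_gt h
  rw [sub_eq_add_neg, IsUltrametricDist.norm_add_eq_max_of_norm_ne_norm h1, norm_neg]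
  exact max_eq_left h.le

private theorem zd_mono {Ω : Type*} [NormedField Ω] {A B : Subfield Ω} (h : A ≤ B) {x : Ω}
    (hx : IsAlgebraic A x) : IsAlgebraic B x := by
  obtain ⟨P, hP0, hP⟩ := hx
  refine ⟨P.map (Subfield.inclusion h), ?_, ?_⟩
  · exact (Polynomial.map_ne_zero_iff (Subfield.inclusion h).injective).2 hP0
  · rw [aeval_def, eval₂_map]
    exact hP

private theorem zd_sup_closure {Ω : Type*} [NormedField Ω] (K : Subfield Ω) (s : Set Ω) :
    K ⊔ Subfield.closure s = (IntermediateField.adjoin K s).toSubfield := by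
  rw [IntermediateField.adjoin_toSubfield, Subfield.closure_union]
  congr 1
  have : Set.range (algebraMap K Ω) = (K : Set Ω) := by
    ext x
    constructor
    · rintro ⟨a, rfl⟩
      exact a.2
    · intro hx
      exact ⟨⟨x, hx⟩, rfl⟩
  rw [this, Subfield.closure_eq]

/-- `ι T` is transcendental over the image. -/
private theorem zd_trans {k L Ω : Type*} [Field k] [Field L] [Algebra k L] [Field Ω]
    (ι : L →+* Ω) (M : IntermediateField k L) {T : L}
    (h : IsAlgebraic ↥(M.toSubfield.map ι) (ι T)) : IsAlgebraic M T := by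
  let f : M →+* ↥(M.toSubfield.map ι) :=
    (ι.comp (algebraMap M L)).codRestrict (M.toSubfield.map ι) (fun x => ⟨x.1, x.2, rfl⟩)
  refine h.of_ringHom_of_comp_eq f ι ?_ ι.injective ?_
  · rintro ⟨y, x, hx, rfl⟩
    exact ⟨⟨x, hx⟩, rfl⟩
  · ext x
    rfl

/-- The image of an algebraic extension. -/
private theorem zd_alg {k L Ω : Type*} [Field k] [Field L] [Algebra k L] [Field Ω]
    (ι : L →+* Ω) (M : IntermediateField k L) {A : Subfield Ω} (hA : ∀ x ∈ M, ι x ∈ A) {x : L}
    (h : IsAlgebraic M x) : IsAlgebraic A (ι x) := by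
  let f : M →+* A := (ι.comp (algebraMap M L)).codRestrict A (fun x => hA x.1 x.2)
  refine h.ringHom_of_comp_eq f ι f.injective ?_
  ext x
  rfl

/-- Zd.  Proof.  Let `t = ι T`, `E₀ = ι(L) ⊔ C`. `t ∉ C` (`T` is transcendental over `k(e, u)`). All elements
of `E₀` are algebraic over `adj C t` (`L` is algebraic over `k(e, u, T)`).
Case 1: `infDist t C = 0`. Then all elements of `adj C t` are limits of elements of `C` (closure of `C` is
a subfield), so are all elements of `E₀` (`approx_of_algebraic` with `P₀ = adj C t`). Take `z₁ = t`,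
`δ = 1`: for `z ∈ E₀`, `z ∉ C`: `NA C z` because `‖z - b‖ > 0` and there are `b' ∈ C` with `‖z - b'‖`
arbitrarily small; density: elements of `C ≤ adj C z`.
Case 2: `0 < infDist t C`. `TT C t` by `tt_of_immAll`. `exists_P₀` (module Em9) for `F = ι(k(e,u))` and the family
`Fin.append e u : Fin (r + m) → L` (its range is `range e ∪ range u`) gives `P₀` complete,
`adj F t` dense in `P₀ ≤ K`, and `K` is finite over `P₀`. `Ω` is algebraic over `P₀`. Apply `dim_one`
with the intermediate field of `Ω / (P₀ ⊔ C)` with underlying field `K ⊔ C` (finite dimensional): there is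
`y ∈ K ⊔ C` with `TT C y` and `adj C y` dense in `K ⊔ C`. (Compare the proof of `hr_tf` in HR2.) Let
`δ₀ = infDist y C`; by `sup_dense` there is `z₁ ∈ E₀` with `‖y - z₁‖ < δ₀`. Take `δ = δ₀`: for `z ∈ E₀`
with `‖z - z₁‖ < δ₀` we have `‖y - z‖ < δ₀`, so `adj C z` is dense in `K ⊔ C ≥ E₀` by `TT.gc`, and
`‖z - b‖ = ‖y - b‖` for `b ∈ C` (`TT.nb`), so `NA C z` by `TT.exists_near`. -/
theorem exists_z1 {p : ℕ} [Fact p.Prime] {k L Ω : Type*} [NontriviallyNormedField k]
    [IsUltrametricDist k] [NormedField L] [IsUltrametricDist L] [NormedAlgebra k L]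
    [NormedField Ω] [IsUltrametricDist Ω] [IsAlgClosed Ω] (hp : ‖(p : Ω)‖ < 1) {ι : L →+* Ω}
    {K : Subfield Ω} (hE : Emb ι K) (halg : ∀ x : Ω, IsAlgebraic K x) {r m : ℕ}
    (e : Fin r → L) (u : Fin m → L) (T : L) (hT : Transcendental (keu k e u) T)
    (hsep : Algebra.IsSeparable (keuT k e u T) L) (hfg : (⊤ : IntermediateField k L).FG)
    {C : Subfield Ω} (hC : IsAlgClosed C)
    (hCM : ∀ x, x ∈ C ↔ IsAlgebraic ↥((keu k e u).toSubfield.map ι) x) (him : ImmAll C) :
    ∃ z₁ ∈ ι.fieldRange ⊔ C, ∃ δ : ℝ, 0 < δ ∧ ∀ z ∈ ι.fieldRange ⊔ C, ‖z - z₁‖ < δ → z ∉ C →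
      NA C z ∧ ∀ x ∈ ι.fieldRange ⊔ C, ∀ ε : ℝ, 0 < ε → ∃ g ∈ adj C z, ‖x - g‖ < ε := by
  classical
  set t : Ω := ι T with ht
  set M' : Subfield Ω := (keu k e u).toSubfield.map ι with hM'
  have hM'C : M' ≤ C := by
    intro x hx
    rw [hCM]
    exact isAlgebraic_algebraMap (R := M') (A := Ω) ⟨x, hx⟩
  have htC : t ∉ C := by
    intro h
    exact hT (zd_trans ι (keu k e u) ((hCM t).1 h))
  have htE : t ∈ ι.fieldRange ⊔ C := (le_sup_left : ι.fieldRange ≤ _) ⟨T, rfl⟩
  have hM'adj : M' ≤ adj C t := hM'C.trans (le_adj C t)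
  -- `ι (k(e,u,T)) ≤ adj C t`
  have hkeuT : ∀ x ∈ keuT k e u T, ι x ∈ adj C t := by
    let Q : IntermediateField k L :=
      { (adj C t).comap ι with
        algebraMap_mem' := fun c => by
          apply hM'adj
          exact ⟨algebraMap k L c, (keu k e u).algebraMap_mem c, rfl⟩ }
    have hQ : keuT k e u T ≤ Q := by
      unfold keuT
      rw [IntermediateField.adjoin_le_iff]
      rintro x (hx | hx)
      · apply hM'adj
        refine ⟨x, ?_, rfl⟩
        exact IntermediateField.subset_adjoin k _ hx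
      · rw [Set.mem_singleton_iff.1 hx]
        exact mem_adj_self C t
    intro x hx
    exact hQ hx
  have hE₀alg : ∀ x ∈ ι.fieldRange ⊔ C, IsAlgebraic (adj C t) x := by
    have h1 : ι.fieldRange ⊔ C ≤ (algebraicClosure (adj C t) Ω).toSubfield := by
      refine sup_le ?_ ?_
      · rintro _ ⟨x, rfl⟩
        show ι x ∈ algebraicClosure (adj C t) Ω
        rw [mem_algebraicClosure_iff]
        exact zd_alg ι (keuT k e u T) hkeuT (Algebra.IsSeparable.isSeparable _ x).isIntegral.isAlgebraic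
      · intro x hx
        show x ∈ algebraicClosure (adj C t) Ω
        rw [mem_algebraicClosure_iff]
        exact isAlgebraic_algebraMap (R := adj C t) (A := Ω) ⟨x, le_adj C t hx⟩
    intro x hx
    exact mem_algebraicClosure_iff.1 (h1 hx)
  by_cases hd0 : Metric.infDist t (C : Set Ω) = 0
  · -- Case 1
    have hne : (C : Set Ω).Nonempty := ⟨0, C.zero_mem⟩
    have htcl : t ∈ C.topologicalClosure := by
      show t ∈ closure (C : Set Ω)
      rw [Metric.mem_closure_iff_infDist_zero hne]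
      exact hd0
    have hadj : ∀ x ∈ adj C t, ∀ ε : ℝ, 0 < ε → ∃ c ∈ C, ‖x - c‖ < ε := by
      intro x hx ε hε
      have h1 : x ∈ closure (C : Set Ω) :=
        (adj_le (Subfield.le_topologicalClosure C) htcl : adj C t ≤ C.topologicalClosure) hx
      obtain ⟨c, hc, h2⟩ := Metric.mem_closure_iff.1 h1 ε hε
      exact ⟨c, hc, by rw [← dist_eq_norm]; exact h2⟩
    have happ : ∀ x ∈ ι.fieldRange ⊔ C, ∀ ε : ℝ, 0 < ε → ∃ c ∈ C, ‖x - c‖ < ε := by
      intro x hx ε hε
      exact approx_of_algebraic hC hadj (hE₀alg x hx) hε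
    refine ⟨t, htE, 1, one_pos, ?_⟩
    intro z hz _ hzC
    refine ⟨?_, ?_⟩
    · intro b hb
      have h1 : 0 < ‖z - b‖ := by
        rw [norm_pos_iff, sub_ne_zero]
        rintro rfl
        exact hzC hb
      exact happ z hz _ h1
    · intro x hx ε hε
      obtain ⟨c, hc, h1⟩ := happ x hx ε hε
      exact ⟨c, le_adj C z hc, h1⟩
  · -- Case 2
    have hpos : 0 < Metric.infDist t (C : Set Ω) :=
      lt_of_le_of_ne Metric.infDist_nonneg (Ne.symm hd0)
    have hTT : TT C t := tt_of_immAll hC him hpos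
    have hkM : kO k ι ≤ M' := by
      rintro _ ⟨c, rfl⟩
      exact ⟨algebraMap k L c, (keu k e u).algebraMap_mem c, rfl⟩
    have hM'K : M' ≤ K := by
      rintro _ ⟨x, _, rfl⟩
      exact hE.mem x
    have hrange : Set.range (Fin.append e u) = Set.range e ∪ Set.range u := by
      ext x
      constructor
      · rintro ⟨i, rfl⟩
        refine Fin.addCases (fun i => ?_) (fun i => ?_) i
        · rw [Fin.append_left]
          exact Or.inl ⟨i, rfl⟩
        · rw [Fin.append_right]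
          exact Or.inr ⟨i, rfl⟩
      · rintro (⟨i, rfl⟩ | ⟨i, rfl⟩)
        · exact ⟨Fin.castAdd m i, Fin.append_left _ _ _⟩
        · exact ⟨Fin.natAdd r i, Fin.append_right _ _ _⟩
    have hu' : ∀ i, ι (Fin.append e u i) ∈ M' := by
      intro i
      refine ⟨Fin.append e u i, ?_, rfl⟩
      apply IntermediateField.subset_adjoin k
      rw [← hrange]
      exact ⟨i, rfl⟩
    have hsep' : Algebra.IsSeparable
        (IntermediateField.adjoin k (Set.range (Fin.append e u) ∪ {T})) L := by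
      rw [hrange]
      exact hsep
    obtain ⟨P₀, hP₀c, hP₀d, hP₀K, E, hEfin, _, hEK⟩ :=
      exists_P₀ hE hkM hM'K (Fin.append e u) hu' T hsep' hfg
    have halgP : ∀ x : Ω, IsAlgebraic P₀ x := by
      intro x
      have h1 : IsAlgebraic E x := by
        have h2 := halg x
        subst hEK
        obtain ⟨P, hP0, hP⟩ := h2
        exact ⟨P, hP0, hP⟩
      exact h1.restrictScalars P₀
    have hTP : t ∈ P₀ := hP₀d.1 (mem_adj_self M' t)
    have hPC : ∀ x ∈ P₀, ∀ ε : ℝ, 0 < ε → ∃ y ∈ adj C t, ‖x - y‖ < ε := by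
      intro x hx ε hε
      obtain ⟨y, hy, h1⟩ := hP₀d.2 x hx ε hε
      exact ⟨y, (sup_le_sup_right hM'C _ : adj M' t ≤ adj C t) hy, h1⟩
    obtain ⟨S, hS⟩ : E.FG := by
      apply IntermediateField.fg_of_fg_toSubalgebra
      rw [← Subalgebra.fg_top]
      have h0 : Module.Finite P₀ E.toSubalgebra := inferInstanceAs (Module.Finite P₀ E)
      have h1 : Algebra.FiniteType P₀ E.toSubalgebra := inferInstance
      exact h1.out
    have hEs : K = P₀ ⊔ Subfield.closure (S : Set Ω) := by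
      rw [zd_sup_closure, hS, hEK]
    set E2 : IntermediateField ↥(P₀ ⊔ C) Ω :=
      IntermediateField.adjoin ↥(P₀ ⊔ C) (S : Set Ω) with hE2
    have hE2s : E2.toSubfield = K ⊔ C := by
      rw [hE2, ← zd_sup_closure, hEs, sup_right_comm]
    have hfin2 : FiniteDimensional ↥(P₀ ⊔ C) E2 :=
      IntermediateField.finiteDimensional_adjoin fun x _ =>
        (zd_mono (le_sup_left : P₀ ≤ P₀ ⊔ C) (halgP x)).isIntegral
    have hnt : ∃ x ∈ P₀, 1 < ‖x‖ := by
      obtain ⟨c, hc⟩ := NontriviallyNormedField.non_trivial (α := k)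
      refine ⟨ι (algebraMap k L c), hP₀d.1 (le_adj M' t (hkM ⟨c, rfl⟩)), ?_⟩
      rw [hE.norm, norm_algebraMap']
      exact hc
    obtain ⟨y, hyE, hyTT, hyd⟩ := dim_one hp hC him hTT hP₀c hnt halgP hTP hPC E2
    rw [hE2s] at hyd
    have hyKC : y ∈ K ⊔ C := by
      rw [← hE2s]
      exact hyE
    have hdense : DenseIn ι.fieldRange K := by
      refine ⟨?_, ?_⟩
      · rintro _ ⟨x, rfl⟩
        exact hE.mem x
      · intro x hx ε hε
        obtain ⟨a, ha⟩ := hE.dense x hx ε hε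
        exact ⟨ι a, ⟨a, rfl⟩, ha⟩
    have hsupd := sup_dense (C := C) hdense
    have hδ : 0 < Metric.infDist y (C : Set Ω) := hyTT.pos
    obtain ⟨z₁, hz₁, hyz₁⟩ := hsupd.2 y hyKC _ hδ
    refine ⟨z₁, hz₁, _, hδ, ?_⟩
    intro z hz hzz₁ _
    have hyz : ‖y - z‖ < Metric.infDist y (C : Set Ω) := by
      have h1 : y - z = (y - z₁) + (z₁ - z) := by ring
      rw [h1]
      refine (IsUltrametricDist.norm_add_le_max _ _).trans_lt (max_lt hyz₁ ?_)
      rw [norm_sub_rev]
      exact hzz₁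
    have hzK : z ∈ K ⊔ C := hsupd.1 hz
    have hzd := hyTT.gc hyd hzK hyz
    have hdist : ∀ b ∈ C, ‖z - b‖ = ‖y - b‖ := by
      intro b hb
      have h1 : ‖y - z‖ < ‖y - b‖ :=
        hyz.trans (hyTT.nb b (isAlgebraic_algebraMap (R := C) (A := Ω) ⟨b, hb⟩))
      have h2 : z - b = (y - b) - (y - z) := by ring
      rw [h2]
      exact zd_norm_eq h1
    refine ⟨?_, ?_⟩
    · intro b hb
      obtain ⟨a, ha, h1, _⟩ := hyTT.exists_near
        (hyTT.nb b (isAlgebraic_algebraMap (R := C) (A := Ω) ⟨b, hb⟩))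
      refine ⟨a, ha, ?_⟩
      rw [hdist a ha, hdist b hb]
      exact h1
    · intro x hx ε hε
      exact hzd.2 x (hsupd.1 hx) ε hε

end DA
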