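import Pool.Agent.Lib.DA.Defs2
import Pool.Agent.Lib.MP_1a953e_ag.Em8
import Pool.Agent.Lib.MP_1a953e_ag.DImmA
import Pool.Agent.Lib.HR.FS

/-!
# Module Ze: separability over `C(z)`
-/

namespace DA

open Polynomial MP1a953e

universe v

/-- separability over a subfield by a polynomial -/
private theorem Ze.sep_crit {Ω : Type*} [Field Ω] {K : Subfield Ω} {x : Ω} (P : Polynomial Ω)
    (hc : P ∈ Polynomial.lifts (algebraMap K Ω)) (h0 : P.eval x = 0)
    (h1 : P.derivative.eval x ≠ 0) : IsSeparable K x := by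
  obtain ⟨Q, hQ⟩ := (Polynomial.mem_lifts _).1 hc
  have hQ0 : aeval x Q = 0 := by
    rw [aeval_def, ← eval_map, hQ, h0]
  have hQ1 : aeval x Q.derivative ≠ 0 := by
    rw [aeval_def, ← eval_map, ← derivative_map, hQ]
    exact h1
  have hQne : Q ≠ 0 := by
    rintro rfl
    simp at hQ1
  have hint : IsIntegral K x := IsAlgebraic.isIntegral ⟨Q, hQne, hQ0⟩
  obtain ⟨R, hR⟩ := minpoly.dvd K x hQ0
  have hd : (minpoly K x).derivative ≠ 0 := by
    intro h
    apply hQ1
    rw [hR, derivative_mul, h, zero_mul, zero_add, map_mul, minpoly.aeval, zero_mul]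
  exact (separable_iff_derivative_ne_zero (minpoly.irreducible hint)).2 hd

/-- small nonzero elements of `C` -/
private theorem Ze.exists_small {Ω : Type*} [NormedField Ω] {C : Subfield Ω}
    (hnt : ∃ x ∈ C, 1 < ‖x‖) {η : ℝ} (hη : 0 < η) : ∃ ε ∈ C, ε ≠ 0 ∧ ‖ε‖ < η := by
  obtain ⟨x, hx, hx1⟩ := hnt
  have hx0 : x ≠ 0 := by
    rintro rfl
    rw [norm_zero] at hx1
    linarith
  have h1 : ‖x⁻¹‖ < 1 := by
    rw [norm_inv]
    exact inv_lt_one_of_one_lt₀ hx1
  obtain ⟨n, hn⟩ := exists_pow_lt_of_lt_one hη h1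
  refine ⟨x⁻¹ ^ n, pow_mem (inv_mem hx) n, pow_ne_zero n (inv_ne_zero hx0), ?_⟩
  rw [norm_pow]
  exact hn

/-- Ze.  Proof.  Apply `exists_alpha_sep` (module Em8) with `k = ↥C` (nontrivially normed by `hnt`), `L = ↥E`,
`m = 0`, `u = ![]`, `T = t` (`trdeg (E / C) = 1`: `t` is transcendental over the algebraically closed field
`C`, and `E` is algebraic over `C(t)`), `α₀ = z₁`: this gives `z ∈ E` with `‖z - z₁‖ < δ` and `E`
separable over `C(z)`. (If the instances are awkward copy that proof: `z = z₁ + ε t` with `ε ∈ C`.) If `z ∈ C`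
then `E` would be algebraic over `C`, so `t ∈ C` (`mem_of_algebraic`), a contradiction. `y` is a primitive
element: `E` is finitely generated and separable over `adj C z` (`HR.FSep.prim`, `HR.FSep.finset`). -/
theorem exists_sep_z {Ω : Type v} [NormedField Ω] [IsUltrametricDist Ω] {C E : Subfield Ω}
    (hC : IsAlgClosed C) (hnt : ∃ x ∈ C, 1 < ‖x‖) (hCE : C ≤ E) {t : Ω} (ht : t ∈ E)
    (htC : t ∉ C) (hsep : ∀ x ∈ E, IsSeparable (adj C t) x)
    (hfg : ∃ s : Finset Ω, E = C ⊔ Subfield.closure (s : Set Ω)) {z₁ : Ω} (hz₁ : z₁ ∈ E)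
    {δ : ℝ} (hδ : 0 < δ) :
    ∃ z ∈ E, ‖z - z₁‖ < δ ∧ z ∉ C ∧ ∃ y ∈ E, IsSeparable (adj C z) y ∧
      ∀ x ∈ E, x ∈ adj (adj C z) y := by
  classical
  have hmem : ∀ x ∈ adj C t, ∃ r s : Polynomial C, x * aeval t s = aeval t r ∧
      aeval t s ≠ 0 := by
    intro x hx
    rw [mem_adj_iff, IntermediateField.mem_adjoin_simple_iff] at hx
    obtain ⟨r, s, hrs⟩ := hx
    by_cases hs : aeval t s = 0
    · refine ⟨0, 1, ?_, ?_⟩
      · rw [hrs, hs]; simp
      · simp
    · exact ⟨r, s, by rw [hrs, div_mul_cancel₀ _ hs], hs⟩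
  -- the separable polynomial of `z₁` over `C(t)`
  obtain ⟨P0, hP0c, hP00, hP01⟩ : ∃ P : Polynomial Ω, (∀ i, P.coeff i ∈ adj C t) ∧
      P.eval z₁ = 0 ∧ P.derivative.eval z₁ ≠ 0 := by
    have hx : IsSeparable (adj C t) z₁ := hsep z₁ hz₁
    refine ⟨(minpoly (adj C t) z₁).map (algebraMap (adj C t) Ω), fun i => ?_, ?_, ?_⟩
    · rw [coeff_map]
      exact ((minpoly (adj C t) z₁).coeff i).2
    · rw [eval_map, ← aeval_def, minpoly.aeval]
    · rw [derivative_map, eval_map, ← aeval_def]
      exact Polynomial.Separable.aeval_derivative_ne_zero hx (minpoly.aeval _ _)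
  choose r s hrs hs0 using fun i => hmem _ (hP0c i)
  set n := P0.natDegree with hn
  set b : Ω := ∏ j ∈ Finset.range (n + 1), aeval t (s j) with hb
  have hb0 : b ≠ 0 := Finset.prod_ne_zero_iff.2 fun j _ => hs0 j
  set R : ℕ → Polynomial C := fun i => r i * ∏ j ∈ (Finset.range (n + 1)).erase i, s j with hR
  have hRT : ∀ i ∈ Finset.range (n + 1), aeval t (R i) = b * P0.coeff i := by
    intro i hi
    rw [hR]
    simp only [map_mul, map_prod]
    rw [← hrs i, hb, ← Finset.mul_prod_erase _ _ hi]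
    ring
  set w : Ω := ∑ i ∈ Finset.range (n + 1), aeval t (R i).derivative * z₁ ^ i with hw
  set v : Ω := b * P0.derivative.eval z₁ with hv
  have hv0 : v ≠ 0 := mul_ne_zero hb0 hP01
  obtain ⟨ε, hεC, hε, hεv⟩ : ∃ ε ∈ C, ‖ε‖ * ‖t‖ < δ ∧ w - ε * v ≠ 0 := by
    by_cases hw0 : w = 0
    · obtain ⟨ε, hεC, hε0, hε⟩ := Ze.exists_small hnt (show 0 < δ / (‖t‖ + 1) by positivity)
      refine ⟨ε, hεC, ?_, ?_⟩
      · rw [lt_div_iff₀ (by positivity)] at hε
        nlinarith [norm_nonneg t, norm_nonneg ε]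
      · rw [hw0, zero_sub, neg_ne_zero]
        exact mul_ne_zero hε0 hv0
    · exact ⟨0, C.zero_mem, by simpa using hδ, by simpa using hw0⟩
  set α : Ω := z₁ + ε * t with hα
  have hαE : α ∈ E := E.add_mem hz₁ (E.mul_mem (hCE hεC) ht)
  have hCα : C ≤ adj C α := le_adj C α
  have hαmem : α ∈ adj C α := by
    exact (le_sup_right : Subfield.closure ({α} : Set Ω) ≤ _) (Subfield.subset_closure rfl)
  have hTsep : IsSeparable (adj C α) t := by
    set P : Polynomial Ω := ∑ i ∈ Finset.range (n + 1),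
      (R i).map (algebraMap C Ω) * (Polynomial.C α - Polynomial.C ε * X) ^ i with hP
    have hkey : (Polynomial.C α - Polynomial.C ε * X : Polynomial Ω).eval t = z₁ := by
      simp only [eval_sub, eval_mul, eval_C, eval_X]
      rw [hα]; ring
    refine Ze.sep_crit P ?_ ?_ ?_
    · rw [hP]
      have hsub : (Polynomial.C α - Polynomial.C ε * X : Polynomial Ω) =
          Polynomial.C α + Polynomial.C (-ε) * X := by
        rw [C_neg]; ring
      rw [hsub]
      refine sum_mem fun i _ => mul_mem ?_ (pow_mem (add_mem ?_ (mul_mem ?_ ?_)) i)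
      · rw [Polynomial.lifts_iff_coeff_lifts]
        intro j
        rw [coeff_map]
        exact ⟨⟨((R i).coeff j : Ω), hCα ((R i).coeff j).2⟩, rfl⟩
      · exact Polynomial.C_mem_lifts (algebraMap (adj C α) Ω) ⟨α, hαmem⟩
      · exact Polynomial.C_mem_lifts (algebraMap (adj C α) Ω)
          (-⟨ε, hCα hεC⟩)
      · exact Polynomial.X_mem_lifts _
    · rw [hP, eval_finsetSum]
      have : ∀ i ∈ Finset.range (n + 1), ((R i).map (algebraMap C Ω) *
          (Polynomial.C α - Polynomial.C ε * X) ^ i).eval t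
          = b * (P0.coeff i * z₁ ^ i) := by
        intro i hi
        rw [eval_mul, eval_pow, hkey, eval_map, ← aeval_def, hRT i hi]
        ring
      rw [Finset.sum_congr rfl this, ← Finset.mul_sum, ← Polynomial.eval_eq_sum_range, hP00, mul_zero]
    · have hder : P.derivative.eval t = w - ε * v := by
        rw [hP, derivative_sum, eval_finsetSum]
        have : ∀ i ∈ Finset.range (n + 1),
            (((R i).map (algebraMap C Ω) *
              (Polynomial.C α - Polynomial.C ε * X) ^ i).derivative).eval t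
            = aeval t (R i).derivative * z₁ ^ i
              - ε * (b * (P0.coeff i * (i * z₁ ^ (i - 1)))) := by
          intro i hi
          rw [derivative_mul, derivative_pow, eval_add, eval_mul, eval_mul, eval_pow, hkey,
            eval_map, ← aeval_def, hRT i hi, derivative_map, eval_map, ← aeval_def, eval_mul,
            eval_mul, eval_pow, hkey]
          simp only [derivative_sub, derivative_mul, derivative_C, derivative_X, eval_sub, eval_add,
            eval_mul, eval_C, eval_X, eval_zero, eval_one]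
          ring
        rw [Finset.sum_congr rfl this, Finset.sum_sub_distrib, ← Finset.mul_sum, ← Finset.mul_sum,
          hw, hv]
        congr 3
        rw [derivative_eval, Polynomial.sum_over_range]
        · refine Finset.sum_congr rfl fun i _ => ?_
          ring
        · intro i; simp
      rw [hder]
      exact hεv
  -- all elements of `E` are separable over `C(α)`
  have hall : ∀ x ∈ E, IsSeparable (adj C α) x := by
    intro x hx
    set N := adj (adj C α) t with hN
    have h1 : HR.FSep (adj C α) N := HR.FSep.adj hTsep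
    have h2 : adj C t ≤ N := by
      refine adj_le (hCα.trans (le_adj _ _)) ?_
      exact (le_sup_right : Subfield.closure ({t} : Set Ω) ≤ _) (Subfield.subset_closure rfl)
    have h3 : HR.FSep (adj C t) (adj (adj C t) x) := HR.FSep.adj (hsep x hx)
    have h4 : HR.FSep N (N ⊔ adj (adj C t) x) := h3.sup_base h2
    refine (h1.trans h4).sep x ?_
    exact (le_sup_right : adj (adj C t) x ≤ _)
      ((le_sup_right : Subfield.closure ({x} : Set Ω) ≤ _) (Subfield.subset_closure rfl))
  refine ⟨α, hαE, ?_, ?_, ?_⟩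
  · rw [hα, add_sub_cancel_left, norm_mul]
    exact hε
  · intro hαC
    have h1 : adj C α = C := le_antisymm (adj_le le_rfl hαC) hCα
    have h2 : IsSeparable C t := by
      rw [← h1]
      exact hTsep
    exact htC (mem_of_algebraic hC h2.isIntegral.isAlgebraic)
  · obtain ⟨S, hS⟩ := hfg
    have hSE : ∀ x ∈ S, x ∈ E := by
      intro x hx
      rw [hS]
      exact (le_sup_right : Subfield.closure (S : Set Ω) ≤ _) (Subfield.subset_closure hx)
    have h1 : HR.FSep (adj C α) (adj C α ⊔ Subfield.closure (S : Set Ω)) :=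
      HR.FSep.finset S (fun x hx => hall x (hSE x hx))
    have h2 : E ≤ adj C α ⊔ Subfield.closure (S : Set Ω) := by
      rw [hS]
      exact sup_le_sup_right hCα _
    have h3 : adj C α ⊔ Subfield.closure (S : Set Ω) ≤ E := by
      refine sup_le (adj_le hCE hαE) ?_
      rw [Subfield.closure_le]
      intro x hx
      exact hSE x hx
    obtain ⟨y, hy, hysep, hyeq⟩ := h1.prim
    refine ⟨y, h3 hy, hysep, ?_⟩
    intro x hx
    rw [← hyeq]
    exact h2 hx

end DA
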