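import Pool.Agent.Lib.DA.Za
import Pool.Agent.Lib.DA.Zd
import Pool.Agent.Lib.DA.Ze
import Pool.Agent.Lib.DA.Xe
import Pool.Agent.Lib.MP_1a953e_ag.Tr1

/-!
# Module Zf: the situation over the algebraic closure of `k(e, u)`
-/

namespace DA

open Polynomial MP1a953e

universe v

/-- separability over a subfield by a polynomial -/
private theorem Zf.sep_crit {Ω : Type*} [Field Ω] {K : Subfield Ω} {x : Ω} (P : Polynomial Ω)
    (hc : P ∈ Polynomial.lifts (algebraMap K Ω)) (h0 : P.eval x = 0)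
    (h1 : P.derivative.eval x ≠ 0) : IsSeparable K x := by
  obtain ⟨Q, hQ⟩ := (Polynomial.mem_lifts _).1 hc
  have hQ0 : aeval x Q = 0 := by
    rw [aeval_def, ← eval_map, hQ, h0]
  have hQ1 : aeval x Q.derivative ≠ 0 := by
    rw [aeval_def, ← eval_map, ← derivative_map, hQ]
    exact h1
  have hQne : Q ≠ 0 := by
    rintro rfl
    simp at hQ1
  have hint : IsIntegral K x := IsAlgebraic.isIntegral ⟨Q, hQne, hQ0⟩
  obtain ⟨R, hR⟩ := minpoly.dvd K x hQ0
  have hd : (minpoly K x).derivative ≠ 0 := by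
    intro h
    apply hQ1
    rw [hR, derivative_mul, h, zero_mul, zero_add, map_mul, minpoly.aeval, zero_mul]
  exact (separable_iff_derivative_ne_zero (minpoly.irreducible hint)).2 hd

/-- a separating polynomial with coefficients in the subfield -/
private theorem Zf.sep_poly {Ω : Type*} [Field Ω] {K : Subfield Ω} {x : Ω}
    (hx : IsSeparable K x) : ∃ P : Polynomial Ω, (∀ i, P.coeff i ∈ K) ∧ P.eval x = 0 ∧
      P.derivative.eval x ≠ 0 := by
  refine ⟨(minpoly K x).map (algebraMap K Ω), fun i => ?_, ?_, ?_⟩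
  · rw [coeff_map]
    exact ((minpoly K x).coeff i).2
  · rw [eval_map, ← aeval_def, minpoly.aeval]
  · rw [derivative_map, eval_map, ← aeval_def]
    exact Polynomial.Separable.aeval_derivative_ne_zero hx (minpoly.aeval _ _)

/-- polynomials with coefficients in the image -/
private theorem Zf.exists_lift {A B : Type*} [Field A] [Field B] (f : A →+* B) {M : Subfield A}
    (P : Polynomial B) (hP : ∀ i, P.coeff i ∈ M.map f) :
    ∃ Q : Polynomial A, Q.map f = P ∧ ∀ i, Q.coeff i ∈ M := by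
  have h1 : P ∈ Polynomial.lifts f := by
    rw [Polynomial.lifts_iff_coeff_lifts]
    intro i
    obtain ⟨a, -, ha⟩ := hP i
    exact ⟨a, ha⟩
  obtain ⟨Q, hQ⟩ := (Polynomial.mem_lifts _).1 h1
  refine ⟨Q, hQ, fun i => ?_⟩
  obtain ⟨a, ha, hai⟩ := hP i
  rw [← hQ, coeff_map] at hai
  rwa [f.injective hai] at ha

private theorem Zf.map_adj {A B : Type*} [NormedField A] [NormedField B] (f : A →+* B)
    (F : Subfield A) (x : A) : (adj F x).map f = adj (F.map f) (f x) := by
  rw [adj, adj, Subfield.map_sup, RingHom.map_field_closure, Set.image_singleton]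

private theorem Zf.map_comap {Ω : Type*} [Field Ω] {C E : Subfield Ω} (h : C ≤ E) :
    (C.comap E.subtype).map E.subtype = C := by
  ext x
  constructor
  · rintro ⟨y, hy, rfl⟩
    exact hy
  · intro hx
    exact ⟨⟨x, h hx⟩, hx, rfl⟩

/-- Zf.  Proof.  `exists_emb2 L` gives `Ω`, `ι`, `K`. Let `C` be the algebraic closure of
`ι(k(e,u)) = (keu k e u).toSubfield.map ι` in `Ω` (as a subfield; algebraically closed, because `Ω` is).
`ImmAll C` by `immAll_of_ra` (`hD.ra`). `exists_z1` gives `z₁, δ`. Let `E₀ = ι.fieldRange ⊔ C`; it is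
generated over `C` by `ι T` and finitely many elements, and separable over `adj C (ι T)` (`hsep`;
`ι(k(e,u,T)) ≤ adj C (ι T)`). `exists_sep_z` (with `t = ι T`) gives `z, y`. Take `E = ↥E₀` with the
induced norm, `C.comap E₀.subtype`, `j : L → E₀` the corestriction of `ι`. `ZSet.imm`: from `ImmAll C`.
`ZSet.alg`: elements of `C` are algebraic over `ι(M)`. `MStab`: `mstab_of_emb` (module Xe) gives it for
`C` in `Ω`; all elements in question are in `C ≤ E₀`. -/
theorem exists_zset {p : ℕ} [Fact p.Prime] {k L : Type v} [NontriviallyNormedField k]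
    [IsUltrametricDist k] [IsAlgClosed k] (hp : ‖(p : k)‖ < 1) [NormedField L]
    [IsUltrametricDist L] [NormedAlgebra k L] {r m : ℕ} {e : Fin r → L} {u : Fin m → L}
    (hD : D1 k e u) {T : L} (hT : Transcendental (keu k e u) T)
    (hsep : Algebra.IsSeparable (keuT k e u T) L) (hfg : (⊤ : IntermediateField k L).FG) :
    ∃ (E : Type v) (_ : NormedField E), IsUltrametricDist E ∧
      ∃ (C : Subfield E) (j : L →+* E) (z y : E), ZSet (keu k e u) C j z y ∧
        MStab (keu k e u) C j ∧ ∀ x : E, x ∈ j.fieldRange ⊔ C := by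
  classical
  obtain ⟨b₀, hb₀⟩ := NormedField.exists_one_lt_norm k
  have hnt : ∃ x : L, 1 < ‖x‖ := ⟨algebraMap k L b₀, by rwa [norm_algebraMap']⟩
  obtain ⟨Ω, _, _, _, ι, K, hE, halg⟩ := exists_emb2 L hnt
  set M := keu k e u with hM
  set F₀ : Subfield Ω := M.toSubfield.map ι with hF₀
  have hCM : ∀ x, x ∈ (algebraicClosure F₀ Ω).toSubfield ↔ IsAlgebraic F₀ x := fun x =>
    mem_algebraicClosure_iff
  have hC : IsAlgClosed (algebraicClosure F₀ Ω).toSubfield :=
    (inferInstance : IsAlgClosure F₀ (algebraicClosure F₀ Ω)).isAlgClosed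
  set C : Subfield Ω := (algebraicClosure F₀ Ω).toSubfield with hCdef
  have hFC : F₀ ≤ C := by
    intro x hx
    rw [hCM]
    exact isAlgebraic_algebraMap (R := F₀) (A := Ω) ⟨x, hx⟩
  have hMC : ∀ c ∈ M, ι c ∈ C := fun c hc => hFC ⟨c, hc, rfl⟩
  have hkC : ∀ c : k, ι (algebraMap k L c) ∈ C := fun c => hMC _ (M.algebraMap_mem c)
  have hpΩ : ‖(p : Ω)‖ < 1 := by
    have h1 : (p : Ω) = ι (algebraMap k L (p : k)) := by
      rw [map_natCast, map_natCast]
    rw [h1, hE.norm, norm_algebraMap']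
    exact hp
  have hntC : ∃ x ∈ C, 1 < ‖x‖ :=
    ⟨_, hkC b₀, by rw [hE.norm, norm_algebraMap']; exact hb₀⟩
  have hntK : ∃ x ∈ K, 1 < ‖x‖ :=
    ⟨_, hE.mem (algebraMap k L b₀), by rw [hE.norm, norm_algebraMap']; exact hb₀⟩
  have him : ImmAll C := immAll_of_ra hE hntK halg hD.ra hC hMC
  obtain ⟨z₁, hz₁, δ, hδ, hz⟩ := exists_z1 hpΩ hE halg e u T hT hsep hfg hC hCM him
  set E₀ : Subfield Ω := ι.fieldRange ⊔ C with hE₀
  have hCE : C ≤ E₀ := le_sup_right
  have hιE : ∀ x : L, ι x ∈ E₀ := fun x =>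
    (le_sup_left : ι.fieldRange ≤ E₀) ⟨x, rfl⟩
  -- `ι T ∉ C`
  have hTC : ι T ∉ C := by
    rw [hCM]
    intro h
    apply hT
    let f : M →+* F₀ :=
      { toFun := fun x => ⟨ι (x : L), (x : L), x.2, rfl⟩
        map_one' := Subtype.ext (map_one ι)
        map_mul' := fun a b => Subtype.ext (map_mul ι (a : L) (b : L))
        map_zero' := Subtype.ext (map_zero ι)
        map_add' := fun a b => Subtype.ext (map_add ι (a : L) (b : L)) }
    refine IsAlgebraic.of_ringHom_of_comp_eq (f := f) (g := ι) h ?_ ι.injective rfl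
    rintro ⟨_, c, hc, rfl⟩
    exact ⟨⟨c, hc⟩, rfl⟩
  -- separability
  have hkT : ∀ x ∈ keuT k e u T, ι x ∈ adj C (ι T) := by
    intro x hx
    have h1 : (keuT k e u T).toSubfield ≤ (adj C (ι T)).comap ι := by
      rw [keuT, IntermediateField.adjoin_toSubfield, Subfield.closure_le]
      rintro y (⟨c, rfl⟩ | (hy | hy))
      · exact le_adj C _ (hkC c)
      · exact le_adj C _ (hMC y (IntermediateField.subset_adjoin k _ hy))
      · rw [Set.mem_singleton_iff] at hy
        rw [hy]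
        exact mem_adj_self C _
    exact h1 hx
  have hsepι : ∀ x : L, IsSeparable (adj C (ι T)) (ι x) := by
    intro x
    have hx : IsSeparable (keuT k e u T) x := Algebra.IsSeparable.isSeparable _ x
    refine Zf.sep_crit ((minpoly (keuT k e u T) x).map
      (ι.comp (algebraMap (keuT k e u T) L))) ?_ ?_ ?_
    · rw [Polynomial.lifts_iff_coeff_lifts]
      intro i
      rw [coeff_map]
      exact ⟨⟨_, hkT _ ((minpoly (keuT k e u T) x).coeff i).2⟩, rfl⟩
    · rw [eval_map, ← Polynomial.hom_eval₂, ← aeval_def, minpoly.aeval, map_zero]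
    · rw [derivative_map, eval_map, ← Polynomial.hom_eval₂, ← aeval_def]
      rw [_root_.map_ne_zero]
      exact Polynomial.Separable.aeval_derivative_ne_zero hx (minpoly.aeval _ _)
  have hsepE : ∀ x ∈ E₀, IsSeparable (adj C (ι T)) x := by
    have h1 : E₀ ≤ (separableClosure (adj C (ι T)) Ω).toSubfield := by
      refine sup_le ?_ ?_
      · rintro _ ⟨x, rfl⟩
        exact mem_separableClosure_iff.2 (hsepι x)
      · intro x hx
        exact (separableClosure (adj C (ι T)) Ω).algebraMap_mem ⟨x, le_adj C _ hx⟩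
    intro x hx
    exact mem_separableClosure_iff.1 (h1 hx)
  -- finite generation
  have hfgE : ∃ s : Finset Ω, E₀ = C ⊔ Subfield.closure (s : Set Ω) := by
    obtain ⟨s, hs⟩ := hfg
    refine ⟨s.image ι, le_antisymm (sup_le ?_ le_sup_left) (sup_le hCE ?_)⟩
    · rintro _ ⟨x, rfl⟩
      have h1 : (IntermediateField.adjoin k (s : Set L)).toSubfield ≤
          (C ⊔ Subfield.closure ((s.image ι : Finset Ω) : Set Ω)).comap ι := by
        rw [IntermediateField.adjoin_toSubfield, Subfield.closure_le]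
        rintro y (⟨c, rfl⟩ | hy)
        · exact (le_sup_left : C ≤ _) (hkC c)
        · refine (le_sup_right : Subfield.closure _ ≤ C ⊔ _) (Subfield.subset_closure ?_)
          rw [Finset.coe_image]
          exact ⟨y, hy, rfl⟩
      refine h1 ?_
      rw [hs]
      exact (IntermediateField.mem_top : x ∈ (⊤ : IntermediateField k L))
    · rw [Subfield.closure_le, Finset.coe_image]
      rintro _ ⟨x, -, rfl⟩
      exact hιE x
  obtain ⟨z, hzE, hzz, hzC, y, hyE, hysep, hygen⟩ :=
    exists_sep_z hC hntC hCE (hιE T) hTC hsepE hfgE hz₁ hδ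
  obtain ⟨hNA, hdense⟩ := hz z hzE hzz hzC
  -- the field `E₀`
  set C' : Subfield E₀ := C.comap E₀.subtype with hC'
  have hC'map : C'.map E₀.subtype = C := Zf.map_comap hCE
  let j : L →+* E₀ := ι.codRestrict E₀ hιE
  have hj : ∀ x, ((j x : E₀) : Ω) = ι x := fun x => rfl
  have hnorm : ∀ x : E₀, ‖x‖ = ‖(x : Ω)‖ := fun x => rfl
  have hadj : ∀ x : E₀, x ∈ adj C' (⟨z, hzE⟩ : E₀) ↔ (x : Ω) ∈ adj C z := by
    intro x
    have h1 := Zf.map_adj E₀.subtype C' ⟨z, hzE⟩
    rw [hC'map] at h1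
    constructor
    · intro hx
      have h2 : E₀.subtype x ∈ (adj C' (⟨z, hzE⟩ : E₀)).map E₀.subtype := ⟨x, hx, rfl⟩
      rw [h1] at h2
      exact h2
    · intro hx
      have h2 : (x : Ω) ∈ (adj C' (⟨z, hzE⟩ : E₀)).map E₀.subtype := by
        rw [h1]
        exact hx
      obtain ⟨x', hx', hxx⟩ := h2
      have h3 : x' = x := Subtype.ext hxx
      rwa [← h3]
  have hadj2 : ∀ x : E₀, (x : Ω) ∈ adj (adj C z) y →
      x ∈ adj (adj C' (⟨z, hzE⟩ : E₀)) (⟨y, hyE⟩ : E₀) := by
    intro x hx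
    have h0 := Zf.map_adj E₀.subtype C' ⟨z, hzE⟩
    rw [hC'map] at h0
    have h1 := Zf.map_adj E₀.subtype (adj C' ⟨z, hzE⟩) ⟨y, hyE⟩
    rw [h0] at h1
    have h2 : (x : Ω) ∈ (adj (adj C' (⟨z, hzE⟩ : E₀)) (⟨y, hyE⟩ : E₀)).map E₀.subtype := by
      rw [h1]
      exact hx
    obtain ⟨x', hx', hxx⟩ := h2
    have h3 : x' = x := Subtype.ext hxx
    rwa [← h3]
  have hultra : IsUltrametricDist E₀ := ⟨fun a b c =>
    IsUltrametricDist.dist_triangle_max (a : Ω) (b : Ω) (c : Ω)⟩
  have hC'cl : IsAlgClosed C' := by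
    have h1 : ∀ x : C, (⟨(x : Ω), hCE x.2⟩ : E₀) ∈ C' := fun x => x.2
    let f : C ≃+* C' :=
      { toFun := fun x => ⟨⟨(x : Ω), hCE x.2⟩, h1 x⟩
        invFun := fun x => ⟨((x : E₀) : Ω), x.2⟩
        left_inv := fun x => rfl
        right_inv := fun x => rfl
        map_mul' := fun a b => rfl
        map_add' := fun a b => rfl }
    exact IsAlgClosed.of_ringEquiv C C' f
  refine ⟨E₀, inferInstance, hultra, C', j, ⟨z, hzE⟩, ⟨y, hyE⟩, ?_, ?_, ?_⟩
  · refine ⟨fun x => ?_, hC'cl, ?_, fun c hc => hMC c hc, ?_, ?_, ?_, ?_, ?_, ?_⟩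
    · rw [hnorm, hj, hE.norm]
    · obtain ⟨x, hx, hx1⟩ := hntC
      exact ⟨⟨x, hCE hx⟩, hx, hx1⟩
    · -- algebraic
      intro x hx
      have h1 : IsAlgebraic F₀ (x : Ω) := (hCM _).1 hx
      obtain ⟨P, hP0, hP⟩ := h1
      obtain ⟨Q, hQ, hQM⟩ := Zf.exists_lift ι (M := M.toSubfield) (P.map (algebraMap F₀ Ω))
        (fun i => by
          rw [coeff_map]
          exact (P.coeff i).2)
      refine ⟨Q, hQM, ?_, ?_⟩
      · rintro rfl
        rw [Polynomial.map_zero] at hQ
        exact hP0 ((Polynomial.map_eq_zero_iff (algebraMap F₀ Ω).injective).1 hQ.symm)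
      · apply Subtype.ext
        have h2 : ((Q.eval₂ j x : E₀) : Ω) = Q.eval₂ ι (x : Ω) :=
          Polynomial.hom_eval₂ Q j E₀.subtype x
        rw [h2, ← eval_map, hQ, eval_map, ← aeval_def, hP]
        rfl
    · -- no best approximation
      intro b hb
      obtain ⟨b', hb', hbb⟩ := hNA (b : Ω) hb
      exact ⟨⟨b', hCE hb'⟩, hb', hbb⟩
    · -- separability
      obtain ⟨P, hP, hP0, hP1⟩ := Zf.sep_poly hysep
      obtain ⟨Q, hQ, hQM⟩ := Zf.exists_lift E₀.subtype (M := adj C' (⟨z, hzE⟩ : E₀)) P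
        (fun i => by
          rw [Zf.map_adj, hC'map]
          exact hP i)
      refine Zf.sep_crit Q ?_ ?_ ?_
      · rw [Polynomial.lifts_iff_coeff_lifts]
        intro i
        exact ⟨⟨_, hQM i⟩, rfl⟩
      · apply Subtype.ext
        have h2 : ((Q.eval (⟨y, hyE⟩ : E₀) : E₀) : Ω) = (Q.map E₀.subtype).eval y := by
          rw [eval_map]
          exact Polynomial.hom_eval₂ Q (RingHom.id _) E₀.subtype _
        rw [h2, hQ, hP0]
        rfl
      · intro h
        apply hP1
        have h2 : ((Q.derivative.eval (⟨y, hyE⟩ : E₀) : E₀) : Ω) =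
            (Q.derivative.map E₀.subtype).eval y := by
          rw [eval_map]
          exact Polynomial.hom_eval₂ Q.derivative (RingHom.id _) E₀.subtype _
        rw [← derivative_map, hQ, h] at h2
        exact h2.symm
    · intro x
      exact hadj2 x (hygen x x.2)
    · intro x ε hε
      obtain ⟨g, hg, hgx⟩ := hdense x x.2 ε hε
      have hgE : g ∈ E₀ := (adj_le hCE hzE : adj C z ≤ E₀) hg
      exact ⟨⟨g, hgE⟩, (hadj _).2 hg, hgx⟩
    · intro x hx
      obtain ⟨c, hc, hcx⟩ := him (x : Ω) (fun h => hx (Subtype.ext h))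
      exact ⟨⟨c, hCE hc⟩, hc, hcx⟩
  · -- stability
    have hst : MStab M C ι := mstab_of_emb hpΩ hE hD.eu hCM
    intro X hX
    obtain ⟨l, θ, hθ, horth, happ⟩ := hst (X.image E₀.subtype) (by
      intro x hx
      rw [Finset.mem_image] at hx
      obtain ⟨x', hx', rfl⟩ := hx
      obtain ⟨h1, P, hP, hPs, hP0⟩ := hX x' hx'
      refine ⟨h1, P, hP, hPs, ?_⟩
      have h2 : ((P.eval₂ j x' : E₀) : Ω) = P.eval₂ ι (x' : Ω) :=
        Polynomial.hom_eval₂ P j E₀.subtype x'
      rw [hP0] at h2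
      exact h2.symm)
    have hsum : ∀ a : Fin l → L, ((∑ t, j (a t) * (⟨θ t, hCE (hθ t).1⟩ : E₀) : E₀) : Ω) =
        ∑ t, ι (a t) * θ t := by
      intro a
      push_cast
      rfl
    refine ⟨l, fun i => ⟨θ i, hCE (hθ i).1⟩, fun i => ⟨(hθ i).1, fun h => (hθ i).2 ?_⟩, ?_, ?_⟩
    · exact congrArg Subtype.val h
    · intro a ha i
      rw [hnorm, hnorm, hsum]
      exact horth a ha i
    · intro x hx ε hε
      obtain ⟨a, ha, hax⟩ := happ (x : Ω) (by
        have h1 : (x : Ω) ∈ (Subfield.closure ((fun c : L => j c) '' (M : Set L) ∪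
            (X : Set E₀))).map E₀.subtype := ⟨x, hx, rfl⟩
        rw [RingHom.map_field_closure, Set.image_union, Set.image_image] at h1
        rw [Finset.coe_image]
        exact h1) ε hε
      refine ⟨a, ha, ?_⟩
      rw [hnorm, hnorm]
      have h2 : ((x - ∑ t, j (a t) * (⟨θ t, hCE (hθ t).1⟩ : E₀) : E₀) : Ω) =
          (x : Ω) - ∑ t, ι (a t) * θ t := by
        rw [← hsum]
        rfl
      rw [h2]
      exact hax
  · -- generation
    intro x
    have h1 : (j.fieldRange ⊔ C').map E₀.subtype = E₀ := by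
      rw [Subfield.map_sup, hC'map, RingHom.map_fieldRange]
      exact hE₀.symm
    have h2 : (x : Ω) ∈ (j.fieldRange ⊔ C').map E₀.subtype := by
      rw [h1]
      exact x.2
    obtain ⟨x', hx', hxx⟩ := h2
    have h3 : x' = x := Subtype.ext hxx
    rwa [← h3]

end DA
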